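import Mathlib

/-!
Statement-level definitions, part 1: the category X(G) attached to subgroups `T`, `U` of a group
`G` and the subgroups `U' n` of `U`, for `n` in the normaliser of `T`.
-/

namespace Pool.Agent.Work.MP_bb5f23_al.Stmt

variable {G : Type*} [Group G] {k : Type*} [Field k] {V : Type*} [AddCommGroup V] [Module k V]

/-- The weight space `M_θ`. -/
def eigen (T : Subgroup G) (ρ : Representation k G V) (θ : T →* kˣ) : Submodule k V :=
  ⨅ t : T, Module.End.eigenspace (ρ t) (θ t : k)

/-- `M_T`, the sum of the weight spaces. -/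
def torusPart (T : Subgroup G) (ρ : Representation k G V) : Submodule k V := ⨆ θ, eigen T ρ θ

/-- The subspace `k U v`. -/
def cyc (U : Subgroup G) (ρ : Representation k G V) (v : V) : Submodule k V :=
  Submodule.span k (Set.range fun u : U => ρ u v)

/-- `k U v` as a representation of `U`. -/
def cycRep (U : Subgroup G) (ρ : Representation k G V) (v : V) :
    Representation k U (cyc U ρ v) :=
  Representation.subrepresentation (ρ.comp U.subtype) (cyc U ρ v) fun g =>
    Submodule.span_le.2 <| by
      rintro _ ⟨u, rfl⟩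
      exact Submodule.subset_span ⟨g * u, by simp⟩

/-- The representation `σ` of `G` is isomorphic to `Ind_H^G tr`. -/
def IsIndTriv (H : Subgroup G) (σ : Representation k G V) : Prop :=
  Nonempty (σ.Equiv (Representation.ind H.subtype (Representation.trivial k H k)))

/-- The category `X(G)`: `M_T` has a finite basis of weight vectors `ξ_i` with
`M = ⊕ k U ξ_i` and `k U ξ_i ≅ Ind_{U'_{w_i}}^U tr` as `k U`-modules, `w_i ∈ N_G(T)`. -/
def InCat (T U : Subgroup G) (U' : G → Subgroup G) (ρ : Representation k G V) : Prop :=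
  ∃ (m : ℕ) (ξ : Fin m → V) (w : Fin m → G), (∀ i, ∃ θ, ξ i ∈ eigen T ρ θ) ∧
    LinearIndependent k ξ ∧ Submodule.span k (Set.range ξ) = torusPart T ρ ∧
    DirectSum.IsInternal (fun i => cyc U ρ (ξ i)) ∧
    ∀ i, w i ∈ Subgroup.normalizer (T : Set G) ∧
      IsIndTriv ((U' (w i)).subgroupOf U) (cycRep U ρ (ξ i))

end Pool.Agent.Work.MP_bb5f23_al.Stmt
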