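import Mathlib

-- merged part: Pool.Agent.Work.MP_bb5f23_al.Defs
section
/-!
Statement-level definitions: the root-group data of a connected reductive group over an
algebraically closed field (maximal torus, root subgroups, base) and the category X(G).
References are to T. A. Springer, Linear algebraic groups, 2nd ed.
-/

namespace Pool.Agent.Work.MP_bb5f23_al

open scoped MatrixGroups

/-- The character `z ↦ ∏ z_i ^ α_i` of the split torus `(Fˣ)^r`. -/
def mon {F : Type*} [Field F] {r : ℕ} (α : Fin r → ℤ) (z : Fin r → Fˣ) : Fˣ := ∏ i, z i ^ α i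

/-- The cocharacter `t ↦ (t ^ c_i)_i` of the split torus `(Fˣ)^r`. -/
def cochar {F : Type*} [Field F] {r : ℕ} (c : Fin r → ℤ) (t : Fˣ) : Fin r → Fˣ := fun i => t ^ c i

/-- The data: a matrix realisation `rho`, a torus `tau` with weights `wt`, roots `Phi` with base
`Delta` inside the character lattice, root homomorphisms `xh α`, and for each simple root a coroot
`co α` and a homomorphism `phi α` from `SL(2)`. -/
structure PreDatum (F : Type) [Field F] (G : Type*) [Group G] where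
  n : ℕ
  r : ℕ
  rho : G →* Matrix (Fin n) (Fin n) F
  tau : (Fin r → Fˣ) →* G
  wt : Fin n → Fin r → ℤ
  Phi : Finset (Fin r → ℤ)
  Delta : Finset (Fin r → ℤ)
  xh : (Fin r → ℤ) → Multiplicative F →* G
  co : (Fin r → ℤ) → Fin r → ℤ
  phi : (Fin r → ℤ) → SL(2, F) →* G

namespace PreDatum

variable {F : Type} [Field F] {G : Type*} [Group G] (D : PreDatum F G)

/-- The maximal torus. -/
def T : Subgroup G := D.tau.range

/-- The normaliser of the torus; `W = N / T`. -/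
def N : Subgroup G := Subgroup.normalizer (D.T : Set G)

/-- The root element `x_α(a)`. -/
def x (α : Fin D.r → ℤ) (a : F) : G := D.xh α (Multiplicative.ofAdd a)

/-- The root subgroup `U_α`. -/
def rootSub (α : Fin D.r → ℤ) : Subgroup G := (D.xh α).range

open Classical in
/-- The positive roots: roots that are sums of simple roots. -/
noncomputable def pos : Finset (Fin D.r → ℤ) :=
  D.Phi.filter fun α => α ∈ AddSubmonoid.closure (D.Delta : Set (Fin D.r → ℤ))

/-- The unipotent radical of the Borel subgroup. -/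
def U : Subgroup G := ⨆ α ∈ D.pos, D.rootSub α

/-- The unipotent radical of the opposite Borel subgroup. -/
def Uneg : Subgroup G := ⨆ α ∈ D.pos, D.rootSub (-α)

/-- The Borel subgroup `B = T U`. -/
def B : Subgroup G := D.T ⊔ D.U

/-- `U'_w` for `w = n T`: generated by the `U_α` with `α > 0` and `w(α) > 0`, where
`n U_α n⁻¹ = U_{w(α)}`. -/
def U' (n : G) : Subgroup G :=
  ⨆ α ∈ D.pos, ⨆ _ : ∃ β ∈ D.pos, (D.rootSub α).map (MulAut.conj n).toMonoidHom = D.rootSub β,
    D.rootSub α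

/-- The product `∏ x_α(a_α)` over a list of roots. -/
def prodX (l : List (Fin D.r → ℤ)) (a : (Fin D.r → ℤ) → F) : G := (l.map fun α => D.x α (a α)).prod

variable {k : Type*} [Field k] {V : Type*} [AddCommGroup V] [Module k V]

/-- The weight space `M_θ`. -/
def eigen (ρ : Representation k G V) (θ : D.T →* kˣ) : Submodule k V :=
  ⨅ t : D.T, Module.End.eigenspace (ρ t) (θ t : k)

/-- `M_T`, the sum of the weight spaces. -/
def torusPart (ρ : Representation k G V) : Submodule k V := ⨆ θ, D.eigen ρ θ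

/-- The subspace `k U v`. -/
def cyc (ρ : Representation k G V) (v : V) : Submodule k V :=
  Submodule.span k (Set.range fun u : D.U => ρ u v)

/-- `k U v` as a representation of `U`. -/
def cycRep (ρ : Representation k G V) (v : V) : Representation k D.U (D.cyc ρ v) :=
  Representation.subrepresentation (ρ.comp D.U.subtype) (D.cyc ρ v) fun g =>
    Submodule.span_le.2 <| by
      rintro _ ⟨u, rfl⟩
      exact Submodule.subset_span ⟨g * u, by simp⟩

/-- The category `X(G)`: `M_T` has a finite basis of weight vectors `ξ_i` with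
`M = ⊕ k U ξ_i` and `k U ξ_i ≅ Ind_{U'_{w_i}}^U tr` as `k U`-modules. -/
def InX (ρ : Representation k G V) : Prop :=
  ∃ (m : ℕ) (ξ : Fin m → V) (w : Fin m → G), (∀ i, ∃ θ, ξ i ∈ D.eigen ρ θ) ∧
    LinearIndependent k ξ ∧ Submodule.span k (Set.range ξ) = D.torusPart ρ ∧
    DirectSum.IsInternal (fun i => D.cyc ρ (ξ i)) ∧
    ∀ i, w i ∈ D.N ∧ Nonempty ((D.cycRep ρ (ξ i)).Equiv
      (Representation.ind ((D.U' (w i)).subgroupOf D.U).subtype (Representation.trivial k _ k)))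

end PreDatum

/-- The standard properties of a maximal torus, its root subgroups and a base in a connected
reductive group. -/
structure Datum (F : Type) [Field F] (G : Type*) [Group G] extends PreDatum F G where
  /-- `G` is linear and `T` is diagonal with weights `wt` (2.3.7, 3.2.3). -/
  rho_inj : Function.Injective rho
  rho_tau : ∀ z, rho (tau z) = Matrix.diagonal fun i => (mon (wt i) z : F)
  /-- A reduced root system with base `Delta` (7.4.3, 7.4.4, 8.2.8). -/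
  delta_sub : Delta ⊆ Phi
  delta_indep : LinearIndependent ℤ fun α : Delta => (α : Fin r → ℤ)
  pos_or_neg : ∀ α ∈ Phi, α ∈ toPreDatum.pos ∨ -α ∈ toPreDatum.pos
  neg_mem : ∀ α ∈ Phi, -α ∈ Phi
  zero_not_mem : 0 ∉ Phi
  reduced : ∀ α ∈ Phi, ∀ β ∈ Phi, ∀ a b : ℤ, a ≠ 0 → a • β = b • α → β = α ∨ β = -α
  /-- Root subgroups (8.1.1). -/
  x_inj : ∀ α ∈ Phi, Function.Injective (xh α)
  tau_x : ∀ α ∈ Phi, ∀ z a,
    tau z * toPreDatum.x α a * (tau z)⁻¹ = toPreDatum.x α (mon α z * a)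
  gen : toPreDatum.T ⊔ ⨆ α ∈ Phi, toPreDatum.rootSub α = ⊤
  /-- Rank one subgroups (7.2.4, 8.1.4). -/
  phi_upper : ∀ α ∈ Delta, ∀ (a : F) (g : SL(2, F)), g.1 = !![1, a; 0, 1] →
    phi α g = toPreDatum.x α a
  phi_lower : ∀ α ∈ Delta, ∀ (a : F) (g : SL(2, F)), g.1 = !![1, 0; a, 1] →
    phi α g = toPreDatum.x (-α) a
  phi_diag : ∀ α ∈ Delta, ∀ (t : Fˣ) (g : SL(2, F)), g.1 = !![(t : F), 0; 0, (t⁻¹ : Fˣ)] →
    phi α g = tau (cochar (co α) t)
  /-- The normaliser acts on the character lattice and permutes the root subgroups (7.1.4,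
  8.1.12). -/
  weyl : ∀ m ∈ toPreDatum.N, ∃ A : (Fin r → ℤ) →+ (Fin r → ℤ),
    (∀ γ z z', tau z' = m * tau z * m⁻¹ → mon (A γ) z' = mon γ z) ∧
    ∀ β ∈ Phi, A β ∈ Phi ∧
      ∃ c : Fˣ, ∀ a, m * toPreDatum.x β a * m⁻¹ = toPreDatum.x (A β) (c * a)
  /-- The Weyl group acts freely on the Borel subgroups containing `T` (6.4.12). -/
  norm_U : ∀ m ∈ toPreDatum.N, (∀ u ∈ toPreDatum.U, m * u * m⁻¹ ∈ toPreDatum.U) →
    m ∈ toPreDatum.T
  /-- Commutator relations (8.2.3). -/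
  comm : ∀ α ∈ toPreDatum.pos, ∀ β ∈ toPreDatum.pos, α ≠ β → ∀ a b,
    toPreDatum.x α a * toPreDatum.x β b * (toPreDatum.x α a)⁻¹ * (toPreDatum.x β b)⁻¹ ∈
      ⨆ γ ∈ Phi, ⨆ _ : ∃ i j : ℕ, 0 < i ∧ 0 < j ∧ γ = i • α + j • β, toPreDatum.rootSub γ
  /-- `U` is directly spanned by the positive root subgroups in any order (8.2.1). -/
  prod_surj : ∀ l : List (Fin r → ℤ), l.Nodup → (∀ α, α ∈ l ↔ α ∈ toPreDatum.pos) →
    ∀ u ∈ toPreDatum.U, ∃ a, u = toPreDatum.prodX l a
  prod_inj : ∀ l : List (Fin r → ℤ), l.Nodup → (∀ α, α ∈ l ↔ α ∈ toPreDatum.pos) →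
    ∀ a b, toPreDatum.prodX l a = toPreDatum.prodX l b → ∀ α ∈ l, a α = b α
  /-- Opposite Borel subgroups (8.3.6, 8.3.11). -/
  opp : toPreDatum.B ⊓ toPreDatum.Uneg = ⊥

end Pool.Agent.Work.MP_bb5f23_al
end

-- merged part: Pool.Agent.Work.MP_bb5f23_al.Setup
section
/-! Proof-level definitions (not used in the final statement). -/

namespace Pool.Agent.Work.MP_bb5f23_al

open scoped MatrixGroups

/-- `F` is algebraic over a finite prime field. -/
class IsFbar (F : Type) [Field F] : Prop where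
  exists_prime : ∃ p : ℕ, p.Prime ∧ CharP F p ∧ ∀ a : F, ∃ m, 0 < m ∧ a ^ p ^ m = a

/-- Equivariant linear maps as a submodule of all linear maps. -/
def Hom {k G V W : Type*} [Field k] [Group G] [AddCommGroup V] [Module k V] [AddCommGroup W]
    [Module k W] (ρ : Representation k G V) (σ : Representation k G W) :
    Submodule k (V →ₗ[k] W) where
  carrier := {f | ∀ g v, f (ρ g v) = σ g (f v)}
  add_mem' hf hg g v := by simp [hf g v, hg g v]
  zero_mem' g v := by simp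
  smul_mem' c f hf g v := by simp [hf g v]

/-- `W` is invariant under `ρ`. -/
def Inv {k G V : Type*} [Field k] [Group G] [AddCommGroup V] [Module k V]
    (ρ : Representation k G V) (W : Submodule k V) : Prop := ∀ g, W ≤ W.comap (ρ g)

/-- The action of a finitely supported function on the group: `∑ a(g) ρ(g) v`. -/
noncomputable def lc {k G V : Type*} [Field k] [Group G] [AddCommGroup V] [Module k V]
    (ρ : Representation k G V) (v : V) : (G →₀ k) →ₗ[k] V :=
  Finsupp.linearCombination k fun g => ρ g v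

/-- A multiplicative cocycle on a `G`-set. -/
structure Cocycle (k G X : Type*) [Field k] [Group G] [MulAction G X] where
  c : G → X → kˣ
  c_one : ∀ x, c 1 x = 1
  c_mul : ∀ g h x, c (g * h) x = c g (h • x) * c h x

namespace Cocycle

variable {k G X : Type*} [Field k] [Group G] [MulAction G X]

/-- The monomial representation of a cocycle. -/
noncomputable def rep (c : Cocycle k G X) : Representation k G (X →₀ k) where
  toFun g := Finsupp.linearCombination k fun x => Finsupp.single (g • x) (c.c g x : k)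
  map_one' := by
    ext x y
    simp [c.c_one]
  map_mul' g h := by
    ext x y
    simp [c.c_mul, mul_smul, mul_comm]

theorem rep_single (c : Cocycle k G X) (g : G) (x : X) (a : k) :
    c.rep g (Finsupp.single x a) = Finsupp.single (g • x) (c.c g x * a) := by
  simp [rep, mul_comm]

theorem out_mem (P : Subgroup G) (g : G) (x : G ⧸ P) : (g • x).out⁻¹ * g * x.out ∈ P := by
  rw [mul_assoc, ← QuotientGroup.eq, QuotientGroup.out_eq']
  conv_lhs => rw [← QuotientGroup.out_eq' x]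
  rfl

/-- The cocycle of the representation induced from a character `χ` of `P`. -/
noncomputable def ofChar (P : Subgroup G) (χ : P →* kˣ) : Cocycle k G (G ⧸ P) where
  c g x := χ ⟨_, out_mem P g x⟩
  c_one x := by
    rw [← map_one χ]
    congr 1
    ext
    simp
  c_mul g h x := by
    rw [← map_mul]
    congr 1
    ext
    simp [mul_smul, mul_assoc]

theorem out_mem' (P : Subgroup G) (g : G) : (g : G ⧸ P).out⁻¹ * g ∈ P := by
  rw [← QuotientGroup.eq, QuotientGroup.out_eq']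

/-- The vector `g ⊗ 1` of the induced representation. -/
noncomputable def vec (P : Subgroup G) (χ : P →* kˣ) (g : G) : (G ⧸ P) →₀ k :=
  Finsupp.single (g : G ⧸ P) (χ ⟨_, out_mem' P g⟩ : k)

theorem rep_vec (P : Subgroup G) (χ : P →* kˣ) (g h : G) :
    (ofChar P χ).rep g (vec P χ h) = vec P χ (g * h) := by
  rw [vec, rep_single, vec]
  change Finsupp.single ((g * h : G) : G ⧸ P) _ = _
  congr 1
  simp only [ofChar]
  rw [← Units.val_mul, ← map_mul]
  congr 2
  ext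
  simp only [Subgroup.coe_mul, mul_assoc, mul_inv_cancel_left]
  rfl

theorem vec_mul (P : Subgroup G) (χ : P →* kˣ) (g p : G) (hp : p ∈ P) :
    vec P χ (g * p) = (χ ⟨p, hp⟩ : k) • vec P χ g := by
  have h : ((g * p : G) : G ⧸ P) = g := by
    rw [eq_comm, QuotientGroup.eq]
    simpa using hp
  simp only [vec, Finsupp.smul_single, smul_eq_mul]
  rw [← Units.val_mul, mul_comm (χ _), ← map_mul]
  simp only [h]
  congr 3
  ext
  simp [mul_assoc]

theorem vec_eq (P : Subgroup G) (χ : P →* kˣ) (g : G) :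
    ∃ a : kˣ, vec P χ g = Finsupp.single (g : G ⧸ P) (a : k) := ⟨_, rfl⟩

end Cocycle

/-- Operators satisfying the relations of `SL(2, F)`. -/
structure SL2Op (F k M : Type*) [Field F] [Field k] [AddCommGroup M] [Module k M] where
  u : F → Module.End k M
  h : Fˣ → Module.End k M
  s : Module.End k M
  u_zero : u 0 = 1
  u_add : ∀ a b, u (a + b) = u a * u b
  h_one : h 1 = 1
  h_mul : ∀ a b, h (a * b) = h a * h b
  h_u : ∀ (a : Fˣ) b, h a * u b = u ((a : F) ^ 2 * b) * h a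
  s_h : ∀ a, s * h a = h a⁻¹ * s
  s_s : s * s = h (-1)
  s_u : ∀ a : Fˣ, s * u a = u (-(a⁻¹ : Fˣ)) * h a⁻¹ * s * u (-(a⁻¹ : Fˣ)) * s

namespace Datum

variable {F : Type} [Field F] {G : Type*} [Group G] (D : Datum F G)

/-- The simple reflection representative. -/
def s (α : Fin D.r → ℤ) : G := D.phi α ⟨!![0, 1; -1, 0], by simp [Matrix.det_fin_two]⟩

/-- The coroot element `α^∨(a)`. -/
def h (α : Fin D.r → ℤ) (a : Fˣ) : G := D.tau (cochar (D.co α) a)

open Classical in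
/-- The action of `N` on the character lattice. -/
noncomputable def act (m : G) : (Fin D.r → ℤ) →+ (Fin D.r → ℤ) :=
  if hm : m ∈ D.N then (D.weyl m hm).choose else AddMonoidHom.id _

open Classical in
/-- The positive roots kept positive by `m`. -/
noncomputable def Psi (m : G) : Finset (Fin D.r → ℤ) := D.pos.filter fun β => D.act m β ∈ D.pos

open Classical in
/-- The number of positive roots made negative by `m`. -/
noncomputable def len (m : G) : ℕ := (D.pos.filter fun β => D.act m β ∉ D.pos).card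

/-- The group generated by the `s j`, `j ∈ J`. -/
def NJ (J : Finset (Fin D.r → ℤ)) : Subgroup G := Subgroup.closure (D.s '' J)

open Classical in
/-- The positive roots outside the subsystem generated by `J`. -/
noncomputable def posOut (J : Finset (Fin D.r → ℤ)) : Finset (Fin D.r → ℤ) :=
  D.pos.filter fun β => β ∉ AddSubmonoid.closure (J : Set (Fin D.r → ℤ))

/-- Membership in the root subsystem generated by `J`. -/
def InSub (J : Finset (Fin D.r → ℤ)) (β : Fin D.r → ℤ) : Prop :=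
  β ∈ D.Phi ∧ (β ∈ AddSubmonoid.closure (J : Set (Fin D.r → ℤ)) ∨
    -β ∈ AddSubmonoid.closure (J : Set (Fin D.r → ℤ)))

/-- `x` is minimal in `x N_J`. -/
def MinRep (J : Finset (Fin D.r → ℤ)) (x : G) : Prop := x ∈ D.N ∧ ∀ j ∈ J, D.act x j ∈ D.pos

/-- `x` is maximal in `x N_J`. -/
def MaxRep (J : Finset (Fin D.r → ℤ)) (x : G) : Prop := x ∈ D.N ∧ ∀ j ∈ J, D.act x j ∉ D.pos

/-- The unipotent radical of the standard parabolic subgroup of type `J`. -/
def VJ (J : Finset (Fin D.r → ℤ)) : Subgroup G := ⨆ γ ∈ D.posOut J, D.rootSub γ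

/-- The standard parabolic subgroup of type `J`. -/
def P (J : Finset (Fin D.r → ℤ)) : Subgroup G := D.B ⊔ D.NJ J

/-- The part of `U` conjugated into `U⁻` by `m`. -/
def Um (m : G) : Subgroup G := D.U ⊓ D.Uneg.comap (MulAut.conj m).toMonoidHom

theorem tau_mem (z : Fin D.r → Fˣ) : D.tau z ∈ D.T := ⟨z, rfl⟩

theorem h_mem (α : Fin D.r → ℤ) (a : Fˣ) : D.h α a ∈ D.T := ⟨_, rfl⟩

open Classical in
/-- `I(θ)`. -/
noncomputable def Ith {A : Type*} [CommGroup A] (θ : D.T →* A) : Finset (Fin D.r → ℤ) :=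
  D.Delta.filter fun α => ∀ a, θ ⟨D.h α a, D.h_mem α a⟩ = 1

/-- The length of a coset: the least length of a Bruhat cell meeting it. -/
noncomputable def clen (J : Finset (Fin D.r → ℤ)) (c : G ⧸ D.P J) : ℕ :=
  sInf {l | ∃ m ∈ D.N, ∃ u ∈ D.U, c = ((u * m : G) : G ⧸ D.P J) ∧ l = D.len m}

/-- `α` is a descent of the coset `m P_J`. -/
def Desc (J : Finset (Fin D.r → ℤ)) (α : Fin D.r → ℤ) (m : G) : Prop :=
  D.clen J ((D.s α * m : G) : G ⧸ D.P J) < D.clen J (m : G ⧸ D.P J)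

variable {k : Type*} [Field k] {V : Type*} [AddCommGroup V] [Module k V]

/-- The Steinberg relations for the simple root `α`. -/
def St (ρ : Representation k G V) (α : Fin D.r → ℤ) : Submodule k V where
  carrier := {y | (∀ a, ρ (D.h α a) y = y) ∧ ρ (D.s α) y = -y ∧
    ∀ a : Fˣ, ρ (D.s α * D.x α a) y = ρ (D.x α (-(a⁻¹ : Fˣ))) y - y}
  add_mem' := by
    rintro y z ⟨h1, h2, h3⟩ ⟨k1, k2, k3⟩
    refine ⟨fun a => by simp [h1 a, k1 a], by simp [h2, k2, add_comm], fun a => ?_⟩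
    rw [map_add, h3, k3, map_add]
    abel
  zero_mem' := by simp
  smul_mem' := by
    rintro c y ⟨h1, h2, h3⟩
    refine ⟨fun a => by simp [h1 a], by simp [h2], fun a => ?_⟩
    rw [map_smul, h3, map_smul, smul_sub]

/-- The relations satisfied by the generator `η(θ)_J`. -/
structure Good (ρ : Representation k G V) (θ : D.T →* kˣ) (J : Finset (Fin D.r → ℤ)) (y : V) :
    Prop where
  sub : J ⊆ D.Ith θ
  eig : ∀ t : D.T, ρ t y = (θ t : k) • y
  fix : ∀ γ ∈ D.posOut J, ∀ a, ρ (D.x γ a) y = y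
  st : ∀ j ∈ J, y ∈ D.St ρ j

/-- The alternating sum over `N_J` (a finite group over `F`-bar). -/
noncomputable def zeta (ρ : Representation k G V) (J : Finset (Fin D.r → ℤ)) (y : V) : V :=
  ∑ᶠ v ∈ (D.NJ J : Set G), (-1 : k) ^ D.len v • ρ v y

/-- A character of a standard parabolic subgroup extending `θ`. -/
structure Par (k : Type*) [Field k] where
  θ : D.T →* kˣ
  J' : Finset (Fin D.r → ℤ)
  sub : J' ⊆ D.Ith θ
  χ : D.P J' →* kˣ
  χ_T : ∀ (t : D.T) (ht : (t : G) ∈ D.P J'), χ ⟨t, ht⟩ = θ t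
  χ_U : ∀ u ∈ D.U, ∀ hu : u ∈ D.P J', χ ⟨u, hu⟩ = 1
  χ_s : ∀ j ∈ J', ∀ hj : D.s j ∈ D.P J', χ ⟨D.s j, hj⟩ = 1

namespace Par

variable {D} (Q : D.Par k)

/-- The cocycle of the induced representation. -/
noncomputable def coc : Cocycle k G (G ⧸ D.P Q.J') := Cocycle.ofChar (D.P Q.J') Q.χ

/-- The induced representation `Ind_{P_{J'}}^G χ`. -/
noncomputable def rep : Representation k G ((G ⧸ D.P Q.J') →₀ k) := Q.coc.rep

/-- The vector `g ⊗ 1`. -/
noncomputable def vec (g : G) : (G ⧸ D.P Q.J') →₀ k := Cocycle.vec (D.P Q.J') Q.χ g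

/-- The complementary set `J = I(θ) \ J'`. -/
noncomputable def J : Finset (Fin D.r → ℤ) := D.Ith Q.θ \ Q.J'

/-- The generator of the socle. -/
noncomputable def eta : (G ⧸ D.P Q.J') →₀ k := D.zeta Q.rep Q.J (Q.vec 1)

theorem rep_vec (g h : G) : Q.rep g (Q.vec h) = Q.vec (g * h) := Cocycle.rep_vec _ _ g h

theorem vec_mul (g p : G) (hp : p ∈ D.P Q.J') :
    Q.vec (g * p) = (Q.χ ⟨p, hp⟩ : k) • Q.vec g := Cocycle.vec_mul _ _ g p hp

theorem vec_eq (g : G) : ∃ a : kˣ, Q.vec g = Finsupp.single (g : G ⧸ D.P Q.J') (a : k) :=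
  ⟨_, rfl⟩

end Par

/-- The normal form of an object of `X(G)`: the vectors `u ξ_i`, `u ∈ U / U'_{w_i}`, form a
basis (expressed through the coordinate map `co`). -/
structure NF (ρ : Representation k G V) where
  m : ℕ
  ξ : Fin m → V
  w : Fin m → G
  θ : Fin m → (D.T →* kˣ)
  w_mem : ∀ i, w i ∈ D.N
  eig : ∀ i (t : D.T), ρ t (ξ i) = (θ i t : k) • ξ i
  span_top : Submodule.span k {v | ∃ i, ∃ u ∈ D.U, v = ρ u (ξ i)} = ⊤
  co : V →ₗ[k] ((Σ i : Fin m, G ⧸ D.U' (w i)) →₀ k)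
  co_inj : Function.Injective co
  co_apply : ∀ i, ∀ u ∈ D.U, co (ρ u (ξ i)) = Finsupp.single ⟨i, (u : G ⧸ D.U' (w i))⟩ 1
  stable : ∀ n ∈ D.N, ∀ i, ρ n (ξ i) ∈ Submodule.span k (Set.range ξ)

/-- Invariant subspaces with a finite filtration whose steps embed in induced modules. -/
inductive Filt (ρ : Representation k G V) : Submodule k V → Prop
  | bot : Filt ρ ⊥
  | step (W W' : Submodule k V) (Q : D.Par k) (f : V →ₗ[k] ((G ⧸ D.P Q.J') →₀ k)) :
      Filt ρ W → W ≤ W' → Inv ρ W' → (∀ g, ∀ v ∈ W', f (ρ g v) = Q.rep g (f v)) →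
      (∀ v ∈ W', f v = 0 ↔ v ∈ W) → Filt ρ W'

/-- An exhausting tower of finite levels `G(F_Q)`. -/
structure Tower where
  lev : ℕ → Subgroup G
  fld : ℕ → Subfield F
  lev_fin : ∀ i, (lev i : Set G).Finite
  fld_fin : ∀ i, (fld i : Set F).Finite
  lev_mono : Monotone lev
  fld_mono : Monotone fld
  lev_ex : ∀ g, ∃ i, g ∈ lev i
  fld_ex : ∀ a, ∃ i, a ∈ fld i
  s_mem : ∀ i, ∀ α ∈ D.Delta, D.s α ∈ lev i
  x_mem : ∀ i, ∀ α ∈ D.Delta, ∀ a, D.x α a ∈ lev i ↔ a ∈ fld i
  bruhat : ∀ i, ∀ g ∈ lev i, ∃ u ∈ D.U ⊓ lev i, ∃ n ∈ D.N, ∃ b ∈ D.B, g = u * n * b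
  decomp : ∀ i, ∀ α ∈ D.Delta, ∀ u ∈ D.U ⊓ lev i,
    ∃ u' ∈ D.U' (D.s α) ⊓ lev i, ∃ a ∈ fld i, u = u' * D.x α a

/-- The sum over the finite unipotent group of level `i`. -/
noncomputable def Tower.usum {D : Datum F G} (L : D.Tower) (ρ : Representation k G V) (i : ℕ)
    (y : V) : V := ∑ᶠ u ∈ ((D.U ⊓ L.lev i : Subgroup G) : Set G), ρ u y

end Datum

end Pool.Agent.Work.MP_bb5f23_al
end

-- merged part: Pool.Agent.Work.MP_bb5f23_al.Basic
section
/-! Characters of the split torus, local finiteness, equivariant retractions. -/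

namespace Pool.Agent.Work.MP_bb5f23_al

section mon

variable {F : Type*} [Field F] {r : ℕ}

theorem mon_add (α β : Fin r → ℤ) (z : Fin r → Fˣ) : mon (α + β) z = mon α z * mon β z := by
  simp [mon, zpow_add, Finset.prod_mul_distrib]

theorem mon_zero (z : Fin r → Fˣ) : mon (0 : Fin r → ℤ) z = 1 := by simp [mon]

theorem mon_neg (α : Fin r → ℤ) (z : Fin r → Fˣ) : mon (-α) z = (mon α z)⁻¹ := by
  simp [mon]

theorem mon_zsmul (c : ℤ) (α : Fin r → ℤ) (z : Fin r → Fˣ) : mon (c • α) z = mon α z ^ c := by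
  simp [mon, ← Finset.prod_zpow, ← zpow_mul, mul_comm]

theorem mon_mul (α : Fin r → ℤ) (z w : Fin r → Fˣ) : mon α (z * w) = mon α z * mon α w := by
  simp [mon, mul_zpow, Finset.prod_mul_distrib]

theorem mon_one (α : Fin r → ℤ) : mon α (1 : Fin r → Fˣ) = 1 := by simp [mon]

theorem mon_inv (α : Fin r → ℤ) (z : Fin r → Fˣ) : mon α z⁻¹ = (mon α z)⁻¹ := by
  simp [mon]

theorem mon_cochar (α c : Fin r → ℤ) (t : Fˣ) : mon α (cochar c t) = t ^ (α ⬝ᵥ c) := by
  simp only [mon, cochar, dotProduct, ← zpow_mul]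
  induction (Finset.univ : Finset (Fin r)) using Finset.induction_on with
  | empty => simp
  | insert i s hi ih => rw [Finset.prod_insert hi, Finset.sum_insert hi, ih, zpow_add, mul_comm (c i)]

theorem cochar_mul (c : Fin r → ℤ) (s t : Fˣ) : cochar c (s * t) = cochar c s * cochar c t := by
  ext i
  simp [cochar, mul_zpow]

theorem Basic_single (α : Fin r → ℤ) (i : Fin r) (t : Fˣ) :
    mon α (cochar (Pi.single i 1) t) = t ^ α i := by
  rw [mon_cochar, dotProduct_single, mul_one]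

variable [IsAlgClosed F]

theorem Basic_root {m : ℤ} (hm : m ≠ 0) (a : Fˣ) : ∃ t : Fˣ, t ^ m = a := by
  have key : ∀ n : ℕ, 0 < n → ∃ t : Fˣ, t ^ n = a := fun n hn => by
    obtain ⟨z, hz⟩ := IsAlgClosed.exists_pow_nat_eq (a : F) hn
    have hz0 : z ≠ 0 := by
      rintro rfl
      rw [zero_pow hn.ne'] at hz
      exact a.ne_zero hz.symm
    exact ⟨Units.mk0 z hz0, Units.ext (by simpa using hz)⟩
  obtain ⟨t, ht⟩ := key m.natAbs (Int.natAbs_pos.2 hm)
  rcases Int.natAbs_eq m with h | h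
  · exact ⟨t, by rw [h, zpow_natCast, ht]⟩
  · exact ⟨t⁻¹, by rw [h, zpow_neg, zpow_natCast, inv_pow, inv_inv, ht]⟩

/-- Over an algebraically closed field `t ^ m = 1` for all `t` forces `m = 0` (infinite field,
finitely many roots of `X ^ |m| - 1`). -/
theorem eq_zero_of_forall_zpow {m : ℤ} (h : ∀ t : Fˣ, t ^ m = 1) : m = 0 := by
  classical
  by_contra hm
  obtain ⟨a, ha⟩ := Infinite.exists_notMem_finset ({0, 1} : Finset F)
  simp only [Finset.mem_insert, Finset.mem_singleton, not_or] at ha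
  obtain ⟨t, ht⟩ := Basic_root hm (Units.mk0 a ha.1)
  exact ha.2 (congrArg Units.val (ht.symm.trans (h t)))

/-- `t ↦ t ^ m` is onto for `m ≠ 0` (`IsAlgClosed.exists_pow_nat_eq`). -/
theorem exists_zpow_eq {m : ℤ} (hm : m ≠ 0) (a : Fˣ) : ∃ t : Fˣ, t ^ m = a :=
  Basic_root hm a

/-- Test on `z = Pi.mulSingle i t`. -/
theorem mon_inj {α β : Fin r → ℤ} (h : ∀ z : Fin r → Fˣ, mon α z = mon β z) : α = β := by
  funext i
  refine sub_eq_zero.1 (eq_zero_of_forall_zpow (F := F) fun t => ?_)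
  have := h (cochar (Pi.single i 1) t)
  rw [Basic_single, Basic_single] at this
  rw [zpow_sub, this, mul_inv_cancel]

theorem mon_surj {α : Fin r → ℤ} (hα : α ≠ 0) (a : Fˣ) : ∃ z, mon α z = a := by
  obtain ⟨i, hi⟩ := Function.ne_iff.1 hα
  obtain ⟨t, ht⟩ := exists_zpow_eq hi a
  exact ⟨_, (Basic_single α i t).trans ht⟩

/-- If `γ` is not proportional to `α` then `γ` maps `ker α` onto `Fˣ`. If `α = 0` use `mon_surj`.
Otherwise pick `j` with `α j ≠ 0`; since `α j • γ ≠ γ j • α` there is `i` with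
`α j * γ i ≠ γ j * α i`; use the cocharacter `α j • e_i - α i • e_j` and `mon_cochar`. -/
theorem mon_sep {α γ : Fin r → ℤ} (h : ∀ a b : ℤ, a ≠ 0 → a • γ ≠ b • α) (a : Fˣ) :
    ∃ z, mon α z = 1 ∧ mon γ z = a := by
  by_cases hα : α = 0
  · obtain ⟨z, hz⟩ := mon_surj (α := γ) (by simpa using h 1 0 one_ne_zero) a
    exact ⟨z, by rw [hα, mon_zero], hz⟩
  obtain ⟨j, hj⟩ := Function.ne_iff.1 hα
  obtain ⟨i, hi⟩ := Function.ne_iff.1 (h (α j) (γ j) hj)
  have e : ∀ β : Fin r → ℤ, β ⬝ᵥ (Pi.single i (α j) - Pi.single j (α i)) =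
      β i * α j - β j * α i := fun β => by
    rw [dotProduct_sub, dotProduct_single, dotProduct_single]
  obtain ⟨t, ht⟩ := exists_zpow_eq (m := γ i * α j - γ j * α i) (fun h0 => hi (by
    simp only [Pi.smul_apply, smul_eq_mul]
    linarith)) a
  refine ⟨cochar (Pi.single i (α j) - Pi.single j (α i)) t, ?_, ?_⟩
  · rw [mon_cochar, e, mul_comm, sub_self, zpow_zero]
  · rw [mon_cochar, e, ht]

end mon

section locfin

variable {F : Type} [Field F] {G : Type*} [Group G] {ι : Type*} [Fintype ι] [DecidableEq ι]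

/-- The elements whose matrix is fixed by a ring endomorphism of `F`. For inverses: apply
`σ.mapMatrix` to `rho g⁻¹ * rho g = 1` and cancel. -/
def fixSub (rho : G →* Matrix ι ι F) (σ : F →+* F) : Subgroup G where
  carrier := {g | (rho g).map σ = rho g}
  one_mem' := by
    change (rho 1).map σ = rho 1
    rw [map_one, Matrix.map_one _ (map_zero σ) (map_one σ)]
  mul_mem' {a b} ha hb := by
    change (rho (a * b)).map σ = rho (a * b)
    rw [map_mul, Matrix.map_mul, ha, hb]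
  inv_mem' {g} hg := by
    change (rho g⁻¹).map σ = rho g⁻¹
    have hg' : (rho g).map σ = rho g := hg
    have h1 : (rho g⁻¹).map σ * rho g = 1 := by
      rw [← hg', ← Matrix.map_mul, ← map_mul, inv_mul_cancel, map_one,
        Matrix.map_one _ (map_zero σ) (map_one σ)]
    rw [← mul_one ((rho g⁻¹).map σ), ← map_one rho, ← mul_inv_cancel g, map_mul, ← mul_assoc, h1,
      one_mul]

theorem mem_fixSub (rho : G →* Matrix ι ι F) (σ : F →+* F) (g : G) :
    g ∈ fixSub rho σ ↔ ∀ i j, σ (rho g i j) = rho g i j := by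
  change (rho g).map σ = rho g ↔ _
  rw [← Matrix.ext_iff]
  rfl

/-- The fixed points of `a ↦ a ^ p ^ m` are roots of a nonzero polynomial of degree `p ^ m`. -/
theorem fix_frob_finite (p : ℕ) [Fact p.Prime] [CharP F p] {m : ℕ} (hm : 0 < m) :
    {a : F | iterateFrobenius F p m a = a}.Finite ∧
      {a : F | iterateFrobenius F p m a = a}.ncard ≤ p ^ m := by
  classical
  have h1 : 1 < p ^ m := Nat.one_lt_pow hm.ne' (Fact.out : p.Prime).one_lt
  have e : {a : F | iterateFrobenius F p m a = a} =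
      ((Polynomial.X ^ p ^ m - Polynomial.X : Polynomial F).roots.toFinset : Set F) := by
    ext a
    simp [iterateFrobenius_def, FiniteField.X_pow_card_sub_X_ne_zero F h1, sub_eq_zero]
  rw [e, Set.ncard_coe_finset]
  refine ⟨Finset.finite_toSet _, (Multiset.toFinset_card_le _).trans ?_⟩
  exact (Polynomial.card_roots' _).trans (FiniteField.X_pow_card_sub_X_natDegree_eq F h1).le

theorem fix_frob_dvd (p : ℕ) [Fact p.Prime] [CharP F p] {m m' : ℕ} (h : m ∣ m') {a : F}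
    (ha : iterateFrobenius F p m a = a) : iterateFrobenius F p m' a = a := by
  obtain ⟨c, rfl⟩ := h
  induction c with
  | zero => simp
  | succ c ih => rw [Nat.mul_succ, iterateFrobenius_add_apply, ha, ih]

theorem fixSub_finite (p : ℕ) [Fact p.Prime] [CharP F p] {m : ℕ} (hm : 0 < m)
    (rho : G →* Matrix ι ι F) (hrho : Function.Injective rho) :
    (fixSub rho (iterateFrobenius F p m) : Set G).Finite := by
  have h : {A : Matrix ι ι F | ∀ i, A i ∈ {v : ι → F | ∀ j,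
      v j ∈ {a : F | iterateFrobenius F p m a = a}}}.Finite :=
    Set.Finite.pi' fun _ => Set.Finite.pi' fun _ => (fix_frob_finite p hm).1
  exact (h.preimage hrho.injOn).subset fun g hg => (mem_fixSub _ _ g).1 hg

/-- Every finite set lies in one level. -/
theorem exists_level (p : ℕ) [Fact p.Prime] [CharP F p]
    (hp : ∀ a : F, ∃ m, 0 < m ∧ a ^ p ^ m = a) (rho : G →* Matrix ι ι F) {S : Set G}
    (hS : S.Finite) : ∃ m, 0 < m ∧ S ⊆ fixSub rho (iterateFrobenius F p m) := by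
  choose f h1 h2 using hp
  refine ⟨∏ x ∈ hS.toFinset ×ˢ (Finset.univ : Finset (ι × ι)), f (rho x.1 x.2.1 x.2.2),
    Finset.prod_pos fun _ _ => h1 _, fun g hg => (mem_fixSub _ _ g).2 fun i j => ?_⟩
  refine fix_frob_dvd p (m := f (rho g i j)) ?_ (h2 _)
  exact Finset.dvd_prod_of_mem (fun x : G × ι × ι => f (rho x.1 x.2.1 x.2.2)) (a := (g, i, j))
    (by simpa using hg)

/-- Local finiteness. -/
theorem closure_finite [IsFbar F] (rho : G →* Matrix ι ι F) (hrho : Function.Injective rho)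
    {S : Set G} (hS : S.Finite) : (Subgroup.closure S : Set G).Finite := by
  obtain ⟨p, hp, _, h⟩ := IsFbar.exists_prime (F := F)
  have := Fact.mk hp
  obtain ⟨m, hm, hS'⟩ := exists_level p h rho hS
  exact (fixSub_finite p hm rho hrho).subset ((Subgroup.closure_le _).2 hS')

theorem isOfFinOrder_of_rho [IsFbar F] (rho : G →* Matrix ι ι F)
    (hrho : Function.Injective rho) (g : G) : IsOfFinOrder g := by
  rw [← finite_zpowers, Subgroup.zpowers_eq_closure]
  exact closure_finite rho hrho (Set.finite_singleton g)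

instance (p : ℕ) [Fact p.Prime] : IsFbar (AlgebraicClosure (ZMod p)) := by
  refine ⟨p, Fact.out, inferInstance, fun a => ?_⟩
  let K := IntermediateField.adjoin (ZMod p) ({a} : Set (AlgebraicClosure (ZMod p)))
  have : FiniteDimensional (ZMod p) K :=
    IntermediateField.adjoin.finiteDimensional (Algebra.IsIntegral.isIntegral a)
  have : Finite K := Module.finite_of_finite (ZMod p)
  have := Fintype.ofFinite K
  obtain ⟨n, -, hn⟩ := FiniteField.card K p
  refine ⟨n, n.2, ?_⟩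
  have h := FiniteField.pow_card (⟨a, IntermediateField.mem_adjoin_simple_self _ a⟩ : K)
  rw [hn] at h
  exact congrArg Subtype.val h

theorem Basic_prime {q π l : ℕ} (hπ : π.Prime) (hl : l.Prime)
    (h : l ∣ ∑ i ∈ Finset.range π, q ^ i) : π ≤ l := by
  have := Fact.mk hl
  have := Fact.mk hπ
  have h0 : ∑ i ∈ Finset.range π, (q : ZMod l) ^ i = 0 := by
    have := (ZMod.natCast_eq_zero_iff _ _).2 h
    simpa using this
  by_cases h1 : (q : ZMod l) = 1
  · rw [h1] at h0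
    simp only [one_pow, Finset.sum_const, Finset.card_range, nsmul_eq_mul, mul_one] at h0
    exact ((Nat.prime_dvd_prime_iff_eq hl hπ).1 ((ZMod.natCast_eq_zero_iff _ _).1 h0)).ge
  · have h2 : (q : ZMod l) ^ π = 1 := by
      rw [← sub_eq_zero, ← geom_sum_mul, h0, zero_mul]
    have h3 : (q : ZMod l) ≠ 0 := by
      intro e
      rw [e, zero_pow hπ.ne_zero] at h2
      exact zero_ne_one h2
    have h4 := ZMod.orderOf_dvd_card_sub_one h3
    rw [orderOf_eq_prime h2 h1] at h4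
    exact (Nat.le_of_dvd (Nat.sub_pos_of_lt hl.one_lt) h4).trans (Nat.sub_le _ _)

/-- Levels with large prime divisors. Let `q = p ^ m0`, let `π` be a prime `≥ π0` (and large),
`m = m0 * π`, `d = (q ^ π - 1) / (q - 1) = ∑ i < π, q ^ i`, `A = rootsOfUnity d F`, which has
exactly `d` elements since `d = 1 ≠ 0` in `F` (`HasEnoughRootsOfUnity.natCard_rootsOfUnity` or
`IsPrimitiveRoot.card_rootsOfUnity`). A prime `l ∣ d` has `q ^ π = 1` in `ZMod l`: if `q = 1` there
then `d = π` in `ZMod l`, so `l = π`; otherwise the order of `q` is `π`, which divides `l - 1`. -/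
theorem exists_big_level [IsAlgClosed F] (p : ℕ) [Fact p.Prime] [CharP F p] {m0 : ℕ}
    (hm0 : 0 < m0) (π0 : ℕ) : ∃ (m : ℕ) (A : Subgroup Fˣ), 0 < m ∧ m0 ∣ m ∧ Finite A ∧
      (∀ a ∈ A, iterateFrobenius F p m (a : F) = a) ∧ π0 ≤ Nat.card A ∧
      (∀ l : ℕ, l.Prime → l ∣ Nat.card A → π0 ≤ l) ∧ p ^ m ≤ p ^ m0 * Nat.card A := by
  obtain ⟨π, h1, hπ⟩ := Nat.exists_infinite_primes π0
  have hp : p.Prime := Fact.out
  obtain ⟨x, hx⟩ : ∃ x, p ^ m0 = x + 1 := ⟨p ^ m0 - 1, by have := pow_pos hp.pos m0; omega⟩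
  obtain ⟨d, hd⟩ : ∃ d, d = ∑ i ∈ Finset.range π, (x + 1) ^ i := ⟨_, rfl⟩
  have e : d * x + 1 = p ^ (m0 * π) := by rw [hd, geom_sum_mul_add, pow_mul, hx]
  have hπd : π ≤ d := by
    have := Finset.card_nsmul_le_sum (Finset.range π) (fun i => (x + 1) ^ i) 1
      fun i _ => Nat.one_le_pow _ _ x.succ_pos
    simpa [hd] using this
  have hF : (d : F) ≠ 0 := by
    intro h0
    have h2 := congrArg (Nat.cast : ℕ → F) e
    rw [Nat.cast_add, Nat.cast_mul, h0, Nat.cast_pow, CharP.cast_eq_zero F p,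
      zero_pow (Nat.mul_pos hm0 hπ.pos).ne'] at h2
    simp at h2
  have : NeZero (d : F) := ⟨hF⟩
  have : NeZero d := NeZero.of_neZero_natCast F
  have hc : Nat.card (rootsOfUnity d F) = d := HasEnoughRootsOfUnity.natCard_rootsOfUnity F d
  refine ⟨m0 * π, rootsOfUnity d F, Nat.mul_pos hm0 hπ.pos, dvd_mul_right _ _, inferInstance,
    fun a ha => ?_, ?_, fun l hl hld => ?_, ?_⟩
  · rw [iterateFrobenius_def, ← e, pow_succ, pow_mul, (mem_rootsOfUnity' d a).1 ha, one_pow,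
      one_mul]
  · rw [hc]
    exact h1.trans hπd
  · rw [hc, hd] at hld
    exact h1.trans (Basic_prime hπ hl hld)
  · have := hπ.pos
    rw [hc, hx, ← e]
    nlinarith

end locfin

section maschke

variable {k G V W : Type*} [Field k] [CharZero k] [Group G] [AddCommGroup V] [Module k V]
  [AddCommGroup W] [Module k W]

theorem Basic_avg (ρ : Representation k G V) (σ : Representation k G W)
    (Γ : Subgroup G) (hΓ : (Γ : Set G).Finite) (S : Submodule k V)
    (hS : ∀ g ∈ Γ, ∀ v ∈ S, ρ g v ∈ S) (f : V →ₗ[k] W)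
    (hf : ∀ g ∈ Γ, ∀ v ∈ S, f (ρ g v) = σ g (f v)) :
    ∃ f' : V →ₗ[k] W, (∀ v ∈ S, f' v = f v) ∧ (∀ g ∈ Γ, ∀ v, f' (ρ g v) = σ g (f' v)) ∧
      ∀ T : Submodule k W, (∀ g ∈ Γ, ∀ w ∈ T, σ g w ∈ T) → (∀ v, f v ∈ T) → ∀ v, f' v ∈ T := by
  have : Fintype Γ := hΓ.fintype
  have hc : (Fintype.card Γ : k) ≠ 0 := Nat.cast_ne_zero.2 Fintype.card_ne_zero
  have e : ∀ v, ((Fintype.card Γ : k)⁻¹ • ∑ g : Γ, σ g ∘ₗ f ∘ₗ ρ (g : G)⁻¹) v =
      (Fintype.card Γ : k)⁻¹ • ∑ g : Γ, σ g (f (ρ (g : G)⁻¹ v)) := fun v => by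
    simp [LinearMap.sum_apply]
  refine ⟨(Fintype.card Γ : k)⁻¹ • ∑ g : Γ, σ g ∘ₗ f ∘ₗ ρ (g : G)⁻¹, fun v hv => ?_,
    fun h hh v => ?_, fun T hT hf' v => ?_⟩
  · have : ∀ g : Γ, σ g (f (ρ (g : G)⁻¹ v)) = f v := fun g => by
      rw [← hf g g.2 _ (hS _ (Γ.inv_mem g.2) v hv), ← Module.End.mul_apply, ← map_mul,
        mul_inv_cancel, map_one, Module.End.one_apply]
    simp only [e, this, Finset.sum_const, Finset.card_univ]
    rw [← Nat.cast_smul_eq_nsmul k, smul_smul, inv_mul_cancel₀ hc, one_smul]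
  · rw [e, e, map_smul, map_sum, ← Equiv.sum_comp (Equiv.mulLeft (⟨h, hh⟩ : Γ))]
    refine congrArg _ (Finset.sum_congr rfl fun g _ => ?_)
    rw [Equiv.coe_mulLeft, Subgroup.coe_mul, map_mul, Module.End.mul_apply,
      ← Module.End.mul_apply (ρ _), ← map_mul, mul_inv_rev, inv_mul_cancel_right]
  · rw [e]
    exact T.smul_mem _ (T.sum_mem fun g _ => hT g g.2 _ (hf' _))

/-- Maschke, extension form: average any linear extension of `f` over the finite group `Γ`. -/
theorem exists_equivariant_extension (ρ : Representation k G V) (σ : Representation k G W)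
    (Γ : Subgroup G) (hΓ : (Γ : Set G).Finite) (S : Submodule k V)
    (hS : ∀ g ∈ Γ, ∀ v ∈ S, ρ g v ∈ S) (f : V →ₗ[k] W)
    (hf : ∀ g ∈ Γ, ∀ v ∈ S, f (ρ g v) = σ g (f v)) :
    ∃ f' : V →ₗ[k] W, (∀ v ∈ S, f' v = f v) ∧ ∀ g ∈ Γ, ∀ v, f' (ρ g v) = σ g (f' v) := by
  obtain ⟨f', h1, h2, -⟩ := Basic_avg ρ σ Γ hΓ S hS f hf
  exact ⟨f', h1, h2⟩

/-- Maschke, retraction form. -/
theorem exists_equivariant_retraction (ρ : Representation k G V) (Γ : Subgroup G)
    (hΓ : (Γ : Set G).Finite) (S : Submodule k V) (hS : ∀ g ∈ Γ, ∀ v ∈ S, ρ g v ∈ S) :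
    ∃ π : V →ₗ[k] V, (∀ v, π v ∈ S) ∧ (∀ v ∈ S, π v = v) ∧
      ∀ g ∈ Γ, ∀ v, π (ρ g v) = ρ g (π v) := by
  obtain ⟨f, hf⟩ := LinearMap.exists_extend (LinearMap.id : S →ₗ[k] S)
  have e : ∀ v ∈ S, (S.subtype ∘ₗ f) v = v := fun v hv =>
    congrArg Subtype.val (LinearMap.congr_fun hf ⟨v, hv⟩)
  obtain ⟨f', h1, h2, h3⟩ := Basic_avg ρ ρ Γ hΓ S hS (S.subtype ∘ₗ f) fun g hg v hv => by
    rw [e v hv, e _ (hS g hg v hv)]
  exact ⟨f', h3 S hS fun v => (f v).2, fun v hv => (h1 v hv).trans (e v hv), h2⟩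

end maschke

end Pool.Agent.Work.MP_bb5f23_al
end

-- merged part: Pool.Agent.Work.MP_bb5f23_al.LitRel
section
/-! Root group data for a subgroup of an ambient group, and transport to an abstract group. -/

namespace Pool.Agent.Work.MP_bb5f23_al.Lit

open scoped MatrixGroups

/-- The properties of `Datum` for a subgroup `G` of the ambient group. -/
structure RelDatum (F : Type) [Field F] {𝔾 : Type} [Group 𝔾] (G : Subgroup 𝔾) extends
    PreDatum F 𝔾 where
  tau_mem : ∀ z, tau z ∈ G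
  xh_mem : ∀ α a, xh α a ∈ G
  phi_mem : ∀ α g, phi α g ∈ G
  rho_inj : Function.Injective rho
  rho_tau : ∀ z, rho (tau z) = Matrix.diagonal fun i => (mon (wt i) z : F)
  delta_sub : Delta ⊆ Phi
  delta_indep : LinearIndependent ℤ fun α : Delta => (α : Fin r → ℤ)
  pos_or_neg : ∀ α ∈ Phi, α ∈ toPreDatum.pos ∨ -α ∈ toPreDatum.pos
  neg_mem : ∀ α ∈ Phi, -α ∈ Phi
  zero_not_mem : 0 ∉ Phi
  reduced : ∀ α ∈ Phi, ∀ β ∈ Phi, ∀ a b : ℤ, a ≠ 0 → a • β = b • α → β = α ∨ β = -α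
  x_inj : ∀ α ∈ Phi, Function.Injective (xh α)
  tau_x : ∀ α ∈ Phi, ∀ z a,
    tau z * toPreDatum.x α a * (tau z)⁻¹ = toPreDatum.x α (mon α z * a)
  gen : G ≤ toPreDatum.T ⊔ ⨆ α ∈ Phi, toPreDatum.rootSub α
  phi_upper : ∀ α ∈ Delta, ∀ (a : F) (g : SL(2, F)), g.1 = !![1, a; 0, 1] →
    phi α g = toPreDatum.x α a
  phi_lower : ∀ α ∈ Delta, ∀ (a : F) (g : SL(2, F)), g.1 = !![1, 0; a, 1] →
    phi α g = toPreDatum.x (-α) a
  phi_diag : ∀ α ∈ Delta, ∀ (t : Fˣ) (g : SL(2, F)), g.1 = !![(t : F), 0; 0, (t⁻¹ : Fˣ)] →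
    phi α g = tau (cochar (co α) t)
  weyl : ∀ m ∈ G, m ∈ toPreDatum.N → ∃ A : (Fin r → ℤ) →+ (Fin r → ℤ),
    (∀ γ z z', tau z' = m * tau z * m⁻¹ → mon (A γ) z' = mon γ z) ∧
    ∀ β ∈ Phi, A β ∈ Phi ∧
      ∃ c : Fˣ, ∀ a, m * toPreDatum.x β a * m⁻¹ = toPreDatum.x (A β) (c * a)
  norm_U : ∀ m ∈ G, m ∈ toPreDatum.N → (∀ u ∈ toPreDatum.U, m * u * m⁻¹ ∈ toPreDatum.U) →
    m ∈ toPreDatum.T
  comm : ∀ α ∈ toPreDatum.pos, ∀ β ∈ toPreDatum.pos, α ≠ β → ∀ a b,
    toPreDatum.x α a * toPreDatum.x β b * (toPreDatum.x α a)⁻¹ * (toPreDatum.x β b)⁻¹ ∈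
      ⨆ γ ∈ Phi, ⨆ _ : ∃ i j : ℕ, 0 < i ∧ 0 < j ∧ γ = i • α + j • β, toPreDatum.rootSub γ
  prod_surj : ∀ l : List (Fin r → ℤ), l.Nodup → (∀ α, α ∈ l ↔ α ∈ toPreDatum.pos) →
    ∀ u ∈ toPreDatum.U, ∃ a, u = toPreDatum.prodX l a
  prod_inj : ∀ l : List (Fin r → ℤ), l.Nodup → (∀ α, α ∈ l ↔ α ∈ toPreDatum.pos) →
    ∀ a b, toPreDatum.prodX l a = toPreDatum.prodX l b → ∀ α ∈ l, a α = b α
  opp : toPreDatum.B ⊓ toPreDatum.Uneg = ⊥

theorem LitRel_lift {H G' 𝔾 : Type} [Group H] [Group G'] [Group 𝔾] {j : G' →* 𝔾}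
    (hj : Function.Injective j) (f : H →* 𝔾) (hf : ∀ x, f x ∈ j.range) :
    ∃ f' : H →* G', j.comp f' = f :=
  ⟨(MonoidHom.ofInjective hj).symm.toMonoidHom.comp (f.codRestrict _ hf),
    MonoidHom.ext fun _ => MonoidHom.apply_ofInjective_symm hj _⟩

theorem LitRel_normalizer {G' 𝔾 : Type} [Group G'] [Group 𝔾] (j : G' →* 𝔾) {T : Subgroup G'}
    {m : G'} (h : m ∈ Subgroup.normalizer (T : Set G')) :
    j m ∈ Subgroup.normalizer (T.map j : Set 𝔾) :=
  Subgroup.le_normalizer_map j ⟨m, h, rfl⟩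

/-- Lift `tau`, `xh`, `phi` along `j` (`MonoidHom.ofInjective`, `MonoidHom.codRestrict`), put
`rho = R.rho.comp j` and keep the combinatorial data. For each of the subgroups `X'` of `G'` that
occur show `X'.map j = X` (`Subgroup.map_iSup`, `Subgroup.map_sup`, `MonoidHom.map_range`), so that
`g ∈ X' ↔ j g ∈ X` (`Subgroup.mem_map_iff_mem`). -/
theorem RelDatum.exists_datum {F : Type} [Field F] {𝔾 : Type} [Group 𝔾] {G : Subgroup 𝔾}
    (R : RelDatum F G) {G' : Type} [Group G'] (j : G' →* 𝔾) (hj : Function.Injective j)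
    (hr : j.range = G) : ∃ D : Datum F G', D.T.map j = R.T ∧ D.U.map j = R.U ∧
      ∀ α ∈ D.Phi, ∃ β ∈ R.Phi, (D.rootSub α).map j = R.rootSub β := by
  subst hr
  obtain ⟨tau, htau⟩ := LitRel_lift hj R.tau R.tau_mem
  choose xh hxh using fun α => LitRel_lift hj (R.xh α) (R.xh_mem α)
  choose phi hphi using fun α => LitRel_lift hj (R.phi α) (R.phi_mem α)
  let P : PreDatum F G' := ⟨R.n, R.r, R.rho.comp j, tau, R.wt, R.Phi, R.Delta, xh, R.co, phi⟩
  have e1 : ∀ z, j (tau z) = R.tau z := fun z => DFunLike.congr_fun htau z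
  have e2 : ∀ α a, j (P.x α a) = R.x α a := fun α a => DFunLike.congr_fun (hxh α) _
  have e3 : ∀ α g, j (phi α g) = R.phi α g := fun α g => DFunLike.congr_fun (hphi α) g
  have hT : P.T.map j = R.T := (MonoidHom.map_range j tau).trans (congrArg _ htau)
  have hS : ∀ α, (P.rootSub α).map j = R.rootSub α := fun α =>
    (MonoidHom.map_range j (xh α)).trans (congrArg _ (hxh α))
  have hU : P.U.map j = R.U := by
    simp only [PreDatum.U, Subgroup.map_iSup, hS]
    rfl
  have hV : P.Uneg.map j = R.Uneg := by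
    simp only [PreDatum.Uneg, Subgroup.map_iSup, hS]
    rfl
  have hB : P.B.map j = R.B := by rw [PreDatum.B, Subgroup.map_sup, hT, hU, PreDatum.B]
  have hN : ∀ m ∈ P.N, j m ∈ R.N := fun m hm => by
    have := LitRel_normalizer j hm
    rwa [hT] at this
  have hp : ∀ l a, j (P.prodX l a) = R.prodX l a := fun l a => by
    simp only [PreDatum.prodX, map_list_prod, List.map_map, Function.comp_def, e2]
    rfl
  have hm : ∀ {X : Subgroup G'} {Y : Subgroup 𝔾}, X.map j = Y → ∀ {g}, g ∈ X ↔ j g ∈ Y := by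
    rintro X _ rfl g
    exact (Subgroup.mem_map_iff_mem hj).symm
  refine ⟨⟨P, R.rho_inj.comp hj, fun z => (congrArg R.rho (e1 z)).trans (R.rho_tau z),
    R.delta_sub, R.delta_indep, R.pos_or_neg, R.neg_mem, R.zero_not_mem, R.reduced,
    fun α hα a b h => R.x_inj α hα ((e2 α a).symm.trans ((congrArg j h).trans (e2 α b))),
    fun α hα z a => hj ?_, ?_,
    fun α hα a g h => hj ((e3 α g).trans ((R.phi_upper α hα a g h).trans (e2 α a).symm)),
    fun α hα a g h => hj ((e3 α g).trans ((R.phi_lower α hα a g h).trans (e2 _ a).symm)),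
    fun α hα a g h => hj ((e3 α g).trans ((R.phi_diag α hα a g h).trans (e1 _).symm)),
    fun m h => ?_, fun m h hu => ?_, fun α hα β hβ hne a b => ?_, fun l h1 h2 u hu => ?_,
    fun l h1 h2 a b h => R.prod_inj l h1 h2 a b ((hp l a).symm.trans ((congrArg j h).trans (hp l b))),
    ?_⟩, hT, hU, fun α hα => ⟨α, hα, hS α⟩⟩
  · rw [map_mul, map_mul, map_inv, e2, e2]
    exact (congrArg (fun t => t * _ * t⁻¹) (e1 z)).trans (R.tau_x α hα z a)
  · refine eq_top_iff.2 fun g _ => (hm (Y := R.T ⊔ ⨆ α ∈ R.Phi, R.rootSub α) ?_).2 (R.gen ⟨g, rfl⟩)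
    simp only [Subgroup.map_sup, Subgroup.map_iSup, hS, hT]
    rfl
  · obtain ⟨A, h1, h2⟩ := R.weyl (j m) ⟨m, rfl⟩ (hN m h)
    refine ⟨A, fun γ z z' e => h1 γ z z' ?_, fun β hβ => ⟨(h2 β hβ).1, ?_⟩⟩
    · rw [← e1, ← e1, ← map_inv, ← map_mul, ← map_mul]
      exact congrArg j e
    · obtain ⟨c, hc⟩ := (h2 β hβ).2
      exact ⟨c, fun a => hj (by rw [map_mul, map_mul, map_inv, e2, e2, hc])⟩
  · refine (hm hT).2 (R.norm_U (j m) ⟨m, rfl⟩ (hN m h) fun u hu' => ?_)
    obtain ⟨u, h1, rfl⟩ := hU.ge hu'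
    rw [← map_inv, ← map_mul, ← map_mul]
    exact (hm hU).1 (hu u h1)
  · refine (hm (Y := ⨆ γ ∈ R.Phi, ⨆ _ : ∃ i k : ℕ, 0 < i ∧ 0 < k ∧ γ = i • α + k • β,
      R.rootSub γ) ?_).2 ?_
    · simp only [Subgroup.map_iSup, hS]
      rfl
    · simp only [map_mul, map_inv, e2]
      exact R.comm α hα β hβ hne a b
  · obtain ⟨a, ha⟩ := R.prod_surj l h1 h2 (j u) ((hm hU).1 hu)
    exact ⟨a, hj (ha.trans (hp l a).symm)⟩
  · refine eq_bot_iff.2 fun g hg => hj ?_
    rw [map_one]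
    exact R.opp.le ⟨(hm hB).1 hg.1, (hm hV).1 hg.2⟩

end Pool.Agent.Work.MP_bb5f23_al.Lit
end

-- merged part: Pool.Agent.Work.MP_bb5f23_al.R1a
section
/-! Rank one, step 1: the support of `s u(a) ξ`. -/

namespace Pool.Agent.Work.MP_bb5f23_al

namespace SL2Op

variable {F k M : Type*} [Field F] [IsAlgClosed F] [Field k] [AddCommGroup M] [Module k M]
  (O : SL2Op F k M)

/-- `E` generates a free module over the group algebra of the upper unipotent group. -/
def Free (E : Submodule k M) : Prop :=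
  ∀ f : F →₀ M, (∀ b, f b ∈ E) → (f.sum fun b v => O.u b v) = 0 → f = 0

/-- The part of the module supported on a set of points. -/
def R1a_sp (E : Submodule k M) (A : Set F) : Submodule k M := ⨆ b ∈ A, E.map (O.u b)

omit [IsAlgClosed F] in
theorem R1a_mem (E : Submodule k M) {A : Set F} {b : F} (hb : b ∈ A) {v : M} (hv : v ∈ E) :
    O.u b v ∈ O.R1a_sp E A :=
  Submodule.mem_iSup_of_mem b (Submodule.mem_iSup_of_mem hb (Submodule.mem_map_of_mem hv))

omit [IsAlgClosed F] in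
theorem R1a_le (E : Submodule k M) {A : Set F} {W : Submodule k M}
    (h : ∀ b ∈ A, ∀ v ∈ E, O.u b v ∈ W) : O.R1a_sp E A ≤ W := by
  refine iSup₂_le fun b hb => ?_
  rintro _ ⟨v, hv, rfl⟩
  exact h b hb v hv

omit [IsAlgClosed F] in
theorem R1a_mono (E : Submodule k M) {A B : Set F} (h : A ⊆ B) : O.R1a_sp E A ≤ O.R1a_sp E B :=
  O.R1a_le E fun _ hb _ hv => O.R1a_mem E (h hb) hv

omit [IsAlgClosed F] in
theorem R1a_map (E : Submodule k M) {A : Set F} {W : Submodule k M} (T : Module.End k M)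
    (h : ∀ b ∈ A, ∀ v ∈ E, T (O.u b v) ∈ W) {m : M} (hm : m ∈ O.R1a_sp E A) : T m ∈ W :=
  O.R1a_le E (W := W.comap T) h hm

omit [IsAlgClosed F] in
theorem R1a_sum_add (f g : F →₀ M) :
    ((f + g).sum fun b v => O.u b v) = (f.sum fun b v => O.u b v) + g.sum fun b v => O.u b v :=
  Finsupp.sum_add_index' (fun _ => map_zero _) (fun _ v w => map_add _ v w)

omit [IsAlgClosed F] in
theorem R1a_sum_sub (f g : F →₀ M) :
    ((f - g).sum fun b v => O.u b v) = (f.sum fun b v => O.u b v) - g.sum fun b v => O.u b v :=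
  Finsupp.sum_sub_index (fun _ v w => map_sub _ v w)

omit [IsAlgClosed F] in
theorem R1a_rep (E : Submodule k M) {A : Set F} {m : M} (hm : m ∈ O.R1a_sp E A) :
    ∃ f : F →₀ M, (∀ b, f b ∈ E) ∧ (∀ b, b ∉ A → f b = 0) ∧ m = f.sum fun b v => O.u b v := by
  classical
  let W : Submodule k M :=
    { carrier := {m | ∃ f : F →₀ M, (∀ b, f b ∈ E) ∧ (∀ b, b ∉ A → f b = 0) ∧
        m = f.sum fun b v => O.u b v}
      zero_mem' := ⟨0, fun _ => E.zero_mem, fun _ _ => rfl, by simp⟩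
      add_mem' := by
        rintro _ _ ⟨f, hf, hfA, rfl⟩ ⟨g, hg, hgA, rfl⟩
        refine ⟨f + g, fun b => E.add_mem (hf b) (hg b), fun b hb => ?_, (O.R1a_sum_add f g).symm⟩
        rw [Finsupp.add_apply, hfA b hb, hgA b hb, add_zero]
      smul_mem' := by
        rintro c _ ⟨f, hf, hfA, rfl⟩
        refine ⟨c • f, fun b => E.smul_mem c (hf b), fun b hb => ?_, ?_⟩
        · rw [Finsupp.smul_apply, hfA b hb, smul_zero]
        · rw [Finsupp.sum_smul_index' (fun b => map_zero _), Finsupp.smul_sum]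
          simp only [map_smul] }
  refine O.R1a_le E (W := W) (fun b hb v hv => ⟨Finsupp.single b v, fun c => ?_, fun c hc => ?_, ?_⟩)
    hm
  · rw [Finsupp.single_apply]
    split_ifs
    exacts [hv, E.zero_mem]
  · exact Finsupp.single_eq_of_ne (by rintro rfl; exact hc hb)
  · exact (Finsupp.sum_single_index (h := fun b v => O.u b v) (map_zero _)).symm

omit [IsAlgClosed F] in
theorem R1a_sum_mem (E : Submodule k M) {A : Set F} (f : F →₀ M) (hf : ∀ b, f b ∈ E)
    (hA : ∀ b, b ∉ A → f b = 0) : (f.sum fun b v => O.u b v) ∈ O.R1a_sp E A := by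
  refine Submodule.sum_mem _ fun b hb => O.R1a_mem E ?_ (hf b)
  by_contra hbA
  exact (Finsupp.mem_support_iff.1 hb) (hA b hbA)

omit [IsAlgClosed F] in
theorem R1a_inter (E : Submodule k M) (hfree : O.Free E) {A B : Set F} {m : M}
    (hA : m ∈ O.R1a_sp E A) (hB : m ∈ O.R1a_sp E B) : m ∈ O.R1a_sp E (A ∩ B) := by
  obtain ⟨f, hf, hfA, rfl⟩ := O.R1a_rep E hA
  obtain ⟨g, hg, hgB, hfg⟩ := O.R1a_rep E hB
  have h0 : f - g = 0 := hfree (f - g) (fun b => E.sub_mem (hf b) (hg b))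
    (by rw [O.R1a_sum_sub, hfg, sub_self])
  have h1 : f = g := sub_eq_zero.1 h0
  refine O.R1a_sum_mem E f hf fun b hb => ?_
  by_cases hbA : b ∈ A
  · rw [h1]
    exact hgB b fun hbB => hb ⟨hbA, hbB⟩
  · exact hfA b hbA

omit [IsAlgClosed F] in
theorem R1a_split (E : Submodule k M) {A : Set F} (c : F) {m : M} (hm : m ∈ O.R1a_sp E A) :
    ∃ ζ ∈ E, m - O.u c ζ ∈ O.R1a_sp E (A \ {c}) := by
  let W : Submodule k M := E.map (O.u c) ⊔ O.R1a_sp E (A \ {c})
  have hW : m ∈ W := by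
    refine O.R1a_le E (W := W) (fun b hb v hv => ?_) hm
    by_cases hbc : b = c
    · subst hbc
      exact Submodule.mem_sup_left (Submodule.mem_map_of_mem hv)
    · exact Submodule.mem_sup_right (O.R1a_mem E (A := A \ {c}) ⟨hb, hbc⟩ hv)
  obtain ⟨_, ⟨ζ, hζ, rfl⟩, z, hz, rfl⟩ := Submodule.mem_sup.1 hW
  exact ⟨ζ, hζ, by simpa using hz⟩

omit [IsAlgClosed F] in
theorem R1a_empty (E : Submodule k M) {m : M} (hm : m ∈ O.R1a_sp E ∅) : m = 0 :=
  (Submodule.mem_bot k).1 (O.R1a_le E (W := ⊥) (fun _ hb => absurd hb (Set.notMem_empty _)) hm)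

omit [IsAlgClosed F] in
theorem R1a_single (E : Submodule k M) {c : F} {m : M} (hm : m ∈ O.R1a_sp E {c}) :
    ∃ ζ ∈ E, m = O.u c ζ := by
  obtain ⟨ζ, hζ, h⟩ := O.R1a_split E c hm
  rw [Set.sdiff_self] at h
  exact ⟨ζ, hζ, sub_eq_zero.1 (O.R1a_empty E h)⟩

omit [IsAlgClosed F] in
theorem R1a_u_u (a b : F) (v : M) : O.u a (O.u b v) = O.u (a + b) v := by
  rw [O.u_add]
  rfl

omit [IsAlgClosed F] in
theorem R1a_u_zero (v : M) : O.u 0 v = v := by
  rw [O.u_zero]
  rfl

omit [IsAlgClosed F] in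
theorem R1a_h_u (a : Fˣ) (b : F) (v : M) : O.h a (O.u b v) = O.u ((a : F) ^ 2 * b) (O.h a v) :=
  LinearMap.congr_fun (O.h_u a b) v

omit [IsAlgClosed F] in
theorem R1a_h_h (a b : Fˣ) (v : M) : O.h a (O.h b v) = O.h (a * b) v := by
  rw [O.h_mul]
  rfl

omit [IsAlgClosed F] in
theorem R1a_h_one (v : M) : O.h 1 v = v := by
  rw [O.h_one]
  rfl

omit [IsAlgClosed F] in
/-- A vector of `E` moved into `E` by a nontrivial translation vanishes. -/
theorem R1a_eq_zero (E : Submodule k M) (hfree : O.Free E) {y : F} (hy : y ≠ 0) {ζ : M}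
    (hζ : ζ ∈ E) (h : O.u y ζ ∈ E) : ζ = 0 := by
  have h1 : O.u y ζ ∈ O.R1a_sp E {y} := O.R1a_mem E (Set.mem_singleton y) hζ
  have h2 : O.u y ζ ∈ O.R1a_sp E {0} := by
    have := O.R1a_mem E (Set.mem_singleton (0 : F)) h
    rwa [O.R1a_u_zero] at this
  have h3 := O.R1a_inter E hfree h1 h2
  rw [Set.singleton_inter_eq_empty.2 (by simpa using hy)] at h3
  have h4 := O.R1a_empty E h3
  have h5 := O.R1a_u_u (-y) y ζ
  rw [h4, map_zero, neg_add_cancel, O.R1a_u_zero] at h5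
  exact h5.symm

omit [IsAlgClosed F] in
theorem R1a_finite (E : Submodule k M) [FiniteDimensional k E]
    (hspan : ∀ v ∈ E, O.s (O.u 1 v) ∈ ⨆ b, E.map (O.u b)) :
    ∃ S : Set F, S.Finite ∧ ∀ v ∈ E, O.s (O.u 1 v) ∈ O.R1a_sp E S := by
  have hfg : E.FG := (Submodule.fg_iff_finiteDimensional E).2 inferInstance
  obtain ⟨T, hT⟩ := hfg
  have h1 : ∀ v : T, ∃ S : Set F, S.Finite ∧ O.s (O.u 1 v) ∈ O.R1a_sp E S := by
    intro v
    have hv : (v : M) ∈ E := hT ▸ Submodule.subset_span v.2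
    have h2 : O.s (O.u 1 v) ∈ O.R1a_sp E Set.univ := by
      have := hspan v hv
      simpa [R1a_sp] using this
    obtain ⟨f, hf, -, hfe⟩ := O.R1a_rep E h2
    refine ⟨f.support, f.support.finite_toSet, ?_⟩
    rw [hfe]
    exact O.R1a_sum_mem E f hf fun b hb => by simpa using hb
  choose S hS hmem using h1
  refine ⟨⋃ v, S v, Set.finite_iUnion hS, fun v hv => ?_⟩
  have hle : E ≤ (O.R1a_sp E (⋃ v, S v)).comap (O.s * O.u 1) := by
    conv_lhs => rw [← hT]
    refine Submodule.span_le.2 fun w hw => ?_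
    exact O.R1a_mono E (Set.subset_iUnion S ⟨w, hw⟩) (hmem ⟨w, hw⟩)
  exact hle hv

/-- Conjugation by the torus rescales the support. -/
theorem R1a_scale (E : Submodule k M) (hh : ∀ a, ∀ v ∈ E, O.h a v ∈ E) {x y : F} (hx : x ≠ 0)
    (hy : y ≠ 0) {S : Set F} (hS : ∀ v ∈ E, O.s (O.u x v) ∈ O.R1a_sp E ((· / x) '' S)) (v : M)
    (hv : v ∈ E) : O.s (O.u y v) ∈ O.R1a_sp E ((· / y) '' S) := by
  obtain ⟨t, ht⟩ := IsAlgClosed.exists_pow_nat_eq (y / x) two_pos
  have ht0 : t ≠ 0 := by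
    rintro rfl
    exact div_ne_zero hy hx (by rw [← ht]; simp)
  let τ : Fˣ := Units.mk0 t ht0
  have h1 : O.u y v = O.h τ (O.u x (O.h τ⁻¹ v)) := by
    rw [O.R1a_h_u, O.R1a_h_h, mul_inv_cancel, O.R1a_h_one]
    congr 2
    rw [Units.val_mk0, ht, div_mul_cancel₀ _ hx]
  have h2 : O.s (O.u y v) = O.h τ⁻¹ (O.s (O.u x (O.h τ⁻¹ v))) := by
    rw [h1]
    exact LinearMap.congr_fun (O.s_h τ) _
  rw [h2]
  refine O.R1a_map E (O.h τ⁻¹) ?_ (hS _ (hh _ v hv))
  rintro _ ⟨b, hb, rfl⟩ w hw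
  rw [O.R1a_h_u]
  refine O.R1a_mem E (A := (· / y) '' S) ⟨b, hb, ?_⟩ (hh _ w hw)
  rw [Units.val_inv_eq_inv_val, Units.val_mk0, inv_pow, ht]
  field_simp

omit [IsAlgClosed F] in
theorem R1a_ev (p : Polynomial F) (c : F) (h : p.eval c ≠ 0) :
    ∀ᶠ x in Filter.cofinite, p.eval x ≠ 0 := by
  have hp : p ≠ 0 := by
    rintro rfl
    simp at h
  rw [Filter.eventually_cofinite]
  simpa [Polynomial.IsRoot] using Polynomial.finite_setOfPred_isRoot hp

/-- The generic point. -/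
theorem R1a_generic {S : Set F} (hS : S.Finite) {b₀ : F} (h0 : b₀ ≠ 0) (h1 : b₀ + 1 ≠ 0) :
    ∃ x : F, x ≠ 0 ∧ x + 1 ≠ 0 ∧ x ≠ b₀ ∧ (∀ b ∈ S, x ≠ b) ∧
      (∀ b' ∈ S, ∀ b'' ∈ S, b' ≠ 0 → (-(b₀ - x) + b' * x) * (x + 1) - b'' * (b₀ - x) ≠ 0) ∧
      ∀ b ∈ S, ∀ b' ∈ S, ∀ b'' ∈ S, b ≠ b₀ → b' ≠ 0 → b' * (b - x) - b'' * (b₀ - x) ≠ 0 := by
  have e0 : ∀ c : F, ∀ᶠ x in Filter.cofinite, x ≠ c := fun c => Filter.eventually_cofinite_ne c
  have e1 : ∀ᶠ x in Filter.cofinite, x + 1 ≠ (0 : F) :=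
    (e0 (-1)).mono fun x hx h => hx (eq_neg_of_add_eq_zero_left h)
  have e2 : ∀ᶠ x in Filter.cofinite, ∀ b ∈ S, x ≠ b :=
    (Filter.eventually_all_finite hS).2 fun b _ => e0 b
  have e3 : ∀ᶠ x in Filter.cofinite, ∀ b' ∈ S, ∀ b'' ∈ S, b' ≠ 0 →
      (-(b₀ - x) + b' * x) * (x + 1) - b'' * (b₀ - x) ≠ 0 := by
    refine (Filter.eventually_all_finite hS).2 fun b' _ =>
      (Filter.eventually_all_finite hS).2 fun b'' _ => ?_
    by_cases hb' : b' = 0
    · exact Filter.Eventually.of_forall fun x h => absurd hb' h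
    have := R1a_ev ((-(Polynomial.C b₀ - Polynomial.X) + Polynomial.C b' * Polynomial.X) *
      (Polynomial.X + 1) - Polynomial.C b'' * (Polynomial.C b₀ - Polynomial.X)) b₀
      (by simp [hb', h0, h1])
    refine this.mono fun x hx _ => ?_
    simpa using hx
  have e4 : ∀ᶠ x in Filter.cofinite, ∀ b ∈ S, ∀ b' ∈ S, ∀ b'' ∈ S, b ≠ b₀ → b' ≠ 0 →
      b' * (b - x) - b'' * (b₀ - x) ≠ 0 := by
    refine (Filter.eventually_all_finite hS).2 fun b _ =>
      (Filter.eventually_all_finite hS).2 fun b' _ =>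
      (Filter.eventually_all_finite hS).2 fun b'' _ => ?_
    by_cases hb' : b' = 0
    · exact Filter.Eventually.of_forall fun x _ h => absurd hb' h
    by_cases hb : b = b₀
    · exact Filter.Eventually.of_forall fun x h => absurd hb h
    have := R1a_ev (Polynomial.C b' * (Polynomial.C b - Polynomial.X) -
      Polynomial.C b'' * (Polynomial.C b₀ - Polynomial.X)) b₀ (by simp [hb', sub_eq_zero, hb])
    refine this.mono fun x hx _ _ => ?_
    simpa using hx
  obtain ⟨x, hx⟩ := ((e0 0).and (e1.and ((e0 b₀).and (e2.and (e3.and e4))))).exists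
  exact ⟨x, hx⟩

/-- One point outside `{0, -1}` can be removed from the support. -/
theorem R1a_remove (E : Submodule k M) (hs : ∀ v ∈ E, O.s v ∈ E)
    (hh : ∀ a, ∀ v ∈ E, O.h a v ∈ E) (hfree : O.Free E) {S : Set F} (hS : S.Finite)
    (hG : ∀ v ∈ E, O.s (O.u 1 v) ∈ O.R1a_sp E S) {b₀ : F} (h0 : b₀ ≠ 0) (h1 : b₀ + 1 ≠ 0) :
    ∀ v ∈ E, O.s (O.u 1 v) ∈ O.R1a_sp E (S \ {b₀}) := by
  obtain ⟨x, hx0, hx1, hxb, hxS, hQ, hP⟩ := R1a_generic hS h0 h1
  have hall : ∀ y : F, y ≠ 0 → ∀ v ∈ E, O.s (O.u y v) ∈ O.R1a_sp E ((· / y) '' S) :=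
    fun y hy => O.R1a_scale E hh one_ne_zero hy (by simpa using hG)
  have hg : ∀ w : M, O.s (O.u 1 w) = O.u (-1) (O.s (O.u (-1) (O.s w))) := by
    intro w
    have := LinearMap.congr_fun (O.s_u 1) w
    simpa [O.h_one] using this
  have hne : ∀ b : F, x ≠ b → b / x - 1 ≠ 0 := by
    intro b hb h
    rw [sub_eq_zero, div_eq_one_iff_eq hx0] at h
    exact hb h.symm
  -- the action of `g = u(-1) s u(-1)` on a point
  have hact : ∀ b : F, x ≠ b → ∀ w ∈ E, O.u (-1) (O.s (O.u (-1) (O.u (b / x) w))) ∈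
      O.R1a_sp E ((fun b' => -1 + b' / (b / x - 1)) '' S) := by
    intro b hb w hw
    rw [O.R1a_u_u, neg_add_eq_sub]
    refine O.R1a_map E (O.u (-1)) ?_ (hall _ (hne b hb) w hw)
    rintro _ ⟨b', hb', rfl⟩ w' hw'
    rw [O.R1a_u_u]
    exact O.R1a_mem E (Set.mem_image_of_mem (fun b' => -1 + b' / (b / x - 1)) hb') hw'
  have key : ∀ v ∈ E, O.s (O.u x v) ∈ O.R1a_sp E ((· / x) '' (S \ {b₀})) := by
    intro v hv
    obtain ⟨ζ, hζ, hm⟩ := O.R1a_split E (b₀ / x) (hall x hx0 v hv)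
    have hm' : O.s (O.u x v) - O.u (b₀ / x) ζ ∈ O.R1a_sp E ((· / x) '' (S \ {b₀})) := by
      refine O.R1a_mono E ?_ hm
      rintro _ ⟨⟨b, hb, rfl⟩, hb'⟩
      exact ⟨b, ⟨hb, by rintro rfl; exact hb' rfl⟩, rfl⟩
    suffices hz : ζ = 0 by simpa [hz] using hm'
    let B : Set F := (· / (x + 1)) '' S ∪
      {p | ∃ b ∈ S, ∃ b'' ∈ S, b ≠ b₀ ∧ p = -1 + b'' / (b / x - 1)}
    have hA := hact b₀ hxb ζ hζ
    have hB1 : O.u (-1) (O.s (O.u (-1) (O.s (O.u x v)))) ∈ O.R1a_sp E B := by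
      rw [← hg, O.R1a_u_u, add_comm]
      exact O.R1a_mono E Set.subset_union_left (hall _ hx1 v hv)
    have hB2 : O.u (-1) (O.s (O.u (-1) (O.s (O.u x v) - O.u (b₀ / x) ζ))) ∈ O.R1a_sp E B := by
      refine O.R1a_map E (O.u (-1) * O.s * O.u (-1)) ?_ hm'
      rintro _ ⟨b, ⟨hb, hbb⟩, rfl⟩ w hw
      refine O.R1a_mono E ?_ (hact b (hxS b hb) w hw)
      rintro _ ⟨b'', hb'', rfl⟩
      exact Or.inr ⟨b, hb, b'', hb'', hbb, rfl⟩
    have hB : O.u (-1) (O.s (O.u (-1) (O.u (b₀ / x) ζ))) ∈ O.R1a_sp E B := by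
      have := Submodule.sub_mem _ hB1 hB2
      simpa [map_sub] using this
    have hC := O.R1a_mono E (B := {-1}) ?_ (O.R1a_inter E hfree hA hB)
    · obtain ⟨ζ', hζ', he⟩ := O.R1a_single E hC
      have h2 : O.s (O.u (b₀ / x - 1) ζ) = ζ' := by
        have := congrArg (O.u 1) he
        rwa [O.R1a_u_u, O.R1a_u_u, O.R1a_u_u, add_neg_cancel, O.R1a_u_zero, O.R1a_u_zero,
          neg_add_eq_sub] at this
      have h3 : O.u (b₀ / x - 1) ζ = O.h (-1) (O.s ζ') := by
        rw [← h2]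
        have := LinearMap.congr_fun O.s_s (O.u (b₀ / x - 1) ζ)
        rw [Module.End.mul_apply] at this
        rw [this, O.R1a_h_h, neg_mul_neg, one_mul, O.R1a_h_one]
      exact O.R1a_eq_zero E hfree (hne b₀ hxb) hζ (h3 ▸ hh _ _ (hs _ hζ'))
    · rintro _ ⟨⟨b', hb', rfl⟩, hp⟩
      by_contra hn
      have hb'0 : b' ≠ 0 := by
        rintro rfl
        exact hn (by simp)
      have hd0 : b₀ - x ≠ 0 := sub_ne_zero.2 hxb.symm
      have hr : ∀ b c : F, x ≠ b → c / (b / x - 1) = c * x / (b - x) := by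
        intro b c hb
        have hd : b - x ≠ 0 := sub_ne_zero.2 hb.symm
        have : b / x - 1 = (b - x) / x := by field_simp
        rw [this]
        field_simp
      rcases hp with ⟨b'', hb'', hp⟩ | ⟨b, hb, b'', hb'', hbb, hp⟩
      · refine hQ b' hb' b'' hb'' hb'0 ?_
        simp only [hr b₀ b' hxb] at hp
        field_simp at hp
        linear_combination -hp
      · refine hP b hb b' hb' b'' hb'' hbb hb'0 ?_
        have hd : b - x ≠ 0 := sub_ne_zero.2 (hxS b hb).symm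
        simp only [hr b₀ b' hxb, hr b b'' (hxS b hb), add_right_inj] at hp
        field_simp at hp
        linear_combination hp
  intro v hv
  simpa using O.R1a_scale E hh hx0 one_ne_zero key v hv

/-- By finite dimension there is a finite `S ⊆ F` and linear `Φ b : E → E` (`b ∈ S`, unique by
freeness) with `s u(1) ξ = ∑ b, u(b) Φ b ξ`. Conjugating by `h t` (every `x ≠ 0` is a square) gives
`s u(x) ξ = ∑ b, u(b / x) Φ b x ξ` with `Φ b x = h t⁻¹ ∘ Φ b ∘ h t⁻¹`, `t ^ 2 = x`. Let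
`g = s u(1) s⁻¹ = u(-1) s u(-1)` (from `s_u` with `a = 1`, `s` invertible). Then
`g s u(x) ξ = s u(x + 1) ξ` is supported on the points `b'' / (x + 1)`, and also equals
`∑ b b', u(-1 + b' / (b / x - 1)) Φ b' (b / x - 1) Φ b x ξ`. The point of the pair `b, b'` is
`-(1 + b') + b b' / (b - x)`. Choose `x` outside a finite set such that for every pair with
`b b' ≠ 0`, other than `b = b' = -1`, this point differs from the points of all other pairs and from all
`b'' / (x + 1)` (each coincidence is a nonzero polynomial equation in `x`). By freeness, for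
`b ∉ {0, -1}` and all `b' ≠ 0`, `Φ b' y ζ = 0` where `y = b / x - 1 ≠ 0`, `ζ = Φ b x ξ`; so
`s u(y) ζ ∈ E`, `u(y) ζ ∈ E`, `ζ = 0` by freeness. Hence `Φ b = 0` for `b ∉ {0, -1}`. -/
theorem two_point (E : Submodule k M) [FiniteDimensional k E] (hs : ∀ v ∈ E, O.s v ∈ E)
    (hh : ∀ a, ∀ v ∈ E, O.h a v ∈ E) (hfree : O.Free E)
    (hspan : ∀ v ∈ E, O.s (O.u 1 v) ∈ ⨆ b, E.map (O.u b)) (a : Fˣ) (v : M) (hv : v ∈ E) :
    ∃ v₁ ∈ E, ∃ v₂ ∈ E, O.s (O.u a v) = O.u (-(a⁻¹ : Fˣ)) v₁ + v₂ := by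
  obtain ⟨S, hS, hG⟩ := O.R1a_finite E hspan
  have hind : ∀ T : Set F, T.Finite → (∀ b ∈ T, b ≠ 0 ∧ b + 1 ≠ 0) →
      ∀ v ∈ E, O.s (O.u 1 v) ∈ O.R1a_sp E (S \ T) := by
    intro T hT
    induction T, hT using Set.Finite.induction_on with
    | empty => simpa using hG
    | @insert b T _ _ ih =>
      intro hT'
      have h1 := O.R1a_remove E hs hh hfree (hS.subset Set.sdiff_subset)
        (ih fun c hc => hT' c (Set.mem_insert_of_mem _ hc)) (hT' b (Set.mem_insert _ _)).1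
        (hT' b (Set.mem_insert _ _)).2
      intro w hw
      refine O.R1a_mono E ?_ (h1 w hw)
      rintro c ⟨⟨hc, hc'⟩, hcb⟩
      exact ⟨hc, fun h => h.elim hcb hc'⟩
  have h2 : ∀ v ∈ E, O.s (O.u 1 v) ∈ O.R1a_sp E ((· / (1 : F)) '' {-1, 0}) := by
    intro w hw
    refine O.R1a_mono E ?_ (hind (S \ {-1, 0}) (hS.subset Set.sdiff_subset) ?_ w hw)
    · rintro c ⟨hc, hc'⟩
      refine ⟨c, ?_, div_one c⟩
      by_contra h
      exact hc' ⟨hc, h⟩
    · rintro b ⟨-, hb⟩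
      refine ⟨fun h => hb (Or.inr h), fun h => hb (Or.inl (eq_neg_of_add_eq_zero_left h))⟩
  have h3 := O.R1a_scale E hh one_ne_zero a.ne_zero h2 v hv
  obtain ⟨v₁, hv₁, h4⟩ := O.R1a_split E (-(a⁻¹ : Fˣ) : F) h3
  have h5 := O.R1a_mono E (B := {0}) ?_ h4
  · obtain ⟨v₂, hv₂, h6⟩ := O.R1a_single E h5
    rw [O.R1a_u_zero] at h6
    exact ⟨v₁, hv₁, v₂, hv₂, by rw [← h6]; abel⟩
  · rintro _ ⟨⟨b, hb | hb, rfl⟩, hb'⟩
    · exact absurd (by simp [hb, neg_div]) hb'
    · simp [Set.mem_singleton_iff.1 hb]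

end SL2Op

end Pool.Agent.Work.MP_bb5f23_al
end

-- merged part: Pool.Agent.Work.MP_bb5f23_al.R1b
section
/-! Rank one, step 2: the Steinberg relations. -/

namespace Pool.Agent.Work.MP_bb5f23_al

theorem R1b_subgroup {F : Type} [Field F] [IsAlgClosed F] [IsFbar F] (N : ℕ) :
    ∃ S : AddSubgroup F, Finite S ∧ (1 : F) ∈ S ∧ N ≤ Nat.card S := by
  classical
  obtain ⟨p, hp, hc, -⟩ := IsFbar.exists_prime (F := F)
  obtain ⟨T, hT⟩ := Infinite.exists_subset_card_eq F N
  have hfin : Finite (AddSubgroup.closure ((insert 1 T : Finset F) : Set F)) := by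
    refine AddCommGroup.finite_of_fg_isAddTorsion _ fun x => ?_
    refine isOfFinAddOrder_iff_nsmul_eq_zero.2 ⟨p, hp.pos, Subtype.ext ?_⟩
    simp
  refine ⟨_, hfin, AddSubgroup.subset_closure (by simp), ?_⟩
  rw [← hT, ← Nat.card_eq_finsetCard]
  exact Nat.card_le_card_of_injective
    (fun x : T => (⟨x.1, AddSubgroup.subset_closure (by simp)⟩ :
      AddSubgroup.closure ((insert 1 T : Finset F) : Set F)))
    fun x y h => Subtype.ext (Subtype.mk.inj h)

theorem R1b_avg {F : Type} [Field F] {k E : Type*} [Field k]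
    [CharZero k] [AddCommGroup E] [Module k E] [FiniteDimensional k E] (K : F → Module.End k E)
    (h0 : K 0 = 1) (hadd : ∀ a b, K (a + b) = K a * K b)
    (htr : ∀ a, a ≠ 0 → LinearMap.trace k E (K a) = LinearMap.trace k E (K 1))
    (S : AddSubgroup F) [Finite S] (h1 : (1 : F) ∈ S) :
    ∃ r : ℕ, r ≤ Module.finrank k E ∧ (r = Module.finrank k E → K 1 = 1) ∧
      (Module.finrank k E : k) + ((Nat.card S : k) - 1) * LinearMap.trace k E (K 1) =
        Nat.card S * r := by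
  classical
  have := Fintype.ofFinite S
  have hQ : (Nat.card S : k) ≠ 0 := Nat.cast_ne_zero.2 Nat.card_pos.ne'
  set e : Module.End k E := (Nat.card S : k)⁻¹ • ∑ c : S, K c with he
  have hKe : ∀ a : S, K a * e = e := fun a => by
    rw [he, mul_smul_comm, Finset.mul_sum]
    congr 1
    exact Fintype.sum_equiv (Equiv.addLeft a) _ _ fun c => (hadd a c).symm
  have hee : IsIdempotentElem e := by
    change e * e = e
    conv_lhs => rw [he, smul_mul_assoc, Finset.sum_mul, ← he]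
    simp only [hKe, Finset.sum_const, Finset.card_univ, ← Nat.card_eq_fintype_card,
      ← Nat.cast_smul_eq_nsmul k, smul_smul, inv_mul_cancel₀ hQ, one_smul]
  have hp := (LinearMap.isProj_range_iff_isIdempotentElem e).2 hee
  refine ⟨Module.finrank k (LinearMap.range e), Submodule.finrank_le _, fun h => ?_, ?_⟩
  · have h2 : LinearMap.range e = ⊤ := Submodule.eq_top_of_finrank_eq h
    have h3 : e = 1 := LinearMap.ext fun v => hp.map_id v (h2 ▸ Submodule.mem_top)
    have h4 := hKe ⟨1, h1⟩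
    rwa [h3, mul_one] at h4
  · rw [← hp.trace, he, map_smul, map_sum, smul_eq_mul, mul_inv_cancel_left₀ hQ,
      ← Finset.add_sum_erase _ _ (Finset.mem_univ (0 : S)),
      Finset.sum_congr rfl (g := fun _ => LinearMap.trace k E (K 1))
        fun (c : S) hc => htr c fun h => (Finset.mem_erase.1 hc).1 (Subtype.ext h : c = 0)]
    rw [ZeroMemClass.coe_zero, h0, LinearMap.trace_one, Finset.sum_const,
      Finset.card_erase_of_mem (Finset.mem_univ _), Finset.card_univ, ← Nat.card_eq_fintype_card,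
      nsmul_eq_mul, Nat.cast_pred Nat.card_pos]

/-- An additive family of mutually conjugate endomorphisms is trivial. For a finite additive
subgroup `S` of `F` of order `Q` the average `e_S` of the `K c` is an idempotent, so
`n + (Q - 1) tr (K 1) = Q * rank e_S` (`LinearMap.IsProj.trace`). There are subgroups containing `1`
of infinitely many orders (the fixed fields of powers of Frobenius, or spans over the prime field),
two of them have the same rank `r`, which forces `r = n`, `e_S = 1`, `K 1 = K 1 * e_S = 1`. -/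
theorem eq_one_of_conj {F : Type} [Field F] [IsAlgClosed F] [IsFbar F] {k E : Type*} [Field k]
    [CharZero k] [AddCommGroup E] [Module k E] [FiniteDimensional k E] (K : F → Module.End k E)
    (h0 : K 0 = 1) (hadd : ∀ a b, K (a + b) = K a * K b)
    (hconj : ∀ a, a ≠ 0 → ∃ g g' : Module.End k E, g' * g = 1 ∧ K a = g * K 1 * g') (a : F) :
    K a = 1 := by
  have htr : ∀ a, a ≠ 0 → LinearMap.trace k E (K a) = LinearMap.trace k E (K 1) := fun a ha => by
    obtain ⟨g, g', h1, h2⟩ := hconj a ha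
    rw [h2, LinearMap.trace_mul_comm, ← mul_assoc, h1, one_mul]
  have h1 : K 1 = 1 := by
    have hex : ∀ N : ℕ, ∃ Q r : ℕ, N ≤ Q ∧ r ≤ Module.finrank k E ∧
        (r = Module.finrank k E → K 1 = 1) ∧
        (Module.finrank k E : k) + ((Q : k) - 1) * LinearMap.trace k E (K 1) = Q * r := fun N => by
      obtain ⟨S, hS, h1, hN⟩ := R1b_subgroup (F := F) N
      obtain ⟨r, hr⟩ := R1b_avg K h0 hadd htr S h1
      exact ⟨_, r, hN, hr⟩
    by_contra hne
    have hinf : {Q : ℕ | ∃ r : ℕ, r < Module.finrank k E ∧ (Module.finrank k E : k) +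
        ((Q : k) - 1) * LinearMap.trace k E (K 1) = Q * r}.Infinite := by
      refine Set.infinite_of_forall_exists_gt fun N => ?_
      obtain ⟨Q, r, h1, h2, h3, h4⟩ := hex (N + 1)
      exact ⟨Q, ⟨r, lt_of_le_of_ne h2 fun h => hne (h3 h), h4⟩, h1⟩
    have := hinf.to_subtype
    obtain ⟨Q₁, Q₂, hQ, hr⟩ := Finite.exists_ne_map_eq_of_infinite
      (fun Q : {Q : ℕ | ∃ r : ℕ, r < Module.finrank k E ∧ (Module.finrank k E : k) +
        ((Q : k) - 1) * LinearMap.trace k E (K 1) = Q * r} =>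
        (⟨Q.2.choose, Q.2.choose_spec.1⟩ : Fin (Module.finrank k E)))
    have e₁ := Q₁.2.choose_spec
    have e₂ := Q₂.2.choose_spec
    rw [← Fin.mk.inj_iff.1 hr] at e₂
    generalize Q₁.2.choose = r at e₁ e₂
    have hQ' : ((Q₁ : ℕ) : k) - (Q₂ : ℕ) ≠ 0 :=
      sub_ne_zero.2 fun h => hQ (Subtype.ext (Nat.cast_injective h))
    have e₃ : LinearMap.trace k E (K 1) = r :=
      mul_left_cancel₀ hQ' (by linear_combination e₁.2 - e₂.2)
    have e₄ : (Module.finrank k E : k) = r := by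
      linear_combination e₁.2 - (((Q₁ : ℕ) : k) - 1) * e₃
    exact e₁.1.ne' (Nat.cast_injective e₄)
  by_cases ha : a = 0
  · rw [ha, h0]
  · obtain ⟨g, g', h2, h3⟩ := hconj a ha
    rw [h3, h1, mul_one]
    exact mul_eq_one_comm.1 h2

namespace SL2Op

variable {F : Type} {k M : Type*} [Field F] [IsAlgClosed F] [IsFbar F] [Field k] [CharZero k]
  [AddCommGroup M] [Module k M] (O : SL2Op F k M)

omit [IsAlgClosed F] [IsFbar F] [CharZero k] in
theorem R1b_free3 {E : Submodule k M} (hfree : O.Free E) {a b : F} (ha : a ≠ 0) (hb : b ≠ 0)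
    (hab : a ≠ b) {x y z : E} (h : O.u a x + O.u b y + z = 0) : x = 0 ∧ y = 0 ∧ z = 0 := by
  classical
  have h1 := hfree (Finsupp.single a (x : M) + Finsupp.single b (y : M) + Finsupp.single (0 : F) (z : M))
    (fun c => by
      simp only [Finsupp.add_apply, Finsupp.single_apply]
      refine add_mem (add_mem ?_ ?_) ?_ <;> split_ifs <;> simp)
    (by
      rw [Finsupp.sum_add_index' (by simp) (by simp), Finsupp.sum_add_index' (by simp) (by simp),
        Finsupp.sum_single_index (by simp), Finsupp.sum_single_index (by simp),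
        Finsupp.sum_single_index (by simp), O.u_zero]
      exact h)
  have h2 := DFunLike.congr_fun h1 a
  have h3 := DFunLike.congr_fun h1 b
  have h4 := DFunLike.congr_fun h1 0
  simp [ha, hb, hab, hab.symm] at h2 h3 h4
  exact ⟨h2, h3, h4⟩

omit [IsAlgClosed F] [IsFbar F] [CharZero k] in
theorem R1b_free2 {E : Submodule k M} (hfree : O.Free E) {a : F} (ha : a ≠ 0)
    {x z : E} (h : O.u a x + z = 0) : x = 0 ∧ z = 0 := by
  classical
  have h1 := hfree (Finsupp.single a (x : M) + Finsupp.single (0 : F) (z : M))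
    (fun c => by
      simp only [Finsupp.add_apply, Finsupp.single_apply]
      refine add_mem ?_ ?_ <;> split_ifs <;> simp)
    (by
      rw [Finsupp.sum_add_index' (by simp) (by simp),
        Finsupp.sum_single_index (by simp), Finsupp.sum_single_index (by simp), O.u_zero]
      exact h)
  have h2 := DFunLike.congr_fun h1 a
  have h4 := DFunLike.congr_fun h1 0
  simp [ha] at h2 h4
  exact ⟨h2, h4⟩

omit [IsFbar F] [CharZero k] in
theorem R1b_comp (E : Submodule k M) [FiniteDimensional k E] (hs : ∀ v ∈ E, O.s v ∈ E)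
    (hh : ∀ a, ∀ v ∈ E, O.h a v ∈ E) (hfree : O.Free E)
    (hspan : ∀ v ∈ E, O.s (O.u 1 v) ∈ ⨆ b, E.map (O.u b)) (x : F) :
    ∃ Φ Ψ : Module.End k E, (x = 0 → Φ = 0) ∧
      ∀ v : E, O.s (O.u x v) = O.u (-x⁻¹) (Φ v) + Ψ v := by
  by_cases hx : x = 0
  · refine ⟨0, O.s.restrict hs, fun _ => rfl, fun v => ?_⟩
    simp [hx, O.u_zero]
  · let J : (E × E) →ₗ[k] M := (O.u (-x⁻¹) ∘ₗ E.subtype).coprod E.subtype
    have hJ : LinearMap.ker J = ⊥ := by
      refine LinearMap.ker_eq_bot'.2 fun p hp => ?_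
      have := O.R1b_free2 hfree (neg_ne_zero.2 (inv_ne_zero hx)) (x := p.1) (z := p.2) hp
      exact Prod.ext this.1 this.2
    obtain ⟨g, hg⟩ := J.exists_leftInverse_of_injective hJ
    refine ⟨LinearMap.fst k E E ∘ₗ g ∘ₗ O.s ∘ₗ O.u x ∘ₗ E.subtype,
      LinearMap.snd k E E ∘ₗ g ∘ₗ O.s ∘ₗ O.u x ∘ₗ E.subtype, fun h => absurd h hx, fun v => ?_⟩
    obtain ⟨v₁, h₁, v₂, h₂, e⟩ := O.two_point E hs hh hfree hspan (Units.mk0 x hx) v v.2
    have e' : O.s (O.u x v) = J (⟨v₁, h₁⟩, ⟨v₂, h₂⟩) := by simpa [J] using e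
    have e'' : g (O.s (O.u x v)) = (⟨v₁, h₁⟩, ⟨v₂, h₂⟩) := by
      rw [e']
      exact LinearMap.congr_fun hg _
    change _ = O.u (-x⁻¹) (g (O.s (O.u x v))).1 + (g (O.s (O.u x v))).2
    rw [e'', e']
    rfl

omit [IsAlgClosed F] [IsFbar F] [CharZero k] in
theorem R1b_expand {E : Submodule k M} (hh : ∀ a, ∀ v ∈ E, O.h a v ∈ E)
    {Φ Ψ : F → Module.End k E} (hc : ∀ x (v : E), O.s (O.u x v) = O.u (-x⁻¹) (Φ x v) + Ψ x v)
    (c : Fˣ) (x : F) (v : E) :
    O.u (-(x + c)⁻¹) (Φ (x + c) v) + Ψ (x + c) v =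
      O.u (-(c : F)⁻¹ + (c : F)⁻¹ ^ 2 * -(-(c : F)⁻¹ + -x⁻¹)⁻¹)
        ((O.h c⁻¹).restrict (hh _) (Φ (-(c : F)⁻¹ + -x⁻¹) (Φ x v))) +
      O.u (-(c : F)⁻¹) ((O.h c⁻¹).restrict (hh _)
        (Ψ (-(c : F)⁻¹ + -x⁻¹) (Φ x v) + Ψ (-(c : F)⁻¹) (Ψ x v))) +
      (O.h c⁻¹).restrict (hh _) (Φ (-(c : F)⁻¹) (Ψ x v)) := by
  have hu : ∀ a b (w : M), O.u a (O.u b w) = O.u (a + b) w := fun a b w => by
    rw [O.u_add]; rfl
  have hhu : ∀ b (w : M), O.h c⁻¹ (O.u b w) = O.u ((c : F)⁻¹ ^ 2 * b) (O.h c⁻¹ w) := fun b w => by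
    simpa using LinearMap.congr_fun (O.h_u c⁻¹ b) w
  have hsu : ∀ w : M, O.s (O.u c w) =
      O.u (-(c : F)⁻¹) (O.h c⁻¹ (O.s (O.u (-(c : F)⁻¹) (O.s w)))) := fun w => by
    simpa using LinearMap.congr_fun (O.s_u c) w
  have e0 : -(c : F)⁻¹ + (c : F)⁻¹ ^ 2 * -(-(c : F)⁻¹)⁻¹ = 0 := by
    have := c.ne_zero
    field_simp
    ring
  rw [← hc, add_comm x, ← hu, hsu, hc x v, map_add, hu, map_add, hc, hc]
  simp only [map_add, hhu, hu, e0, O.u_zero, Module.End.one_apply, LinearMap.coe_restrict_apply,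
    Submodule.coe_add]
  abel

/-- Write `s u(a) ξ = u(-1/a) Φ(a) ξ + Ψ(a) ξ` (`two_point`; `Φ(a), Ψ(a) ∈ End E` by freeness) and
put `Ψ(0) = s`. Apply `g = s u(c) s⁻¹ = u(-1/c) h(1/c) s u(-1/c)` to `s u(x) ξ` and compare the
components at the points `-1/(x+c)`, `0`, `-1/c` (distinct when `x, c, x + c ≠ 0`):
`Ψ(x+c) = K c Ψ(x)` with `K c = h(1/c) Φ(-1/c)`, and
`Ψ(-(x+c)/(x c)) Φ(x) + Ψ(-1/c) Ψ(x) = 0`; for `x = 0` one gets `Ψ(c) = K c s`. `Φ(a)` is injective
(else `u(a) ξ ∈ E`), so all `K c`, `Ψ(c)` are invertible, `K (x + c) = K c * K x`, and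
`K (-c) * K c = 1` (use a third point). Conjugation by `h t` shows the `K c` are conjugate. By
`eq_one_of_conj`, `Ψ(c) = s`, `Φ(a) = h(-1/a)`, and the last relation gives `Φ(x) = -s` for all
`x ≠ 0`; `x = -1` gives `s = -1`. -/
theorem st_of_free (E : Submodule k M) [FiniteDimensional k E] (hs : ∀ v ∈ E, O.s v ∈ E)
    (hh : ∀ a, ∀ v ∈ E, O.h a v ∈ E) (hfree : O.Free E)
    (hspan : ∀ v ∈ E, O.s (O.u 1 v) ∈ ⨆ b, E.map (O.u b)) (v : M) (hv : v ∈ E) :
    (∀ a, O.h a v = v) ∧ O.s v = -v ∧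
      ∀ a : Fˣ, O.s (O.u a v) = O.u (-(a⁻¹ : Fˣ)) v - v := by
  choose Φ Ψ hΦ0 hc using O.R1b_comp E hs hh hfree hspan
  replace hΦ0 : Φ 0 = 0 := hΦ0 0 rfl
  set σ : Module.End k E := O.s.restrict hs with hσ
  set η : Fˣ → Module.End k E := fun a => (O.h a).restrict (hh a) with hη
  have hη1 : η 1 = 1 := LinearMap.ext fun w => Subtype.ext (LinearMap.congr_fun O.h_one w)
  have hηm : ∀ a b, η (a * b) = η a * η b := fun a b =>
    LinearMap.ext fun w => Subtype.ext (LinearMap.congr_fun (O.h_mul a b) w)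
  have hση : ∀ a, σ * η a = η a⁻¹ * σ := fun a =>
    LinearMap.ext fun w => Subtype.ext (LinearMap.congr_fun (O.s_h a) w)
  have hσσ : σ * σ = η (-1) := LinearMap.ext fun w => Subtype.ext (LinearMap.congr_fun O.s_s w)
  have hσu : IsUnit σ := by
    refine IsUnit.of_mul_eq_one (σ * η (-1)) ?_
    rw [← mul_assoc, hσσ, ← hηm, neg_mul_neg, one_mul, hη1]
  obtain ⟨τ, hτ⟩ := hσu
  have hΨ0 : Ψ 0 = σ := LinearMap.ext fun w => Subtype.ext <| by
    have := hc 0 w
    rw [hΦ0, O.u_zero] at this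
    simpa [hσ] using this.symm
  have R : ∀ (c : Fˣ) (x : F), Ψ (x + c) = η c⁻¹ * Φ (-(c : F)⁻¹) * Ψ x ∧
      (x + c = 0 → η c⁻¹ * (σ * Φ x + Ψ (-(c : F)⁻¹) * Ψ x) = 0) := by
    intro c x
    have hc0 : -(c : F)⁻¹ ≠ 0 := neg_ne_zero.2 (inv_ne_zero c.ne_zero)
    by_cases hxc : x + c = 0
    · have hy : -(c : F)⁻¹ + -x⁻¹ = 0 := by
        rw [eq_neg_of_add_eq_zero_left hxc, inv_neg, neg_neg, neg_add_cancel]
      have key : ∀ w : E, η c⁻¹ (σ (Φ x w) + Ψ (-(c : F)⁻¹) (Ψ x w)) = 0 ∧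
          η c⁻¹ (Φ (-(c : F)⁻¹) (Ψ x w)) - Ψ (x + c) w = 0 := fun w => by
        refine O.R1b_free2 hfree hc0 ?_
        have h1 := O.R1b_expand hh hc c x w
        rw [hy, hxc, hΦ0, hΨ0] at h1
        rw [hxc, hΨ0, Submodule.coe_sub, ← add_sub_assoc, sub_eq_zero]
        simpa [hη] using h1.symm
      exact ⟨LinearMap.ext fun w => (sub_eq_zero.1 (key w).2).symm,
        fun _ => LinearMap.ext fun w => (key w).1⟩
    refine ⟨LinearMap.ext fun w => ?_, fun h => absurd h hxc⟩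
    have h1 := O.R1b_expand hh hc c x w
    by_cases hx : x = 0
    · subst hx
      refine (sub_eq_zero.1 (O.R1b_free2 hfree hc0 (x := η c⁻¹ (Ψ (-(c : F)⁻¹) (Ψ 0 w)) - Φ (0 + c) w)
        (z := η c⁻¹ (Φ (-(c : F)⁻¹) (Ψ 0 w)) - Ψ (0 + c) w) ?_).2).symm
      simp only [hΦ0, LinearMap.zero_apply, map_zero, zero_add, ZeroMemClass.coe_zero] at h1
      simp only [Submodule.coe_sub, map_sub, zero_add]
      rw [sub_add_sub_comm, sub_eq_zero]
      exact h1.symm
    · have e1 : -(c : F)⁻¹ + (c : F)⁻¹ ^ 2 * -(-(c : F)⁻¹ + -x⁻¹)⁻¹ = -(x + c)⁻¹ := by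
        have := c.ne_zero
        have e2 : -(c : F)⁻¹ + -x⁻¹ = -((x + c) / (x * c)) := by
          field_simp
          ring
        rw [e2]
        field_simp
        ring
      rw [e1] at h1
      refine (sub_eq_zero.1 (O.R1b_free3 hfree (neg_ne_zero.2 (inv_ne_zero hxc)) hc0
        (fun h => hx (by simpa using h))
        (x := η c⁻¹ (Φ (-(c : F)⁻¹ + -x⁻¹) (Φ x w)) - Φ (x + c) w)
        (y := η c⁻¹ (Ψ (-(c : F)⁻¹ + -x⁻¹) (Φ x w) + Ψ (-(c : F)⁻¹) (Ψ x w)))
        (z := η c⁻¹ (Φ (-(c : F)⁻¹) (Ψ x w)) - Ψ (x + c) w) ?_).2.2).symm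
      simp only [Submodule.coe_sub, map_sub]
      rw [← sub_eq_zero.2 h1.symm]
      simp only [hη]
      abel
  have hK : ∀ c : Fˣ, Ψ c * ↑τ⁻¹ = η c⁻¹ * Φ (-(c : F)⁻¹) := fun c => by
    have := (R c 0).1
    rw [zero_add, hΨ0, ← hτ] at this
    rw [this, Units.mul_inv_cancel_right]
  have hone := eq_one_of_conj (k := k) (E := E) (fun x : F => Ψ x * (τ⁻¹ : (Module.End k E)ˣ))
    (by rw [hΨ0, ← hτ, Units.mul_inv])
    (fun a b => by
      by_cases ha : a = 0
      · rw [ha, zero_add, hΨ0, ← hτ, Units.mul_inv, one_mul]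
      · have h1 := (R (Units.mk0 a ha) b).1
        rw [← hK] at h1
        rw [add_comm, ← mul_assoc]
        exact congrArg (· * _) h1)
    (fun a ha => by
      obtain ⟨t, rfl⟩ := IsAlgClosed.exists_pow_nat_eq a two_pos
      have ht : t ≠ 0 := fun h => ha (by simp [h])
      set t' := Units.mk0 t ht with ht'
      refine ⟨η t'⁻¹, η t', by rw [← hηm, mul_inv_cancel, hη1], ?_⟩
      have h1 : Ψ (t ^ 2) * η t' = η t'⁻¹ * Ψ 1 := LinearMap.ext fun w => by
        refine sub_eq_zero.1 (O.R1b_free2 hfree (neg_ne_zero.2 (inv_ne_zero ha))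
          (x := Φ (t ^ 2) (η t' w) - η t'⁻¹ (Φ 1 w))
          (z := Ψ (t ^ 2) (η t' w) - η t'⁻¹ (Ψ 1 w)) ?_).2
        have e1 : O.u (t ^ 2) (η t' w) = O.h t' (O.u 1 w) := by
          simpa [ht', hη] using (LinearMap.congr_fun (O.h_u t' 1) w).symm
        have e2 : O.s (O.h t' (O.u 1 w)) = O.h t'⁻¹ (O.s (O.u 1 w)) :=
          LinearMap.congr_fun (O.s_h t') _
        have e3 : O.h t'⁻¹ (O.u (-1⁻¹) (Φ 1 w)) = O.u (-(t ^ 2)⁻¹) (η t'⁻¹ (Φ 1 w)) := by
          simpa [ht', hη] using LinearMap.congr_fun (O.h_u t'⁻¹ (-1)) (Φ 1 w)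
        simp only [Submodule.coe_sub, map_sub]
        rw [sub_add_sub_comm, sub_eq_zero, ← hc, e1, e2, hc, map_add, e3]
        rfl
      have h2 : η t'⁻¹ * ↑τ⁻¹ = ↑τ⁻¹ * η t' := by
        have h3 := hση t'⁻¹
        rw [inv_inv, ← hτ] at h3
        rw [Units.eq_inv_mul_iff_mul_eq, ← mul_assoc, h3, Units.mul_inv_cancel_right]
      calc Ψ (t ^ 2) * ↑τ⁻¹ = Ψ (t ^ 2) * η t' * (η t'⁻¹ * ↑τ⁻¹) := by
            rw [mul_assoc, ← mul_assoc (η t'), ← hηm, mul_inv_cancel, hη1, one_mul]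
        _ = η t'⁻¹ * (Ψ 1 * ↑τ⁻¹) * η t' := by rw [h1, h2]; simp only [mul_assoc])
  have hΨ : ∀ x, Ψ x = σ := fun x => by
    have := hone x
    rwa [Units.mul_inv_eq_iff_eq_mul, one_mul, hτ] at this
  have hcan : ∀ (c : Fˣ) (A : Module.End k E), η c * (η c⁻¹ * A) = A := fun c A => by
    rw [← mul_assoc, ← hηm, mul_inv_cancel, hη1, one_mul]
  have hΦ : ∀ c : Fˣ, Φ (-(c : F)⁻¹) = η c := fun c => by
    rw [← hcan c (Φ _), ← hK, hone, mul_one]
  have hΦ' : ∀ x : F, x ≠ 0 → Φ x = -σ := fun x hx => by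
    have h1 := (R (-Units.mk0 x hx) x).2 (by simp)
    have h2 := hcan (-Units.mk0 x hx) (σ * Φ x + Ψ (-((-Units.mk0 x hx : Fˣ) : F)⁻¹) * Ψ x)
    rw [h1, mul_zero, hΨ, hΨ, ← mul_add, ← hτ, eq_comm, Units.mul_right_eq_zero, hτ] at h2
    exact eq_neg_of_add_eq_zero_left h2
  have hηa : ∀ c : Fˣ, η c = -σ := fun c => by
    rw [← hΦ, hΦ' _ (neg_ne_zero.2 (inv_ne_zero c.ne_zero))]
  have hσ1 : σ = -1 := by rw [← hη1, hηa, neg_neg]
  refine ⟨fun a => ?_, ?_, fun a => ?_⟩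
  · have h1 : η a = 1 := by rw [hηa, hσ1, neg_neg]
    exact congrArg Subtype.val (LinearMap.congr_fun h1 ⟨v, hv⟩)
  · exact congrArg Subtype.val (LinearMap.congr_fun hσ1 ⟨v, hv⟩)
  · have h1 := hc a ⟨v, hv⟩
    rw [hΦ' _ a.ne_zero, hΨ, hσ1] at h1
    simpa [sub_eq_add_neg] using h1

end SL2Op

end Pool.Agent.Work.MP_bb5f23_al
end

-- merged part: Pool.Agent.Work.MP_bb5f23_al.SD
section
/-! Unitary representations of finite groups in small dimension. -/

namespace Pool.Agent.Work.MP_bb5f23_al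

open scoped InnerProductSpace

universe u v

section SDaux

variable {H : Type*} [Group H] {Z : Type*} [NormedAddCommGroup Z] [InnerProductSpace ℂ Z]
  (π : Representation ℂ H Z)

theorem SD_mul (g h : H) (v : Z) : π (g * h) v = π g (π h v) := by
  rw [map_mul, Module.End.mul_apply]

theorem SD_inner (hπ : ∀ h v, ‖π h v‖ = ‖v‖) (h : H) (x y : Z) :
    ⟪π h x, π h y⟫_ℂ = ⟪x, y⟫_ℂ :=
  (⟨π h, hπ h⟩ : Z →ₗᵢ[ℂ] Z).inner_map_map x y

theorem SD_inv (hπ : ∀ h v, ‖π h v‖ = ‖v‖) {a : H} {c : ℝ} (ha : ∀ v, ‖π a v - v‖ ≤ c * ‖v‖)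
    (v : Z) : ‖π a⁻¹ v - v‖ ≤ c * ‖v‖ := by
  rw [← hπ a, map_sub, ← SD_mul, mul_inv_cancel, map_one, Module.End.one_apply, norm_sub_rev]
  exact ha v

theorem SD_commutator (hπ : ∀ h v, ‖π h v‖ = ‖v‖) {a b : H} {α β : ℝ} (hα : 0 ≤ α) (hβ : 0 ≤ β)
    (ha : ∀ v, ‖π a v - v‖ ≤ α * ‖v‖) (hb : ∀ v, ‖π b v - v‖ ≤ β * ‖v‖) (v : Z) :
    ‖π (a * b * a⁻¹ * b⁻¹) v - v‖ ≤ 2 * α * β * ‖v‖ := by
  obtain ⟨w, rfl⟩ : ∃ w, v = π b (π a w) :=
    ⟨π (a⁻¹ * b⁻¹) v, by rw [← SD_mul, ← SD_mul]; simp⟩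
  have e : π (a * b * a⁻¹ * b⁻¹) (π b (π a w)) = π a (π b w) := by
    rw [← SD_mul, ← SD_mul, ← SD_mul]; simp
  have e2 : π a (π b w) - π b (π a w) =
      (π a (π b w - w) - (π b w - w)) - (π b (π a w - w) - (π a w - w)) := by
    simp only [map_sub]; abel
  rw [e, e2, hπ, hπ]
  have h1 := (ha (π b w - w)).trans (mul_le_mul_of_nonneg_left (hb w) hα)
  have h2 := (hb (π a w - w)).trans (mul_le_mul_of_nonneg_left (ha w) hβ)
  exact (norm_sub_le _ _).trans (by linarith)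

theorem SD_frob [Finite H] [FiniteDimensional ℂ Z] (hπ : ∀ h v, ‖π h v‖ = ‖v‖) {a b : H} {β : ℝ}
    (hβ : β < 1) (hb : ∀ v, ‖π b v - v‖ ≤ β * ‖v‖) (h : Commute (π a) (π (b * a * b⁻¹))) :
    Commute (π a) (π b) := by
  have hs : Module.End.IsSemisimple (π (b * a * b⁻¹)) := by
    refine Module.End.isSemisimple_of_squarefree_aeval_eq_zero
      (p := Polynomial.X ^ orderOf (b * a * b⁻¹) - 1)
      (Polynomial.X_pow_sub_one_separable_iff.2 ?_).squarefree ?_
    · exact Nat.cast_ne_zero.2 (orderOf_pos _).ne'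
    · rw [map_sub, map_pow, Polynomial.aeval_X, map_one, ← map_pow, pow_orderOf_eq_one, map_one,
        sub_self]
  have hle : ⊤ ≤ LinearMap.ker (π a - π (b * a * b⁻¹)) := by
    rw [← hs.iSup_eigenspace_eq_top]
    refine iSup_le fun l y₀ hy => ?_
    rw [Module.End.mem_eigenspace_iff] at hy
    rw [LinearMap.mem_ker, LinearMap.sub_apply, hy]
    by_cases h0 : y₀ = 0
    · simp [h0]
    have hl : ‖l‖ = 1 := by
      have := hπ (b * a * b⁻¹) y₀
      rw [hy, norm_smul] at this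
      exact mul_right_cancel₀ (norm_ne_zero_iff.2 h0) (by rw [this, one_mul])
    set y := π a y₀ - l • y₀ with hyd
    have h1 : π (b * a * b⁻¹) y = l • y := by
      have := LinearMap.congr_fun h.eq y₀
      simp only [Module.End.mul_apply] at this
      rw [hyd, map_sub, ← this, hy, map_smul, map_smul, hy, smul_sub]
    have h2 : π a (π b⁻¹ y) = l • π b⁻¹ y := by
      rw [← map_smul, ← h1, ← SD_mul, ← SD_mul]
      congr 2
      group
    have h3 : ⟪π b⁻¹ y, y⟫_ℂ = 0 := by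
      have e := SD_inner π hπ a (π b⁻¹ y) y₀
      rw [h2, inner_smul_left] at e
      have e1 : l * (starRingEnd ℂ) l = 1 := by
        rw [Complex.mul_conj, Complex.normSq_eq_norm_sq, hl]; simp
      generalize π b⁻¹ y = z at e ⊢
      rw [hyd, inner_sub_right, inner_smul_right, ← e, ← mul_assoc, e1, one_mul, sub_self]
    have h4 := SD_inv π hπ hb y
    have h5 := norm_sub_sq (𝕜 := ℂ) (π b⁻¹ y) y
    rw [h3, hπ, map_zero] at h5
    by_contra hne
    have h6 : 0 < ‖y‖ := norm_pos_iff.2 hne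
    have h7 : ‖π b⁻¹ y - y‖ < ‖y‖ := h4.trans_lt (mul_lt_of_lt_one_left h6 hβ)
    have h8 := pow_lt_pow_left₀ h7 (norm_nonneg _) two_ne_zero
    nlinarith [sq_nonneg ‖y‖]
  have e : π a = π (b * a * b⁻¹) := by
    ext v
    exact sub_eq_zero.1 (hle (Submodule.mem_top (x := v)))
  change π a * π b = π b * π a
  rw [← map_mul π b a, show b * a = b * a * b⁻¹ * b by group, map_mul, ← e]

theorem SD_pigeon (d : ℕ) : ∃ N : ℕ,
    ∀ f : ℕ → EuclideanSpace ℂ (Fin d) →L[ℂ] EuclideanSpace ℂ (Fin d), (∀ i, ‖f i‖ ≤ 1) →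
      ∃ i j, i < j ∧ j ≤ N ∧ ‖f i - f j‖ ≤ 1 / 4 := by
  obtain ⟨t, -, ht, hc⟩ := finite_cover_balls_of_compact (isCompact_closedBall
    (0 : EuclideanSpace ℂ (Fin d) →L[ℂ] EuclideanSpace ℂ (Fin d)) 1) (e := 1 / 8) (by norm_num)
  refine ⟨ht.toFinset.card, fun f hf => ?_⟩
  have h1 : ∀ i, ∃ x ∈ ht.toFinset, f i ∈ Metric.ball x (1 / 8) := fun i => by
    have := hc (mem_closedBall_zero_iff.2 (hf i))
    simpa using this
  choose g hg hg' using h1
  obtain ⟨i, hi, j, hj, hij, e⟩ := Finset.exists_ne_map_eq_of_card_lt_of_maps_to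
    (s := Finset.range (ht.toFinset.card + 1)) (t := ht.toFinset) (by simp) (f := g)
    fun i _ => hg i
  have h2 : dist (f i) (f j) ≤ 1 / 4 := by
    have a1 := Metric.mem_ball.1 (hg' i)
    have a2 := Metric.mem_ball.1 (hg' j)
    rw [e] at a1
    linarith [dist_triangle_right (f i) (f j) (g j)]
  rw [Finset.mem_range] at hi hj
  rcases lt_or_gt_of_ne hij with h | h
  · exact ⟨i, j, h, by omega, by rwa [← dist_eq_norm]⟩
  · exact ⟨j, i, h, by omega, by rwa [← dist_eq_norm, dist_comm]⟩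

theorem SD_power [FiniteDimensional ℂ Z] (hπ : ∀ h v, ‖π h v‖ = ‖v‖) {N : ℕ}
    (hN : ∀ f : ℕ → EuclideanSpace ℂ (Fin (Module.finrank ℂ Z)) →L[ℂ]
      EuclideanSpace ℂ (Fin (Module.finrank ℂ Z)), (∀ i, ‖f i‖ ≤ 1) →
      ∃ i j, i < j ∧ j ≤ N ∧ ‖f i - f j‖ ≤ 1 / 4) {a : H}
    (ha : ∀ l : ℕ, l.Prime → l ∣ orderOf a → N < l) :
    ∃ a' : H, (∀ v, ‖π a' v - v‖ ≤ 1 / 4 * ‖v‖) ∧ ∃ m : ℕ, a' ^ m = a := by
  let e := (stdOrthonormalBasis ℂ Z).repr
  let f := fun i : ℕ => LinearMap.toContinuousLinearMap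
    (e.toLinearEquiv.toLinearMap ∘ₗ π (a ^ i) ∘ₗ e.symm.toLinearEquiv.toLinearMap)
  have hf : ∀ i x, f i x = e (π (a ^ i) (e.symm x)) := fun _ _ => rfl
  obtain ⟨i, j, hij, hj, h⟩ := hN f fun i => ContinuousLinearMap.opNorm_le_bound _ zero_le_one
    fun x => by rw [hf, e.norm_map, hπ, e.symm.norm_map, one_mul]
  refine ⟨a ^ (j - i), fun v => ?_, exists_pow_eq_self_of_coprime ?_⟩
  · have h1 := (f i - f j).le_of_opNorm_le h (e v)
    rw [sub_apply, hf, hf, e.symm_apply_apply, ← map_sub, e.norm_map,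
      e.norm_map] at h1
    rw [← hπ (a ^ i), map_sub, ← SD_mul, ← pow_add, Nat.add_sub_cancel' hij.le, norm_sub_rev]
    exact h1
  · refine Nat.coprime_of_dvd fun l hl h1 h2 => ?_
    have := ha l hl h2
    have := Nat.le_of_dvd (by omega) h1
    omega

end SDaux

/-- Two elements of a finite group acting close to the identity commute. Suppose not; among the
`b` with `‖π b - 1‖ < 1 / 2` not commuting with `a` take one of least distance; the commutator
`c = a b a⁻¹ b⁻¹` has `‖π c - 1‖ ≤ 2 ‖π a - 1‖ ‖π b - 1‖ < ‖π b - 1‖`, so `π c` commutes with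
`u = π a`, hence `u` commutes with `u' = π (b a b⁻¹)`. If `u ≠ u'`, since the eigenspaces of `u'`
span (finite order, `Module.End.IsSemisimple` or the explicit projections), there are `λ` and
`y₀` with `u' y₀ = λ y₀`, `y = (u - λ) y₀ ≠ 0`; then `u' y = λ y`, `u (π b⁻¹ y) = λ π b⁻¹ y`, and
`y` is orthogonal to the `λ`-eigenspace of `u` (`|λ| = 1`), so `‖π b⁻¹ y - y‖ ≥ ‖y‖`. -/
theorem commute_of_close {H : Type*} [Group H] [Finite H] {Z : Type*} [NormedAddCommGroup Z]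
    [InnerProductSpace ℂ Z] [FiniteDimensional ℂ Z] (π : Representation ℂ H Z)
    (hπ : ∀ h v, ‖π h v‖ = ‖v‖) {a b : H} {c : ℝ} (hc : c < 1 / 2)
    (ha : ∀ v, ‖π a v - v‖ ≤ c * ‖v‖) (hb : ∀ v, ‖π b v - v‖ ≤ c * ‖v‖) :
    Commute (π a) (π b) := by
  let d : H → ℝ := fun h => ‖LinearMap.toContinuousLinearMap (π h - 1)‖
  have d1 : ∀ h v, ‖π h v - v‖ ≤ d h * ‖v‖ := fun h v =>
    (LinearMap.toContinuousLinearMap (π h - 1)).le_opNorm v
  have d2 : ∀ h (r : ℝ), 0 ≤ r → (∀ v, ‖π h v - v‖ ≤ r * ‖v‖) → d h ≤ r := fun h r hr H =>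
    ContinuousLinearMap.opNorm_le_bound _ hr H
  have d0 : ∀ h, 0 ≤ d h := fun h => norm_nonneg _
  have hmax : ∀ {x : H}, (∀ v, ‖π x v - v‖ ≤ c * ‖v‖) → d x < 1 / 2 := fun hx =>
    (d2 _ (max c 0) (le_max_right _ _) fun v => (hx v).trans
      (mul_le_mul_of_nonneg_right (le_max_left _ _) (norm_nonneg _))).trans_lt
      (max_lt hc (by norm_num))
  by_contra hn
  obtain ⟨x, ⟨hx1, hx2⟩, hmin⟩ := Set.exists_min_image
    {x : H | d x < 1 / 2 ∧ ¬ Commute (π a) (π x)} d (Set.toFinite _) ⟨b, hmax hb, hn⟩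
  have hpos : 0 < d x := by
    refine (d0 x).lt_of_ne fun h0 => hx2 ?_
    have : π x = 1 := by
      ext v
      have := d1 x v
      rw [← h0, zero_mul, norm_le_zero_iff, sub_eq_zero] at this
      exact this
    rw [this]
    exact Commute.one_right _
  have h1 : d (a⁻¹ * x * a⁻¹⁻¹ * x⁻¹) ≤ 2 * d a * d x :=
    d2 _ _ (mul_nonneg (mul_nonneg zero_le_two (d0 a)) (d0 x))
      (SD_commutator π hπ (d0 a) (d0 x) (SD_inv π hπ (d1 a)) (d1 x))
  have h2 : d (a⁻¹ * x * a⁻¹⁻¹ * x⁻¹) < d x := by nlinarith [hmax ha]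
  have h3 : Commute (π a) (π (a⁻¹ * x * a⁻¹⁻¹ * x⁻¹)) := by
    by_contra h
    exact absurd (hmin _ ⟨h2.trans hx1, h⟩) (not_le.2 h2)
  refine hx2 (SD_frob π hπ (by linarith) (d1 x) ?_)
  rw [show x * a * x⁻¹ = a * (a⁻¹ * x * a⁻¹⁻¹ * x⁻¹) by group, map_mul]
  exact (Commute.refl _).mul_right h3

/-- For each `d ≤ n` cover the compact unit ball of the operators on `EuclideanSpace ℂ (Fin d)` by
`N d` balls of radius `1 / 8`; transport along `stdOrthonormalBasis`. By pigeonhole some power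
`a ^ j`, `1 ≤ j ≤ N d < π0`, acts within `1 / 4` of the identity, and `j` is coprime to the order of
`a`, so `a` is a power of `a ^ j`. -/
theorem commute_of_small_dim (n : ℕ) : ∃ π0 : ℕ, ∀ {H : Type u} [Group H] [Finite H] {Z : Type v}
    [NormedAddCommGroup Z] [InnerProductSpace ℂ Z] [FiniteDimensional ℂ Z]
    (π : Representation ℂ H Z), (∀ h v, ‖π h v‖ = ‖v‖) → Module.finrank ℂ Z ≤ n → ∀ a b : H,
    (∀ l : ℕ, l.Prime → l ∣ orderOf a → π0 ≤ l) → (∀ l : ℕ, l.Prime → l ∣ orderOf b → π0 ≤ l) →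
    Commute (π a) (π b) := by
  choose N hN using SD_pigeon
  refine ⟨(Finset.range (n + 1)).sup N + 1, fun {H _ _ Z _ _ _} π hπ hd a b ha hb => ?_⟩
  have hle : N (Module.finrank ℂ Z) ≤ (Finset.range (n + 1)).sup N :=
    Finset.le_sup (f := N) (Finset.mem_range.2 (Nat.lt_succ_of_le hd))
  obtain ⟨a', h1, k, rfl⟩ := SD_power π hπ (hN _) (a := a) fun l h h' => by
    have := ha l h h'; omega
  obtain ⟨b', h2, m, rfl⟩ := SD_power π hπ (hN _) (a := b) fun l h h' => by
    have := hb l h h'; omega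
  rw [map_pow, map_pow]
  exact (commute_of_close π hπ (by norm_num) h1 h2).pow_pow k m

end Pool.Agent.Work.MP_bb5f23_al
end

-- merged part: Pool.Agent.Work.MP_bb5f23_al.Schur
section
/-! Schur orthogonality, twisted averages, decomposition into irreducibles. -/

namespace Pool.Agent.Work.MP_bb5f23_al

open scoped InnerProductSpace

theorem Schur_inner {H Z : Type*} [Group H] [NormedAddCommGroup Z] [InnerProductSpace ℂ Z]
    (π : Representation ℂ H Z) (hπ : ∀ h v, ‖π h v‖ = ‖v‖) (g : H) (x y : Z) :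
    ⟪π g x, π g y⟫_ℂ = ⟪x, y⟫_ℂ :=
  (⟨π g, hπ g⟩ : Z →ₗᵢ[ℂ] Z).inner_map_map x y

theorem Schur_adj {H Z : Type*} [Group H] [NormedAddCommGroup Z] [InnerProductSpace ℂ Z]
    (π : Representation ℂ H Z) (hπ : ∀ h v, ‖π h v‖ = ‖v‖) (g : H) (x y : Z) :
    ⟪π g x, y⟫_ℂ = ⟪x, π g⁻¹ y⟫_ℂ := by
  rw [← Schur_inner π hπ g x (π g⁻¹ y)]
  congr 1
  rw [← Module.End.mul_apply, ← map_mul, mul_inv_cancel, map_one, Module.End.one_apply]

/-- The operator `x ↦ ∑ h, ⟪π h v, x⟫ • π h v` commutes with `π`, so it is a scalar (eigenspace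
argument), and its trace is `card H * ‖v‖ ^ 2`. -/
theorem schur_sum {H : Type*} [Group H] [Fintype H] {Z : Type*} [NormedAddCommGroup Z]
    [InnerProductSpace ℂ Z] [FiniteDimensional ℂ Z] (π : Representation ℂ H Z)
    (hπ : ∀ h v, ‖π h v‖ = ‖v‖)
    (hirr : ∀ W : Submodule ℂ Z, (∀ h, ∀ v ∈ W, π h v ∈ W) → W = ⊥ ∨ W = ⊤) (v w : Z) :
    (Module.finrank ℂ Z : ℝ) * ∑ h, ‖⟪π h v, w⟫_ℂ‖ ^ 2 =
      Fintype.card H * ‖v‖ ^ 2 * ‖w‖ ^ 2 := by
  rcases subsingleton_or_nontrivial Z with hZ | hZ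
  · have hv : v = 0 := Subsingleton.elim _ _
    simp [hv]
  obtain ⟨A, hA⟩ : ∃ A : Module.End ℂ Z,
      A = ∑ h, (innerₛₗ ℂ (π h v)).smulRight (π h v) := ⟨_, rfl⟩
  have hAx : ∀ x, A x = ∑ h, ⟪π h v, x⟫_ℂ • π h v := by
    intro x
    rw [hA, LinearMap.sum_apply]
    simp
  have hcomm : ∀ g x, A (π g x) = π g (A x) := by
    intro g x
    rw [hAx, hAx, map_sum, ← Equiv.sum_comp (Equiv.mulLeft g)]
    refine Finset.sum_congr rfl fun h _ => ?_
    simp only [Equiv.coe_mulLeft, map_mul, Module.End.mul_apply, map_smul]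
    rw [Schur_inner π hπ]
  obtain ⟨c, hc⟩ := Module.End.exists_eigenvalue A
  have htop : A.eigenspace c = ⊤ := by
    refine (hirr _ ?_).resolve_left hc
    intro h x hx
    rw [Module.End.mem_eigenspace_iff] at hx ⊢
    rw [hcomm, hx, map_smul]
  have hAc : ∀ x, A x = c • x := fun x =>
    Module.End.mem_eigenspace_iff.1 (htop ▸ Submodule.mem_top)
  have hA1 : A = c • LinearMap.id := LinearMap.ext fun x => by simp [hAc]
  have ht : c * Module.finrank ℂ Z = Fintype.card H * (‖v‖ : ℂ) ^ 2 := by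
    have e1 : LinearMap.trace ℂ Z A = c * Module.finrank ℂ Z := by
      rw [hA1, map_smul, LinearMap.trace_id, smul_eq_mul]
    rw [← e1, hA, map_sum]
    simp only [LinearMap.trace_smulRight, innerₛₗ_apply_apply, inner_self_eq_norm_sq_to_K, hπ]
    simp
  have hw : ((∑ h, ‖⟪π h v, w⟫_ℂ‖ ^ 2 : ℝ) : ℂ) = c * (‖w‖ : ℂ) ^ 2 := by
    have e1 : ⟪w, A w⟫_ℂ = c * (‖w‖ : ℂ) ^ 2 := by
      rw [hAc, inner_smul_right, inner_self_eq_norm_sq_to_K]
      rfl
    rw [← e1, hAx, inner_sum]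
    push_cast
    refine Finset.sum_congr rfl fun h _ => ?_
    rw [inner_smul_right, ← inner_conj_symm w, Complex.mul_conj, Complex.normSq_eq_norm_sq]
    push_cast
    rfl
  have : ((Module.finrank ℂ Z : ℝ) * ∑ h, ‖⟪π h v, w⟫_ℂ‖ ^ 2 : ℝ) =
      ((Fintype.card H * ‖v‖ ^ 2 * ‖w‖ ^ 2 : ℝ) : ℂ) := by
    rw [Complex.ofReal_mul, hw]
    push_cast
    rw [← ht]
    ring
  exact_mod_cast this

section proj

variable {Γ H Z : Type*} [CommGroup Γ] [Group H] [NormedAddCommGroup Z] [InnerProductSpace ℂ Z]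

/-- The `χ`-eigenspace of `Γ` acting through `t`. -/
def eigsp (π : Representation ℂ H Z) (t : Γ →* H) (χ : Γ →* ℂ) : Submodule ℂ Z where
  carrier := {v | ∀ z, π (t z) v = χ z • v}
  add_mem' ha hb z := by simp [ha z, hb z]
  zero_mem' z := by simp
  smul_mem' c v hv z := by rw [map_smul, hv z, smul_comm]

/-- The twisted average. -/
noncomputable def tavg (π : Representation ℂ H Z) (t : Γ →* H) (χ : Γ →* ℂ) : Module.End ℂ Z :=
  (Nat.card Γ : ℂ)⁻¹ • ∑ᶠ z, χ z⁻¹ • π (t z)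

variable [Finite Γ] (π : Representation ℂ H Z) (t : Γ →* H) (χ : Γ →* ℂ)

theorem norm_char (z : Γ) : ‖χ z‖ = 1 := by
  have h1 : χ z ^ Nat.card Γ = 1 := by rw [← map_pow, pow_card_eq_one', map_one]
  exact Complex.norm_eq_one_of_pow_eq_one h1 Nat.card_pos.ne'

omit [Finite Γ] in
theorem Schur_tavg_apply [Fintype Γ] (v : Z) :
    tavg π t χ v = (Nat.card Γ : ℂ)⁻¹ • ∑ z, χ z⁻¹ • π (t z) v := by
  rw [tavg, finsum_eq_sum_of_fintype, LinearMap.smul_apply, LinearMap.sum_apply]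
  rfl

theorem tavg_mem (v : Z) : tavg π t χ v ∈ eigsp π t χ := by
  have := Fintype.ofFinite Γ
  rw [Schur_tavg_apply]
  refine Submodule.smul_mem _ _ ?_
  intro y
  rw [map_sum, Finset.smul_sum, ← Equiv.sum_comp (Equiv.mulLeft y) fun z =>
    χ y • χ z⁻¹ • π (t z) v]
  refine Finset.sum_congr rfl fun z _ => ?_
  simp only [Equiv.coe_mulLeft, map_smul, smul_smul]
  rw [← map_mul χ, map_mul t, map_mul π, Module.End.mul_apply]
  congr 2
  rw [mul_inv_rev, mul_comm z⁻¹, mul_inv_cancel_left]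

theorem tavg_of_mem {v : Z} (hv : v ∈ eigsp π t χ) : tavg π t χ v = v := by
  have := Fintype.ofFinite Γ
  rw [Schur_tavg_apply]
  have h1 : ∀ z, χ z⁻¹ • π (t z) v = v := by
    intro z
    rw [hv z, smul_smul, ← map_mul, inv_mul_cancel, map_one, one_smul]
  simp only [h1, Finset.sum_const, Finset.card_univ]
  rw [← Nat.cast_smul_eq_nsmul ℂ, smul_smul, Nat.card_eq_fintype_card, inv_mul_cancel₀, one_smul]
  exact_mod_cast Fintype.card_ne_zero

theorem tavg_symm (hπ : ∀ h v, ‖π h v‖ = ‖v‖) : (tavg π t χ).IsSymmetric := by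
  have := Fintype.ofFinite Γ
  intro x y
  rw [Schur_tavg_apply, Schur_tavg_apply, inner_smul_left, inner_smul_right, sum_inner, inner_sum,
    ← Equiv.sum_comp (Equiv.inv Γ)]
  congr 1
  · simp
  refine Finset.sum_congr rfl fun z _ => ?_
  simp only [Equiv.inv_apply, inv_inv]
  rw [inner_smul_left, inner_smul_right, Schur_adj π hπ, ← map_inv, inv_inv]
  congr 1
  have h1 : χ z⁻¹ * χ z = 1 := by rw [← map_mul, inv_mul_cancel, map_one]
  rw [eq_inv_of_mul_eq_one_left h1, Complex.inv_eq_conj (norm_char χ z)]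

theorem norm_tavg_le (hπ : ∀ h v, ‖π h v‖ = ‖v‖) (v : Z) : ‖tavg π t χ v‖ ≤ ‖v‖ := by
  have := Fintype.ofFinite Γ
  rw [Schur_tavg_apply, norm_smul, norm_inv, Complex.norm_natCast, Nat.card_eq_fintype_card]
  have hc : (0 : ℝ) < Fintype.card Γ := by exact_mod_cast Fintype.card_pos
  rw [inv_mul_le_iff₀ hc]
  refine (norm_sum_le _ _).trans (le_of_eq ?_)
  simp [norm_smul, norm_char, hπ]

end proj

/-- Expansion of an ordered product of sums in a noncommutative ring. -/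
theorem prod_ofFn_sum {R X : Type*} [Semiring R] [Fintype X] [DecidableEq X] (n : ℕ)
    (f : Fin n → X → R) :
    (List.ofFn fun i => ∑ x, f i x).prod = ∑ a : Fin n → X, (List.ofFn fun i => f i (a i)).prod := by
  induction n with
  | zero => simp
  | succ n ih =>
    rw [List.ofFn_succ, List.prod_cons, ih fun i => f i.succ, Finset.sum_mul_sum,
      ← Finset.sum_product', Finset.univ_product_univ,
      ← Equiv.sum_comp (Fin.consEquiv fun _ : Fin (n + 1) => X)]
    refine Finset.sum_congr rfl fun p _ => ?_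
    rw [List.ofFn_succ, List.prod_cons]
    simp [Fin.consEquiv]

/-- Decomposition into irreducibles: if `T` preserves invariant subspaces and is `ε`-small on each
minimal invariant subspace of an invariant `W` then it is `ε`-small on `W` (induction on the
dimension of `W`, using `U` minimal and `W ⊓ Uᗮ`, Pythagoras). -/
theorem small_of_minimal {H Z : Type*} [Group H] [NormedAddCommGroup Z] [InnerProductSpace ℂ Z]
    [FiniteDimensional ℂ Z] (π : Representation ℂ H Z) (hπ : ∀ h v, ‖π h v‖ = ‖v‖)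
    (T : Module.End ℂ Z)
    (hT : ∀ U : Submodule ℂ Z, (∀ h, ∀ v ∈ U, π h v ∈ U) → ∀ v ∈ U, T v ∈ U) {ε : ℝ} (hε : 0 ≤ ε)
    (W : Submodule ℂ Z) (hW : ∀ h, ∀ v ∈ W, π h v ∈ W)
    (hmin : ∀ U : Submodule ℂ Z, U ≤ W → U ≠ ⊥ → (∀ h, ∀ v ∈ U, π h v ∈ U) →
      (∀ U' : Submodule ℂ Z, U' ≤ U → (∀ h, ∀ v ∈ U', π h v ∈ U') → U' = ⊥ ∨ U' = U) →
      ∀ v ∈ U, ‖T v‖ ≤ ε * ‖v‖) :
    ∀ v ∈ W, ‖T v‖ ≤ ε * ‖v‖ := by
  induction hn : Module.finrank ℂ W using Nat.strong_induction_on generalizing W with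
  | _ n ih =>
  by_cases hW0 : W = ⊥
  · intro v hv
    rw [hW0, Submodule.mem_bot] at hv
    simp [hv]
  have hex : ∃ k, ∃ U : Submodule ℂ Z, U ≤ W ∧ U ≠ ⊥ ∧ (∀ h, ∀ v ∈ U, π h v ∈ U) ∧
      Module.finrank ℂ U = k := ⟨_, W, le_rfl, hW0, hW, rfl⟩
  classical
  obtain ⟨U, hUW, hU0, hUi, hUk⟩ := Nat.find_spec hex
  have hUm : ∀ U' : Submodule ℂ Z, U' ≤ U → (∀ h, ∀ v ∈ U', π h v ∈ U') → U' = ⊥ ∨ U' = U := by
    intro U' h1 h2
    by_cases h0 : U' = ⊥
    · exact Or.inl h0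
    · refine Or.inr (Submodule.eq_of_le_of_finrank_le h1 ?_)
      rw [hUk]
      exact Nat.find_min' hex ⟨U', h1.trans hUW, h0, h2, rfl⟩
  have hperp : ∀ h, ∀ v ∈ Uᗮ, π h v ∈ Uᗮ := by
    intro h v hv
    rw [Submodule.mem_orthogonal'] at hv ⊢
    intro u hu
    rw [Schur_adj π hπ]
    exact hv _ (hUi _ _ hu)
  have hW' : ∀ h, ∀ v ∈ W ⊓ Uᗮ, π h v ∈ W ⊓ Uᗮ := fun h v hv => ⟨hW h v hv.1, hperp h v hv.2⟩
  have hlt : W ⊓ Uᗮ < W := by
    refine lt_of_le_of_ne inf_le_left fun e => hU0 ?_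
    have h1 : U ≤ Uᗮ := hUW.trans (e ▸ inf_le_right)
    have h2 := Submodule.inf_orthogonal_eq_bot U
    rwa [inf_eq_left.2 h1] at h2
  have h2 := ih _ (hn ▸ Submodule.finrank_lt_finrank_of_lt hlt) (W ⊓ Uᗮ) hW'
    (fun U' h1 => hmin U' (h1.trans inf_le_left)) rfl
  have h1 := hmin U hUW hU0 hUi hUm
  intro v hv
  obtain ⟨a, ha, b, hb, rfl⟩ := U.exists_add_mem_mem_orthogonal v
  have hbW : b ∈ W ⊓ Uᗮ := ⟨by simpa using W.sub_mem hv (hUW ha), hb⟩
  have e1 : ‖a + b‖ * ‖a + b‖ = ‖a‖ * ‖a‖ + ‖b‖ * ‖b‖ :=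
    norm_add_sq_eq_norm_sq_add_norm_sq_of_inner_eq_zero a b
      (Submodule.inner_right_of_mem_orthogonal ha hb)
  have e2 : ‖T a + T b‖ * ‖T a + T b‖ = ‖T a‖ * ‖T a‖ + ‖T b‖ * ‖T b‖ :=
    norm_add_sq_eq_norm_sq_add_norm_sq_of_inner_eq_zero _ _
      (Submodule.inner_right_of_mem_orthogonal (hT U hUi a ha) (hT _ hperp b hb))
  have i1 := mul_self_le_mul_self (norm_nonneg _) (h1 a ha)
  have i2 := mul_self_le_mul_self (norm_nonneg _) (h2 b hbW)
  rw [map_add]
  refine (mul_self_le_mul_self_iff (norm_nonneg _) (by positivity)).2 ?_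
  calc ‖T a + T b‖ * ‖T a + T b‖ ≤ ε * ‖a‖ * (ε * ‖a‖) + ε * ‖b‖ * (ε * ‖b‖) := by linarith
    _ = ε * ε * (‖a + b‖ * ‖a + b‖) := by rw [e1]; ring
    _ = _ := by ring

end Pool.Agent.Work.MP_bb5f23_al
end

-- merged part: Pool.Agent.Work.MP_bb5f23_al.Fib
section
/-! Point counts for polynomial maps. -/

namespace Pool.Agent.Work.MP_bb5f23_al

open MvPolynomial

variable {F : Type*} [Field F]

open Classical in
/-- Schwartz-Zippel for an arbitrary finite index type (`schwartz_zippel_totalDegree`,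
`renameEquiv`, `Fintype.equivFin`). -/
theorem sz {σ : Type*} [Fintype σ] [DecidableEq σ] {c : MvPolynomial σ F} (hc : c ≠ 0)
    (A : Finset F) :
    ((Fintype.piFinset fun _ : σ => A).filter fun a => eval a c = 0).card * A.card ≤
      c.totalDegree * A.card ^ Fintype.card σ := by
  rcases Nat.eq_zero_or_pos A.card with h | h
  · rw [h, mul_zero]
    exact Nat.zero_le _
  let e := Fintype.equivFin σ
  have hp : rename e c ≠ 0 := fun h0 =>
    hc (rename_injective e e.injective (h0.trans (map_zero _).symm))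
  have h1 := schwartz_zippel_totalDegree hp A
  have hA : (0 : ℚ≥0) < A.card := Nat.cast_pos.2 h
  rw [div_le_div_iff₀ (pow_pos hA _) hA] at h1
  have h2 : ((Fintype.piFinset fun _ : Fin (Fintype.card σ) => A).filter
      fun a => eval a (rename e c) = 0).card * A.card ≤
      (rename e c).totalDegree * A.card ^ Fintype.card σ := by exact_mod_cast h1
  refine le_trans (Nat.mul_le_mul_right _ ?_)
    (h2.trans (Nat.mul_le_mul_right _ (totalDegree_rename_le e c)))
  refine Finset.card_le_card_of_injOn (fun a => a ∘ e.symm) (fun a ha => ?_) fun a _ b _ hab =>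
    e.symm.surjective.injective_comp_right hab
  simp only [Finset.coe_filter, Fintype.mem_piFinset, Set.mem_ofPred_eq] at ha ⊢
  refine ⟨fun i => ha.1 _, ?_⟩
  rw [eval_rename, Function.comp_assoc, Equiv.symm_comp_self, Function.comp_id]
  exact ha.2

theorem Fib_lift {σ ι A : Type*} [CommRing A] [Algebra F A] (π : MvPolynomial σ F →ₐ[F] A)
    (g : ι → MvPolynomial σ F) {a : MvPolynomial σ F}
    (h : IsAlgebraic (Algebra.adjoin F (Set.range fun i => π (g i))) (π a)) :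
    ∃ (P : Polynomial (MvPolynomial ι F)) (k : ℕ), π (aeval g (P.coeff k)) ≠ 0 ∧
      π (P.eval₂ (aeval g : MvPolynomial ι F →ₐ[F] MvPolynomial σ F) a) = 0 := by
  obtain ⟨p, hp, h0⟩ := h
  let φ : MvPolynomial ι F →ₐ[F] Algebra.adjoin F (Set.range fun i => π (g i)) :=
    aeval fun i => ⟨π (g i), Algebra.subset_adjoin ⟨i, rfl⟩⟩
  have hφ : (Subalgebra.val _).comp φ = π.comp (aeval g) := by
    refine algHom_ext fun i => ?_
    simp [φ]
  have hφ' : ∀ q, (φ q : A) = π (aeval g q) := fun q => AlgHom.congr_fun hφ q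
  have hs : Function.Surjective φ := by
    rintro ⟨s, hs⟩
    have hs' := hs
    rw [Algebra.adjoin_range_eq_range_aeval] at hs'
    obtain ⟨q, hq⟩ := hs'
    refine ⟨q, Subtype.ext ?_⟩
    rw [hφ', ← AlgHom.comp_apply, comp_aeval]
    exact hq
  obtain ⟨P, rfl⟩ := Polynomial.map_surjective (φ : MvPolynomial ι F →+* _) hs p
  obtain ⟨k, hk⟩ := Polynomial.support_nonempty.2 hp
  refine ⟨P, k, fun h1 => Polynomial.mem_support_iff.1 hk (Subtype.ext ?_), ?_⟩
  · rw [Polynomial.coeff_map]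
    exact (hφ' _).trans h1
  · rw [Polynomial.aeval_def, Polynomial.eval₂_map] at h0
    rw [← h0]
    refine (Polynomial.hom_eval₂ P _ (π : MvPolynomial σ F →+* A) a).trans ?_
    congr 1
    exact RingHom.ext fun q => (hφ' q).symm

theorem Fib_eval {σ ι : Type*} (g : ι → MvPolynomial σ F) (x : σ → F) (q : MvPolynomial ι F) :
    eval x (aeval g q) = eval (fun i => eval x (g i)) q := by
  induction q using MvPolynomial.induction_on with
  | C a => simp
  | add p q hp hq => simp only [map_add, hp, hq]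
  | mul_X p i hp => simp only [map_mul, hp, aeval_X, eval_X]

theorem Fib_gen {σ ι A : Type*} [Fintype σ] [CommRing A] [IsDomain A] [Algebra F A]
    (π : MvPolynomial σ F →ₐ[F] A) (g : ι → MvPolynomial σ F)
    (halg : ∀ j, IsAlgebraic (Algebra.adjoin F (Set.range fun i => π (g i))) (π (X j))) :
    ∃ c : MvPolynomial ι F, π (aeval g c) ≠ 0 ∧ ∃ C : ℕ, ∀ y : ι → F, eval y c ≠ 0 →
      ∃ s : Finset (σ → F), s.card ≤ C ∧ ∀ x : σ → F, (∀ f, π f = 0 → eval x f = 0) →
        (∀ i, eval x (g i) = y i) → x ∈ s := by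
  classical
  choose P k h1 h2 using fun j => Fib_lift π g (halg j)
  refine ⟨∏ j, (P j).coeff (k j), ?_, ∏ j, (P j).natDegree, fun y hy =>
    ⟨Fintype.piFinset fun j => ((P j).map (eval y)).roots.toFinset, ?_, fun x hx hg => ?_⟩⟩
  · rw [map_prod, map_prod]
    exact Finset.prod_ne_zero_iff.2 fun j _ => h1 j
  · rw [Fintype.card_piFinset]
    exact Finset.prod_le_prod' fun j _ => (Multiset.toFinset_card_le _).trans
      ((Polynomial.card_roots' _).trans Polynomial.natDegree_map_le)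
  · rw [map_prod, Finset.prod_ne_zero_iff] at hy
    refine Fintype.mem_piFinset.2 fun j => Multiset.mem_toFinset.2
      ((Polynomial.mem_roots fun h0 => hy j (Finset.mem_univ j) ?_).2 ?_)
    · rw [← Polynomial.coeff_map, h0, Polynomial.coeff_zero]
    · have h3 := hx _ (h2 j)
      rw [Polynomial.hom_eval₂, eval_X] at h3
      rw [Polynomial.IsRoot.def, Polynomial.eval_map, ← h3]
      congr 1
      refine RingHom.ext fun q => ?_
      rw [← funext hg]
      exact (Fib_eval g x q).symm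

/-- Generic finiteness. For each variable `j` the class of `X j` in the domain `F[X] / 𝔭` is a root
of a nonzero polynomial over `adjoin F (range g)`; lift it to `P j : Polynomial (MvPolynomial ι F)`
with some coefficient `c j` not mapped into `𝔭`. Take `c = ∏ j, c j`, `C = ∏ j, natDegree (P j)`:
for `x` in the set, `x j` is a root of the nonzero polynomial `(P j).map (eval y)`. -/
theorem generic_finite {σ ι : Type*} [Fintype σ] (𝔭 : Ideal (MvPolynomial σ F)) [𝔭.IsPrime]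
    (g : ι → MvPolynomial σ F)
    (halg : ∀ j, IsAlgebraic (Algebra.adjoin F (Set.range fun i => Ideal.Quotient.mk 𝔭 (g i)))
      (Ideal.Quotient.mk 𝔭 (X j))) :
    ∃ c : MvPolynomial ι F, aeval g c ∉ 𝔭 ∧ ∃ C : ℕ, ∀ y : ι → F, eval y c ≠ 0 →
      {x : σ → F | (∀ f ∈ 𝔭, eval x f = 0) ∧ ∀ i, eval x (g i) = y i}.Finite ∧
      {x : σ → F | (∀ f ∈ 𝔭, eval x f = 0) ∧ ∀ i, eval x (g i) = y i}.ncard ≤ C := by
  obtain ⟨c, h1, C, h2⟩ := Fib_gen (Ideal.Quotient.mkₐ F 𝔭) g halg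
  refine ⟨c, fun h => h1 (Ideal.Quotient.eq_zero_iff_mem.2 h), C, fun y hy => ?_⟩
  obtain ⟨s, h3, h4⟩ := h2 y hy
  have h5 : {x : σ → F | (∀ f ∈ 𝔭, eval x f = 0) ∧ ∀ i, eval x (g i) = y i} ⊆ s :=
    fun x hx => h4 x (fun f hf => hx.1 f (Ideal.Quotient.eq_zero_iff_mem.1 hf)) hx.2
  refine ⟨s.finite_toSet.subset h5, (Set.ncard_le_ncard h5 s.finite_toSet).trans ?_⟩
  rwa [Set.ncard_coe_finset]

open Classical in
/-- Extend `f` by a set `B'` of variables to a transcendence basis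
(`exists_isTranscendenceBasis_between`, `IsTranscendenceBasis.mvPolynomial`, all bases have the same
cardinality, so `card B + card B' = card σ`), apply `generic_finite` with `𝔭 = ⊥` and sum over the
values of the variables in `B'`. -/
theorem fibre_bound {σ B : Type*} [Fintype σ] [DecidableEq σ] [Fintype B]
    (f : B → MvPolynomial σ F) (hf : AlgebraicIndependent F f) :
    ∃ c : MvPolynomial σ F, c ≠ 0 ∧ ∃ C : ℕ, ∀ (A : Finset F) (y : B → F),
      ((Fintype.piFinset fun _ : σ => A).filter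
          fun a => eval a c ≠ 0 ∧ ∀ b, eval a (f b) = y b).card * A.card ^ Fintype.card B ≤
        C * A.card ^ Fintype.card σ := by
  have hX := IsTranscendenceBasis.mvPolynomial σ F
  have : Algebra.IsAlgebraic (Algebra.adjoin F (Set.range f ∪ Set.range X)) (MvPolynomial σ F) :=
    ⟨fun a => (hX.isAlgebraic.1 a).tower_top_of_subalgebra_le
      (Algebra.adjoin_mono Set.subset_union_right)⟩
  obtain ⟨u, h1, h2, hu⟩ := exists_isTranscendenceBasis_between (R := F) (Set.range f)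
    (Set.range f ∪ Set.range X) Set.subset_union_left hf.to_subtype_range
  have hfin : u.Finite := ((Set.finite_range f).union (Set.finite_range X)).subset h2
  have : Fintype ↥(u \ Set.range f) := hfin.sdiff.fintype
  have hcard : Fintype.card ↥(u \ Set.range f) + Fintype.card B = Fintype.card σ := by
    obtain ⟨e⟩ := Cardinal.lift_mk_eq'.1 (hu.lift_cardinalMk_eq hX)
    have h3 := Set.ncard_sdiff_add_ncard_of_subset h1 hfin
    rw [Set.ncard_range_of_injective hf.injective, ← Nat.card_coe_set_eq, ← Nat.card_coe_set_eq,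
      Nat.card_congr e] at h3
    simpa only [Nat.card_eq_fintype_card] using h3
  obtain ⟨c, h3, C, h4⟩ := Fib_gen (AlgHom.id F (MvPolynomial σ F)) (Subtype.val : u → _)
    fun j => hu.isAlgebraic.1 _
  refine ⟨_, h3, C, fun A y => ?_⟩
  rw [← hcard, pow_add, ← mul_assoc]
  refine Nat.mul_le_mul_right _ ((Finset.card_le_mul_card_image_of_maps_to
    (f := fun (a : σ → F) (v : ↥(u \ Set.range f)) => eval a v.1)
    (t := Fintype.piFinset fun _ => A) (fun a ha => ?_) C fun z _ => ?_).trans ?_)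
  · refine Fintype.mem_piFinset.2 fun v => ?_
    obtain ⟨j, hj⟩ := (h2 v.2.1).resolve_left v.2.2
    rw [← hj, eval_X]
    exact Fintype.mem_piFinset.1 (Finset.mem_filter.1 ha).1 j
  · refine le_of_not_gt fun hlt => ?_
    obtain ⟨a0, ha0⟩ := Finset.card_pos.1 (Nat.zero_lt_of_lt hlt)
    obtain ⟨h5, h6⟩ := Finset.mem_filter.1 ha0
    obtain ⟨-, h7, h8⟩ := Finset.mem_filter.1 h5
    obtain ⟨s, h9, h10⟩ := h4 (fun i => eval a0 i.1) (by rwa [← Fib_eval])
    refine hlt.not_ge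
      ((Finset.card_le_card fun a ha => h10 a (fun q hq => ?_) fun i => ?_).trans h9)
    · rw [show q = 0 from hq, map_zero]
    · obtain ⟨h11, h12⟩ := Finset.mem_filter.1 ha
      by_cases hi : i.1 ∈ Set.range f
      · obtain ⟨b, hb⟩ := hi
        rw [← hb, h8, (Finset.mem_filter.1 h11).2.2]
      · exact congrFun (h12.trans h6.symm) ⟨i.1, i.2, hi⟩
  · rw [Fintype.card_piFinset, Finset.prod_const, Finset.card_univ]

end Pool.Agent.Work.MP_bb5f23_al
end

-- merged part: Pool.Agent.Work.MP_bb5f23_al.Grow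
section
/-! Growth of groups generated by values of a polynomial family of matrices. -/

namespace Pool.Agent.Work.MP_bb5f23_al

open MvPolynomial

universe u

variable {F : Type} [Field F] [Infinite F] {ι σ : Type} [Fintype ι] [DecidableEq ι] [Fintype σ]
  [DecidableEq σ]

/-- The product of `K` independent copies of `D`. -/
noncomputable def prodMat (D : Matrix ι ι (MvPolynomial σ F)) (K : ℕ) :
    Matrix ι ι (MvPolynomial (Fin K × σ) F) :=
  (List.ofFn fun i : Fin K => D.map (rename (Prod.mk i))).prod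

theorem prodMat_eval (D : Matrix ι ι (MvPolynomial σ F)) (K : ℕ) (a : Fin K × σ → F) :
    (prodMat D K).map (eval a) =
      (List.ofFn fun i : Fin K => D.map (eval fun s => a (i, s))).prod := by
  have h := map_list_prod (eval a).mapMatrix
    (List.ofFn fun i : Fin K => D.map (rename (Prod.mk i)))
  rw [List.map_ofFn] at h
  refine h.trans ?_
  congr 2
  funext i
  ext k l
  exact eval_rename_prod_mk a i (D k l)

omit [Infinite F] [Fintype ι] [DecidableEq ι] [Fintype σ] [DecidableEq σ] in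
theorem Grow_eval_aeval {α β : Type*} (a : β → F) (g : α → MvPolynomial β F)
    (p : MvPolynomial α F) : eval a (aeval g p) = eval (fun i => eval a (g i)) p := by
  induction p using MvPolynomial.induction_on with
  | C x => simp
  | add p q hp hq => simp only [map_add, hp, hq]
  | mul_X p i hp => simp only [map_mul, hp, aeval_X, eval_X]

omit [Infinite F] [Fintype ι] [DecidableEq ι] [Fintype σ] [DecidableEq σ] in
theorem Grow_deg {α β : Type*} (g : α → MvPolynomial β F) {e : ℕ}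
    (h : ∀ i, (g i).totalDegree ≤ e) (p : MvPolynomial α F) :
    (aeval g p).totalDegree ≤ p.totalDegree * e := by
  rw [aeval_def, eval₂_eq]
  refine totalDegree_finsetSum_le fun d hd => (totalDegree_mul _ _).trans ?_
  rw [algebraMap_eq, totalDegree_C, zero_add]
  refine (totalDegree_finsetProd _ _).trans (le_trans (Finset.sum_le_sum fun i _ =>
    (totalDegree_pow _ _).trans (Nat.mul_le_mul_left _ (h i))) ?_)
  rw [← Finset.sum_mul]
  exact Nat.mul_le_mul_right _ (le_totalDegree hd)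

/-- The ideal of the relations between the entries of the product. -/
noncomputable def Grow_ker (D : Matrix ι ι (MvPolynomial σ F)) (K : ℕ) :
    Ideal (MvPolynomial (ι × ι) F) :=
  RingHom.ker (aeval (R := F) fun b : ι × ι => prodMat D K b.1 b.2).toRingHom

omit [Infinite F] [Fintype σ] [DecidableEq σ] in
theorem Grow_prime (D : Matrix ι ι (MvPolynomial σ F)) (K : ℕ) : (Grow_ker D K).IsPrime :=
  RingHom.ker_isPrime _

theorem Grow_mem (D : Matrix ι ι (MvPolynomial σ F)) (K : ℕ) (f : MvPolynomial (ι × ι) F) :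
    f ∈ Grow_ker D K ↔ ∀ l : List (σ → F), l.length = K →
      eval (fun b : ι × ι => (l.map fun a => D.map (eval a)).prod b.1 b.2) f = 0 := by
  have h1 : f ∈ Grow_ker D K ↔ ∀ a : Fin K × σ → F,
      eval (fun b : ι × ι => (prodMat D K).map (eval a) b.1 b.2) f = 0 := by
    refine ⟨fun h a => ?_, fun h => MvPolynomial.funext fun a => ?_⟩
    · have h2 : aeval (fun b : ι × ι => prodMat D K b.1 b.2) f = 0 := h
      have h3 := Grow_eval_aeval a (fun b : ι × ι => prodMat D K b.1 b.2) f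
      rw [h2, map_zero] at h3
      exact h3.symm
    · exact (Grow_eval_aeval a (fun b : ι × ι => prodMat D K b.1 b.2) f).trans
        ((h a).trans (map_zero _).symm)
  rw [h1]
  refine ⟨fun h l hl => ?_, fun h a => ?_⟩
  · subst hl
    have h2 := h fun p => l.get p.1 p.2
    rw [prodMat_eval] at h2
    have h3 : (l.map fun a => D.map (eval a)) =
        List.ofFn fun i : Fin l.length => D.map (eval fun s => l.get i s) := by
      conv_lhs => rw [← List.ofFn_get l, List.map_ofFn]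
      rfl
    rwa [h3]
  · have h2 := h (List.ofFn fun i s => a (i, s)) List.length_ofFn
    rw [List.map_ofFn] at h2
    rw [prodMat_eval]
    exact h2

theorem Grow_anti {D : Matrix ι ι (MvPolynomial σ F)} (hD : D.map (eval fun _ => 1) = 1) :
    Antitone (Grow_ker D) := by
  refine antitone_nat_of_succ_le fun K f hf => (Grow_mem D K f).2 fun l hl => ?_
  have h := (Grow_mem D (K + 1) f).1 hf ((fun _ => 1) :: l) (by simp [hl])
  rwa [List.map_cons, List.prod_cons, hD, one_mul] at h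

theorem Grow_stab {D : Matrix ι ι (MvPolynomial σ F)} (hD : D.map (eval fun _ => 1) = 1) :
    ∃ K0, ∀ K, K0 ≤ K → Grow_ker D K = Grow_ker D K0 := by
  obtain ⟨_, ⟨K0, rfl⟩, h⟩ := (wellFounded_lt (α := ℕ∞)).has_min
    (Set.range fun K => (Grow_ker D K).height) ⟨_, 0, rfl⟩
  refine ⟨K0, fun K hK => (Grow_anti hD hK).eq_of_not_lt fun h1 => h _ ⟨K, rfl⟩ ?_⟩
  have := Grow_prime D K
  exact Ideal.height_strict_mono_of_isPrime h1

theorem Grow_clos {D : Matrix ι ι (MvPolynomial σ F)} (hD : D.map (eval fun _ => 1) = 1) {K0 : ℕ}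
    (h : ∀ K, K0 ≤ K → Grow_ker D K = Grow_ker D K0) (f : MvPolynomial (ι × ι) F) :
    f ∈ Grow_ker D K0 ↔ ∀ M ∈ Submonoid.closure (Set.range fun a : σ → F => D.map (eval a)),
      eval (fun b : ι × ι => M b.1 b.2) f = 0 := by
  refine ⟨fun hf M hM => ?_, fun hf => (Grow_mem D K0 f).2 fun l _ => hf _
    (Submonoid.list_prod_mem _ fun x hx => ?_)⟩
  · obtain ⟨l, hl, rfl⟩ := Submonoid.exists_list_of_mem_closure hM
    obtain ⟨l', rfl⟩ : ∃ l' : List (σ → F), l = l'.map fun a => D.map (eval a) := by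
      clear hM
      induction l with
      | nil => exact ⟨[], rfl⟩
      | cons x l ih =>
        obtain ⟨l', rfl⟩ := ih fun y hy => hl y (List.mem_cons_of_mem _ hy)
        obtain ⟨a, rfl⟩ := hl x List.mem_cons_self
        exact ⟨a :: l', rfl⟩
    rw [← h _ (le_max_left K0 l'.length)] at hf
    exact (Grow_mem D _ f).1 (Grow_anti hD (le_max_right _ _) hf) l' rfl
  · obtain ⟨a, -, rfl⟩ := List.mem_map.1 hx
    exact Submonoid.subset_closure ⟨a, rfl⟩

omit [Infinite F] [DecidableEq ι] [Fintype σ] [DecidableEq σ] in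
theorem Grow_basis (𝔭 : Ideal (MvPolynomial (ι × ι) F)) [𝔭.IsPrime] :
    ∃ B : Finset (ι × ι), (∀ p : MvPolynomial B F, rename Subtype.val p ∈ 𝔭 → p = 0) ∧
      ∀ j, IsAlgebraic (Algebra.adjoin F (Set.range fun i : B => Ideal.Quotient.mk 𝔭 (X i.1)))
        (Ideal.Quotient.mk 𝔭 (X j)) := by
  classical
  obtain ⟨B, hB, hmax⟩ := (Finset.univ.filter fun B : Finset (ι × ι) =>
    AlgebraicIndepOn F (fun j => Ideal.Quotient.mk 𝔭 (X j)) (B : Set (ι × ι))).exists_max_image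
    Finset.card ⟨∅, Finset.mem_filter.2 ⟨Finset.mem_univ _, by
      rw [Finset.coe_empty]; exact algebraicIndependent_empty_type⟩⟩
  have hB' := (Finset.mem_filter.1 hB).2
  refine ⟨B, fun p hp => algebraicIndependent_iff.1 hB' p ?_, fun j => ?_⟩
  · have h1 := comp_aeval_apply (fun i : B => (X i.1 : MvPolynomial (ι × ι) F))
      (Ideal.Quotient.mkₐ F 𝔭) p
    rw [rename_eq_aeval] at hp
    exact h1.symm.trans (Ideal.Quotient.eq_zero_iff_mem.2 hp)
  · by_cases hj : j ∈ B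
    · exact isAlgebraic_algebraMap (⟨_, Algebra.subset_adjoin ⟨⟨j, hj⟩, rfl⟩⟩ :
        Algebra.adjoin F (Set.range fun i : B => Ideal.Quotient.mk 𝔭 (X i.1)))
    by_contra hc
    have h1 := hB'.insert (i := j) (by rw [Set.image_eq_range]; exact hc)
    have h2 := hmax (insert j B) (Finset.mem_filter.2 ⟨Finset.mem_univ _, by
      rwa [Finset.coe_insert]⟩)
    rw [Finset.card_insert_of_notMem hj] at h2
    omega

omit [Infinite F] in
theorem Grow_half {τ : Type} [Fintype τ] [DecidableEq τ] {q : MvPolynomial τ F} (hq : q ≠ 0)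
    (A : Finset F) (hA : 2 * q.totalDegree + 1 ≤ A.card) [DecidablePred fun a => eval a q ≠ 0] :
    A.card ^ Fintype.card τ ≤
      2 * ((Fintype.piFinset fun _ : τ => A).filter fun a => eval a q ≠ 0).card := by
  classical
  have h1 := sz hq A
  have h2 := Finset.card_filter_add_card_filter_not (s := Fintype.piFinset fun _ : τ => A)
    (fun a => eval a q ≠ 0)
  rw [Fintype.card_piFinset, Finset.prod_const, Finset.card_univ] at h2
  have h3 : ((Fintype.piFinset fun _ : τ => A).filter fun a => ¬ eval a q ≠ 0).card * A.card ≤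
      q.totalDegree * A.card ^ Fintype.card τ := by
    convert h1 using 4
    exact not_not
  have h4 : 2 * ((Fintype.piFinset fun _ : τ => A).filter fun a => ¬ eval a q ≠ 0).card ≤
      A.card ^ Fintype.card τ := by
    refine Nat.le_of_mul_le_mul_right ?_ (show 0 < A.card by omega)
    nlinarith [Nat.zero_le (A.card ^ Fintype.card τ)]
  omega

/-- Let `𝔭 K` be the kernel of `aeval (prodMat D K)` on `MvPolynomial (ι × ι) F`; it is prime and
equals the vanishing ideal of the set `S K` of values (`MvPolynomial.funext`). `S K ⊆ S (K + 1)`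
since `D(1) = 1`, so `𝔭` decreases and stabilises from some `K0` on (strict monotonicity of the
finite `Ideal.height`); then `𝔭 K0` is the vanishing ideal of the monoid `𝕄 = ⋃ S K`, stable under
left translation by `𝕄`. Take `B` maximal with the coordinates `X b` algebraically independent mod
`𝔭 K0` and `c, C` from `generic_finite` for `g b = X b`; the set `O` of points of `rho H` with
`c ≠ 0` has at most `C * card 𝔽 ^ card B` elements. For `h : H` the polynomial
`c (rho h * prodMat D K0)` is nonzero (else translate back by `rho h⁻¹ ∈ 𝕄`) of degree bounded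
independently of `h`, so by `sz` at least half of the `a` have `rho h * prodMat D K0 (a) ∈ O`. Double
counting gives `card H ≤ 2 * card O`. -/
theorem growth (D : Matrix ι ι (MvPolynomial σ F)) (hD : D.map (eval fun _ => 1) = 1) :
    ∃ (K0 : ℕ) (B : Finset (ι × ι)) (C : ℕ),
      (∀ K, K0 ≤ K → AlgebraicIndependent F fun b : B => prodMat D K b.1.1 b.1.2) ∧
      ∀ (A 𝔽 : Finset F) (H : Type u) [Group H] [Finite H] (rho : H →* Matrix ι ι F),
        Function.Injective rho → (∀ h i j, rho h i j ∈ 𝔽) → C ≤ A.card →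
        (∀ a : σ → F, (∀ s, a s ∈ A) → ∃ h, rho h = D.map (eval a)) →
        (∀ h, rho h ∈ Submonoid.closure (Set.range fun a : σ → F => D.map (eval a))) →
        Nat.card H ≤ C * 𝔽.card ^ B.card := by
  classical
  obtain ⟨K0, hK⟩ := Grow_stab hD
  have hp := Grow_prime D K0
  obtain ⟨B, hB, halg⟩ := Grow_basis (Grow_ker D K0)
  obtain ⟨c, hc, C0, hC⟩ := generic_finite (Grow_ker D K0) (fun i : B => X i.1) halg
  obtain ⟨c', hc'⟩ : ∃ c', c' = aeval (fun i : B => (X i.1 : MvPolynomial (ι × ι) F)) c :=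
    ⟨_, rfl⟩
  rw [← hc'] at hc
  obtain ⟨e, he⟩ : ∃ e, ∀ i j, (prodMat D K0 i j).totalDegree ≤ e :=
    ⟨Finset.univ.sup fun b : ι × ι => (prodMat D K0 b.1 b.2).totalDegree, fun i j =>
      Finset.le_sup (f := fun b : ι × ι => (prodMat D K0 b.1 b.2).totalDegree)
        (Finset.mem_univ (i, j))⟩
  refine ⟨K0, B, 2 * (c'.totalDegree * e) + 1 + 2 * C0, fun K hK' =>
    algebraicIndependent_iff.2 fun p h => hB p ?_, fun A 𝔽 H _ _ rho hinj h𝔽 hA hval hcl => ?_⟩
  · rw [← hK K hK']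
    exact (aeval_rename _ _ p).trans h
  have := Fintype.ofFinite H
  let O : Finset H := Finset.univ.filter fun h => eval (fun b : ι × ι => rho h b.1 b.2) c' ≠ 0
  have hO : O.card ≤ C0 * 𝔽.card ^ B.card := by
    have h1 := Finset.card_le_mul_card_image_of_maps_to (s := O)
      (t := Fintype.piFinset fun _ : B => 𝔽) (f := fun h (b : B) => rho h b.1.1 b.1.2)
      (fun h _ => Fintype.mem_piFinset.2 fun b => h𝔽 _ _ _) C0 fun y _ => ?_
    · rwa [Fintype.card_piFinset, Finset.prod_const, Finset.card_univ, Fintype.card_coe] at h1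
    rcases (O.filter fun h => (fun b : B => rho h b.1.1 b.1.2) = y).eq_empty_or_nonempty with
      h2 | ⟨h0, h2⟩
    · rw [h2]; exact Nat.zero_le _
    have h3 : eval y c ≠ 0 := by
      obtain ⟨h4, rfl⟩ := Finset.mem_filter.1 h2
      have h5 := (Finset.mem_filter.1 h4).2
      rw [hc', Grow_eval_aeval] at h5
      simpa only [eval_X] using h5
    refine le_trans ?_ (hC y h3).2
    rw [← Set.ncard_coe_finset]
    refine Set.ncard_le_ncard_of_injOn (fun h (b : ι × ι) => rho h b.1 b.2) (fun h hh => ?_)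
      (fun h _ h' _ e => hinj (Matrix.ext fun i j => congrFun e (i, j))) (hC y h3).1
    exact ⟨fun f hf => (Grow_clos hD hK f).1 hf _ (hcl h), fun i =>
      (eval_X _).trans (congrFun (Finset.mem_filter.1 hh).2 i)⟩
  let q : H → MvPolynomial (Fin K0 × σ) F := fun h =>
    aeval (fun b : ι × ι => ∑ k, C (rho h b.1 k) * prodMat D K0 k b.2) c'
  have hq : ∀ h a, eval a (q h) =
      eval (fun b : ι × ι => (rho h * (prodMat D K0).map (eval a)) b.1 b.2) c' := fun h a => by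
    refine (Grow_eval_aeval a _ c').trans ?_
    simp only [map_sum, map_mul, eval_C, Matrix.mul_apply, Matrix.map_apply]
  have hq0 : ∀ h, q h ≠ 0 := fun h h0 => by
    have h1 : aeval (fun b : ι × ι => ∑ k, C (rho h b.1 k) * X (k, b.2)) c' ∈ Grow_ker D K0 := by
      refine ((comp_aeval_apply _ (aeval fun b : ι × ι => prodMat D K0 b.1 b.2) c').trans
        ?_).trans h0
      simp only [q, map_sum, map_mul, aeval_C, aeval_X, algebraMap_eq]
    refine hc ((Grow_clos hD hK c').2 fun M hM => ?_)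
    have h2 := (Grow_clos hD hK _).1 h1 _ (Submonoid.mul_mem _ (hcl h⁻¹) hM)
    rw [Grow_eval_aeval] at h2
    have h3 : rho h * (rho h⁻¹ * M) = M := by
      rw [← mul_assoc, ← map_mul, mul_inv_cancel, map_one, one_mul]
    rw [← h3]
    simpa only [map_sum, map_mul, eval_C, eval_X, Matrix.mul_apply (M := rho h)] using h2
  have hq1 : ∀ h, (q h).totalDegree ≤ c'.totalDegree * e := fun h =>
    Grow_deg _ (fun b => totalDegree_finsetSum_le fun k _ => (totalDegree_mul _ _).trans (by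
      rw [totalDegree_C, zero_add]; exact he _ _)) c'
  have h1 : ∀ h, A.card ^ Fintype.card (Fin K0 × σ) ≤ 2 *
      ((Fintype.piFinset fun _ : Fin K0 × σ => A).filter fun a => eval a (q h) ≠ 0).card :=
    fun h => Grow_half (hq0 h) A (by have := hq1 h; omega)
  have h2 : ∀ a ∈ Fintype.piFinset fun _ : Fin K0 × σ => A,
      (Finset.univ.filter fun h => eval a (q h) ≠ 0).card ≤ O.card := fun a ha => by
    obtain ⟨k, hk⟩ : (prodMat D K0).map (eval a) ∈ MonoidHom.mrange rho := by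
      rw [prodMat_eval]
      refine Submonoid.list_prod_mem _ fun x hx => ?_
      obtain ⟨i, rfl⟩ := List.mem_ofFn.1 hx
      exact hval _ fun s => Fintype.mem_piFinset.1 ha _
    refine Finset.card_le_card_of_injOn (fun h => h * k) (fun h hh => ?_)
      fun h _ h' _ e => mul_right_cancel e
    have h3 := (Finset.mem_filter.1 hh).2
    rw [hq, ← hk, ← map_mul] at h3
    exact Finset.mem_filter.2 ⟨Finset.mem_univ _, h3⟩
  have h3 := Finset.sum_card_bipartiteAbove_eq_sum_card_bipartiteBelow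
    (s := (Finset.univ : Finset H)) (t := Fintype.piFinset fun _ : Fin K0 × σ => A)
    fun h a => eval a (q h) ≠ 0
  have h4 := Finset.sum_le_sum (s := Finset.univ) fun h _ => h1 h
  have h5 := Finset.sum_le_sum h2
  rw [Finset.sum_const, ← Finset.mul_sum, smul_eq_mul, Finset.card_univ] at h4
  rw [Finset.sum_const, smul_eq_mul, Fintype.card_piFinset, Finset.prod_const,
    Finset.card_univ] at h5
  have h6 : Fintype.card H * A.card ^ Fintype.card (Fin K0 × σ) ≤
      2 * O.card * A.card ^ Fintype.card (Fin K0 × σ) :=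
    h4.trans ((Nat.mul_le_mul_left 2 (h3.le.trans h5)).trans (le_of_eq (by ring)))
  have h7 := Nat.le_of_mul_le_mul_right h6 (pow_pos (by omega) _)
  rw [Nat.card_eq_fintype_card]
  nlinarith [Nat.zero_le ((2 * (c'.totalDegree * e) + 1) * 𝔽.card ^ B.card)]

end Pool.Agent.Work.MP_bb5f23_al
end

-- merged part: Pool.Agent.Work.MP_bb5f23_al.Flat
section
/-! Flatness of long products of a polynomial family of matrices. -/

namespace Pool.Agent.Work.MP_bb5f23_al

open MvPolynomial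

universe u

variable {F : Type} [Field F] [Infinite F] {ι σ : Type} [Fintype ι] [DecidableEq ι] [Fintype σ]
  [DecidableEq σ]

open Classical in
/-- Combine `growth`, `fibre_bound` (for the entries in `B`) and `sz` (for the bad set). -/
theorem flat (D : Matrix ι ι (MvPolynomial σ F)) (hD : D.map (eval fun _ => 1) = 1) :
    ∃ K0 : ℕ, ∀ K, K0 ≤ K → ∀ κ : ℕ, ∃ C : ℕ,
      ∀ (A 𝔽 : Finset F) (H : Type u) [Group H] [Finite H] (rho : H →* Matrix ι ι F),
        Function.Injective rho → (∀ h i j, rho h i j ∈ 𝔽) → C ≤ A.card → 𝔽.card ≤ κ * A.card →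
        (∀ a : σ → F, (∀ s, a s ∈ A) → ∃ h, rho h = D.map (eval a)) →
        (∀ h, rho h ∈ Submonoid.closure (Set.range fun a : σ → F => D.map (eval a))) →
        ∃ bad : Finset (Fin K × σ → F),
          bad.card * A.card ≤ C * A.card ^ Fintype.card (Fin K × σ) ∧
          ∀ M : Matrix ι ι F, ((Fintype.piFinset fun _ : Fin K × σ => A).filter
              fun a => a ∉ bad ∧ (prodMat D K).map (eval a) = M).card * Nat.card H ≤
            C * A.card ^ Fintype.card (Fin K × σ) := by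
  obtain ⟨K0, B, C1, hind, hgrow⟩ := growth.{u} D hD
  refine ⟨K0, fun K hK κ => ?_⟩
  obtain ⟨c, hc, C2, hfib⟩ := fibre_bound (fun b : B => prodMat D K b.1.1 b.1.2) (hind K hK)
  refine ⟨C1 + c.totalDegree + C1 * κ ^ B.card * C2,
    fun A 𝔽 H _ _ rho hinj hent hA h𝔽 hval hgen => ?_⟩
  have hH := hgrow A 𝔽 H rho hinj hent (by omega) hval hgen
  refine ⟨(Fintype.piFinset fun _ : Fin K × σ => A).filter fun a => eval a c = 0,
    (sz hc A).trans (Nat.mul_le_mul_right _ (by omega)), fun M => ?_⟩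
  have h1 := hfib A fun b => M b.1.1 b.1.2
  rw [Fintype.card_coe] at h1
  have h2 : Nat.card H ≤ C1 * κ ^ B.card * A.card ^ B.card := by
    rw [mul_assoc, ← mul_pow]
    exact hH.trans (Nat.mul_le_mul_left _ (Nat.pow_le_pow_left h𝔽 _))
  refine (Nat.mul_le_mul (Finset.card_le_card fun a ha => ?_) h2).trans
    (((mul_left_comm _ _ _).le.trans (Nat.mul_le_mul_left _ h1)).trans ?_)
  · obtain ⟨h3, h4, h5⟩ := Finset.mem_filter.1 ha
    refine Finset.mem_filter.2 ⟨h3, fun h => h4 (Finset.mem_filter.2 ⟨h3, h⟩), fun b => ?_⟩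
    rw [← h5]
    rfl
  · rw [← mul_assoc]
    exact Nat.mul_le_mul_right _ (by omega)

end Pool.Agent.Work.MP_bb5f23_al
end

-- merged part: Pool.Agent.Work.MP_bb5f23_al.NC0
section
/-! Long products of twisted torus averages are small off the common eigenspace. -/

namespace Pool.Agent.Work.MP_bb5f23_al

open scoped InnerProductSpace

universe u v

/-- A finite level: a finite group `H` of matrices over a finite set `K` containing finite parts
`t s` of the conjugate tori `z ↦ a s * diag (z ^ wt) * b s`. -/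
structure Lev {F : Type} [Field F] {ι : Type} {𝒯 : Type*} [Fintype ι] [DecidableEq ι] {r : ℕ}
    (wt : ι → Fin r → ℕ) (a b : 𝒯 → Matrix ι ι F) (κ π0 : ℕ) (H : Type u) [Group H] where
  A : Subgroup Fˣ
  finA : Finite A
  cardA : π0 ≤ Nat.card A
  primeA : ∀ l : ℕ, l.Prime → l ∣ Nat.card A → π0 ≤ l
  K : Finset F
  cardK : K.card ≤ κ * Nat.card A
  rho : H →* Matrix ι ι F
  inj : Function.Injective rho
  entries : ∀ h i j, rho h i j ∈ K
  t : 𝒯 → ((Fin r → A) →* H)
  rho_t : ∀ s z, rho (t s z) =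
    a s * Matrix.diagonal (fun i => ∏ l, ((z l : Fˣ) : F) ^ wt i l) * b s

section NC0aux

variable {H : Type*} [Group H] {Z : Type*} [NormedAddCommGroup Z] [InnerProductSpace ℂ Z]

theorem NC0_inner (π : Representation ℂ H Z) (hπ : ∀ h v, ‖π h v‖ = ‖v‖) (h : H) (v w : Z) :
    ⟪π h v, π h w⟫_ℂ = ⟪v, w⟫_ℂ :=
  (LinearMap.norm_map_iff_inner_map_map (π h)).1 (hπ h) v w

theorem NC0_orth (π : Representation ℂ H Z) (hπ : ∀ h v, ‖π h v‖ = ‖v‖) {E : Submodule ℂ Z}
    (hE : ∀ h, ∀ v ∈ E, π h v ∈ E) (h : H) (v : Z) (hv : v ∈ Eᗮ) : π h v ∈ Eᗮ := by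
  rw [Submodule.mem_orthogonal] at hv ⊢
  intro e he
  have h1 : π h (π h⁻¹ e) = e := by
    rw [← Module.End.mul_apply, ← map_mul, mul_inv_cancel, map_one, Module.End.one_apply]
  rw [← h1, NC0_inner π hπ]
  exact hv _ (hE _ e he)

theorem NC0_prod_smul (π : Representation ℂ H Z) (n : ℕ) (c : Fin n → ℂ) (g : Fin n → H) :
    (List.ofFn fun i => c i • π (g i)).prod = (∏ i, c i) • π (List.ofFn g).prod := by
  induction n with
  | zero => simp
  | succ n ih =>
    rw [List.ofFn_succ, List.ofFn_succ, List.prod_cons, List.prod_cons, ih, Fin.prod_univ_succ,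
      map_mul, smul_mul_smul_comm]

/-- An average of group elements whose distribution is flat off a small set. -/
theorem NC0_count [Fintype H] [DecidableEq H] [FiniteDimensional ℂ Z] (π : Representation ℂ H Z)
    (hπ : ∀ h v, ‖π h v‖ = ‖v‖)
    (hirr : ∀ W : Submodule ℂ Z, (∀ h, ∀ v ∈ W, π h v ∈ W) → W = ⊥ ∨ W = ⊤)
    {X : Type*} [Fintype X] [DecidableEq X] [Nonempty X] (μ : X → H) (c : X → ℂ)
    (hc : ∀ x, ‖c x‖ = (Fintype.card X : ℝ)⁻¹) (bad : Finset X) {C ε : ℝ} (hε : 0 < ε)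
    (hbad : (bad.card : ℝ) ≤ ε ^ 2 / 2 * Fintype.card X)
    (hfib : ∀ h, ((Finset.univ.filter fun x => x ∉ bad ∧ μ x = h).card : ℝ) * Fintype.card H ≤
      C * Fintype.card X)
    (hd0 : 0 < Module.finrank ℂ Z) (hd : C ≤ ε ^ 2 / 2 * Module.finrank ℂ Z) (v : Z) :
    ‖(∑ x, c x • π (μ x)) v‖ ≤ ε * ‖v‖ := by
  obtain ⟨w, hw⟩ : ∃ w, w = (∑ x, c x • π (μ x)) v := ⟨_, rfl⟩
  rw [← hw]
  have hN : (0 : ℝ) < Fintype.card X := by exact_mod_cast Fintype.card_pos
  have hH : (0 : ℝ) < Fintype.card H := by exact_mod_cast Fintype.card_pos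
  have hD : (0 : ℝ) < Module.finrank ℂ Z := by exact_mod_cast hd0
  let f : H → ℝ := fun h => ‖⟪π h v, w⟫_ℂ‖
  have h1 : ‖w‖ ^ 2 ≤ (Fintype.card X : ℝ)⁻¹ * ∑ x, f (μ x) := by
    have : ‖w‖ ^ 2 = ‖⟪w, w⟫_ℂ‖ := by
      rw [inner_self_eq_norm_sq_to_K]; simp
    rw [this]
    nth_rewrite 1 [hw]
    rw [LinearMap.sum_apply, sum_inner, Finset.mul_sum]
    refine (norm_sum_le _ _).trans (Finset.sum_le_sum fun x _ => le_of_eq ?_)
    rw [LinearMap.smul_apply, inner_smul_left, norm_mul, RCLike.norm_conj, hc]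
  have h2 : (∑ x, f (μ x)) ^ 2 ≤ Fintype.card X * ∑ x, f (μ x) ^ 2 := by
    simpa using sq_sum_le_card_mul_sum_sq (s := Finset.univ) (f := fun x => f (μ x))
  have h3 : ∑ x ∈ bad, f (μ x) ^ 2 ≤ ε ^ 2 / 2 * Fintype.card X * (‖v‖ ^ 2 * ‖w‖ ^ 2) := by
    have : ∀ x ∈ bad, f (μ x) ^ 2 ≤ ‖v‖ ^ 2 * ‖w‖ ^ 2 := fun x _ => by
      rw [← mul_pow]
      refine pow_le_pow_left₀ (norm_nonneg _) ?_ 2
      rw [← hπ (μ x) v]
      exact norm_inner_le_norm _ _
    refine (Finset.sum_le_card_nsmul _ _ _ this).trans ?_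
    rw [nsmul_eq_mul]
    exact mul_le_mul_of_nonneg_right hbad (by positivity)
  have h4 : ∑ x ∈ badᶜ, f (μ x) ^ 2 ≤ ε ^ 2 / 2 * Fintype.card X * (‖v‖ ^ 2 * ‖w‖ ^ 2) := by
    have hs := schur_sum π hπ hirr v w
    have e1 : ∑ x ∈ badᶜ, f (μ x) ^ 2 =
        ∑ h, ((Finset.univ.filter fun x => x ∉ bad ∧ μ x = h).card : ℝ) * f h ^ 2 := by
      rw [← Finset.sum_fiberwise badᶜ μ]
      refine Finset.sum_congr rfl fun h _ => ?_
      have : (badᶜ.filter fun x => μ x = h) = Finset.univ.filter fun x => x ∉ bad ∧ μ x = h := by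
        ext x; simp
      rw [← this, ← nsmul_eq_mul, ← Finset.sum_const]
      refine Finset.sum_congr rfl fun x hx => ?_
      rw [(Finset.mem_filter.1 hx).2]
    have e2 : ∑ x ∈ badᶜ, f (μ x) ^ 2 ≤
        ε ^ 2 / 2 * Module.finrank ℂ Z * Fintype.card X / Fintype.card H * ∑ h, f h ^ 2 := by
      rw [e1, Finset.mul_sum]
      refine Finset.sum_le_sum fun h _ => mul_le_mul_of_nonneg_right ?_ (by positivity)
      rw [le_div_iff₀ hH]
      exact (hfib h).trans (mul_le_mul_of_nonneg_right hd hN.le)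
    refine e2.trans (le_of_eq ?_)
    have e3 : ∑ h, f h ^ 2 = Fintype.card H * ‖v‖ ^ 2 * ‖w‖ ^ 2 / Module.finrank ℂ Z := by
      rw [eq_div_iff hD.ne', mul_comm]
      exact hs
    rw [e3]
    field_simp
  have h5 : ∑ x, f (μ x) ^ 2 ≤ ε ^ 2 * Fintype.card X * (‖v‖ ^ 2 * ‖w‖ ^ 2) := by
    rw [← Finset.sum_add_sum_compl bad]
    linarith
  have h6 : (‖w‖ ^ 2) ^ 2 ≤ (ε * ‖v‖) ^ 2 * ‖w‖ ^ 2 := by
    refine (pow_le_pow_left₀ (by positivity) h1 2).trans ?_
    rw [mul_pow]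
    calc _ ≤ (Fintype.card X : ℝ)⁻¹ ^ 2 * (Fintype.card X *
          (ε ^ 2 * Fintype.card X * (‖v‖ ^ 2 * ‖w‖ ^ 2))) := by
          gcongr
          exact h2.trans (mul_le_mul_of_nonneg_left h5 hN.le)
      _ = _ := by field_simp
  rcases (norm_nonneg w).eq_or_lt with h0 | h0
  · rw [← h0]; positivity
  · have h7 : ‖w‖ ^ 2 ≤ (ε * ‖v‖) ^ 2 := by
      have hp : 0 < ‖w‖ ^ 2 := by positivity
      rw [sq (‖w‖ ^ 2)] at h6
      exact le_of_mul_le_mul_right h6 hp
    exact (pow_le_pow_iff_left₀ h0.le (by positivity) two_ne_zero).1 h7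

variable {Γ : Type*} [CommGroup Γ]

theorem NC0_tavg [Fintype Γ] (π : Representation ℂ H Z) (t : Γ →* H) (χ : Γ →* ℂ) :
    tavg π t χ = ∑ z, ((Fintype.card Γ : ℂ)⁻¹ * χ z⁻¹) • π (t z) := by
  rw [tavg, finsum_eq_sum_of_fintype, Finset.smul_sum, Nat.card_eq_fintype_card]
  simp only [smul_smul]

/-- Expansion of the power of the product of the averages. -/
theorem NC0_expand [Fintype Γ] [DecidableEq Γ] (π : Representation ℂ H Z) {n : ℕ}
    (t : Fin n → (Γ →* H)) (χ : Fin n → (Γ →* ℂ)) (m : ℕ) :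
    ∃ c : (Fin m → Fin n → Γ) → ℂ, (∀ x, ‖c x‖ = (Fintype.card (Fin m → Fin n → Γ) : ℝ)⁻¹) ∧
      (List.ofFn fun i => tavg π (t i) (χ i)).prod ^ m =
        ∑ x, c x • π (List.ofFn fun k => (List.ofFn fun i => t i (x k i)).prod).prod := by
  refine ⟨fun x => ∏ k, ∏ i, ((Fintype.card Γ : ℂ)⁻¹ * χ i (x k i)⁻¹), fun x => ?_, ?_⟩
  · simp [norm_prod, norm_char]
  · have h1 : (List.ofFn fun i => tavg π (t i) (χ i)).prod = ∑ y : Fin n → Γ,
        (∏ i, ((Fintype.card Γ : ℂ)⁻¹ * χ i (y i)⁻¹)) • π (List.ofFn fun i => t i (y i)).prod := by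
      simp only [NC0_tavg]
      rw [prod_ofFn_sum]
      exact Finset.sum_congr rfl fun y _ => NC0_prod_smul π n _ _
    rw [h1, ← List.prod_replicate, ← List.ofFn_const, prod_ofFn_sum]
    exact Finset.sum_congr rfl fun x _ => NC0_prod_smul π m _ _

theorem NC0_tavg_inv [Finite Γ] (π : Representation ℂ H Z) (t : Γ →* H) (χ : Γ →* ℂ)
    {U : Submodule ℂ Z} (hU : ∀ z, ∀ v ∈ U, π (t z) v ∈ U) {v : Z} (hv : v ∈ U) :
    tavg π t χ v ∈ U := by
  have := Fintype.ofFinite Γ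
  rw [NC0_tavg, LinearMap.sum_apply]
  exact U.sum_mem fun z _ => U.smul_mem _ (hU z v hv)

theorem NC0_list_inv {U : Submodule ℂ Z} (l : List (Module.End ℂ Z))
    (hl : ∀ T ∈ l, ∀ v ∈ U, T v ∈ U) : ∀ v ∈ U, l.prod v ∈ U := by
  induction l with
  | nil => intro v hv; simpa using hv
  | cons T l ih =>
    intro v hv
    rw [List.prod_cons, Module.End.mul_apply]
    exact hl T (by simp) _ (ih (fun S hS => hl S (by simp [hS])) v hv)

theorem NC0_list_mem {U : Submodule ℂ Z} (l : List (Module.End ℂ Z))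
    (hl : ∀ T ∈ l, ∀ v ∈ U, T v ∈ U) (h0 : ∃ T ∈ l, ∀ v, T v ∈ U) (v : Z) : l.prod v ∈ U := by
  induction l with
  | nil => simp at h0
  | cons T l ih =>
    rw [List.prod_cons, Module.End.mul_apply]
    obtain ⟨S, hS, hS'⟩ := h0
    rcases List.mem_cons.1 hS with rfl | hS
    · exact hS' _
    · exact hl T (by simp) _ (ih (fun S hS => hl S (by simp [hS])) ⟨S, hS, hS'⟩)

/-- If the tori commute, the product of the averages maps into the common eigenspace. -/
theorem NC0_comm [Finite Γ] (π : Representation ℂ H Z) {n : ℕ} (t : Fin n → (Γ →* H))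
    (χ : Fin n → (Γ →* ℂ)) (hc : ∀ i j z z', Commute (π (t i z)) (π (t j z'))) (v : Z) :
    (List.ofFn fun i => tavg π (t i) (χ i)).prod v ∈ ⨅ i, eigsp π (t i) (χ i) := by
  rw [Submodule.mem_iInf]
  intro i
  refine NC0_list_mem _ ?_ ⟨_, List.mem_ofFn.2 ⟨i, rfl⟩, tavg_mem π _ _⟩ v
  intro T hT w hw
  obtain ⟨j, rfl⟩ := List.mem_ofFn.1 hT
  refine NC0_tavg_inv π _ _ (fun z y hy z' => ?_) hw
  rw [← Module.End.mul_apply, (hc i j z' z).eq, Module.End.mul_apply, hy z', map_smul]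

theorem NC0_list_coe {U : Submodule ℂ Z} {n : ℕ} (T : Fin n → Module.End ℂ Z)
    (T' : Fin n → Module.End ℂ U) (h : ∀ i (v : U), (T' i v : Z) = T i v) (v : U) :
    ((List.ofFn T').prod v : Z) = (List.ofFn T).prod v := by
  induction n with
  | zero => simp
  | succ n ih =>
    rw [List.ofFn_succ, List.ofFn_succ, List.prod_cons, List.prod_cons, Module.End.mul_apply,
      Module.End.mul_apply, h, ih _ _ fun i => h i.succ]

theorem NC0_pow_coe {U : Submodule ℂ Z} (T : Module.End ℂ Z) (T' : Module.End ℂ U)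
    (h : ∀ v : U, (T' v : Z) = T v) (m : ℕ) (v : U) : ((T' ^ m) v : Z) = (T ^ m) v := by
  induction m with
  | zero => simp
  | succ m ih => rw [pow_succ', pow_succ', Module.End.mul_apply, Module.End.mul_apply, h, ih]

theorem NC0_tavg_coe [Finite Γ] (π : Representation ℂ H Z) (t : Γ →* H) (χ : Γ →* ℂ)
    (U : Submodule ℂ Z) (hU : ∀ g, U ≤ U.comap (π g)) (v : U) :
    (tavg (π.subrepresentation U hU) t χ v : Z) = tavg π t χ v := by
  have := Fintype.ofFinite Γ
  rw [NC0_tavg, NC0_tavg, LinearMap.sum_apply, LinearMap.sum_apply, Submodule.coe_sum]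
  rfl

end NC0aux

section NC0main

variable {F : Type} [Field F] {ι : Type} [Fintype ι] [DecidableEq ι] {r n : ℕ}

/-- The generic product of the tori. -/
noncomputable def NC0D (wt : ι → Fin r → ℕ) (a b : Fin n → Matrix ι ι F) :
    Matrix ι ι (MvPolynomial (Fin n × Fin r) F) :=
  (List.ofFn fun i => (a i).map MvPolynomial.C *
    Matrix.diagonal (fun k => ∏ l, MvPolynomial.X (i, l) ^ wt k l) * (b i).map MvPolynomial.C).prod

theorem NC0D_eval (wt : ι → Fin r → ℕ) (a b : Fin n → Matrix ι ι F) (x : Fin n × Fin r → F) :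
    (NC0D wt a b).map (MvPolynomial.eval x) =
      (List.ofFn fun i => a i * Matrix.diagonal (fun k => ∏ l, x (i, l) ^ wt k l) * b i).prod := by
  rw [← RingHom.mapMatrix_apply, NC0D, map_list_prod, List.map_ofFn]
  congr 2
  funext i
  simp only [Function.comp, map_mul, RingHom.mapMatrix_apply]
  rw [Matrix.diagonal_map (map_zero _)]
  congr 2
  · ext p q; simp
  · congr 1; funext k; simp
  · ext p q; simp

theorem NC0_rho {wt : ι → Fin r → ℕ} {a b : Fin n → Matrix ι ι F} {κ π0 : ℕ} {H : Type u} [Group H]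
    (L : Lev wt a b κ π0 H) (y : Fin n → Fin r → L.A) :
    L.rho (List.ofFn fun i => L.t i (y i)).prod =
      (NC0D wt a b).map (MvPolynomial.eval fun s => ((y s.1 s.2 : Fˣ) : F)) := by
  rw [NC0D_eval, map_list_prod, List.map_ofFn]
  congr 2
  funext i
  exact L.rho_t i (y i)

theorem NC0_single {H Γ : Type*} [Group H] [CommGroup Γ] (t : Fin n → (Γ →* H)) (i : Fin n)
    (z : Γ) : (List.ofFn fun j => t j ((Pi.mulSingle i z : Fin n → Γ) j)).prod = t i z := by
  rw [List.ofFn_eq_map, List.prod_map_eq_pow_single i _ (fun j hj _ => by simp [hj]),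
    List.count_eq_one_of_mem (List.nodup_finRange n) (List.mem_finRange i)]
  simp

theorem NC0_flat [Infinite F] (wt : ι → Fin r → ℕ) (a b : Fin n → Matrix ι ι F)
    (hab : ∀ s, a s * b s = 1) : ∃ m0 : ℕ, ∀ m, m0 ≤ m → ∀ κ : ℕ, ∃ C : ℕ, ∀ π0, C ≤ π0 →
      ∀ (H : Type u) [Group H] [Fintype H] [DecidableEq H] (L : Lev wt a b κ π0 H) [Fintype L.A]
        [DecidableEq L.A], (∀ h, h ∈ Subgroup.closure (⋃ i, Set.range (L.t i))) →
        ∃ bad : Finset (Fin m → Fin n → Fin r → L.A),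
          bad.card * Nat.card L.A ≤ C * Fintype.card (Fin m → Fin n → Fin r → L.A) ∧
          ∀ h, (Finset.univ.filter fun x => x ∉ bad ∧ (List.ofFn fun k =>
            (List.ofFn fun i => L.t i (x k i)).prod).prod = h).card * Fintype.card H ≤
              C * Fintype.card (Fin m → Fin n → Fin r → L.A) := by
  classical
  obtain ⟨K0, hK⟩ := flat.{u} (NC0D wt a b) (by
    rw [NC0D_eval]
    simp [hab])
  refine ⟨K0, fun m hm κ => ?_⟩
  obtain ⟨C, hC⟩ := hK m hm κ
  refine ⟨C, fun π0 hπ0 H _ _ _ L _ _ hgen => ?_⟩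
  have hinj : Function.Injective fun z : L.A => ((z : Fˣ) : F) :=
    Units.val_injective.comp Subtype.val_injective
  let A : Finset F := Finset.univ.image fun z : L.A => ((z : Fˣ) : F)
  have hA : A.card = Nat.card L.A := by
    rw [Finset.card_image_of_injective _ hinj, Finset.card_univ, Nat.card_eq_fintype_card]
  obtain ⟨bad, hbad, hfib⟩ := hC A L.K H L.rho L.inj L.entries (hA ▸ hπ0.trans L.cardA)
    (hA ▸ L.cardK)
    (fun x hx => by
      choose y _ hy using fun s => Finset.mem_image.1 (hx s)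
      refine ⟨_, (NC0_rho L fun i l => y (i, l)).trans ?_⟩
      simp only [Prod.mk.eta, hy])
    (fun h => by
      have hs : ∀ i z, L.rho (L.t i z) ∈ Submonoid.closure
          (Set.range fun x : Fin n × Fin r → F => (NC0D wt a b).map (MvPolynomial.eval x)) :=
        fun i z => Submonoid.subset_closure
          ⟨_, (NC0_rho L (Pi.mulSingle i z)).symm.trans (by rw [NC0_single])⟩
      induction hgen h using Subgroup.closure_induction'' with
      | mem x hx =>
        obtain ⟨i, z, rfl⟩ := Set.mem_iUnion.1 hx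
        exact hs i z
      | inv_mem x hx =>
        obtain ⟨i, z, rfl⟩ := Set.mem_iUnion.1 hx
        rw [← map_inv]
        exact hs i z⁻¹
      | one => rw [map_one]; exact one_mem _
      | mul x y _ _ hx hy => rw [map_mul]; exact mul_mem hx hy)
  let φ : (Fin m → Fin n → Fin r → L.A) → (Fin m × Fin n × Fin r → F) :=
    fun x s => ((x s.1 s.2.1 s.2.2 : Fˣ) : F)
  have hφ : Function.Injective φ := fun x x' h => by
    funext k i l
    exact hinj (congrFun h (k, i, l))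
  have hX : Fintype.card (Fin m → Fin n → Fin r → L.A) =
      A.card ^ Fintype.card (Fin m × Fin n × Fin r) := by
    rw [hA, Nat.card_eq_fintype_card]
    simp only [Fintype.card_fun, Fintype.card_fin, Fintype.card_prod, ← pow_mul]
    congr 1
    ring
  refine ⟨Finset.univ.filter fun x => φ x ∈ bad, ?_, fun h => ?_⟩
  · rw [hX, ← hA]
    refine le_trans (Nat.mul_le_mul_right _ ?_) hbad
    exact Finset.card_le_card_of_injOn φ (fun x hx => by simpa using hx) hφ.injOn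
  · rw [hX, ← Nat.card_eq_fintype_card (α := H)]
    refine le_trans (Nat.mul_le_mul_right _ ?_) (hfib (L.rho h))
    refine Finset.card_le_card_of_injOn φ (fun x hx => ?_) hφ.injOn
    simp only [Finset.coe_filter, Finset.mem_univ, true_and, Set.mem_ofPred_eq,
      Finset.mem_filter] at hx
    simp only [Finset.coe_filter, Set.mem_ofPred_eq, Fintype.mem_piFinset]
    refine ⟨fun s => Finset.mem_image.2 ⟨_, Finset.mem_univ _, rfl⟩, hx.1, ?_⟩
    rw [← hx.2, prodMat_eval, map_list_prod, List.map_ofFn]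
    congr 2
    funext k
    exact (NC0_rho L (x k)).symm

/-- The case of an irreducible representation of the group generated by the tori. -/
theorem NC0_irr [Infinite F] (wt : ι → Fin r → ℕ) (a b : Fin n → Matrix ι ι F)
    (hab : ∀ s, a s * b s = 1) : ∃ m0 : ℕ, ∀ m, m0 ≤ m → ∀ (κ : ℕ) (ε : ℝ), 0 < ε → ∃ π0 : ℕ,
      ∀ (H : Type u) [Group H] [Finite H] (L : Lev wt a b κ π0 H),
        (∀ h, h ∈ Subgroup.closure (⋃ i, Set.range (L.t i))) → ∀ (Z : Type v)
        [NormedAddCommGroup Z] [InnerProductSpace ℂ Z] [FiniteDimensional ℂ Z]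
        (π : Representation ℂ H Z), (∀ h v, ‖π h v‖ = ‖v‖) →
        (∀ W : Submodule ℂ Z, (∀ h, ∀ v ∈ W, π h v ∈ W) → W = ⊥ ∨ W = ⊤) →
        ∀ (χ : Fin n → ((Fin r → L.A) →* ℂ)), (∀ v ∈ ⨅ i, eigsp π (L.t i) (χ i), v = 0) → ∀ v,
          ‖(((List.ofFn fun i => tavg π (L.t i) (χ i)).prod ^ m : Module.End ℂ Z)) v‖ ≤
            ε * ‖v‖ := by
  classical
  obtain ⟨m0, hm0⟩ := NC0_flat.{u} wt a b hab
  refine ⟨m0 + 1, fun m hm κ ε hε => ?_⟩
  obtain ⟨C, hC⟩ := hm0 m (by omega) κ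
  obtain ⟨d, hd⟩ := exists_nat_ge ((C : ℝ) / (ε ^ 2 / 2))
  rw [div_le_iff₀ (by positivity)] at hd
  obtain ⟨π1, hπ1⟩ := commute_of_small_dim.{u, v} d
  refine ⟨max (max C d) π1, fun H _ _ L hgen Z _ _ _ π hπ hirr χ hE v => ?_⟩
  have := L.finA
  by_cases hdim : Module.finrank ℂ Z ≤ d
  · have hord : ∀ i z (l : ℕ), l.Prime → l ∣ orderOf (L.t i z) → π1 ≤ l := by
      intro i z l hl hdv
      refine le_trans (le_max_right _ _) (L.primeA l hl (hdv.trans ?_))
      rw [orderOf_dvd_iff_pow_eq_one, ← map_pow]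
      have : z ^ Nat.card L.A = 1 := by
        funext k
        simp
      rw [this, map_one]
    obtain ⟨k, rfl⟩ : ∃ k, m = k + 1 := ⟨m - 1, by omega⟩
    rw [pow_succ', Module.End.mul_apply, hE _ (NC0_comm π L.t χ
      (fun i j z z' => hπ1 π hπ hdim _ _ (hord i z) (hord j z')) _), norm_zero]
    positivity
  · have := Fintype.ofFinite H
    have := Fintype.ofFinite L.A
    obtain ⟨bad, hbad, hfib⟩ := hC _ ((le_max_left _ _).trans (le_max_left _ _)) H L hgen
    obtain ⟨c, hc, hT⟩ := NC0_expand π L.t χ m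
    rw [hT]
    have hdA : (d : ℝ) ≤ Nat.card L.A := by
      exact_mod_cast ((le_max_right C d).trans (le_max_left _ π1)).trans L.cardA
    have hA0 : (0 : ℝ) < Nat.card L.A := by exact_mod_cast Nat.card_pos
    have hd' : (d : ℝ) ≤ Module.finrank ℂ Z := by exact_mod_cast (not_le.1 hdim).le
    refine NC0_count π hπ hirr _ c hc bad (C := C) hε ?_ (fun h => by exact_mod_cast hfib h)
      (by omega) (hd.trans (by rw [mul_comm]; gcongr)) v
    have h1 : (bad.card : ℝ) * Nat.card L.A ≤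
        C * Fintype.card (Fin m → Fin n → Fin r → L.A) := by exact_mod_cast hbad
    refine le_of_mul_le_mul_right (h1.trans ?_) hA0
    calc (C : ℝ) * Fintype.card (Fin m → Fin n → Fin r → L.A)
        ≤ Nat.card L.A * (ε ^ 2 / 2) * Fintype.card (Fin m → Fin n → Fin r → L.A) := by
          gcongr
          exact hd.trans (by gcongr)
      _ = _ := by ring

/-- The case of the group generated by the tori. -/
theorem NC0_gen [Infinite F] (wt : ι → Fin r → ℕ) (a b : Fin n → Matrix ι ι F)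
    (hab : ∀ s, a s * b s = 1) : ∃ m0 : ℕ, ∀ m, m0 ≤ m → ∀ (κ : ℕ) (ε : ℝ), 0 < ε → ∃ π0 : ℕ,
      ∀ (H : Type u) [Group H] [Finite H] (L : Lev wt a b κ π0 H),
        (∀ h, h ∈ Subgroup.closure (⋃ i, Set.range (L.t i))) → ∀ (Z : Type v)
        [NormedAddCommGroup Z] [InnerProductSpace ℂ Z] [FiniteDimensional ℂ Z]
        (π : Representation ℂ H Z), (∀ h v, ‖π h v‖ = ‖v‖) →
        ∀ (χ : Fin n → ((Fin r → L.A) →* ℂ)), ∀ v ∈ (⨅ i, eigsp π (L.t i) (χ i))ᗮ,
          ‖(((List.ofFn fun i => tavg π (L.t i) (χ i)).prod ^ m : Module.End ℂ Z)) v‖ ≤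
            ε * ‖v‖ := by
  obtain ⟨m0, hm0⟩ := NC0_irr.{u, v} wt a b hab
  refine ⟨m0, fun m hm κ ε hε => ?_⟩
  obtain ⟨π0, hπ0⟩ := hm0 m hm κ ε hε
  refine ⟨π0, fun H _ _ L hgen Z _ _ _ π hπ χ => ?_⟩
  have := L.finA
  have hE : ∀ h, ∀ v ∈ ⨅ i, eigsp π (L.t i) (χ i), π h v ∈ ⨅ i, eigsp π (L.t i) (χ i) := by
    have hs : ∀ i z, ∀ v ∈ ⨅ i, eigsp π (L.t i) (χ i),
        π (L.t i z) v ∈ ⨅ i, eigsp π (L.t i) (χ i) := fun i z v hv => by
      rw [(Submodule.mem_iInf _).1 hv i z]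
      exact Submodule.smul_mem _ _ hv
    intro h
    induction hgen h using Subgroup.closure_induction'' with
    | mem x hx =>
      obtain ⟨i, z, rfl⟩ := Set.mem_iUnion.1 hx
      exact hs i z
    | inv_mem x hx =>
      obtain ⟨i, z, rfl⟩ := Set.mem_iUnion.1 hx
      rw [← map_inv]
      exact hs i z⁻¹
    | one => intro v hv; simpa using hv
    | mul x y _ _ hx hy =>
      intro v hv
      rw [map_mul, Module.End.mul_apply]
      exact hx _ (hy v hv)
  refine small_of_minimal π hπ _ (fun U hU => ?_) hε.le _ (NC0_orth π hπ hE) ?_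
  · rw [← List.prod_replicate]
    refine NC0_list_inv _ fun T hT => ?_
    rw [List.eq_of_mem_replicate hT]
    refine NC0_list_inv _ fun S hS w hw => ?_
    obtain ⟨j, rfl⟩ := List.mem_ofFn.1 hS
    exact NC0_tavg_inv π _ _ (fun z => hU _) hw
  · intro U hUW _ hU hmin v hv
    have hU' : ∀ g, U ≤ U.comap (π g) := fun g w hw => hU g w hw
    have key := hπ0 H L hgen U (π.subrepresentation U hU') (fun h w => hπ h w) (fun W hW => ?_) χ
      (fun w hw => ?_) ⟨v, hv⟩
    · rw [← Submodule.norm_coe, NC0_pow_coe _ _ (NC0_list_coe _ _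
        fun i => NC0_tavg_coe π (L.t i) (χ i) U hU')] at key
      exact key
    · rcases hmin (W.map U.subtype) (Submodule.map_subtype_le U W) (by
        rintro h _ ⟨w, hw, rfl⟩
        exact ⟨_, hW h w hw, rfl⟩) with h | h
      · exact Or.inl (Submodule.map_injective_of_injective U.injective_subtype (by simpa using h))
      · exact Or.inr (Submodule.map_injective_of_injective U.injective_subtype (by simpa using h))
    · have h1 : (w : Z) ∈ ⨅ i, eigsp π (L.t i) (χ i) := (Submodule.mem_iInf _).2 fun i z =>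
        congrArg Subtype.val ((Submodule.mem_iInf _).1 hw i z)
      have h2 := (Submodule.mem_orthogonal _ _).1 (hUW w.2) _ h1
      exact Subtype.ext (inner_self_eq_zero.1 h2)

end NC0main

/-- Let `σ = Fin n × Fin r`, `D = ∏ i, a (ω i) * diag (∏ l, X (i, l) ^ wt) * b (ω i)`, `m0 = K0 + 1`
from `flat`. Replace `H` by the subgroup `H'` generated by the images of the `t (ω i)` (each element
is a product of values of `D` since `H'` is finite and each generator is a value of `D`). The common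
eigenspace and its orthogonal complement are `H'`-invariant; apply `small_of_minimal`. On a minimal
`U` of dimension `≤ d` the tori commute (`commute_of_small_dim`; orders divide `card A`), so the
averages commute, `T v` lies in the common eigenspace and in `U`, so it is `0`. On a minimal `U` of
dimension `> d` expand `T` with `prod_ofFn_sum` as an average of unimodular multiples of
`π (μ a)`; Cauchy-Schwarz, `flat` and `schur_sum` give
`‖⟪T v, w⟫‖ ^ 2 ≤ (C / card A + C / d) ‖v‖ ^ 2 ‖w‖ ^ 2`. -/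
theorem word_small {F : Type} [Field F] [Infinite F] {ι : Type} {𝒯 : Type*} [Fintype ι] [DecidableEq ι]
    {r : ℕ} (wt : ι → Fin r → ℕ) (a b : 𝒯 → Matrix ι ι F) (hab : ∀ s, a s * b s = 1) {n : ℕ}
    (ω : Fin n → 𝒯) : ∃ m0 : ℕ, ∀ m, m0 ≤ m → ∀ (κ : ℕ) (ε : ℝ), 0 < ε → ∃ π0 : ℕ,
      ∀ (H : Type u) [Group H] [Finite H] (L : Lev wt a b κ π0 H) (Z : Type v)
        [NormedAddCommGroup Z] [InnerProductSpace ℂ Z] [FiniteDimensional ℂ Z]
        (π : Representation ℂ H Z), (∀ h v, ‖π h v‖ = ‖v‖) →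
        ∀ (χ : 𝒯 → ((Fin r → L.A) →* ℂ)), ∀ v ∈ (⨅ i, eigsp π (L.t (ω i)) (χ (ω i)))ᗮ,
          ‖(((List.ofFn fun i => tavg π (L.t (ω i)) (χ (ω i))).prod ^ m : Module.End ℂ Z)) v‖ ≤
            ε * ‖v‖ := by
  obtain ⟨m0, hm0⟩ := NC0_gen.{u, v} wt (fun i => a (ω i)) (fun i => b (ω i)) fun i => hab (ω i)
  refine ⟨m0, fun m hm κ ε hε => ?_⟩
  obtain ⟨π0, hπ0⟩ := hm0 m hm κ ε hε
  refine ⟨π0, fun H _ _ L Z _ _ _ π hπ χ => ?_⟩
  let H' : Subgroup H := Subgroup.closure (⋃ i, Set.range (L.t (ω i)))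
  have hm : ∀ i z, L.t (ω i) z ∈ H' := fun i z =>
    Subgroup.subset_closure (Set.mem_iUnion.2 ⟨i, z, rfl⟩)
  let L' : Lev wt (fun i => a (ω i)) (fun i => b (ω i)) κ π0 H' :=
    { A := L.A, finA := L.finA, cardA := L.cardA, primeA := L.primeA, K := L.K, cardK := L.cardK
      rho := L.rho.comp H'.subtype
      inj := L.inj.comp Subtype.val_injective
      entries := fun h => L.entries h
      t := fun i => (L.t (ω i)).codRestrict H' (hm i)
      rho_t := fun i z => L.rho_t (ω i) z }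
  refine hπ0 H' L' ?_ Z (π.comp H'.subtype) (fun h => hπ h) fun i => χ (ω i)
  rintro ⟨h, hh⟩
  induction hh using Subgroup.closure_induction with
  | mem x hx =>
    obtain ⟨i, z, rfl⟩ := Set.mem_iUnion.1 hx
    exact Subgroup.subset_closure (Set.mem_iUnion.2 ⟨i, z, rfl⟩)
  | one => exact one_mem _
  | mul x y hx hy ihx ihy => exact mul_mem ihx ihy
  | inv x hx ih => exact inv_mem ih

end Pool.Agent.Work.MP_bb5f23_al
end

-- merged part: Pool.Agent.Work.MP_bb5f23_al.NC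
section
/-! Eigenspaces of conjugate tori are almost orthogonal off their intersection. -/

namespace Pool.Agent.Work.MP_bb5f23_al

open scoped InnerProductSpace

universe u v

/-- The family `W` is `ε`-orthogonal modulo intersections. -/
def AlmostOrth {𝒯 Z : Type*} [NormedAddCommGroup Z] [InnerProductSpace ℂ Z]
    (W : 𝒯 → Submodule ℂ Z) (ε : ℝ) : Prop :=
  ∀ (S : Finset 𝒯) (s : 𝒯), ∀ v ∈ (⨅ s' ∈ S, W s') ⊓ ((⨅ s' ∈ S, W s') ⊓ W s)ᗮ, ∀ w ∈ W s,
    ‖⟪v, w⟫_ℂ‖ ≤ ε * ‖v‖ * ‖w‖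

/-- For a symmetric `T`, `‖T v‖ ^ 2 = ⟪T ^ 2 v, v⟫ ≤ ‖T ^ 2 v‖ ‖v‖`; iterate. -/
theorem norm_pow_le {Z : Type*} [NormedAddCommGroup Z] [InnerProductSpace ℂ Z]
    {T : Module.End ℂ Z} (hT : T.IsSymmetric) (j : ℕ) (v : Z) :
    ‖T v‖ ^ 2 ^ j * ‖v‖ ≤ ‖(T ^ 2 ^ j) v‖ * ‖v‖ ^ 2 ^ j := by
  induction j generalizing T with
  | zero => simp
  | succ j ih =>
    have h1 : ‖T v‖ ^ 2 ≤ ‖(T ^ 2) v‖ * ‖v‖ := by
      have h := norm_inner_le_norm (𝕜 := ℂ) ((T ^ 2) v) v
      rw [sq T, Module.End.mul_apply, hT, inner_self_eq_norm_sq_to_K, norm_pow] at h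
      simpa [sq T] using h
    have h2 := ih (hT.pow 2)
    have h3 := pow_le_pow_left₀ (by positivity) h1 (2 ^ j)
    rw [← pow_mul, mul_pow] at h3
    rw [← pow_mul] at h2
    rw [pow_succ' 2 j]
    calc ‖T v‖ ^ (2 * 2 ^ j) * ‖v‖ ≤ ‖(T ^ 2) v‖ ^ 2 ^ j * ‖v‖ ^ 2 ^ j * ‖v‖ :=
          mul_le_mul_of_nonneg_right h3 (norm_nonneg _)
      _ = ‖(T ^ 2) v‖ ^ 2 ^ j * ‖v‖ * ‖v‖ ^ 2 ^ j := by ring
      _ ≤ ‖(T ^ (2 * 2 ^ j)) v‖ * ‖v‖ ^ 2 ^ j * ‖v‖ ^ 2 ^ j :=
          mul_le_mul_of_nonneg_right h2 (by positivity)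
      _ = ‖(T ^ (2 * 2 ^ j)) v‖ * ‖v‖ ^ (2 * 2 ^ j) := by ring

theorem NC_pal {𝒯 Z : Type*} [NormedAddCommGroup Z] [InnerProductSpace ℂ Z]
    (P : 𝒯 → Module.End ℂ Z) (hP : ∀ s, (P s).IsSymmetric) (s : 𝒯) (l : List 𝒯) :
    (((l ++ s :: l.reverse).map P).prod).IsSymmetric ∧ ∀ v, (∀ a ∈ l, P a v = v) →
      ⟪((l ++ s :: l.reverse).map P).prod v, v⟫_ℂ = ⟪P s v, v⟫_ℂ := by
  induction l with
  | nil => exact ⟨by simpa using hP s, fun v _ => by simp⟩
  | cons a l ih =>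
    have e : ((a :: l ++ s :: (a :: l).reverse).map P).prod =
        P a * ((l ++ s :: l.reverse).map P).prod * P a := by
      simp [mul_assoc]
    rw [e]
    refine ⟨fun x y => ?_, fun v hv => ?_⟩
    · simp only [Module.End.mul_apply]
      rw [hP a, ih.1, hP a]
    · simp only [Module.End.mul_apply]
      rw [hP a, hv a List.mem_cons_self, ih.2 v fun b hb => hv b (List.mem_cons_of_mem _ hb)]

theorem NC_small {Z : Type*} [NormedAddCommGroup Z] [InnerProductSpace ℂ Z]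
    {T P : Module.End ℂ Z} (hT : T.IsSymmetric) (hP : P.IsSymmetric) {v w : Z}
    (h1 : P (P v) = P v) (h2 : P w = w) (h3 : ⟪T v, v⟫_ℂ = ⟪P v, v⟫_ℂ) {ε : ℝ} (hε : 0 < ε) (j : ℕ)
    (h4 : ‖(T ^ 2 ^ j) v‖ ≤ (ε ^ 2) ^ 2 ^ j * ‖v‖) : ‖⟪v, w⟫_ℂ‖ ≤ ε * ‖v‖ * ‖w‖ := by
  by_cases hv : v = 0
  · simp [hv]
  have hv' : 0 < ‖v‖ := norm_pos_iff.2 hv
  have a1 : ‖T v‖ ≤ ε ^ 2 * ‖v‖ := by
    refine le_of_pow_le_pow_left₀ (pow_ne_zero j two_ne_zero) (by positivity)
      (le_of_mul_le_mul_right ?_ hv')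
    refine (norm_pow_le hT j v).trans
      ((mul_le_mul_of_nonneg_right h4 (by positivity)).trans_eq ?_)
    rw [mul_pow]
    ring
  have a2 : ‖P v‖ ^ 2 ≤ (ε * ‖v‖) ^ 2 := by
    have h := norm_inner_le_norm (𝕜 := ℂ) (T v) v
    rw [h3, ← h1, hP, inner_self_eq_norm_sq_to_K, norm_pow] at h
    have h' : ‖P v‖ ^ 2 ≤ ‖T v‖ * ‖v‖ := by simpa using h
    have := mul_le_mul_of_nonneg_right a1 hv'.le
    nlinarith
  have a3 : ‖P v‖ ≤ ε * ‖v‖ := le_of_pow_le_pow_left₀ two_ne_zero (by positivity) a2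
  rw [← h2, ← hP, h2]
  exact (norm_inner_le_norm _ _).trans (mul_le_mul_of_nonneg_right a3 (norm_nonneg _))

/-- A level for `π0` is a level for every smaller bound. -/
def NC_mono {F : Type} [Field F] {ι : Type} {𝒯 : Type*} [Fintype ι] [DecidableEq ι] {r : ℕ}
    {wt : ι → Fin r → ℕ} {a b : 𝒯 → Matrix ι ι F} {κ π0 π1 : ℕ} {H : Type u} [Group H]
    (h : π1 ≤ π0) (L : Lev wt a b κ π0 H) : Lev wt a b κ π1 H :=
  { L with
    cardA := h.trans L.cardA
    primeA := fun l hl hd => h.trans (L.primeA l hl hd) }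

/-- For each of the finitely many pairs `(S, s)` use the palindromic word
`S.toList.reverse ++ s :: S.toList` (as `List.get`), whose product `T = R† P_s R` is symmetric with
`⟪T v, v⟫ = ‖P_s v‖ ^ 2` for `v` in the common eigenspace of `S`. Apply `word_small` with
`m = 2 ^ j ≥ m0` and `ε ^ (2 * m)`, then `norm_pow_le`, and `⟪v, w⟫ = ⟪P_s v, w⟫`. `Lev` for a
larger `π0` gives `Lev` for a smaller one. -/
theorem almost_orth {F : Type} [Field F] [Infinite F] {ι : Type} {𝒯 : Type*} [Fintype ι] [DecidableEq ι]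
    [Fintype 𝒯] {r : ℕ} (wt : ι → Fin r → ℕ) (a b : 𝒯 → Matrix ι ι F) (hab : ∀ s, a s * b s = 1)
    (κ : ℕ) {ε : ℝ} (hε : 0 < ε) : ∃ π0 : ℕ,
      ∀ (H : Type u) [Group H] [Finite H] (L : Lev wt a b κ π0 H) (Z : Type v)
        [NormedAddCommGroup Z] [InnerProductSpace ℂ Z] [FiniteDimensional ℂ Z]
        (π : Representation ℂ H Z), (∀ h v, ‖π h v‖ = ‖v‖) →
        ∀ (χ : 𝒯 → ((Fin r → L.A) →* ℂ)), AlmostOrth (fun s => eigsp π (L.t s) (χ s)) ε := by
  classical
  choose m0 hm0 using fun p : Finset 𝒯 × 𝒯 =>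
    word_small.{u, v} wt a b hab (p.1.toList ++ p.2 :: p.1.toList.reverse).get
  choose π0 hπ0 using fun p : Finset 𝒯 × 𝒯 =>
    hm0 p (2 ^ m0 p) Nat.lt_two_pow_self.le κ ((ε ^ 2) ^ 2 ^ m0 p) (by positivity)
  refine ⟨Finset.univ.sup π0, fun H _ _ L Z _ _ _ π hπ χ S s v hv w hw => ?_⟩
  have := L.finA
  have h1 := hπ0 (S, s) H (NC_mono (Finset.le_sup (Finset.mem_univ _)) L) Z π hπ χ v
    (Submodule.orthogonal_le ?_ hv.2)
  · have h2 := NC_pal (fun s => tavg π (L.t s) (χ s)) (fun s => tavg_symm π _ _ hπ) s S.toList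
    have h3 : (List.ofFn fun i => tavg π (L.t ((S.toList ++ s :: S.toList.reverse).get i))
        (χ ((S.toList ++ s :: S.toList.reverse).get i))) =
        (S.toList ++ s :: S.toList.reverse).map fun s => tavg π (L.t s) (χ s) := by
      conv_rhs => rw [← List.ofFn_get (S.toList ++ s :: S.toList.reverse), List.map_ofFn]
      rfl
    refine NC_small h2.1 (tavg_symm π _ _ hπ) (tavg_of_mem π _ _ (tavg_mem π _ _ v))
      (tavg_of_mem π _ _ hw) (h2.2 v fun c hc => tavg_of_mem π _ _ ?_) hε (m0 (S, s)) ?_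
    · exact (Submodule.mem_iInf _).1 ((Submodule.mem_iInf _).1 hv.1 c) (Finset.mem_toList.1 hc)
    · rw [← h3]
      exact h1
  · have h2 : ∀ c ∈ S.toList ++ s :: S.toList.reverse,
        (⨅ i, eigsp π (L.t ((S.toList ++ s :: S.toList.reverse).get i))
          (χ ((S.toList ++ s :: S.toList.reverse).get i))) ≤ eigsp π (L.t c) (χ c) := by
      intro c hc
      obtain ⟨i, rfl⟩ := List.mem_iff_get.1 hc
      exact iInf_le _ i
    exact le_inf (le_iInf₂ fun c hc => h2 c (by simp [hc])) (h2 s (by simp))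

end Pool.Agent.Work.MP_bb5f23_al
end

-- merged part: Pool.Agent.Work.MP_bb5f23_al.AG1
section
/-! The approximate resolution of the identity attached to an almost orthogonal family. -/

namespace Pool.Agent.Work.MP_bb5f23_al

open scoped InnerProductSpace

variable {𝒯 Z : Type*} [Fintype 𝒯] [DecidableEq 𝒯] [NormedAddCommGroup Z] [InnerProductSpace ℂ Z]
  [FiniteDimensional ℂ Z]

/-- `Q_S = ∑ S' ⊇ S, (-1) ^ |S' \ S| P_{S'}` with `P_{S'}` the orthogonal projection onto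
`⨅ s ∈ S', W s`. -/
noncomputable def mob (W : 𝒯 → Submodule ℂ Z) (S : Finset 𝒯) (v : Z) : Z :=
  ∑ S' : Finset 𝒯 with S ⊆ S', (-1 : ℂ) ^ (S' \ S).card • (⨅ s ∈ S', W s).starProjection v

variable (W : 𝒯 → Submodule ℂ Z)

theorem mob_mem (S : Finset 𝒯) (v : Z) : mob W S v ∈ ⨅ s ∈ S, W s := by
  unfold mob
  refine Submodule.sum_mem _ fun S' hS' => Submodule.smul_mem _ _ ?_
  have hsub : S ⊆ S' := (Finset.mem_filter.1 hS').2
  have hle : (⨅ s ∈ S', W s) ≤ ⨅ s ∈ S, W s :=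
    le_iInf₂ fun s hs => iInf₂_le s (hsub hs)
  exact hle (Submodule.starProjection_apply_mem _ v)

theorem AG1_sign (S' : Finset 𝒯) :
    ∑ S : Finset 𝒯 with S ⊆ S', (-1 : ℂ) ^ (S' \ S).card = if S' = ∅ then 1 else 0 := by
  have h1 : (Finset.univ.filter fun S : Finset 𝒯 => S ⊆ S') = S'.powerset := by
    ext S
    simp
  have h2 : ∑ S ∈ S'.powerset, (-1 : ℂ) ^ (S' \ S).card =
      ∑ S ∈ S'.powerset, (-1 : ℂ) ^ S.card := by
    refine Finset.sum_bij' (fun S _ => S' \ S) (fun S _ => S' \ S) ?_ ?_ ?_ ?_ ?_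
    · intro S _
      exact Finset.mem_powerset.2 Finset.sdiff_subset
    · intro S _
      exact Finset.mem_powerset.2 Finset.sdiff_subset
    · intro S hS
      exact Finset.sdiff_sdiff_eq_self (Finset.mem_powerset.1 hS)
    · intro S hS
      exact Finset.sdiff_sdiff_eq_self (Finset.mem_powerset.1 hS)
    · intro S _
      rfl
  rw [h1, h2]
  have h3 := Finset.sum_powerset_neg_one_pow_card (x := S')
  have h4 : ((∑ m ∈ S'.powerset, (-1 : ℤ) ^ m.card : ℤ) : ℂ) =
      ∑ S ∈ S'.powerset, (-1 : ℂ) ^ S.card := by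
    push_cast
    rfl
  rw [← h4, h3]
  split_ifs <;> simp

/-- Exchange the sums and use `Finset.sum_powerset_neg_one_pow_card`. -/
theorem sum_mob (v : Z) : ∑ S, mob W S v = v := by
  unfold mob
  simp only [Finset.sum_filter]
  rw [Finset.sum_comm]
  have key : ∀ S' : Finset 𝒯,
      (∑ S : Finset 𝒯, if S ⊆ S' then
        (-1 : ℂ) ^ (S' \ S).card • (⨅ s ∈ S', W s).starProjection v else 0) =
      if S' = ∅ then (⨅ s ∈ S', W s).starProjection v else 0 := by
    intro S'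
    rw [← Finset.sum_filter, ← Finset.sum_smul, AG1_sign]
    split_ifs <;> simp
  rw [Finset.sum_congr rfl fun S' _ => key S', Finset.sum_ite_eq' Finset.univ (∅ : Finset 𝒯)]
  simp only [Finset.mem_univ, if_true]
  rw [Submodule.starProjection_eq_self_iff]
  simp

theorem mob_sum {ι : Type*} (s : Finset ι) (c : ι → ℂ) (f : ι → Z) (S : Finset 𝒯) :
    mob W S (∑ i ∈ s, c i • f i) = ∑ i ∈ s, c i • mob W S (f i) := by
  unfold mob
  simp only [map_sum, map_smul, Finset.smul_sum]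
  rw [Finset.sum_comm]
  refine Finset.sum_congr rfl fun i _ => Finset.sum_congr rfl fun S' _ => ?_
  rw [smul_comm]

omit [DecidableEq 𝒯] in
theorem AG1_card (p : Finset 𝒯 → Prop) [DecidablePred p] :
    (((Finset.univ.filter p).card : ℕ) : ℝ) ≤ 2 ^ Fintype.card 𝒯 := by
  have h : (Finset.univ.filter p).card ≤ 2 ^ Fintype.card 𝒯 := by
    calc (Finset.univ.filter p).card ≤ (Finset.univ : Finset (Finset 𝒯)).card :=
          Finset.card_filter_le _ _
      _ = 2 ^ Fintype.card 𝒯 := by rw [Finset.card_univ, Fintype.card_finset]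
  exact_mod_cast h

theorem norm_mob_le' (S : Finset 𝒯) (v : Z) : ‖mob W S v‖ ≤ 2 ^ Fintype.card 𝒯 * ‖v‖ := by
  unfold mob
  refine (norm_sum_le _ _).trans ?_
  have h : ∀ S' ∈ (Finset.univ.filter fun S' : Finset 𝒯 => S ⊆ S'),
      ‖(-1 : ℂ) ^ (S' \ S).card • (⨅ s ∈ S', W s).starProjection v‖ ≤ ‖v‖ := by
    intro S' _
    rw [norm_smul, norm_pow, norm_neg, norm_one, one_pow, one_mul]
    exact Submodule.norm_starProjection_apply_le _ v
  refine (Finset.sum_le_card_nsmul _ _ _ h).trans ?_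
  rw [nsmul_eq_mul]
  exact mul_le_mul_of_nonneg_right (AG1_card _) (norm_nonneg _)

omit [Fintype 𝒯] in
theorem AG1_pair {ε : ℝ} (hε : 0 ≤ ε) (h : AlmostOrth W ε) (S' : Finset 𝒯) (s : 𝒯)
    {w : Z} (hw : w ∈ W s) :
    ‖(⨅ t ∈ S', W t).starProjection w - (⨅ t ∈ insert s S', W t).starProjection w‖ ≤
      ε * ‖w‖ := by
  set A : Submodule ℂ Z := ⨅ t ∈ S', W t with hA
  set B : Submodule ℂ Z := ⨅ t ∈ insert s S', W t with hB
  have hAB : B = A ⊓ W s := by
    rw [hA, hB, Finset.iInf_insert, inf_comm]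
  have hle : B ≤ A := hAB ▸ inf_le_left
  set x : Z := A.starProjection w - B.starProjection w with hx
  have hxA : x ∈ A :=
    A.sub_mem (Submodule.starProjection_apply_mem _ w) (hle (Submodule.starProjection_apply_mem _ w))
  have hxB : x ∈ Bᗮ := by
    have e : x = (w - B.starProjection w) - (w - A.starProjection w) := by
      rw [hx]; abel
    rw [e]
    exact Bᗮ.sub_mem (Submodule.sub_starProjection_mem_orthogonal w)
      (Submodule.orthogonal_le hle (Submodule.sub_starProjection_mem_orthogonal w))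
  have h1 : ‖⟪x, w⟫_ℂ‖ ≤ ε * ‖x‖ * ‖w‖ := by
    refine h S' s x ⟨hxA, ?_⟩ w hw
    have : Bᗮ = (A ⊓ W s)ᗮ := by rw [hAB]
    exact this ▸ hxB
  have h2 : ⟪x, w⟫_ℂ = ⟪x, x⟫_ℂ := by
    have e : w = (w - A.starProjection w) + x + B.starProjection w := by
      rw [hx]; abel
    have z1 : ⟪x, w - A.starProjection w⟫_ℂ = 0 :=
      Submodule.inner_right_of_mem_orthogonal hxA (Submodule.sub_starProjection_mem_orthogonal w)
    have z2 : ⟪x, B.starProjection w⟫_ℂ = 0 :=
      Submodule.inner_left_of_mem_orthogonal (Submodule.starProjection_apply_mem _ w) hxB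
    calc ⟪x, w⟫_ℂ = ⟪x, (w - A.starProjection w) + x + B.starProjection w⟫_ℂ := by rw [← e]
      _ = ⟪x, x⟫_ℂ := by rw [inner_add_right, inner_add_right, z1, z2, zero_add, add_zero]
  have h3 : ‖⟪x, x⟫_ℂ‖ = ‖x‖ * ‖x‖ := by
    rw [inner_self_eq_norm_sq_to_K]
    simp [sq]
  rw [h2, h3] at h1
  rcases eq_or_lt_of_le (norm_nonneg x) with h0 | h0
  · rw [← h0]
    positivity
  · have h4 : ‖x‖ * ‖x‖ ≤ ‖x‖ * (ε * ‖w‖) := by linarith
    exact le_of_mul_le_mul_left h4 h0

/-- Pair `S'` with `insert s S'`: for `w ∈ W s`, `x = P_{S'} w - P_{insert s S'} w` lies in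
`W_{S'} ⊓ (W_{S'} ⊓ W s)ᗮ` and `‖x‖ ^ 2 = ⟪x, w⟫`, so `‖x‖ ≤ ε ‖w‖`. -/
theorem norm_mob_le {ε : ℝ} (hε : 0 ≤ ε) (h : AlmostOrth W ε) {S : Finset 𝒯} {s : 𝒯} (hs : s ∉ S)
    {w : Z} (hw : w ∈ W s) : ‖mob W S w‖ ≤ 2 ^ Fintype.card 𝒯 * ε * ‖w‖ := by
  have key : mob W S w = ∑ S' : Finset 𝒯 with (S ⊆ S' ∧ s ∉ S'), (-1 : ℂ) ^ (S' \ S).card •
      ((⨅ t ∈ S', W t).starProjection w - (⨅ t ∈ insert s S', W t).starProjection w) := by
    unfold mob
    rw [← Finset.sum_filter_add_sum_filter_not _ (fun S' : Finset 𝒯 => s ∉ S'),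
      Finset.filter_filter, Finset.filter_filter]
    simp only [smul_sub, Finset.sum_sub_distrib]
    rw [sub_eq_add_neg, ← Finset.sum_neg_distrib]
    congr 1
    symm
    refine Finset.sum_bij' (fun S' _ => insert s S') (fun S' _ => S'.erase s) ?_ ?_ ?_ ?_ ?_
    · intro S' hS'
      simp only [Finset.mem_filter, Finset.mem_univ, true_and] at hS' ⊢
      exact ⟨hS'.1.trans (Finset.subset_insert _ _), by simp⟩
    · intro S' hS'
      simp only [Finset.mem_filter, Finset.mem_univ, true_and] at hS' ⊢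
      refine ⟨fun a ha => Finset.mem_erase.2 ⟨?_, hS'.1 ha⟩, by simp⟩
      rintro rfl
      exact hs ha
    · intro S' hS'
      simp only [Finset.mem_filter, Finset.mem_univ, true_and] at hS'
      exact Finset.erase_insert hS'.2
    · intro S' hS'
      simp only [Finset.mem_filter, Finset.mem_univ, true_and, not_not] at hS'
      exact Finset.insert_erase hS'.2
    · intro S' hS'
      simp only [Finset.mem_filter, Finset.mem_univ, true_and] at hS'
      have hc : (insert s S' \ S).card = (S' \ S).card + 1 := by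
        rw [Finset.insert_sdiff_of_notMem _ hs, Finset.card_insert_of_notMem]
        intro hm
        exact hS'.2 (Finset.mem_sdiff.1 hm).1
      rw [hc, pow_succ, mul_neg, mul_one, neg_smul]
  rw [key]
  refine (norm_sum_le _ _).trans ?_
  have hb : ∀ S' ∈ (Finset.univ.filter fun S' : Finset 𝒯 => S ⊆ S' ∧ s ∉ S'),
      ‖(-1 : ℂ) ^ (S' \ S).card • ((⨅ t ∈ S', W t).starProjection w -
        (⨅ t ∈ insert s S', W t).starProjection w)‖ ≤ ε * ‖w‖ := by
    intro S' _
    rw [norm_smul, norm_pow, norm_neg, norm_one, one_pow, one_mul]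
    exact AG1_pair W hε h S' s hw
  refine (Finset.sum_le_card_nsmul _ _ _ hb).trans ?_
  rw [nsmul_eq_mul, mul_assoc]
  exact mul_le_mul_of_nonneg_right (AG1_card _) (mul_nonneg hε (norm_nonneg _))

omit [Fintype 𝒯] [DecidableEq 𝒯] in
theorem AG1_proj (g : Z →ₗ[ℂ] Z) (hg : ∀ v, ‖g v‖ = ‖v‖) (e : 𝒯 ≃ 𝒯)
    (he : ∀ s, W (e s) = (W s).map g) (S : Finset 𝒯) (v : Z) :
    (⨅ s ∈ S.map e.toEmbedding, W s).starProjection (g v) =
      g ((⨅ s ∈ S, W s).starProjection v) := by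
  let G : Z →ₗᵢ[ℂ] Z := ⟨g, hg⟩
  have hinj : Function.Injective g := G.injective
  have hsurj : Function.Surjective g := LinearMap.injective_iff_surjective.1 hinj
  refine Submodule.eq_starProjection_of_mem_of_inner_eq_zero ?_ ?_
  · simp only [Submodule.mem_iInf]
    intro t ht
    obtain ⟨s, hs, rfl⟩ := Finset.mem_map.1 ht
    have hm : (⨅ s ∈ S, W s).starProjection v ∈ W s :=
      (iInf₂_le s hs : (⨅ s ∈ S, W s) ≤ W s) (Submodule.starProjection_apply_mem _ v)
    change g _ ∈ W (e s)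
    rw [he]
    exact Submodule.mem_map_of_mem hm
  · intro w hw
    obtain ⟨w', rfl⟩ := hsurj w
    have hw' : w' ∈ ⨅ s ∈ S, W s := by
      simp only [Submodule.mem_iInf] at hw ⊢
      intro s hs
      have h1 : g w' ∈ W (e s) := hw (e s) (Finset.mem_map_of_mem e.toEmbedding hs)
      rw [he] at h1
      obtain ⟨u, hu, huw⟩ := Submodule.mem_map.1 h1
      exact hinj huw ▸ hu
    rw [← map_sub]
    have h2 : ⟪g (v - (⨅ s ∈ S, W s).starProjection v), g w'⟫_ℂ =
        ⟪v - (⨅ s ∈ S, W s).starProjection v, w'⟫_ℂ := G.inner_map_map _ _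
    rw [h2]
    exact Submodule.starProjection_inner_eq_zero v w' hw'

/-- Equivariance under an isometry permuting the family. -/
theorem mob_equiv (g : Z →ₗ[ℂ] Z) (hg : ∀ v, ‖g v‖ = ‖v‖) (e : 𝒯 ≃ 𝒯)
    (he : ∀ s, W (e s) = (W s).map g) (S : Finset 𝒯) (v : Z) :
    mob W (S.map e.toEmbedding) (g v) = g (mob W S v) := by
  unfold mob
  rw [map_sum]
  symm
  refine Finset.sum_bij' (fun S' _ => S'.map e.toEmbedding) (fun S' _ => S'.map e.symm.toEmbedding)
    ?_ ?_ ?_ ?_ ?_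
  · intro S' hS'
    simp only [Finset.mem_filter, Finset.mem_univ, true_and] at hS' ⊢
    exact Finset.map_subset_map.2 hS'
  · intro S' hS'
    simp only [Finset.mem_filter, Finset.mem_univ, true_and] at hS' ⊢
    intro a ha
    rw [Finset.mem_map_equiv]
    exact hS' (Finset.mem_map_of_mem e.toEmbedding ha)
  · intro S' _
    ext a
    simp
  · intro S' _
    ext a
    simp
  · intro S' _
    rw [map_smul, AG1_proj W g hg e he S' v, ← Finset.map_sdiff, Finset.card_map]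

end Pool.Agent.Work.MP_bb5f23_al
end

-- merged part: Pool.Agent.Work.MP_bb5f23_al.AG2a
section
/-! Uniform approximate kernels. -/

namespace Pool.Agent.Work.MP_bb5f23_al

open scoped InnerProductSpace

universe v

/-- A matrix over the group algebra acting on vector valued functions. -/
noncomputable def matAct {Γ Z A B : Type*} [Group Γ] [Fintype Γ] [Fintype B] [AddCommGroup Z]
    [Module ℂ Z] (π : Representation ℂ Γ Z) (M : A → B → Γ → ℂ) (z : B → Z) : A → Z :=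
  fun a => ∑ b, ∑ γ, M a b γ • π γ (z b)

section AG2a

open Polynomial

variable {Γ A B : Type*} [Group Γ] [Fintype Γ] [Fintype A] [Fintype B]

/-- The adjoint matrix. -/
noncomputable def AG2a_adj (M : A → B → Γ → ℂ) : B → A → Γ → ℂ :=
  fun b a γ => (starRingEnd ℂ) (M a b γ⁻¹)

/-- The product of the adjoint matrix with the matrix, over the group algebra. -/
noncomputable def AG2a_x (M : A → B → Γ → ℂ) : Matrix B B (MonoidAlgebra ℂ Γ) :=
  fun b b' => ∑ a, ∑ γ, ∑ γ', MonoidAlgebra.single (γ * γ') (AG2a_adj M b a γ * M a b' γ')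

/-- The action of matrices over the group algebra. -/
noncomputable def AG2a_rho [DecidableEq B] {Z : Type v} [AddCommGroup Z] [Module ℂ Z]
    (π : Representation ℂ Γ Z) : Matrix B B (MonoidAlgebra ℂ Γ) →ₐ[ℂ] Module.End ℂ (B → Z) :=
  (endVecAlgEquivMatrixEnd B ℂ ℂ Z).symm.toAlgHom.comp π.asAlgebraHom.mapMatrix

omit [Fintype Γ] in
theorem AG2a_rho_apply [DecidableEq B] {Z : Type v} [AddCommGroup Z] [Module ℂ Z]
    (π : Representation ℂ Γ Z) (y : Matrix B B (MonoidAlgebra ℂ Γ)) (w : B → Z) (b : B) :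
    AG2a_rho π y w b = ∑ b', π.asAlgebraHom (y b b') (w b') := rfl

theorem AG2a_rho_mat [DecidableEq B] {Z : Type v} [AddCommGroup Z] [Module ℂ Z]
    (π : Representation ℂ Γ Z) (y : Matrix B B (MonoidAlgebra ℂ Γ)) (w : B → Z) :
    AG2a_rho π y w = matAct π (fun b b' γ => (y b b').coeff γ) w := by
  funext b
  rw [AG2a_rho_apply]
  unfold matAct
  refine Finset.sum_congr rfl fun b' _ => ?_
  rw [Representation.asAlgebraHom_def, MonoidAlgebra.lift_apply,
    Finsupp.sum_fintype _ (fun a c => c • π a) (fun γ => zero_smul _ _), LinearMap.sum_apply]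
  rfl

theorem AG2a_rho_x' [DecidableEq B] {Z : Type v} [AddCommGroup Z] [Module ℂ Z]
    (π : Representation ℂ Γ Z) (M : A → B → Γ → ℂ) (w : B → Z) (b : B) :
    AG2a_rho π (AG2a_x M) w b =
      ∑ b', ∑ a, ∑ γ, ∑ γ', (AG2a_adj M b a γ * M a b' γ') • π (γ * γ') (w b') := by
  rw [AG2a_rho_apply]
  unfold AG2a_x
  simp only [map_sum, Representation.asAlgebraHom_single, LinearMap.sum_apply,
    LinearMap.smul_apply]

theorem AG2a_rho_x [DecidableEq B] {Z : Type v} [AddCommGroup Z] [Module ℂ Z]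
    (π : Representation ℂ Γ Z) (M : A → B → Γ → ℂ) (w : B → Z) :
    AG2a_rho π (AG2a_x M) w = matAct π (AG2a_adj M) (matAct π M w) := by
  funext b
  rw [AG2a_rho_x']
  unfold matAct
  rw [Finset.sum_comm]
  refine Finset.sum_congr rfl fun a _ => ?_
  rw [Finset.sum_comm]
  refine Finset.sum_congr rfl fun γ _ => ?_
  simp only [map_sum, map_smul, Finset.smul_sum, smul_smul, map_mul, Module.End.mul_apply]

theorem AG2a_norm {Z : Type v} [NormedAddCommGroup Z] [InnerProductSpace ℂ Z]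
    (π : Representation ℂ Γ Z) (hπ : ∀ h v, ‖π h v‖ = ‖v‖) (M : A → B → Γ → ℂ) (z : B → Z) :
    ∑ a, ‖matAct π M z a‖ ≤ (∑ a, ∑ b, ∑ γ, ‖M a b γ‖) * ∑ b, ‖z b‖ := by
  rw [Finset.sum_mul]
  refine Finset.sum_le_sum fun a _ => ?_
  unfold matAct
  refine (norm_sum_le _ _).trans ?_
  rw [Finset.sum_mul]
  refine Finset.sum_le_sum fun b _ => ?_
  refine (norm_sum_le _ _).trans ?_
  rw [Finset.sum_mul]
  refine Finset.sum_le_sum fun γ _ => ?_
  rw [norm_smul, hπ]
  exact mul_le_mul_of_nonneg_left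
    (Finset.single_le_sum (f := fun b => ‖z b‖) (fun _ _ => norm_nonneg _) (Finset.mem_univ b))
    (norm_nonneg _)

omit [Fintype Γ] in
theorem AG2a_inner {Z : Type v} [NormedAddCommGroup Z] [InnerProductSpace ℂ Z]
    (π : Representation ℂ Γ Z) (hπ : ∀ h v, ‖π h v‖ = ‖v‖) (γ : Γ) (u w : Z) :
    ⟪π γ u, w⟫_ℂ = ⟪u, π γ⁻¹ w⟫_ℂ := by
  have h := (LinearIsometry.mk (π γ) (hπ γ)).inner_map_map u (π γ⁻¹ w)
  change ⟪π γ u, π γ (π γ⁻¹ w)⟫_ℂ = _ at h
  rw [← h, ← Module.End.mul_apply, ← map_mul, mul_inv_cancel, map_one, Module.End.one_apply]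

theorem AG2a_adjoint {Z : Type v} [NormedAddCommGroup Z] [InnerProductSpace ℂ Z]
    (π : Representation ℂ Γ Z) (hπ : ∀ h v, ‖π h v‖ = ‖v‖) (M : A → B → Γ → ℂ) (u : A → Z)
    (w : B → Z) :
    ∑ b, ⟪matAct π (AG2a_adj M) u b, w b⟫_ℂ = ∑ a, ⟪u a, matAct π M w a⟫_ℂ := by
  unfold matAct AG2a_adj
  simp only [sum_inner, inner_sum, inner_smul_left, inner_smul_right, Complex.conj_conj,
    AG2a_inner π hπ]
  rw [Finset.sum_comm]
  refine Finset.sum_congr rfl fun a _ => Finset.sum_congr rfl fun b _ => ?_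
  exact Fintype.sum_equiv (Equiv.inv Γ) _ _ fun γ => rfl

theorem AG2a_zero {Z : Type v} [NormedAddCommGroup Z] [InnerProductSpace ℂ Z] (u : A → Z)
    (h : ∑ a, ⟪u a, u a⟫_ℂ = 0) : u = 0 := by
  simp only [inner_self_eq_norm_sq_to_K] at h
  have h2 : ∑ a, ‖u a‖ ^ 2 = 0 := by
    have h4 : ((∑ a, ‖u a‖ ^ 2 : ℝ) : ℂ) = 0 := by
      push_cast
      exact h
    exact Complex.ofReal_eq_zero.1 h4
  funext a
  have h3 := (Finset.sum_eq_zero_iff_of_nonneg fun a _ => sq_nonneg ‖u a‖).1 h2 a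
    (Finset.mem_univ a)
  simpa using h3

theorem AG2a_ker [DecidableEq B] {Z : Type v} [NormedAddCommGroup Z] [InnerProductSpace ℂ Z]
    (π : Representation ℂ Γ Z) (hπ : ∀ h v, ‖π h v‖ = ‖v‖) (M : A → B → Γ → ℂ) (j : ℕ) :
    ∀ w : B → Z, (AG2a_rho π (AG2a_x M) ^ j) w = 0 → matAct π M w = 0 := by
  induction j with
  | zero =>
    intro w h
    rw [pow_zero, Module.End.one_apply] at h
    funext a
    simp [matAct, h]
  | succ j ih =>
    intro w h
    rw [pow_succ, Module.End.mul_apply] at h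
    have h1 := ih _ h
    have h2 : AG2a_rho π (AG2a_x M) w = 0 := by
      refine AG2a_zero _ ?_
      conv_lhs => enter [2, b, 2]; rw [AG2a_rho_x]
      rw [AG2a_adjoint π hπ, h1]
      simp
    refine AG2a_zero _ ?_
    rw [← AG2a_adjoint π hπ, ← AG2a_rho_x, h2]
    simp

theorem AG2a_poly {R : Type*} [Ring R] [Algebra ℂ R] [Module.Finite ℂ R] (x : R) :
    ∃ (j : ℕ) (r : ℂ[X]), x ^ j * (1 - aeval x r * x) = 0 := by
  obtain ⟨p, hp, hx⟩ : IsIntegral ℂ x := IsIntegral.of_finite ℂ x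
  obtain ⟨q, hq, hnd⟩ := exists_eq_pow_rootMultiplicity_mul_and_not_dvd p hp.ne_zero 0
  rw [map_zero, sub_zero, X_dvd_iff] at hnd
  rw [map_zero, sub_zero] at hq
  refine ⟨rootMultiplicity 0 p, -(C (q.coeff 0)⁻¹ * q.divX), ?_⟩
  have e1 : (1 : ℂ[X]) - -(C (q.coeff 0)⁻¹ * q.divX) * X = C (q.coeff 0)⁻¹ * q := by
    conv_rhs => enter [2]; rw [← divX_mul_X_add q]
    rw [mul_add, ← C_mul, inv_mul_cancel₀ hnd, C_1]
    ring
  have e2 : x ^ rootMultiplicity 0 p * (1 - aeval x (-(C (q.coeff 0)⁻¹ * q.divX)) * x) =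
      aeval x (X ^ rootMultiplicity 0 p * (1 - -(C (q.coeff 0)⁻¹ * q.divX) * X)) := by
    simp only [map_mul, map_pow, map_sub, map_one, aeval_X]
  have e3 : aeval x p = 0 := hx
  rw [e2, e1, mul_left_comm, ← hq, map_mul, e3, mul_zero]

end AG2a

/-- Uniform approximate kernel. Let `M† b a γ = conj (M a b γ⁻¹)` and let `x = M† M` in the finite
dimensional algebra `Matrix B B (MonoidAlgebra ℂ Γ)`. It is integral over `ℂ`: `x ^ j g(x) = 0` with
`g(0) = 1`, `g = 1 - X * r`. The algebra acts on `B → Z` (algebra homomorphism); on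
`PiLp 2 (fun _ : B => Z)` (or with the form `∑ b, ⟪z b, z' b⟫`) `x` satisfies
`⟪x z, z'⟫ = ⟪M z, M z'⟫`, so `x ^ j w = 0` implies `M w = 0`. Take `z' = g(x) z`; then
`z - z' = r(x) M† (M z)`, and `r(x) M†` is a fixed matrix over the group algebra, so its norm is
bounded by the sum of the norms of its coefficients. Families of subspaces preserved by `M† M` are
preserved by `g(x)`. -/
theorem exists_kernel_near {Γ A B : Type*} [Group Γ] [Fintype Γ] [Fintype A] [Fintype B]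
    (M : A → B → Γ → ℂ) : ∃ C : ℝ, 0 ≤ C ∧ ∀ (Z : Type v) [NormedAddCommGroup Z]
      [InnerProductSpace ℂ Z] (π : Representation ℂ Γ Z), (∀ h v, ‖π h v‖ = ‖v‖) →
      ∀ (Y : B → Submodule ℂ Z),
      (∀ a b b' γ γ', M a b γ ≠ 0 → M a b' γ' ≠ 0 → ∀ y ∈ Y b', π (γ⁻¹ * γ') y ∈ Y b) →
      ∀ z : B → Z, (∀ b, z b ∈ Y b) → ∃ z' : B → Z, (∀ b, z' b ∈ Y b) ∧ matAct π M z' = 0 ∧
        ∑ b, ‖z b - z' b‖ ≤ C * ∑ a, ‖matAct π M z a‖ := by
  classical
  obtain ⟨j, r, hr⟩ := AG2a_poly (AG2a_x M)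
  refine ⟨(∑ b, ∑ b', ∑ γ, ‖(Polynomial.aeval (AG2a_x M) r b b').coeff γ‖) *
    ∑ b, ∑ a, ∑ γ, ‖AG2a_adj M b a γ‖, by positivity, fun Z _ _ π hπ Y hY z hz => ?_⟩
  have hT : Submodule.pi Set.univ Y ≤ (Submodule.pi Set.univ Y).comap (AG2a_rho π (AG2a_x M)) := by
    intro w hw b _
    rw [AG2a_rho_x']
    refine Submodule.sum_mem _ fun b' _ => Submodule.sum_mem _ fun a _ =>
      Submodule.sum_mem _ fun γ _ => Submodule.sum_mem _ fun γ' _ => ?_
    by_cases h1 : M a b γ⁻¹ = 0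
    · simp [AG2a_adj, h1]
    by_cases h2 : M a b' γ' = 0
    · simp [h2]
    have := hY a b b' γ⁻¹ γ' h1 h2 (w b') (hw b' trivial)
    rw [inv_inv] at this
    exact Submodule.smul_mem _ _ this
  have hz' : z ∈ Submodule.pi Set.univ Y := fun b _ => hz b
  have hmem : AG2a_rho π (Polynomial.aeval (AG2a_x M) r) (AG2a_rho π (AG2a_x M) z) ∈
      Submodule.pi Set.univ Y := by
    rw [← Polynomial.aeval_algHom_apply]
    exact Polynomial.aeval_apply_smul_mem_of_le_comap (q := Submodule.pi Set.univ Y) (hT hz') r _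
      hT
  refine ⟨z - AG2a_rho π (Polynomial.aeval (AG2a_x M) r) (AG2a_rho π (AG2a_x M) z),
    fun b => Submodule.sub_mem _ hz' hmem b trivial, ?_, ?_⟩
  · refine AG2a_ker π hπ M j _ ?_
    have h := congrArg (fun y => AG2a_rho π y z) hr
    simpa only [map_mul, map_pow, map_sub, map_one, map_zero, Module.End.mul_apply,
      LinearMap.sub_apply, Module.End.one_apply, LinearMap.zero_apply] using h
  · simp only [Pi.sub_apply, sub_sub_cancel]
    rw [AG2a_rho_x, AG2a_rho_mat, mul_assoc]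
    refine (AG2a_norm π hπ _ _).trans (mul_le_mul_of_nonneg_left (AG2a_norm π hπ _ _) ?_)
    positivity

end Pool.Agent.Work.MP_bb5f23_al
end

-- merged part: Pool.Agent.Work.MP_bb5f23_al.AG2
section
/-! The uniform gap. -/

namespace Pool.Agent.Work.MP_bb5f23_al

open scoped InnerProductSpace

universe v

/-- Left translation on `Γ × I`. -/
def AG2_e {Γ : Type*} (I : Type*) [Group Γ] (γ : Γ) : Γ × I ≃ Γ × I :=
  Equiv.prodCongr (Equiv.mulLeft γ) (Equiv.refl I)

theorem AG2_e_map {Γ I Z : Type*} [Group Γ] [AddCommGroup Z] [Module ℂ Z]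
    (π : Representation ℂ Γ Z) (W : I → Submodule ℂ Z) (γ : Γ) (s : Γ × I) :
    (W (AG2_e I γ s).2).map (π (AG2_e I γ s).1) = ((W s.2).map (π s.1)).map (π γ) := by
  rw [← Submodule.map_comp, ← Module.End.mul_eq_comp, ← map_mul]
  rfl

open Classical in
/-- The lifted matrix. -/
noncomputable def AG2_M {Γ I J : Type*} [Group Γ] (h : J → I → Γ → ℂ) (a : J × Finset (Γ × I))
    (b : I × Finset (Γ × I)) (γ : Γ) : ℂ :=
  if (AG2_e I γ).finsetCongr b.2 = a.2 ∧ (1, b.1) ∈ b.2 then h a.1 b.1 γ else 0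

theorem AG2_act {Γ I J Z : Type*} [Group Γ] [Fintype Γ] [Fintype I] [AddCommGroup Z] [Module ℂ Z]
    (π : Representation ℂ Γ Z) (h : J → I → Γ → ℂ) {z : I × Finset (Γ × I) → Z}
    (hz : ∀ i S, (1, i) ∉ S → z (i, S) = 0) (j : J) (S : Finset (Γ × I)) :
    matAct π (AG2_M h) z (j, S) =
      ∑ i, ∑ γ, h j i γ • π γ (z (i, (AG2_e I γ).finsetCongr.symm S)) := by
  rw [matAct, Fintype.sum_prod_type]
  refine Finset.sum_congr rfl fun i _ => ?_
  rw [Finset.sum_comm]
  refine Finset.sum_congr rfl fun γ _ => ?_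
  rw [Finset.sum_eq_single ((AG2_e I γ).finsetCongr.symm S)]
  · by_cases h1 : (1, i) ∈ (AG2_e I γ).finsetCongr.symm S
    · rw [AG2_M, if_pos ⟨Equiv.apply_symm_apply _ _, h1⟩]
    · rw [hz i _ h1, map_zero, smul_zero, smul_zero]
  · intro S' _ hS'
    rw [AG2_M, if_neg, zero_smul]
    rintro ⟨h1, -⟩
    exact hS' ((Equiv.eq_symm_apply _).2 h1)
  · exact fun h => absurd (Finset.mem_univ _) h

theorem AG2_sum {Γ I J Z : Type*} [Group Γ] [Fintype Γ] [Fintype I] [AddCommGroup Z] [Module ℂ Z]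
    (π : Representation ℂ Γ Z) (h : J → I → Γ → ℂ) {z : I × Finset (Γ × I) → Z}
    (hz : ∀ i S, (1, i) ∉ S → z (i, S) = 0) (j : J) :
    ∑ S, matAct π (AG2_M h) z (j, S) = matAct π h (fun i => ∑ S, z (i, S)) j := by
  simp only [AG2_act π h hz]
  rw [matAct, Finset.sum_comm]
  refine Finset.sum_congr rfl fun i _ => ?_
  rw [Finset.sum_comm]
  refine Finset.sum_congr rfl fun γ _ => ?_
  rw [← Finset.smul_sum, ← map_sum,
    Equiv.sum_comp (AG2_e I γ).finsetCongr.symm fun S => z (i, S)]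

theorem AG2_sub {Γ I J Z : Type*} [Group Γ] [Fintype Γ] [Fintype I] [AddCommGroup Z] [Module ℂ Z]
    (π : Representation ℂ Γ Z) (h : J → I → Γ → ℂ) (y y' : I → Z) :
    matAct π h (y - y') = matAct π h y - matAct π h y' := by
  funext j
  simp only [matAct, Pi.sub_apply, map_sub, smul_sub, Finset.sum_sub_distrib]

/-- Let `𝒯 = Γ × I`, `Ω = Finset 𝒯` with `Γ` acting by left translation, `A = J × Ω`, `B = I × Ω`,
`M (j, S) (i, S') γ = if γ • S' = S ∧ (1, i) ∈ S' then h j i γ else 0`,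
`Y (i, S') = if (1, i) ∈ S' then ⨅ s ∈ S', W s else ⊥`, and
`z (i, S') = if (1, i) ∈ S' then mob S' (y i) else 0`. By `mob_equiv`, `mob_sum`, `norm_mob_le`,
`‖matAct M z (j, S) - mob S (h y j)‖ ≤ C ε ∑ ‖y i‖`. With `z'` from `exists_kernel_near`,
`y' i = ∑ S', z' (i, S')` lies in `W i`, satisfies `h y' = 0` (sum `matAct M z' (j, S)` over `S`) and
`∑ ‖y i - y' i‖ ≤ C' (∑ ‖h y j‖ + ε ∑ ‖y i‖)` (`sum_mob`). -/
theorem kernel_near {Γ I J : Type*} [Group Γ] [Fintype Γ] [Fintype I] [Fintype J]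
    (h : J → I → Γ → ℂ) : ∃ C : ℝ, 0 ≤ C ∧ ∀ (Z : Type v) [NormedAddCommGroup Z]
      [InnerProductSpace ℂ Z] [FiniteDimensional ℂ Z] (π : Representation ℂ Γ Z),
      (∀ g v, ‖π g v‖ = ‖v‖) → ∀ (W : I → Submodule ℂ Z) (ε : ℝ), 0 ≤ ε →
      AlmostOrth (fun s : Γ × I => (W s.2).map (π s.1)) ε → ∀ y : I → Z, (∀ i, y i ∈ W i) →
      ∃ y' : I → Z, (∀ i, y' i ∈ W i) ∧ matAct π h y' = 0 ∧
        ∑ i, ‖y i - y' i‖ ≤ C * (∑ j, ‖matAct π h y j‖ + ε * ∑ i, ‖y i‖) := by
  classical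
  obtain ⟨C0, hC0, H⟩ := exists_kernel_near.{v} (AG2_M h)
  set K : ℝ := 2 ^ Fintype.card (Γ × I) with hK
  set Ω : ℝ := ((Fintype.card (Finset (Γ × I)) : ℕ) : ℝ) with hΩ
  set Hs : ℝ := ∑ j, ∑ i, ∑ γ, ‖h j i γ‖ with hHs
  have hK0 : 0 ≤ K := by positivity
  have hΩ0 : 0 ≤ Ω := by positivity
  have hH0 : 0 ≤ Hs := by positivity
  refine ⟨Ω * K * (1 + C0 * (1 + Hs)), by positivity, ?_⟩
  intro Z _ _ _ π hπ W ε hε hW y hy
  set 𝒲 : Γ × I → Submodule ℂ Z := fun s => (W s.2).map (π s.1) with h𝒲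
  have hone : ∀ i, 𝒲 (1, i) = W i := fun i => by
    simp only [h𝒲, map_one, Module.End.one_eq_id, Submodule.map_id]
  have he : ∀ γ s, 𝒲 (AG2_e I γ s) = (𝒲 s).map (π γ) := fun γ s => AG2_e_map π W γ s
  let Y : I × Finset (Γ × I) → Submodule ℂ Z := fun b =>
    if (1, b.1) ∈ b.2 then ⨅ s ∈ b.2, 𝒲 s else ⊥
  let z : I × Finset (Γ × I) → Z := fun b => if (1, b.1) ∈ b.2 then mob 𝒲 b.2 (y b.1) else 0
  have hz0 : ∀ i S, (1, i) ∉ S → z (i, S) = 0 := fun i S hS => if_neg hS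
  obtain ⟨z', hz'Y, hz'0, hz'⟩ := H Z π hπ Y (by
    intro a b b' γ γ' h1 h2 w hw
    have k1 : (AG2_e I γ).finsetCongr b.2 = a.2 ∧ (1, b.1) ∈ b.2 := by
      by_contra hc
      exact h1 (if_neg hc)
    have k2 : (AG2_e I γ').finsetCongr b'.2 = a.2 ∧ (1, b'.1) ∈ b'.2 := by
      by_contra hc
      exact h2 (if_neg hc)
    simp only [Y, if_pos k1.2, if_pos k2.2, Submodule.mem_iInf] at hw ⊢
    intro s hs
    have : AG2_e I γ s ∈ (AG2_e I γ').finsetCongr b'.2 := by
      rw [k2.1, ← k1.1]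
      exact Finset.mem_map_of_mem _ hs
    obtain ⟨s', hs', e⟩ := Finset.mem_map.1 this
    have e' : s = AG2_e I (γ⁻¹ * γ') s' := by
      have e1 : γ' * s'.1 = γ * s.1 := congrArg Prod.fst e
      have e2 : s'.2 = s.2 := (Prod.ext_iff.1 e).2
      refine Prod.ext ?_ e2.symm
      change s.1 = γ⁻¹ * γ' * s'.1
      rw [mul_assoc, e1, inv_mul_cancel_left]
    rw [e', he]
    exact Submodule.mem_map_of_mem (hw s' hs')) z (by
    intro b
    by_cases hb : (1, b.1) ∈ b.2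
    · simp only [Y, z, if_pos hb]
      exact mob_mem 𝒲 _ _
    · simp only [z, if_neg hb]
      exact zero_mem _)
  have hz'1 : ∀ i S, (1, i) ∉ S → z' (i, S) = 0 := fun i S hS => by
    have := hz'Y (i, S)
    simp only [Y, if_neg hS] at this
    exact this
  set ny : ℝ := ∑ i, ‖y i‖ with hny
  have hny0 : 0 ≤ ny := by positivity
  have hle : ∀ i, ‖y i‖ ≤ ny := fun i =>
    Finset.single_le_sum (f := fun i => ‖y i‖) (fun _ _ => norm_nonneg _) (Finset.mem_univ i)
  have herr : ∀ i S, ‖z (i, S) - mob 𝒲 S (y i)‖ ≤ K * ε * ‖y i‖ := fun i S => by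
    by_cases hS : (1, i) ∈ S
    · simp only [z, if_pos hS, sub_self, norm_zero]
      positivity
    · rw [hz0 i S hS, zero_sub, norm_neg]
      exact norm_mob_le 𝒲 hε hW hS (by rw [hone]; exact hy i)
  have hact : ∀ j S, ‖matAct π (AG2_M h) z (j, S)‖ ≤
      K * ‖matAct π h y j‖ + (∑ i, ∑ γ, ‖h j i γ‖) * (K * ε * ny) := fun j S => by
    have e1 : mob 𝒲 S (matAct π h y j) =
        ∑ i, ∑ γ, h j i γ • π γ (mob 𝒲 ((AG2_e I γ).finsetCongr.symm S) (y i)) := by
      rw [matAct, ← Fintype.sum_prod_type', mob_sum, Fintype.sum_prod_type]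
      refine Finset.sum_congr rfl fun i _ => Finset.sum_congr rfl fun γ _ => ?_
      rw [← mob_equiv 𝒲 (π γ) (hπ γ) (AG2_e I γ) (he γ), ← Equiv.finsetCongr_apply,
        Equiv.apply_symm_apply]
    have e2 : matAct π (AG2_M h) z (j, S) = mob 𝒲 S (matAct π h y j) +
        ∑ i, ∑ γ, h j i γ • π γ (z (i, (AG2_e I γ).finsetCongr.symm S) -
          mob 𝒲 ((AG2_e I γ).finsetCongr.symm S) (y i)) := by
      rw [AG2_act π h hz0, e1]
      simp only [map_sub, smul_sub, Finset.sum_sub_distrib, add_sub_cancel]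
    rw [e2]
    refine (norm_add_le _ _).trans (add_le_add (norm_mob_le' 𝒲 S _) ?_)
    rw [Finset.sum_mul]
    refine norm_sum_le_of_le _ fun i _ => ?_
    rw [Finset.sum_mul]
    refine norm_sum_le_of_le _ fun γ _ => ?_
    rw [norm_smul, hπ]
    exact mul_le_mul_of_nonneg_left ((herr i _).trans
      (mul_le_mul_of_nonneg_left (hle i) (mul_nonneg hK0 hε))) (norm_nonneg _)
  set A : ℝ := ∑ j, ‖matAct π h y j‖ with hA
  have hA0 : 0 ≤ A := by positivity
  have htot : ∑ a, ‖matAct π (AG2_M h) z a‖ ≤ Ω * (K * A + Hs * (K * ε * ny)) := by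
    rw [Fintype.sum_prod_type, Finset.sum_comm]
    refine (Finset.sum_le_sum fun S _ => Finset.sum_le_sum fun j _ => hact j S).trans_eq ?_
    rw [Finset.sum_const, Finset.card_univ, nsmul_eq_mul, Finset.sum_add_distrib,
      ← Finset.mul_sum, ← Finset.sum_mul]
  refine ⟨fun i => ∑ S, z' (i, S), fun i => Submodule.sum_mem _ fun S _ => ?_, ?_, ?_⟩
  · by_cases hS : (1, i) ∈ S
    · have := hz'Y (i, S)
      simp only [Y, if_pos hS, Submodule.mem_iInf] at this
      exact hone i ▸ this _ hS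
    · rw [hz'1 i S hS]
      exact zero_mem _
  · funext j
    rw [← AG2_sum π h hz'1, hz'0]
    simp
  · have e3 : ∀ i, ‖y i - ∑ S, z' (i, S)‖ ≤
        Ω * (K * ε * ‖y i‖) + ∑ S, ‖z (i, S) - z' (i, S)‖ := fun i => by
      conv_lhs => rw [← sum_mob 𝒲 (y i), ← Finset.sum_sub_distrib]
      refine (norm_sum_le_of_le _ (n := fun S => K * ε * ‖y i‖ + ‖z (i, S) - z' (i, S)‖)
        fun S _ => ?_).trans_eq ?_
      · refine (norm_sub_le_norm_sub_add_norm_sub _ (z (i, S)) _).trans (add_le_add ?_ le_rfl)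
        rw [norm_sub_rev]
        exact herr i S
      · rw [Finset.sum_add_distrib, Finset.sum_const, Finset.card_univ, nsmul_eq_mul]
    refine (Finset.sum_le_sum fun i _ => e3 i).trans ?_
    rw [Finset.sum_add_distrib, ← Finset.mul_sum, ← Finset.mul_sum,
      ← Fintype.sum_prod_type (f := fun b => ‖z b - z' b‖)]
    have h1 := hz'.trans (mul_le_mul_of_nonneg_left htot hC0)
    have h2 : 0 ≤ Ω * K * (A + C0 * (Hs * A) + C0 * (ε * ny)) := by positivity
    rw [← hny]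
    linarith

/-- Among the solutions `y''` (a closed affine subspace of a finite dimensional space) take one of
least `∑ i, ‖y'' i‖` (or iterate `kernel_near` geometrically); by `kernel_near`
`∑ ‖y'' i‖ ≤ ∑ ‖y'' i - y' i‖ ≤ C (∑ ‖h y j‖ + ε ∑ ‖y'' i‖)`; choose `C ε ≤ 1 / 2`. -/
theorem uniform_gap {Γ I J : Type*} [Group Γ] [Fintype Γ] [Fintype I] [Fintype J]
    (h : J → I → Γ → ℂ) : ∃ ε C : ℝ, 0 < ε ∧ ∀ (Z : Type v) [NormedAddCommGroup Z]
      [InnerProductSpace ℂ Z] [FiniteDimensional ℂ Z] (π : Representation ℂ Γ Z),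
      (∀ g v, ‖π g v‖ = ‖v‖) → ∀ (W : I → Submodule ℂ Z),
      AlmostOrth (fun s : Γ × I => (W s.2).map (π s.1)) ε → ∀ y : I → Z, (∀ i, y i ∈ W i) →
      ∃ y' : I → Z, (∀ i, y' i ∈ W i) ∧ matAct π h y' = matAct π h y ∧
        ∑ i, ‖y' i‖ ≤ C * ∑ j, ‖matAct π h y j‖ := by
  obtain ⟨C, hC, H⟩ := kernel_near.{v} h
  refine ⟨1 / (2 * (C + 1)), 2 * C + 2, by positivity, ?_⟩
  intro Z _ _ _ π hπ W hW y hy
  set A : ℝ := ∑ j, ‖matAct π h y j‖ with hA
  rcases (show 0 ≤ A by positivity).eq_or_lt with hA0 | hA0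
  · refine ⟨0, fun i => zero_mem _, ?_, by simp [← hA0]⟩
    funext j
    have := (Finset.sum_eq_zero_iff_of_nonneg fun j _ => norm_nonneg (matAct π h y j)).1
      (hA.symm.trans hA0.symm) j (Finset.mem_univ j)
    rw [norm_eq_zero.1 this]
    simp [matAct]
  let T : Set ℝ := {r | ∃ y' : I → Z, (∀ i, y' i ∈ W i) ∧ matAct π h y' = matAct π h y ∧
    ∑ i, ‖y' i‖ = r}
  have hT : BddBelow T := ⟨0, by
    rintro _ ⟨y', -, -, rfl⟩
    positivity⟩
  obtain ⟨_, ⟨y1, h1, h2, rfl⟩, h3⟩ :=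
    Real.lt_sInf_add_pos (s := T) ⟨_, y, hy, rfl, rfl⟩ hA0
  obtain ⟨y', k1, k2, k3⟩ := H Z π hπ W _ (by positivity) hW y1 h1
  have h4 : sInf T ≤ ∑ i, ‖y1 i - y' i‖ :=
    csInf_le hT ⟨y1 - y', fun i => sub_mem (h1 i) (k1 i), by rw [AG2_sub, k2, sub_zero, h2], rfl⟩
  rw [h2, ← hA] at k3
  refine ⟨y1, h1, h2, ?_⟩
  have h5 : C * (1 / (2 * (C + 1))) ≤ 1 / 2 := by
    rw [mul_one_div, div_le_iff₀ (by positivity)]
    linarith
  have h6 := mul_le_mul_of_nonneg_right h5 (show 0 ≤ ∑ i, ‖y1 i‖ by positivity)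
  linarith

end Pool.Agent.Work.MP_bb5f23_al
end

-- merged part: Pool.Agent.Work.MP_bb5f23_al.KL1
section
/-! Bounded solutions at large levels. -/

namespace Pool.Agent.Work.MP_bb5f23_al

universe u

variable {F : Type} [Field F] [IsAlgClosed F] [IsFbar F] {G : Type u} [Group G] {X : Type u}
  [MulAction G X]

/-- The `ℓ²` norm squared. -/
noncomputable def nsq {X : Type*} (y : X →₀ ℂ) : ℝ := y.sum fun _ a => ‖a‖ ^ 2

omit [Field F] [IsAlgClosed F] [IsFbar F] in
theorem KL1_rep_apply (c : Cocycle ℂ G X) (g : G) (y : X →₀ ℂ) (x : X) :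
    c.rep g y (g • x) = c.c g x * y x := by
  classical
  induction y using Finsupp.induction_linear with
  | zero => simp
  | add a b ha hb => simp only [map_add, Finsupp.add_apply, ha, hb, mul_add]
  | single a b =>
    rw [c.rep_single, Finsupp.single_apply, Finsupp.single_apply]
    by_cases h : a = x
    · subst h
      simp
    · rw [if_neg h, if_neg fun h' => h (MulAction.injective g h'), mul_zero]

omit [Field F] [IsAlgClosed F] [IsFbar F] in
/-- A finite dimensional unitary model of the monomial representation of a finite subgroup. -/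
theorem KL1_model (c : Cocycle ℂ G X) (hc : ∀ g x, ‖(c.c g x : ℂ)‖ = 1) (H : Subgroup G)
    (hH : (H : Set G).Finite) (S : Finset X) :
    ∃ (Z : Type u) (_ : NormedAddCommGroup Z) (_ : InnerProductSpace ℂ Z)
      (_ : FiniteDimensional ℂ Z) (π : Representation ℂ H Z) (e : Z →ₗ[ℂ] (X →₀ ℂ)),
      Function.Injective e ∧ (∀ (g : H) v, e (π g v) = c.rep g (e v)) ∧
      (∀ v, nsq (e v) = ‖v‖ ^ 2) ∧ (∀ g v, ‖π g v‖ = ‖v‖) ∧
      ∀ y : X →₀ ℂ, y.support ⊆ S → ∃ v, e v = y := by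
  classical
  have hfin : (Set.image2 (fun (g : G) (x : X) => g • x) H S).Finite :=
    hH.image2 _ S.finite_toSet
  set O : Finset X := hfin.toFinset with hO
  have hOs : ∀ g ∈ H, ∀ x ∈ O, g • x ∈ O := by
    intro g hg x hx
    rw [hO, Set.Finite.mem_toFinset] at hx ⊢
    obtain ⟨k, hk, x', hx', rfl⟩ := hx
    exact ⟨g * k, H.mul_mem hg hk, x', hx', mul_smul g k x'⟩
  have hSO : S ⊆ O := by
    intro x hx
    rw [hO, Set.Finite.mem_toFinset]
    exact ⟨1, H.one_mem, x, hx, one_smul G x⟩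
  let e : EuclideanSpace ℂ O →ₗ[ℂ] (X →₀ ℂ) :=
    { toFun := fun v => ∑ o : O, Finsupp.single (o : X) (v o)
      map_add' := fun v w => by
        simp only [PiLp.add_apply, Finsupp.single_add, Finset.sum_add_distrib]
      map_smul' := fun a v => by
        simp only [PiLp.smul_apply, RingHom.id_apply, Finset.smul_sum, Finsupp.smul_single] }
  let rs : (X →₀ ℂ) →ₗ[ℂ] EuclideanSpace ℂ O :=
    { toFun := fun y => WithLp.toLp 2 fun o : O => y o
      map_add' := fun _ _ => rfl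
      map_smul' := fun _ _ => rfl }
  have rs_apply : ∀ (y : X →₀ ℂ) (o : O), rs y o = y o := fun _ _ => rfl
  have e_in : ∀ (v : EuclideanSpace ℂ O) (o : O), e v o = v o := by
    intro v o
    change (∑ o : O, Finsupp.single (o : X) (v o)) (o : X) = _
    rw [Finsupp.finsetSum_apply, Finset.sum_eq_single o]
    · simp
    · intro o' _ h
      exact Finsupp.single_eq_of_ne fun h' => h (Subtype.ext h'.symm)
    · simp
  have e_out : ∀ (v : EuclideanSpace ℂ O) (x : X), x ∉ O → e v x = 0 := by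
    intro v x hx
    change (∑ o : O, Finsupp.single (o : X) (v o)) x = _
    rw [Finsupp.finsetSum_apply]
    exact Finset.sum_eq_zero fun o _ => Finsupp.single_eq_of_ne fun h' => hx (h' ▸ o.2)
  have e_rs : ∀ y : X →₀ ℂ, (∀ x, x ∉ O → y x = 0) → e (rs y) = y := by
    intro y hy
    ext x
    by_cases hx : x ∈ O
    · exact e_in (rs y) ⟨x, hx⟩
    · rw [e_out _ _ hx, hy x hx]
  have e_inj : Function.Injective e := by
    intro v w h
    ext o
    rw [← e_in, h, e_in]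
  have key : ∀ g ∈ H, ∀ v, e (rs (c.rep g (e v))) = c.rep g (e v) := by
    intro g hg v
    refine e_rs _ fun x hx => ?_
    rw [← smul_inv_smul g x, KL1_rep_apply, e_out, mul_zero]
    intro h
    have := hOs g hg _ h
    rw [smul_inv_smul] at this
    exact hx this
  let π : Representation ℂ H (EuclideanSpace ℂ O) :=
    { toFun := fun g => rs ∘ₗ c.rep g ∘ₗ e
      map_one' := by
        ext1 v
        apply e_inj
        simp only [LinearMap.comp_apply]
        rw [key _ (1 : H).2]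
        simp
      map_mul' := fun g k => by
        ext1 v
        apply e_inj
        simp only [LinearMap.comp_apply, Module.End.mul_apply]
        rw [key _ (g * k).2, key _ g.2, key _ k.2]
        simp }
  refine ⟨EuclideanSpace ℂ O, inferInstance, inferInstance, inferInstance, π, e, e_inj,
    fun g v => key g g.2 v, fun v => ?_, fun g v => ?_,
    fun y hy => ⟨rs y, e_rs y fun x hx => Finsupp.notMem_support_iff.1 fun h => hx (hSO (hy h))⟩⟩
  · rw [nsq, Finsupp.sum_of_support_subset _ (s := O) (fun x hx => by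
      by_contra h
      exact Finsupp.mem_support_iff.1 hx (e_out v x h)) _ (by simp), EuclideanSpace.norm_sq_eq,
      ← Finset.sum_coe_sort]
    simp only [e_in]
  · let σ : O ≃ O :=
      { toFun := fun o => ⟨(g : G) • (o : X), hOs _ g.2 _ o.2⟩
        invFun := fun o => ⟨(g : G)⁻¹ • (o : X), hOs _ (H.inv_mem g.2) _ o.2⟩
        left_inv := fun o => Subtype.ext (inv_smul_smul _ _)
        right_inv := fun o => Subtype.ext (smul_inv_smul _ _) }
    rw [EuclideanSpace.norm_eq, EuclideanSpace.norm_eq, ← σ.sum_comp]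
    congr 1
    refine Finset.sum_congr rfl fun o _ => ?_
    have : π g v (σ o) = c.rep g (e v) ((g : G) • (o : X)) := rfl
    rw [this, KL1_rep_apply, norm_mul, hc, one_mul, e_in]

theorem KL1_eigsp_conj {Γ H Z : Type*} [CommGroup Γ] [Group H] [NormedAddCommGroup Z]
    [InnerProductSpace ℂ Z] (π : Representation ℂ H Z) (t : Γ →* H) (χ : Γ →* ℂ) (g : H) :
    eigsp π ((MulAut.conj g).toMonoidHom.comp t) χ = (eigsp π t χ).map (π g) := by
  have hm : ∀ (a b : H) (v : Z), π a (π b v) = π (a * b) v := fun a b v => by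
    rw [map_mul, Module.End.mul_apply]
  ext v
  constructor
  · intro hv
    refine ⟨π g⁻¹ v, fun z => ?_, by rw [hm, mul_inv_cancel, map_one, Module.End.one_apply]⟩
    have h1 : π (g * t z * g⁻¹) v = χ z • v := hv z
    rw [← map_smul, ← h1, hm, hm]
    congr 2
    group
  · rintro ⟨w, hw, rfl⟩ z
    have h1 : π (t z) w = χ z • w := hw z
    change π (g * t z * g⁻¹) (π g w) = _
    rw [← map_smul, ← h1, hm, hm]
    congr 2
    group

theorem KL1_lc {G V : Type*} [Group G] [AddCommGroup V] [Module ℂ V] (ρ : Representation ℂ G V)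
    (Γ : Subgroup G) [Fintype Γ] (v : V) (a : G →₀ ℂ) (ha : ∀ g ∈ a.support, g ∈ Γ) :
    lc ρ v a = ∑ γ : Γ, a γ • ρ γ v := by
  rw [lc, Finsupp.linearCombination_apply, Finsupp.sum_of_support_subset _
    (s := Finset.univ.map (Function.Embedding.subtype (· ∈ Γ))) (fun g hg =>
      Finset.mem_map.2 ⟨⟨g, ha g hg⟩, Finset.mem_univ _, rfl⟩) _ (by simp), Finset.sum_map]
  rfl

/-- A bounded solution at every large level. Let `p` be the characteristic, `m0` a level
containing the supports of `h` (`exists_level`), `Γ = fixSub rho (iterateFrobenius F p m0)`,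
`𝒯 = Γ × I`, `a (γ, i) = rho γ`, `b (γ, i) = rho γ⁻¹`, `κ = p ^ m0`. Get `ε, C` from `uniform_gap`
(for `h j i` restricted to `Γ`), `π0` from `almost_orth`, and `m, A` from `exists_big_level` for
`max π0 π1`. Let `H = fixSub rho (iterateFrobenius F p m)`; it contains `Γ` and `tau z` for `z` with
values in `A`. Let `O` be a finite `H`-stable set containing the supports of the given `y' i`,
`Z = EuclideanSpace ℂ O` with the unitary representation of `H` given by the cocycle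
(`(π g f) x = c g (g⁻¹ • x) * f (g⁻¹ • x)`), `t (γ, i) z = γ * tau z * γ⁻¹`, `χ (γ, i) = θ i`; the
eigenspace of `(γ, i)` is the image under `π γ` of that of `(1, i)`. -/
theorem bounded_solution {ι : Type} [Fintype ι] [DecidableEq ι] {r : ℕ}
    (rho : G →* Matrix ι ι F) (hrho : Function.Injective rho) (tau : (Fin r → Fˣ) →* G)
    (wt : ι → Fin r → ℕ)
    (htau : ∀ z, rho (tau z) = Matrix.diagonal fun i => ∏ l, (z l : F) ^ wt i l)
    (c : Cocycle ℂ G X) (hc : ∀ g x, ‖(c.c g x : ℂ)‖ = 1) {I J : Type} [Fintype I] [Fintype J]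
    (h : J → I → G →₀ ℂ) (θ : I → ((Fin r → Fˣ) →* ℂ)) (y : J → X →₀ ℂ)
    (hy : ∀ A : Subgroup Fˣ, Finite A → ∃ y' : I → X →₀ ℂ,
      (∀ i z, (∀ l, z l ∈ A) → c.rep (tau z) (y' i) = θ i z • y' i) ∧
      ∀ j, ∑ i, lc c.rep (y' i) (h j i) = y j) :
    ∃ C : ℝ, ∀ π1 : ℕ, ∃ (A : Subgroup Fˣ), Finite A ∧ 1 < Nat.card A ∧
      (∀ l : ℕ, l.Prime → l ∣ Nat.card A → π1 ≤ l) ∧ ∃ y' : I → X →₀ ℂ,
      (∀ i z, (∀ l, z l ∈ A) → c.rep (tau z) (y' i) = θ i z • y' i) ∧
      (∀ j, ∑ i, lc c.rep (y' i) (h j i) = y j) ∧ ∀ i, nsq (y' i) ≤ C := by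
  classical
  obtain ⟨p, hp, hchar, hfin⟩ := IsFbar.exists_prime (F := F)
  have : Fact p.Prime := ⟨hp⟩
  have := hchar
  obtain ⟨m0, hm0, hS⟩ := exists_level p hfin rho
    (S := ⋃ j, ⋃ i, ((h j i).support : Set G))
    (Set.finite_iUnion fun j => Set.finite_iUnion fun i => Finset.finite_toSet _)
  set Γ := fixSub rho (iterateFrobenius F p m0) with hΓ
  have : Finite Γ := fixSub_finite p hm0 rho hrho
  let _ : Fintype Γ := Fintype.ofFinite Γ
  have hsupp : ∀ j i, ∀ g ∈ (h j i).support, g ∈ Γ := fun j i g hg =>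
    hS (Set.mem_iUnion.2 ⟨j, Set.mem_iUnion.2 ⟨i, hg⟩⟩)
  obtain ⟨ε, C, hε, hgap⟩ := uniform_gap.{u} (Γ := Γ) fun j i γ => h j i γ
  obtain ⟨π0, hπ0⟩ := almost_orth.{u, u} wt (fun s : Γ × I => rho s.1)
    (fun s : Γ × I => rho (s.1 : G)⁻¹)
    (fun s => by rw [← map_mul, mul_inv_cancel, map_one]) (p ^ m0) hε
  refine ⟨(C * ∑ j, Real.sqrt (nsq (y j))) ^ 2, fun π1 => ?_⟩
  obtain ⟨m, A, hm, hdvd, hA, hAfix, hcard, hprime, hpm⟩ :=
    exists_big_level (F := F) p hm0 (max (max π0 π1) 2)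
  refine ⟨A, hA, by omega, fun l hl hd => by have := hprime l hl hd; omega, ?_⟩
  set H := fixSub rho (iterateFrobenius F p m) with hH
  have hHfin : (H : Set G).Finite := fixSub_finite p hm rho hrho
  have : Finite H := hHfin
  have hΓH : Γ ≤ H := fun g hg =>
    (mem_fixSub _ _ _).2 fun i j => fix_frob_dvd p hdvd ((mem_fixSub _ _ _).1 hg i j)
  have htH : ∀ z : Fin r → Fˣ, (∀ l, z l ∈ A) → tau z ∈ H := by
    intro z hz
    refine (mem_fixSub _ _ _).2 fun i j => ?_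
    rw [htau, Matrix.diagonal_apply]
    split_ifs
    · rw [map_prod]
      exact Finset.prod_congr rfl fun l _ => by rw [map_pow, hAfix _ (hz l)]
    · exact map_zero _
  let inc : (Fin r → A) →* (Fin r → Fˣ) := MonoidHom.compLeft A.subtype (Fin r)
  let t0 : (Fin r → A) →* H := (tau.comp inc).codRestrict H fun z => htH _ fun l => (z l).2
  let L : Lev wt (fun s : Γ × I => rho s.1) (fun s : Γ × I => rho (s.1 : G)⁻¹) (p ^ m0) π0 H :=
    { A := A
      finA := hA
      cardA := by omega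
      primeA := fun l hl hd => by have := hprime l hl hd; omega
      K := (fix_frob_finite (F := F) p hm).1.toFinset
      cardK := by
        rw [← Set.ncard_eq_toFinset_card _ (fix_frob_finite (F := F) p hm).1]
        exact (fix_frob_finite (F := F) p hm).2.trans hpm
      rho := rho.comp H.subtype
      inj := hrho.comp H.subtype_injective
      entries := fun g i j => by
        rw [Set.Finite.mem_toFinset]
        exact (mem_fixSub _ _ _).1 g.2 i j
      t := fun s => (MulAut.conj (Subgroup.inclusion hΓH s.1)).toMonoidHom.comp t0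
      rho_t := fun s z => by
        change rho ((s.1 : G) * tau (inc z) * (s.1 : G)⁻¹) = _
        rw [map_mul, map_mul, htau]
        rfl }
  obtain ⟨y0, hy0, hy0s⟩ := hy A hA
  obtain ⟨Z, _, _, _, π, e, e_inj, e_rep, e_nsq, hπ, e_surj⟩ :=
    KL1_model c hc H hHfin (Finset.univ.biUnion fun i => (y0 i).support)
  choose v hv using fun i => e_surj (y0 i)
    (Finset.subset_biUnion_of_mem (fun i => (y0 i).support) (Finset.mem_univ i))
  let πΓ : Representation ℂ Γ Z := π.comp (Subgroup.inclusion hΓH)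
  let W : I → Submodule ℂ Z := fun i => eigsp π t0 ((θ i).comp inc)
  have hAO : AlmostOrth (fun s : Γ × I => (W s.2).map (πΓ s.1)) ε := by
    have h1 := hπ0 H L Z π hπ fun s => (θ s.2).comp inc
    have h2 : (fun s : Γ × I => eigsp π (L.t s) ((θ s.2).comp inc)) =
        fun s : Γ × I => (W s.2).map (πΓ s.1) :=
      funext fun s => KL1_eigsp_conj π t0 ((θ s.2).comp inc) (Subgroup.inclusion hΓH s.1)
    exact h2 ▸ h1
  have hvW : ∀ i, v i ∈ W i := by
    intro i z
    apply e_inj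
    rw [e_rep, map_smul, hv]
    exact hy0 i (inc z) fun l => (z l).2
  have hmat : ∀ (w : I → Z) j, e (matAct πΓ (fun j i γ => h j i γ) w j) =
      ∑ i, lc c.rep (e (w i)) (h j i) := by
    intro w j
    simp only [matAct, map_sum, map_smul]
    refine Finset.sum_congr rfl fun i _ => ?_
    rw [KL1_lc c.rep Γ _ _ (hsupp j i)]
    exact Finset.sum_congr rfl fun γ _ => congrArg _ (e_rep (Subgroup.inclusion hΓH γ) (w i))
  obtain ⟨w, hw, hwm, hwn⟩ := hgap Z πΓ (fun g x => hπ _ x) W hAO v hvW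
  have hmv : ∀ j, e (matAct πΓ (fun j i γ => h j i γ) v j) = y j := by
    intro j
    rw [hmat, ← hy0s j]
    simp only [hv]
  refine ⟨fun i => e (w i), fun i z hz => ?_, fun j => ?_, fun i => ?_⟩
  · have h1 : π (t0 fun l => ⟨z l, hz l⟩) (w i) = θ i z • w i := hw i _
    rw [← map_smul, ← h1, e_rep]
    rfl
  · rw [← hmat, hwm, hmv]
  · have h1 : ∀ j, ‖matAct πΓ (fun j i γ => h j i γ) v j‖ = Real.sqrt (nsq (y j)) := by
      intro j
      rw [← hmv j, e_nsq, Real.sqrt_sq (norm_nonneg _)]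
    simp only [h1] at hwn
    rw [e_nsq]
    exact pow_le_pow_left₀ (norm_nonneg _)
      ((Finset.single_le_sum (fun k _ => norm_nonneg (w k)) (Finset.mem_univ i)).trans hwn) 2

end Pool.Agent.Work.MP_bb5f23_al
end
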