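import Mathlib

/-! The base of a root system determined by a regular cocharacter. -/

namespace Pool.Agent.Work.MP_bb5f23_al.Lit

variable {r : ℕ} {Φ : Finset (Fin r → ℤ)} {co : (Fin r → ℤ) → Fin r → ℤ}

/-- The form `b ν ν' = ∑ γ ∈ Φ, (γ ⬝ᵥ ν) * (γ ⬝ᵥ ν')` is invariant under the reflections
`ν ↦ ν - (α ⬝ᵥ ν) • co α` (the reflection is an involution permuting `Φ`), which gives
`2 * b (co α) ν = (α ⬝ᵥ ν) * b (co α) (co α)`, and `b (co α) (co α) > 0`. -/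
theorem two_mul_form (h2 : ∀ α ∈ Φ, α ⬝ᵥ co α = 2)
    (hs : ∀ α ∈ Φ, ∀ β ∈ Φ, β - (β ⬝ᵥ co α) • α ∈ Φ) {α : Fin r → ℤ} (hα : α ∈ Φ)
    (ν : Fin r → ℤ) : 2 * ∑ γ ∈ Φ, (γ ⬝ᵥ co α) * (γ ⬝ᵥ ν) =
      (α ⬝ᵥ ν) * ∑ γ ∈ Φ, (γ ⬝ᵥ co α) * (γ ⬝ᵥ co α) := by
  have hinv : ∀ γ : Fin r → ℤ,
      γ - (γ ⬝ᵥ co α) • α - ((γ - (γ ⬝ᵥ co α) • α) ⬝ᵥ co α) • α = γ := fun γ => by
    rw [sub_dotProduct, smul_dotProduct, h2 α hα, smul_eq_mul]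
    module
  have h1 : ∑ γ ∈ Φ, (γ ⬝ᵥ co α) * (γ ⬝ᵥ ν) = ∑ γ ∈ Φ,
      ((γ - (γ ⬝ᵥ co α) • α) ⬝ᵥ co α) * ((γ - (γ ⬝ᵥ co α) • α) ⬝ᵥ ν) :=
    Finset.sum_nbij' (fun γ => γ - (γ ⬝ᵥ co α) • α) (fun γ => γ - (γ ⬝ᵥ co α) • α)
      (fun γ hγ => hs α hα γ hγ) (fun γ hγ => hs α hα γ hγ) (fun γ _ => hinv γ)
      (fun γ _ => hinv γ) fun γ _ => by rw [hinv]
  rw [two_mul]
  nth_rewrite 2 [h1]
  rw [← Finset.sum_add_distrib, Finset.mul_sum]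
  refine Finset.sum_congr rfl fun γ _ => ?_
  simp only [sub_dotProduct, smul_dotProduct, h2 α hα, smul_eq_mul]
  ring

theorem LitBase_pos (h2 : ∀ α ∈ Φ, α ⬝ᵥ co α = 2) {α : Fin r → ℤ} (hα : α ∈ Φ) :
    0 < ∑ γ ∈ Φ, (γ ⬝ᵥ co α) * (γ ⬝ᵥ co α) :=
  Finset.sum_pos' (fun _ _ => mul_self_nonneg _) ⟨α, hα, by rw [h2 α hα]; norm_num⟩

/-- `α ⬝ᵥ co β` and `β ⬝ᵥ co α` have the same sign and their product is at most `4`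
(Cauchy-Schwarz, `Finset.sum_mul_sq_le_sq_mul_sq`). If the product is `4` then with
`P = α ⬝ᵥ co β`, `N α = b (co α) (co α)`, the vector `ν = 2 • co β - P • co α` has `b ν ν = 0`, so
`b ν ν' = 0` for all `ν'`, so `α`, `β` are proportional (`two_mul_form`), contradicting `hred`.
Otherwise one of the two numbers is `1`. -/
theorem sub_mem_of_pos (h2 : ∀ α ∈ Φ, α ⬝ᵥ co α = 2) (hneg : ∀ α ∈ Φ, -α ∈ Φ)
    (hs : ∀ α ∈ Φ, ∀ β ∈ Φ, β - (β ⬝ᵥ co α) • α ∈ Φ)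
    (hred : ∀ α ∈ Φ, ∀ β ∈ Φ, ∀ a b : ℤ, a ≠ 0 → a • β = b • α → β = α ∨ β = -α)
    {α β : Fin r → ℤ} (hα : α ∈ Φ) (hβ : β ∈ Φ) (hne : α ≠ β) (h : 0 < β ⬝ᵥ co α) :
    α - β ∈ Φ := by
  have _ := hred
  have e1 := two_mul_form h2 hs hα (co β)
  have e2 := two_mul_form h2 hs hβ (co α)
  have p1 := LitBase_pos h2 hα
  have p2 := LitBase_pos h2 hβ
  have cs := Finset.sum_mul_sq_le_sq_mul_sq Φ (fun γ => γ ⬝ᵥ co α) (fun γ => γ ⬝ᵥ co β)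
  simp only [sq] at cs
  have e3 : ∑ γ ∈ Φ, (γ ⬝ᵥ co β) * (γ ⬝ᵥ co α) = ∑ γ ∈ Φ, (γ ⬝ᵥ co α) * (γ ⬝ᵥ co β) :=
    Finset.sum_congr rfl fun γ _ => mul_comm _ _
  rw [e3] at e2
  set B := ∑ γ ∈ Φ, (γ ⬝ᵥ co α) * (γ ⬝ᵥ co β) with hB
  set Na := ∑ γ ∈ Φ, (γ ⬝ᵥ co α) * (γ ⬝ᵥ co α) with hNa
  set Nb := ∑ γ ∈ Φ, (γ ⬝ᵥ co β) * (γ ⬝ᵥ co β) with hNb
  have hQ : 0 < α ⬝ᵥ co β := by
    have : 0 < α ⬝ᵥ co β * Na := by rw [← e1, e2]; exact mul_pos h p2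
    exact (pos_iff_pos_of_mul_pos this).2 p1
  have hPQ : (β ⬝ᵥ co α) * (α ⬝ᵥ co β) ≤ 4 := by
    have h3 : (β ⬝ᵥ co α) * (α ⬝ᵥ co β) * (Na * Nb) ≤ 4 * (Na * Nb) := by
      have : (β ⬝ᵥ co α) * (α ⬝ᵥ co β) * (Na * Nb) = 4 * (B * B) := by
        linear_combination (-(2 * B)) * e2 - ((β ⬝ᵥ co α) * Nb) * e1
      rw [this]
      linarith
    exact le_of_mul_le_mul_right h3 (mul_pos p1 p2)
  by_cases hP1 : β ⬝ᵥ co α = 1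
  · have := hneg _ (hs α hα β hβ)
    rwa [hP1, one_smul, neg_sub] at this
  by_cases hQ1 : α ⬝ᵥ co β = 1
  · have := hs β hβ α hα
    rwa [hQ1, one_smul] at this
  exfalso
  have hP2 : β ⬝ᵥ co α = 2 := by nlinarith [show 2 ≤ β ⬝ᵥ co α by omega, show 2 ≤ α ⬝ᵥ co β by omega]
  have hQ2 : α ⬝ᵥ co β = 2 := by nlinarith [show 2 ≤ β ⬝ᵥ co α by omega, show 2 ≤ α ⬝ᵥ co β by omega]
  rw [hQ2] at e1
  rw [hP2] at e2
  have hz : ∑ γ ∈ Φ, (γ ⬝ᵥ co α - γ ⬝ᵥ co β) * (γ ⬝ᵥ co α - γ ⬝ᵥ co β) = 0 := by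
    have : ∑ γ ∈ Φ, (γ ⬝ᵥ co α - γ ⬝ᵥ co β) * (γ ⬝ᵥ co α - γ ⬝ᵥ co β) = Na - 2 * B + Nb := by
      rw [hNa, hB, hNb, Finset.mul_sum, ← Finset.sum_sub_distrib, ← Finset.sum_add_distrib]
      exact Finset.sum_congr rfl fun γ _ => by ring
    rw [this]
    linarith
  rw [Finset.sum_eq_zero_iff_of_nonneg fun _ _ => mul_self_nonneg _] at hz
  refine hne (funext fun i => ?_)
  have f1 := two_mul_form h2 hs hα (Pi.single i 1)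
  have f2 := two_mul_form h2 hs hβ (Pi.single i 1)
  have f3 : ∑ γ ∈ Φ, (γ ⬝ᵥ co α) * (γ ⬝ᵥ Pi.single i 1) =
      ∑ γ ∈ Φ, (γ ⬝ᵥ co β) * (γ ⬝ᵥ Pi.single i 1) :=
    Finset.sum_congr rfl fun γ hγ => by rw [sub_eq_zero.1 (mul_self_eq_zero.1 (hz γ hγ))]
  rw [f3, f2, ← hNa, ← hNb, dotProduct_single_one, dotProduct_single_one,
    show Nb = Na by linarith] at f1
  exact (mul_right_cancel₀ p1.ne' f1).symm

/-- Roots in a half space with pairwise nonpositive pairings are independent. -/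
theorem LitBase_indep (h2 : ∀ α ∈ Φ, α ⬝ᵥ co α = 2)
    (hs : ∀ α ∈ Φ, ∀ β ∈ Φ, β - (β ⬝ᵥ co α) • α ∈ Φ) {ι : Type} [Fintype ι] {v : ι → Fin r → ℤ}
    (hv : ∀ i, v i ∈ Φ) {c : Fin r → ℤ} (hc : ∀ i, 0 < v i ⬝ᵥ c)
    (hle : ∀ i j, i ≠ j → v j ⬝ᵥ co (v i) ≤ 0) {a b : ι → ℤ} (ha : ∀ i, 0 ≤ a i)
    (hb : ∀ i, 0 ≤ b i) (hab : ∀ i, a i * b i = 0) (h : ∑ i, a i • v i = ∑ i, b i • v i) (i : ι) :
    a i = 0 := by
  classical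
  let N : ι → ℤ := fun i => ∑ γ ∈ Φ, (γ ⬝ᵥ co (v i)) * (γ ⬝ᵥ co (v i))
  have hN : ∀ i, 0 < N i := fun i => LitBase_pos h2 (hv i)
  let m : ι → ℤ := fun i => ∏ j ∈ Finset.univ.erase i, N j
  have hm : ∀ i, 0 < m i := fun i => Finset.prod_pos fun j _ => hN j
  have hM : ∀ i, N i * m i = ∏ j, N j := fun i => Finset.mul_prod_erase _ _ (Finset.mem_univ i)
  have hMpos : 0 < ∏ j, N j := Finset.prod_pos fun j _ => hN j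
  let ν : Fin r → ℤ := ∑ i, (a i * m i) • co (v i)
  have key : ∀ ν', 2 * ∑ γ ∈ Φ, (γ ⬝ᵥ ν) * (γ ⬝ᵥ ν') = (∏ j, N j) * ((∑ i, a i • v i) ⬝ᵥ ν') := by
    intro ν'
    have e1 : ∑ γ ∈ Φ, (γ ⬝ᵥ ν) * (γ ⬝ᵥ ν') =
        ∑ i, (a i * m i) * ∑ γ ∈ Φ, (γ ⬝ᵥ co (v i)) * (γ ⬝ᵥ ν') := by
      simp only [ν, dotProduct_sum, dotProduct_smul, smul_eq_mul, Finset.sum_mul, Finset.mul_sum]
      rw [Finset.sum_comm]
      exact Finset.sum_congr rfl fun i _ => Finset.sum_congr rfl fun γ _ => by ring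
    rw [e1, sum_dotProduct, Finset.mul_sum, Finset.mul_sum]
    refine Finset.sum_congr rfl fun i _ => ?_
    have e2 : 2 * ∑ γ ∈ Φ, (γ ⬝ᵥ co (v i)) * (γ ⬝ᵥ ν') = (v i ⬝ᵥ ν') * N i :=
      two_mul_form h2 hs (hv i) ν'
    rw [smul_dotProduct, smul_eq_mul, ← hM i]
    linear_combination (a i * m i) * e2
  have hneg : (∑ i, a i • v i) ⬝ᵥ ν ≤ 0 := by
    rw [h]
    simp only [ν, sum_dotProduct, dotProduct_sum, dotProduct_smul, smul_dotProduct, smul_eq_mul,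
      Finset.mul_sum]
    refine Finset.sum_nonpos fun i _ => Finset.sum_nonpos fun j _ => ?_
    by_cases hij : i = j
    · subst hij
      exact le_of_eq (by linear_combination (m i * (v i ⬝ᵥ co (v i))) * hab i)
    · exact mul_nonpos_of_nonneg_of_nonpos (mul_nonneg (ha i) (hm i).le)
        (mul_nonpos_of_nonneg_of_nonpos (hb j) (hle i j hij))
  have hz : ∑ γ ∈ Φ, (γ ⬝ᵥ ν) * (γ ⬝ᵥ ν) = 0 := by
    refine le_antisymm ?_ (Finset.sum_nonneg fun _ _ => mul_self_nonneg _)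
    have := key ν
    nlinarith [mul_nonpos_of_nonneg_of_nonpos hMpos.le hneg]
  rw [Finset.sum_eq_zero_iff_of_nonneg fun _ _ => mul_self_nonneg _] at hz
  have e3 := key c
  rw [Finset.sum_eq_zero fun γ hγ => by rw [mul_self_eq_zero.1 (hz γ hγ), zero_mul], mul_zero,
    eq_comm, mul_eq_zero, sum_dotProduct] at e3
  have e4 := e3.resolve_left hMpos.ne'
  simp only [smul_dotProduct, smul_eq_mul] at e4
  rw [Finset.sum_eq_zero_iff_of_nonneg fun j _ => mul_nonneg (ha j) (hc j).le] at e4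
  exact (mul_eq_zero.1 (e4 i (Finset.mem_univ i))).resolve_right (hc i).ne'

/-- `Δ` is the set of positive roots that are not the sum of two positive roots. Every positive root
is a sum of elements of `Δ` (induction on `α ⬝ᵥ c`). For `α ≠ β` in `Δ`, `β ⬝ᵥ co α ≤ 0`
(`sub_mem_of_pos`). In a relation `ξ = ∑ a α • α = ∑ b β • β` with disjoint supports and positive
coefficients let `M = ∏ N α` and `ν = ∑ a α * (M / N α) • co α`; by `two_mul_form`,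
`2 * b ν ν' = M * (ξ ⬝ᵥ ν')` for all `ν'`; for `ν' = ν` this is `≤ 0`, so `b ν ν' = 0` for all
`ν'`, so `ξ ⬝ᵥ c = 0` and all `a α` vanish. (Alternatively build a `RootPairing` and use
`RootPairing.linearIndepOn_root_baseOf`.) -/
theorem exists_base (h2 : ∀ α ∈ Φ, α ⬝ᵥ co α = 2) (hneg : ∀ α ∈ Φ, -α ∈ Φ)
    (hs : ∀ α ∈ Φ, ∀ β ∈ Φ, β - (β ⬝ᵥ co α) • α ∈ Φ)
    (hred : ∀ α ∈ Φ, ∀ β ∈ Φ, ∀ a b : ℤ, a ≠ 0 → a • β = b • α → β = α ∨ β = -α)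
    {c : Fin r → ℤ} (hc : ∀ α ∈ Φ, α ⬝ᵥ c ≠ 0) : ∃ Δ : Finset (Fin r → ℤ), Δ ⊆ Φ ∧
      (LinearIndependent ℤ fun α : Δ => (α : Fin r → ℤ)) ∧
      ∀ α ∈ Φ, (α ∈ AddSubmonoid.closure (Δ : Set (Fin r → ℤ)) ↔ 0 < α ⬝ᵥ c) := by
  classical
  let Δ := Φ.filter fun α => 0 < α ⬝ᵥ c ∧
    ¬∃ β ∈ Φ, ∃ γ ∈ Φ, 0 < β ⬝ᵥ c ∧ 0 < γ ⬝ᵥ c ∧ α = β + γ
  have hΔ : ∀ α, α ∈ Δ ↔ α ∈ Φ ∧ 0 < α ⬝ᵥ c ∧
      ¬∃ β ∈ Φ, ∃ γ ∈ Φ, 0 < β ⬝ᵥ c ∧ 0 < γ ⬝ᵥ c ∧ α = β + γ := fun α => Finset.mem_filter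
  have hle : ∀ i j : Δ, i ≠ j → (j : Fin r → ℤ) ⬝ᵥ co i ≤ 0 := by
    rintro ⟨α, hα⟩ ⟨β, hβ⟩ hne
    obtain ⟨a1, a2, a3⟩ := (hΔ α).1 hα
    obtain ⟨b1, b2, b3⟩ := (hΔ β).1 hβ
    by_contra hcon
    have h1 := sub_mem_of_pos h2 hneg hs hred a1 b1 (fun e => hne (Subtype.ext e)) (not_le.1 hcon)
    rcases (hc _ h1).lt_or_gt with h3 | h3
    · exact b3 ⟨α, a1, -(α - β), hneg _ h1, a2, by rw [neg_dotProduct]; omega, by abel⟩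
    · exact a3 ⟨β, b1, α - β, h1, b2, h3, by abel⟩
  refine ⟨Δ, Finset.filter_subset _ _, ?_, fun α hα => ⟨fun h => ?_, fun h => ?_⟩⟩
  · rw [Fintype.linearIndependent_iff]
    intro g hg i
    have hv : ∀ i : Δ, (i : Fin r → ℤ) ∈ Φ := fun i => ((hΔ i).1 i.2).1
    have hp : ∀ i : Δ, 0 < (i : Fin r → ℤ) ⬝ᵥ c := fun i => ((hΔ i).1 i.2).2.1
    have hsum : ∑ i : Δ, max (g i) 0 • (i : Fin r → ℤ) = ∑ i : Δ, max (-g i) 0 • (i : Fin r → ℤ) := by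
      rw [← sub_eq_zero, ← Finset.sum_sub_distrib, ← hg]
      refine Finset.sum_congr rfl fun i _ => ?_
      rw [← sub_smul]
      congr 1
      omega
    have hmul : ∀ i, max (g i) 0 * max (-g i) 0 = 0 := fun i => mul_eq_zero.2 (by omega)
    have h1 := LitBase_indep h2 hs hv hp hle (fun i => le_max_right _ _)
      (fun i => le_max_right _ _) hmul hsum i
    have h3 := LitBase_indep h2 hs hv hp hle (fun i => le_max_right _ _)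
      (fun i => le_max_right _ _) (fun i => by rw [mul_comm, hmul]) hsum.symm i
    omega
  · refine lt_of_le_of_ne ?_ (hc α hα).symm
    clear hα
    induction h using AddSubmonoid.closure_induction with
    | mem x hx => exact ((hΔ x).1 hx).2.1.le
    | zero => simp
    | add x y _ _ hx hy => rw [add_dotProduct]; omega
  · obtain ⟨k, hk⟩ : ∃ k : ℕ, α ⬝ᵥ c ≤ k := ⟨(α ⬝ᵥ c).toNat, Int.self_le_toNat _⟩
    induction k generalizing α with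
    | zero => omega
    | succ k ih =>
      by_cases hd : ∃ β ∈ Φ, ∃ γ ∈ Φ, 0 < β ⬝ᵥ c ∧ 0 < γ ⬝ᵥ c ∧ α = β + γ
      · obtain ⟨β, hβ, γ, hγ, h3, h4, rfl⟩ := hd
        rw [add_dotProduct] at hk
        exact add_mem (ih β hβ h3 (by omega)) (ih γ hγ h4 (by omega))
      · exact AddSubmonoid.subset_closure ((hΔ α).2 ⟨hα, h, hd⟩)

end Pool.Agent.Work.MP_bb5f23_al.Lit
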