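import Pool.Agent.Work.MP_bb5f23_al.LitLK

-- merged part: Pool.Agent.Work.MP_bb5f23_al.LitGrad
section
/-! The grading of a rational representation by a cocharacter. -/

namespace Pool.Agent.Work.MP_bb5f23_al.Lit

variable {F : Type} [Field F] {n r : ℕ}

/-- A finite grading given by projections. -/
structure Grading (F : Type) [Field F] (L : Type) [AddCommGroup L] [Module F L] where
  pr : ℤ → Module.End F L
  S : Finset ℤ
  pr_eq_zero : ∀ k ∉ S, pr k = 0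
  sum_pr : ∀ v, ∑ k ∈ S, pr k v = v
  pr_pr : ∀ k l v, pr k (pr l v) = if k = l then pr l v else 0

namespace RRep

variable {G : Subgroup (GL (Fin n) F)} {L : Type} [AddCommGroup L] [Module F L] (ρ : RRep G L)
  (wt : Fin n → Fin r → ℤ)

/-- The weight space of weight `k` for the cocharacter `c`. -/
def wsp (c : Fin r → ℤ) (k : ℤ) : Submodule F L where
  carrier := {v | ∀ t : Fˣ, ρ.op (coc wt c t) v = ((t : F) ^ k) • v}
  zero_mem' t := by simp
  add_mem' ha hb t := by rw [map_add, ha t, hb t, smul_add]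
  smul_mem' a v hv t := by rw [map_smul, hv t, smul_comm]

/-- The grading `Γ` is the weight decomposition for `c`. -/
def IsGr (c : Fin r → ℤ) (Γ : Grading F L) : Prop := ∀ k v, Γ.pr k v ∈ ρ.wsp wt c k

variable {ρ wt} {c : Fin r → ℤ} {Γ : Grading F L}

theorem mem_wsp {k : ℤ} {v : L} :
    v ∈ ρ.wsp wt c k ↔ ∀ t : Fˣ, ρ.op (coc wt c t) v = ((t : F) ^ k) • v := Iff.rfl

theorem wsp_neg (hc : ∀ t, coc wt c t ∈ G) (k : ℤ) : ρ.wsp wt (-c) k = ρ.wsp wt c (-k) := by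
  ext v
  simp only [mem_wsp, coc_neg, ← coc_inv]
  constructor
  · intro h t
    have := h t⁻¹
    rwa [inv_inv, Units.val_inv_eq_inv_val, inv_zpow'] at this
  · intro h t
    rw [h t⁻¹, Units.val_inv_eq_inv_val, inv_zpow', neg_neg]

theorem op_mem_wsp (hc : ∀ t, coc wt c t ∈ G) {g : GL (Fin n) F} (hg : g ∈ G)
    (h : ∀ t, coc wt c t * g = g * coc wt c t) {k : ℤ} {v : L} (hv : v ∈ ρ.wsp wt c k) :
    ρ.op g v ∈ ρ.wsp wt c k := fun t => by
  rw [← ρ.op_mul_apply (hc t) hg, h t, ρ.op_mul_apply hg (hc t), hv t, map_smul]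

theorem IsGr.op_coc (h : ρ.IsGr wt c Γ) (t : Fˣ) (v : L) :
    ρ.op (coc wt c t) v = ∑ k ∈ Γ.S, ((t : F) ^ k) • Γ.pr k v := by
  conv_lhs => rw [← Γ.sum_pr v]
  rw [map_sum]
  exact Finset.sum_congr rfl fun k _ => h k v t

variable [Infinite F]

theorem _root_.Pool.Agent.Work.MP_bb5f23_al.Lit.LitGrad_ne {k l : ℤ} (h : k ≠ l) :
    ∃ t : Fˣ, (t : F) ^ k ≠ (t : F) ^ l := by
  by_contra hall
  push Not at hall
  have hm : 0 < (k - l).natAbs := Int.natAbs_pos.2 (sub_ne_zero.2 h)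
  refine Polynomial.X_pow_sub_C_ne_zero hm (1 : F) (Polynomial.eq_zero_of_infinite_isRoot _
    ((Set.finite_singleton (0 : F)).infinite_compl.mono fun x hx => ?_))
  have hx0 : x ≠ 0 := hx
  have e : x ^ (k - l) = 1 := by
    have := hall (Units.mk0 x hx0)
    rw [Units.val_mk0] at this
    rw [zpow_sub₀ hx0, this, div_self (zpow_ne_zero _ hx0)]
  have e' : x ^ (k - l).natAbs = 1 := by
    rcases Int.natAbs_eq (k - l) with h1 | h1
    · rw [← zpow_natCast, ← h1, e]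
    · rw [h1, zpow_neg, inv_eq_one, zpow_natCast] at e
      exact e
  simp [e']

/-- Vanishing of a Laurent polynomial with vector coefficients (apply linear forms, multiply by a
power of `t`, `Polynomial.eq_zero_of_infinite_isRoot`; or `linearIndependent_monoidHom`). -/
theorem _root_.Pool.Agent.Work.MP_bb5f23_al.Lit.eq_zero_of_laurent (s : Finset ℤ) (v : ℤ → L)
    (h : ∀ t : Fˣ, ∑ k ∈ s, ((t : F) ^ k) • v k = 0) : ∀ k ∈ s, v k = 0 := by
  intro k hk
  refine (Module.forall_dual_apply_eq_zero_iff F _).1 fun φ => ?_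
  have hli := (linearIndependent_monoidHom Fˣ F).comp
    (fun k : ℤ => (Units.coeHom F).comp (zpowGroupHom k)) (fun k l e => by
      by_contra hne
      obtain ⟨t, ht⟩ := LitGrad_ne (F := F) hne
      have := DFunLike.congr_fun e t
      simp only [MonoidHom.comp_apply, zpowGroupHom_apply, Units.coeHom_apply,
        Units.val_zpow_eq_zpow_val] at this
      exact ht this)
  refine linearIndependent_iff'.1 hli s (fun k => φ (v k)) ?_ k hk
  funext t
  have := congrArg φ (h t)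
  rw [map_sum, map_zero] at this
  simp only [Finset.sum_apply, Pi.smul_apply, Function.comp_apply, MonoidHom.comp_apply,
    zpowGroupHom_apply, Units.coeHom_apply, Units.val_zpow_eq_zpow_val, smul_eq_mul,
    Pi.zero_apply]
  rw [← this]
  exact Finset.sum_congr rfl fun l _ => by rw [map_smul, smul_eq_mul, mul_comm]

theorem LitGrad_uniq {S : Finset ℤ} {π : ℤ → Module.End F L} (h0 : ∀ k ∉ S, π k = 0) {w : L}
    (h1 : ∀ t : Fˣ, ρ.op (coc wt c t) w = ∑ k ∈ S, ((t : F) ^ k) • π k w) {l : ℤ}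
    (hw : w ∈ ρ.wsp wt c l) (k : ℤ) : π k w = if k = l then w else 0 := by
  by_cases hk : k ∈ insert l S
  · refine sub_eq_zero.1 (eq_zero_of_laurent (F := F) (insert l S)
      (fun k => π k w - if k = l then w else 0) (fun t => ?_) k hk)
    simp only [smul_sub, Finset.sum_sub_distrib, smul_ite, smul_zero, Finset.sum_ite_eq',
      Finset.mem_insert_self, if_true]
    rw [← hw t, h1 t, sub_eq_zero]
    exact (Finset.sum_subset (Finset.subset_insert _ _) fun m _ hm => by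
      rw [h0 m hm, LinearMap.zero_apply, smul_zero]).symm
  · rw [Finset.mem_insert, not_or] at hk
    rw [h0 k hk.2, if_neg hk.1, LinearMap.zero_apply]

omit [Infinite F] in
theorem LitGrad_coef (ρ : RRep G L) (hc : ∀ t, coc wt c t ∈ G) (φ : Module.Dual F L) (v : L) :
    ∃ a : ℤ →₀ F, ∀ t : Fˣ, φ (ρ.op (coc wt c t) v) =
      Finsupp.linearCombination F (fun k : ℤ => (t : F) ^ k) a := by
  obtain ⟨f, hf, h1⟩ := ρ.reg φ v
  obtain ⟨P, M, h2⟩ := laurent (wt := wt) hf c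
  refine ⟨∑ m ∈ P.support, Finsupp.single ((m : ℤ) - M) (P.coeff m), fun t => ?_⟩
  have ht : (t : F) ^ M ≠ 0 := pow_ne_zero _ t.ne_zero
  rw [h1 _ (hc t), map_sum, eq_div_of_mul_eq ht (h2 t), Polynomial.eval_eq_sum, Polynomial.sum,
    Finset.sum_div]
  refine Finset.sum_congr rfl fun m _ => ?_
  rw [Finsupp.linearCombination_single, smul_eq_mul, zpow_sub₀ t.ne_zero, zpow_natCast,
    zpow_natCast, mul_div_assoc]

omit [Infinite F] in
theorem LitGrad_expand [FiniteDimensional F L] (ρ : RRep G L) (hc : ∀ t, coc wt c t ∈ G) :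
    ∃ (S : Finset ℤ) (π : ℤ → Module.End F L), (∀ k ∉ S, π k = 0) ∧
      ∀ (t : Fˣ) v, ρ.op (coc wt c t) v = ∑ k ∈ S, ((t : F) ^ k) • π k v := by
  classical
  let b := Module.finBasis F L
  choose a ha using fun i j => LitGrad_coef (wt := wt) (c := c) ρ hc (b.coord i) (b j)
  obtain ⟨S, hS⟩ : ∃ S : Finset ℤ, ∀ i j, (a i j).support ⊆ S :=
    ⟨Finset.univ.biUnion fun p : _ × _ => (a p.1 p.2).support, fun i j =>
      Finset.subset_biUnion_of_mem (fun p : _ × _ => (a p.1 p.2).support) (Finset.mem_univ (i, j))⟩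
  refine ⟨S, fun k => b.constr F fun j => ∑ i, a i j k • b i, fun k hk => ?_, fun t v => ?_⟩
  · refine b.ext fun j => ?_
    rw [Module.Basis.constr_basis, LinearMap.zero_apply]
    exact Finset.sum_eq_zero fun i _ => by
      rw [Finsupp.notMem_support_iff.1 fun h => hk (hS i j h), zero_smul]
  · have e : ρ.op (coc wt c t) =
        ∑ k ∈ S, ((t : F) ^ k) • b.constr F fun j => ∑ i, a i j k • b i := by
      refine b.ext fun j => b.ext_elem fun i => ?_
      have e1 := ha i j t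
      rw [Module.Basis.coord_apply, Finsupp.linearCombination_apply,
        Finsupp.sum_of_support_subset _ (hS i j) (fun k (x : F) => x • (t : F) ^ k)
          fun _ _ => zero_smul _ _] at e1
      rw [e1, LinearMap.sum_apply, map_sum, Finsupp.finsetSum_apply]
      refine Finset.sum_congr rfl fun k _ => ?_
      rw [LinearMap.smul_apply, Module.Basis.constr_basis, map_smul, Finsupp.smul_apply,
        Module.Basis.repr_sum_self, smul_eq_mul, smul_eq_mul, mul_comm]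
    rw [e, LinearMap.sum_apply]
    rfl

/-- With a basis of `L`, `ρ.reg` and `laurent` write `ρ (coc c t) = ∑ k ∈ S, t ^ k • π k`. Compare
coefficients (`eq_zero_of_laurent`) in `ρ (coc c (t s)) = ρ (coc c t) ρ (coc c s)`: first
`ρ (coc c t) (π l v) = t ^ l • π l v`, then `π k π l = δ π l`. -/
theorem exists_gr [FiniteDimensional F L] (ρ : RRep G L) (hc : ∀ t, coc wt c t ∈ G) :
    ∃ Γ, ρ.IsGr wt c Γ := by
  classical
  obtain ⟨S, π, h0, h1⟩ := LitGrad_expand (wt := wt) (c := c) ρ hc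
  have h2 : ∀ l v, π l v ∈ ρ.wsp wt c l := by
    intro l v t
    by_cases hl : l ∈ S
    · refine sub_eq_zero.1 (eq_zero_of_laurent (F := F) S
        (fun l => ρ.op (coc wt c t) (π l v) - (t : F) ^ l • π l v) (fun s => ?_) l hl)
      have e := ρ.op_mul_apply (hc t) (hc s) v
      rw [← coc_mul, h1, h1 s v, map_sum] at e
      simp only [smul_sub, Finset.sum_sub_distrib]
      rw [sub_eq_zero]
      refine Eq.trans ?_ (e.symm.trans ?_)
      · exact Finset.sum_congr rfl fun k _ => (map_smul _ _ _).symm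
      · exact Finset.sum_congr rfl fun k _ => by
          rw [smul_smul, Units.val_mul, mul_zpow, mul_comm]
    · rw [h0 l hl, LinearMap.zero_apply, map_zero, smul_zero]
  refine ⟨⟨π, S, h0, fun v => ?_, fun k l v => LitGrad_uniq h0 (h1 · _) (h2 l v) k⟩, h2⟩
  have e := h1 1 v
  rw [coc_one, op_one_apply] at e
  refine Eq.trans ?_ e.symm
  exact Finset.sum_congr rfl fun k _ => by rw [Units.val_one, one_zpow, one_smul]

theorem IsGr.pr_of_mem (h : ρ.IsGr wt c Γ) {k : ℤ} {v : L} (hv : v ∈ ρ.wsp wt c k) (l : ℤ) :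
    Γ.pr l v = if l = k then v else 0 :=
  LitGrad_uniq Γ.pr_eq_zero (h.op_coc · v) hv l

/-- A subspace stable under the cocharacter is graded (pass to `L ⧸ W`, or use linear forms). -/
theorem IsGr.pr_mem (h : ρ.IsGr wt c Γ) {W : Submodule F L}
    (hW : ∀ t : Fˣ, ∀ v ∈ W, ρ.op (coc wt c t) v ∈ W) {v : L} (hv : v ∈ W) (k : ℤ) :
    Γ.pr k v ∈ W := by
  by_cases hk : k ∈ Γ.S
  · refine (Submodule.Quotient.mk_eq_zero W).1
      (eq_zero_of_laurent (F := F) Γ.S (fun k => W.mkQ (Γ.pr k v)) (fun t => ?_) k hk)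
    have e := (Submodule.Quotient.mk_eq_zero W).2 (hW t v hv)
    rw [h.op_coc, ← Submodule.mkQ_apply, map_sum] at e
    refine Eq.trans ?_ e
    exact Finset.sum_congr rfl fun l _ => (map_smul _ _ _).symm
  · rw [Γ.pr_eq_zero k hk]
    exact W.zero_mem

theorem IsGr.exists_wsp (h : ρ.IsGr wt c Γ) {v : L}
    (hv : ∀ t : Fˣ, ∃ a : F, ρ.op (coc wt c t) v = a • v) : ∃ k, v ∈ ρ.wsp wt c k := by
  by_cases h0 : v = 0
  · exact ⟨0, h0 ▸ Submodule.zero_mem _⟩
  obtain ⟨k, -, hk⟩ := Finset.exists_ne_zero_of_sum_ne_zero ((Γ.sum_pr v).trans_ne h0)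
  have h1 : Γ.pr k v ∈ Submodule.span F {v} := by
    refine h.pr_mem (fun t w hw => ?_) (Submodule.mem_span_singleton_self v) k
    obtain ⟨a, rfl⟩ := Submodule.mem_span_singleton.1 hw
    obtain ⟨b, hb⟩ := hv t
    rw [map_smul, hb]
    exact Submodule.smul_mem _ _ (Submodule.smul_mem _ _ (Submodule.mem_span_singleton_self v))
  obtain ⟨a, ha⟩ := Submodule.mem_span_singleton.1 h1
  have ha0 : a ≠ 0 := by
    rintro rfl
    exact hk (by rw [← ha, zero_smul])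
  exact ⟨k, (Submodule.smul_mem_iff _ ha0).1 (ha ▸ h k v)⟩

theorem IsGr.form_pr (h : ρ.IsGr wt c Γ) {φ : Module.Dual F L} {k : ℤ}
    (hφ : ∀ (t : Fˣ) v, φ (ρ.op (coc wt c t) v) = (t : F) ^ k * φ v) (l : ℤ) (v : L) :
    φ (Γ.pr l v) = if l = k then φ v else 0 := by
  have h1 : ∀ m, m ≠ k → φ (Γ.pr m v) = 0 := by
    intro m hm
    obtain ⟨t, ht⟩ := LitGrad_ne (F := F) hm
    have e := hφ t (Γ.pr m v)
    rw [h m v t, map_smul, smul_eq_mul] at e
    exact (mul_eq_mul_right_iff.1 e).resolve_left ht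
  split_ifs with hl
  · subst hl
    conv_rhs => rw [← Γ.sum_pr v]
    rw [map_sum, Finset.sum_eq_single l (fun m _ hm => h1 m hm)
      fun hl => by rw [Γ.pr_eq_zero l hl, LinearMap.zero_apply, map_zero]]
  · exact h1 l hl

theorem IsGr.pr_op (h : ρ.IsGr wt c Γ) (hc : ∀ t, coc wt c t ∈ G) {g : GL (Fin n) F} (hg : g ∈ G)
    (hcomm : ∀ t, coc wt c t * g = g * coc wt c t) (k : ℤ) (v : L) :
    Γ.pr k (ρ.op g v) = ρ.op g (Γ.pr k v) := by
  conv_lhs => rw [← Γ.sum_pr v]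
  rw [map_sum, map_sum, Finset.sum_eq_single k]
  · rw [h.pr_of_mem (op_mem_wsp hc hg hcomm (h k v)), if_pos rfl]
  · intro m _ hm
    rw [h.pr_of_mem (op_mem_wsp hc hg hcomm (h m v)), if_neg hm.symm]
  · intro hk
    rw [Γ.pr_eq_zero k hk, LinearMap.zero_apply]

end RRep

end Pool.Agent.Work.MP_bb5f23_al.Lit
end

-- merged part: Pool.Agent.Work.MP_bb5f23_al.LitGrad2
section
/-! Limits along a cocharacter. -/

namespace Pool.Agent.Work.MP_bb5f23_al.Lit

variable {F : Type} [Field F] [Infinite F] {n r : ℕ}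

namespace RRep

variable {G : Subgroup (GL (Fin n) F)} {L : Type} [AddCommGroup L] [Module F L] {ρ : RRep G L}
  {wt : Fin n → Fin r → ℤ} {c : Fin r → ℤ} {Γ : Grading F L}

omit [Infinite F] in
theorem LitGrad2_zero (Γ : Grading F L) {y : L} {k : ℤ} {e : ℤ → ℕ} (he : e k = 0)
    (h : ∀ l, l ≠ k → e l = 0 → Γ.pr l y = 0) :
    ∑ l ∈ Γ.S, (0 : F) ^ e l • Γ.pr l y = Γ.pr k y := by
  rw [Finset.sum_eq_single k]
  · rw [he, pow_zero, one_smul]
  · intro l _ hl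
    by_cases h0 : e l = 0
    · rw [h l hl h0, smul_zero]
    · rw [zero_pow h0, zero_smul]
  · intro hk
    rw [Γ.pr_eq_zero k hk, LinearMap.zero_apply, smul_zero]

omit [Infinite F] in
theorem LitGrad2_bot (h : ρ.IsGr wt c Γ) {y : L} {k : ℤ} (hk : ∀ l < k, Γ.pr l y = 0) (t : Fˣ) :
    ∑ l ∈ Γ.S, (t : F) ^ (l - k).toNat • Γ.pr l y = ((t : F) ^ (-k)) • ρ.op (coc wt c t) y := by
  rw [h.op_coc, Finset.smul_sum]
  refine Finset.sum_congr rfl fun l _ => ?_
  by_cases hl : l < k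
  · rw [hk l hl, smul_zero, smul_zero, smul_zero]
  · rw [smul_smul, ← zpow_add₀ t.ne_zero, ← zpow_natCast, Int.toNat_of_nonneg (by omega),
      neg_add_eq_sub]

omit [Infinite F] in
theorem LitGrad2_top (h : ρ.IsGr wt c Γ) {y : L} {k : ℤ} (hk : ∀ l, k < l → Γ.pr l y = 0)
    (t : Fˣ) : ∑ l ∈ Γ.S, (t : F) ^ (k - l).toNat • Γ.pr l y
      = (((t⁻¹ : Fˣ) : F) ^ (-k)) • ρ.op (coc wt c t⁻¹) y := by
  rw [h.op_coc, Finset.smul_sum]
  refine Finset.sum_congr rfl fun l _ => ?_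
  by_cases hl : k < l
  · rw [hk l hl, smul_zero, smul_zero, smul_zero]
  · rw [smul_smul, ← zpow_add₀ (t⁻¹).ne_zero, ← zpow_natCast, Int.toNat_of_nonneg (by omega),
      Units.val_inv_eq_inv_val, inv_zpow']
    congr 2
    omega

theorem LitGrad2_cl {Y : Set L} (hY : Cl (linA F L) Y) {C : F → L}
    (hC : Reg (linA F F) (linA F L) C) (h : ∀ t : Fˣ, C t ∈ Y) : C 0 ∈ Y :=
  hY fun f hf h0 => eq_zero_of_units (hC f hf) (fun t ht => h0 _ (h (Units.mk0 t ht))) 0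

/-- The lowest component of a point of a stable closed cone: the curve
`t ↦ ∑ l, t ^ (l - k) • pr l y` (`reg_curve`, `eq_zero_of_units`). -/
theorem IsGr.bot_mem (h : ρ.IsGr wt c Γ) {Y : Set L} (hY : IsCone F Y)
    (hst : ∀ t : Fˣ, ∀ y ∈ Y, ρ.op (coc wt c t) y ∈ Y) {y : L} (hy : y ∈ Y) {k : ℤ}
    (hk : ∀ l < k, Γ.pr l y = 0) : Γ.pr k y ∈ Y := by
  rw [← LitGrad2_zero Γ (e := fun l => (l - k).toNat) (by simp)
    fun l hl h0 => hk l (by omega)]
  refine LitGrad2_cl hY.cl (reg_curve Γ.S (fun l => (l - k).toNat) fun l => Γ.pr l y) fun t => ?_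
  rw [LitGrad2_bot h hk]
  exact hY.smul _ _ (hst t y hy)

theorem IsGr.top_mem (h : ρ.IsGr wt c Γ) {Y : Set L} (hY : IsCone F Y)
    (hst : ∀ t : Fˣ, ∀ y ∈ Y, ρ.op (coc wt c t) y ∈ Y) {y : L} (hy : y ∈ Y) {k : ℤ}
    (hk : ∀ l, k < l → Γ.pr l y = 0) : Γ.pr k y ∈ Y := by
  rw [← LitGrad2_zero Γ (e := fun l => (k - l).toNat) (by simp)
    fun l hl h0 => hk l (by omega)]
  refine LitGrad2_cl hY.cl (reg_curve Γ.S (fun l => (k - l).toNat) fun l => Γ.pr l y) fun t => ?_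
  rw [LitGrad2_top h hk]
  exact hY.smul _ _ (hst _ y hy)

/-- A polynomial function not vanishing at the top component does not vanish at some point of the
orbit. -/
theorem IsGr.exists_ne_of_top (h : ρ.IsGr wt c Γ) {y : L} {k : ℤ}
    (hk : ∀ l, k < l → Γ.pr l y = 0) {f : L → F} (hf : f ∈ linA F L) (h0 : f (Γ.pr k y) ≠ 0) :
    ∃ t : Fˣ, f (((t : F) ^ (-k)) • ρ.op (coc wt c t) y) ≠ 0 := by
  rw [← LitGrad2_zero Γ (e := fun l => (k - l).toNat) (by simp)
    fun l hl h0 => hk l (by omega)] at h0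
  obtain ⟨t, ht, h1⟩ := exists_ne_zero_of_ne
    (reg_curve Γ.S (fun l => (k - l).toNat) (fun l => Γ.pr l y) f hf) (s := 0) h0
  refine ⟨(Units.mk0 t ht)⁻¹, ?_⟩
  rw [← LitGrad2_top h hk]
  exact h1

variable [IsFbar F]

omit [IsFbar F] in
theorem LitGrad2_coef {S : Finset ℤ} {a : ℤ → F} (ha : ∀ l ∉ S, a l = 0) {P : Polynomial F} {k : ℤ}
    (h : ∀ t : Fˣ, ∑ l ∈ S, (t : F) ^ l * a l = (t : F) ^ k * P.eval (t : F)) (l : ℤ) :
    a l = if k ≤ l then P.coeff (l - k).toNat else 0 := by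
  classical
  obtain ⟨g, hg⟩ : ∃ g : ℤ → F, g = fun l => if k ≤ l then P.coeff (l - k).toNat else 0 :=
    ⟨_, rfl⟩
  obtain ⟨T, hT⟩ : ∃ T : Finset ℤ, T = P.support.image fun m : ℕ => (m : ℤ) + k := ⟨_, rfl⟩
  have hg0 : ∀ m ∉ T, g m = 0 := by
    intro m hm
    rw [hg]
    by_cases h1 : k ≤ m
    · simp only [if_pos h1]
      by_contra h2
      exact hm (hT ▸ Finset.mem_image.2 ⟨_, Polynomial.mem_support_iff.2 h2, by omega⟩)
    · simp only [if_neg h1]
  have h2 : ∀ t : Fˣ, ∑ m ∈ T, (t : F) ^ m * g m = (t : F) ^ k * P.eval (t : F) := by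
    intro t
    rw [hT, Finset.sum_image fun x _ y _ e => by simpa using e, Polynomial.eval_eq_sum,
      Polynomial.sum, Finset.mul_sum]
    refine Finset.sum_congr rfl fun m _ => ?_
    rw [hg]
    simp only [if_pos (show k ≤ (m : ℤ) + k by omega), add_sub_cancel_right, Int.toNat_natCast]
    rw [zpow_add₀ t.ne_zero, zpow_natCast]
    ring
  have h3 := eq_zero_of_laurent (F := F) (L := F) (insert l (S ∪ T)) (fun m => a m - g m)
    (fun t => ?_) l (Finset.mem_insert_self _ _)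
  · rw [sub_eq_zero.1 h3, hg]
  · simp only [smul_eq_mul, mul_sub, Finset.sum_sub_distrib]
    rw [← Finset.sum_subset (s₁ := S) (Finset.subset_union_left.trans (Finset.subset_insert _ _))
        fun m _ hm => by rw [ha m hm, mul_zero],
      ← Finset.sum_subset (s₁ := T) (Finset.subset_union_right.trans (Finset.subset_insert _ _))
        fun m _ hm => by rw [hg0 m hm, mul_zero], h t, h2 t, sub_self]

/-- The opposite grading. -/
def LitGrad2_neg (Γ : Grading F L) : Grading F L where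
  pr k := Γ.pr (-k)
  S := Γ.S.map (Equiv.neg ℤ).toEmbedding
  pr_eq_zero k hk := Γ.pr_eq_zero _ fun h => hk (Finset.mem_map.2 ⟨-k, h, neg_neg k⟩)
  sum_pr v := by
    rw [Finset.sum_map]
    simpa using Γ.sum_pr v
  pr_pr k l v := by simp only [Γ.pr_pr, neg_inj]

/-- With `γ` from `exists_contr` the function `t ↦ φ (ρ (γ t) v)` is a polynomial with value `φ v`
at `0` (`exists_poly`; the curve lies in `G`), and equals `∑ l, t ^ (l - k) φ (pr l (ρ u v))` for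
`t ≠ 0`. -/
theorem IsGr.raise (h : ρ.IsGr wt c Γ) (hc : ∀ t, coc wt c t ∈ G) {u : GL (Fin n) F}
    (hu : u ∈ US wt G (posS c)) {k : ℤ} {v : L} (hv : v ∈ ρ.wsp wt c k) :
    Γ.pr k (ρ.op u v) = v ∧ ∀ l < k, Γ.pr l (ρ.op u v) = 0 := by
  obtain ⟨γ, hγ, h0, h1⟩ := exists_contr (wt := wt) (c := c) (u := u) ⟨trivial, hu.2⟩
  have hG : ∀ t, γ t ∈ G := fun t => by
    by_cases ht : t = 0
    · rw [ht, h0]
      exact G.one_mem
    · have := h1 (Units.mk0 t ht)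
      rw [Units.val_mk0] at this
      rw [this]
      exact G.mul_mem (G.mul_mem (hc _) hu.1) (G.inv_mem (hc _))
  have key : ∀ φ : Module.Dual F L, φ (Γ.pr k (ρ.op u v)) = φ v ∧
      ∀ l < k, φ (Γ.pr l (ρ.op u v)) = 0 := by
    intro φ
    obtain ⟨f, hf, h2⟩ := ρ.reg φ v
    obtain ⟨P, hP⟩ := exists_poly (hγ f hf)
    have h3 := LitGrad2_coef (S := Γ.S) (a := fun l => φ (Γ.pr l (ρ.op u v))) (P := P) (k := k)
      (fun l hl => by rw [Γ.pr_eq_zero l hl, LinearMap.zero_apply, map_zero]) fun t => by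
        rw [← hP, ← h2 _ (hG _), h1, ρ.op_mul_apply (G.mul_mem (hc _) hu.1) (G.inv_mem (hc _)),
          ← coc_inv, hv t⁻¹, map_smul, ρ.op_mul_apply (hc _) hu.1, h.op_coc, map_smul, map_sum,
          smul_eq_mul, Units.val_inv_eq_inv_val, inv_zpow, mul_inv_cancel_left₀
            (zpow_ne_zero _ t.ne_zero)]
        exact Finset.sum_congr rfl fun l _ => by rw [map_smul, smul_eq_mul]
    refine ⟨?_, fun l hl => ?_⟩
    · rw [h3 k, if_pos le_rfl, sub_self, Int.toNat_zero, Polynomial.coeff_zero_eq_eval_zero, ← hP,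
        ← h2 _ (hG _), h0, ρ.op_one_apply]
    · rw [h3 l, if_neg (by omega)]
  refine ⟨?_, fun l hl => (Module.forall_dual_apply_eq_zero_iff F _).1 fun φ => (key φ).2 l hl⟩
  refine sub_eq_zero.1 ((Module.forall_dual_apply_eq_zero_iff F _).1 fun φ => ?_)
  rw [map_sub, (key φ).1, sub_self]

theorem IsGr.lower (h : ρ.IsGr wt c Γ) (hc : ∀ t, coc wt c t ∈ G) {u : GL (Fin n) F}
    (hu : u ∈ US wt G (posS (-c))) {k : ℤ} {v : L} (hv : v ∈ ρ.wsp wt c k) :
    Γ.pr k (ρ.op u v) = v ∧ ∀ l, k < l → Γ.pr l (ρ.op u v) = 0 := by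
  have h1 : ρ.IsGr wt (-c) (LitGrad2_neg Γ) := fun l w => by
    rw [wsp_neg hc]
    exact h (-l) w
  have h2 := h1.raise (fun t => by rw [coc_neg]; exact G.inv_mem (hc t)) hu (k := -k) (v := v)
    (by rwa [wsp_neg hc, neg_neg])
  refine ⟨?_, fun l hl => ?_⟩
  · have := h2.1
    simpa only [LitGrad2_neg, neg_neg] using this
  · have := h2.2 (-l) (by omega)
    simpa only [LitGrad2_neg, neg_neg] using this

end RRep

end Pool.Agent.Work.MP_bb5f23_al.Lit
end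

-- merged part: Pool.Agent.Work.MP_bb5f23_al.LitCell0
section
/-! Graded subspaces stable under a triangular product. -/

namespace Pool.Agent.Work.MP_bb5f23_al.Lit

variable {F : Type} [Field F] {n r : ℕ}

theorem LitCell0_zero {L : Type} [AddCommGroup L] [Module F L] (Γ : Grading F L)
    {a : Module.End F L} {φ : ℤ → ℤ} (hφ : Function.Injective φ)
    (ha : ∀ k v, Γ.pr k (a (Γ.pr k v)) = Γ.pr k v ∧ ∀ l, φ k < φ l → Γ.pr l (a (Γ.pr k v)) = 0)
    {w : L} (h : ∀ l, Γ.pr l w ≠ 0 → Γ.pr l (a w) = 0) : w = 0 := by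
  classical
  by_contra h0
  obtain ⟨m, hm, hmax⟩ := (Γ.S.filter fun l => Γ.pr l w ≠ 0).exists_max_image φ (by
    by_contra hn
    rw [Finset.not_nonempty_iff_eq_empty, Finset.filter_eq_empty_iff] at hn
    exact h0 ((Γ.sum_pr w).symm.trans (Finset.sum_eq_zero fun l hl => not_not.1 (hn hl))))
  rw [Finset.mem_filter] at hm
  have h1 := h m hm.2
  rw [← Γ.sum_pr w, map_sum, map_sum, Finset.sum_eq_single_of_mem m hm.1 fun l hl hlm => ?_,
    (ha m w).1] at h1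
  · exact hm.2 h1
  · by_cases h2 : Γ.pr l w = 0
    · rw [h2, map_zero, map_zero]
    · exact (ha l w).2 m ((hmax l (Finset.mem_filter.2 ⟨hl, h2⟩)).lt_of_ne fun e => hlm (hφ e))

theorem LitCell0_mem {L : Type} [AddCommGroup L] [Module F L] (Γ : Grading F L)
    {W W' : Submodule F L} {a : Module.End F L} (h : ∀ k, ∀ v ∈ W, a (Γ.pr k v) ∈ W') :
    ∀ v ∈ W, a v ∈ W' := fun v hv => by
  rw [← Γ.sum_pr v, map_sum]
  exact sum_mem fun k _ => h k v hv

theorem LitCell0_cut {L : Type} [AddCommGroup L] [Module F L] (Γ : Grading F L) (k m : ℤ) (x : L) :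
    Γ.pr m ((∑ l ∈ Γ.S.filter (k ≤ ·), Γ.pr l) x) = if k ≤ m then Γ.pr m x else 0 := by
  simp only [LinearMap.sum_apply, map_sum, Γ.pr_pr, Finset.sum_ite_eq, Finset.mem_filter]
  by_cases hm : m ∈ Γ.S
  · simp only [hm, true_and]
  · simp [Γ.pr_eq_zero m hm]

/-- Let `P k = ∑ l ≥ k, pr l`. If `w = P k w` and `P k (a w) = 0` then `w = 0` (look at the top
component of `w`). So `w ↦ P k (a b u w)` is an injective, hence surjective, endomorphism of
`W ⊓ range (P k)`. For `v ∈ W` of degree `k` pick `w` mapping to `v`; then `w' = b u w` has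
`P k (a (w' - v)) = 0`, so `a v = a b u w ∈ W`. Hence `a W = W`, `b u W ≤ W`, and `b v` is the
degree `k` component of `b u v`. -/
theorem Grading.stable_factors {L : Type} [AddCommGroup L] [Module F L] [FiniteDimensional F L]
    (Γ : Grading F L) {a b u : Module.End F L}
    (ha : ∀ k v, Γ.pr k (a (Γ.pr k v)) = Γ.pr k v ∧ ∀ l, k < l → Γ.pr l (a (Γ.pr k v)) = 0)
    (hb : ∀ k v, Γ.pr k (b v) = b (Γ.pr k v)) (hb' : Function.Injective b)
    (hu : ∀ k v, Γ.pr k (u (Γ.pr k v)) = Γ.pr k v ∧ ∀ l < k, Γ.pr l (u (Γ.pr k v)) = 0)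
    {W : Submodule F L} (hW : ∀ k, ∀ v ∈ W, Γ.pr k v ∈ W) (h : ∀ v ∈ W, a (b (u v)) ∈ W) :
    (∀ v ∈ W, a v ∈ W) ∧ (∀ v ∈ W, b v ∈ W) ∧ ∀ v ∈ W, u v ∈ W := by
  have hu' : Function.Injective u := (injective_iff_map_eq_zero u).2 fun w hw =>
    LitCell0_zero Γ neg_injective (fun k v => ⟨(hu k v).1, fun l hl => (hu k v).2 l (by omega)⟩)
      fun l _ => by rw [hw, map_zero]
  have key : ∀ k, ∀ v ∈ W, ∃ w ∈ W, b (u w) = Γ.pr k v := fun k v hv => by
    set V : Submodule F L := W ⊓ ⨅ l < k, LinearMap.ker (Γ.pr l) with hV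
    have hV' : ∀ w, w ∈ V ↔ w ∈ W ∧ ∀ l < k, Γ.pr l w = 0 := fun w => by
      simp only [hV, Submodule.mem_inf, Submodule.mem_iInf, LinearMap.mem_ker]
    have h1 : ∀ w ∈ V, ∀ l < k, Γ.pr l (b (u w)) = 0 := fun w hw l hl => by
      rw [hb, ← Γ.sum_pr w, map_sum, map_sum, Finset.sum_eq_zero fun m _ => ?_, map_zero]
      rcases lt_or_ge m k with hm | hm
      · rw [((hV' w).1 hw).2 m hm, map_zero, map_zero]
      · exact (hu m w).2 l (by omega)
    have h2 : ∀ w ∈ V, ((∑ l ∈ Γ.S.filter (k ≤ ·), Γ.pr l) ∘ₗ a ∘ₗ b ∘ₗ u) w ∈ V := fun w hw =>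
      (hV' _).2 ⟨by
        rw [LinearMap.comp_apply, LinearMap.sum_apply]
        exact sum_mem fun l _ => hW l _ (h w ((hV' w).1 hw).1), fun l hl =>
          (LitCell0_cut Γ k l _).trans (if_neg hl.not_ge)⟩
    have h3 : Function.Injective (LinearMap.restrict _ h2) :=
      (injective_iff_map_eq_zero _).2 fun w hw => Subtype.ext (hu' (hb' (by
        rw [Submodule.coe_zero, map_zero, map_zero]
        refine LitCell0_zero Γ Function.injective_id ha fun l hl => ?_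
        have h4 := LitCell0_cut Γ k l (a (b (u w)))
        rw [if_pos (not_lt.1 fun h5 => hl (h1 w w.2 l h5))] at h4
        rw [← h4]
        exact (congrArg (Γ.pr l) (congrArg Subtype.val hw)).trans (map_zero _))))
    have h4 : ∀ l, l ≠ k → Γ.pr l (Γ.pr k v) = 0 := fun l hl => by rw [Γ.pr_pr, if_neg hl]
    obtain ⟨w, hw⟩ := LinearMap.injective_iff_surjective.1 h3
      ⟨Γ.pr k v, (hV' _).2 ⟨hW k v hv, fun l hl => h4 l hl.ne⟩⟩
    refine ⟨w, ((hV' w).1 w.2).1, sub_eq_zero.1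
      (LitCell0_zero Γ Function.injective_id ha fun l hl => ?_)⟩
    have h5 : k ≤ l := not_lt.1 fun h5 => hl (by rw [map_sub, h1 w w.2 l h5, h4 l h5.ne, sub_zero])
    have h6 := LitCell0_cut Γ k l (a (b (u w)))
    rw [if_pos h5] at h6
    have h7 : Γ.pr l (a (b (u w))) = Γ.pr l (Γ.pr k v) :=
      h6.symm.trans (congrArg (Γ.pr l) (congrArg Subtype.val hw))
    rw [map_sub, map_sub, h7, sub_eq_zero]
    rcases h5.eq_or_lt with rfl | h5
    · rw [(ha k v).1, Γ.pr_pr, if_pos rfl]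
    · rw [(ha k v).2 l h5, h4 l h5.ne']
  have h1 : W = W.map (b ∘ₗ u) := Submodule.eq_of_le_of_finrank_eq
    (LitCell0_mem Γ (a := 1) key) (W.equivMapOfInjective (b ∘ₗ u) (hb'.comp hu')).finrank_eq
  have h2 : ∀ v ∈ W, b (u v) ∈ W := fun v hv => h1.ge (Submodule.mem_map_of_mem hv)
  have h3 : ∀ v ∈ W, b v ∈ W := LitCell0_mem Γ fun k v hv => by
    rw [← (hu k v).1, ← hb]
    exact hW k _ (h2 _ (hW k v hv))
  have h4 : W.map b = W := Submodule.eq_of_le_of_finrank_eq (Submodule.map_le_iff_le_comap.2 h3)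
    (W.equivMapOfInjective _ hb').finrank_eq.symm
  refine ⟨LitCell0_mem Γ fun k v hv => ?_, h3, fun v hv => ?_⟩
  · obtain ⟨w, hw, e⟩ := key k v hv
    exact e ▸ h w hw
  · obtain ⟨w, hw, e⟩ := h4.ge (h2 v hv)
    exact hb' e ▸ hw

end Pool.Agent.Work.MP_bb5f23_al.Lit
end

-- merged part: Pool.Agent.Work.MP_bb5f23_al.LitCell
section
/-! The factors of an element of the big cell lie in the group. -/

namespace Pool.Agent.Work.MP_bb5f23_al.Lit

variable {F : Type} [Field F] {n r : ℕ}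

/-- The polynomial functions of degree at most `d`. -/
noncomputable def polyLE (F : Type) [Field F] (n d : ℕ) : Submodule F (GL (Fin n) F → F) :=
  (MvPolynomial.restrictTotalDegree (Fin n × Fin n) F d).map
    (MvPolynomial.aeval (fun ij : Fin n × Fin n => fun g : GL (Fin n) F => g.1 ij.1 ij.2) :
      MvPolynomial (Fin n × Fin n) F →ₐ[F] (GL (Fin n) F → F)).toLinearMap

theorem LitCell_aeval (P : MvPolynomial (Fin n × Fin n) F) (g : GL (Fin n) F) :
    MvPolynomial.aeval (fun ij : Fin n × Fin n => fun g : GL (Fin n) F => g.1 ij.1 ij.2) P g =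
      MvPolynomial.eval (fun ij => g.1 ij.1 ij.2) P := by
  induction P using MvPolynomial.induction_on with
  | C a => simp
  | add p q hp hq => simp [hp, hq]
  | mul_X p i hp => simp [hp]

theorem LitCell_degree {σ : Type} (φ : σ → MvPolynomial σ F) (h : ∀ i, (φ i).totalDegree ≤ 1)
    (P : MvPolynomial σ F) : (MvPolynomial.aeval φ P).totalDegree ≤ P.totalDegree := by
  conv_lhs => rw [P.as_sum, map_sum]
  refine MvPolynomial.totalDegree_finsetSum_le fun s hs => le_trans ?_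
    (MvPolynomial.le_totalDegree hs)
  rw [MvPolynomial.aeval_monomial]
  refine (MvPolynomial.totalDegree_mul _ _).trans ?_
  rw [MvPolynomial.algebraMap_eq, MvPolynomial.totalDegree_C, zero_add]
  refine (MvPolynomial.totalDegree_finsetProd _ _).trans (Finset.sum_le_sum fun i _ => ?_)
  exact (MvPolynomial.totalDegree_pow _ _).trans
    ((Nat.mul_le_mul_left _ (h i)).trans (mul_one _).le)

theorem mem_polyLE {d : ℕ} {f : GL (Fin n) F → F} : f ∈ polyLE F n d ↔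
    ∃ P : MvPolynomial (Fin n × Fin n) F, P.totalDegree ≤ d ∧
      ∀ g : GL (Fin n) F, f g = MvPolynomial.eval (fun ij => g.1 ij.1 ij.2) P := by
  refine exists_congr fun P => and_congr (MvPolynomial.mem_restrictTotalDegree _ _ _) ?_
  rw [eq_comm, funext_iff]
  exact forall_congr' fun g => by rw [AlgHom.toLinearMap_apply, LitCell_aeval]

instance (d : ℕ) : FiniteDimensional F (polyLE F n d) := Module.Finite.map _ _

/-- A linear substitution does not raise the total degree. -/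
theorem mul_mem_polyLE {d : ℕ} {f : GL (Fin n) F → F} (hf : f ∈ polyLE F n d)
    (g h : GL (Fin n) F) : (fun x => f (g * x * h)) ∈ polyLE F n d := by
  obtain ⟨P, hP, e⟩ := mem_polyLE.1 hf
  refine mem_polyLE.2 ⟨MvPolynomial.aeval (fun ij : Fin n × Fin n =>
    ∑ l, ∑ k, (g.1 ij.1 k * h.1 l ij.2) • MvPolynomial.X (k, l)) P,
    (LitCell_degree _ (fun ij => ?_) P).trans hP, fun x => ?_⟩
  · exact MvPolynomial.totalDegree_finsetSum_le fun l _ =>
      MvPolynomial.totalDegree_finsetSum_le fun k _ =>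
        (MvPolynomial.totalDegree_smul_le _ _).trans (MvPolynomial.totalDegree_X _).le
  · rw [e, MvPolynomial.aeval_eq_bind₁, ← MvPolynomial.coe_aeval_eq_eval,
      ← MvPolynomial.coe_aeval_eq_eval]
    simp only [RingHom.coe_coe, MvPolynomial.aeval_bind₁]
    congr 2
    funext ij
    simp [Matrix.mul_apply, Finset.sum_mul, mul_right_comm]

theorem polyLE_le {d : ℕ} {f : GL (Fin n) F → F} (hf : f ∈ polyLE F n d) : f ∈ glA F n := by
  obtain ⟨P, -, e⟩ := mem_polyLE.1 hf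
  rw [funext e]
  exact eval_mem_glA P

theorem exists_mem_polyLE (P : MvPolynomial (Fin n × Fin n) F) :
    (fun g : GL (Fin n) F => MvPolynomial.eval (fun ij => g.1 ij.1 ij.2) P) ∈
      polyLE F n P.totalDegree := mem_polyLE.2 ⟨P, le_rfl, fun _ => rfl⟩

variable [IsAlgClosed F] [IsFbar F] {wt : Fin n → Fin r → ℤ} {G : Subgroup (GL (Fin n) F)}
  {c : Fin r → ℤ}

/-- Take `d` from `Cl.exists_degree`, the representation of `⊤` on `polyLE F n d`
(`RRep.exists_fn`), and `W` the functions vanishing on `G`. An element stabilises `W` if and only if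
it lies in `G` (evaluate at `1`). Apply `Grading.stable_factors` (`IsGr.lower`, `IsGr.pr_op`,
`comm_coc_iff`, `IsGr.raise`, `IsGr.pr_mem`). -/
theorem factor_mem (hG : Cl (glA F n) (G : Set (GL (Fin n) F))) (hc : ∀ t, coc wt c t ∈ G)
    {a b u : GL (Fin n) F} (ha : a ∈ US wt ⊤ (posS (-c))) (hb : b ∈ US wt ⊤ (zeroS c))
    (hu : u ∈ US wt ⊤ (posS c)) (h : a * b * u ∈ G) : a ∈ G ∧ b ∈ G ∧ u ∈ G := by
  obtain ⟨d, I, hI, hI'⟩ := hG.exists_degree
  obtain ⟨σ, hσ⟩ := RRep.exists_fn ⊤ (polyLE F n d)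
    (fun g _ f hf => by simpa using mul_mem_polyLE hf 1 g)
    fun f hf x => ⟨_, polyLE_le (mul_mem_polyLE hf x 1), fun g _ => by simp⟩
  let W : Submodule F (polyLE F n d) :=
    { carrier := {f | ∀ g ∈ G, f.1 g = 0}
      zero_mem' := fun _ _ => rfl
      add_mem' := fun ha hb g hg => by simp [ha g hg, hb g hg]
      smul_mem' := fun c f hf g hg => by simp [hf g hg] }
  have hW : ∀ g, (∀ f ∈ W, σ.op g f ∈ W) ↔ g ∈ G := fun g =>
    ⟨fun h1 => (hI' g).2 fun P hP => by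
      have h2 := h1 ⟨_, mem_polyLE.2 ⟨P, hI P hP, fun _ => rfl⟩⟩
        (fun x hx => (hI' x).1 hx P hP) 1 G.one_mem
      rwa [hσ g trivial, one_mul] at h2,
    fun hg f hf x hx => by rw [hσ g trivial, hf _ (G.mul_mem hx hg)]⟩
  have hc' : ∀ t, coc wt c t ∈ (⊤ : Subgroup (GL (Fin n) F)) := fun _ => trivial
  obtain ⟨Γ, hΓ⟩ := σ.exists_gr hc'
  rw [← hW a, ← hW b, ← hW u]
  refine Γ.stable_factors (fun k v => hΓ.lower hc' ha (hΓ k v))
    (hΓ.pr_op hc' trivial (comm_coc_iff.2 hb)) (σ.op_injective trivial)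
    (fun k v => hΓ.raise hc' hu (hΓ k v))
    (fun k v hv => hΓ.pr_mem (fun t => (hW _).2 (hc t)) hv k) fun v hv => ?_
  rw [← σ.op_mul_apply trivial trivial, ← σ.op_mul_apply trivial trivial]
  exact (hW _).2 h v hv

theorem exists_levi_mem (hG : Cl (glA F n) (G : Set (GL (Fin n) F))) (hc : ∀ t, coc wt c t ∈ G)
    {p : GL (Fin n) F} (hp : p ∈ US wt G (nnS c)) :
    ∃ b ∈ US wt G (zeroS c), ∃ u ∈ US wt G (posS c), p = b * u := by
  obtain ⟨b, hb, u, hu, e⟩ := exists_levi (US_mono le_top le_rfl hp)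
  obtain ⟨-, h1, h2⟩ := factor_mem hG hc (one_mem _) hb hu (by rw [one_mul, ← e]; exact hp.1)
  exact ⟨b, ⟨h1, hb.2⟩, u, ⟨h2, hu.2⟩, e⟩

end Pool.Agent.Work.MP_bb5f23_al.Lit
end

-- merged part: Pool.Agent.Work.MP_bb5f23_al.LitOmega
section
/-! The big cell of a closed connected group. -/

namespace Pool.Agent.Work.MP_bb5f23_al.Lit

variable {F : Type} [Field F] {n r : ℕ}

/-- A closed irreducible group with maximal torus `TT F wt`. -/
structure Good (wt : Fin n → Fin r → ℤ) (G : Subgroup (GL (Fin n) F)) : Prop where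
  span : AddSubgroup.closure (Set.range wt) = ⊤
  cl : Cl (glA F n) (G : Set (GL (Fin n) F))
  irr : Irr (glA F n) (G : Set (GL (Fin n) F))
  le : TT F wt ≤ G
  max : ∀ S : Subgroup (GL (Fin n) F), IsTorus S → TT F wt ≤ S → S ≤ G → S ≤ TT F wt

variable {wt : Fin n → Fin r → ℤ} {G H : Subgroup (GL (Fin n) F)} {c : Fin r → ℤ}

theorem Good.coc_mem (hG : Good wt G) (c : Fin r → ℤ) (t : Fˣ) : coc wt c t ∈ G :=
  hG.le (Lit.coc_mem c t)

theorem Good.sub (hG : Good wt G) (hH : H ≤ G) (h1 : Cl (glA F n) (H : Set (GL (Fin n) F)))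
    (h2 : Irr (glA F n) (H : Set (GL (Fin n) F))) (h3 : TT F wt ≤ H) : Good wt H :=
  ⟨hG.span, h1, h2, h3, fun S hS h h' => hG.max S hS h (h'.trans hH)⟩

variable [IsAlgClosed F] [IsFbar F]

theorem exists_cell (hG : Cl (glA F n) (G : Set (GL (Fin n) F))) (hT : TT F wt ≤ G)
    {g : GL (Fin n) F} (hg : g ∈ G) (h : del wt c g ≠ 0) : ∃ a ∈ US wt G (posS (-c)),
      ∃ b ∈ US wt G (zeroS c), ∃ u ∈ US wt G (posS c), g = a * b * u := by
  obtain ⟨a, ha, b, hb, u, hu, rfl⟩ := del_ne_zero_iff.1 h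
  obtain ⟨h1, h2, h3⟩ := factor_mem hG (fun t => hT (coc_mem c t)) ha hb hu hg
  exact ⟨a, ⟨h1, ha.2⟩, b, ⟨h2, hb.2⟩, u, ⟨h3, hu.2⟩, rfl⟩

omit [IsAlgClosed F] [IsFbar F] in
theorem Good.subset_zcl_cell (hG : Good wt G) (c : Fin r → ℤ) :
    (G : Set (GL (Fin n) F)) ⊆ zcl (glA F n) {g ∈ (G : Set (GL (Fin n) F)) | del wt c g ≠ 0} :=
  hG.irr.subset_zcl_ne del_mem ⟨1, G.one_mem, by rw [del_one]; exact one_ne_zero⟩

/-- `x ↦ del x` and `x ↦ del (x⁻¹ g)` (`Irr.exists_ne_ne`). -/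
theorem Good.exists_mul (hG : Good wt G) (c : Fin r → ℤ) {g : GL (Fin n) F} (hg : g ∈ G) :
    ∃ x ∈ G, ∃ y ∈ G, del wt c x ≠ 0 ∧ del wt c y ≠ 0 ∧ g = x * y := by
  obtain ⟨x, hx, h1, h2⟩ := hG.irr.exists_ne_ne (del_mem (wt := wt) (c := c))
    ((reg_inv.mul (reg_const _ _ g)) _ (del_mem (wt := wt) (c := c)))
    ⟨1, G.one_mem, by rw [del_one]; exact one_ne_zero⟩
    ⟨g, hg, by simp [del_one]⟩
  exact ⟨x, hx, x⁻¹ * g, G.mul_mem (G.inv_mem hx) hg, h1, h2, (mul_inv_cancel_left x g).symm⟩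

theorem Good.le_sup (hG : Good wt G) (c : Fin r → ℤ) :
    G ≤ US wt G (posS (-c)) ⊔ US wt G (zeroS c) ⊔ US wt G (posS c) := by
  have key : ∀ x ∈ G, del wt c x ≠ 0 →
      x ∈ US wt G (posS (-c)) ⊔ US wt G (Lit.zeroS c) ⊔ US wt G (posS c) := fun x hx h => by
    obtain ⟨a, ha, b, hb, u, hu, rfl⟩ := exists_cell hG.cl hG.le hx h
    exact Subgroup.mul_mem_sup (Subgroup.mul_mem_sup ha hb) hu
  intro g hg
  obtain ⟨x, hx, y, hy, h1, h2, rfl⟩ := hG.exists_mul c hg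
  exact mul_mem (key x hx h1) (key y hy h2)

/-- The centraliser of a cocharacter is the image of the big cell under the map of
`exists_levi_map` (`factor_mem`, `LU_unique`), hence irreducible. -/
theorem Good.zeroS (hG : Good wt G) (c : Fin r → ℤ) : Good wt (US wt G (zeroS c)) := by
  refine hG.sub US_le hG.cl.US ?_ (TT_le_US hG.le (zero_dotProduct c))
  obtain ⟨β, hβ, h⟩ := exists_levi_map (F := F) wt c
  have h1 := (hG.irr.ne (del_mem (wt := wt) (c := c))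
    ⟨1, G.one_mem, by rw [del_one]; exact one_ne_zero⟩).image (B := glA F n) (φ := β)
    fun f hf => (hβ f hf).imp fun _ hg => ⟨hg.1, fun x hx => hg.2 x hx.2⟩
  convert h1 using 1
  refine Set.Subset.antisymm (fun b hb => ?_) ?_
  · have hb' : b ∈ US wt ⊤ (Lit.zeroS c) := US_mono le_top le_rfl hb
    have h2 : del wt c b ≠ 0 :=
      del_ne_zero_iff.2 ⟨1, one_mem _, b, hb', 1, one_mem _, by rw [one_mul, mul_one]⟩
    obtain ⟨h3, a, ha, u, hu, e⟩ := h b h2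
    exact ⟨b, ⟨hb.1, h2⟩, (LU_unique ha (one_mem _) h3 hb' hu (one_mem _)
      (by rw [one_mul, mul_one, ← e])).2.1⟩
  · rintro _ ⟨g, hg, rfl⟩
    obtain ⟨h3, a, ha, u, hu, e⟩ := h g hg.2
    exact ⟨(factor_mem hG.cl (hG.coc_mem c) ha h3 hu (e ▸ hg.1)).2.1, h3.2⟩

theorem Good.nullS (hG : Good wt G) : Good wt (US wt G (nullS r)) := by
  obtain ⟨c, hc⟩ := exists_regular' wt
  rw [← hc.US_zeroS]
  exact hG.zeroS c

theorem Good.line (hG : Good wt G) (e : Fin r → ℤ) : Good wt (US wt G (line e)) := by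
  obtain ⟨c, hc⟩ := exists_line_cochar wt e
  rw [← US_congr hc]
  exact hG.zeroS c

/-- `exists_levi_mem`, `Irr.sup`. -/
theorem Good.nnS (hG : Good wt G) (c : Fin r → ℤ) : Good wt (US wt G (nnS c)) := by
  refine hG.sub US_le hG.cl.US ?_ (TT_le_US hG.le (zero_dotProduct c).ge)
  have e : US wt G (Lit.nnS c) = US wt G (Lit.zeroS c) ⊔ US wt G (posS c) := by
    refine le_antisymm (fun p hp => ?_) (sup_le (US_mono le_rfl fun _ h => (mem_zeroS.1 h).ge)
      (US_mono le_rfl fun _ h => (mem_posS.1 h).le))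
    obtain ⟨b, hb, u, hu, rfl⟩ := exists_levi_mem hG.cl (hG.coc_mem c) hp
    exact Subgroup.mul_mem_sup hb hu
  rw [e]
  exact (hG.zeroS c).irr.sup (irr_US hG.le le_rfl)

end Pool.Agent.Work.MP_bb5f23_al.Lit
end

-- merged part: Pool.Agent.Work.MP_bb5f23_al.LitRays
section
/-! Factorisations of unipotent subgroups. -/

namespace Pool.Agent.Work.MP_bb5f23_al.Lit

variable {F : Type} [Field F] [IsAlgClosed F] [IsFbar F] {n r : ℕ} {wt : Fin n → Fin r → ℤ}
  {G : Subgroup (GL (Fin n) F)} {c : Fin r → ℤ}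

omit [IsAlgClosed F] [IsFbar F] in
theorem litRays_split {S : AddSubsemigroup (Fin r → ℤ)} (μ : Fin r → ℤ)
    {E : Matrix (Fin n) (Fin n) F} (hE : E ∈ MS F wt S) :
    ∃ E₁ ∈ MS F wt (S ⊓ posS (-μ) : AddSubsemigroup _),
      ∃ E₂ ∈ MS F wt (S ⊓ zeroS μ : AddSubsemigroup _),
        ∃ E₃ ∈ MS F wt (S ⊓ posS μ : AddSubsemigroup _), E = E₁ + E₂ + E₃ := by
  refine ⟨Matrix.of fun i j => if (wt i - wt j) ⬝ᵥ μ < 0 then E i j else 0, fun i j h => ?_,
    Matrix.of fun i j => if (wt i - wt j) ⬝ᵥ μ = 0 then E i j else 0, fun i j h => ?_,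
    Matrix.of fun i j => if 0 < (wt i - wt j) ⬝ᵥ μ then E i j else 0, fun i j h => ?_, ?_⟩
  · obtain ⟨h1, h2⟩ := ite_ne_right_iff.1 h
    exact ⟨hE i j h2, mem_posS.2 (by rw [dotProduct_neg]; omega)⟩
  · obtain ⟨h1, h2⟩ := ite_ne_right_iff.1 h
    exact ⟨hE i j h2, h1⟩
  · obtain ⟨h1, h2⟩ := ite_ne_right_iff.1 h
    exact ⟨hE i j h2, h1⟩
  · ext i j
    simp only [Matrix.add_apply, Matrix.of_apply]
    rcases lt_trichotomy ((wt i - wt j) ⬝ᵥ μ) 0 with h | h | h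
    · rw [if_pos h, if_neg h.ne, if_neg h.not_gt, add_zero, add_zero]
    · rw [if_neg h.not_lt, if_pos h, if_neg h.not_gt, zero_add, add_zero]
    · rw [if_neg h.not_gt, if_neg h.ne', if_pos h, zero_add, zero_add]

omit [IsAlgClosed F] [IsFbar F] in
theorem litRays_approx {S : AddSubsemigroup (Fin r → ℤ)} (hS : S ≤ posS c) (μ : Fin r → ℤ)
    {u : Matrix (Fin n) (Fin n) F} (hu : u - 1 ∈ MS F wt S) (k : ℕ) :
    ∃ A ∈ MS F wt (S ⊓ posS (-μ) : AddSubsemigroup _),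
      ∃ B ∈ MS F wt (S ⊓ zeroS μ : AddSubsemigroup _),
        ∃ W ∈ MS F wt (S ⊓ posS μ : AddSubsemigroup _),
          u - (1 + A) * (1 + B) * (1 + W) ∈ MS F wt (S ⊓ gtS c k : AddSubsemigroup _) := by
  induction k with
  | zero =>
    refine ⟨0, zero_mem _, 0, zero_mem _, 0, zero_mem _, ?_⟩
    simp only [add_zero, mul_one]
    refine MS_mono (fun x hx => ?_) hu
    exact ⟨hx, hS hx⟩
  | succ k ih =>
    obtain ⟨A, hA, B, hB, W, hW, hE⟩ := ih
    obtain ⟨E₁, h₁, E₂, h₂, E₃, h₃, e⟩ := litRays_split μ hE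
    have up : ∀ {T T' : AddSubsemigroup (Fin r → ℤ)}, T ≤ T' → ∀ {m}, m ∈ MS F wt T →
        m ∈ MS F wt T' := fun h _ hm => MS_mono h hm
    have hl : ∀ {x y}, x ∈ MS F wt S → y ∈ MS F wt (S ⊓ gtS c k : AddSubsemigroup _) →
        x * y ∈ MS F wt (S ⊓ gtS c (k + 1) : AddSubsemigroup _) := fun hx hy => by
      refine mul_mem_MS (fun a ha b hb => ?_) hx hy
      have k1 := mem_posS.1 (hS ha)
      have k2 := mem_gtS.1 hb.2
      refine ⟨S.add_mem ha hb.1, mem_gtS.2 ?_⟩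
      rw [add_dotProduct]
      omega
    have hr : ∀ {x y}, x ∈ MS F wt (S ⊓ gtS c k : AddSubsemigroup _) → y ∈ MS F wt S →
        x * y ∈ MS F wt (S ⊓ gtS c (k + 1) : AddSubsemigroup _) := fun hx hy => by
      refine mul_mem_MS (fun a ha b hb => ?_) hx hy
      have k1 := mem_posS.1 (hS hb)
      have k2 := mem_gtS.1 ha.2
      refine ⟨S.add_mem ha.1 hb, mem_gtS.2 ?_⟩
      rw [add_dotProduct]
      omega
    have hk : S ⊓ gtS c (k + 1) ≤ S ⊓ gtS c k := inf_le_inf_left _ fun x hx => by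
      have k1 := mem_gtS.1 hx
      refine mem_gtS.2 ?_
      omega
    have hA' := add_mem hA (up (inf_le_inf_right _ inf_le_left) h₁)
    have hB' := add_mem hB (up (inf_le_inf_right _ inf_le_left) h₂)
    have hW' := add_mem hW (up (inf_le_inf_right _ inf_le_left) h₃)
    refine ⟨A + E₁, hA', B + E₂, hB', W + E₃, hW', ?_⟩
    have e' : u - (1 + (A + E₁)) * (1 + (B + E₂)) * (1 + (W + E₃)) =
        -(E₁ * (B + E₂ + (W + E₃) + (B + E₂) * (W + E₃))
          + A * (E₂ + E₃ + (B * E₃ + E₂ * (W + E₃))) + (B * E₃ + E₂ * (W + E₃))) := by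
      rw [sub_eq_iff_eq_add.1 e]
      noncomm_ring
    have hZ := add_mem (hl (up inf_le_left hB) (up inf_le_left h₃))
      (hr (up inf_le_left h₂) (up inf_le_left hW'))
    rw [e']
    exact neg_mem (add_mem (add_mem
      (hr (up inf_le_left h₁) (add_mem (add_mem (up inf_le_left hB') (up inf_le_left hW'))
        (mul_mem_MS (fun _ hx _ hy => S.add_mem hx.1 hy.1) hB' hW')))
      (hl (up inf_le_left hA) (add_mem (add_mem (up inf_le_left h₂) (up inf_le_left h₃))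
        (up hk hZ)))) hZ)

omit [IsAlgClosed F] in
/-- Induction on `k`: there are `a, b, w` with `u - a b w ∈ MS (S ⊓ gtS c k)`; split the error
according to the sign of the pairing with `μ` and add the parts to `a, b, w` (work with matrices
`1 + m`, `exists_unit_one_add`, `exists_MS_gt_eq_bot`). -/
theorem exists_tri_factor_top {S : AddSubsemigroup (Fin r → ℤ)} (hS : S ≤ posS c) (μ : Fin r → ℤ)
    {u : GL (Fin n) F} (hu : u ∈ US wt ⊤ S) : ∃ a ∈ US wt ⊤ (S ⊓ posS (-μ)),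
      ∃ b ∈ US wt ⊤ (S ⊓ zeroS μ), ∃ w ∈ US wt ⊤ (S ⊓ posS μ), u = a * b * w := by
  obtain ⟨k, hk⟩ := exists_MS_gt_eq_bot (F := F) wt c
  obtain ⟨A, hA, B, hB, W, hW, hE⟩ := litRays_approx hS μ hu.2 k
  have h0 : u.1 - (1 + A) * (1 + B) * (1 + W) ∈ MS F wt (gtS c k) := MS_mono (fun _ hx => hx.2) hE
  rw [hk, Submodule.mem_bot, sub_eq_zero] at h0
  obtain ⟨a, ha⟩ := exists_unit_one_add (c := c) (MS_mono (fun _ hx => hS hx.1) hA)
  obtain ⟨b, hb⟩ := exists_unit_one_add (c := c) (MS_mono (fun _ hx => hS hx.1) hB)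
  obtain ⟨w, hw⟩ := exists_unit_one_add (c := c) (MS_mono (fun _ hx => hS hx.1) hW)
  refine ⟨a, ⟨trivial, ?_⟩, b, ⟨trivial, ?_⟩, w, ⟨trivial, ?_⟩, Units.ext ?_⟩
  · rwa [ha, add_sub_cancel_left]
  · rwa [hb, add_sub_cancel_left]
  · rwa [hw, add_sub_cancel_left]
  · rw [h0, Units.val_mul, Units.val_mul, ha, hb, hw]

theorem exists_tri_factor (hG : Cl (glA F n) (G : Set (GL (Fin n) F))) (hT : TT F wt ≤ G)
    {S : AddSubsemigroup (Fin r → ℤ)} (hS : S ≤ posS c) (μ : Fin r → ℤ)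
    {u : GL (Fin n) F} (hu : u ∈ US wt G S) : ∃ a ∈ US wt G (S ⊓ posS (-μ)),
      ∃ b ∈ US wt G (S ⊓ zeroS μ), ∃ w ∈ US wt G (S ⊓ posS μ), u = a * b * w := by
  obtain ⟨a, ha, b, hb, w, hw, e⟩ := exists_tri_factor_top hS μ (US_mono le_top le_rfl hu)
  obtain ⟨h1, h2, h3⟩ := factor_mem hG (fun t => hT (coc_mem μ t)) (US_mono le_rfl inf_le_right ha)
    (US_mono le_rfl inf_le_right hb) (US_mono le_rfl inf_le_right hw) (e ▸ hu.1)
  exact ⟨a, ⟨h1, ha.2⟩, b, ⟨h2, hb.2⟩, w, ⟨h3, hw.2⟩, e⟩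

/-- Strong induction on the number of pairs `(i, j)` with `wt i - wt j ∈ S`. If two of these weights
are not on one ray, they are not on one line (`line_inf_posS`); take `μ` from
`exists_dot_of_not_mem_line` and use `exists_tri_factor`. -/
theorem US_le_iSup_ray (hG : Cl (glA F n) (G : Set (GL (Fin n) F))) (hT : TT F wt ≤ G)
    {S : AddSubsemigroup (Fin r → ℤ)} (hS : S ≤ posS c) :
    US wt G S ≤ ⨆ e ∈ S, US wt G (S ⊓ ray e) := by
  classical
  induction h : (Finset.univ.filter fun p : Fin n × Fin n => wt p.1 - wt p.2 ∈ S).card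
    using Nat.strong_induction_on generalizing S with
  | _ N ih =>
    by_cases h0 : ∀ i j, wt i - wt j ∉ S
    · rw [US_eq_bot h0]
      exact bot_le
    simp only [not_forall, not_not] at h0
    obtain ⟨i, j, he⟩ := h0
    by_cases h1 : ∀ i' j', wt i' - wt j' ∈ S → wt i' - wt j' ∈ ray (wt i - wt j)
    · exact le_iSup₂_of_le (wt i - wt j) he
        (US_mono' le_rfl fun i' j' h' => ⟨h', h1 i' j' h'⟩)
    simp only [not_forall] at h1
    obtain ⟨i', j', hγ, hr⟩ := h1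
    have hl : wt i' - wt j' ∉ line (wt i - wt j) := fun hl =>
      hr (line_inf_posS (mem_posS.1 (hS he)) ▸ (⟨hl, hS hγ⟩ : _ ∈ line _ ⊓ posS c))
    obtain ⟨μ, hμ, hμ'⟩ := exists_dot_of_not_mem_line hl
    have key : ∀ (T : AddSubsemigroup (Fin r → ℤ)) (a b : Fin n), wt a - wt b ∈ S →
        wt a - wt b ∉ T → US wt G (S ⊓ T) ≤ ⨆ e ∈ S, US wt G (S ⊓ ray e) := by
      intro T a b hab hT'
      refine (ih _ ?_ (inf_le_left.trans hS) rfl).trans (iSup₂_le fun e he' =>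
        le_iSup₂_of_le e he'.1 (US_mono le_rfl (inf_le_inf_right _ inf_le_left)))
      rw [← h]
      refine Finset.card_lt_card ⟨fun p hp => ?_, fun hp => ?_⟩
      · rw [Finset.mem_filter] at hp ⊢
        exact ⟨hp.1, hp.2.1⟩
      · exact hT' (Finset.mem_filter.1 (hp (Finset.mem_filter.2
          ⟨Finset.mem_univ (a, b), hab⟩))).2.2
    intro u hu
    obtain ⟨a, ha, b, hb, w, hw, rfl⟩ := exists_tri_factor hG hT hS μ hu
    refine mul_mem (mul_mem (key _ i j he ?_ ha) (key _ i' j' hγ hμ' hb)) (key _ i j he ?_ hw)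
    · rw [mem_posS, dotProduct_neg, hμ]
      simp
    · rw [mem_posS, hμ]
      simp

end Pool.Agent.Work.MP_bb5f23_al.Lit
end

-- merged part: Pool.Agent.Work.MP_bb5f23_al.LitDiag0
section
/-! Closed subgroups of the diagonal torus. -/

namespace Pool.Agent.Work.MP_bb5f23_al.Lit

variable {F : Type} [Field F] {n r : ℕ}

/-- The characters trivial on `D`. -/
def ann (D : Subgroup (Fin n → Fˣ)) : AddSubgroup (Fin n → ℤ) where
  carrier := {γ | ∀ x ∈ D, mon γ x = 1}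
  zero_mem' x _ := mon_zero x
  add_mem' ha hb x hx := by rw [mon_add, ha x hx, hb x hx, one_mul]
  neg_mem' ha x hx := by rw [mon_neg, ha x hx, inv_one]

/-- The vectors with entries bounded by `d`. -/
noncomputable def box (n d : ℕ) : Finset (Fin n → ℤ) := Fintype.piFinset fun _ => Finset.Icc (-(d : ℤ)) d

/-- For `P ∈ I` group the monomials of `P` by their restriction to `D`; by independence of
characters (`linearIndependent_monoidHom`) the coefficients in each group add up to `0`. If `x` is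
killed by `ann D ∩ box` then monomials of one group take the same value at `x`, so `P(x) = 0`. -/
theorem mem_of_ann_box {D : Subgroup (Fin n → Fˣ)} {d : ℕ} {I : Set (MvPolynomial (Fin n) F)}
    (hI : ∀ P ∈ I, P.totalDegree ≤ d)
    (hD : ∀ x, x ∈ D ↔ ∀ P ∈ I, MvPolynomial.eval (fun i => (x i : F)) P = 0) {x : Fin n → Fˣ}
    (hx : ∀ γ ∈ box n d, γ ∈ ann D → mon γ x = 1) : x ∈ D := by
  classical
  refine (hD x).2 fun P hP => ?_
  let e : (Fin n →₀ ℕ) → Fin n → ℤ := fun m i => m i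
  have hev : ∀ y : Fin n → Fˣ, MvPolynomial.eval (fun i => (y i : F)) P =
      ∑ m ∈ P.support, P.coeff m * (mon (e m) y : F) := fun y => by
    rw [MvPolynomial.eval_eq']
    simp [mon, e]
  let χ : (Fin n →₀ ℕ) → (D →* F) := fun m =>
    { toFun := fun y => (mon (e m) y.1 : F)
      map_one' := by simp [mon_one]
      map_mul' := fun y z => by simp [mon_mul] }
  let val : (D →* F) → F := fun ψ =>
    if h : ∃ m ∈ P.support, χ m = ψ then (mon (e h.choose) x : F) else 0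
  have hval : ∀ m ∈ P.support, val (χ m) = mon (e m) x := by
    intro m hm
    have h : ∃ m' ∈ P.support, χ m' = χ m := ⟨m, hm, rfl⟩
    have hb : ∀ m ∈ P.support, ∀ i, m i ≤ d := fun m hm i =>
      ((MvPolynomial.monomial_le_degreeOf i hm).trans (P.degreeOf_le_totalDegree i)).trans (hI P hP)
    have h1 : mon (e h.choose + -e m) x = 1 := by
      refine hx _ (Fintype.mem_piFinset.2 fun i => ?_) fun y hy => ?_
      · have h2 := hb m hm i
        have h3 := hb _ h.choose_spec.1 i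
        simp only [Finset.mem_Icc, Pi.add_apply, Pi.neg_apply, e]
        omega
      · have h2 : (mon (e h.choose) y : F) = mon (e m) y :=
          DFunLike.congr_fun h.choose_spec.2 ⟨y, hy⟩
        rw [mon_add, mon_neg, Units.ext h2, mul_inv_cancel]
    rw [mon_add, mon_neg, mul_inv_eq_one] at h1
    simp only [val, dif_pos h, h1]
  let l : (D →* F) →₀ F := ∑ m ∈ P.support, Finsupp.single (χ m) (P.coeff m)
  have hl : l = 0 := by
    refine linearIndependent_iff.1 (linearIndependent_monoidHom D F) l (funext fun y => ?_)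
    have h1 := (hD y.1).1 y.2 P hP
    rw [hev] at h1
    simp only [l, map_sum, Finsupp.linearCombination_single, Finset.sum_apply, Pi.smul_apply,
      smul_eq_mul]
    exact h1
  have h2 := congrArg (Finsupp.linearCombination F val) hl
  simp only [l, map_sum, Finsupp.linearCombination_single, smul_eq_mul, map_zero] at h2
  rw [hev, ← h2]
  exact Finset.sum_congr rfl fun m hm => by rw [hval m hm]

/-- A substitution of degree at most one does not raise the total degree. -/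
theorem LitDiag0_deg {σ τ : Type} [Fintype σ] (s : σ → MvPolynomial τ F)
    (hs : ∀ i, (s i).totalDegree ≤ 1) (Q : MvPolynomial σ F) :
    (MvPolynomial.aeval s Q).totalDegree ≤ Q.totalDegree := by
  rw [MvPolynomial.aeval_def, MvPolynomial.eval₂_eq]
  refine MvPolynomial.totalDegree_finsetSum_le fun m hm => ?_
  refine (MvPolynomial.totalDegree_mul _ _).trans ?_
  rw [MvPolynomial.algebraMap_eq, MvPolynomial.totalDegree_C, zero_add]
  refine (MvPolynomial.totalDegree_finsetProd _ _).trans (le_trans ?_ (MvPolynomial.le_totalDegree hm))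
  refine Finset.sum_le_sum fun i _ => (MvPolynomial.totalDegree_pow _ _).trans ?_
  exact mul_le_of_le_one_right (Nat.zero_le _) (hs i)

/-- The same for `D = {x | h * dg x * h⁻¹ ∈ G}`, with `d` independent of `h` (`Cl.exists_degree`,
`mul_mem_polyLE`, substitute `X (i, j) ↦ if i = j then X i else 0`). -/
theorem Cl.exists_box {G : Subgroup (GL (Fin n) F)} (hG : Cl (glA F n) (G : Set (GL (Fin n) F))) :
    ∃ d : ℕ, ∀ (h : GL (Fin n) F) (x : Fin n → Fˣ),
      (∀ γ ∈ box n d, (∀ y : Fin n → Fˣ, h * dg y * h⁻¹ ∈ G → mon γ y = 1) → mon γ x = 1) →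
        h * dg x * h⁻¹ ∈ G := by
  obtain ⟨d, I, hI, hG'⟩ := hG.exists_degree
  refine ⟨d, fun h x hx => ?_⟩
  let D : Subgroup (Fin n → Fˣ) := (G.comap (MulAut.conj h).toMonoidHom).comap dg
  refine mem_of_ann_box (D := D) (d := d) (I := {P | P.totalDegree ≤ d ∧
    ∀ y ∈ D, MvPolynomial.eval (fun i => (y i : F)) P = 0}) (fun P hP => hP.1)
    (fun y => ⟨fun hy P hP => hP.2 y hy, fun hy => ?_⟩) fun γ hγ h1 => hx γ hγ h1
  refine (hG' (h * dg y * h⁻¹)).2 fun f hf => ?_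
  have h1 : (fun g : GL (Fin n) F => MvPolynomial.eval (fun ij => g.1 ij.1 ij.2) f) ∈
      polyLE F n d := mem_polyLE.2 ⟨f, hI f hf, fun _ => rfl⟩
  obtain ⟨Q, hQ, hQ'⟩ := mem_polyLE.1 (mul_mem_polyLE h1 h h⁻¹)
  let s : Fin n × Fin n → MvPolynomial (Fin n) F := fun ij =>
    if ij.1 = ij.2 then MvPolynomial.X ij.1 else 0
  have hs : ∀ ij, (s ij).totalDegree ≤ 1 := fun ij => by
    simp only [s]
    split_ifs <;> simp
  have hev : ∀ z : Fin n → Fˣ, MvPolynomial.eval (fun i => (z i : F)) (MvPolynomial.aeval s Q) =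
      MvPolynomial.eval (fun ij => (h * dg z * h⁻¹).1 ij.1 ij.2) f := fun z => by
    rw [hQ' (dg z), MvPolynomial.aeval_def, MvPolynomial.eval_eval₂]
    have e1 : (MvPolynomial.eval fun i => (z i : F)).comp
        (algebraMap F (MvPolynomial (Fin n) F)) = RingHom.id F := by
      ext a
      simp
    rw [e1, MvPolynomial.eval₂_id]
    congr 2
    funext ij
    simp only [s, dg_val, Matrix.diagonal_apply]
    split_ifs <;> simp
  rw [← hev]
  refine hy _ ⟨(LitDiag0_deg s hs Q).trans hQ, fun z hz => ?_⟩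
  rw [hev]
  exact (hG' _).1 hz f hf

/-- The saturation of a subgroup. -/
def sat (Λ : AddSubgroup (Fin n → ℤ)) : AddSubgroup (Fin n → ℤ) where
  carrier := {γ | ∃ m : ℤ, m ≠ 0 ∧ m • γ ∈ Λ}
  zero_mem' := ⟨1, one_ne_zero, by simp⟩
  add_mem' := by
    rintro a b ⟨m, hm, ha⟩ ⟨m', hm', hb⟩
    refine ⟨m * m', mul_ne_zero hm hm', ?_⟩
    rw [smul_add]
    refine Λ.add_mem ?_ ?_
    · rw [mul_comm, mul_smul]
      exact Λ.zsmul_mem ha _
    · rw [mul_smul]
      exact Λ.zsmul_mem hb _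
  neg_mem' := by
    rintro a ⟨m, hm, ha⟩
    exact ⟨m, hm, by rw [smul_neg]; exact Λ.neg_mem ha⟩

theorem mem_sat {Λ : AddSubgroup (Fin n → ℤ)} {γ : Fin n → ℤ} :
    γ ∈ sat Λ ↔ ∃ m : ℤ, m ≠ 0 ∧ m • γ ∈ Λ := Iff.rfl

theorem LitDiag0_exp (Λ : AddSubgroup (Fin n → ℤ)) :
    ∃ N : ℕ, 0 < N ∧ ∀ γ ∈ sat Λ, (N : ℤ) • γ ∈ Λ := by
  have hfg : (sat Λ).FG := by
    rw [← AddSubgroup.toIntSubmodule_toAddSubgroup (sat Λ), ← Submodule.fg_iff_addSubgroup_fg]
    exact IsNoetherian.noetherian _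
  obtain ⟨T, hT⟩ := hfg
  have h1 : ∀ t : T, ∃ m : ℤ, m ≠ 0 ∧ m • (t : Fin n → ℤ) ∈ Λ := fun t =>
    mem_sat.1 (hT ▸ AddSubgroup.subset_closure t.2)
  choose m hm hm' using h1
  refine ⟨∏ t, (m t).natAbs, Finset.prod_pos fun t _ => Int.natAbs_pos.2 (hm t), fun γ hγ => ?_⟩
  rw [← hT] at hγ
  induction hγ using AddSubgroup.closure_induction with
  | mem x hx =>
    obtain ⟨k, hk⟩ : m ⟨x, hx⟩ ∣ ((∏ t, (m t).natAbs : ℕ) : ℤ) :=
      Int.natAbs_dvd.1 (Int.natCast_dvd_natCast.2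
        (Finset.dvd_prod_of_mem (fun t => (m t).natAbs) (Finset.mem_univ _)))
    rw [hk, mul_comm, mul_smul]
    exact Λ.zsmul_mem (hm' ⟨x, hx⟩) _
  | zero => simp
  | add x y _ _ hx hy => rw [smul_add]; exact Λ.add_mem hx hy
  | neg x _ hx => rw [smul_neg]; exact Λ.neg_mem hx

/-- There are finitely many subsets `s`, and each saturation is finitely generated. -/
theorem exists_exponent (n d : ℕ) : ∃ N : ℕ, 0 < N ∧ ∀ s : Finset (Fin n → ℤ), s ⊆ box n d →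
    ∀ γ ∈ sat (AddSubgroup.closure (s : Set (Fin n → ℤ))),
      (N : ℤ) • γ ∈ AddSubgroup.closure (s : Set (Fin n → ℤ)) := by
  choose M hM hM' using fun s : Finset (Fin n → ℤ) =>
    LitDiag0_exp (AddSubgroup.closure (s : Set (Fin n → ℤ)))
  refine ⟨∏ s ∈ (box n d).powerset, M s, Finset.prod_pos fun s _ => hM s, fun s hs γ hγ => ?_⟩
  obtain ⟨k, hk⟩ := Finset.dvd_prod_of_mem M (Finset.mem_powerset.2 hs)
  rw [hk, mul_comm, Nat.cast_mul, mul_smul]
  exact AddSubgroup.zsmul_mem _ (hM' s γ hγ) _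

end Pool.Agent.Work.MP_bb5f23_al.Lit
end

-- merged part: Pool.Agent.Work.MP_bb5f23_al.LitDiag
section
/-! Subtori of the diagonal torus. -/

namespace Pool.Agent.Work.MP_bb5f23_al.Lit

variable {F : Type} [Field F] {n r : ℕ}

theorem LitDiag_mon_sum (wt : Fin n → Fin r → ℤ) (γ : Fin n → ℤ) (z : Fin r → Fˣ) :
    mon (∑ i, γ i • wt i) z = mon γ fun i => mon (wt i) z := by
  have key : ∀ s : Finset (Fin n), mon (∑ i ∈ s, γ i • wt i) z = ∏ i ∈ s, mon (wt i) z ^ γ i := by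
    intro s
    induction s using Finset.induction_on with
    | empty => simp [mon_zero]
    | insert i s hi ih => rw [Finset.sum_insert hi, Finset.prod_insert hi, mon_add, mon_zsmul, ih]
  exact key _

theorem LitDiag_mon_single (i : Fin n) (x : Fin n → Fˣ) : mon (Pi.single i 1) x = x i := by
  rw [mon, Finset.prod_eq_single i] <;> simp +contextual

theorem LitDiag_surj {wt : Fin n → Fin r → ℤ} (hspan : AddSubgroup.closure (Set.range wt) = ⊤)
    (δ : Fin r → ℤ) : ∃ γ : Fin n → ℤ, ∑ i, γ i • wt i = δ := by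
  have h : δ ∈ Submodule.span ℤ (Set.range wt) := by
    rw [← Submodule.mem_toAddSubgroup, Submodule.span_int_eq_addSubgroupClosure, hspan]
    trivial
  exact (Submodule.mem_span_range_iff_exists_fun ℤ).1 h

theorem LitDiag_mem_iff {wt : Fin n → Fin r → ℤ} (hspan : AddSubgroup.closure (Set.range wt) = ⊤)
    {x : Fin n → Fˣ} :
    dg x ∈ TT F wt ↔ ∀ γ : Fin n → ℤ, ∑ i, γ i • wt i = 0 → mon γ x = 1 := by
  constructor
  · rintro ⟨z, hz⟩ γ hγ
    have h : (fun i => mon (wt i) z) = x := dg_injective hz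
    rw [← h, ← LitDiag_mon_sum, hγ, mon_zero]
  · intro h
    choose β hβ using fun j => LitDiag_surj hspan (Pi.single j 1)
    refine ⟨fun j => mon (β j) x, congrArg dg (funext fun i => ?_)⟩
    change mon (wt i) (fun j => mon (β j) x) = x i
    have h1 := h (∑ j, wt i j • β j + -Pi.single i 1) (by
      have e1 : ∑ k, (∑ j, wt i j • β j) k • wt k = ∑ j, wt i j • ∑ k, β j k • wt k := by
        simp only [Finset.sum_apply, Pi.smul_apply, Finset.sum_smul, Finset.smul_sum, smul_assoc]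
        exact Finset.sum_comm
      have e2 : ∑ k, (Pi.single i 1 : Fin n → ℤ) k • wt k = wt i := by
        rw [Finset.sum_eq_single i] <;> simp +contextual
      simp only [Pi.add_apply, Pi.neg_apply, add_smul, neg_smul, Finset.sum_add_distrib,
        Finset.sum_neg_distrib, e1, e2, hβ]
      rw [← pi_eq_sum_univ', add_neg_cancel])
    rwa [mon_add, mon_neg, LitDiag_mon_single, LitDiag_mon_sum, mul_inv_eq_one] at h1

/-- `(Fin n → ℤ) ⧸ Λ` is finitely generated and torsion free, hence free; `wt i` are the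
coordinates of the class of `Pi.single i 1` in a basis. A point `x` killed by `Λ` defines a
homomorphism from the quotient to `Additive Fˣ`; `z j` is its value at the `j`-th basis vector. -/
theorem exists_param (Λ : AddSubgroup (Fin n → ℤ))
    (hΛ : ∀ (m : ℤ) γ, m ≠ 0 → m • γ ∈ Λ → γ ∈ Λ) : ∃ (r : ℕ) (wt : Fin n → Fin r → ℤ),
      AddSubgroup.closure (Set.range wt) = ⊤ ∧ ∀ x : Fin n → Fˣ,
        (∀ γ ∈ Λ, mon γ x = 1) ↔ dg x ∈ TT F wt := by
  have hT : Module.IsTorsionFree ℤ ((Fin n → ℤ) ⧸ Λ.toIntSubmodule) := by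
    refine Module.IsTorsionFree.of_smul_eq_zero fun m q hq => ?_
    obtain ⟨γ, rfl⟩ := Submodule.Quotient.mk_surjective _ q
    rw [← Submodule.Quotient.mk_smul, Submodule.Quotient.mk_eq_zero] at hq
    by_cases hm : m = 0
    · exact Or.inl hm
    · exact Or.inr ((Submodule.Quotient.mk_eq_zero _).2 (hΛ m γ hm hq))
  let b := Module.finBasis ℤ ((Fin n → ℤ) ⧸ Λ.toIntSubmodule)
  let π := b.equivFun.toLinearMap ∘ₗ Λ.toIntSubmodule.mkQ
  have hπ : ∀ γ : Fin n → ℤ, ∑ i, γ i • π (Pi.single i 1) = π γ := fun γ => by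
    conv_rhs => rw [pi_eq_sum_univ' γ]
    simp only [map_sum, map_smul]
  have hspan : AddSubgroup.closure (Set.range fun i => π (Pi.single i 1)) = ⊤ := by
    refine eq_top_iff.2 fun δ _ => ?_
    obtain ⟨γ, rfl⟩ := (b.equivFun.surjective.comp Λ.toIntSubmodule.mkQ_surjective) δ
    change π γ ∈ _
    rw [← hπ]
    exact sum_mem fun i _ => zsmul_mem (AddSubgroup.subset_closure (Set.mem_range_self i)) _
  refine ⟨_, _, hspan, fun x => ?_⟩
  rw [LitDiag_mem_iff hspan]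
  refine forall_congr' fun γ => imp_congr_left ?_
  rw [hπ]
  change _ ↔ b.equivFun (Submodule.Quotient.mk γ) = 0
  rw [b.equivFun.map_eq_zero_iff, Submodule.Quotient.mk_eq_zero]
  rfl

/-- A character of the diagonal torus extends to a regular function. -/
theorem exists_mon_reg (γ : Fin n → ℤ) :
    ∃ f ∈ glA F n, ∀ x : Fin n → Fˣ, f (dg x) = mon γ x := by
  refine ⟨∏ i, (fun g : GL (Fin n) F => g.1 i i) ^ (γ i).toNat *
    (fun g : GL (Fin n) F => (g⁻¹).1 i i) ^ (-γ i).toNat, prod_mem fun i _ =>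
      mul_mem (pow_mem (entry_mem i i) _) (pow_mem (inv_entry_mem i i) _), fun x => ?_⟩
  rw [mon, Units.coe_prod, Finset.prod_apply]
  refine Finset.prod_congr rfl fun i _ => ?_
  rw [Pi.mul_apply, Pi.pow_apply, Pi.pow_apply, ← map_inv, dg_val, dg_val,
    Matrix.diagonal_apply_eq, Matrix.diagonal_apply_eq, ← Units.val_pow_eq_pow_val,
    ← Units.val_pow_eq_pow_val, ← Units.val_mul, Pi.inv_apply, inv_pow, ← zpow_natCast,
    ← zpow_natCast, ← zpow_sub, Int.toNat_sub_toNat_neg]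

theorem cl_diag (Λ : Set (Fin n → ℤ)) :
    Cl (glA F n) {g | ∃ x : Fin n → Fˣ, g = dg x ∧ ∀ γ ∈ Λ, mon γ x = 1} := by
  intro g hg
  obtain ⟨x, rfl⟩ := (isDiag_iff (g := g)).1 fun i j hij => hg _ (entry_mem i j) (by
    rintro _ ⟨y, rfl, -⟩
    exact Matrix.diagonal_apply_ne _ hij)
  refine ⟨x, rfl, fun γ hγ => ?_⟩
  obtain ⟨f, hf, hf'⟩ := exists_mon_reg (F := F) γ
  have h := hg (f - 1) (sub_mem hf (one_mem _)) (by
    rintro _ ⟨y, rfl, hy⟩
    rw [Pi.sub_apply, hf', hy γ hγ]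
    simp)
  rw [Pi.sub_apply, hf', Pi.one_apply, sub_eq_zero] at h
  exact Units.ext h

theorem IsTorus.conj {T : Subgroup (GL (Fin n) F)} (h : IsTorus T) (hirr : Irr (glA F n)
    (T : Set (GL (Fin n) F))) (g : GL (Fin n) F) : IsTorus (T.map (MulAut.conj g).toMonoidHom) := by
  obtain ⟨h1, -, a, ha⟩ := h
  refine ⟨zclosed_iff.2 ?_, Irr.zconn ?_, g * a, ?_⟩
  · have := (zclosed_iff.1 h1).preimage (reg_conj g⁻¹ g)
    convert this using 1
    ext x
    constructor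
    · rintro ⟨t, ht, rfl⟩
      simpa [mul_assoc] using ht
    · exact fun hx => ⟨_, hx, by simp [mul_assoc]⟩
  · exact hirr.image ((reg_conj g g⁻¹).regOn _).zreg
  · rintro _ ⟨t, ht, rfl⟩
    convert ha t ht using 2
    simp [mul_assoc]

variable [IsAlgClosed F]

/-- `dg x ∈ TT` if and only if `x` is killed by the relations between the weights: define a
homomorphism on `Fin r → ℤ` through the surjection `γ ↦ ∑ i, γ i • wt i`. -/
theorem dg_mem_TT_iff {wt : Fin n → Fin r → ℤ} (hspan : AddSubgroup.closure (Set.range wt) = ⊤)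
    {x : Fin n → Fˣ} : dg x ∈ TT F wt ↔ ∀ γ : Fin n → ℤ, ∑ i, γ i • wt i = 0 → mon γ x = 1 :=
  LitDiag_mem_iff hspan

theorem cl_TT {wt : Fin n → Fin r → ℤ} (hspan : AddSubgroup.closure (Set.range wt) = ⊤) :
    Cl (glA F n) (TT F wt : Set (GL (Fin n) F)) := by
  convert cl_diag (F := F) {γ | ∑ i, γ i • wt i = 0} using 1
  ext g
  constructor
  · rintro ⟨z, rfl⟩
    exact ⟨_, rfl, (LitDiag_mem_iff hspan).1 ⟨z, rfl⟩⟩
  · rintro ⟨x, rfl, hx⟩
    exact (LitDiag_mem_iff hspan).2 hx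

theorem isTorus_TT {wt : Fin n → Fin r → ℤ} (hspan : AddSubgroup.closure (Set.range wt) = ⊤) :
    IsTorus (TT F wt) := by
  refine ⟨zclosed_iff.2 (cl_TT hspan), (irr_TT wt).zconn, 1, ?_⟩
  rintro _ ⟨z, rfl⟩
  rw [inv_one, one_mul, mul_one]
  exact Matrix.isDiag_diagonal _

theorem tau_injective {wt : Fin n → Fin r → ℤ} (hspan : AddSubgroup.closure (Set.range wt) = ⊤) :
    Function.Injective (tau wt : (Fin r → Fˣ) → GL (Fin n) F) := by
  intro z w h
  have h1 : (fun i => mon (wt i) z) = fun i => mon (wt i) w := dg_injective h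
  funext j
  obtain ⟨γ, hγ⟩ := LitDiag_surj hspan (Pi.single j 1)
  rw [← LitDiag_mon_single j z, ← LitDiag_mon_single j w, ← hγ, LitDiag_mon_sum, LitDiag_mon_sum,
    h1]

/-- Let `D = {x | h * dg x * h⁻¹ ∈ T}`; `ann D` is saturated since `T` is irreducible
(`irr_of_zconn`, `exists_mon_reg`, `Irr.eq_of_pow`). Use `Cl.exists_box` and `exists_param`. -/
theorem IsTorus.exists_wt {T : Subgroup (GL (Fin n) F)} (hT : IsTorus T) :
    ∃ (h : GL (Fin n) F) (r : ℕ) (wt : Fin n → Fin r → ℤ),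
      AddSubgroup.closure (Set.range wt) = ⊤ ∧
        T = (TT F wt).map (MulAut.conj h).toMonoidHom := by
  obtain ⟨h1, h2, h, hh⟩ := hT
  have hcl := zclosed_iff.1 h1
  have hirr := irr_of_zconn hcl h2
  let D : Subgroup (Fin n → Fˣ) := T.comap ((MulAut.conj h).toMonoidHom.comp dg)
  have hD : ∀ x, x ∈ D ↔ h * dg x * h⁻¹ ∈ T := fun x => Iff.rfl
  have hdiag : ∀ t ∈ T, ∃ x ∈ D, h⁻¹ * t * h = dg x := fun t ht => by
    obtain ⟨x, hx⟩ := isDiag_iff.1 (hh t ht)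
    refine ⟨x, (hD x).2 ?_, hx⟩
    rw [← hx]
    simpa [mul_assoc] using ht
  obtain ⟨r, wt, hspan, hwt⟩ := exists_param (F := F) (ann D) fun m γ hm hγ x hx => by
    obtain ⟨f, hf, hf'⟩ := exists_mon_reg (F := F) γ
    have h3 := hirr.eq_of_pow (reg_conj h⁻¹ h f hf) (Int.natAbs_pos.2 hm) (fun t ht => by
      obtain ⟨y, hy, e⟩ := hdiag t ht
      have h4 := hγ y hy
      rw [mon_zsmul, ← pow_natAbs_eq_one] at h4
      beta_reduce
      rw [e, hf', ← Units.val_pow_eq_pow_val, h4, Units.val_one]) ((hD x).1 hx) T.one_mem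
    have e1 : h⁻¹ * (h * dg x * h⁻¹) * h = dg x := by group
    have e2 : h⁻¹ * 1 * h = dg 1 := by rw [map_one]; group
    beta_reduce at h3
    rw [e1, e2, hf', hf', mon_one] at h3
    exact Units.ext h3
  refine ⟨h, r, wt, hspan, le_antisymm (fun t ht => ?_) ?_⟩
  · obtain ⟨x, hx, e⟩ := hdiag t ht
    refine ⟨dg x, (hwt x).1 fun γ hγ => hγ x hx, ?_⟩
    rw [← e]
    simp [mul_assoc]
  · rintro _ ⟨_, ⟨z, rfl⟩, rfl⟩
    obtain ⟨d, hd⟩ := hcl.exists_box
    exact hd h _ fun γ _ hγ => (hwt _).2 ⟨z, rfl⟩ γ fun y hy => hγ y hy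

end Pool.Agent.Work.MP_bb5f23_al.Lit
end

-- merged part: Pool.Agent.Work.MP_bb5f23_al.LitCent0
section
/-! The centraliser of a maximal torus, first steps. -/

namespace Pool.Agent.Work.MP_bb5f23_al.Lit

section aux

variable {F : Type} [Field F] {n r : ℕ} {wt : Fin n → Fin r → ℤ}

theorem LitCent0_mon_zpow (γ : Fin n → ℤ) (y : Fin n → Fˣ) (m : ℤ) :
    mon γ (y ^ m) = mon (m • γ) y := by
  simp [mon, ← zpow_mul]

/-- The matrix of conjugation by `g` on the block diagonal matrices. -/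
def LitCent0Ad (wt : Fin n → Fin r → ℤ) (g : GL (Fin n) F) :
    Matrix {p : Fin n × Fin n // wt p.1 = wt p.2} {p : Fin n × Fin n // wt p.1 = wt p.2} F :=
  Matrix.of fun p q => g.1 p.1.1 q.1.1 * (g⁻¹).1 q.1.2 p.1.2

theorem LitCent0_TT {t : GL (Fin n) F} (ht : t ∈ TT F wt) : LitCent0Ad wt t = 1 := by
  obtain ⟨z, rfl⟩ := ht
  ext ⟨⟨i, j⟩, h⟩ ⟨⟨k, l⟩, h'⟩
  rw [LitCent0Ad, Matrix.of_apply, ← map_inv, tau_val, tau_val, Matrix.one_apply,
    Matrix.diagonal_apply, Matrix.diagonal_apply]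
  by_cases h1 : i = k
  · by_cases h2 : l = j
    · subst h1 h2
      have h3 : wt i = wt l := h
      simp [mon_inv, h3]
    · have : ¬j = l := fun e => h2 e.symm
      simp [h2, this]
  · simp [h1]

theorem LitCent0_mul (g : GL (Fin n) F) {s : GL (Fin n) F} (h1 : s.1 ∈ MS F wt (nullS r))
    (h2 : (s⁻¹).1 ∈ MS F wt (nullS r)) :
    LitCent0Ad wt (g * s) = LitCent0Ad wt g * LitCent0Ad wt s := by
  ext p q
  rw [Matrix.mul_apply]
  simp only [LitCent0Ad, Matrix.of_apply]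
  rw [← Finset.sum_subtype (Finset.univ.filter fun p : Fin n × Fin n => wt p.1 = wt p.2) (by simp)
    (fun a : Fin n × Fin n => g.1 p.1.1 a.1 * (g⁻¹).1 a.2 p.1.2 * (s.1 a.1 q.1.1 * (s⁻¹).1 q.1.2 a.2)),
    Finset.sum_filter_of_ne, mul_inv_rev, Units.val_mul, Units.val_mul, Matrix.mul_apply,
    Matrix.mul_apply, Finset.sum_mul_sum, Fintype.sum_prod_type]
  · exact Finset.sum_congr rfl fun a _ => Finset.sum_congr rfl fun b _ => by ring
  · intro a _ ha
    have h3 := right_ne_zero_of_mul ha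
    have h4 : wt a.1 - wt q.1.1 = 0 := h1 _ _ (left_ne_zero_of_mul h3)
    have h5 : wt q.1.2 - wt a.2 = 0 := h2 _ _ (right_ne_zero_of_mul h3)
    rw [sub_eq_zero] at h4 h5
    rw [h4, q.2, h5]

theorem LitCent0_pow {s : GL (Fin n) F} (h1 : s.1 ∈ MS F wt (nullS r))
    (h2 : (s⁻¹).1 ∈ MS F wt (nullS r)) (a : ℕ) : LitCent0Ad wt (s ^ a) = LitCent0Ad wt s ^ a := by
  induction a with
  | zero => rw [pow_zero, pow_zero, LitCent0_TT (Subgroup.one_mem _)]
  | succ a ih => rw [pow_succ, pow_succ, LitCent0_mul _ h1 h2, ih]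

theorem LitCent0_diag {s : GL (Fin n) F} (h1 : s.1 ∈ MS F wt (nullS r))
    (h2 : (s⁻¹).1 ∈ MS F wt (nullS r)) (h : LitCent0Ad wt s = 1) : s.1.IsDiag := by
  intro i k hik
  by_contra h0
  have h3 : wt i = wt k := sub_eq_zero.1 (h1 i k h0)
  have h4 : ∀ j, (s⁻¹).1 i j = 0 := by
    intro j
    by_contra hj
    have h5 : wt i = wt j := sub_eq_zero.1 (h2 i j hj)
    have h6 := congrFun (congrFun h ⟨(i, j), h5⟩) ⟨(k, i), h3.symm⟩
    rw [Matrix.one_apply_ne (fun e => hik (congrArg (fun p => p.1.1) e))] at h6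
    exact mul_ne_zero h0 hj h6
  have h5 := congrFun (congrFun s.inv_mul i) i
  rw [Matrix.mul_apply, Matrix.one_apply_eq] at h5
  simp [h4] at h5

theorem LitCent0_geom {R : Type} [Ring R] {c : R} {N : ℕ} (h : c ^ N = 1) :
    (∑ a ∈ Finset.range N, c ^ a) * c = ∑ a ∈ Finset.range N, c ^ a ∧
    (∑ a ∈ Finset.range N, c ^ a) * ∑ a ∈ Finset.range N, c ^ a =
      N • ∑ a ∈ Finset.range N, c ^ a := by
  have h1 := geom_sum_mul c N
  rw [h, sub_self, mul_sub, mul_one, sub_eq_zero] at h1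
  have h2 : ∀ b : ℕ, (∑ a ∈ Finset.range N, c ^ a) * c ^ b = ∑ a ∈ Finset.range N, c ^ a := by
    intro b
    induction b with
    | zero => rw [pow_zero, mul_one]
    | succ b ih => rw [pow_succ, ← mul_assoc, ih, h1]
  refine ⟨h1, ?_⟩
  rw [Finset.mul_sum, Finset.sum_congr rfl fun b _ => h2 b, Finset.sum_const, Finset.card_range]

end aux

variable {F : Type} [Field F] [IsAlgClosed F] [IsFbar F] {n r : ℕ} {wt : Fin n → Fin r → ℤ}
  {G : Subgroup (GL (Fin n) F)}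

/-- Take `d` from `Cl.exists_box` and `N` from `exists_exponent`. Diagonalise `s` and `T`
simultaneously by `h` (`exists_diag`, `comm_TT_iff`). Let `σ` be the set of `γ ∈ box` killing
`D = {y | h * dg y * h⁻¹ ∈ G}`, `Λ = sat (closure σ)` and `wt'` from `exists_param`. The torus
`h (TT wt') h⁻¹` lies in `G` and contains `T` (a character `γ ∈ Λ` has finite order on the divisible
group `T`: every element of `T` is an `m`-th power), so it lies in `T` by `Good.max`; it contains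
`s ^ N`. -/
theorem Good.exists_pow_mem (hG : Good wt G) :
    ∃ N : ℕ, 0 < N ∧ ∀ s ∈ US wt G (Lit.nullS r), SS s → s ^ N ∈ TT F wt := by
  classical
  obtain ⟨d, hd⟩ := hG.cl.exists_box
  obtain ⟨N, hN, hexp⟩ := exists_exponent n d
  refine ⟨N, hN, fun s hs hss => ?_⟩
  have hcomm := comm_TT_iff.2 (US_mono le_top le_rfl hs)
  obtain ⟨h, hh⟩ := exists_diag (S := insert s (TT F wt : Set (GL (Fin n) F)))
    (by
      rintro a (rfl | ha) b (rfl | hb)
      · rfl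
      · exact (hcomm b hb).symm
      · exact hcomm a ha
      · exact TT_comm ha hb)
    (by
      rintro a (rfl | ha)
      · exact hss
      · exact ss_of_mem_TT ha)
  have hh' : ∀ a ∈ insert s (TT F wt : Set (GL (Fin n) F)), ∃ x, h * dg x * h⁻¹ = a := by
    intro a ha
    obtain ⟨x, hx⟩ := isDiag_iff.1 (hh a ha)
    exact ⟨x, by rw [← hx]; group⟩
  set σ := (box n d).filter fun γ => ∀ y : Fin n → Fˣ, h * dg y * h⁻¹ ∈ G → mon γ y = 1 with hσ
  have h0 : ∀ γ ∈ AddSubgroup.closure (σ : Set (Fin n → ℤ)), ∀ y : Fin n → Fˣ,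
      h * dg y * h⁻¹ ∈ G → mon γ y = 1 :=
    (AddSubgroup.closure_le (ann (G.comap ((MulAut.conj h).toMonoidHom.comp dg)))).2
      fun γ hγ => (Finset.mem_filter.1 hγ).2
  obtain ⟨r', wt', hspan, hp⟩ := exists_param (F := F)
    (sat (AddSubgroup.closure (σ : Set (Fin n → ℤ)))) (by
      rintro m γ hm ⟨m', hm', h1⟩
      exact ⟨m' * m, mul_ne_zero hm' hm, by rwa [mul_smul]⟩)
  have hmem : ∀ x : Fin n → Fˣ,
      (∀ γ ∈ sat (AddSubgroup.closure (σ : Set (Fin n → ℤ))), mon γ x = 1) →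
      h * dg x * h⁻¹ ∈ (TT F wt').map (MulAut.conj h).toMonoidHom := fun x hx =>
    ⟨dg x, (hp x).1 hx, rfl⟩
  refine hG.max _ ((isTorus_TT hspan).conj (irr_TT wt') h) ?_ ?_ ?_
  · rintro _ ⟨z, rfl⟩
    obtain ⟨x, hx⟩ := hh' _ (Or.inr (tau_mem z))
    rw [← hx]
    refine hmem x ?_
    rintro γ ⟨m, hm, hγ⟩
    choose w hw using fun i => exists_zpow_eq hm (z i)
    obtain ⟨y, hy⟩ := hh' _ (Or.inr (tau_mem w))
    have h1 : z = w ^ m := funext fun i => (hw i).symm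
    have h2 : x = y ^ m := by
      refine dg_injective ((MulAut.conj h).injective ?_)
      rw [map_zpow, map_zpow, MulAut.conj_apply, MulAut.conj_apply, hx, hy, h1, map_zpow]
    rw [h2, LitCent0_mon_zpow]
    exact h0 _ hγ y (hy ▸ hG.le (tau_mem w))
  · rintro _ ⟨_, ⟨z, rfl⟩, rfl⟩
    refine hd h _ fun γ hγ hγ' => (hp _).2 (tau_mem z) γ ⟨1, one_ne_zero, ?_⟩
    rw [one_smul]
    exact AddSubgroup.subset_closure (Finset.mem_filter.2 ⟨hγ, hγ'⟩)
  · obtain ⟨x, hx⟩ := hh' s (Or.inl rfl)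
    have h1 : s ^ N = h * dg (x ^ (N : ℤ)) * h⁻¹ := by
      rw [← hx, zpow_natCast, map_pow, conj_pow]
    rw [h1]
    refine hmem _ fun γ hγ => ?_
    rw [LitCent0_mon_zpow]
    exact h0 _ (hexp σ (Finset.filter_subset _ _) γ hγ) x (hx ▸ hs.1)

omit [IsFbar F] in
/-- Let `E x` be the matrix, indexed by the pairs `(i, j)` with `wt i = wt j`, of the operator
`m ↦ ∑ a < N, s ^ a * m * s ^ (-a)` on `MS {0}`, where `s = φ x`. Then `E * E = N • E`, so
`det E` takes finitely many values; it is regular (`det_mem`) and nonzero at `x₀`. Hence `E x` is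
invertible and `E x = N`; so `s` commutes with `MS {0}` (as `s (E m) s⁻¹ = E m`), in particular with
the matrix units `single i i 1`, so it is diagonal. -/
theorem isDiag_of_pow {X : Type} {A : Subalgebra F (X → F)} {S : Set X} (hS : Irr A S)
    {φ : X → GL (Fin n) F} (hφ : Reg A (glA F n) φ) {N : ℕ} (hN : (N : F) ≠ 0)
    (h0 : ∀ x ∈ S, (φ x).1 ∈ MS F wt (Lit.nullS r) ∧ ((φ x)⁻¹).1 ∈ MS F wt (Lit.nullS r))
    (hpow : ∀ x ∈ S, φ x ^ N ∈ TT F wt) {x₀ : X} (hx₀ : x₀ ∈ S) (h1 : φ x₀ = 1) :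
    ∀ x ∈ S, (φ x).1.IsDiag := by
  let E := fun x => ∑ a ∈ Finset.range N, LitCent0Ad wt (φ x ^ a)
  let k := Fintype.card {p : Fin n × Fin n // wt p.1 = wt p.2}
  have hE : (fun x => (E x).det) ∈ A := by
    refine det_mem fun p q => ?_
    have h2 : (fun x => E x p q) = ∑ a ∈ Finset.range N,
        (fun x => (φ x ^ a).1 p.1.1 q.1.1) * fun x => ((φ x ^ a)⁻¹).1 q.1.2 p.1.2 := by
      funext x
      simp only [E, Matrix.sum_apply, Finset.sum_apply]
      rfl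
    rw [h2]
    exact A.sum_mem fun a _ => A.mul_mem (hφ.pow a _ (entry_mem _ _))
      (hφ.pow a _ (inv_entry_mem _ _))
  have hE' : ∀ x ∈ S, E x = ∑ a ∈ Finset.range N, LitCent0Ad wt (φ x) ^ a := fun x hx =>
    Finset.sum_congr rfl fun a _ => LitCent0_pow (h0 x hx).1 (h0 x hx).2 a
  have hg : ∀ x ∈ S, E x * LitCent0Ad wt (φ x) = E x ∧ E x * E x = N • E x := fun x hx => by
    rw [hE' x hx]
    refine LitCent0_geom ?_
    rw [← LitCent0_pow (h0 x hx).1 (h0 x hx).2, LitCent0_TT (hpow x hx)]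
  have hx : (E x₀).det = (N : F) ^ k := by
    rw [hE' x₀ hx₀, h1, LitCent0_TT (Subgroup.one_mem _)]
    simp only [one_pow, Finset.sum_const, Finset.card_range]
    rw [← Nat.cast_smul_eq_nsmul F, Matrix.det_smul, Matrix.det_one, mul_one]
  have hk : (N : F) ^ k ≠ 0 := pow_ne_zero k hN
  have h3 := hS.2 _ hE _ (A.sub_mem hE (A.algebraMap_mem ((N : F) ^ k))) (fun x hx => by
    have h4 := congrArg Matrix.det (hg x hx).2
    rw [Matrix.det_mul, ← Nat.cast_smul_eq_nsmul F, Matrix.det_smul] at h4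
    change (E x).det * ((E x).det - (N : F) ^ k) = 0
    rw [mul_sub, h4, mul_comm, sub_self])
  rcases h3 with h3 | h3
  · exact (hk (hx.symm.trans (h3 x₀ hx₀))).elim
  · intro x hx
    have h4 : (E x).det - (N : F) ^ k = 0 := h3 x hx
    have h5 : IsUnit (E x) := by
      rw [Matrix.isUnit_iff_isUnit_det, sub_eq_zero.1 h4]
      exact hk.isUnit
    exact LitCent0_diag (h0 x hx).1 (h0 x hx).2 (h5.mul_eq_left.1 (hg x hx).1)

end Pool.Agent.Work.MP_bb5f23_al.Lit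
end

-- merged part: Pool.Agent.Work.MP_bb5f23_al.LitCent
section
/-! The centraliser of a maximal torus. -/

namespace Pool.Agent.Work.MP_bb5f23_al.Lit

variable {F : Type} [Field F] [IsAlgClosed F] [IsFbar F] {n r : ℕ} {wt : Fin n → Fin r → ℤ}
  {G : Subgroup (GL (Fin n) F)}

omit [IsAlgClosed F] [IsFbar F] in
theorem LitCent_mon_pow (γ : Fin n → ℤ) (y : Fin n → Fˣ) (m : ℕ) :
    mon γ (y ^ m) = mon γ y ^ m := by
  induction m with
  | zero => rw [pow_zero, pow_zero, mon_one]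
  | succ m ih => rw [pow_succ, pow_succ, mon_mul, ih]

/-- In a finite group whose `p ^ k`-th powers are central the `p`-elements are closed under
products: the transfer to the centre is `g ↦ g ^ p ^ m`. -/
theorem LitCent_mul_pow {Γ : Type} [Group Γ] [Finite Γ] {p k : ℕ} (hp : p.Prime)
    (h : ∀ g : Γ, g ^ p ^ k ∈ Subgroup.center Γ) {u v : Γ} {j : ℕ} (hu : u ^ p ^ j = 1)
    (hv : v ^ p ^ j = 1) : ∃ m, (u * v) ^ p ^ m = 1 := by
  have := Fact.mk hp
  have h1 : IsPGroup p (Γ ⧸ Subgroup.center Γ) := fun x => by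
    obtain ⟨g, rfl⟩ := QuotientGroup.mk_surjective x
    exact ⟨k, by rw [← QuotientGroup.mk_pow, QuotientGroup.eq_one_iff]; exact h g⟩
  obtain ⟨m, hm⟩ := IsPGroup.iff_card.1 h1
  refine ⟨m + j, ?_⟩
  have h2 : MonoidHom.transferCenterPow Γ (u * v) ^ p ^ j = 1 := by
    have hc : Commute (MonoidHom.transferCenterPow Γ u) (MonoidHom.transferCenterPow Γ v) :=
      Subtype.ext (Subgroup.mem_center_iff.1 (MonoidHom.transferCenterPow Γ v).2 _)
    rw [map_mul, hc.mul_pow, ← map_pow, ← map_pow, hu, hv, map_one, one_mul]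
  have h3 := congrArg Subtype.val h2
  rw [SubmonoidClass.coe_pow, MonoidHom.transferCenterPow_apply, Subgroup.index, hm] at h3
  rw [pow_add, pow_mul]
  exact h3

/-- Write `N = p ^ a * N'`, take `k = k₀ + a` with `n ≤ p ^ k₀`. By `isDiag_of_pow` for
`φ x = x ^ p ^ k` on `C = US G nullS` (`Good.nullS`) these powers are diagonal. For a relation `γ`
between the weights the regular function `x ↦ mon γ (φ x)` (`exists_mon_reg`) has `N'`-th power `1`,
so it is `1` (`Irr.eq_of_pow`); conclude with `dg_mem_TT_iff`. -/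
theorem Good.exists_frob_mem (hG : Good wt G) : ∃ k : ℕ, n ≤ ringChar F ^ k ∧
    ∀ g ∈ US wt G (Lit.nullS r), g ^ ringChar F ^ k ∈ TT F wt := by
  have hp := ringChar_prime F
  obtain ⟨N, hN, h⟩ := hG.exists_pow_mem
  obtain ⟨a, N', hN', rfl⟩ := Nat.exists_eq_pow_mul_and_not_dvd hN.ne' _ hp.ne_one
  have h1 : n ≤ ringChar F ^ n := (Nat.lt_pow_self hp.one_lt).le
  have h2 : (N' : F) ≠ 0 := fun h0 => hN' ((ringChar.spec F N').1 h0)
  have h3 : 0 < N' := Nat.pos_of_ne_zero fun h0 => h2 (by simp [h0])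
  have hφ : Reg (glA F n) (glA F n) fun x => x ^ ringChar F ^ (n + a) := (Reg.id _).pow _
  have hpow : ∀ x ∈ US wt G (Lit.nullS r), (x ^ ringChar F ^ (n + a)) ^ N' ∈ TT F wt := by
    intro x hx
    rw [pow_add, pow_mul, ← pow_mul _ (ringChar F ^ a)]
    exact h _ (pow_mem hx _) (ss_pow_of_le x h1)
  have h0 : ∀ {x}, x ∈ US wt G (Lit.nullS r) → x.1 ∈ MS F wt (Lit.nullS r) :=
    fun hx => ((mem_US_of_zero_mem (mem_nullS.2 rfl)).1 hx).2
  have hd := isDiag_of_pow (wt := wt) hG.nullS.irr hφ h2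
    (fun x hx => ⟨h0 (pow_mem hx _), h0 (inv_mem (pow_mem hx _))⟩) hpow (one_mem _) (one_pow _)
  refine ⟨n + a, h1.trans (Nat.pow_le_pow_right hp.pos (Nat.le_add_right n a)), fun g hg => ?_⟩
  obtain ⟨y, hy⟩ := isDiag_iff.1 (hd g hg)
  rw [hy, dg_mem_TT_iff hG.span]
  intro γ hγ
  obtain ⟨f, hf, hf'⟩ := exists_mon_reg (F := F) γ
  have h4 := hG.nullS.irr.eq_of_pow (hφ f hf) h3 (fun x hx => ?_) hg (one_mem _)
  · beta_reduce at h4
    rw [hy, one_pow, ← map_one dg, hf', hf'] at h4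
    rw [Units.ext h4, mon_one]
  obtain ⟨z, hz⟩ := isDiag_iff.1 (hd x hx)
  have h5 := hpow x hx
  rw [hz, ← map_pow, dg_mem_TT_iff hG.span] at h5
  beta_reduce
  rw [hz, hf', ← Units.val_pow_eq_pow_val, ← LitCent_mon_pow, h5 γ hγ, Units.val_one]

theorem Good.mem_TT_of_ss (hG : Good wt G) {s : GL (Fin n) F} (hs : s ∈ US wt G (Lit.nullS r))
    (h : SS s) : s ∈ TT F wt := by
  obtain ⟨k, -, hk⟩ := hG.exists_frob_mem
  exact (Subgroup.zpowers_le_of_mem (hk s hs)) (h.mem_zpowers k)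

theorem LitCent_mul (hG : Good wt G) {u v : GL (Fin n) F} (hu : u ∈ US wt G (Lit.nullS r))
    (hv : v ∈ US wt G (Lit.nullS r)) (hu' : IsNilpotent (u.1 - 1)) (hv' : IsNilpotent (v.1 - 1)) :
    IsNilpotent ((u * v).1 - 1) := by
  obtain ⟨k, hn, hk⟩ := hG.exists_frob_mem
  let Γ := Subgroup.closure {u, v}
  have : Finite Γ := finite_closure (Set.toFinite {u, v})
  have hΓ : Γ ≤ US wt G (Lit.nullS r) := (Subgroup.closure_le _).2 (by
    rintro _ (rfl | rfl)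
    exacts [hu, hv])
  obtain ⟨m, hm⟩ := LitCent_mul_pow (Γ := Γ) (k := k) (j := k) (ringChar_prime F)
    (fun g => Subgroup.mem_center_iff.2 fun x => Subtype.ext
      (comm_TT_iff.2 (US_mono le_top le_rfl (hΓ x.2)) _ (hk _ (hΓ g.2))).symm)
    (u := ⟨u, Subgroup.subset_closure (by simp)⟩) (v := ⟨v, Subgroup.subset_closure (by simp)⟩)
    (Subtype.ext (pow_eq_one_of_isNilpotent hu' hn)) (Subtype.ext (pow_eq_one_of_isNilpotent hv' hn))
  exact isNilpotent_iff_pow_eq_one.2 ⟨m, congrArg Subtype.val hm⟩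

/-- The functions whose `p ^ k`-th power is regular on `S`. -/
def LitCent_root {X : Type} (A : Subalgebra F (X → F)) (S : Set X) (k : ℕ) :
    Subalgebra F (X → F) where
  carrier := {h | ∃ g ∈ A, ∀ x ∈ S, h x ^ ringChar F ^ k = g x}
  mul_mem' := by
    rintro a b ⟨f, hf, ha⟩ ⟨g, hg, hb⟩
    exact ⟨f * g, mul_mem hf hg, fun x hx => by simp [mul_pow, ha x hx, hb x hx]⟩
  add_mem' := by
    rintro a b ⟨f, hf, ha⟩ ⟨g, hg, hb⟩
    have := Fact.mk (ringChar_prime F)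
    exact ⟨f + g, add_mem hf hg, fun x hx => by simp [add_pow_char_pow, ha x hx, hb x hx]⟩
  algebraMap_mem' c := ⟨algebraMap F _ (c ^ ringChar F ^ k), A.algebraMap_mem _, fun _ _ => rfl⟩

/-- The unipotent elements of the centraliser form a subgroup: the finite group `Γ` generated by two
of them is nilpotent (`Γ ⧸ center` is a `p`-group; `Group.isNilpotent_of_ker_le_center`), so its
Sylow `p`-subgroup is normal (`isNilpotent_of_finite_tfae`) and contains both. Irreducibility: let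
`ψ g` be the unipotent part `g s⁻¹` (`exists_jordan`, `s ∈ T` diagonal, `s ^ q = g ^ q`); the
functions `f` on `GL` such that some `f ^ p ^ j` agrees on `C` with a regular function form a
subalgebra containing the entries of `ψ` and `ψ⁻¹`; so `ψ` is `ZReg` on `C`, with image `Q`. -/
theorem Good.exists_unip_part (hG : Good wt G) : ∃ Q : Subgroup (GL (Fin n) F),
    (∀ g, g ∈ Q ↔ g ∈ US wt G (Lit.nullS r) ∧ IsNilpotent (g.1 - 1)) ∧
      Irr (glA F n) (Q : Set (GL (Fin n) F)) ∧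
      ∀ g ∈ US wt G (Lit.nullS r), ∃ t ∈ TT F wt, ∃ u ∈ Q, g = t * u := by
  let Q : Subgroup (GL (Fin n) F) :=
    { carrier := {g | g ∈ US wt G (Lit.nullS r) ∧ IsNilpotent (g.1 - 1)}
      one_mem' := ⟨one_mem _, by simp⟩
      mul_mem' := fun ha hb => ⟨mul_mem ha.1 hb.1, LitCent_mul hG ha.1 hb.1 ha.2 hb.2⟩
      inv_mem' := fun ha => ⟨inv_mem ha.1, by
        obtain ⟨k, hk⟩ := isNilpotent_iff_pow_eq_one.1 ha.2
        exact isNilpotent_iff_pow_eq_one.2 ⟨k, by rw [inv_pow, hk, inv_one]⟩⟩ }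
  choose s hs u hu e hss hnil using exists_jordan (F := F) (n := n)
  have hsT : ∀ g ∈ US wt G (Lit.nullS r), s g ∈ TT F wt := fun g hg =>
    hG.mem_TT_of_ss (Subgroup.zpowers_le_of_mem hg (hs g)) (hss g)
  have huQ : ∀ g ∈ US wt G (Lit.nullS r), u g ∈ Q := fun g hg =>
    ⟨Subgroup.zpowers_le_of_mem hg (hu g), hnil g⟩
  refine ⟨Q, fun _ => Iff.rfl, ?_, fun g hg => ⟨s g, hsT g hg, u g, huQ g hg, e g⟩⟩
  have hp := ringChar_prime F
  have hn : n ≤ ringChar F ^ n := (Nat.lt_pow_self hp.one_lt).le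
  have him : u '' (US wt G (Lit.nullS r)) = Q := by
    refine Set.Subset.antisymm (by rintro _ ⟨g, hg, rfl⟩; exact huQ g hg) fun g hg => ⟨g, hg.1, ?_⟩
    have h1 := (hss g).eq_one (Subgroup.zpowers_le_of_mem (H := Q) hg (hs g)).2
    conv_rhs => rw [e g, h1, one_mul]
  have key : ∀ x ∈ US wt G (Lit.nullS r), ∃ y : Fin n → Fˣ, u x = dg y⁻¹ * x ∧
      x ^ ringChar F ^ n = dg (y ^ ringChar F ^ n) := by
    intro x hx
    obtain ⟨z, hz⟩ := hsT x hx
    obtain ⟨y, hy⟩ : ∃ y, s x = dg y := ⟨_, hz.symm⟩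
    refine ⟨y, by rw [map_inv, ← hy, eq_inv_mul_iff_mul_eq, ← e x], ?_⟩
    have hc : Commute (s x) (u x) :=
      comm_TT_iff.2 (US_mono le_top le_rfl (huQ x hx).1) _ (hsT x hx)
    conv_lhs => rw [e x, hc.mul_pow, pow_eq_one_of_isNilpotent (hnil x) hn, mul_one, hy, ← map_pow]
  have hφ : Reg (glA F n) (glA F n) fun x => x ^ ringChar F ^ n := (Reg.id _).pow _
  have hreg : Reg (LitCent_root (glA F n) (US wt G (Lit.nullS r)) n) (glA F n) u := by
    refine reg_glA (fun i j => ⟨_, mul_mem (hφ _ (inv_entry_mem i i))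
      (pow_mem (entry_mem i j) (ringChar F ^ n)), fun x hx => ?_⟩)
      fun i j => ⟨_, mul_mem (pow_mem (inv_entry_mem i j) (ringChar F ^ n))
        (hφ _ (entry_mem j j)), fun x hx => ?_⟩
    · obtain ⟨y, h1, h2⟩ := key x hx
      simp only [Pi.mul_apply, Pi.pow_apply]
      rw [h1, h2, ← map_inv, Units.val_mul, dg_val, dg_val, Matrix.diagonal_mul, mul_pow]
      simp
    · obtain ⟨y, h1, h2⟩ := key x hx
      simp only [Pi.mul_apply, Pi.pow_apply]
      rw [h1, h2, mul_inv_rev, ← map_inv, Units.val_mul, dg_val, dg_val, Matrix.mul_diagonal,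
        mul_pow]
      simp
  rw [← him]
  refine hG.nullS.irr.image fun f hf => ?_
  obtain ⟨g, hg, h⟩ := hreg f hf
  exact ⟨g, hg, fun x hx => by rw [← h x hx, pow_eq_zero_iff (pow_ne_zero _ hp.ne_zero)]⟩

end Pool.Agent.Work.MP_bb5f23_al.Lit
end

-- merged part: Pool.Agent.Work.MP_bb5f23_al.LitVert
section
/-! Highest weight vectors. -/

namespace Pool.Agent.Work.MP_bb5f23_al.Lit

variable {F : Type} [Field F] {n r : ℕ}

namespace RRep

variable {G : Subgroup (GL (Fin n) F)} {L : Type} [AddCommGroup L] [Module F L]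

/-- `v` spans the top weight space for `c` and `ℓ` is the corresponding coordinate. -/
structure Vertex (ρ : RRep G L) (wt : Fin n → Fin r → ℤ) (c : Fin r → ℤ) (v : L)
    (ℓ : Module.Dual F L) (k : ℤ) : Prop where
  mem : v ∈ ρ.wsp wt c k
  one : ℓ v = 1
  ker : LinearMap.ker ℓ = ⨆ l < k, ρ.wsp wt c l

variable {ρ : RRep G L} {wt : Fin n → Fin r → ℤ} {c : Fin r → ℤ} {v : L} {ℓ : Module.Dual F L}
  {k : ℤ} {Γ : Grading F L}

theorem Vertex.ne_zero (h : ρ.Vertex wt c v ℓ k) : v ≠ 0 := fun h0 => by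
  have h1 := h.one
  rw [h0, map_zero] at h1
  exact zero_ne_one h1

theorem Vertex.form_ne_zero (h : ρ.Vertex wt c v ℓ k) : ℓ ≠ 0 := fun h0 => by
  have h1 := h.one
  rw [h0, LinearMap.zero_apply] at h1
  exact zero_ne_one h1

theorem litVert_single (Γ : Grading F L) {x : L} (h : ∀ l, l ≠ k → Γ.pr l x = 0) :
    Γ.pr k x = x := by
  conv_rhs => rw [← Γ.sum_pr x]
  refine (Finset.sum_eq_single k (fun l _ hl => h l hl) fun hk => ?_).symm
  rw [Γ.pr_eq_zero k hk, LinearMap.zero_apply]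

variable [IsAlgClosed F] [IsFbar F]

/-- Write `x = ℓ x • v + y` with `y ∈ ker ℓ`. -/
theorem Vertex.pr_top (h : ρ.Vertex wt c v ℓ k) (hΓ : ρ.IsGr wt c Γ) (x : L) :
    Γ.pr k x = ℓ x • v ∧ ∀ l, k < l → Γ.pr l x = 0 := by
  have h1 : ∀ m, k ≤ m → Γ.pr m (x - ℓ x • v) = 0 := fun m hm => by
    have h2 : x - ℓ x • v ∈ LinearMap.ker ℓ := by
      rw [LinearMap.mem_ker, map_sub, map_smul, h.one, smul_eq_mul, mul_one, sub_self]
    rw [h.ker] at h2
    refine (iSup₂_le fun l hl z hz => ?_ : _ ≤ LinearMap.ker (Γ.pr m)) h2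
    rw [LinearMap.mem_ker, hΓ.pr_of_mem hz, if_neg (by omega)]
  have h3 : ∀ m, k ≤ m → Γ.pr m x = ℓ x • if m = k then v else 0 := fun m hm => by
    have h4 := h1 m hm
    rw [map_sub, map_smul, hΓ.pr_of_mem h.mem, sub_eq_zero] at h4
    exact h4
  refine ⟨by rw [h3 k le_rfl, if_pos rfl], fun l hl => ?_⟩
  rw [h3 l hl.le, if_neg hl.ne', smul_zero]

theorem vertex_of_gr (hΓ : ρ.IsGr wt c Γ) (hv : v ∈ ρ.wsp wt c k) (h1 : ℓ v = 1)
    (h : ∀ x, Γ.pr k x = ℓ x • v) (h' : ∀ l, k < l → Γ.pr l = 0) : ρ.Vertex wt c v ℓ k := by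
  have hv0 : v ≠ 0 := fun h0 => by
    rw [h0, map_zero] at h1
    exact zero_ne_one h1
  refine ⟨hv, h1, le_antisymm (fun x hx => ?_) (iSup₂_le fun l hl z hz => ?_)⟩
  · rw [← Γ.sum_pr x]
    refine Submodule.sum_mem _ fun l _ => ?_
    rcases lt_trichotomy l k with hl | rfl | hl
    · exact Submodule.mem_iSup_of_mem l (Submodule.mem_iSup_of_mem hl (hΓ l x))
    · rw [h x, LinearMap.mem_ker.1 hx, zero_smul]
      exact zero_mem _
    · rw [h' l hl, LinearMap.zero_apply]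
      exact zero_mem _
  · have h2 := h z
    rw [hΓ.pr_of_mem hz, if_neg hl.ne'] at h2
    exact (smul_eq_zero.1 h2.symm).resolve_right hv0

variable [FiniteDimensional F L]

theorem Vertex.fix (h : ρ.Vertex wt c v ℓ k) (hT : TT F wt ≤ G) {u : GL (Fin n) F}
    (hu : u ∈ US wt G (posS c)) : ρ.op u v = v := by
  have hc : ∀ t, coc wt c t ∈ G := fun t => hT (coc_mem c t)
  obtain ⟨Γ, hΓ⟩ := ρ.exists_gr hc
  obtain ⟨h1, h2⟩ := hΓ.raise hc hu h.mem
  rw [← litVert_single (k := k) Γ (x := ρ.op u v) fun l hl => ?_, h1]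
  rcases lt_or_gt_of_ne hl with h3 | h3
  · exact h2 l h3
  · exact (h.pr_top hΓ _).2 l h3

theorem Vertex.form_neg (h : ρ.Vertex wt c v ℓ k) (hT : TT F wt ≤ G) {a : GL (Fin n) F}
    (ha : a ∈ US wt G (posS (-c))) (x : L) : ℓ (ρ.op a x) = ℓ x := by
  have hc : ∀ t, coc wt c t ∈ G := fun t => hT (coc_mem c t)
  obtain ⟨Γ, hΓ⟩ := ρ.exists_gr hc
  have h1 : ∀ l, ∀ y ∈ ρ.wsp wt c l, ℓ (ρ.op a y) = ℓ y := fun l y hy => by
    refine smul_left_injective F h.ne_zero ?_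
    beta_reduce
    rw [← (h.pr_top hΓ _).1, ← (h.pr_top hΓ _).1, hΓ.pr_of_mem hy]
    obtain ⟨h2, h3⟩ := hΓ.lower hc ha hy
    rcases lt_trichotomy l k with hl | rfl | hl
    · rw [h3 k hl, if_neg hl.ne']
    · rw [h2, if_pos rfl]
    · have h4 := (h.pr_top hΓ y).2 l hl
      rw [hΓ.pr_of_mem hy, if_pos rfl] at h4
      rw [h4, map_zero, map_zero, ite_self]
  rw [← Γ.sum_pr x, map_sum, map_sum, map_sum]
  exact Finset.sum_congr rfl fun l _ => h1 l _ (hΓ l x)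

/-- `b` commutes with the grading (`IsGr.pr_op`, `comm_coc_iff`). -/
theorem Vertex.levi (h : ρ.Vertex wt c v ℓ k) (hT : TT F wt ≤ G) {b : GL (Fin n) F}
    (hb : b ∈ US wt G (zeroS c)) :
    ∃ a : F, a ≠ 0 ∧ ρ.op b v = a • v ∧ ∀ x, ℓ (ρ.op b x) = a * ℓ x := by
  have hc : ∀ t, coc wt c t ∈ G := fun t => hT (coc_mem c t)
  obtain ⟨Γ, hΓ⟩ := ρ.exists_gr hc
  have h1 : ∀ x, ℓ (ρ.op b x) • v = ℓ x • ρ.op b v := fun x => by
    rw [← (h.pr_top hΓ _).1, hΓ.pr_op hc hb.1 (comm_coc_iff.2 (US_mono le_top le_rfl hb)),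
      (h.pr_top hΓ _).1, map_smul]
  have h2 : ρ.op b v = ℓ (ρ.op b v) • v := by rw [h1, h.one, one_smul]
  refine ⟨ℓ (ρ.op b v), fun h0 => ρ.op_ne_zero hb.1 h.ne_zero (by rw [h2, h0, zero_smul]), h2,
    fun x => smul_left_injective F h.ne_zero ?_⟩
  beta_reduce
  rw [h1, mul_comm, mul_smul, ← h2]

theorem Vertex.torus (h : ρ.Vertex wt c v ℓ k) (hT : TT F wt ≤ G) {t : GL (Fin n) F}
    (ht : t ∈ TT F wt) : ∃ a : F, a ≠ 0 ∧ ρ.op t v = a • v ∧ ∀ x, ℓ (ρ.op t x) = a * ℓ x :=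
  h.levi hT (TT_le_US hT (mem_zeroS.2 (zero_dotProduct c)) ht)

/-- A weight vector with nonzero top coordinate is a multiple of `v`. -/
theorem Vertex.eq_of_wsp (h : ρ.Vertex wt c v ℓ k) (hT : TT F wt ≤ G) {l : ℤ} {x : L}
    (hx : x ∈ ρ.wsp wt c l) (h0 : ℓ x ≠ 0) : x = ℓ x • v := by
  obtain ⟨Γ, hΓ⟩ := ρ.exists_gr (c := c) fun t => hT (coc_mem c t)
  have h1 := (h.pr_top hΓ x).1
  rw [hΓ.pr_of_mem hx] at h1
  split_ifs at h1 with hk
  · exact h1
  · exact absurd h1.symm (smul_ne_zero h0 h.ne_zero)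

theorem Vertex.cell (h : ρ.Vertex wt c v ℓ k) (hG : Good wt G) {g : GL (Fin n) F} (hg : g ∈ G)
    (h0 : del wt c g ≠ 0) :
    ∃ a : F, a ≠ 0 ∧ ∃ u ∈ US wt G (posS (-c)), ρ.op g v = a • ρ.op u v ∧ ℓ (ρ.op g v) = a := by
  obtain ⟨a, ha, b, hb, u, hu, rfl⟩ := exists_cell hG.cl hG.le hg h0
  obtain ⟨s, hs, h1, -⟩ := h.levi hG.le hb
  have h2 : ρ.op (a * b * u) v = s • ρ.op a v := by
    rw [ρ.op_mul_apply (G.mul_mem ha.1 hb.1) hu.1, h.fix hG.le hu, ρ.op_mul_apply ha.1 hb.1, h1,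
      map_smul]
  refine ⟨s, hs, a, ha, h2, ?_⟩
  rw [h2, map_smul, h.form_neg hG.le ha, h.one, smul_eq_mul, mul_one]

/-- A linear form vanishing on the big cell orbit of `x` vanishes on the orbit (`ρ.reg`,
`Good.subset_zcl_cell`). -/
theorem IsIrr.span_cell (hρ : ρ.IsIrr) (hG : Good wt G) (c : Fin r → ℤ) {x : L} (hx : x ≠ 0) :
    Submodule.span F ((fun g => ρ.op g x) '' {g | g ∈ G ∧ del wt c g ≠ 0}) = ⊤ := by
  by_contra hne
  obtain ⟨φ, hφ, h1⟩ := Submodule.exists_le_ker_of_lt_top _ (lt_top_iff_ne_top.2 hne)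
  obtain ⟨g, hg, h2⟩ := hρ.exists_ne hφ hx
  obtain ⟨f, hf, h3⟩ := ρ.reg φ x
  refine h2 ((h3 g hg).trans (hG.subset_zcl_cell c hg f hf fun s hs => ?_))
  rw [← h3 s hs.1]
  exact h1 (Submodule.subset_span ⟨s, hs, rfl⟩)

theorem Vertex.span (h : ρ.Vertex wt c v ℓ k) (hG : Good wt G) (hρ : ρ.IsIrr) :
    Submodule.span F ((fun u => ρ.op u v) '' (US wt G (posS (-c)) : Set (GL (Fin n) F))) = ⊤ := by
  rw [eq_top_iff, ← hρ.span_cell hG c h.ne_zero]
  refine Submodule.span_le.2 ?_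
  rintro _ ⟨g, hg, rfl⟩
  obtain ⟨a, -, u, hu, h1, -⟩ := h.cell hG hg.1 hg.2
  beta_reduce
  rw [h1]
  exact Submodule.smul_mem _ _ (Submodule.subset_span ⟨u, hu, rfl⟩)

end RRep

end Pool.Agent.Work.MP_bb5f23_al.Lit
end

-- merged part: Pool.Agent.Work.MP_bb5f23_al.LitVert2
section
/-! Highest weight vectors: transport, duality, existence. -/

namespace Pool.Agent.Work.MP_bb5f23_al.Lit

variable {F : Type} [Field F] [IsAlgClosed F] [IsFbar F] {n r : ℕ}

namespace RRep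

variable {G : Subgroup (GL (Fin n) F)} {L : Type} [AddCommGroup L] [Module F L]
  [FiniteDimensional F L] {ρ : RRep G L} {wt : Fin n → Fin r → ℤ} {c : Fin r → ℤ} {v : L}
  {ℓ : Module.Dual F L} {k : ℤ}

omit [IsAlgClosed F] [IsFbar F] [FiniteDimensional F L] in
theorem LitVert2_wsp (hT : TT F wt ≤ G) {m : GL (Fin n) F} (hm : m ∈ G) {c c' : Fin r → ℤ}
    (hc : ∀ t : Fˣ, m * coc wt c t * m⁻¹ = coc wt c' t) {l : ℤ} {x : L}
    (hx : x ∈ ρ.wsp wt c l) : ρ.op m x ∈ ρ.wsp wt c' l := by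
  intro t
  have ht : coc wt c t ∈ G := hT (coc_mem c t)
  rw [← hc t, ρ.op_mul_apply (G.mul_mem hm ht) (G.inv_mem hm), ρ.op_inv_op hm,
    ρ.op_mul_apply hm ht, hx t, map_smul]

/-- `wsp c' l` is the image of `wsp c l` under `ρ m`. -/
theorem Vertex.conj (h : ρ.Vertex wt c v ℓ k) (hT : TT F wt ≤ G) {m : GL (Fin n) F} (hm : m ∈ G)
    {c' : Fin r → ℤ} (hc : ∀ t : Fˣ, m * coc wt c t * m⁻¹ = coc wt c' t) :
    ρ.Vertex wt c' (ρ.op m v) (ℓ ∘ₗ ρ.op m⁻¹) k := by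
  have hc' : ∀ t : Fˣ, m⁻¹ * coc wt c' t * m⁻¹⁻¹ = coc wt c t := fun t => by
    rw [← hc t]
    group
  refine ⟨LitVert2_wsp hT hm hc h.mem, ?_, le_antisymm (fun x hx => ?_) ?_⟩
  · rw [LinearMap.comp_apply, ρ.op_inv_op hm, h.one]
  · have h1 : ρ.op m⁻¹ x ∈ ⨆ l < k, ρ.wsp wt c l := by
      rw [← h.ker]
      exact hx
    have h2 : (⨆ l < k, ρ.wsp wt c l) ≤ (⨆ l < k, ρ.wsp wt c' l).comap (ρ.op m) :=
      iSup₂_le fun l hl y hy =>
        le_iSup₂_of_le (f := fun l (_ : l < k) => ρ.wsp wt c' l) l hl le_rfl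
          (LitVert2_wsp hT hm hc hy)
    have h3 := h2 h1
    rwa [Submodule.mem_comap, ρ.op_op_inv hm] at h3
  · refine iSup₂_le fun l hl x hx => ?_
    have h1 : ρ.op m⁻¹ x ∈ LinearMap.ker ℓ := by
      rw [h.ker]
      exact le_iSup₂_of_le (f := fun l (_ : l < k) => ρ.wsp wt c l) l hl le_rfl
        (LitVert2_wsp hT (G.inv_mem hm) hc' hx)
    exact h1

omit [IsAlgClosed F] [IsFbar F] in
theorem LitVert2_dual_wsp {φ : Module.Dual F L} {l : ℤ} : φ ∈ ρ.dual.wsp wt (-c) l ↔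
    ∀ (t : Fˣ) x, φ (ρ.op (coc wt c t) x) = (t : F) ^ l * φ x := by
  refine forall_congr' fun t => ?_
  rw [LinearMap.ext_iff]
  refine forall_congr' fun x => ?_
  rw [dual_op, coc_neg, inv_inv, LinearMap.smul_apply, smul_eq_mul]

omit [IsFbar F] [FiniteDimensional F L] in
theorem LitVert2_pr_coc {Γ : Grading F L} (hΓ : ρ.IsGr wt c Γ) (hT : TT F wt ≤ G) (t : Fˣ) (l : ℤ)
    (x : L) : Γ.pr l (ρ.op (coc wt c t) x) = (t : F) ^ l • Γ.pr l x := by
  rw [hΓ.pr_op (fun s => hT (coc_mem c s)) (hT (coc_mem c t))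
    fun s => TT_comm (coc_mem c s) (coc_mem c t)]
  exact hΓ l x t

/-- A linear form is the sum of the `φ ∘ pr l`, and `φ ∘ pr l` has weight `l` for `-c` in the dual
representation (`coc_neg`). -/
theorem Vertex.dual (h : ρ.Vertex wt c v ℓ k) (hT : TT F wt ≤ G) :
    ρ.dual.Vertex wt (-c) ℓ (Module.Dual.eval F L v) k := by
  obtain ⟨Γ, hΓ⟩ := ρ.exists_gr (wt := wt) (c := c) fun t => hT (coc_mem c t)
  refine ⟨LitVert2_dual_wsp.2 fun t x => ?_, h.one, le_antisymm (fun φ hφ => ?_) ?_⟩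
  · have h1 := congrArg ℓ (LitVert2_pr_coc hΓ hT t k x)
    rw [(h.pr_top hΓ _).1, (h.pr_top hΓ _).1] at h1
    simpa [h.one] using h1
  · have h0 : φ v = 0 := hφ
    have e : φ = ∑ l ∈ Γ.S, φ ∘ₗ Γ.pr l := by
      ext x
      rw [LinearMap.sum_apply]
      conv_lhs => rw [← Γ.sum_pr x, map_sum]
      rfl
    rw [e]
    refine Submodule.sum_mem _ fun l _ => ?_
    rcases lt_trichotomy l k with hl | rfl | hl
    · refine le_iSup₂_of_le (f := fun l (_ : l < k) => ρ.dual.wsp wt (-c) l) l hl le_rfl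
        (LitVert2_dual_wsp.2 fun t x => ?_)
      rw [LinearMap.comp_apply, LitVert2_pr_coc hΓ hT, map_smul, smul_eq_mul]
      rfl
    · have : φ ∘ₗ Γ.pr l = 0 := by
        ext x
        rw [LinearMap.comp_apply, (h.pr_top hΓ x).1, map_smul, h0, smul_zero]
        rfl
      rw [this]
      exact zero_mem _
    · have : φ ∘ₗ Γ.pr l = 0 := by
        ext x
        rw [LinearMap.comp_apply, (h.pr_top hΓ x).2 l hl, map_zero]
        rfl
      rw [this]
      exact zero_mem _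
  · refine iSup₂_le fun l hl φ hφ => ?_
    have h1 := hΓ.form_pr (LitVert2_dual_wsp.1 hφ) k v
    rw [hΓ.pr_of_mem h.mem, if_pos rfl, if_neg hl.ne'] at h1
    exact h1

/-- A common eigenvector of the torus in a nonzero subspace stable under the torus. -/
theorem LitVert2_eigen (ρ : RRep G L) (hT : TT F wt ≤ G) {E : Submodule F L}
    (hE : ∀ t ∈ TT F wt, ∀ x ∈ E, ρ.op t x ∈ E) {x : L} (hx : x ∈ E) (h0 : x ≠ 0) :
    ∃ w ∈ E, w ≠ 0 ∧ ∀ t ∈ TT F wt, ∃ a : F, ρ.op t w = a • w := by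
  obtain ⟨σ, hσ⟩ := (ρ.res hT).exists_sub (W := E) hE
  have h1 := span_eigen (F := F) (S := σ.op '' (TT F wt : Set (GL (Fin n) F))) ?_ ?_
  · by_contra hn
    have h2 : Submodule.span F {w : E | ∀ a ∈ σ.op '' (TT F wt : Set (GL (Fin n) F)),
        ∃ c : F, a w = c • w} ≤ ⊥ := by
      refine Submodule.span_le.2 fun w hw => ?_
      by_contra hw0
      refine hn ⟨w, w.2, fun e => hw0 (Subtype.ext e), fun t ht => ?_⟩
      obtain ⟨a, ha⟩ := hw _ ⟨t, ht, rfl⟩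
      exact ⟨a, (hσ t ht w).symm.trans (congrArg Subtype.val ha)⟩
    rw [h1] at h2
    exact h0 (congrArg Subtype.val (h2 (Submodule.mem_top (x := (⟨x, hx⟩ : E)))))
  · rintro _ ⟨t, ht, rfl⟩ _ ⟨t', ht', rfl⟩
    change σ.op t * σ.op t' = σ.op t' * σ.op t
    rw [← σ.op_mul t ht t' ht', ← σ.op_mul t' ht' t ht, TT_comm ht ht']
  · rintro _ ⟨t, ht, rfl⟩
    exact ⟨orderOf t, ss_of_mem_TT ht, by rw [← σ.op_pow ht, pow_orderOf_eq_one, σ.op_one]⟩

/-- A common eigenvector of the centraliser of the torus. -/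
theorem LitVert2_line (ρ : RRep G L) (hG : Good wt G) {E : Submodule F L}
    (hE : ∀ g ∈ US wt G (Lit.nullS r), ∀ x ∈ E, ρ.op g x ∈ E) {x : L} (hx : x ∈ E) (h0 : x ≠ 0) :
    ∃ w ∈ E, w ≠ 0 ∧ ∀ g ∈ US wt G (Lit.nullS r), ∃ a : F, ρ.op g w = a • w := by
  obtain ⟨w, hw, hw0, hw1⟩ := LitVert2_eigen ρ hG.le
    (fun t ht => hE t (TT_le_US hG.le (mem_nullS.2 rfl) ht)) hx h0
  choose! χ hχ using hw1
  obtain ⟨Q, hQ, -, hQ'⟩ := hG.exists_unip_part
  have hQG : Q ≤ G := fun q hq => ((hQ q).1 hq).1.1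
  have mem : ∀ y, y ∈ E ⊓ ⨅ t ∈ TT F wt, Module.End.eigenspace (ρ.op t) (χ t) ↔
      y ∈ E ∧ ∀ t ∈ TT F wt, ρ.op t y = χ t • y := fun y => by
    simp only [Submodule.mem_inf, Submodule.mem_iInf, Module.End.mem_eigenspace_iff]
  obtain ⟨σ, hσ⟩ := (ρ.res hQG).exists_sub
    (W := E ⊓ ⨅ t ∈ TT F wt, Module.End.eigenspace (ρ.op t) (χ t)) fun q hq y hy => by
      obtain ⟨h1, h2⟩ := (mem y).1 hy
      have h3 := ((hQ q).1 hq).1
      refine (mem _).2 ⟨hE q h3 y h1, fun t ht => ?_⟩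
      rw [res_op, ← ρ.op_mul_apply (hG.le ht) h3.1, comm_TT_iff.2 ⟨trivial, h3.2⟩ t ht,
        ρ.op_mul_apply h3.1 (hG.le ht), h2 t ht, map_smul]
  obtain ⟨y, hy0, hy⟩ := exists_fixed (fun q hq => ((hQ q).1 hq).2) σ.toRep
    ⟨⟨w, (mem w).2 ⟨hw, hχ⟩⟩, fun e => hw0 (congrArg Subtype.val e)⟩
  obtain ⟨h1, h2⟩ := (mem y).1 y.2
  refine ⟨y, h1, fun e => hy0 (Subtype.ext e), fun g hg => ?_⟩
  obtain ⟨t, ht, u, hu, rfl⟩ := hQ' g hg
  have h3 : ρ.op u y = y := (hσ u hu y).symm.trans (congrArg Subtype.val (hy ⟨u, hu⟩))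
  exact ⟨χ t, by rw [ρ.op_mul_apply (hG.le ht) (hQG hu), h3, h2 t ht]⟩

/-- Let `k` be the top weight and `E = wsp c k`, stable under `C = US G nullS = US G (zeroS c)`.
There is a common eigenvector of `T` in `E` (`span_eigen` or `exists_common_eigen`-like argument:
the operators `ρ t` on `E` commute and have order prime to `p`); the common eigenspace `E'` is
`C`-stable since `T` is central in `C`; the unipotent part `Q` (`Good.exists_unip_part`) fixes some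
`v ≠ 0` in `E'` (`exists_fixed`), so `C` stabilises the line of `v`. By `span_cell`, `exists_cell`,
`IsGr.raise`, `IsGr.lower` the top component of every vector is a multiple of `v`. -/
theorem IsIrr.exists_vertex (hρ : ρ.IsIrr) (hG : Good wt G) (hc : Regular wt c) :
    ∃ v ℓ k, ρ.Vertex wt c v ℓ k := by
  classical
  obtain ⟨Γ, hΓ⟩ := ρ.exists_gr (wt := wt) (c := c) (hG.coc_mem c)
  obtain ⟨x₀, hx₀⟩ := hρ.1
  have hne : (Γ.S.filter fun l => Γ.pr l ≠ 0).Nonempty := by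
    by_contra hn
    apply hx₀
    rw [← Γ.sum_pr x₀]
    refine Finset.sum_eq_zero fun l hl => ?_
    by_contra h
    exact hn ⟨l, Finset.mem_filter.2 ⟨hl, fun e => h (by rw [e]; rfl)⟩⟩
  obtain ⟨k, hk, hmax⟩ := Finset.exists_max_image _ id hne
  obtain ⟨hkS, hk0⟩ := Finset.mem_filter.1 hk
  have htop : ∀ l, k < l → Γ.pr l = 0 := fun l hl => by
    by_contra h
    by_cases hS : l ∈ Γ.S
    · exact (hmax l (Finset.mem_filter.2 ⟨hS, h⟩)).not_gt hl
    · exact h (Γ.pr_eq_zero l hS)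
  obtain ⟨x, hx⟩ : ∃ x, Γ.pr k x ≠ 0 := by
    by_contra hn
    push Not at hn
    exact hk0 (LinearMap.ext hn)
  obtain ⟨v, hv, hv0, hv1⟩ := LitVert2_line ρ hG (E := ρ.wsp wt c k)
    (fun g hg y hy => op_mem_wsp (hG.coc_mem c) hg.1
      (fun t => comm_TT_iff.2 ⟨trivial, hg.2⟩ _ (coc_mem c t)) hy) (hΓ k x) hx
  have key : (F ∙ v).comap (Γ.pr k) = ⊤ := by
    rw [eq_top_iff, ← hρ.span_cell hG c hv0, Submodule.span_le]
    rintro _ ⟨g, ⟨hg, hd⟩, rfl⟩
    obtain ⟨a, ha, b, hb, u, hu, rfl⟩ := exists_cell hG.cl hG.le hg hd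
    have h1 : ρ.op u v = v := by
      obtain ⟨r1, r2⟩ := hΓ.raise (hG.coc_mem c) hu hv
      rw [← Γ.sum_pr (ρ.op u v), Finset.sum_eq_single_of_mem k hkS, r1]
      intro l _ hl
      rcases lt_or_gt_of_ne hl with h | h
      · exact r2 l h
      · rw [htop l h]
        rfl
    rw [hc.US_zeroS] at hb
    obtain ⟨s, hs⟩ := hv1 b hb
    change Γ.pr k (ρ.op (a * b * u) v) ∈ F ∙ v
    rw [ρ.op_mul_apply (G.mul_mem ha.1 hb.1) hu.1, h1, ρ.op_mul_apply ha.1 hb.1, hs, map_smul,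
      map_smul, (hΓ.lower (hG.coc_mem c) ha hv).1]
    exact Submodule.smul_mem _ _ (Submodule.mem_span_singleton_self v)
  obtain ⟨φ, hφ⟩ := Module.Projective.exists_dual_eq_one F hv0
  refine ⟨v, φ ∘ₗ Γ.pr k, k, vertex_of_gr hΓ hv ?_ (fun y => ?_) htop⟩
  · rw [LinearMap.comp_apply, hΓ.pr_of_mem hv, if_pos rfl, hφ]
  · have h1 : Γ.pr k y ∈ F ∙ v := (key ▸ Submodule.mem_top : y ∈ (F ∙ v).comap (Γ.pr k))
    obtain ⟨a, ha⟩ := Submodule.mem_span_singleton.1 h1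
    rw [LinearMap.comp_apply, ← ha, map_smul, hφ, smul_eq_mul, mul_one]

end RRep

end Pool.Agent.Work.MP_bb5f23_al.Lit
end

-- merged part: Pool.Agent.Work.MP_bb5f23_al.LitConj
section
/-! Conjugacy of maximal tori by Sylow's theorem. -/

namespace Pool.Agent.Work.MP_bb5f23_al.Lit

variable {F : Type} [Field F] [IsAlgClosed F] [IsFbar F] {n r : ℕ} {wt : Fin n → Fin r → ℤ}
  {G : Subgroup (GL (Fin n) F)}

/-- An `l`-group acting on functions fixes a function whose orbit has fewer than `l` elements. -/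
theorem LitConj_fix {P : Type} [Group P] {l : ℕ} (hl : l.Prime) (hP : IsPGroup l P) {B : Type}
    (hln : n < l) (f : Fin n → P → B) (hf : ∀ p j, ∃ i, ∀ y, f j y = f i (p * y)) (j : Fin n)
    (p y : P) : f j (p * y) = f j y := by
  haveI := Fact.mk hl
  letI : MulAction P (P → B) := arrowAction
  have hsm : ∀ (q : P) (φ : P → B) (x : P), (q • φ) x = φ (q⁻¹ * x) := fun _ _ _ => rfl
  have hsub : MulAction.orbit P (f j) ⊆ Set.range f := by
    rintro _ ⟨q, rfl⟩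
    obtain ⟨i, hi⟩ := hf q j
    refine ⟨i, funext fun x => ?_⟩
    change f i x = (q • f j) x
    rw [hsm, hi, mul_inv_cancel_left]
  have hfin : (MulAction.orbit P (f j)).Finite := (Set.finite_range f).subset hsub
  haveI : Finite (MulAction.orbit P (f j)) := hfin
  obtain ⟨k, hk⟩ := hP.card_orbit (f j)
  have hle : Nat.card (MulAction.orbit P (f j)) ≤ n := by
    have h1 := Set.ncard_le_ncard hsub (Set.finite_range f)
    have h2 : (Set.range f).ncard ≤ n := by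
      rw [← Set.image_univ]
      refine (Set.ncard_image_le Set.finite_univ).trans ?_
      simp [Set.ncard_univ]
    exact h1.trans h2
  have hk0 : k = 0 := by
    by_contra h
    have : l ≤ l ^ k := Nat.le_self_pow h l
    omega
  rw [hk0, pow_zero] at hk
  have hss : Subsingleton (MulAction.orbit P (f j)) := (Nat.card_eq_one_iff_unique.1 hk).1
  have := hss.elim ⟨_, MulAction.mem_orbit (f j) p⁻¹⟩ ⟨_, MulAction.mem_orbit_self (f j)⟩
  have h3 : (p⁻¹ • f j) y = f j y := congrFun (congrArg Subtype.val this) y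
  rwa [hsm, inv_inv] at h3

omit [IsAlgClosed F] in
theorem LitConj_ss {l : ℕ} (hlF : (l : F) ≠ 0) {P : Subgroup (GL (Fin n) F)} (hP : IsPGroup l P)
    {g : GL (Fin n) F} (hg : g ∈ P) : SS g := by
  obtain ⟨k, hk⟩ := hP ⟨g, hg⟩
  refine ss_of_pow (N := l ^ k) (by rw [Nat.cast_pow]; exact pow_ne_zero _ hlF) ?_
  simpa using congrArg Subtype.val hk

omit [IsAlgClosed F] [IsFbar F] in
theorem LitConj_col (g : GL (Fin n) F) (j : Fin n) : ∃ i, g.1 i j ≠ 0 := by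
  by_contra h
  push Not at h
  have := congrFun (congrFun g.inv_mul j) j
  simp [Matrix.mul_apply, h] at this

/-- An element whose conjugates commute with each other is central. -/
theorem LitConj_central {l : ℕ} (hl : l.Prime) (hln : n < l) (hlF : (l : F) ≠ 0)
    {P : Subgroup (GL (Fin n) F)} (hP : IsPGroup l P) (b : P)
    (hb : ∀ x y : P, Commute (x * b * x⁻¹) (y * b * y⁻¹)) (p : P) : p * b = b * p := by
  obtain ⟨h, hh⟩ := exists_diag (S := Set.range fun y : P => ((y * b * y⁻¹ : P) : GL (Fin n) F))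
    (by
      rintro _ ⟨x, rfl⟩ _ ⟨y, rfl⟩
      exact (hb x y).map P.subtype)
    (by
      rintro _ ⟨x, rfl⟩
      exact LitConj_ss hlF hP (x * b * x⁻¹).2)
  obtain ⟨c, hc⟩ : ∃ c : P → GL (Fin n) F, ∀ y, c y = h⁻¹ * y * h := ⟨_, fun _ => rfl⟩
  have hcm : ∀ x y, c (x * y) = c x * c y := fun x y => by simp [hc, mul_assoc]
  obtain ⟨f, hd⟩ : ∃ f : Fin n → P → F,
      ∀ y, (c (y * b * y⁻¹)).1 = Matrix.diagonal fun i => f i y :=
    ⟨fun i y => (c (y * b * y⁻¹)).1 i i, fun y => by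
      have h0 : (c (y * b * y⁻¹)).1.IsDiag := by
        rw [hc]
        exact hh _ ⟨y, rfl⟩
      exact (Matrix.IsDiag.diagonal_diag h0).symm⟩
  have key : ∀ (q : P) i j, (c q).1 i j ≠ 0 → ∀ y, f j y = f i (q * y) := by
    intro q i j hij y
    have h1 : c q * c (y * b * y⁻¹) = c (q * y * b * (q * y)⁻¹) * c q := by
      rw [← hcm, ← hcm]
      congr 1
      group
    have h2 : ((c q).1 * (c (y * b * y⁻¹)).1) i j =
        ((c (q * y * b * (q * y)⁻¹)).1 * (c q).1) i j := by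
      rw [← Units.val_mul, ← Units.val_mul, h1]
    rw [hd, hd, Matrix.mul_diagonal, Matrix.diagonal_mul, mul_comm] at h2
    exact mul_right_cancel₀ hij h2
  have hfix := LitConj_fix hl hP hln f fun q j => by
    obtain ⟨i, hi⟩ := LitConj_col (c q) j
    exact ⟨i, key q i j hi⟩
  have h3 : c p * c b = c b * c p := by
    have hb1 := hd 1
    rw [one_mul, inv_one, mul_one] at hb1
    ext i j
    rw [Units.val_mul, Units.val_mul, hb1, Matrix.mul_diagonal, Matrix.diagonal_mul]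
    by_cases hij : (c p).1 i j = 0
    · simp [hij]
    · rw [key p i j hij 1, hfix, mul_comm]
  rw [← hcm, ← hcm, hc, hc] at h3
  exact Subtype.ext (mul_left_cancel (mul_right_cancel h3))

/-- By induction each term of the upper central series lies in the centre (`LitConj_central`). -/
theorem comm_of_isPGroup {l : ℕ} (hl : l.Prime) (hln : n < l) (hlF : (l : F) ≠ 0)
    {P : Subgroup (GL (Fin n) F)} [Finite P] (hP : IsPGroup l P) :
    ∀ a ∈ P, ∀ b ∈ P, a * b = b * a := by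
  haveI := Fact.mk hl
  obtain ⟨k, hk⟩ := hP.isNilpotent.nilpotent'
  have key : ∀ m, Subgroup.upperCentralSeries P m ≤ Subgroup.center P := by
    intro m
    induction m with
    | zero => simp
    | succ m ih =>
      intro b hb
      rw [Subgroup.mem_upperCentralSeries_succ_iff] at hb
      have h1 : ∀ x : P, ∃ z ∈ Subgroup.center P, x * b * x⁻¹ = z * b := fun x =>
        ⟨_, Subgroup.inv_mem _ (ih (hb x)), by rw [commutatorElement_def]; group⟩
      refine Subgroup.mem_center_iff.2 (LitConj_central hl hln hlF hP b fun x y => ?_)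
      obtain ⟨z, hz, h2⟩ := h1 x
      obtain ⟨w, hw, h3⟩ := h1 y
      rw [h2, h3]
      have hz' : ∀ u, Commute z u := fun u => (Subgroup.mem_center_iff.1 hz u).symm
      have hw' : ∀ u, Commute u w := fun u => Subgroup.mem_center_iff.1 hw u
      exact (hz' _).mul_left ((hw' _).mul_right (Commute.refl b))
  intro a ha b hb
  have := Subgroup.mem_center_iff.1 (key k (hk ▸ Subgroup.mem_top (⟨b, hb⟩ : P))) ⟨a, ha⟩
  exact congrArg Subtype.val this

/-- If `wt i ≠ wt j` take a coordinate `a` where they differ and `z = Pi.mulSingle a ζ` with `ζ` a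
primitive `l`-th root of unity. -/
theorem mem_null_of_comm {l : ℕ} (hl : l.Prime) (hlF : (l : F) ≠ 0)
    (hb : ∀ i j a, (wt i a - wt j a).natAbs < l) {g : GL (Fin n) F}
    (h : ∀ z : Fin r → Fˣ, z ^ l = 1 → tau wt z * g = g * tau wt z) :
    g ∈ US wt ⊤ (nullS r) := by
  haveI : NeZero (l : F) := ⟨hlF⟩
  haveI : NeZero l := ⟨hl.ne_zero⟩
  obtain ⟨ζ, hζ⟩ := HasEnoughRootsOfUnity.exists_primitiveRoot F l
  have hu := (hζ.isUnit hl.ne_zero)
  have hζ' : IsPrimitiveRoot hu.unit l := IsPrimitiveRoot.coe_units_iff.1 (by simpa using hζ)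
  refine (mem_US_of_zero_mem (mem_nullS.2 rfl)).2 ⟨trivial, fun i j hij => mem_nullS.2 ?_⟩
  funext a
  have h1 := h (cochar (Pi.single a 1) hu.unit) (by
    funext b
    simp only [cochar, Pi.pow_apply, Pi.one_apply]
    rw [← zpow_natCast, ← zpow_mul, mul_comm, zpow_mul, zpow_natCast, hζ'.pow_eq_one, one_zpow])
  have h2 : ((tau wt (cochar (Pi.single a 1) hu.unit)).1 * g.1) i j =
      (g.1 * (tau wt (cochar (Pi.single a 1) hu.unit)).1) i j := by
    rw [← Units.val_mul, ← Units.val_mul, h1]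
  rw [tau_val, Matrix.mul_diagonal, Matrix.diagonal_mul,
    mul_comm (g.1 i j), Basic_single, Basic_single] at h2
  have h3 : hu.unit ^ wt i a = hu.unit ^ wt j a := Units.ext (mul_right_cancel₀ hij h2)
  have h4 : (l : ℤ) ∣ wt i a - wt j a :=
    (hζ'.zpow_eq_one_iff_dvd _).1 (by rw [zpow_sub, h3, mul_inv_cancel])
  exact Int.eq_zero_of_dvd_of_natAbs_lt_natAbs h4 (by simpa using hb i j a)

omit [IsAlgClosed F] in
theorem LitConj_normalizer {T : Subgroup (GL (Fin n) F)} {m : GL (Fin n) F}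
    (h : ∀ t ∈ T, m * t * m⁻¹ ∈ T) : m ∈ Subgroup.normalizer (T : Set (GL (Fin n) F)) := by
  have hp : ∀ k : ℕ, ∀ t ∈ T, m ^ k * t * (m ^ k)⁻¹ ∈ T := by
    intro k
    induction k with
    | zero => simp
    | succ k ih =>
      intro t ht
      have : m ^ (k + 1) * t * (m ^ (k + 1))⁻¹ = m ^ k * (m * t * m⁻¹) * (m ^ k)⁻¹ := by
        rw [pow_succ]; group
      rw [this]
      exact ih _ (h t ht)
  obtain ⟨k, hk⟩ := (Submonoid.mem_powers_iff _ _).1
    ((finOrd m).mem_powers_iff_mem_zpowers.2 (Subgroup.inv_mem _ (Subgroup.mem_zpowers m)))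
  refine Subgroup.mem_normalizer_iff.2 fun t => ⟨h t, fun ht => ?_⟩
  have := hp k _ ht
  rw [hk] at this
  simpa [mul_assoc] using this

omit [IsAlgClosed F] [IsFbar F] in
theorem LitConj_finite {l : ℕ} (hl : l.Prime) : {z : Fin r → Fˣ | z ^ l = 1}.Finite := by
  haveI : NeZero l := ⟨hl.ne_zero⟩
  have h1 : ((rootsOfUnity l F : Subgroup Fˣ) : Set Fˣ).Finite :=
    (inferInstance : Finite (rootsOfUnity l F))
  refine (Set.Finite.pi' fun _ : Fin r => h1).subset fun z hz i => ?_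
  exact congrFun hz i

/-- Two finite `l`-subgroups of `P` are conjugate in `P` to commuting subgroups. -/
theorem LitConj_sylow {l : ℕ} (hl : l.Prime) (hln : n < l) (hlF : (l : F) ≠ 0)
    {P A A' : Subgroup (GL (Fin n) F)} (hA : A ≤ P) (hA' : A' ≤ P)
    (hf : (A : Set (GL (Fin n) F)).Finite) (hf' : (A' : Set (GL (Fin n) F)).Finite)
    (h : ∀ a ∈ A, a ^ l = 1) (h' : ∀ a ∈ A', a ^ l = 1) :
    ∃ γ ∈ P, ∀ a ∈ A, ∀ a' ∈ A', a * (γ * a' * γ⁻¹) = γ * a' * γ⁻¹ * a := by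
  haveI := Fact.mk hl
  set Γ := Subgroup.closure ((A : Set (GL (Fin n) F)) ∪ A') with hΓ
  haveI : Finite Γ := finite_closure (hf.union hf')
  have hΓP : Γ ≤ P := (Subgroup.closure_le _).2 (Set.union_subset hA hA')
  have hp : ∀ B : Subgroup (GL (Fin n) F), (∀ a ∈ B, a ^ l = 1) → IsPGroup l (B.subgroupOf Γ) :=
    fun B hB x => ⟨1, Subtype.ext (Subtype.ext (by simpa using hB _ x.2))⟩
  obtain ⟨Q, hQ⟩ := (hp A h).exists_le_sylow
  obtain ⟨Q', hQ'⟩ := (hp A' h').exists_le_sylow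
  obtain ⟨γ, hγ⟩ := MulAction.exists_smul_eq Γ Q' Q
  refine ⟨γ, hΓP γ.2, fun a ha a' ha' => ?_⟩
  have haΓ : a ∈ Γ := Subgroup.subset_closure (Or.inl ha)
  have haΓ' : a' ∈ Γ := Subgroup.subset_closure (Or.inr ha')
  have h1 : (⟨a, haΓ⟩ : Γ) ∈ (Q : Subgroup Γ) := hQ ha
  have h2 : γ * ⟨a', haΓ'⟩ * γ⁻¹ ∈ (Q : Subgroup Γ) := by
    rw [← hγ, Sylow.coe_subgroup_smul]
    exact Subgroup.smul_mem_pointwise_smul _ (MulAut.conj γ) _ (hQ' ha')
  haveI : Finite ((Q : Subgroup Γ).map Γ.subtype) :=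
    Set.Finite.image _ (Set.toFinite ((Q : Subgroup Γ) : Set Γ))
  exact comm_of_isPGroup hl hln hlF (Q.isPGroup'.map Γ.subtype) _ ⟨_, h1, rfl⟩ _ ⟨_, h2, rfl⟩

/-- Take a prime `l` larger than `n`, `p` and all entries; `A = tau {z | z ^ l = 1}`,
`A' = g⁻¹ A g`, `Γ ≤ P` the finite group they generate. By Sylow's theorems
(`IsPGroup.exists_le_sylow`, `MulAction.exists_smul_eq`) and `comm_of_isPGroup` some `γ A' γ⁻¹`
commutes with `A`, so it lies in `T` (`mem_null_of_comm`, `Good.mem_TT_of_ss`). With `m = g γ⁻¹`,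
`m T m⁻¹` commutes with `A`, so `m T m⁻¹ ≤ T`; `m` has finite order. -/
theorem Good.exists_conj (hG : Good wt G) {P : Subgroup (GL (Fin n) F)} (hP : P ≤ G)
    (hT : TT F wt ≤ P) {g : GL (Fin n) F} (hg : g ∈ G) (h : ∀ t ∈ TT F wt, g⁻¹ * t * g ∈ P) :
    ∃ γ ∈ P, g * γ⁻¹ ∈ Subgroup.normalizer (TT F wt : Set (GL (Fin n) F)) := by
  obtain ⟨l, hl1, hl⟩ := Nat.exists_infinite_primes (n + ringChar F +
    (Finset.univ.sup fun x : Fin n × Fin n × Fin r => (wt x.1 x.2.2 - wt x.2.1 x.2.2).natAbs) + 1)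
  have hln : n < l := by omega
  have hlF : (l : F) ≠ 0 := by
    intro h0
    have h1 := (Nat.prime_dvd_prime_iff_eq (ringChar_prime F) hl).1 ((ringChar.spec F l).1 h0)
    omega
  have hb : ∀ i j a, (wt i a - wt j a).natAbs < l := fun i j a => by
    have := Finset.le_sup (f := fun x : Fin n × Fin n × Fin r =>
      (wt x.1 x.2.2 - wt x.2.1 x.2.2).natAbs) (Finset.mem_univ (i, j, a))
    simp only at this
    omega
  let R : Subgroup (Fin r → Fˣ) := (powMonoidHom l).ker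
  have hR : (R : Set (Fin r → Fˣ)).Finite := LitConj_finite hl
  have hcen : ∀ s ∈ G, SS s → (∀ z : Fin r → Fˣ, z ^ l = 1 → tau wt z * s = s * tau wt z) →
      s ∈ TT F wt := fun s hs hss hc =>
    hG.mem_TT_of_ss ⟨hs, (mem_null_of_comm hl hlF hb hc).2⟩ hss
  obtain ⟨γ, hγ, hc⟩ := LitConj_sylow hl hln hlF (P := P) (A := R.map (tau wt))
    (A' := R.map ((MulAut.conj g⁻¹).toMonoidHom.comp (tau wt)))
    (by rintro _ ⟨z, -, rfl⟩; exact hT (tau_mem z))
    (by rintro _ ⟨z, -, rfl⟩; simpa using h _ (tau_mem z))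
    (hR.image _) (hR.image _)
    (by rintro _ ⟨z, hz, rfl⟩; rw [← map_pow, show z ^ l = 1 from hz, map_one])
    (by rintro _ ⟨z, hz, rfl⟩; rw [← map_pow, show z ^ l = 1 from hz, map_one])
  refine ⟨γ, hγ, LitConj_normalizer fun t ht => ?_⟩
  have hm : g * γ⁻¹ ∈ G := G.mul_mem hg (G.inv_mem (hP hγ))
  set m := g * γ⁻¹ with hmdef
  have h1 : ∀ z : Fin r → Fˣ, z ^ l = 1 → m⁻¹ * tau wt z * m⁻¹⁻¹ ∈ TT F wt := by
    intro z hz
    refine hcen _ (G.mul_mem (G.mul_mem (G.inv_mem hm) (hG.le (tau_mem z)))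
      (G.inv_mem (G.inv_mem hm))) ((ss_of_mem_TT (tau_mem z)).conj _) fun w hw => ?_
    have h2 := hc _ ⟨w, hw, rfl⟩ _ ⟨z, hz, rfl⟩
    have h3 : m⁻¹ * tau wt z * m⁻¹⁻¹ =
        γ * ((MulAut.conj g⁻¹).toMonoidHom.comp (tau wt)) z * γ⁻¹ := by
      simp [hmdef, mul_assoc]
    rw [h3]
    exact h2
  refine hcen _ (G.mul_mem (G.mul_mem hm (hG.le ht)) (G.inv_mem hm))
    ((ss_of_mem_TT ht).conj _) fun z hz => ?_
  have h4 := TT_comm (h1 z hz) ht
  calc tau wt z * (m * t * m⁻¹) = m * (m⁻¹ * tau wt z * m⁻¹⁻¹ * t) * m⁻¹ := by group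
    _ = m * t * m⁻¹ * tau wt z := by rw [h4]; group

end Pool.Agent.Work.MP_bb5f23_al.Lit
end

-- merged part: Pool.Agent.Work.MP_bb5f23_al.LitBFP
section
/-! The fixed point theorem, openness of orbits. -/

namespace Pool.Agent.Work.MP_bb5f23_al.Lit

variable {F : Type} [Field F] [IsAlgClosed F] {n : ℕ}

variable {Q : Subgroup (GL (Fin n) F)} {L : Type} [AddCommGroup L] [Module F L]
  [FiniteDimensional F L]

/-- Borel's fixed point theorem. Take a minimal stable closed cone `Y' ⊆ Y` with a nonzero point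
(`exists_minimal_cl`), `W = span Y'`, and a common eigenvector `ℓ` of the dual of `W`, extended to
`L`. Then `Y' ∩ ker ℓ` is smaller, so it has no nonzero point, and `Φ = Y' ∩ {ℓ = 1}` is finite
(`IsCone.finite_fibre`). Fix `y ∈ Φ`; `Q` is covered by the finitely many closed sets
`{g | ∀ φ, φ (ρ g y) = φ y' * ℓ (ρ g y)}`, `y' ∈ Φ` (use the regular extensions given by `ρ.reg`);
apply `Irr.subset_of_biUnion` and look at `g = 1`. -/
theorem RRep.exists_fixed_line (ρ : RRep Q L) (hQ : Irr (glA F n) (Q : Set (GL (Fin n) F)))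
    (hT : Tri Q) {Y : Set L} (hY : IsCone F Y) (hst : ∀ g ∈ Q, ∀ y ∈ Y, ρ.op g y ∈ Y)
    (hne : ∃ y ∈ Y, y ≠ 0) : ∃ y ∈ Y, y ≠ 0 ∧ ∀ g ∈ Q, ∃ a : F, ρ.op g y = a • y := by
  obtain ⟨Y', ⟨hc, hs, ⟨y, hy, hy0⟩, hsub⟩, hmin⟩ := exists_minimal_cl (fg_linA (F := F) (L := L))
    (𝒮 := {Y' | IsCone F Y' ∧ (∀ g ∈ Q, ∀ y ∈ Y', ρ.op g y ∈ Y') ∧ (∃ y ∈ Y', y ≠ 0) ∧ Y' ⊆ Y})
    ⟨Y, hY, hst, hne, le_rfl⟩ fun _ h => h.1.cl
  have hW : ρ.Stable (Submodule.span F Y') := fun g hg v hv =>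
    (Submodule.span_le (p := (Submodule.span F Y').comap (ρ.op g))).2
      (fun w hw => Submodule.subset_span (hs g hg w hw)) hv
  obtain ⟨σ, hσ⟩ := ρ.exists_sub hW
  obtain ⟨l₀, hl₀, hl⟩ := hT _ σ.dual (by
    by_contra h
    push Not at h
    have : (⟨y, Submodule.subset_span hy⟩ : Submodule.span F Y') = 0 :=
      (Module.forall_dual_apply_eq_zero_iff F _).1 fun φ => by rw [h φ]; rfl
    exact hy0 (congrArg Subtype.val this))
  obtain ⟨l, rfl⟩ := LinearMap.exists_extend l₀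
  have hl' : ∀ g ∈ Q, ∀ w ∈ Y', l w = 0 → l (ρ.op g w) = 0 := fun g hg w hw h0 => by
    obtain ⟨a, ha⟩ := hl g⁻¹ (Q.inv_mem hg)
    have := LinearMap.congr_fun ha ⟨w, Submodule.subset_span hw⟩
    rw [RRep.dual_op, inv_inv] at this
    simpa [hσ g hg, h0] using this
  have hker : ∀ w ∈ Y', l w = 0 → w = 0 := fun w hw h0 => by
    by_contra hw0
    have h1 := hmin (Y' ∩ LinearMap.ker l) ⟨hc.inter (isCone_submodule _),
      fun g hg z hz => ⟨hs g hg z hz.1, hl' g hg z hz.1 hz.2⟩, ⟨w, ⟨hw, h0⟩, hw0⟩,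
      Set.inter_subset_left.trans hsub⟩ Set.inter_subset_left
    exact hl₀ (LinearMap.ext fun z =>
      (Submodule.span_le (p := LinearMap.ker l)).2 (fun u hu => (h1 hu).2) z.2)
  have hfin := hc.finite_fibre (J := Unit) (fun _ => l) (fun w hw h0 => hker w hw (h0 ())) fun _ => 1
  choose f hf hf' using fun φ : Module.Dual F L => ρ.reg φ y
  obtain ⟨y', -, h'⟩ := hQ.subset_of_biUnion hfin.toFinset
    (T := fun y' => ⋂ φ : Module.Dual F L, {g | (f φ - φ y' • f l) g = 0})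
    (fun y' _ => cl_iInter fun φ => cl_zero (sub_mem (hf φ) (Subalgebra.smul_mem _ (hf l) _)))
    fun g hg => by
      have h1 := hs g hg y hy
      have h2 : l (ρ.op g y) ≠ 0 := fun h => ρ.op_ne_zero hg hy0 (hker _ h1 h)
      refine ⟨(l (ρ.op g y))⁻¹ • ρ.op g y, hfin.mem_toFinset.2 ⟨hc.smul _ _ h1, fun _ => ?_⟩,
        Set.mem_iInter.2 fun φ => ?_⟩
      · simp [h2]
      · simp only [Set.mem_ofPred_eq, Pi.sub_apply, Pi.smul_apply, ← hf' _ g hg, map_smul,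
          smul_eq_mul]
        field_simp
        ring
  have key : ∀ g ∈ Q, ρ.op g y = l (ρ.op g y) • y' := fun g hg => by
    rw [← sub_eq_zero, ← Module.forall_dual_apply_eq_zero_iff F]
    intro φ
    have := Set.mem_iInter.1 (h' hg) φ
    simp only [Set.mem_ofPred_eq, Pi.sub_apply, Pi.smul_apply, ← hf' _ g hg, smul_eq_mul] at this
    rw [map_sub, map_smul, smul_eq_mul, mul_comm, this]
  have h1 := key 1 Q.one_mem
  rw [ρ.op_one_apply] at h1
  have h2 : l y ≠ 0 := fun h => hy0 (hker y hy h)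
  refine ⟨y, hsub hy, hy0, fun g hg => ⟨l (ρ.op g y) * (l y)⁻¹, ?_⟩⟩
  have h3 : (l y)⁻¹ • y = y' := by
    rw [inv_smul_eq_iff₀ h2]
    exact h1
  rw [mul_smul, h3]
  exact key g hg

omit [IsAlgClosed F] [FiniteDimensional F L] in
theorem RRep.isCone_zcl_cone (ρ : RRep Q L) (H : Subgroup (GL (Fin n) F)) (v : L) :
    IsCone F (zcl (linA F L) (ρ.cone H v)) := isCone_zcl <| by
  rintro a _ ⟨b, h, hh, rfl⟩
  exact ⟨a * b, h, hh, (mul_smul _ _ _).symm⟩

omit [IsAlgClosed F] [FiniteDimensional F L] in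
theorem RRep.op_mem_zcl_cone (ρ : RRep Q L) {H : Subgroup (GL (Fin n) F)} (hH : H ≤ Q) (v : L)
    {g : GL (Fin n) F} (hg : g ∈ H) {y : L} (hy : y ∈ zcl (linA F L) (ρ.cone H v)) :
    ρ.op g y ∈ zcl (linA F L) (ρ.cone H v) := by
  refine (reg_linear (ρ.op g)).mapsTo_zcl ?_ y hy
  rintro _ ⟨a, h, hh, rfl⟩
  exact ⟨a, g * h, H.mul_mem hg hh, by rw [map_smul, ρ.op_mul_apply (hH hg) (hH hh)]⟩

/-- Apply `chevalley` to `regOn_cone`. On the irreducible set `univ ×ˢ Q` the function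
`c (a • ρ h v)` and the coordinate `a` are not identically zero, so there is a point with `a ≠ 0`
(`Irr.exists_ne_ne`); translate `c` by the invertible map `a • ρ h`. -/
theorem RRep.orbit_open (ρ : RRep Q L) (hQ : Cl (glA F n) (Q : Set (GL (Fin n) F)))
    (hQ' : Irr (glA F n) (Q : Set (GL (Fin n) F))) (v : L) : ∃ c ∈ linA F L, c v ≠ 0 ∧
      ∀ y ∈ zcl (linA F L) (ρ.cone Q v), c y ≠ 0 → y ∈ ρ.cone Q v := by
  have hS : Irr (prodA (linA F F) (glA F n)) (Set.univ ×ˢ (Q : Set (GL (Fin n) F))) :=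
    irr_line.prod hQ'
  obtain ⟨c, hc, ⟨x₀, hx₀, h₀⟩, h⟩ := chevalley (fg_prodA fg_linA fg_glA)
    (pts_prodA pts_linA pts_glA) fg_linA sep_linA ((cl_univ _).prod hQ) hS (ρ.regOn_cone v)
  have e : (fun p : F × GL (Fin n) F => p.1 • ρ.op p.2 v) ''
      (Set.univ ×ˢ (Q : Set (GL (Fin n) F))) = ρ.cone Q v := by
    ext y
    constructor
    · rintro ⟨p, hp, rfl⟩
      exact ⟨p.1, p.2, hp.2, rfl⟩
    · rintro ⟨a, g, hg, rfl⟩
      exact ⟨(a, g), ⟨trivial, hg⟩, rfl⟩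
  rw [e] at h
  obtain ⟨d, hd, hd'⟩ := ρ.regOn_cone v c hc
  obtain ⟨⟨a, g⟩, hx, h1, h2⟩ := hS.exists_ne_ne hd (reg_fst _ _ _ id_mem_linA)
    ⟨x₀, hx₀, hd' x₀ hx₀ ▸ h₀⟩ ⟨(1, 1), ⟨trivial, Q.one_mem⟩, one_ne_zero⟩
  have hg : g ∈ Q := hx.2
  have ha : a ≠ 0 := h2
  refine ⟨_, reg_linear (a • ρ.op g) c hc, (hd' _ hx).symm ▸ h1, fun y hy h3 => ?_⟩
  obtain ⟨b, g', hg', e'⟩ := h _
    ((ρ.isCone_zcl_cone Q v).smul a _ (ρ.op_mem_zcl_cone le_rfl v hg hy)) h3
  refine ⟨a⁻¹ * b, g⁻¹ * g', Q.mul_mem (Q.inv_mem hg) hg', ?_⟩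
  rw [ρ.op_mul_apply (Q.inv_mem hg) hg', ← map_smul, mul_smul, ← e', inv_smul_smul₀ ha,
    ρ.op_inv_op hg]

end Pool.Agent.Work.MP_bb5f23_al.Lit
end

-- merged part: Pool.Agent.Work.MP_bb5f23_al.LitChart
section
/-! The closed orbit of the highest weight line and its charts. -/

namespace Pool.Agent.Work.MP_bb5f23_al.Lit

variable {F : Type} [Field F] [IsAlgClosed F] [IsFbar F] {n r : ℕ}

namespace RRep

variable {G : Subgroup (GL (Fin n) F)} {L : Type} [AddCommGroup L] [Module F L]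
  [FiniteDimensional F L] {ρ : RRep G L} {wt : Fin n → Fin r → ℤ} {c c' : Fin r → ℤ} {v v' : L}
  {ℓ ℓ' : Module.Dual F L} {k k' : ℤ}

omit [IsAlgClosed F] [IsFbar F] [FiniteDimensional F L] in
theorem LitChart_smul {H : Subgroup (GL (Fin n) F)} (a : F) {y : L} (hy : y ∈ ρ.cone H v) :
    a • y ∈ ρ.cone H v := by
  obtain ⟨b, g, hg, rfl⟩ := hy
  exact ⟨a * b, g, hg, smul_smul _ _ _⟩

omit [IsAlgClosed F] [IsFbar F] [FiniteDimensional F L] in
theorem LitChart_op {g : GL (Fin n) F} (hg : g ∈ G) {y : L} (hy : y ∈ ρ.cone G v) :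
    ρ.op g y ∈ ρ.cone G v := by
  obtain ⟨b, x, hx, rfl⟩ := hy
  exact ⟨b, g * x, G.mul_mem hg hx, by rw [map_smul, ρ.op_mul_apply hg hx]⟩

theorem LitChart_torus (h : ρ.Vertex wt c v ℓ k) (hT : TT F wt ≤ G)
    {S : AddSubsemigroup (Fin r → ℤ)} {t : GL (Fin n) F} (ht : t ∈ TT F wt) {y : L}
    (hy : y ∈ ρ.cone (US wt G S) v) : ρ.op t y ∈ ρ.cone (US wt G S) v := by
  obtain ⟨b, u, hu, rfl⟩ := hy
  obtain ⟨a, -, ha, -⟩ := h.torus hT ht
  have hu' := conj_mem_US hT ht hu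
  refine ⟨b * a, _, hu', ?_⟩
  rw [map_smul, ← smul_smul, ← map_smul _ a v, ← ha, ← ρ.op_mul_apply hu'.1 (hT ht),
    inv_mul_cancel_right, ρ.op_mul_apply (hT ht) hu.1]

theorem LitChart_cone_subset (h : ρ.Vertex wt c v ℓ k) (hG : Good wt G) :
    ρ.cone G v ⊆ zcl (linA F L) (ρ.cone (US wt G (posS (-c))) v) := by
  rintro _ ⟨a, g, hg, rfl⟩
  refine (ρ.isCone_zcl_cone _ v).smul a _ fun f hf h0 => ?_
  obtain ⟨f', hf', e⟩ := ρ.regOn_orbit v f hf
  refine (e g hg).trans (hG.subset_zcl_cell c hg f' hf' fun x hx => ?_)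
  obtain ⟨b, -, u, hu, e', -⟩ := h.cell hG hx.1 hx.2
  exact (e x hx.1).symm.trans (h0 _ ⟨b, u, hu, e'⟩)

/-- Let `U = US G (posS (-c))`. The cone of `G v` lies in the closure of the cone of `U v`
(`regOn_orbit`, `Good.subset_zcl_cell`, `Vertex.cell`). Take `f` from `orbit_open` for `ρ.res`;
scale `y` so that `ℓ y = 1`; by `IsGr.exists_ne_of_top` some `t ^ (-k) • ρ (coc c t) y` (a point of
the closure) lies in the cone of `U v`, which is stable under `coc c t`. -/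
theorem Vertex.chart (h : ρ.Vertex wt c v ℓ k) (hG : Good wt G) {y : L}
    (hy : y ∈ zcl (linA F L) (ρ.cone G v)) (h0 : ℓ y ≠ 0) :
    ∃ u ∈ US wt G (posS (-c)), y = ℓ y • ρ.op u v := by
  have hsub : zcl (linA F L) (ρ.cone G v) ⊆ zcl (linA F L) (ρ.cone (US wt G (posS (-c))) v) :=
    (cl_zcl _ _).zcl_subset (LitChart_cone_subset h hG)
  obtain ⟨f, hf, hfv, hopen⟩ := (ρ.res (US_le (wt := wt) (S := posS (-c)))).orbit_open hG.cl.US
    (irr_US hG.le le_rfl) v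
  obtain ⟨Γ, hΓ⟩ := ρ.exists_gr (hG.coc_mem c)
  have hp := h.pr_top hΓ ((ℓ y)⁻¹ • y)
  rw [map_smul ℓ, smul_eq_mul, inv_mul_cancel₀ h0, one_smul] at hp
  obtain ⟨t, ht⟩ := hΓ.exists_ne_of_top hp.2 hf (by rwa [hp.1])
  have hC := ρ.isCone_zcl_cone G v
  have h1 : ((t : F) ^ (-k)) • ρ.op (coc wt c t) ((ℓ y)⁻¹ • y) ∈ ρ.cone (US wt G (posS (-c))) v :=
    hopen _ (hsub (hC.smul _ _ (ρ.op_mem_zcl_cone le_rfl v (hG.coc_mem c t) (hC.smul _ _ hy)))) ht
  have h2 := LitChart_smul (ℓ y * (t : F) ^ k)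
    (LitChart_torus h hG.le ((TT F wt).inv_mem (coc_mem c t)) h1)
  rw [map_smul, ρ.op_inv_op (hG.coc_mem c t), smul_smul, smul_smul, zpow_neg,
    mul_inv_cancel_right₀ (zpow_ne_zero k t.ne_zero), mul_inv_cancel₀ h0, one_smul] at h2
  obtain ⟨a, u, hu, e⟩ := h2
  refine ⟨u, hu, ?_⟩
  have h3 : ℓ y = a := by rw [e, map_smul, h.form_neg hG.le hu, h.one, smul_eq_mul, mul_one]
  rw [h3]
  exact e

/-- `IsIrr.exists_ne`, `op_mem_zcl_cone`, `Vertex.chart`. -/
theorem Vertex.isCone (h : ρ.Vertex wt c v ℓ k) (hG : Good wt G) (hρ : ρ.IsIrr) :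
    IsCone F (ρ.cone G v) := by
  refine ⟨fun y hy => ?_, fun a y hy => LitChart_smul a hy⟩
  by_cases h0 : y = 0
  · exact ⟨0, 1, G.one_mem, by rw [h0, zero_smul]⟩
  obtain ⟨g, hg, h1⟩ := hρ.exists_ne h.form_ne_zero h0
  obtain ⟨u, hu, e⟩ := h.chart hG (ρ.op_mem_zcl_cone le_rfl v hg hy) h1
  have h2 := LitChart_op (G.inv_mem hg) (show ρ.op g y ∈ ρ.cone G v from ⟨_, u, hu.1, e⟩)
  rwa [ρ.op_inv_op hg] at h2

theorem LitChart_cone_le (h : ρ.Vertex wt c v ℓ k) (h' : ρ.Vertex wt c' v' ℓ' k') (hG : Good wt G)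
    (hρ : ρ.IsIrr) : ρ.cone G v' ⊆ ρ.cone G v := by
  obtain ⟨g, hg, h1⟩ := hρ.exists_ne h'.form_ne_zero h.ne_zero
  obtain ⟨Γ, hΓ⟩ := ρ.exists_gr (hG.coc_mem c')
  have hp := h'.pr_top hΓ (ρ.op g v)
  have h2 := hΓ.top_mem (h.isCone hG hρ) (fun t y hy => LitChart_op (hG.coc_mem c' t) hy)
    (show ρ.op g v ∈ ρ.cone G v from ⟨1, g, hg, (one_smul _ _).symm⟩) hp.2
  have h3 := LitChart_smul (ℓ' (ρ.op g v))⁻¹ h2
  rw [hp.1, smul_smul, inv_mul_cancel₀ h1, one_smul] at h3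
  rintro _ ⟨a, x, hx, rfl⟩
  exact LitChart_smul a (LitChart_op hx h3)

/-- `v'` is the top component of a point of the closed cone (`IsGr.top_mem`). -/
theorem Vertex.cone_eq (h : ρ.Vertex wt c v ℓ k) (h' : ρ.Vertex wt c' v' ℓ' k') (hG : Good wt G)
    (hρ : ρ.IsIrr) : ρ.cone G v' = ρ.cone G v :=
  (LitChart_cone_le h h' hG hρ).antisymm (LitChart_cone_le h' h hG hρ)

/-- Apply `Good.exists_conj` to `P = ρ.lineStab v`. -/
theorem Vertex.exists_of_eigen (h : ρ.Vertex wt c v ℓ k) (hG : Good wt G) {y : L}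
    (hy : y ∈ ρ.cone G v) (h0 : y ≠ 0) (hT : ∀ t ∈ TT F wt, ∃ a : F, ρ.op t y = a • y) :
    ∃ m ∈ G, m ∈ NN F wt ∧ ∃ a : F, a ≠ 0 ∧ y = a • ρ.op m v := by
  obtain ⟨a, g, hg, rfl⟩ := hy
  have ha : a ≠ 0 := fun e => h0 (by rw [e, zero_smul])
  obtain ⟨γ, hγ, hm⟩ := hG.exists_conj (P := ρ.lineStab v) (fun _ hx => hx.1)
    (fun t ht => ⟨hG.le ht, (h.torus hG.le ht).imp fun _ hb => hb.2.1⟩) hg (by
      intro t ht
      obtain ⟨b, hb⟩ := hT t ht
      rw [map_smul, smul_comm] at hb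
      refine ⟨G.mul_mem (G.mul_mem (G.inv_mem hg) (hG.le ht)) hg, b, ?_⟩
      rw [ρ.op_mul_apply (G.mul_mem (G.inv_mem hg) (hG.le ht)) hg,
        ρ.op_mul_apply (G.inv_mem hg) (hG.le ht), smul_right_injective L ha hb, map_smul,
        ρ.op_inv_op hg])
  obtain ⟨hγ', e, he⟩ := (ρ.lineStab v).inv_mem hγ
  have he0 : e ≠ 0 := fun h1 => ρ.op_ne_zero hγ' h.ne_zero (by rw [he, h1, zero_smul])
  refine ⟨g * γ⁻¹, G.mul_mem hg hγ', hm, a * e⁻¹, mul_ne_zero ha (inv_ne_zero he0), ?_⟩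
  rw [ρ.op_mul_apply hg hγ', he, map_smul, smul_smul, inv_mul_cancel_right₀ he0]

end RRep

end Pool.Agent.Work.MP_bb5f23_al.Lit
end

-- merged part: Pool.Agent.Work.MP_bb5f23_al.LitChart2
section
/-! The charts cover the closed orbit; orbits of centralisers are closed. -/

namespace Pool.Agent.Work.MP_bb5f23_al.Lit

variable {F : Type} [Field F] [IsAlgClosed F] [IsFbar F] {n r : ℕ}

namespace RRep

variable {G : Subgroup (GL (Fin n) F)} {L : Type} [AddCommGroup L] [Module F L]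
  [FiniteDimensional F L] {ρ : RRep G L} {wt : Fin n → Fin r → ℤ} {c c' : Fin r → ℤ} {v v' : L}
  {ℓ ℓ' : Module.Dual F L} {k k' : ℤ}

omit [IsFbar F] in
/-- A linear form that is an eigenvector of a cocharacter has a weight. -/
theorem chart2_form (hc : ∀ t, coc wt c t ∈ G) {φ : Module.Dual F L}
    (hφ : ∀ t : Fˣ, ∃ a : F, ∀ x, φ (ρ.op (coc wt c t) x) = a * φ x) :
    ∃ m : ℤ, ∀ (t : Fˣ) x, φ (ρ.op (coc wt c t) x) = (t : F) ^ m * φ x := by
  obtain ⟨Γ, hΓ⟩ := ρ.dual.exists_gr hc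
  obtain ⟨m, hm⟩ := hΓ.exists_wsp (v := φ) fun t => by
    obtain ⟨a, ha⟩ := hφ t⁻¹
    refine ⟨a, LinearMap.ext fun x => ?_⟩
    rw [dual_op, ← coc_inv, ha, LinearMap.smul_apply, smul_eq_mul]
  refine ⟨-m, fun t x => ?_⟩
  have h1 := LinearMap.congr_fun (mem_wsp.1 hm t⁻¹) x
  rw [dual_op, ← coc_inv, inv_inv, LinearMap.smul_apply, smul_eq_mul] at h1
  rw [h1, Units.val_inv_eq_inv_val, inv_zpow']

omit [IsFbar F] in
/-- The lowest component of a nonzero point of a stable closed cone. -/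
theorem chart2_step (hT : TT F wt ≤ G) {Y : Set L} (hY : IsCone F Y)
    (hst : ∀ t ∈ TT F wt, ∀ y ∈ Y, ρ.op t y ∈ Y) (c : Fin r → ℤ) {y : L} (hy : y ∈ Y)
    (h0 : y ≠ 0) :
    ∃ y' ∈ Y, y' ≠ 0 ∧ (∃ k, y' ∈ ρ.wsp wt c k) ∧
      (∀ c' k', y ∈ ρ.wsp wt c' k' → y' ∈ ρ.wsp wt c' k') ∧
      ∀ φ : Module.Dual F L, (∀ t ∈ TT F wt, ∃ a : F, ∀ x, φ (ρ.op t x) = a * φ x) →
        φ y' ≠ 0 → φ y ≠ 0 := by
  classical
  have hc : ∀ c t, coc wt c t ∈ G := fun c t => hT (coc_mem c t)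
  obtain ⟨Γ, hΓ⟩ := ρ.exists_gr (hc c)
  have hne : (Γ.S.filter fun k => Γ.pr k y ≠ 0).Nonempty := by
    by_contra hcon
    rw [Finset.not_nonempty_iff_eq_empty, Finset.filter_eq_empty_iff] at hcon
    refine h0 ?_
    rw [← Γ.sum_pr y]
    exact Finset.sum_eq_zero fun k hk => not_not.1 (hcon hk)
  have hk := Finset.mem_filter.1 (Finset.min'_mem _ hne)
  have hlow : ∀ l < Finset.min' _ hne, Γ.pr l y = 0 := by
    intro l hl
    by_contra hcon
    have hS : l ∈ Γ.S := by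
      by_contra hS
      exact hcon (by rw [Γ.pr_eq_zero l hS]; rfl)
    exact absurd (Finset.min'_le _ l (Finset.mem_filter.2 ⟨hS, hcon⟩)) (not_le.2 hl)
  refine ⟨_, hΓ.bot_mem hY (fun t => hst _ (coc_mem c t)) hy hlow, hk.2, ⟨_, hΓ _ _⟩,
    fun c' k' hy' => ?_, fun φ hφ hφ0 => ?_⟩
  · exact hΓ.pr_mem (fun t x hx => op_mem_wsp (hc c') (hc c t)
      (fun s => TT_comm (coc_mem c' s) (coc_mem c t)) hx) hy' _
  · obtain ⟨m, hm⟩ := chart2_form (ρ := ρ) (hc c) fun t => hφ _ (coc_mem c t)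
    rw [hΓ.form_pr hm] at hφ0
    intro h
    exact hφ0 (by rw [h, ite_self])

/-- Among the nonzero `y' ∈ Y` with the last property take one for which the span of its `T`-orbit
has least dimension. If `y'` is not a weight vector for `Pi.single i 1`, its lowest component
(`IsGr.bot_mem`, `IsGr.pr_mem`, `IsGr.form_pr`) is a smaller example. Conclude with
`TT_le_of_coc` for `ρ.lineStab y'`. -/
theorem exists_eigen_of_cone (hT : TT F wt ≤ G) {Y : Set L} (hY : IsCone F Y)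
    (hst : ∀ t ∈ TT F wt, ∀ y ∈ Y, ρ.op t y ∈ Y) {y : L} (hy : y ∈ Y) (h0 : y ≠ 0) :
    ∃ y' ∈ Y, y' ≠ 0 ∧ (∀ t ∈ TT F wt, ∃ a : F, ρ.op t y' = a • y') ∧
      ∀ φ : Module.Dual F L, (∀ t ∈ TT F wt, ∃ a : F, ∀ x, φ (ρ.op t x) = a * φ x) →
        φ y' ≠ 0 → φ y ≠ 0 := by
  classical
  have key : ∀ s : Finset (Fin r), ∃ y' ∈ Y, y' ≠ 0 ∧
      (∀ i ∈ s, ∃ k, y' ∈ ρ.wsp wt (Pi.single i 1) k) ∧
      ∀ φ : Module.Dual F L, (∀ t ∈ TT F wt, ∃ a : F, ∀ x, φ (ρ.op t x) = a * φ x) →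
        φ y' ≠ 0 → φ y ≠ 0 := by
    intro s
    induction s using Finset.induction_on with
    | empty => exact ⟨y, hy, h0, by simp, fun _ _ h => h⟩
    | insert i s _ ih =>
      obtain ⟨y₁, h1, h2, h3, h4⟩ := ih
      obtain ⟨y₂, g1, g2, g3, g4, g5⟩ := chart2_step hT hY hst (Pi.single i 1) h1 h2
      refine ⟨y₂, g1, g2, fun j hj => ?_, fun φ hφ h => h4 φ hφ (g5 φ hφ h)⟩
      rcases Finset.mem_insert.1 hj with rfl | hj
      · exact g3
      · obtain ⟨k, hk⟩ := h3 j hj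
        exact ⟨k, g4 _ _ hk⟩
  obtain ⟨y', h1, h2, h3, h4⟩ := key Finset.univ
  refine ⟨y', h1, h2, fun t ht => ?_, h4⟩
  have hle : TT F wt ≤ ρ.lineStab y' := TT_le_of_coc fun i s => by
    obtain ⟨k, hk⟩ := h3 i (Finset.mem_univ i)
    exact ρ.mem_lineStab.2 ⟨hT (coc_mem _ s), _, mem_wsp.1 hk s⟩
  exact (ρ.mem_lineStab.1 (hle ht)).2

/-- The charts cover the orbit (`exists_acts`, `Acts.exists_dual`, `Acts.regular`, `Vertex.conj`,
`Vertex.torus`). -/
theorem Vertex.cover (h : ρ.Vertex wt c v ℓ k) (hG : Good wt G) (hρ : ρ.IsIrr)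
    (hc : Regular wt c) {y : L} (hy : y ∈ ρ.cone G v) (h0 : y ≠ 0) :
    ∃ c' v' ℓ' k', Regular wt c' ∧ ρ.Vertex wt c' v' ℓ' k' ∧ ℓ' y ≠ 0 := by
  have hst : ∀ t ∈ TT F wt, ∀ y ∈ ρ.cone G v, ρ.op t y ∈ ρ.cone G v := by
    rintro t ht _ ⟨a, g, hg, rfl⟩
    exact ⟨a, t * g, G.mul_mem (hG.le ht) hg, by rw [map_smul, ρ.op_mul_apply (hG.le ht) hg]⟩
  obtain ⟨y', h1, h2, h3, h4⟩ := exists_eigen_of_cone hG.le (h.isCone hG hρ) hst hy h0
  obtain ⟨m, hm, hN, a, ha, rfl⟩ := h.exists_of_eigen hG h1 h2 h3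
  obtain ⟨A, hA⟩ := exists_acts hG.span hN
  obtain ⟨c', hc1, hc2⟩ := hA.exists_dual c
  have h' := h.conj hG.le hm hc2
  refine ⟨c', _, _, k, hA.regular hc1 hc, h', h4 _ (fun t ht => ?_) ?_⟩
  · obtain ⟨b, -, -, hb⟩ := h'.torus hG.le ht
    exact ⟨b, hb⟩
  · rw [map_smul, h'.one, smul_eq_mul, mul_one]
    exact ha

/-- `v` has a weight `l'` for `μ` (`IsGr.exists_wsp`), and `l' = l` by `IsGr.form_pr`,
`Vertex.torus`, `Vertex.form_neg`. Write `u = a b w` (`exists_tri_factor`); the component of degree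
`l` of `ρ a⁻¹ x = ρ b (ρ w v)` is `x` (`IsGr.lower`) and `ρ b v` (`IsGr.raise`, `IsGr.pr_op`). -/
theorem Vertex.fixed_chart (h : ρ.Vertex wt c v ℓ k) (hG : Good wt G) (μ : Fin r → ℤ)
    {u : GL (Fin n) F} (hu : u ∈ US wt G (posS (-c))) {l : ℤ} (hx : ρ.op u v ∈ ρ.wsp wt μ l) :
    ∃ b ∈ US wt G (zeroS μ), ρ.op u v = ρ.op b v := by
  have hc : ∀ t, coc wt μ t ∈ G := hG.coc_mem μ
  obtain ⟨Γ, hΓ⟩ := ρ.exists_gr hc
  obtain ⟨l', hl'⟩ := hΓ.exists_wsp (v := v) fun t => by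
    obtain ⟨a, -, ha, -⟩ := h.torus hG.le (coc_mem μ t)
    exact ⟨a, ha⟩
  have hform : ∀ (t : Fˣ) x, ℓ (ρ.op (coc wt μ t) x) = (t : F) ^ l' * ℓ x := by
    intro t x
    obtain ⟨a, -, -, ha⟩ := h.torus hG.le (coc_mem μ t)
    have h1 := ha v
    rw [mem_wsp.1 hl' t, map_smul, h.one, smul_eq_mul, mul_one, mul_one] at h1
    rw [ha, h1]
  have hll : l = l' := by
    by_contra hne
    have h1 := hΓ.form_pr hform l (ρ.op u v)
    rw [if_neg hne, hΓ.pr_of_mem hx, if_pos rfl, h.form_neg hG.le hu, h.one] at h1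
    exact one_ne_zero h1
  subst hll
  obtain ⟨a, ha, b, hb, w, hw, huw⟩ := exists_tri_factor hG.cl hG.le (c := -c) le_rfl μ hu
  have ha' : a ∈ US wt G (posS (-μ)) := US_mono le_rfl inf_le_right ha
  have hb' : b ∈ US wt G (zeroS μ) := US_mono le_rfl inf_le_right hb
  have hw' : w ∈ US wt G (posS μ) := US_mono le_rfl inf_le_right hw
  refine ⟨b, hb', ?_⟩
  have h1 : ρ.op a⁻¹ (ρ.op u v) = ρ.op b (ρ.op w v) := by
    rw [huw, ρ.op_mul_apply (G.mul_mem (US_le ha') (US_le hb')) (US_le hw'),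
      ρ.op_mul_apply (US_le ha') (US_le hb'), ρ.op_inv_op (US_le ha')]
  have h2 := (hΓ.lower hc (inv_mem ha') hx).1
  rw [h1, hΓ.pr_op hc (US_le hb') (comm_coc_iff.2 (US_mono le_top le_rfl hb')),
    (hΓ.raise hc hw' hl').1] at h2
  exact h2.symm

/-- Let `H = US G (zeroS μ)` and `y ≠ 0` in the closure of the cone of `H v`; it lies in the cone of
`G v` and in a weight space of `μ` (`cl_submodule`). Take `(v', ℓ')` from `cover`; by `cone_eq`,
`chart`, `fixed_chart`, both `y` and some `ρ h v` with `ℓ' (ρ h v) ≠ 0` lie in the cone of `H v'`. -/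
theorem Vertex.isCone_zeroS (h : ρ.Vertex wt c v ℓ k) (hG : Good wt G) (hρ : ρ.IsIrr)
    (hc : Regular wt c) (μ : Fin r → ℤ) : IsCone F (ρ.cone (US wt G (zeroS μ)) v) := by
  have hcμ : ∀ t, coc wt μ t ∈ G := hG.coc_mem μ
  refine ⟨fun y hy => ?_, ?_⟩
  swap
  · rintro a _ ⟨b, g, hg, rfl⟩
    exact ⟨a * b, g, hg, by rw [mul_smul]⟩
  by_cases h0 : y = 0
  · exact ⟨0, 1, one_mem _, by rw [h0, zero_smul]⟩
  obtain ⟨Γ, hΓ⟩ := ρ.exists_gr hcμ
  obtain ⟨l, hl⟩ := hΓ.exists_wsp (v := v) fun t => by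
    obtain ⟨a, -, ha, -⟩ := h.torus hG.le (coc_mem μ t)
    exact ⟨a, ha⟩
  have hsubG : ρ.cone (US wt G (zeroS μ)) v ⊆ ρ.cone G v := by
    rintro _ ⟨a, g, hg, rfl⟩
    exact ⟨a, g, US_le hg, rfl⟩
  have hsubW : ρ.cone (US wt G (zeroS μ)) v ⊆ (ρ.wsp wt μ l : Set L) := by
    rintro _ ⟨a, g, hg, rfl⟩
    exact Submodule.smul_mem _ a (op_mem_wsp hcμ (US_le hg)
      (comm_coc_iff.2 (US_mono le_top le_rfl hg)) hl)
  have hyG : y ∈ ρ.cone G v := (h.isCone hG hρ).cl.zcl_subset hsubG hy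
  have hyW : y ∈ ρ.wsp wt μ l := (cl_submodule _).zcl_subset hsubW hy
  obtain ⟨c', v', ℓ', k', -, h', hy0⟩ := h.cover hG hρ hc hyG h0
  have key : ∀ x ∈ ρ.cone G v, x ∈ ρ.wsp wt μ l → ℓ' x ≠ 0 →
      ∃ b ∈ US wt G (zeroS μ), x = ℓ' x • ρ.op b v' := by
    intro x hxG hxW hx0
    rw [← h.cone_eq h' hG hρ] at hxG
    obtain ⟨u, hu, hxu⟩ := h'.chart hG (subset_zcl _ _ hxG) hx0
    have hW : ρ.op u v' ∈ ρ.wsp wt μ l := by
      rw [hxu] at hxW
      exact (Submodule.smul_mem_iff _ hx0).1 hxW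
    obtain ⟨b, hb, hub⟩ := h'.fixed_chart hG μ hu hW
    exact ⟨b, hb, by rw [← hub]; exact hxu⟩
  obtain ⟨x, hx, hx0⟩ : ∃ x ∈ ρ.cone (US wt G (zeroS μ)) v, ℓ' x ≠ 0 := by
    by_contra hcon
    push Not at hcon
    exact hy0 (hy _ (dual_mem ℓ') hcon)
  obtain ⟨b, hb, hyb⟩ := key y hyG hyW hy0
  obtain ⟨b', hb', hxb⟩ := key x (hsubG hx) (hsubW hx) hx0
  obtain ⟨a, g, hg, hxg⟩ := hx
  have hv' : v' = ((ℓ' x)⁻¹ * a) • ρ.op b'⁻¹ (ρ.op g v) := by
    have h1 : ρ.op b'⁻¹ x = ℓ' x • v' := by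
      have h2 := congrArg (ρ.op b'⁻¹) hxb
      rwa [map_smul, ρ.op_inv_op (US_le hb')] at h2
    rw [mul_smul, ← map_smul, ← hxg, h1, inv_smul_smul₀ hx0]
  refine ⟨ℓ' y * ((ℓ' x)⁻¹ * a), b * b'⁻¹ * g, mul_mem (mul_mem hb (inv_mem hb')) hg, ?_⟩
  rw [ρ.op_mul_apply (US_le (mul_mem hb (inv_mem hb'))) (US_le hg),
    ρ.op_mul_apply (US_le hb) (US_le (inv_mem hb')), mul_smul, ← map_smul, ← hv']
  exact hyb

end RRep

end Pool.Agent.Work.MP_bb5f23_al.Lit
end

-- merged part: Pool.Agent.Work.MP_bb5f23_al.LitR1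
section
/-! Rank one: irreducible representations. Here all weights of `H` lie on the line of `e`. -/

namespace Pool.Agent.Work.MP_bb5f23_al.Lit

variable {F : Type} [Field F] [IsAlgClosed F] [IsFbar F] {n r : ℕ}

/-- The rank one situation. -/
structure Rk1 (wt : Fin n → Fin r → ℤ) (H : Subgroup (GL (Fin n) F)) (e c : Fin r → ℤ) :
    Prop where
  good : Good wt H
  le : H ≤ US wt ⊤ (line e)
  reg : Regular wt c
  pos : 0 < e ⬝ᵥ c

variable {wt : Fin n → Fin r → ℤ} {H : Subgroup (GL (Fin n) F)} {e c c' : Fin r → ℤ}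

theorem Rk1.neg (h : Rk1 wt H e c) : Rk1 wt H (-e) (-c) :=
  ⟨h.good, by rw [line_neg]; exact h.le, h.reg.neg, by rw [neg_dotProduct_neg]; exact h.pos⟩

/-- `line_inf_posS`. -/
theorem Rk1.US_pos (h : Rk1 wt H e c) (hc : 0 < e ⬝ᵥ c') : US wt H (posS c') = US wt H (ray e) := by
  refine le_antisymm (fun g hg => ⟨hg.1, fun i j hij => ?_⟩) (US_mono le_rfl (ray_le_posS hc))
  rw [← line_inf_posS hc]
  exact ⟨(h.le hg.1).2 i j hij, hg.2 i j hij⟩

/-- If `e ⬝ᵥ c' = 0` all weights on the line vanish (`line_le_zeroS`), while the weights of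
`US H (ray e)` are nonzero. -/
theorem Rk1.dot_ne (h : Rk1 wt H e c) (hne : US wt H (ray e) ≠ ⊥) (hc : Regular wt c') :
    e ⬝ᵥ c' ≠ 0 := fun h0 => hne (US_eq_bot fun i j hij => by
  have h1 := ray_le_posS h.pos hij
  rw [hc i j (line_le_zeroS h0 (ray_le_line e hij)), sub_self, mem_posS, zero_dotProduct] at h1
  exact lt_irrefl _ h1)

namespace RRep

variable {L : Type} [AddCommGroup L] [Module F L] [FiniteDimensional F L] {ρ : RRep H L}
  {v w v' : L} {ℓ φ ℓ' : Module.Dual F L} {k l k' : ℤ}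

/-- Both forms are invariant under `US H (posS (-c)) = US H (posS (-c'))` (`Vertex.span`), so
`ℓ' = ℓ' v • ℓ`; then use `Vertex.torus`, `IsGr.exists_wsp`, `Vertex.eq_of_wsp`. -/
theorem Vertex.unique (h : Rk1 wt H e c) (hρ : ρ.IsIrr) (hv : ρ.Vertex wt c v ℓ k)
    (hc : 0 < e ⬝ᵥ c') (hv' : ρ.Vertex wt c' v' ℓ' k') :
    ∃ a : F, a ≠ 0 ∧ v' = a • v ∧ ℓ = a • ℓ' := by
  have hU : US wt H (posS (-c)) = US wt H (posS (-c')) :=
    (h.neg.US_pos h.neg.pos).trans (h.neg.US_pos (by rwa [neg_dotProduct_neg])).symm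
  have e1 : ℓ' = ℓ' v • ℓ := by
    refine LinearMap.ext_on (hv.span h.good hρ) ?_
    rintro _ ⟨u, hu, rfl⟩
    rw [LinearMap.smul_apply, hv.form_neg h.good.le hu, hv.one, hv'.form_neg h.good.le (hU ▸ hu),
      smul_eq_mul, mul_one]
  have h0 : ℓ' v ≠ 0 := fun e0 => hv'.form_ne_zero (by rw [e1, e0, zero_smul])
  obtain ⟨Γ, hΓ⟩ := ρ.exists_gr (h.good.coc_mem c')
  obtain ⟨l, hl⟩ := hΓ.exists_wsp fun t =>
    (hv.torus h.good.le (coc_mem c' t)).imp fun _ ha => ha.2.1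
  have e2 := hv'.eq_of_wsp h.good.le hl h0
  refine ⟨(ℓ' v)⁻¹, inv_ne_zero h0, ?_, ?_⟩
  · exact (eq_inv_smul_iff₀ h0).2 e2.symm
  · exact (eq_inv_smul_iff₀ h0).2 e1.symm

theorem Vertex.cover₂ (h : Rk1 wt H e c) (hne : US wt H (ray e) ≠ ⊥) (hρ : ρ.IsIrr)
    (hv : ρ.Vertex wt c v ℓ k) (hw : ρ.Vertex wt (-c) w φ l) {y : L} (hy : y ∈ ρ.cone H v)
    (h0 : y ≠ 0) : ℓ y ≠ 0 ∨ φ y ≠ 0 := by
  obtain ⟨c', v', ℓ', k', hc', hv', h1⟩ := hv.cover h.good hρ h.reg hy h0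
  rcases (h.dot_ne hne hc').lt_or_gt with h2 | h2
  · obtain ⟨a, ha, -, e1⟩ := hw.unique h.neg hρ (by rwa [neg_dotProduct, neg_pos]) hv'
    exact Or.inr (by rw [e1]; exact mul_ne_zero ha h1)
  · obtain ⟨a, ha, -, e1⟩ := hv.unique h hρ h2 hv'
    exact Or.inl (by rw [e1]; exact mul_ne_zero ha h1)

/-- The top component of `y` for `c` lies in the cone; by `cover₂` and `eq_of_wsp` it is a multiple
of `w` (a multiple of `v` is excluded by `ℓ y = 0`); since `w` has the lowest weight, `y` equals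
this component. -/
theorem Vertex.eq_smul_of_zero (h : Rk1 wt H e c) (hne : US wt H (ray e) ≠ ⊥) (hρ : ρ.IsIrr)
    (hv : ρ.Vertex wt c v ℓ k) (hw : ρ.Vertex wt (-c) w φ l) {y : L} (hy : y ∈ ρ.cone H v)
    (h0 : ℓ y = 0) : ∃ a : F, y = a • w := by
  classical
  by_cases hy0 : y = 0
  · exact ⟨0, by rw [hy0, zero_smul]⟩
  obtain ⟨Γ, hΓ⟩ := ρ.exists_gr (h.good.coc_mem c)
  obtain ⟨Γ', hΓ'⟩ := ρ.exists_gr (h.good.coc_mem (-c))
  have hS : (Γ.S.filter fun m => Γ.pr m y ≠ 0).Nonempty := by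
    by_contra hS
    rw [Finset.not_nonempty_iff_eq_empty, Finset.filter_eq_empty_iff] at hS
    exact hy0 ((Γ.sum_pr y).symm.trans (Finset.sum_eq_zero fun m hm => not_not.1 (hS hm)))
  obtain ⟨k₀, hk₀, hmax⟩ := Finset.exists_max_image _ id hS
  have h1 : Γ.pr k₀ y ≠ 0 := (Finset.mem_filter.1 hk₀).2
  have h2 : ∀ m, k₀ < m → Γ.pr m y = 0 := fun m hm => by
    by_contra h3
    have h4 : m ∈ Γ.S := by
      by_contra h4
      exact h3 (by rw [Γ.pr_eq_zero m h4]; rfl)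
    exact absurd (hmax m (Finset.mem_filter.2 ⟨h4, h3⟩)) (not_le.2 hm)
  have h3 := hΓ.top_mem (hv.isCone h.good hρ)
    (fun t x hx => LitChart_op (h.good.coc_mem c t) hx) hy h2
  have hn : ∀ m, Γ.pr m y ∈ ρ.wsp wt (-c) (-m) := fun m => by
    rw [wsp_neg (h.good.coc_mem c), neg_neg]
    exact hΓ m y
  rcases hv.cover₂ h hne hρ hw h3 h1 with h4 | h4
  · refine absurd ?_ (smul_ne_zero h4 hv.ne_zero)
    rw [← (hv.pr_top hΓ _).1, Γ.pr_pr]
    split_ifs with h5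
    · rw [← h5, (hv.pr_top hΓ _).1, h0, zero_smul]
    · rfl
  · have h5 : l = -k₀ := by
      by_contra h5
      have h6 := hΓ'.pr_of_mem (hn k₀) l
      rw [if_neg h5, (hw.pr_top hΓ' _).1] at h6
      exact smul_ne_zero h4 hw.ne_zero h6
    refine ⟨_, Eq.trans ?_ (hw.eq_of_wsp h.good.le (hn k₀) h4)⟩
    refine (Γ.sum_pr y).symm.trans (Finset.sum_eq_single k₀ (fun m _ hm => ?_) fun hm =>
      absurd (Finset.mem_filter.1 hk₀).1 hm)
    rcases hm.lt_or_gt with h6 | h6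
    · have h7 := hΓ'.pr_of_mem (hn m) (-m)
      rw [if_pos rfl, (hw.pr_top hΓ' _).2 (-m) (by omega)] at h7
      exact h7.symm
    · exact h2 m h6

theorem Vertex.ne_zero_of_move (h : Rk1 wt H e c) (hρ : ρ.IsIrr)
    (hv : ρ.Vertex wt c v ℓ k) (hw : ρ.Vertex wt (-c) w φ l) {u : GL (Fin n) F}
    (hu : u ∈ US wt H (ray e)) (hm : ρ.op u w ≠ w) : ℓ (ρ.op u w) ≠ 0 := fun h0 => by
  have hne : US wt H (ray e) ≠ ⊥ := fun hb => hm (by
    rw [hb, Subgroup.mem_bot] at hu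
    rw [hu, ρ.op_one_apply])
  have hy : ρ.op u w ∈ ρ.cone H v := by
    rw [← hv.cone_eq hw h.good hρ]
    exact ⟨1, u, hu.1, (one_smul _ _).symm⟩
  obtain ⟨a, ha⟩ := hv.eq_smul_of_zero h hne hρ hw hy h0
  exact hm (ρ.fix_of_eigen hu.1 (isUnip_US (ray_le_posS h.pos) u hu) ha)

/-- `w = a • ρ m v` by `cone_eq`, `exists_of_eigen`. If `A` were the identity then
`m ∈ US H (zeroS c)` stabilises the line of `v`, which `U` fixes. -/
theorem Vertex.exists_swap (h : Rk1 wt H e c) (hρ : ρ.IsIrr)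
    (hv : ρ.Vertex wt c v ℓ k) (hw : ρ.Vertex wt (-c) w φ l)
    (hm : ∃ u ∈ US wt H (ray e), ρ.op u w ≠ w) :
    ∃ m ∈ H, ∃ A, Acts wt m A ∧ A e = -e := by
  have hy : w ∈ ρ.cone H v := by
    rw [← hv.cone_eq hw h.good hρ]
    exact ⟨1, 1, H.one_mem, by rw [ρ.op_one_apply, one_smul]⟩
  obtain ⟨m, hmH, hmN, a, -, ha⟩ := hv.exists_of_eigen h.good hy hw.ne_zero fun t ht =>
    (hw.torus h.good.le ht).imp fun _ hb => hb.2.1
  obtain ⟨A, hA⟩ := exists_acts h.good.span hmN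
  refine ⟨m, hmH, A, hA, (hA.line_cases h.good.span (h.le hmH)).2.resolve_left fun h1 => ?_⟩
  obtain ⟨b, -, hb, -⟩ := hv.levi h.good.le
    (show m ∈ US wt H (zeroS c) from ⟨hmH, (hA.mem_zeroS fun γ => by rw [h1]).2⟩)
  obtain ⟨u, hu, hu'⟩ := hm
  apply hu'
  rw [ha, hb, map_smul, map_smul, hv.fix h.good.le (US_mono le_rfl (ray_le_posS h.pos) hu)]

/-- `Acts.exists_dual`, `Vertex.conj`, `Vertex.unique` for `h.neg`. -/
theorem Vertex.swap (h : Rk1 wt H e c) (hρ : ρ.IsIrr)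
    (hv : ρ.Vertex wt c v ℓ k) (hw : ρ.Vertex wt (-c) w φ l) {m : GL (Fin n) F} (hm : m ∈ H)
    {A : (Fin r → ℤ) ≃+ (Fin r → ℤ)} (hA : Acts wt m A) (he : A e = -e) :
    ∃ a : F, a ≠ 0 ∧ ρ.op m v = a • w := by
  obtain ⟨c', h1, h2⟩ := hA.exists_dual c
  obtain ⟨a, ha, e1, -⟩ := hw.unique h.neg hρ (by rw [← he, h1]; exact h.pos)
    (hv.conj h.good.le hm h2)
  exact ⟨a, ha, e1⟩

end RRep

end Pool.Agent.Work.MP_bb5f23_al.Lit
end

-- merged part: Pool.Agent.Work.MP_bb5f23_al.LitR1b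
section
/-! Rank one: the additive coordinate on the orbit of the lowest vector. -/

namespace Pool.Agent.Work.MP_bb5f23_al.Lit

variable {F : Type} [Field F] [IsAlgClosed F] [IsFbar F] {n r : ℕ} {wt : Fin n → Fin r → ℤ}
  {H : Subgroup (GL (Fin n) F)} {e c : Fin r → ℤ}

namespace RRep

variable {L : Type} [AddCommGroup L] [Module F L] [FiniteDimensional F L] {ρ : RRep H L}
  {v w : L} {ℓ φ : Module.Dual F L} {k l : ℤ}

/-- the opposite grading -/
def LitR1b_opp (Γ : Grading F L) : Grading F L where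
  pr m := Γ.pr (-m)
  S := Γ.S.image fun m => -m
  pr_eq_zero m hm := Γ.pr_eq_zero _ fun h => hm (Finset.mem_image.2 ⟨_, h, neg_neg m⟩)
  sum_pr x := by
    rw [Finset.sum_image fun _ _ _ _ h => neg_injective h]
    simpa using Γ.sum_pr x
  pr_pr a b x := by simp [Γ.pr_pr]

variable {Γ : Grading F L}

omit [IsAlgClosed F] [IsFbar F] [FiniteDimensional F L] in
theorem LitR1b_ext {x y : L} (h : ∀ m, Γ.pr m x = Γ.pr m y) : x = y := by
  rw [← Γ.sum_pr x, ← Γ.sum_pr y]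
  exact Finset.sum_congr rfl fun m _ => h m

omit [FiniteDimensional F L] in
theorem LitR1b_high (hΓ : ρ.IsGr wt c Γ) (hc : ∀ t, coc wt c t ∈ H) {u : GL (Fin n) F}
    (hu : u ∈ US wt H (posS c)) {K : ℤ} {z : L} (hz : ∀ m ≤ K, Γ.pr m z = 0) :
    Γ.pr K (ρ.op u z) = 0 := by
  rw [← Γ.sum_pr z, map_sum, map_sum]
  refine Finset.sum_eq_zero fun m _ => ?_
  rcases le_or_gt m K with k | k
  · rw [hz m k, map_zero, map_zero]
  · exact (hΓ.raise hc hu (hΓ m z)).2 K k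

omit [IsAlgClosed F] [IsFbar F] [FiniteDimensional F L] in
theorem LitR1b_pr_coc (hΓ : ρ.IsGr wt c Γ) (t : Fˣ) (x : L) (m : ℤ) :
    Γ.pr m (ρ.op (coc wt c t) x) = (t : F) ^ m • Γ.pr m x := by
  rw [hΓ.op_coc, map_sum]
  simp only [map_smul, Γ.pr_pr]
  rw [Finset.sum_eq_single m]
  · rw [if_pos rfl]
  · intro b _ hb
    rw [if_neg hb.symm, smul_zero]
  · intro hm
    rw [Γ.pr_eq_zero m hm]
    simp

omit [IsAlgClosed F] [IsFbar F] [FiniteDimensional F L] in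
theorem LitR1b_cj (hc : ∀ t, coc wt c t ∈ H) (hw : w ∈ ρ.wsp wt c (-l)) (t : Fˣ)
    {u : GL (Fin n) F} (hu : u ∈ H) : ρ.op (coc wt c t * u * (coc wt c t)⁻¹) w =
      (t : F) ^ l • ρ.op (coc wt c t) (ρ.op u w) := by
  rw [ρ.op_mul_apply (H.mul_mem (hc t) hu) (H.inv_mem (hc t)), ρ.op_mul_apply (hc t) hu,
    ← coc_inv, hw t⁻¹, map_smul, map_smul]
  simp

omit [IsFbar F] in
theorem LitR1b_root {j : ℕ} (hj : 0 < j) {a : F} (ha : a ≠ 0) : ∃ t : Fˣ, (t : F) ^ j = a := by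
  obtain ⟨t, ht⟩ := IsAlgClosed.exists_pow_nat_eq a hj
  refine ⟨Units.mk0 t ?_, ht⟩
  rintro rfl
  rw [zero_pow hj.ne'] at ht
  exact ha ht.symm

omit [IsFbar F] [FiniteDimensional F L] in
/-- a pencil covered by finitely many lines -/
theorem LitR1b_line {Z : Set L} (hZ : Z.Finite) {x y : L} (hx : x ≠ 0)
    (h : ∀ a : F, ∃ z ∈ Z, ∃ b : F, x + a • y = b • z) : ∃ b : F, y = b • x := by
  choose z hz b hb using h
  obtain ⟨a, -, a', -, ne, e⟩ := (Set.infinite_univ (α := F)).exists_ne_map_eq_of_mapsTo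
    (f := z) (fun a _ => hz a) hZ
  have h1 := hb a
  have h2 := hb a'
  rw [← e] at h2
  have ne' : a - a' ≠ 0 := sub_ne_zero.2 ne
  have h3 : y = ((a - a')⁻¹ * (b a - b a')) • z a := by
    rw [mul_smul, sub_smul (b a), ← h1, ← h2, add_sub_add_left_eq_sub, ← sub_smul, smul_smul,
      inv_mul_cancel₀ ne', one_smul]
  obtain ⟨d, hd⟩ : ∃ d, d = (a - a')⁻¹ * (b a - b a') := ⟨_, rfl⟩
  rw [← hd] at h3
  have h4 : x = (b a - a * d) • z a := by
    rw [sub_smul, mul_smul, ← h3, ← h1, add_sub_cancel_right]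
  have h5 : b a - a * d ≠ 0 := fun h0 => hx (by rw [h4, h0, zero_smul])
  refine ⟨d * (b a - a * d)⁻¹, ?_⟩
  rw [mul_smul, h3, h4, smul_smul (b a - a * d)⁻¹, inv_mul_cancel₀ h5, one_smul]

/-- Let `U = US H (ray e)`, grade by `c` (`w` has weight `-l`, all weights are `≥ -l`), and let
`j > 0` be least such that `ψ u = pr (-l + j) (ρ u w)` is nonzero for some `u ∈ U`. Then `ψ` is
additive (`IsGr.raise`) and `ψ (coc t * u * (coc t)⁻¹) = t ^ j • ψ u`. The fibre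
`Φ = {y ∈ cone | φ y = 1, ℓ y = 1}` is finite (`IsCone.finite_fibre`, `cover₂`), and for every `u`
moving `w` some `ρ (coc t * u * (coc t)⁻¹) w` lies in `Φ` (`ne_zero_of_move`; `ℓ` scales by
`t ^ (k + l)`, `k + l > 0`). So the image of `ψ` is a subspace covered by finitely many lines: a
line. If `ψ x = 0`, the points `ρ (u₀ * x_t) w`, `x_t = coc t * x * (coc t)⁻¹`, all have the same
`ψ`-value `ψ u₀ ≠ 0`, and there are finitely many such points (each is `coc s`-conjugate to a point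
of `Φ`, with `s ^ j` determined); so `{ρ x_t w}` is finite and `ρ x w = w`
(`eq_zero_of_laurent`, or compare a nonzero component). -/
theorem Vertex.exists_char (h : Rk1 wt H e c) (hρ : ρ.IsIrr)
    (hv : ρ.Vertex wt c v ℓ k) (hw : ρ.Vertex wt (-c) w φ l)
    (hm : ∃ u ∈ US wt H (ray e), ρ.op u w ≠ w) : ∃ (ψ : GL (Fin n) F → F) (j : ℕ), 0 < j ∧
      (∀ u ∈ US wt H (ray e), ∀ u' ∈ US wt H (ray e), ψ (u * u') = ψ u + ψ u') ∧
      (∀ u ∈ US wt H (ray e), ψ u = 0 ↔ ρ.op u w = w) ∧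
      ∀ (t : Fˣ), ∀ u ∈ US wt H (ray e),
        ψ (coc wt c t * u * (coc wt c t)⁻¹) = (t : F) ^ j * ψ u := by
  classical
  have hc : ∀ t, coc wt c t ∈ H := h.good.coc_mem c
  have hne : US wt H (ray e) ≠ ⊥ := by
    obtain ⟨u, hu, hm⟩ := hm
    intro e0
    rw [e0, Subgroup.mem_bot] at hu
    exact hm (by rw [hu, ρ.op_one_apply])
  have mv := fun u hu => hv.ne_zero_of_move h hρ hw (u := u) hu
  rw [← h.US_pos h.pos] at hm mv ⊢
  obtain ⟨U, hU⟩ : ∃ U, U = US wt H (posS c) := ⟨_, rfl⟩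
  obtain ⟨Γ, hΓ⟩ := ρ.exists_gr (wt := wt) (c := c) hc
  have hw' : w ∈ ρ.wsp wt c (-l) := wsp_neg (ρ := ρ) hc l ▸ hw.mem
  have hΓ' : ρ.IsGr wt (-c) (LitR1b_opp Γ) := fun m x => by
    rw [wsp_neg hc]; exact hΓ _ x
  have rs : ∀ u ∈ U, Γ.pr (-l) (ρ.op u w) = w ∧ ∀ m < -l, Γ.pr m (ρ.op u w) = 0 :=
    fun u hu => hΓ.raise hc (hU ▸ hu) hw'
  have cjU : ∀ t : Fˣ, ∀ u ∈ U, coc wt c t * u * (coc wt c t)⁻¹ ∈ U := fun t u hu =>
    hU ▸ conj_mem_US h.good.le (coc_mem c t) (hU ▸ hu)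
  have UH : ∀ u ∈ U, u ∈ H := fun u hu => US_le (hU ▸ hu)
  have hi := fun u (hu : u ∈ U) => @LitR1b_high _ _ _ _ _ _ _ _ _ _ _ _ ρ Γ hΓ hc u (hU ▸ hu)
  have ra : ∀ u ∈ U, ∀ K x, Γ.pr K (ρ.op u (Γ.pr K x)) = Γ.pr K x := fun u hu K x =>
    (hΓ.raise hc (hU ▸ hu) (hΓ K x)).1
  rw [← hU] at hm mv ⊢
  have prw := hΓ.pr_of_mem hw'
  have ex : ∃ j : ℕ, 0 < j ∧ ∃ u ∈ U, Γ.pr (-l + j) (ρ.op u w) ≠ 0 := by
    obtain ⟨u, hu, hm⟩ := hm
    by_contra! k0
    refine hm (LitR1b_ext (Γ := Γ) fun m => ?_)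
    rw [prw]
    rcases lt_trichotomy m (-l) with k1 | k1 | k1
    · rw [if_neg k1.ne, (rs u hu).2 m k1]
    · rw [if_pos k1, k1, (rs u hu).1]
    · have := k0 (m + l).toNat (by omega) u hu
      rw [show -l + ((m + l).toNat : ℤ) = m by omega] at this
      rw [if_neg k1.ne', this]
  obtain ⟨j, ⟨hj, u₀, hu₀, h0⟩, hmin⟩ : ∃ j : ℕ, (0 < j ∧ ∃ u ∈ U, Γ.pr (-l + j) (ρ.op u w) ≠ 0) ∧
      ∀ i < j, ¬(0 < i ∧ ∃ u ∈ U, Γ.pr (-l + (i : ℕ)) (ρ.op u w) ≠ 0) :=
    ⟨Nat.find ex, Nat.find_spec ex, fun i hi => Nat.find_min ex hi⟩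
  obtain ⟨K, hK⟩ : ∃ K : ℤ, K = -l + j := ⟨_, rfl⟩
  rw [← hK] at h0
  have add : ∀ u ∈ U, ∀ u' ∈ U, Γ.pr K (ρ.op (u * u') w) =
      Γ.pr K (ρ.op u w) + Γ.pr K (ρ.op u' w) := fun u hu u' hu' => by
    have k1 := hi u hu (K := K) (z := ρ.op u' w - w - Γ.pr K (ρ.op u' w)) fun m hm => by
      rw [map_sub, map_sub, prw, Γ.pr_pr]
      rcases lt_trichotomy m (-l) with k1 | k1 | k1
      · rw [if_neg k1.ne, if_neg (by omega), (rs u' hu').2 m k1]; simp
      · rw [if_pos k1, if_neg (by omega), k1, (rs u' hu').1]; simp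
      · rw [if_neg k1.ne']
        rcases hm.lt_or_eq with k2 | k2
        · have := hmin (m + l).toNat (by omega)
          rw [show -l + ((m + l).toNat : ℤ) = m by omega] at this
          have k3 : Γ.pr m (ρ.op u' w) = 0 := by
            by_contra k3
            exact this ⟨by omega, u', hu', k3⟩
          rw [if_neg k2.ne, k3]; simp
        · rw [if_pos k2, k2]; simp
    rw [map_sub, map_sub, map_sub, map_sub, ra u hu, sub_sub, sub_eq_zero] at k1
    rw [ρ.op_mul_apply (UH u hu) (UH u' hu'), k1]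
  have sc : ∀ (t : Fˣ), ∀ u ∈ U, ∀ m, Γ.pr m (ρ.op (coc wt c t * u * (coc wt c t)⁻¹) w) =
      (t : F) ^ (l + m) • Γ.pr m (ρ.op u w) := fun t u hu m => by
    rw [LitR1b_cj hc hw' t (UH u hu), map_smul, LitR1b_pr_coc hΓ, smul_smul,
      zpow_add₀ t.ne_zero]
  have scK : ∀ (t : Fˣ), ∀ u ∈ U, Γ.pr K (ρ.op (coc wt c t * u * (coc wt c t)⁻¹) w) =
      (t : F) ^ j • Γ.pr K (ρ.op u w) := fun t u hu => by
    rw [sc t u hu, show l + K = (j : ℤ) by omega, zpow_natCast]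
  obtain ⟨N, hN⟩ : ∃ N : ℕ, l + k = N := by
    refine ⟨(l + k).toNat, ?_⟩
    by_contra k1
    exact h0 ((hv.pr_top hΓ _).2 K (by omega))
  have hN0 : 0 < N := by
    by_contra k1
    exact h0 ((hv.pr_top hΓ _).2 K (by omega))
  have scl : ∀ (t : Fˣ), ∀ u ∈ U, ℓ (ρ.op (coc wt c t * u * (coc wt c t)⁻¹) w) =
      (t : F) ^ N * ℓ (ρ.op u w) := fun t u hu => by
    have := sc t u hu k
    rw [(hv.pr_top hΓ _).1, (hv.pr_top hΓ _).1, smul_smul, hN, zpow_natCast] at this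
    exact smul_left_injective F hv.ne_zero this
  have fin := (hv.isCone h.good hρ).finite_fibre (J := Fin 2) ![ℓ, φ] (fun y hy k1 => by
    by_contra k2
    rcases hv.cover₂ h hne hρ hw hy k2 with k3 | k3
    exacts [k3 (k1 0), k3 (k1 1)]) fun _ => 1
  obtain ⟨Φ, hΦ⟩ : ∃ Φ, Φ = {y ∈ ρ.cone H v | ∀ i, ![ℓ, φ] i y = 1} := ⟨_, rfl⟩
  rw [← hΦ] at fin
  have toΦ : ∀ u ∈ U, ρ.op u w ≠ w → ∃ t : Fˣ, ρ.op (coc wt c t * u * (coc wt c t)⁻¹) w ∈ Φ :=
    fun u hu k1 => by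
      obtain ⟨t, ht⟩ := LitR1b_root hN0 (inv_ne_zero (mv u hu k1))
      have k2 := cjU t u hu
      refine ⟨t, hΦ ▸ ⟨?_, ?_⟩⟩
      · rw [← hv.cone_eq hw h.good hρ]
        exact ⟨1, _, UH _ k2, (one_smul _ _).symm⟩
      · rw [Fin.forall_fin_two]
        refine ⟨?_, ?_⟩
        · change ℓ _ = 1
          rw [scl t u hu, ht, inv_mul_cancel₀ (mv u hu k1)]
        · change φ _ = 1
          have k3 := (hw.pr_top hΓ' (ρ.op (coc wt c t * u * (coc wt c t)⁻¹) w)).1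
          change Γ.pr (-l) _ = _ at k3
          rw [(rs _ k2).1] at k3
          exact smul_left_injective F hw.ne_zero (k3.symm.trans (one_smul F w).symm)
  have zw : Γ.pr K w = 0 := by rw [prw, if_neg (by omega)]
  have lin : ∀ u ∈ U, ∃ b : F, Γ.pr K (ρ.op u w) = b • Γ.pr K (ρ.op u₀ w) := fun u hu => by
    refine LitR1b_line ((fin.image (Γ.pr K)).insert 0) h0 fun a => ?_
    obtain ⟨u', hu', e'⟩ : ∃ u' ∈ U, Γ.pr K (ρ.op u₀ w) + a • Γ.pr K (ρ.op u w) =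
        Γ.pr K (ρ.op u' w) := by
      by_cases ha : a = 0
      · exact ⟨u₀, hu₀, by rw [ha, zero_smul, add_zero]⟩
      · obtain ⟨t, ht⟩ := LitR1b_root hj ha
        exact ⟨_, U.mul_mem hu₀ (cjU t u hu), by rw [add _ hu₀ _ (cjU t u hu), scK t u hu, ht]⟩
    rw [e']
    by_cases k1 : ρ.op u' w = w
    · exact ⟨0, Or.inl rfl, 0, by rw [k1, zw, zero_smul]⟩
    · obtain ⟨t, ht⟩ := toΦ u' hu' k1
      refine ⟨_, Or.inr ⟨_, ht, rfl⟩, ((t : F) ^ j)⁻¹, ?_⟩
      rw [scK t u' hu', smul_smul, inv_mul_cancel₀ (pow_ne_zero _ t.ne_zero), one_smul]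
  obtain ⟨f, hf⟩ := Module.Projective.exists_dual_eq_one F h0
  refine ⟨fun u => f (Γ.pr K (ρ.op u w)), j, hj,
    fun u hu u' hu' => by simp only [add u hu u' hu', map_add],
    fun x hx => ⟨fun k0 => ?_, fun k0 => by simp only [k0, zw, map_zero]⟩,
    fun t u hu => by simp only [scK t u hu, map_smul, smul_eq_mul]⟩
  replace k0 : f (Γ.pr K (ρ.op x w)) = 0 := k0
  have z0 : Γ.pr K (ρ.op x w) = 0 := by
    obtain ⟨b, hb⟩ := lin x hx
    rw [hb, map_smul, hf, smul_eq_mul, mul_one] at k0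
    rw [hb, k0, zero_smul]
  by_contra k1
  have finS : {s : Fˣ | ∃ y ∈ Φ, (s : F) ^ j = f (Γ.pr K y)}.Finite := by
    refine Set.Finite.preimage (f := fun s : Fˣ => (s : F))
      (s := ⋃ y ∈ Φ, ((Polynomial.nthRoots j (f (Γ.pr K y))).toFinset : Set F))
      (fun _ _ _ _ => Units.ext) (fin.biUnion fun _ _ => Finset.finite_toSet _) |>.subset ?_
    rintro s ⟨y, hy, e'⟩
    exact Set.mem_biUnion hy (by simpa [Polynomial.mem_nthRoots hj] using e')
  refine Set.infinite_univ (α := F) ((((fin.prod finS).image fun p =>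
    ℓ (ρ.op u₀⁻¹ (((p.2⁻¹ : Fˣ) : F) ^ l • ρ.op (coc wt c p.2⁻¹) p.1))).insert 0).subset
    fun a _ => ?_)
  by_cases ha : a = 0
  · exact Or.inl ha
  obtain ⟨t, ht⟩ := LitR1b_root hN0 (div_ne_zero ha (mv x hx k1))
  have k2 := U.mul_mem hu₀ (cjU t x hx)
  have k3 : Γ.pr K (ρ.op (u₀ * (coc wt c t * x * (coc wt c t)⁻¹)) w) = Γ.pr K (ρ.op u₀ w) := by
    rw [add _ hu₀ _ (cjU t x hx), scK t x hx, z0, smul_zero, add_zero]
  obtain ⟨s, hs⟩ := toΦ _ k2 fun k4 => h0 (by rw [← k3, k4, zw])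
  refine Or.inr ⟨(_, s), ⟨hs, _, hs, ?_⟩, ?_⟩
  · rw [scK s _ k2, k3, map_smul, hf, smul_eq_mul, mul_one]
  · change ℓ (ρ.op u₀⁻¹ (_ • ρ.op (coc wt c s⁻¹) (ρ.op _ w))) = a
    rw [← LitR1b_cj hc hw' s⁻¹ (UH _ (cjU s _ k2)), coc_inv, inv_inv, ← mul_assoc, ← mul_assoc,
      inv_mul_cancel, one_mul, inv_mul_cancel_right, ρ.op_mul_apply (UH _ hu₀) (UH _ (cjU t x hx)),
      ρ.op_inv_op (UH _ hu₀), scl t x hx, ht, div_mul_cancel₀ _ (mv x hx k1)]

/-- The stabiliser of `w` is normal in `U` (`exists_char`) and `U w` spans (`Vertex.span`). -/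
theorem Vertex.triv_of_fix (h : Rk1 wt H e c) (hρ : ρ.IsIrr)
    (hv : ρ.Vertex wt c v ℓ k) (hw : ρ.Vertex wt (-c) w φ l) {x : GL (Fin n) F}
    (hx : x ∈ US wt H (ray e)) (hfix : ρ.op x w = w) (y : L) : ρ.op x y = y := by
  have UH : ∀ u ∈ US wt H (ray e), u ∈ H := fun u hu => US_le hu
  have nor : ∀ u ∈ US wt H (ray e), ρ.op (u⁻¹ * x * u) w = w := fun u hu => by
    have k1 := inv_mem hu
    have k2 := mul_mem (mul_mem k1 hx) hu
    by_contra k3
    obtain ⟨ψ, j, -, add, ker, -⟩ := hv.exists_char h hρ hw ⟨_, k2, k3⟩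
    refine k3 ((ker _ k2).1 ?_)
    rw [add _ (mul_mem k1 hx) _ hu, add _ k1 _ hx, (ker x hx).2 hfix, add_zero, ← add _ k1 _ hu,
      inv_mul_cancel]
    exact (ker 1 (one_mem _)).2 (ρ.op_one_apply w)
  have sp := hw.span h.good hρ
  rw [neg_neg, h.US_pos h.pos] at sp
  have : ρ.op x = LinearMap.id := by
    refine LinearMap.ext_on sp ?_
    rintro _ ⟨u, hu, rfl⟩
    have k1 := nor u hu
    rw [mul_assoc, ρ.op_mul_apply (inv_mem (UH u hu)) (mul_mem (UH x hx) (UH u hu)),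
      ρ.op_mul_apply (UH x hx) (UH u hu)] at k1
    have k2 := congrArg (ρ.op u) k1
    rwa [ρ.op_op_inv (UH u hu)] at k2
  rw [this, LinearMap.id_apply]

end RRep

end Pool.Agent.Work.MP_bb5f23_al.Lit
end

-- merged part: Pool.Agent.Work.MP_bb5f23_al.LitLuna
section
/-! Centralisers of tori in reductive groups are reductive. -/

namespace Pool.Agent.Work.MP_bb5f23_al.Lit

variable {F : Type} [Field F] [IsAlgClosed F] [IsFbar F] {n r : ℕ} {wt : Fin n → Fin r → ℤ}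
  {G Q : Subgroup (GL (Fin n) F)}

/-- `Q` fixes all highest weight vectors. -/
def FixVert (wt : Fin n → Fin r → ℤ) (G Q : Subgroup (GL (Fin n) F)) : Prop :=
  ∀ (L : Type) [AddCommGroup L] [Module F L] [FiniteDimensional F L] (ρ : RRep G L), ρ.IsIrr →
    ∀ c v ℓ k, Regular wt c → ρ.Vertex wt c v ℓ k → ∀ q ∈ Q, ρ.op q v = v

/-- By `exists_fixed_line` (for `ρ.res`, `IsUnip.tri`, `Vertex.isCone_zeroS`) `Q` stabilises the
line of some `ρ h v`, hence the line of `v` since `h⁻¹ Q h = Q`; use `fix_of_eigen`. -/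
theorem Good.fixVert (hG : Good wt G) (μ : Fin r → ℤ) (hQ : Q ≤ US wt G (Lit.zeroS μ))
    (hN : US wt G (Lit.zeroS μ) ≤ Subgroup.normalizer (Q : Set (GL (Fin n) F))) (hu : IsUnip Q)
    (hirr : Irr (glA F n) (Q : Set (GL (Fin n) F))) : FixVert wt G Q := by
  intro L _ _ _ ρ hρ c v ℓ k hc hv q hq
  have hQG : Q ≤ G := hQ.trans US_le
  obtain ⟨y, ⟨a, h, hh, rfl⟩, hy0, hy⟩ := (ρ.res hQG).exists_fixed_line hirr hu.tri
    (hv.isCone_zeroS hG hρ hc μ)
    (by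
      rintro g hg y ⟨a, h, hh, rfl⟩
      refine ⟨a, g * h, Subgroup.mul_mem _ (hQ hg) hh, ?_⟩
      rw [RRep.res_op, map_smul, ρ.op_mul_apply (hQG hg) hh.1])
    ⟨v, ⟨1, 1, Subgroup.one_mem _, by rw [ρ.op_one_apply, one_smul]⟩, hv.ne_zero⟩
  have ha : a ≠ 0 := by
    rintro rfl
    exact hy0 (zero_smul _ _)
  have hhG : h ∈ G := hh.1
  have hq' : h * q * h⁻¹ ∈ Q := ((Subgroup.mem_normalizer_iff.1 (hN hh)) q).1 hq
  obtain ⟨b, hb⟩ := hy _ hq'
  rw [RRep.res_op, map_smul, ← ρ.op_mul_apply (hQG hq') hhG, inv_mul_cancel_right,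
    ρ.op_mul_apply hhG (hQG hq), smul_comm b a] at hb
  exact ρ.fix_of_eigen (hQG hq) (hu q hq) (a := b)
    (ρ.op_injective hhG ((smul_right_injective L ha hb).trans (map_smul _ _ _).symm))

omit [IsAlgClosed F] in
/-- Let `κ = ℓ x / ℓ x'` and `W` the span of the `ρ q x - κ • x'`. If `W ≠ ⊥` take `φ` from
`exists_inv_form`; `e = φ (x - κ • x')` is nonzero, and the linear form
`y ↦ φ (y - (ℓ y / ℓ x') • x') - e * ℓ y / ℓ x` vanishes on the cone, hence at `x'`. -/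
theorem RRep.fix_of_fixed_mem_zcl {L : Type} [AddCommGroup L] [Module F L] [FiniteDimensional F L]
    (ρ : RRep Q L) (hu : IsUnip Q) {x x' : L} (hx' : x' ∈ zcl (linA F L) (ρ.cone Q x))
    (hfix : ∀ q ∈ Q, ρ.op q x' = x') {ℓ : Module.Dual F L} (hℓ : ∀ q ∈ Q, ∀ y, ℓ (ρ.op q y) = ℓ y)
    (h0 : ℓ x' ≠ 0) : ∀ q ∈ Q, ρ.op q x = x := by
  have hx0 : ℓ x ≠ 0 := by
    intro h
    refine h0 (hx' _ (dual_mem ℓ) ?_)
    rintro _ ⟨a, q, hq, rfl⟩
    rw [map_smul, hℓ q hq, h, smul_zero]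
  set κ := ℓ x / ℓ x' with hκ
  set W := Submodule.span F ((fun q => ρ.op q x - κ • x') '' (Q : Set (GL (Fin n) F))) with hW
  have hmem : ∀ q ∈ Q, ρ.op q x - κ • x' ∈ W := fun q hq => Submodule.subset_span ⟨q, hq, rfl⟩
  have hx1 : x - κ • x' ∈ W := by
    have h1 := hmem 1 Q.one_mem
    rwa [ρ.op_one_apply] at h1
  have hop : ∀ q ∈ Q, ρ.op q (x - κ • x') = ρ.op q x - κ • x' := fun q hq => by
    rw [map_sub, map_smul, hfix q hq]
  by_cases hb : W = ⊥
  · intro q hq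
    have h1 := hmem q hq
    rw [hb, Submodule.mem_bot, sub_eq_zero] at h1 hx1
    rw [h1, ← hx1]
  exfalso
  have hst : ρ.Stable W := by
    intro g hg w hw
    have h1 : W ≤ W.comap (ρ.op g) := by
      refine Submodule.span_le.2 ?_
      rintro _ ⟨q, hq, rfl⟩
      change ρ.op g (ρ.op q x - κ • x') ∈ W
      rw [map_sub, map_smul, hfix g hg, ← ρ.op_mul_apply hg hq]
      exact hmem _ (Q.mul_mem hg hq)
    exact h1 hw
  obtain ⟨φ, ⟨w, hw, hw0⟩, hφ⟩ := ρ.exists_inv_form hu hst hb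
  have he : ∀ q ∈ Q, φ (ρ.op q x - κ • x') = φ (x - κ • x') := fun q hq => by
    rw [← hop q hq, hφ q hq _ hx1]
  have he0 : φ (x - κ • x') ≠ 0 := by
    intro h
    have h1 : W ≤ LinearMap.ker φ := by
      refine Submodule.span_le.2 ?_
      rintro _ ⟨q, hq, rfl⟩
      exact (he q hq).trans h
    exact hw0 (h1 hw)
  have h2 := hx' _ (dual_mem (φ - (φ x' / ℓ x') • ℓ - (φ (x - κ • x') / ℓ x) • ℓ)) (by
    rintro _ ⟨a, q, hq, rfl⟩
    have h3 := he q hq
    rw [map_sub, map_smul, sub_eq_iff_eq_add] at h3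
    rw [map_smul, LinearMap.sub_apply, LinearMap.sub_apply, LinearMap.smul_apply,
      LinearMap.smul_apply, hℓ q hq, h3]
    simp only [smul_eq_mul]
    rw [div_mul_cancel₀ _ hx0, hκ]
    ring)
  rw [LinearMap.sub_apply, LinearMap.sub_apply, LinearMap.smul_apply, LinearMap.smul_apply] at h2
  simp only [smul_eq_mul] at h2
  rw [div_mul_cancel₀ _ h0, sub_self, zero_sub, neg_eq_zero] at h2
  exact mul_ne_zero (div_ne_zero he0 hx0) h0 h2

/-- Luna's argument. For `x = ρ g v` the closure of the cone of `Q x` lies in the cone of `G v` and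
contains a nonzero `Q`-fixed point `x'`; take `ℓ'` from `Vertex.cover`, it is `Q`-invariant by
`Vertex.dual`. The `ρ g v` span. -/
theorem Good.trivAll (hG : Good wt G) (hQ : Q ≤ G) (hu : IsUnip Q)
    (hirr : Irr (glA F n) (Q : Set (GL (Fin n) F))) (h : FixVert wt G Q) :
    ∀ q ∈ Q, TrivAll G q := by
  intro q hq L _ _ _ ρ hρ
  obtain ⟨c, hc⟩ := exists_regular' wt
  obtain ⟨v, ℓ, k, hv⟩ := hρ.exists_vertex hG hc
  have key : ∀ g ∈ G, ρ.op q (ρ.op g v) = ρ.op g v := by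
    intro g hg
    obtain ⟨x', hx', hx0, hfix⟩ := (ρ.res hQ).exists_fixed_line hirr hu.tri
      ((ρ.res hQ).isCone_zcl_cone Q (ρ.op g v))
      (fun g' hg' y hy => (ρ.res hQ).op_mem_zcl_cone le_rfl _ hg' hy)
      ⟨ρ.op g v, subset_zcl _ _ ⟨1, 1, Q.one_mem, by rw [RRep.op_one_apply, one_smul]⟩,
        ρ.op_ne_zero hg hv.ne_zero⟩
    have hsub : (ρ.res hQ).cone Q (ρ.op g v) ⊆ ρ.cone G v := by
      rintro _ ⟨a, q', hq', rfl⟩
      exact ⟨a, q' * g, G.mul_mem (hQ hq') hg, by rw [RRep.res_op, ρ.op_mul_apply (hQ hq') hg]⟩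
    obtain ⟨c', v', ℓ', k', hc', hv', h0⟩ := hv.cover hG hρ hc
      ((hv.isCone hG hρ).cl.zcl_subset hsub hx') hx0
    refine (ρ.res hQ).fix_of_fixed_mem_zcl hu hx' (fun q' hq' => ?_) (fun q' hq' y => ?_) h0 q hq
    · obtain ⟨a, ha⟩ := hfix q' hq'
      exact (ρ.res hQ).fix_of_eigen hq' (hu q' hq') ha
    · have h1 := h _ ρ.dual hρ.dual _ _ _ _ hc'.neg (hv'.dual hG.le) q'⁻¹ (Q.inv_mem hq')
      have h2 := ρ.dual_op q'⁻¹ ℓ' y
      rw [h1, inv_inv] at h2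
      exact h2.symm
  intro x
  have hx : x ∈ Submodule.span F ((fun g => ρ.op g v) '' (G : Set (GL (Fin n) F))) := by
    rw [hρ.span_orbit hv.ne_zero]
    trivial
  induction hx using Submodule.span_induction with
  | mem y hy =>
    obtain ⟨g, hg, rfl⟩ := hy
    exact key g hg
  | zero => exact map_zero _
  | add y z _ _ h1 h2 => rw [map_add, h1, h2]
  | smul a y _ h1 => rw [map_smul, h1]

theorem Good.red_zeroS (hG : Good wt G) (hR : Red G) (μ : Fin r → ℤ) :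
    Red (US wt G (Lit.zeroS μ)) := fun _ hQ hN hu hirr =>
  hR.eq_bot_of_trivAll (hQ.trans US_le) hirr
    (hG.trivAll (hQ.trans US_le) hu hirr (hG.fixVert μ hQ hN hu hirr))

theorem Good.red_line (hG : Good wt G) (hR : Red G) (e : Fin r → ℤ) :
    Red (US wt G (Lit.line e)) := by
  obtain ⟨c, hc⟩ := exists_line_cochar wt e
  rw [← US_congr hc]
  exact hG.red_zeroS hR c

/-- `Good.exists_unip_part`, `isNilpotent_conj`. -/
theorem Good.nullS_eq (hG : Good wt G) (hR : Red G) : US wt G (Lit.nullS r) = TT F wt := by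
  refine le_antisymm (fun g hg => ?_) (TT_le_US hG.le (mem_nullS.2 rfl))
  obtain ⟨c, hc⟩ := exists_regular' wt
  have h1 := hG.red_zeroS hR c
  rw [hc.US_zeroS] at h1
  obtain ⟨P, hP, hirr, hdec⟩ := hG.exists_unip_part
  have hconj : ∀ a ∈ US wt G (Lit.nullS r), ∀ u ∈ P, a * u * a⁻¹ ∈ P := fun a ha u hu =>
    (hP _).2 ⟨Subgroup.mul_mem _ (Subgroup.mul_mem _ ha ((hP u).1 hu).1) (Subgroup.inv_mem _ ha),
      isNilpotent_conj ((hP u).1 hu).2 a⟩
  have h2 : P = ⊥ := by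
    refine h1 P (fun u hu => ((hP u).1 hu).1) (fun a ha => ?_) (fun u hu => ((hP u).1 hu).2) hirr
    refine Subgroup.mem_normalizer_iff.2 fun u => ⟨hconj a ha u, fun hu => ?_⟩
    have h3 := hconj a⁻¹ (Subgroup.inv_mem _ ha) _ hu
    have h4 : a⁻¹ * (a * u * a⁻¹) * a⁻¹⁻¹ = u := by group
    rwa [h4] at h3
  obtain ⟨t, ht, u, hu, rfl⟩ := hdec g hg
  rw [h2, Subgroup.mem_bot] at hu
  rwa [hu, mul_one]

theorem Good.zeroS_eq (hG : Good wt G) (hR : Red G) {c : Fin r → ℤ} (hc : Regular wt c) :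
    US wt G (Lit.zeroS c) = TT F wt := by rw [hc.US_zeroS, hG.nullS_eq hR]

end Pool.Agent.Work.MP_bb5f23_al.Lit
end

-- merged part: Pool.Agent.Work.MP_bb5f23_al.LitDel
section
/-! The representation generated by the function `del`. -/

namespace Pool.Agent.Work.MP_bb5f23_al.Lit

variable {F : Type} [Field F] [IsAlgClosed F] [IsFbar F] {n r : ℕ} {wt : Fin n → Fin r → ℤ}
  {G : Subgroup (GL (Fin n) F)}

open Classical in
/-- Restriction to `G`, extended by zero. -/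
noncomputable def LitDel_res (G : Subgroup (GL (Fin n) F)) :
    (GL (Fin n) F → F) →ₗ[F] (GL (Fin n) F → F) where
  toFun f x := if x ∈ G then f x else 0
  map_add' f g := by
    ext x
    simp only [Pi.add_apply]
    split_ifs <;> simp
  map_smul' a f := by
    ext x
    simp only [Pi.smul_apply, RingHom.id_apply]
    split_ifs <;> simp

omit [IsAlgClosed F] [IsFbar F] in
theorem LitDel_res_mem (f : GL (Fin n) F → F) {x : GL (Fin n) F} (hx : x ∈ G) :
    LitDel_res G f x = f x := if_pos hx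

omit [IsAlgClosed F] [IsFbar F] in
theorem LitDel_res_not (f : GL (Fin n) F → F) {x : GL (Fin n) F} (hx : x ∉ G) :
    LitDel_res G f x = 0 := if_neg hx

omit [IsAlgClosed F] [IsFbar F] in
theorem LitDel_res_mul (f : GL (Fin n) F → F) {g : GL (Fin n) F} (hg : g ∈ G) (x : GL (Fin n) F) :
    LitDel_res G f (x * g) = LitDel_res G (fun y => f (y * g)) x := by
  by_cases hx : x ∈ G
  · rw [LitDel_res_mem _ hx, LitDel_res_mem _ (G.mul_mem hx hg)]
  · rw [LitDel_res_not _ hx, LitDel_res_not _ fun h => hx ((G.mul_mem_cancel_right hg).1 h)]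

omit [IsAlgClosed F] [IsFbar F] in
/-- The representation generated by a polynomial function. -/
theorem LitDel_rep (G : Subgroup (GL (Fin n) F)) {N : ℕ} {d : GL (Fin n) F → F}
    (hd : d ∈ polyLE F n N) :
    ∃ (W : Submodule F (GL (Fin n) F → F)) (_ : FiniteDimensional F W) (ρ : RRep G W) (v : W),
      (∀ g ∈ G, ∀ (f : W) (x : GL (Fin n) F), (ρ.op g f).1 x = f.1 (x * g)) ∧
      (∀ x ∈ G, v.1 x = d x) ∧ (∀ f : W, ∀ x ∉ G, f.1 x = 0) ∧
      ∀ K : Submodule F W, (∀ g ∈ G, ρ.op g v ∈ K) → ∀ f, f ∈ K := by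
  let s : Set (GL (Fin n) F → F) := {f | ∃ g ∈ G, f = LitDel_res G fun x => d (x * g)}
  have hle : Submodule.span F s ≤ (polyLE F n N).map (LitDel_res G) := by
    refine Submodule.span_le.2 ?_
    rintro _ ⟨g, -, rfl⟩
    have h1 := mul_mem_polyLE hd 1 g
    simp only [one_mul] at h1
    exact ⟨_, h1, rfl⟩
  have hfin : FiniteDimensional F (Submodule.span F s) := Submodule.finiteDimensional_of_le hle
  have hst : ∀ g ∈ G, ∀ f ∈ Submodule.span F s, (fun x => f (x * g)) ∈ Submodule.span F s := by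
    intro g hg
    have : Submodule.span F s ≤
        (Submodule.span F s).comap (LinearMap.funLeft F F fun x => x * g) := by
      refine Submodule.span_le.2 ?_
      rintro _ ⟨h, hh, rfl⟩
      refine Submodule.subset_span ⟨g * h, G.mul_mem hg hh, funext fun x => ?_⟩
      rw [LinearMap.funLeft_apply, LitDel_res_mul _ hg]
      simp only [mul_assoc]
    exact fun f hf => this hf
  have hreg : ∀ f ∈ Submodule.span F s, ∀ x, ∃ f' ∈ glA F n, ∀ g ∈ G, f (x * g) = f' g := by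
    intro f hf x
    obtain ⟨f₀, h0, rfl⟩ := hle hf
    by_cases hx : x ∈ G
    · exact ⟨fun g => f₀ (x * g), reg_mul_left x f₀ (polyLE_le h0),
        fun g hg => LitDel_res_mem _ (G.mul_mem hx hg)⟩
    · exact ⟨0, zero_mem _, fun g hg =>
        LitDel_res_not _ fun h => hx ((G.mul_mem_cancel_right hg).1 h)⟩
  obtain ⟨ρ, hρ⟩ := RRep.exists_fn G (Submodule.span F s) hst hreg
  refine ⟨_, hfin, ρ, ⟨LitDel_res G fun x => d (x * 1), Submodule.subset_span ⟨1, G.one_mem, rfl⟩⟩,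
    hρ, fun x hx => ?_, fun f x hx => ?_, fun K hK f => ?_⟩
  · change LitDel_res G (fun x => d (x * 1)) x = _
    rw [LitDel_res_mem _ hx, mul_one]
  · obtain ⟨f₀, -, h0⟩ := hle f.2
    rw [← h0, LitDel_res_not _ hx]
  · have : Submodule.span F ((↑) ⁻¹' s : Set (Submodule.span F s)) ≤ K := by
      refine Submodule.span_le.2 ?_
      rintro ⟨f, hf⟩ ⟨g, hg, rfl⟩
      have h1 := hK g hg
      refine (congrArg (· ∈ K) (Subtype.ext (funext fun x => ?_))).mp h1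
      rw [hρ g hg]
      change LitDel_res G (fun x => d (x * 1)) (x * g) = LitDel_res G (fun x => d (x * g)) x
      rw [LitDel_res_mul _ hg]
      simp only [mul_one]
    rw [Submodule.span_span_coe_preimage] at this
    exact this Submodule.mem_top

/-- The representation on the span `W` of the right translates of the function `d` equal to `del`
on `G` and to `0` outside (`RRep.exists_fn`; it is a subspace of the image of `polyLE`). Put
`v = d`, `ℓ = evaluation at 1`. By `exists_cell`, `Good.subset_zcl_cell`, `del_mul_nn`, `del_pos`,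
`W` is spanned by the `ρ u d`, `u ∈ US G (posS (-c))`; `d` is a weight vector (`IsGr.exists_wsp`);
`IsGr.lower` and `ℓ (ρ u d) = 1` give `vertex_of_gr`. A nonzero invariant subspace contains some `f`
with `f 1 ≠ 0`, hence `d` (`IsGr.pr_mem`). -/
theorem Good.exists_del_rep (hG : Good wt G) (c : Fin r → ℤ) :
    ∃ (W : Submodule F (GL (Fin n) F → F)) (_ : FiniteDimensional F W) (ρ : RRep G W)
      (v : W) (ℓ : Module.Dual F W) (k : ℤ), ρ.IsIrr ∧ ρ.Vertex wt c v ℓ k ∧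
      ∀ g ∈ G, ℓ (ρ.op g v) = del wt c g := by
  obtain ⟨P, hP⟩ := exists_del_poly (F := F) wt c
  have hd : (del wt c : GL (Fin n) F → F) ∈ polyLE F n P.totalDegree := by
    rw [funext hP]
    exact exists_mem_polyLE P
  obtain ⟨W, hfin, ρ, v, hρ, hv, h0, hspan⟩ := LitDel_rep G hd
  let ℓ : Module.Dual F W := (LinearMap.proj (1 : GL (Fin n) F)) ∘ₗ W.subtype
  have hℓ : ∀ g ∈ G, ∀ f : W, ℓ (ρ.op g f) = f.1 g := fun g hg f => by
    change (ρ.op g f).1 1 = _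
    rw [hρ g hg, one_mul]
  have hℓv : ∀ g ∈ G, ℓ (ρ.op g v) = del wt c g := fun g hg => by rw [hℓ g hg, hv g hg]
  have h1 : ℓ v = 1 := by
    have := hℓv 1 G.one_mem
    rwa [ρ.op_one_apply, del_one] at this
  have heig : ∀ p ∈ US wt G (Lit.nnS c), ρ.op p v = del wt c p • v := fun p hp => by
    refine Subtype.ext (funext fun x => ?_)
    rw [hρ p hp.1]
    change _ = del wt c p * v.1 x
    by_cases hx : x ∈ G
    · rw [hv _ (G.mul_mem hx hp.1), hv _ hx, del_mul_nn x (US_mono le_top le_rfl hp), mul_comm]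
    · rw [h0 v x hx, h0 v _ fun h => hx ((G.mul_mem_cancel_right hp.1).1 h), mul_zero]
  have hz : (0 : Fin r → ℤ) ∈ Lit.nnS c := by simp [mem_nnS]
  obtain ⟨Γ, hΓ⟩ := ρ.exists_gr (hG.coc_mem c)
  obtain ⟨k, hk⟩ := hΓ.exists_wsp fun t =>
    ⟨_, heig _ (TT_le_US hG.le hz (Lit.coc_mem c t))⟩
  have hgen : ∀ K : Submodule F W, (∀ u ∈ US wt G (posS (-c)), ρ.op u v ∈ K) → ∀ f, f ∈ K := by
    intro K hK
    refine hspan K fun g hg => ?_
    rw [← Subspace.forall_mem_dualAnnihilator_apply_eq_zero_iff]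
    intro φ hφ
    obtain ⟨f, hf, hf'⟩ := ρ.reg φ v
    rw [hf' g hg]
    refine hG.subset_zcl_cell c hg f hf ?_
    rintro x ⟨hx, hx'⟩
    obtain ⟨a, ha, b, hb, u, hu, rfl⟩ := exists_cell hG.cl hG.le hx hx'
    have hbu : b * u ∈ US wt G (Lit.nnS c) :=
      mul_mem (US_mono le_rfl (fun γ hγ => mem_nnS.2 (mem_zeroS.1 hγ).ge) hb)
        (US_mono le_rfl (fun γ hγ => mem_nnS.2 (mem_posS.1 hγ).le) hu)
    rw [← hf' _ hx, mul_assoc, ρ.op_mul_apply ha.1 hbu.1, heig _ hbu, map_smul]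
    exact (Submodule.mem_dualAnnihilator φ).1 hφ _ (K.smul_mem _ (hK a ha))
  have htop : ∀ x, Γ.pr k x = ℓ x • v := by
    refine hgen (LinearMap.eqLocus (Γ.pr k) (ℓ.smulRight v)) fun u hu => ?_
    change Γ.pr k (ρ.op u v) = ℓ (ρ.op u v) • v
    have h2 := del_neg_mul 1 (US_mono le_top le_rfl hu)
    rw [mul_one, del_one] at h2
    rw [(hΓ.lower (hG.coc_mem c) hu hk).1, hℓv u hu.1, h2, one_smul]
  have hgt : ∀ l, k < l → Γ.pr l = 0 := fun l hl => LinearMap.ext fun x =>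
    hgen (LinearMap.ker (Γ.pr l)) (fun u hu => (hΓ.lower (hG.coc_mem c) hu hk).2 l hl) x
  refine ⟨W, hfin, ρ, v, ℓ, k, ⟨⟨v, fun h => ?_⟩, fun K hK => ?_⟩,
    RRep.vertex_of_gr hΓ hk h1 htop hgt, hℓv⟩
  · rw [h, map_zero] at h1
    exact zero_ne_one h1
  · rw [or_iff_not_imp_left]
    intro hne
    obtain ⟨f, hf, hf0⟩ := (Submodule.ne_bot_iff K).1 hne
    obtain ⟨x, hx⟩ : ∃ x, f.1 x ≠ 0 := by
      by_contra hcon
      push Not at hcon
      exact hf0 (Subtype.ext (funext hcon))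
    have hxG : x ∈ G := by
      by_contra hcon
      exact hx (h0 f x hcon)
    have h2 := hΓ.pr_mem (fun t y hy => hK _ (hG.coc_mem c t) y hy) (hK x hxG f hf) k
    rw [htop, hℓ x hxG] at h2
    have h3 : v ∈ K := (K.smul_mem_iff hx).1 h2
    exact eq_top_iff.2 fun y _ => hgen K (fun u hu => hK u hu.1 v h3) y

end Pool.Agent.Work.MP_bb5f23_al.Lit
end

-- merged part: Pool.Agent.Work.MP_bb5f23_al.LitR2
section
/-! Rank one: the main theorem. -/

namespace Pool.Agent.Work.MP_bb5f23_al.Lit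

variable {F : Type} [Field F] [IsAlgClosed F] [IsFbar F] {n r : ℕ} {wt : Fin n → Fin r → ℤ}
  {G H : Subgroup (GL (Fin n) F)} {e c : Fin r → ℤ}

section aux

variable {L : Type} [AddCommGroup L] [Module F L] [FiniteDimensional F L] {ρ : RRep H L}
  {v w : L} {ℓ φ : Module.Dual F L} {k l : ℤ}

/-- The stabiliser of `w` in `U`. -/
def LitR2_stab (ρ : RRep H L) (U : Subgroup (GL (Fin n) F)) (hU : U ≤ H) (w : L) :
    Subgroup (GL (Fin n) F) where
  carrier := {g | g ∈ U ∧ ρ.op g w = w}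
  one_mem' := ⟨U.one_mem, ρ.op_one_apply w⟩
  mul_mem' ha hb := ⟨U.mul_mem ha.1 hb.1, by
    rw [ρ.op_mul_apply (hU ha.1) (hU hb.1), hb.2, ha.2]⟩
  inv_mem' {g} hg := ⟨U.inv_mem hg.1, by
    conv_lhs => rw [← hg.2]
    exact ρ.op_inv_op (hU hg.1) w⟩

theorem LitR2_form_zero (h : Rk1 wt H e c) (hv : ρ.Vertex wt c v ℓ k)
    (hw : ρ.Vertex wt (-c) w φ l) (hm : ∃ u ∈ US wt H (ray e), ρ.op u w ≠ w) : ℓ w = 0 := by
  by_contra h0
  obtain ⟨u, hu, hm⟩ := hm
  have h1 : w ∈ ρ.wsp wt c (-l) := RRep.wsp_neg (ρ := ρ) (h.good.coc_mem c) l ▸ hw.mem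
  have h2 := hv.eq_of_wsp h.good.le h1 h0
  apply hm
  rw [h2, map_smul, hv.fix h.good.le (h.US_pos h.pos ▸ hu)]

theorem LitR2_move (h : Rk1 wt H e c) (hρ : ρ.IsIrr) (hv : ρ.Vertex wt c v ℓ k)
    (hw : ρ.Vertex wt (-c) w φ l) (hU : ∃ u ∈ US wt H (ray e), ρ.op u w ≠ w)
    {m : GL (Fin n) F} (hm : m ∈ H) {A : (Fin r → ℤ) ≃+ (Fin r → ℤ)} (hA : Acts wt m A)
    (he : A e = -e) {u : GL (Fin n) F} (hu : u ∈ H) (hd : del wt c (u * m) ≠ 0) :
    ρ.op u w ≠ w := by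
  intro hfix
  obtain ⟨a, ha, -, -, -, h1⟩ := hv.cell h.good (H.mul_mem hu hm) hd
  obtain ⟨b, -, hb⟩ := hv.swap h hρ hw hm hA he
  rw [ρ.op_mul_apply hu hm, hb, map_smul, hfix, map_smul, LitR2_form_zero h hv hw hU,
    smul_zero] at h1
  exact ha h1.symm

omit [IsAlgClosed F] [FiniteDimensional F L] in
theorem LitR2_conj_fix (h : Rk1 wt H e c) (hw : ρ.Vertex wt (-c) w φ l) {x : GL (Fin n) F}
    (hx : x ∈ H) (hfix : ρ.op x w = w) (t : Fˣ) :
    ρ.op (coc wt c t * x * (coc wt c t)⁻¹) w = w := by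
  have ht := h.good.coc_mem c t
  have h1 : ρ.op (coc wt c t)⁻¹ w = ((t : F) ^ l) • w := coc_neg (wt := wt) c t ▸ hw.mem t
  rw [ρ.op_mul_apply (H.mul_mem ht hx) (H.inv_mem ht), ρ.op_mul_apply ht hx, h1, map_smul, hfix,
    ← h1, ρ.op_op_inv ht]

theorem LitR2_trans (h : Rk1 wt H e c) (hρ : ρ.IsIrr) (hv : ρ.Vertex wt c v ℓ k)
    (hw : ρ.Vertex wt (-c) w φ l) {x u : GL (Fin n) F} (hx : x ∈ US wt H (ray e))
    (hx' : ρ.op x w ≠ w) (hu : u ∈ US wt H (ray e)) (hu' : ρ.op u w ≠ w) :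
    ∃ t : Fˣ, ρ.op ((coc wt c t * x * (coc wt c t)⁻¹)⁻¹ * u) w = w := by
  obtain ⟨ψ, j, hj, hadd, hker, hconj⟩ := hv.exists_char h hρ hw ⟨x, hx, hx'⟩
  have h1 : ψ x ≠ 0 := mt (hker x hx).1 hx'
  have h2 : ψ u ≠ 0 := mt (hker u hu).1 hu'
  obtain ⟨s, hs⟩ := IsAlgClosed.exists_pow_nat_eq (ψ u / ψ x) hj
  have hs0 : s ≠ 0 := by
    rintro rfl
    rw [zero_pow hj.ne'] at hs
    exact div_ne_zero h2 h1 hs.symm
  refine ⟨Units.mk0 s hs0, ?_⟩
  have h3 := conj_mem_US h.good.le (coc_mem c (Units.mk0 s hs0)) hx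
  have h4 := (US wt H (ray e)).mul_mem ((US wt H (ray e)).inv_mem h3) hu
  have h5 := hadd _ h3 _ h4
  rw [mul_inv_cancel_left, hconj _ x hx, Units.val_mk0, hs, div_mul_cancel₀ _ h1] at h5
  exact (hker _ h4).1 (left_eq_add.1 h5)

end aux

/-- Let `U = US H (ray e)`. Some irreducible `ρ₀` is nontrivial on `U` (`Red.eq_bot_of_trivAll`,
`irr_US`), so `U` moves its lowest vector (`triv_of_fix`); `exists_swap` gives `m`. On the big cell
`ℓ₀ (ρ₀ g v₀) ≠ 0` (`Vertex.cell`) while `ℓ₀ w₀ = 0`, so `del m = 0`. Let `σ` be the representation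
of `exists_del_rep`, `w` its lowest vector, `K` the stabiliser of `w` in `U`. `K ≠ U` (else
`Vertex.span` makes `σ` one dimensional, against `del m = 0`, `Vertex.swap`). For `u ∈ U \ K`,
`del (u m) ≠ 0` (`ne_zero_of_move`), so `u` moves the lowest vector of every irreducible `ρ` in which
`U` moves it (there `ℓ w = 0`). By `exists_char` for `ρ` the stabiliser in `ρ` is a maximal
`coc c`-stable subgroup, so it equals `K`. Hence `K` acts trivially everywhere and `K = ⊥`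
(`irr_of_coc_stable`). -/
theorem Rk1.main (h : Rk1 wt H e c) (hR : Red H) (hne : US wt H (ray e) ≠ ⊥) :
    ∃ m ∈ H, ∃ A, Acts wt m A ∧ A e = -e ∧ del wt c m = 0 ∧
      (∀ u ∈ US wt H (ray e), u ≠ 1 → del wt c (u * m) ≠ 0) ∧
      ∀ u ∈ US wt H (ray e), u ≠ 1 → ∀ u' ∈ US wt H (ray e), u' ≠ 1 →
        ∃ t : Fˣ, u' = coc wt c t * u * (coc wt c t)⁻¹ := by
  have hirr : Irr (glA F n) (US wt H (ray e) : Set (GL (Fin n) F)) :=
    irr_US h.good.le (ray_le_posS h.pos)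
  obtain ⟨q, hq, hq'⟩ : ∃ q ∈ US wt H (ray e), ¬ TrivAll H q := by
    by_contra hcon
    push Not at hcon
    exact hne (hR.eq_bot_of_trivAll US_le hirr hcon)
  obtain ⟨m, hm, A, hA, hAe, hdel⟩ : ∃ m ∈ H, ∃ A, Acts wt m A ∧ A e = -e ∧ del wt c m = 0 := by
    unfold TrivAll at hq'
    push Not at hq'
    obtain ⟨L, _, _, _, ρ, hρ, y, hy⟩ := hq'
    obtain ⟨v, ℓ, k, hv⟩ := hρ.exists_vertex h.good h.reg
    obtain ⟨w, φ, l, hw⟩ := hρ.exists_vertex h.good h.reg.neg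
    have hU : ∃ u ∈ US wt H (ray e), ρ.op u w ≠ w :=
      ⟨q, hq, fun hf => hy (hv.triv_of_fix h hρ hw hq hf y)⟩
    obtain ⟨m, hm, A, hA, hAe⟩ := hv.exists_swap h hρ hw hU
    refine ⟨m, hm, A, hA, hAe, ?_⟩
    by_contra hd
    exact LitR2_move h hρ hv hw hU hm hA hAe H.one_mem (by rwa [one_mul]) (ρ.op_one_apply w)
  obtain ⟨W, _, σ, v, ℓ, k, hσ, hv, hℓ⟩ := h.good.exists_del_rep c
  obtain ⟨w, φ, l, hw⟩ := hσ.exists_vertex h.good h.reg.neg
  obtain ⟨a, ha, hmv⟩ := hv.swap h hσ hw hm hA hAe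
  have hd : ∀ u ∈ US wt H (ray e), σ.op u w ≠ w → del wt c (u * m) ≠ 0 := fun u hu hu' => by
    rw [← hℓ _ (H.mul_mem (US_le hu) hm), σ.op_mul_apply (US_le hu) hm, hmv, map_smul, map_smul]
    exact smul_ne_zero ha (hv.ne_zero_of_move h hσ hw hu hu')
  have hU : ∃ u ∈ US wt H (ray e), σ.op u w ≠ w := by
    by_contra hcon
    push Not at hcon
    have h0 : ℓ w = 0 := by
      have := hℓ m hm
      rw [hdel, hmv, map_smul, smul_eq_zero] at this
      exact this.resolve_left ha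
    have h1 := hw.span h.good hσ
    rw [neg_neg, h.US_pos h.pos] at h1
    have h2 : (⊤ : Submodule F W) ≤ LinearMap.ker ℓ := by
      rw [← h1, Submodule.span_le]
      rintro _ ⟨u, hu, rfl⟩
      change ℓ (σ.op u w) = 0
      rw [hcon u hu, h0]
    have h3 : ℓ v = 0 := h2 Submodule.mem_top
    rw [hv.one] at h3
    exact one_ne_zero h3
  set K := LitR2_stab σ (US wt H (ray e)) US_le w with hK
  have hKc : ∀ t, ∀ x ∈ K, coc wt c t * x * (coc wt c t)⁻¹ ∈ K := fun t x hx =>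
    ⟨conj_mem_US h.good.le (coc_mem c t) hx.1, LitR2_conj_fix h hw (US_le hx.1) hx.2 t⟩
  have hKbot : K = ⊥ := by
    refine hR.eq_bot_of_trivAll (fun x hx => US_le hx.1)
      (irr_of_coc_stable (fun x hx => US_mono le_top (ray_le_posS h.pos) hx.1) hKc) ?_
    intro x hx L _ _ _ ρ hρ y
    obtain ⟨v', ℓ', k', hv'⟩ := hρ.exists_vertex h.good h.reg
    obtain ⟨w', φ', l', hw'⟩ := hρ.exists_vertex h.good h.reg.neg
    refine hv'.triv_of_fix h hρ hw' hx.1 ?_ y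
    by_contra hx'
    have hle : ∀ u ∈ US wt H (ray e), ρ.op u w' = w' → u ∈ K := fun u hu hu' => ⟨hu, by
      by_contra hcon
      exact LitR2_move h hρ hv' hw' ⟨x, hx.1, hx'⟩ hm hA hAe (US_le hu) (hd u hu hcon) hu'⟩
    obtain ⟨u, hu, hu'⟩ := hU
    obtain ⟨t, ht⟩ := LitR2_trans h hρ hv' hw' hx.1 hx' hu fun hf => hu' (hle u hu hf).2
    have h1 := hKc t x hx
    have h2 := K.mul_mem h1
      (hle _ ((US wt H (ray e)).mul_mem ((US wt H (ray e)).inv_mem h1.1) hu) ht)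
    rw [mul_inv_cancel_left] at h2
    exact hu' h2.2
  have hmove : ∀ u ∈ US wt H (ray e), σ.op u w = w → u = 1 := fun u hu hu' =>
    Subgroup.mem_bot.1 (hKbot ▸ (⟨hu, hu'⟩ : u ∈ K))
  refine ⟨m, hm, A, hA, hAe, hdel, fun u hu h1 => hd u hu (mt (hmove u hu) h1),
    fun u hu h1 u' hu' h1' => ?_⟩
  obtain ⟨t, ht⟩ := LitR2_trans h hσ hv hw hu (mt (hmove u hu) h1) hu' (mt (hmove u' hu') h1')
  have h2 := hmove _ ((US wt H (ray e)).mul_mem ((US wt H (ray e)).inv_mem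
    (conj_mem_US h.good.le (coc_mem c t) hu)) hu') ht
  exact ⟨t, (inv_mul_eq_one.1 h2).symm⟩

/-- The output of the rank one analysis for the ray of `e`. -/
structure RayData (wt : Fin n → Fin r → ℤ) (G : Subgroup (GL (Fin n) F)) (e c : Fin r → ℤ)
    (m : GL (Fin n) F) (A : (Fin r → ℤ) ≃+ (Fin r → ℤ)) : Prop where
  mem : m ∈ US wt G (line e)
  acts : Acts wt m A
  neg : A e = -e
  sub : ∀ γ, A γ - γ ∈ line e
  sq : m * m ∈ TT F wt
  del : del wt c m = 0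
  cell : ∀ u ∈ US wt G (ray e), u ≠ 1 → ∃ a ∈ US wt G (ray (-e)), ∃ t ∈ TT F wt,
    ∃ w ∈ US wt G (ray e), u * m = a * t * w
  trans : ∀ u ∈ US wt G (ray e), u ≠ 1 → ∀ u' ∈ US wt G (ray e), u' ≠ 1 →
    ∃ t ∈ TT F wt, u' = t * u * t⁻¹

/-- Apply `Rk1.main` to `H = US G (line e)` (`Good.line`, `Good.red_line`, `US_US`). For `sq` apply
`Acts.line_cases` to `m * m` (note `e ≠ 0`), `Acts.mem_null`, `Good.nullS_eq`; for `cell` use
`exists_cell` in `H`, `Rk1.US_pos`, `Good.zeroS_eq`. -/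
theorem Good.exists_rayData (hG : Good wt G) (hR : Red G) (hc : Regular wt c) (he : 0 < e ⬝ᵥ c)
    (hne : US wt G (ray e) ≠ ⊥) : ∃ m A, RayData wt G e c m A := by
  have h : Rk1 wt (US wt G (Lit.line e)) e c := ⟨hG.line e, US_mono le_top le_rfl, hc, he⟩
  have hR' := hG.red_line hR e
  have e1 : US wt (US wt G (Lit.line e)) (ray e) = US wt G (ray e) := by
    rw [US_US, inf_eq_right.2 (ray_le_line e)]
  have e2 : US wt (US wt G (Lit.line e)) (ray (-e)) = US wt G (ray (-e)) := by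
    rw [US_US, inf_eq_right.2 (line_neg e ▸ ray_le_line (-e))]
  obtain ⟨m, hm, A, hA, hAe, hdel, hcell, htr⟩ := h.main hR' (e1 ▸ hne)
  refine ⟨m, A, hm, hA, hAe, (Acts.line_cases hG.span hA (h.le hm)).1, ?_, hdel, ?_, ?_⟩
  · have hmm := (US wt G (Lit.line e)).mul_mem hm hm
    rcases (Acts.line_cases hG.span (hA.mul hA) (h.le hmm)).2 with h1 | h1
    · rw [← hG.nullS_eq hR]
      exact ⟨hmm.1, ((hA.mul hA).mem_null h1).2⟩
    · rw [AddEquiv.trans_apply, hAe, map_neg, hAe, neg_neg] at h1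
      have h2 : e ⬝ᵥ c = -(e ⬝ᵥ c) := by rw [← neg_dotProduct, ← h1]
      omega
  · intro u hu h1
    rw [← e1] at hu
    obtain ⟨a, ha, b, hb, w, hw, h2⟩ := exists_cell h.good.cl h.good.le
      ((US wt G (Lit.line e)).mul_mem (US_le hu) hm) (hcell u hu h1)
    rw [h.neg.US_pos h.neg.pos, e2] at ha
    rw [h.good.zeroS_eq hR' hc] at hb
    rw [h.US_pos he, e1] at hw
    exact ⟨a, ha, b, hb, w, hw, h2⟩
  · intro u hu h1 u' hu' h1'
    rw [← e1] at hu hu'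
    obtain ⟨t, ht⟩ := htr u hu h1 u' hu' h1'
    exact ⟨_, Lit.coc_mem c t, ht⟩

theorem Good.ray_trans (hG : Good wt G) (hR : Red G) (he : e ≠ 0) {u u' : GL (Fin n) F}
    (hu : u ∈ US wt G (ray e)) (h1 : u ≠ 1) (hu' : u' ∈ US wt G (ray e)) (h1' : u' ≠ 1) :
    ∃ t ∈ TT F wt, u' = t * u * t⁻¹ := by
  obtain ⟨c, hc, hec⟩ := exists_regular wt he
  obtain ⟨m, A, h⟩ := hG.exists_rayData hR hc hec fun hb => h1 (Subgroup.mem_bot.1 (hb ▸ hu))
  exact h.trans u hu h1 u' hu' h1'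

/-- A torus-stable subgroup meeting a ray group contains it. -/
theorem Good.ray_le (hG : Good wt G) (hR : Red G) (he : e ≠ 0) {Q : Subgroup (GL (Fin n) F)}
    (hQ : ∀ t ∈ TT F wt, ∀ q ∈ Q, t * q * t⁻¹ ∈ Q) {u : GL (Fin n) F} (hu : u ∈ US wt G (ray e))
    (h1 : u ≠ 1) (huQ : u ∈ Q) : US wt G (ray e) ≤ Q := fun u' hu' => by
  by_cases h1' : u' = 1
  · rw [h1']
    exact Q.one_mem
  · obtain ⟨t, ht, rfl⟩ := hG.ray_trans hR he hu h1 hu' h1'
    exact hQ t ht u huQ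

end Pool.Agent.Work.MP_bb5f23_al.Lit
end

-- merged part: Pool.Agent.Work.MP_bb5f23_al.LitBorel
section
/-! Borel subgroups containing the torus. -/

namespace Pool.Agent.Work.MP_bb5f23_al.Lit

variable {F : Type} [Field F] [IsAlgClosed F] [IsFbar F] {n r : ℕ} {wt : Fin n → Fin r → ℤ}
  {G B : Subgroup (GL (Fin n) F)} {c : Fin r → ℤ}

theorem Good.exists_torus_mul (hG : Good wt G) (hR : Red G) (hc : Regular wt c)
    {p : GL (Fin n) F} (hp : p ∈ US wt G (Lit.nnS c)) :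
    ∃ t ∈ TT F wt, ∃ u ∈ US wt G (posS c), p = t * u := by
  have h := exists_levi_mem hG.cl (hG.coc_mem c) hp
  rwa [hG.zeroS_eq hR hc] at h

/-- With `P = US G (nnS c)`: `⁅P, P⁆ ≤ US G (gtS c 0)` (`exists_torus_mul`, `nn_conj_pos`) and
`⁅N k, N k⁆ ≤ N (k + 1)` for `N k = US G (gtS c k)` (`comm_mem_US`); so the image of
`derivedSeries P (k + 1)` lies in `N k`. -/
theorem Good.isSolvable_nnS (hG : Good wt G) (hR : Red G) (hc : Regular wt c) :
    Group.IsSolvable (US wt G (Lit.nnS c)) := by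
  have key : ∀ k : ℕ, derivedSeries (US wt G (Lit.nnS c)) (k + 1) ≤
      (US wt G (gtS c k)).subgroupOf (US wt G (Lit.nnS c)) := by
    intro k
    induction k with
    | zero =>
      rw [derivedSeries_succ, Subgroup.commutator_le]
      rintro ⟨p, hp⟩ - ⟨q, hq⟩ -
      obtain ⟨t, ht, u, hu, rfl⟩ := hG.exists_torus_mul hR hc hp
      obtain ⟨t', ht', u', hu', rfl⟩ := hG.exists_torus_mul hR hc hq
      have h1 := mul_mem (mul_mem (conj_mem_US hG.le ht hu)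
        (conj_mem_US hG.le (mul_mem ht ht') (mul_mem hu' (inv_mem hu))))
        (conj_mem_US hG.le ht' (inv_mem hu'))
      have h2 : t * u * t⁻¹ * (t * t' * (u' * u⁻¹) * (t * t')⁻¹) * (t' * u'⁻¹ * t'⁻¹) =
          t * u * (t' * u') * (t * u)⁻¹ * (t' * u')⁻¹ := by
        have h3 : (t * t')⁻¹ = (t' * t)⁻¹ := by rw [TT_comm ht ht']
        rw [h3]
        group
      rw [h2] at h1
      exact US_mono (S := posS c) (S' := gtS c 0) le_rfl (fun _ h => h) h1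
    | succ k ih =>
      rw [derivedSeries_succ, Subgroup.commutator_le]
      intro a ha b hb
      refine comm_mem_US (S := gtS c k) (S' := gtS c k) (S'' := gtS c (k + 1)) ?_ ?_ ?_
        (ih ha) (ih hb) <;>
      · intro x hx y hy
        simp only [mem_gtS, add_dotProduct] at hx hy ⊢
        omega
  obtain ⟨k, hk⟩ := exists_MS_gt_eq_bot (F := F) wt c
  refine ⟨⟨k + 1, eq_bot_iff.2 fun x hx => ?_⟩⟩
  have h1 := (key k hx).2
  rw [hk, Submodule.mem_bot, sub_eq_zero] at h1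
  exact Subtype.ext (Units.ext h1)

/-- If `t u` is unipotent then `(t u) ^ q = 1` with `q = p ^ k`, and `(t u) ^ q ∈ t ^ q U`, so
`t ^ q = 1` (`LU_unique`), `t = 1` (`SS.eq_one`). -/
theorem Good.mem_pos_of_unip (hG : Good wt G) (hR : Red G) (hc : Regular wt c)
    {p : GL (Fin n) F} (hp : p ∈ US wt G (Lit.nnS c)) (h : IsNilpotent (p.1 - 1)) :
    p ∈ US wt G (posS c) := by
  obtain ⟨t, ht, u, hu, rfl⟩ := hG.exists_torus_mul hR hc hp
  obtain ⟨k, hk⟩ := isNilpotent_iff_pow_eq_one.1 h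
  have key : ∀ m : ℕ, ∃ w ∈ US wt G (posS c), (t * u) ^ m = t ^ m * w := by
    intro m
    induction m with
    | zero => exact ⟨1, one_mem _, by simp⟩
    | succ m ih =>
      obtain ⟨w, hw, e⟩ := ih
      refine ⟨_, mul_mem (conj_mem_US hG.le (inv_mem ht) hw) hu, ?_⟩
      rw [pow_succ, e, pow_succ]
      group
  obtain ⟨w, hw, e⟩ := key (ringChar F ^ k)
  have h1 := (LU_unique (c := c) (one_mem _) (one_mem _)
    (TT_le_US le_top (zero_dotProduct c) (pow_mem ht (ringChar F ^ k))) (one_mem _)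
    (US_mono le_top le_rfl hw) (one_mem _) (by rw [one_mul, ← e, hk, one_mul, one_mul])).2.1
  rw [(ss_of_mem_TT ht).eq_one (isNilpotent_iff_pow_eq_one.2 ⟨k, h1⟩), one_mul]
  exact hu

/-- Let `ρ`, `v`, `ℓ` be as in `exists_del_rep` and `B ≤ ρ.lineStab v`. Then `del b ≠ 0` on `B`,
so `b = a t u` with factors in `B` (`exists_cell`). If `US B (posS (-c)) ≠ ⊥`, by `US_le_iSup_ray`
and `Good.ray_le` some `US G (ray (-e))`, `0 < e ⬝ᵥ c`, is nontrivial and lies in `B`; then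
`US G (ray e) ≠ ⊥` (`exists_rayData` for `-e`, `-c`, `Acts.map_US_ray`), and the element `m` of
`exists_rayData` for `e`, `c` lies in `ρ.lineStab v` (`RayData.cell`, `Vertex.fix`,
`Vertex.torus`), so `del m ≠ 0`. -/
theorem Good.le_nnS_of_le_lineStab (hG : Good wt G) (hR : Red G) (hc : Regular wt c)
    (hB : Cl (glA F n) (B : Set (GL (Fin n) F))) (hT : TT F wt ≤ B) {L : Type} [AddCommGroup L]
    [Module F L] [FiniteDimensional F L] {ρ : RRep G L} {v : L} {ℓ : Module.Dual F L} {k : ℤ}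
    (hv : ρ.Vertex wt c v ℓ k) (hℓ : ∀ g ∈ G, ℓ (ρ.op g v) = del wt c g)
    (h : B ≤ ρ.lineStab v) : B ≤ US wt G (Lit.nnS c) := by
  have hBG : B ≤ G := fun _ hb => (h hb).1
  have hdel : ∀ g ∈ ρ.lineStab v, del wt c g ≠ 0 := by
    rintro g ⟨hg, a, ha⟩ h0
    rw [← hℓ g hg, ha, map_smul, hv.one, smul_eq_mul, mul_one] at h0
    exact ρ.op_ne_zero hg hv.ne_zero (by rw [ha, h0, zero_smul])
  have hbot : US wt B (posS (-c)) ≤ ⊥ := by
    refine (US_le_iSup_ray hB hT le_rfl).trans (iSup₂_le fun e he x hx => ?_)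
    by_contra hx1
    have he' : 0 < e ⬝ᵥ (-c) := he
    have he0 : e ≠ 0 := by
      rintro rfl
      simp at he'
    have hx' : x ∈ US wt G (ray e) := US_mono hBG inf_le_right hx
    have h1 : US wt G (ray e) ≤ B := hG.ray_le hR he0
      (fun t ht q hq => mul_mem (mul_mem (hT ht) hq) (inv_mem (hT ht))) hx' hx1 hx.1
    obtain ⟨m₁, A₁, h₁⟩ := hG.exists_rayData hR hc.neg he' fun hb => hx1 (hb ▸ hx')
    have h2 : US wt G (ray (-e)) ≠ ⊥ := by
      rw [← h₁.neg, ← h₁.acts.map_US_ray h₁.mem.1, Ne,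
        Subgroup.map_eq_bot_iff_of_injective _ (MulAut.conj m₁).injective]
      exact fun hb => hx1 (hb ▸ hx')
    have he'' : 0 < (-e) ⬝ᵥ c := by rwa [neg_dotProduct, ← dotProduct_neg]
    obtain ⟨m, A, hm⟩ := hG.exists_rayData hR hc he'' h2
    obtain ⟨⟨u, hu⟩, hu1⟩ := Subgroup.ne_bot_iff_exists_ne_one.1 h2
    obtain ⟨a, ha, t, ht, w, hw, e1⟩ := hm.cell u hu fun e0 => hu1 (Subtype.ext e0)
    have h3 : US wt G (ray (-e)) ≤ ρ.lineStab v := fun y hy =>
      ⟨hy.1, 1, by rw [hv.fix hG.le (US_mono le_rfl (ray_le_posS he'') hy), one_smul]⟩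
    rw [neg_neg] at ha
    refine hdel m ?_ hm.del
    rw [eq_inv_mul_iff_mul_eq.2 e1]
    exact mul_mem (inv_mem (h3 hu)) (mul_mem (mul_mem (h (h1 ha)) (h (hT ht))) (h3 hw))
  intro b hb
  obtain ⟨a, ha, b', hb', u, hu, rfl⟩ := exists_cell hB hT hb (hdel b (h hb))
  rw [Subgroup.mem_bot.1 (hbot ha), one_mul]
  exact mul_mem (US_mono hBG (fun _ h0 => (mem_zeroS.1 h0).ge) hb')
    (US_mono hBG (fun _ h0 => (mem_posS.1 h0).le) hu)

/-- `B` stabilises a line in the cone of `G v` (`exists_fixed_line`, `tri_of_solvable`,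
`Vertex.isCone`), which is the line of `ρ m v`, `m ∈ N` (`Vertex.exists_of_eigen`). Apply the previous
lemma to `m⁻¹ B m` and conjugate back (`Acts.exists_dual`, `Acts.regular`, `Acts.conj_US`). -/
theorem Good.exists_le_nnS (hG : Good wt G) (hR : Red G) (hBG : B ≤ G)
    (hB : Cl (glA F n) (B : Set (GL (Fin n) F))) (hB' : Irr (glA F n) (B : Set (GL (Fin n) F)))
    (hs : Group.IsSolvable B) (hT : TT F wt ≤ B) :
    ∃ c, Regular wt c ∧ B ≤ US wt G (Lit.nnS c) := by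
  obtain ⟨c, hc⟩ := exists_regular' wt
  obtain ⟨W, _, ρ, v, ℓ, k, hρ, hv, hℓ⟩ := hG.exists_del_rep c
  obtain ⟨y, hy, hy0, hfix⟩ := (ρ.res hBG).exists_fixed_line hB' (tri_of_solvable hB' hs)
    (hv.isCone hG hρ) (fun g hg y hy => RRep.LitChart_op (hBG hg) hy)
    ⟨v, ⟨1, 1, G.one_mem, by rw [ρ.op_one_apply, one_smul]⟩, hv.ne_zero⟩
  obtain ⟨m, hm, hmN, a, ha, rfl⟩ := hv.exists_of_eigen hG hy hy0 fun t ht => hfix t (hT ht)
  obtain ⟨A, hA⟩ := exists_acts hG.span hmN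
  obtain ⟨c', h1, -⟩ := hA.exists_dual c
  have h2 := hG.le_nnS_of_le_lineStab (B := B.comap (MulAut.conj m).toMonoidHom) hR hc
    (hB.preimage (reg_conj m m⁻¹)) (fun t ht => hT (conj_mem_TT hmN ht)) hv hℓ (by
      intro x hx
      have hx' : m * x * m⁻¹ ∈ B := hx
      have hxG : x ∈ G := by
        simpa [mul_assoc] using mul_mem (mul_mem (inv_mem hm) (hBG hx')) hm
      obtain ⟨b, hb⟩ := hfix _ hx'
      rw [RRep.res_op, map_smul, smul_comm, ← ρ.op_mul_apply (hBG hx') hm, inv_mul_cancel_right,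
        ρ.op_mul_apply hm hxG, ← map_smul _ b v] at hb
      exact ⟨hxG, b, ρ.op_injective hm (smul_right_injective _ ha hb)⟩)
  refine ⟨c', hA.regular h1 hc, fun g hg => ?_⟩
  have h3 : m⁻¹ * g * m ∈ B.comap (MulAut.conj m).toMonoidHom := by
    simpa [mul_assoc] using hg
  have h4 := hA.conj_US hm (S' := Lit.nnS c') (fun γ hγ => by rwa [mem_nnS, h1]) (h2 h3)
  simpa [mul_assoc] using h4

end Pool.Agent.Work.MP_bb5f23_al.Lit
end
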