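import Pool.Agent.Work.MP_bb5f23_al.Cat

/-!
Statement-level definitions: connected reductive subgroups of `GL_n(F)`, Borel subgroups, maximal
tori, root subgroups and the category X(G).
-/

namespace Pool.Agent.Work.MP_bb5f23_al.Lit

section alg

variable {F : Type} [Field F] {n : ℕ}

/-- Zariski closed subsets of `GL_n(F)`: common zeros of polynomials in the matrix entries. -/
def ZClosed (S : Set (GL (Fin n) F)) : Prop :=
  ∃ I : Set (MvPolynomial (Fin n × Fin n) F),
    ∀ g, g ∈ S ↔ ∀ f ∈ I, MvPolynomial.eval (fun ij => g.1 ij.1 ij.2) f = 0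

/-- Zariski connected subsets. -/
def ZConn (S : Set (GL (Fin n) F)) : Prop :=
  ∀ A B, ZClosed A → ZClosed B → S ⊆ A ∪ B → S ∩ A ∩ B = ∅ → S ⊆ A ∨ S ⊆ B

/-- All elements are unipotent. -/
def IsUnip (Q : Subgroup (GL (Fin n) F)) : Prop := ∀ g ∈ Q, IsNilpotent (g.1 - 1)

/-- The unipotent radical: generated by the closed connected unipotent normal subgroups. -/
def Ru (H : Subgroup (GL (Fin n) F)) : Subgroup (GL (Fin n) F) :=
  sSup {Q | Q ≤ H ∧ H ≤ Subgroup.normalizer (Q : Set (GL (Fin n) F)) ∧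
    ZClosed (Q : Set (GL (Fin n) F)) ∧ ZConn (Q : Set (GL (Fin n) F)) ∧ IsUnip Q}

/-- A connected reductive linear algebraic group. -/
def IsConnRed (G : Subgroup (GL (Fin n) F)) : Prop :=
  ZClosed (G : Set (GL (Fin n) F)) ∧ ZConn (G : Set (GL (Fin n) F)) ∧ Ru G = ⊥

/-- A Borel subgroup: a maximal closed connected solvable subgroup. -/
def IsBorel (G B : Subgroup (GL (Fin n) F)) : Prop :=
  Maximal (fun H : Subgroup (GL (Fin n) F) => H ≤ G ∧ ZClosed (H : Set (GL (Fin n) F)) ∧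
    ZConn (H : Set (GL (Fin n) F)) ∧ Group.IsSolvable H) B

/-- A torus: a closed connected diagonalisable subgroup. -/
def IsTorus (T : Subgroup (GL (Fin n) F)) : Prop :=
  ZClosed (T : Set (GL (Fin n) F)) ∧ ZConn (T : Set (GL (Fin n) F)) ∧
    ∃ h : GL (Fin n) F, ∀ t ∈ T, (h⁻¹ * t * h).1.IsDiag

/-- A maximal torus. -/
def IsMaxTorus (G T : Subgroup (GL (Fin n) F)) : Prop :=
  Maximal (fun S : Subgroup (GL (Fin n) F) => S ≤ G ∧ IsTorus S) T

/-- A root subgroup: a minimal nontrivial closed unipotent subgroup normalised by `T`. -/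
def IsRootSub (G T R : Subgroup (GL (Fin n) F)) : Prop :=
  Minimal (fun Q : Subgroup (GL (Fin n) F) => Q ≤ G ∧ Q ≠ ⊥ ∧ ZClosed (Q : Set (GL (Fin n) F)) ∧
    IsUnip Q ∧ T ≤ Subgroup.normalizer (Q : Set (GL (Fin n) F))) R

/-- `U'_w`: generated by the positive root subgroups (those inside `U = R_u(B)`) whose conjugate
by `w` is positive. -/
def Uw (G B T : Subgroup (GL (Fin n) F)) (w : GL (Fin n) F) : Subgroup (GL (Fin n) F) :=
  sSup {R | IsRootSub G T R ∧ R ≤ Ru B ∧ R.map (MulAut.conj w).toMonoidHom ≤ Ru B}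

end alg

/-- The category `X(G)` for `T ≤ B ≤ G ≤ GL_n(F)`, with `U = R_u(B)`. -/
def InX {F : Type} [Field F] {n : ℕ} (G B T : Subgroup (GL (Fin n) F)) {k : Type*} [Field k]
    {V : Type*} [AddCommGroup V] [Module k V] (ρ : Representation k G V) : Prop :=
  Stmt.InCat (T.subgroupOf G) ((Ru B).subgroupOf G) (fun w => (Uw G B T w).subgroupOf G) ρ

end Pool.Agent.Work.MP_bb5f23_al.Lit
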