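import Mathlib
import Pool.Agent.Work.MP_bb5f23_al.LitDefs
import Pool.Agent.Work.MP_bb5f23_al.KL1

-- merged part: Pool.Agent.Work.MP_bb5f23_al.LitZar
section
/-! Zariski closure and irreducibility for a set with an algebra of functions. -/

namespace Pool.Agent.Work.MP_bb5f23_al.Lit

variable {F : Type} [Field F] {X Y Z : Type}

/-- The closure of `S`: the common zeros of the functions of `A` vanishing on `S`. -/
def zcl (A : Subalgebra F (X → F)) (S : Set X) : Set X :=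
  {x | ∀ f ∈ A, (∀ s ∈ S, f s = 0) → f x = 0}

/-- Closed sets. -/
def Cl (A : Subalgebra F (X → F)) (S : Set X) : Prop := zcl A S ⊆ S

/-- Irreducible sets (not necessarily closed). -/
def Irr (A : Subalgebra F (X → F)) (S : Set X) : Prop :=
  S.Nonempty ∧ ∀ f ∈ A, ∀ g ∈ A, (∀ s ∈ S, f s * g s = 0) →
    (∀ s ∈ S, f s = 0) ∨ (∀ s ∈ S, g s = 0)

/-- Regular maps. -/
def Reg (A : Subalgebra F (X → F)) (B : Subalgebra F (Y → F)) (φ : X → Y) : Prop :=
  ∀ f ∈ B, (fun x => f (φ x)) ∈ A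

/-- Maps that are regular on `S`. -/
def RegOn (A : Subalgebra F (X → F)) (B : Subalgebra F (Y → F)) (S : Set X) (φ : X → Y) : Prop :=
  ∀ f ∈ B, ∃ g ∈ A, ∀ x ∈ S, f (φ x) = g x

/-- Maps that pull hypersurfaces back to hypersurfaces on `S`. -/
def ZReg (A : Subalgebra F (X → F)) (B : Subalgebra F (Y → F)) (S : Set X) (φ : X → Y) : Prop :=
  ∀ f ∈ B, ∃ g ∈ A, ∀ x ∈ S, (f (φ x) = 0 ↔ g x = 0)

/-- The functions on a product. -/
def prodA (A : Subalgebra F (X → F)) (B : Subalgebra F (Y → F)) : Subalgebra F (X × Y → F) :=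
  Algebra.adjoin F ({h | ∃ f ∈ A, h = fun p => f p.1} ∪ {h | ∃ g ∈ B, h = fun p => g p.2})

/-- Polynomial functions on a vector space. -/
def linA (F : Type) [Field F] (L : Type) [AddCommGroup L] [Module F L] : Subalgebra F (L → F) :=
  Algebra.adjoin F (Set.range fun φ : Module.Dual F L => (φ : L → F))

variable {A : Subalgebra F (X → F)} {B : Subalgebra F (Y → F)} {C : Subalgebra F (Z → F)}
  {S T : Set X}

theorem subset_zcl (A : Subalgebra F (X → F)) (S : Set X) : S ⊆ zcl A S :=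
  fun x hx _ _ h => h x hx

theorem zcl_mono (h : S ⊆ T) : zcl A S ⊆ zcl A T :=
  fun _ hx f hf h0 => hx f hf fun s hs => h0 s (h hs)

theorem cl_zcl (A : Subalgebra F (X → F)) (S : Set X) : Cl A (zcl A S) :=
  fun _ hx f hf h0 => hx f hf fun _ hs => hs f hf h0

theorem Cl.zcl_subset (hT : Cl A T) (h : S ⊆ T) : zcl A S ⊆ T := (zcl_mono h).trans hT

theorem cl_univ (A : Subalgebra F (X → F)) : Cl A Set.univ := fun _ _ => trivial

theorem cl_zeros {I : Set (X → F)} (hI : I ⊆ A) : Cl A {x | ∀ f ∈ I, f x = 0} :=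
  fun _ hx f hf => hx f (hI hf) fun _ hs => hs f hf

theorem cl_zero {f : X → F} (hf : f ∈ A) : Cl A {x | f x = 0} :=
  fun _ hx => hx f hf fun _ hs => hs

theorem Cl.inter (hS : Cl A S) (hT : Cl A T) : Cl A (S ∩ T) :=
  fun _ hx => ⟨hS (zcl_mono Set.inter_subset_left hx), hT (zcl_mono Set.inter_subset_right hx)⟩

theorem cl_iInter {ι : Sort*} {S : ι → Set X} (h : ∀ i, Cl A (S i)) : Cl A (⋂ i, S i) :=
  fun _ hx => Set.mem_iInter.2 fun i => h i (zcl_mono (Set.iInter_subset _ i) hx)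

theorem cl_empty (A : Subalgebra F (X → F)) : Cl A ∅ := fun _ hx =>
  one_ne_zero (hx 1 (one_mem A) fun _ hs => hs.elim)

theorem LitZar_exists (hS : Cl A S) {x : X} (hx : x ∉ S) :
    ∃ f ∈ A, (∀ s ∈ S, f s = 0) ∧ f x ≠ 0 := by
  by_contra hcon
  push Not at hcon
  exact hx (hS hcon)

theorem Cl.union (hS : Cl A S) (hT : Cl A T) : Cl A (S ∪ T) := by
  intro x hx
  by_contra hcon
  obtain ⟨f, hf, hf0, hfx⟩ := LitZar_exists hS fun h => hcon (Or.inl h)
  obtain ⟨g, hg, hg0, hgx⟩ := LitZar_exists hT fun h => hcon (Or.inr h)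
  refine mul_ne_zero hfx hgx (hx (f * g) (mul_mem hf hg) ?_)
  rintro s (hs | hs)
  · rw [Pi.mul_apply, hf0 s hs, zero_mul]
  · rw [Pi.mul_apply, hg0 s hs, mul_zero]

theorem cl_biUnion {ι : Type*} (t : Finset ι) {S : ι → Set X} (h : ∀ i ∈ t, Cl A (S i)) :
    Cl A (⋃ i ∈ t, S i) := by
  classical
  induction t using Finset.induction_on with
  | empty => simpa using cl_empty A
  | insert i t _ ih =>
    rw [Finset.set_biUnion_insert]
    exact (h i (Finset.mem_insert_self _ _)).union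
      (ih fun j hj => h j (Finset.mem_insert_of_mem hj))

theorem Reg.regOn {φ : X → Y} (h : Reg A B φ) (S : Set X) : RegOn A B S φ :=
  fun f hf => ⟨_, h f hf, fun _ _ => rfl⟩

theorem RegOn.zreg {φ : X → Y} (h : RegOn A B S φ) : ZReg A B S φ := fun f hf =>
  (h f hf).imp fun _ hg => ⟨hg.1, fun x hx => by rw [hg.2 x hx]⟩

theorem RegOn.mono {φ : X → Y} (h : RegOn A B T φ) (hS : S ⊆ T) : RegOn A B S φ := fun f hf =>
  (h f hf).imp fun _ hg => ⟨hg.1, fun x hx => hg.2 x (hS hx)⟩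

theorem Reg.id (A : Subalgebra F (X → F)) : Reg A A id := fun _ h => h

theorem Reg.comp {φ : X → Y} {ψ : Y → Z} (hψ : Reg B C ψ) (hφ : Reg A B φ) :
    Reg A C (fun x => ψ (φ x)) := fun f hf => hφ _ (hψ f hf)

theorem RegOn.comp {φ : X → Y} {ψ : Y → Z} {T : Set Y} (hψ : RegOn B C T ψ) (hφ : RegOn A B S φ)
    (h : ∀ x ∈ S, φ x ∈ T) : RegOn A C S (fun x => ψ (φ x)) := by
  intro f hf
  obtain ⟨g, hg, hg'⟩ := hψ f hf
  obtain ⟨k, hk, hk'⟩ := hφ g hg
  exact ⟨k, hk, fun x hx => (hg' _ (h x hx)).trans (hk' x hx)⟩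

theorem reg_const (A : Subalgebra F (X → F)) (B : Subalgebra F (Y → F)) (y : Y) :
    Reg A B (fun _ => y) := fun f _ => A.algebraMap_mem (f y)

/-- It is enough to test the generators (`Algebra.adjoin_induction`). -/
theorem reg_adjoin {I : Set (Y → F)} {φ : X → Y} (h : ∀ f ∈ I, (fun x => f (φ x)) ∈ A) :
    Reg A (Algebra.adjoin F I) φ := by
  intro f hf
  induction hf using Algebra.adjoin_induction with
  | mem f hf => exact h f hf
  | algebraMap c => exact A.algebraMap_mem c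
  | add f g _ _ h1 h2 => exact add_mem h1 h2
  | mul f g _ _ h1 h2 => exact mul_mem h1 h2

theorem regOn_adjoin {I : Set (Y → F)} {φ : X → Y}
    (h : ∀ f ∈ I, ∃ g ∈ A, ∀ x ∈ S, f (φ x) = g x) : RegOn A (Algebra.adjoin F I) S φ := by
  intro f hf
  induction hf using Algebra.adjoin_induction with
  | mem f hf => exact h f hf
  | algebraMap c => exact ⟨_, A.algebraMap_mem c, fun _ _ => rfl⟩
  | add f g _ _ h1 h2 =>
    obtain ⟨f', hf', e⟩ := h1
    obtain ⟨g', hg', e'⟩ := h2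
    exact ⟨f' + g', add_mem hf' hg', fun x hx => by rw [Pi.add_apply, Pi.add_apply, e x hx, e' x hx]⟩
  | mul f g _ _ h1 h2 =>
    obtain ⟨f', hf', e⟩ := h1
    obtain ⟨g', hg', e'⟩ := h2
    exact ⟨f' * g', mul_mem hf' hg', fun x hx => by rw [Pi.mul_apply, Pi.mul_apply, e x hx, e' x hx]⟩

theorem Cl.preimage {T : Set Y} (hT : Cl B T) {φ : X → Y} (hφ : Reg A B φ) : Cl A (φ ⁻¹' T) :=
  fun _ hx => hT fun f hf h0 => hx _ (hφ f hf) fun s hs => h0 (φ s) hs

theorem Cl.inter_preimage {T : Set Y} (hT : Cl B T) (hS : Cl A S) {φ : X → Y}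
    (hφ : ZReg A B S φ) : Cl A (S ∩ φ ⁻¹' T) := by
  intro x hx
  have hxS := hS (zcl_mono Set.inter_subset_left hx)
  refine ⟨hxS, hT fun f hf h0 => ?_⟩
  obtain ⟨g, hg, e⟩ := hφ f hf
  exact (e x hxS).2 (hx g hg fun s hs => (e s hs.1).1 (h0 _ hs.2))

theorem Reg.mapsTo_zcl {φ : X → Y} (hφ : Reg A B φ) {T : Set Y} (h : ∀ x ∈ S, φ x ∈ T) :
    ∀ x ∈ zcl A S, φ x ∈ zcl B T :=
  fun _ hx f hf h0 => hx _ (hφ f hf) fun s hs => h0 _ (h s hs)

theorem reg_fst (A : Subalgebra F (X → F)) (B : Subalgebra F (Y → F)) :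
    Reg (prodA A B) A Prod.fst := fun f hf => Algebra.subset_adjoin (Or.inl ⟨f, hf, rfl⟩)

theorem reg_snd (A : Subalgebra F (X → F)) (B : Subalgebra F (Y → F)) :
    Reg (prodA A B) B Prod.snd := fun f hf => Algebra.subset_adjoin (Or.inr ⟨f, hf, rfl⟩)

theorem Reg.prod {φ : X → Y} {ψ : X → Z} (hφ : Reg A B φ) (hψ : Reg A C ψ) :
    Reg A (prodA B C) (fun x => (φ x, ψ x)) := by
  refine reg_adjoin ?_
  rintro _ (⟨f, hf, rfl⟩ | ⟨f, hf, rfl⟩)
  exacts [hφ f hf, hψ f hf]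

theorem Cl.prod {T : Set Y} (hS : Cl A S) (hT : Cl B T) : Cl (prodA A B) (S ×ˢ T) :=
  (hS.preimage (reg_fst A B)).inter (hT.preimage (reg_snd A B))

theorem irr_singleton (A : Subalgebra F (X → F)) (x : X) : Irr A {x} :=
  ⟨⟨x, rfl⟩, fun f _ g _ h => by simpa using h⟩

theorem Irr.of_subset_zcl (h : Irr A S) (h1 : S ⊆ T) (h2 : T ⊆ zcl A S) : Irr A T :=
  ⟨h.1.mono h1, fun f hf g hg h0 => (h.2 f hf g hg fun s hs => h0 s (h1 hs)).imp
    (fun h3 _ ht => h2 ht f hf h3) fun h3 _ ht => h2 ht g hg h3⟩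

theorem Irr.image (h : Irr A S) {φ : X → Y} (hφ : ZReg A B S φ) : Irr B (φ '' S) := by
  refine ⟨h.1.image _, fun f hf g hg h0 => ?_⟩
  obtain ⟨f', hf', e⟩ := hφ f hf
  obtain ⟨g', hg', e'⟩ := hφ g hg
  refine (h.2 f' hf' g' hg' fun s hs => ?_).imp (fun h1 => ?_) fun h1 => ?_
  · rw [mul_eq_zero, ← e s hs, ← e' s hs, ← mul_eq_zero]
    exact h0 _ ⟨s, hs, rfl⟩
  · rintro _ ⟨s, hs, rfl⟩
    exact (e s hs).2 (h1 s hs)
  · rintro _ ⟨s, hs, rfl⟩
    exact (e' s hs).2 (h1 s hs)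

/-- If `f(x₁, y₁) ≠ 0` and `g(x₂, y₂) ≠ 0`, the product of the slices `f(·, y₁)` and `g(·, y₂)`
vanishes on `S`, because for each `x` one of the slices `f(x, ·)`, `g(x, ·)` vanishes on `T`
(slices are regular by `Reg.prod`, `reg_const`). -/
theorem Irr.prod {T : Set Y} (hS : Irr A S) (hT : Irr B T) : Irr (prodA A B) (S ×ˢ T) := by
  refine ⟨hS.1.prod hT.1, fun f hf g hg h0 => ?_⟩
  by_contra hcon
  push Not at hcon
  obtain ⟨⟨p, hp, hfp⟩, q, hq, hgq⟩ := hcon
  have h1 := hS.2 _ ((Reg.id A).prod (reg_const A B p.2) f hf) _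
    ((Reg.id A).prod (reg_const A B q.2) g hg) fun s hs => by
      rcases hT.2 _ ((reg_const B A s).prod (Reg.id B) f hf) _
        ((reg_const B A s).prod (Reg.id B) g hg) (fun t ht => h0 (s, t) ⟨hs, ht⟩) with h2 | h2
      · exact mul_eq_zero_of_left (h2 _ hp.2) _
      · exact mul_eq_zero_of_right _ (h2 _ hq.2)
  rcases h1 with h1 | h1
  exacts [hfp (h1 _ hp.1), hgq (h1 _ hq.1)]

/-- A nonempty principal open subset is dense. -/
theorem Irr.subset_zcl_ne (h : Irr A S) {c : X → F} (hc : c ∈ A) (hx : ∃ x ∈ S, c x ≠ 0) :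
    S ⊆ zcl A {x ∈ S | c x ≠ 0} := by
  intro s hs f hf h0
  obtain ⟨x, hx, hx0⟩ := hx
  refine ((h.2 f hf c hc fun y hy => ?_).resolve_right fun h1 => hx0 (h1 x hx)) s hs
  by_cases hy0 : c y = 0
  · rw [hy0, mul_zero]
  · rw [h0 y ⟨hy, hy0⟩, zero_mul]

theorem Irr.ne (h : Irr A S) {c : X → F} (hc : c ∈ A) (hx : ∃ x ∈ S, c x ≠ 0) :
    Irr A {x ∈ S | c x ≠ 0} := by
  have h1 := h.subset_zcl_ne hc hx
  refine ⟨hx.imp fun _ hx => hx, fun f hf g hg h0 => ?_⟩
  exact (h.2 f hf g hg fun s hs => h1 hs (f * g) (mul_mem hf hg) h0).imp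
    (fun h2 s hs => h2 s hs.1) fun h2 s hs => h2 s hs.1

theorem Irr.exists_ne_ne (h : Irr A S) {c d : X → F} (hc : c ∈ A) (hd : d ∈ A)
    (hx : ∃ x ∈ S, c x ≠ 0) (hy : ∃ x ∈ S, d x ≠ 0) : ∃ x ∈ S, c x ≠ 0 ∧ d x ≠ 0 := by
  by_contra hcon
  push Not at hcon
  obtain ⟨x, hx, hx0⟩ := hx
  obtain ⟨y, hy, hy0⟩ := hy
  rcases h.2 c hc d hd (fun s hs => mul_eq_zero.2 (or_iff_not_imp_left.2 (hcon s hs))) with h1 | h1
  exacts [hx0 (h1 x hx), hy0 (h1 y hy)]

theorem irr_sUnion {𝒮 : Set (Set X)} (hne : 𝒮.Nonempty) (hd : DirectedOn (· ⊆ ·) 𝒮)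
    (h : ∀ S ∈ 𝒮, Irr A S) : Irr A (⋃₀ 𝒮) := by
  constructor
  · obtain ⟨S, hS⟩ := hne
    obtain ⟨x, hx⟩ := (h S hS).1
    exact ⟨x, S, hS, hx⟩
  · intro f hf g hg h0
    by_contra hcon
    push Not at hcon
    obtain ⟨⟨x, ⟨S, hS, hx⟩, hfx⟩, y, ⟨T, hT, hy⟩, hgy⟩ := hcon
    obtain ⟨U, hU, h1, h2⟩ := hd S hS T hT
    rcases (h U hU).2 f hf g hg (fun s hs => h0 s ⟨U, hU, hs⟩) with h3 | h3
    exacts [hfx (h3 x (h1 hx)), hgy (h3 y (h2 hy))]

theorem Irr.subset_or (h : Irr A S) {T₁ T₂ : Set X} (h1 : Cl A T₁) (h2 : Cl A T₂)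
    (hS : S ⊆ T₁ ∪ T₂) : S ⊆ T₁ ∨ S ⊆ T₂ := by
  by_contra hcon
  rw [not_or, Set.not_subset, Set.not_subset] at hcon
  obtain ⟨⟨x, hx, hx'⟩, y, hy, hy'⟩ := hcon
  obtain ⟨f, hf, hf0, hfx⟩ := LitZar_exists h1 hx'
  obtain ⟨g, hg, hg0, hgy⟩ := LitZar_exists h2 hy'
  obtain ⟨z, hz, h3, h4⟩ := h.exists_ne_ne hf hg ⟨x, hx, hfx⟩ ⟨y, hy, hgy⟩
  exact (hS hz).elim (fun h5 => h3 (hf0 z h5)) fun h5 => h4 (hg0 z h5)

theorem Irr.subset_of_biUnion (h : Irr A S) {ι : Type*} (t : Finset ι) {T : ι → Set X}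
    (hT : ∀ i ∈ t, Cl A (T i)) (hS : ∀ x ∈ S, ∃ i ∈ t, x ∈ T i) : ∃ i ∈ t, S ⊆ T i := by
  classical
  induction t using Finset.induction_on with
  | empty =>
    obtain ⟨x, hx⟩ := h.1
    simpa using hS x hx
  | insert i t _ ih =>
    have hT' := fun j hj => hT j (Finset.mem_insert_of_mem hj)
    rcases h.subset_or (hT i (Finset.mem_insert_self _ _)) (cl_biUnion t hT') (fun x hx => by
      simpa using hS x hx) with h1 | h1
    · exact ⟨i, Finset.mem_insert_self _ _, h1⟩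
    · obtain ⟨j, hj, h2⟩ := ih hT' fun x hx => by simpa using h1 hx
      exact ⟨j, Finset.mem_insert_of_mem hj, h2⟩

/-- A function with finitely many values on an irreducible set is constant. -/
theorem Irr.eq_of_finite (h : Irr A S) {f : X → F} (hf : f ∈ A) (hfin : (f '' S).Finite)
    {x y : X} (hx : x ∈ S) (hy : y ∈ S) : f x = f y := by
  obtain ⟨c, -, hc⟩ := h.subset_of_biUnion hfin.toFinset
    (T := fun c => {x | (f - algebraMap F (X → F) c) x = 0})
    (fun c _ => cl_zero (sub_mem hf (A.algebraMap_mem c)))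
    fun z hz => ⟨f z, hfin.mem_toFinset.2 ⟨z, hz, rfl⟩, sub_self (f z)⟩
  exact (sub_eq_zero.1 (hc hx)).trans (sub_eq_zero.1 (hc hy)).symm

theorem Irr.eq_of_pow (h : Irr A S) {f : X → F} (hf : f ∈ A) {N : ℕ} (hN : 0 < N)
    (hpow : ∀ x ∈ S, f x ^ N = 1) {x y : X} (hx : x ∈ S) (hy : y ∈ S) : f x = f y := by
  refine h.eq_of_finite hf ((Polynomial.nthRoots N (1 : F)).finite_toSet.subset ?_) hx hy
  rintro _ ⟨z, hz, rfl⟩
  exact (Polynomial.mem_nthRoots hN).2 (hpow z hz)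

/-- The determinant of a matrix of functions of `A` (`RingHom.map_det`, or the Leibniz formula). -/
theorem det_mem {ι : Type} [Fintype ι] [DecidableEq ι] {M : X → Matrix ι ι F}
    (h : ∀ i j, (fun x => M x i j) ∈ A) : (fun x => (M x).det) ∈ A := by
  have e : (fun x => (M x).det) = ∑ σ : Equiv.Perm ι,
      ((Equiv.Perm.sign σ : ℤ) : F) • ∏ i, fun x => M x (σ i) i := by
    ext x
    simp [Matrix.det_apply', Finset.sum_apply, Finset.prod_apply]
  rw [e]
  exact sum_mem fun σ _ => A.smul_mem (prod_mem fun i _ => h _ _) _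

section lin

variable {L L' : Type} [AddCommGroup L] [Module F L] [AddCommGroup L'] [Module F L']

theorem dual_mem (φ : Module.Dual F L) : (φ : L → F) ∈ linA F L :=
  Algebra.subset_adjoin ⟨φ, rfl⟩

theorem reg_linA {φ : X → L} (h : ∀ ψ : Module.Dual F L, (fun x => ψ (φ x)) ∈ A) :
    Reg A (linA F L) φ := reg_adjoin (by rintro _ ⟨ψ, rfl⟩; exact h ψ)

theorem reg_linear (f : L →ₗ[F] L') : Reg (linA F L) (linA F L') f :=
  reg_linA fun ψ => dual_mem (ψ ∘ₗ f)

theorem id_mem_linA : (fun t : F => t) ∈ linA F F := dual_mem (F := F) (L := F) LinearMap.id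

theorem eval_mem_linA (P : Polynomial F) : (fun t => P.eval t) ∈ linA F F := by
  induction P using Polynomial.induction_on' with
  | add p q hp hq =>
    simp only [Polynomial.eval_add]
    exact add_mem hp hq
  | monomial m a =>
    simp only [Polynomial.eval_monomial]
    exact mul_mem ((linA F F).algebraMap_mem a) (pow_mem id_mem_linA m)

/-- The functions on the line are the polynomials. -/
theorem exists_poly {f : F → F} (hf : f ∈ linA F F) : ∃ P : Polynomial F, ∀ t, f t = P.eval t := by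
  induction hf using Algebra.adjoin_induction with
  | mem f hf =>
    obtain ⟨φ, rfl⟩ := hf
    refine ⟨Polynomial.C (φ 1) * Polynomial.X, fun t => ?_⟩
    have := φ.map_smul t 1
    rw [smul_eq_mul, mul_one, smul_eq_mul, mul_comm] at this
    rw [Polynomial.eval_mul, Polynomial.eval_C, Polynomial.eval_X]
    exact this
  | algebraMap c => exact ⟨Polynomial.C c, fun t => by simp⟩
  | add f g _ _ h1 h2 =>
    obtain ⟨P, hP⟩ := h1
    obtain ⟨Q, hQ⟩ := h2
    exact ⟨P + Q, fun t => by simp [hP, hQ]⟩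
  | mul f g _ _ h1 h2 =>
    obtain ⟨P, hP⟩ := h1
    obtain ⟨Q, hQ⟩ := h2
    exact ⟨P * Q, fun t => by simp [hP, hQ]⟩

theorem irr_line [Infinite F] : Irr (linA F F) Set.univ := by
  refine ⟨Set.univ_nonempty, fun f hf g hg h => ?_⟩
  obtain ⟨P, hP⟩ := exists_poly hf
  obtain ⟨Q, hQ⟩ := exists_poly hg
  have h0 : P * Q = 0 := Polynomial.funext fun t => by
    rw [Polynomial.eval_mul, ← hP, ← hQ, h t trivial, Polynomial.eval_zero]
  exact (mul_eq_zero.1 h0).imp (fun h1 t _ => by simp [hP, h1]) fun h1 t _ => by simp [hQ, h1]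

theorem eq_zero_of_units [Infinite F] {f : F → F} (hf : f ∈ linA F F) (h : ∀ t, t ≠ 0 → f t = 0)
    (t : F) : f t = 0 :=
  irr_line.subset_zcl_ne id_mem_linA ⟨1, trivial, one_ne_zero⟩ (Set.mem_univ t) f hf
    fun s hs => h s hs.2

theorem exists_ne_zero_of_ne [Infinite F] {f : F → F} (hf : f ∈ linA F F) {s : F} (h : f s ≠ 0) :
    ∃ t, t ≠ 0 ∧ f t ≠ 0 := by
  by_contra hcon
  push Not at hcon
  exact h (eq_zero_of_units hf hcon s)

theorem cl_submodule (W : Submodule F L) : Cl (linA F L) W := by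
  intro x hx
  by_contra hcon
  obtain ⟨φ, h1, h2⟩ := Submodule.exists_dual_map_eq_bot_of_notMem hcon inferInstance
  refine h1 (hx φ (dual_mem φ) fun s hs => ?_)
  exact (Submodule.mem_bot F).1 (h2 ▸ Submodule.mem_map_of_mem hs)

/-- A polynomial curve `t ↦ ∑ t ^ e i • v i` is regular. -/
theorem reg_curve {ι : Type*} (s : Finset ι) (e : ι → ℕ) (v : ι → L) :
    Reg (linA F F) (linA F L) fun t => ∑ i ∈ s, t ^ e i • v i := by
  refine reg_linA fun ψ => ?_
  have e1 : (fun t : F => ψ (∑ i ∈ s, t ^ e i • v i)) =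
      ∑ i ∈ s, ψ (v i) • (fun t : F => t) ^ e i := by
    ext t
    simp [Finset.sum_apply, mul_comm]
  rw [e1]
  exact sum_mem fun i _ => (linA F F).smul_mem (pow_mem id_mem_linA _) _

end lin

end Pool.Agent.Work.MP_bb5f23_al.Lit
end

-- merged part: Pool.Agent.Work.MP_bb5f23_al.LitAlg
section
/-! The coordinate ring of `GL_n`, points and finite generation. -/

namespace Pool.Agent.Work.MP_bb5f23_al.Lit

variable {F : Type} [Field F] {X Y : Type} {n : ℕ}

/-- The regular functions on `GL_n(F)`. -/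
def glA (F : Type) [Field F] (n : ℕ) : Subalgebra F (GL (Fin n) F → F) :=
  Algebra.adjoin F ((Set.range fun ij : Fin n × Fin n => fun g => g.1 ij.1 ij.2) ∪
    Set.range fun ij : Fin n × Fin n => fun g => (g⁻¹).1 ij.1 ij.2)

/-- Every algebra homomorphism to `F` is evaluation at a point. -/
def Pts (A : Subalgebra F (X → F)) : Prop := ∀ χ : A →ₐ[F] F, ∃ x, ∀ f : A, χ f = f.1 x

/-- The functions separate points. -/
def Sep (A : Subalgebra F (X → F)) : Prop := ∀ x y, (∀ f ∈ A, f x = f y) → x = y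

variable {A : Subalgebra F (X → F)} {B : Subalgebra F (Y → F)}

theorem entry_mem (i j : Fin n) : (fun g : GL (Fin n) F => g.1 i j) ∈ glA F n :=
  Algebra.subset_adjoin (Or.inl ⟨(i, j), rfl⟩)

theorem inv_entry_mem (i j : Fin n) : (fun g : GL (Fin n) F => (g⁻¹).1 i j) ∈ glA F n :=
  Algebra.subset_adjoin (Or.inr ⟨(i, j), rfl⟩)

theorem reg_glA {φ : X → GL (Fin n) F} (h : ∀ i j, (fun x => (φ x).1 i j) ∈ A)
    (h' : ∀ i j, (fun x => ((φ x)⁻¹).1 i j) ∈ A) : Reg A (glA F n) φ :=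
  reg_adjoin (by
    rintro _ (⟨⟨i, j⟩, rfl⟩ | ⟨⟨i, j⟩, rfl⟩)
    · exact h i j
    · exact h' i j)

theorem LitAlg_sum_mul {ι : Type} [Fintype ι] {f g : ι → X → F} (hf : ∀ k, f k ∈ A)
    (hg : ∀ k, g k ∈ A) : (fun x => ∑ k, f k x * g k x) ∈ A := by
  have : (fun x => ∑ k, f k x * g k x) = ∑ k, f k * g k := by
    funext x; simp [Finset.sum_apply]
  rw [this]
  exact A.sum_mem fun k _ => A.mul_mem (hf k) (hg k)

theorem Reg.mul {φ ψ : X → GL (Fin n) F} (hφ : Reg A (glA F n) φ) (hψ : Reg A (glA F n) ψ) :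
    Reg A (glA F n) fun x => φ x * ψ x := by
  refine reg_glA (fun i j => ?_) (fun i j => ?_)
  · simp only [Units.val_mul, Matrix.mul_apply]
    exact LitAlg_sum_mul (fun k => hφ _ (entry_mem i k)) (fun k => hψ _ (entry_mem k j))
  · simp only [mul_inv_rev, Units.val_mul, Matrix.mul_apply]
    exact LitAlg_sum_mul (fun k => hψ _ (inv_entry_mem i k)) (fun k => hφ _ (inv_entry_mem k j))

theorem Reg.inv {φ : X → GL (Fin n) F} (hφ : Reg A (glA F n) φ) :
    Reg A (glA F n) fun x => (φ x)⁻¹ := by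
  refine reg_glA (fun i j => hφ _ (inv_entry_mem i j)) (fun i j => ?_)
  simp only [inv_inv]
  exact hφ _ (entry_mem i j)

theorem Reg.pow {φ : X → GL (Fin n) F} (hφ : Reg A (glA F n) φ) (m : ℕ) :
    Reg A (glA F n) fun x => φ x ^ m := by
  induction m with
  | zero => simpa using reg_const A (glA F n) 1
  | succ m ih => simpa only [pow_succ] using ih.mul hφ

theorem reg_mul_left (g : GL (Fin n) F) : Reg (glA F n) (glA F n) fun x => g * x :=
  (reg_const _ _ g).mul (Reg.id _)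

theorem reg_mul_right (g : GL (Fin n) F) : Reg (glA F n) (glA F n) fun x => x * g :=
  (Reg.id _).mul (reg_const _ _ g)

theorem reg_conj (g h : GL (Fin n) F) : Reg (glA F n) (glA F n) fun x => g * x * h :=
  ((reg_const _ _ g).mul (Reg.id _)).mul (reg_const _ _ h)

theorem reg_inv : Reg (glA F n) (glA F n) fun x => x⁻¹ := (Reg.id _).inv

theorem eval_mem_glA (P : MvPolynomial (Fin n × Fin n) F) :
    (fun g : GL (Fin n) F => MvPolynomial.eval (fun ij => g.1 ij.1 ij.2) P) ∈ glA F n := by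
  induction P using MvPolynomial.induction_on with
  | C a => simp only [MvPolynomial.eval_C]; exact (glA F n).algebraMap_mem a
  | add p q hp hq => simp only [map_add]; exact (glA F n).add_mem hp hq
  | mul_X p ij hp =>
    simp only [map_mul, MvPolynomial.eval_X]; exact (glA F n).mul_mem hp (entry_mem ij.1 ij.2)

theorem LitAlg_det_poly : ∃ D : MvPolynomial (Fin n × Fin n) F, ∀ g : GL (Fin n) F,
    g.1.det = MvPolynomial.eval (fun ij => g.1 ij.1 ij.2) D := by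
  refine ⟨(Matrix.of fun i j => MvPolynomial.X (i, j)).det, fun g => ?_⟩
  rw [RingHom.map_det]
  congr 1
  ext i j
  simp

theorem LitAlg_adj_poly (i j : Fin n) : ∃ D : MvPolynomial (Fin n × Fin n) F, ∀ g : GL (Fin n) F,
    g.1.adjugate i j = MvPolynomial.eval (fun ij => g.1 ij.1 ij.2) D := by
  refine ⟨(Matrix.of fun i j => MvPolynomial.X (i, j)).adjugate i j, fun g => ?_⟩
  have h := RingHom.map_adjugate (MvPolynomial.eval (fun ij : Fin n × Fin n => g.1 ij.1 ij.2))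
    (Matrix.of fun i j => (MvPolynomial.X (i, j) : MvPolynomial (Fin n × Fin n) F))
  have h2 : (MvPolynomial.eval (fun ij : Fin n × Fin n => g.1 ij.1 ij.2)).mapMatrix
      (Matrix.of fun i j => (MvPolynomial.X (i, j) : MvPolynomial (Fin n × Fin n) F)) = g.1 := by
    ext i j
    simp
  rw [h2] at h
  rw [← h]
  rfl

/-- Clear denominators: `g⁻¹ = det(g)⁻¹ • adjugate g`. -/
theorem exists_poly_mul_det {f : GL (Fin n) F → F} (hf : f ∈ glA F n) :
    ∃ (P : MvPolynomial (Fin n × Fin n) F) (k : ℕ), ∀ g : GL (Fin n) F,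
      f g * g.1.det ^ k = MvPolynomial.eval (fun ij => g.1 ij.1 ij.2) P := by
  obtain ⟨D, hD⟩ := LitAlg_det_poly (F := F) (n := n)
  induction hf using Algebra.adjoin_induction with
  | mem f hf =>
    rcases hf with ⟨⟨i, j⟩, rfl⟩ | ⟨⟨i, j⟩, rfl⟩
    · exact ⟨MvPolynomial.X (i, j), 0, fun g => by simp⟩
    · obtain ⟨E, hE⟩ := LitAlg_adj_poly (F := F) i j
      refine ⟨E, 1, fun g => ?_⟩
      rw [← hE g, pow_one]
      have h1 : (g⁻¹).1 * (g.1 * g.1.adjugate) = g.1.adjugate := by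
        rw [← Matrix.mul_assoc, ← Units.val_mul, inv_mul_cancel, Units.val_one, Matrix.one_mul]
      rw [Matrix.mul_adjugate, Matrix.mul_smul, Matrix.mul_one] at h1
      rw [← h1]
      simp [mul_comm]
  | algebraMap r => exact ⟨MvPolynomial.C r, 0, fun g => by simp⟩
  | add f f' _ _ h h' =>
    obtain ⟨P, k, hP⟩ := h
    obtain ⟨Q, l, hQ⟩ := h'
    refine ⟨P * D ^ l + Q * D ^ k, k + l, fun g => ?_⟩
    simp only [map_add, map_mul, map_pow, ← hP g, ← hQ g, ← hD g, Pi.add_apply]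
    ring
  | mul f f' _ _ h h' =>
    obtain ⟨P, k, hP⟩ := h
    obtain ⟨Q, l, hQ⟩ := h'
    refine ⟨P * Q, k + l, fun g => ?_⟩
    simp only [map_mul, ← hP g, ← hQ g, Pi.mul_apply]
    ring

theorem zclosed_iff {S : Set (GL (Fin n) F)} : ZClosed S ↔ Cl (glA F n) S := by
  constructor
  · rintro ⟨I, hI⟩ x hx
    exact (hI x).2 fun f hf => hx _ (eval_mem_glA f) fun s hs => (hI s).1 hs f hf
  · intro h
    refine ⟨{P | ∀ s ∈ S, MvPolynomial.eval (fun ij => s.1 ij.1 ij.2) P = 0}, fun g =>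
      ⟨fun hg P hP => hP g hg, fun hg => h fun f hf h0 => ?_⟩⟩
    obtain ⟨P, k, hP⟩ := exists_poly_mul_det hf
    have h1 := hg P fun s hs => by rw [← hP s, h0 s hs, zero_mul]
    rw [← hP g] at h1
    exact (mul_eq_zero.1 h1).resolve_right
      (pow_ne_zero _ (Matrix.isUnit_iff_isUnit_det _ |>.1 g.isUnit).ne_zero)

/-- Hilbert's basis theorem: the ideal spanned by `I` has finitely many generators. -/
theorem Cl.exists_degree {S : Set (GL (Fin n) F)} (h : Cl (glA F n) S) :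
    ∃ (d : ℕ) (I : Set (MvPolynomial (Fin n × Fin n) F)), (∀ f ∈ I, f.totalDegree ≤ d) ∧
      ∀ g, g ∈ S ↔ ∀ f ∈ I, MvPolynomial.eval (fun ij => g.1 ij.1 ij.2) f = 0 := by
  obtain ⟨I, hI⟩ := zclosed_iff.2 h
  obtain ⟨t, ht⟩ : (Ideal.span I).FG := IsNoetherian.noetherian _
  refine ⟨t.sup MvPolynomial.totalDegree, t, fun f hf => Finset.le_sup hf, fun g => ?_⟩
  rw [hI g]
  have key : ∀ J : Set (MvPolynomial (Fin n × Fin n) F),
      (∀ f ∈ J, MvPolynomial.eval (fun ij => g.1 ij.1 ij.2) f = 0) ↔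
        Ideal.span J ≤ RingHom.ker (MvPolynomial.eval fun ij : Fin n × Fin n => g.1 ij.1 ij.2) :=
    fun J => by rw [Ideal.span_le]; rfl
  rw [key, key, ht]

theorem fg_glA : (glA F n).FG :=
  Subalgebra.fg_def.2 ⟨_, (Set.finite_range _).union (Set.finite_range _), rfl⟩

theorem LitAlg_gen {I : Set (X → F)} (χ : Algebra.adjoin F I →ₐ[F] F) (x : X)
    (h : ∀ f (hf : f ∈ I), χ ⟨f, Algebra.subset_adjoin hf⟩ = f x) (f : Algebra.adjoin F I) :
    χ f = f.1 x := by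
  obtain ⟨f, hf⟩ := f
  induction hf using Algebra.adjoin_induction with
  | mem f hf => exact h f hf
  | algebraMap r => exact χ.commutes r
  | add f g hf hg h1 h2 =>
    exact (map_add χ ⟨f, hf⟩ ⟨g, hg⟩).trans (congrArg₂ (· + ·) h1 h2)
  | mul f g hf hg h1 h2 =>
    exact (map_mul χ ⟨f, hf⟩ ⟨g, hg⟩).trans (congrArg₂ (· * ·) h1 h2)

/-- The values of `χ` on the entries and on the inverse entries are inverse matrices. Two algebra
homomorphisms agreeing on generators agree (`Algebra.adjoin_induction`). -/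
theorem pts_glA : Pts (glA F n) := by
  intro χ
  let M : Matrix (Fin n) (Fin n) (glA F n) := Matrix.of fun i j => ⟨_, entry_mem i j⟩
  let N : Matrix (Fin n) (Fin n) (glA F n) := Matrix.of fun i j => ⟨_, inv_entry_mem i j⟩
  have hMN : M * N = 1 := by
    ext i j g
    have := congrFun (congrFun (congrArg (fun u : GL (Fin n) F => u.1) (mul_inv_cancel g)) i) j
    rw [Units.val_mul, Matrix.mul_apply, Units.val_one] at this
    rw [Matrix.mul_apply, AddSubmonoidClass.coe_finsetSum, Finset.sum_apply]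
    refine this.trans ?_
    by_cases hij : i = j
    · subst hij; simp
    · simp [Matrix.one_apply_ne hij]
  have h1 : χ.mapMatrix M * χ.mapMatrix N = 1 := by rw [← map_mul, hMN, map_one]
  refine ⟨⟨χ.mapMatrix M, χ.mapMatrix N, h1, mul_eq_one_comm.1 h1⟩, LitAlg_gen χ _ ?_⟩
  rintro _ (⟨⟨i, j⟩, rfl⟩ | ⟨⟨i, j⟩, rfl⟩) <;> rfl

theorem fg_prodA (hA : A.FG) (hB : B.FG) : (prodA A B).FG := by
  obtain ⟨s, hs, rfl⟩ := Subalgebra.fg_def.1 hA
  obtain ⟨t, ht, rfl⟩ := Subalgebra.fg_def.1 hB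
  refine Subalgebra.fg_def.2 ⟨(fun f (p : X × Y) => f p.1) '' s ∪ (fun g (p : X × Y) => g p.2) '' t,
    (hs.image _).union (ht.image _), le_antisymm (Algebra.adjoin_mono ?_) (Algebra.adjoin_le ?_)⟩
  · rintro _ (⟨f, hf, rfl⟩ | ⟨g, hg, rfl⟩)
    · exact Or.inl ⟨f, Algebra.subset_adjoin hf, rfl⟩
    · exact Or.inr ⟨g, Algebra.subset_adjoin hg, rfl⟩
  · rintro _ (⟨f, hf, rfl⟩ | ⟨g, hg, rfl⟩)
    · exact reg_adjoin (φ := Prod.fst)
        (fun f hf => Algebra.subset_adjoin (Or.inl ⟨f, hf, rfl⟩)) f hf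
    · exact reg_adjoin (φ := Prod.snd)
        (fun g hg => Algebra.subset_adjoin (Or.inr ⟨g, hg, rfl⟩)) g hg

/-- Pull-back of functions along a regular map. -/
def LitAlg_pull {φ : X → Y} (h : Reg A B φ) : B →ₐ[F] A where
  toFun f := ⟨fun x => f.1 (φ x), h f.1 f.2⟩
  map_one' := rfl
  map_mul' _ _ := rfl
  map_zero' := rfl
  map_add' _ _ := rfl
  commutes' _ := rfl

theorem pts_prodA (hA : Pts A) (hB : Pts B) : Pts (prodA A B) := by
  intro χ
  obtain ⟨x, hx⟩ := hA (χ.comp (LitAlg_pull (reg_fst A B)))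
  obtain ⟨y, hy⟩ := hB (χ.comp (LitAlg_pull (reg_snd A B)))
  refine ⟨(x, y), LitAlg_gen χ _ ?_⟩
  rintro _ (⟨f, hf, rfl⟩ | ⟨g, hg, rfl⟩)
  · exact hx ⟨f, hf⟩
  · exact hy ⟨g, hg⟩

variable {L : Type} [AddCommGroup L] [Module F L]

/-- Generated by the coordinates of a basis. -/
theorem fg_linA [FiniteDimensional F L] : (linA F L).FG := by
  let b := Module.finBasis F L
  refine Subalgebra.fg_def.2 ⟨Set.range fun i => (b.coord i : L → F), Set.finite_range _,
    le_antisymm (Algebra.adjoin_mono ?_) (Algebra.adjoin_le ?_)⟩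
  · rintro _ ⟨i, rfl⟩
    exact ⟨_, rfl⟩
  · rintro _ ⟨φ, rfl⟩
    have : (φ : L → F) = ∑ i, φ (b i) • (b.coord i : L → F) := by
      funext v
      conv_lhs => rw [← b.sum_repr v, map_sum]
      simp [Finset.sum_apply, mul_comm]
    change (φ : L → F) ∈ _
    rw [this]
    exact Subalgebra.sum_mem _ fun i _ =>
      Subalgebra.smul_mem _ (Algebra.subset_adjoin (Set.mem_range_self i)) _

/-- `φ ↦ χ φ` is a linear form on the dual space (`Module.evalEquiv`). -/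
theorem pts_linA [FiniteDimensional F L] : Pts (linA F L) := by
  intro χ
  let θ : Module.Dual F (Module.Dual F L) :=
    { toFun := fun φ => χ ⟨φ, dual_mem φ⟩
      map_add' := fun φ ψ => map_add χ ⟨φ, dual_mem φ⟩ ⟨ψ, dual_mem ψ⟩
      map_smul' := fun c φ => map_smul χ c ⟨φ, dual_mem φ⟩ }
  obtain ⟨v, hv⟩ := (Module.evalEquiv F L).surjective θ
  refine ⟨v, LitAlg_gen χ _ ?_⟩
  rintro _ ⟨φ, rfl⟩
  change θ φ = φ v
  rw [← hv]
  rfl

theorem sep_linA : Sep (linA F L) := by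
  intro x y h
  rw [← sub_eq_zero, ← Module.forall_dual_apply_eq_zero_iff F]
  intro φ
  rw [map_sub, h _ (dual_mem φ), sub_self]

/-- Polynomial functions in the coordinates of a basis. -/
theorem exists_mvPoly {ι : Type} [Fintype ι] (b : Module.Basis ι F L) {f : L → F}
    (hf : f ∈ linA F L) : ∃ P : MvPolynomial ι F, ∀ v, f v = MvPolynomial.eval (b.repr v) P := by
  induction hf using Algebra.adjoin_induction with
  | mem f hf =>
    obtain ⟨φ, rfl⟩ := hf
    refine ⟨∑ i, MvPolynomial.C (φ (b i)) * MvPolynomial.X i, fun v => ?_⟩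
    change φ v = _
    conv_lhs => rw [← b.sum_repr v, map_sum]
    simp [mul_comm]
  | algebraMap r => exact ⟨MvPolynomial.C r, fun v => by simp⟩
  | add f g _ _ h h' =>
    obtain ⟨P, hP⟩ := h
    obtain ⟨Q, hQ⟩ := h'
    exact ⟨P + Q, fun v => by simp [hP, hQ]⟩
  | mul f g _ _ h h' =>
    obtain ⟨P, hP⟩ := h
    obtain ⟨Q, hQ⟩ := h'
    exact ⟨P * Q, fun v => by simp [hP, hQ]⟩

theorem eval_mvPoly_mem {ι : Type} (b : Module.Basis ι F L) (P : MvPolynomial ι F) :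
    (fun v => MvPolynomial.eval (b.repr v) P) ∈ linA F L := by
  induction P using MvPolynomial.induction_on with
  | C a => simp only [MvPolynomial.eval_C]; exact (linA F L).algebraMap_mem a
  | add p q hp hq => simp only [map_add]; exact (linA F L).add_mem hp hq
  | mul_X p i hp =>
    simp only [map_mul, MvPolynomial.eval_X]; exact (linA F L).mul_mem hp (dual_mem (b.coord i))

end Pool.Agent.Work.MP_bb5f23_al.Lit
end

-- merged part: Pool.Agent.Work.MP_bb5f23_al.LitNoeth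
section
/-! Noetherian induction and components. -/

namespace Pool.Agent.Work.MP_bb5f23_al.Lit

open scoped Pointwise commutatorElement

variable {F : Type} [Field F] {X : Type} {n : ℕ} {A : Subalgebra F (X → F)}

/-- `A` is a noetherian ring (`Subalgebra.fg_iff_finiteType`, `Algebra.FiniteType.isNoetherianRing`);
take a member whose vanishing ideal is maximal (`set_has_maximal_iff_noetherian`). -/
theorem exists_minimal_cl (hA : A.FG) {𝒮 : Set (Set X)} (hne : 𝒮.Nonempty)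
    (h : ∀ S ∈ 𝒮, Cl A S) : ∃ S ∈ 𝒮, ∀ T ∈ 𝒮, T ⊆ S → S ⊆ T := by
  have := (Subalgebra.fg_iff_finiteType A).1 hA
  have : IsNoetherianRing A := Algebra.FiniteType.isNoetherianRing F A
  let v : Set X → Ideal A := fun S =>
    { carrier := {f | ∀ s ∈ S, f.1 s = 0}
      zero_mem' := fun _ _ => rfl
      add_mem' := fun ha hb s hs => by simp [ha s hs, hb s hs]
      smul_mem' := fun c f hf s hs => by simp [hf s hs] }
  obtain ⟨_, ⟨S, hS, rfl⟩, hm⟩ := set_has_maximal_iff_noetherian.2 this (v '' 𝒮) (hne.image v)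
  refine ⟨S, hS, fun T hT hTS x hx => h T hT fun f hf h0 => ?_⟩
  have h1 : v S ≤ v T := fun g hg s hs => hg s (hTS hs)
  exact (h1.eq_or_lt.resolve_right (hm _ ⟨T, hT, rfl⟩)).ge (show (⟨f, hf⟩ : A) ∈ v T from h0) x hx

/-- Noetherian induction: a minimal counterexample is nonempty, not irreducible, and the union of
the two smaller closed sets `S ∩ {f = 0}`, `S ∩ {g = 0}`. -/
theorem exists_irr_cover (hA : A.FG) {S : Set X} (hS : Cl A S) :
    ∃ t : Finset (Set X), (∀ C ∈ t, Cl A C ∧ Irr A C ∧ C ⊆ S) ∧ ∀ x ∈ S, ∃ C ∈ t, x ∈ C := by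
  classical
  by_contra hc
  obtain ⟨S, ⟨h1, h2⟩, hm⟩ := exists_minimal_cl hA (𝒮 := {S | Cl A S ∧ ¬∃ t : Finset (Set X),
    (∀ C ∈ t, Cl A C ∧ Irr A C ∧ C ⊆ S) ∧ ∀ x ∈ S, ∃ C ∈ t, x ∈ C}) ⟨S, hS, hc⟩ fun _ h => h.1
  have h3 : ∀ f ∈ A, (¬∀ s ∈ S, f s = 0) → ∃ t : Finset (Set X), (∀ C ∈ t, Cl A C ∧ Irr A C ∧
      C ⊆ S ∩ {x | f x = 0}) ∧ ∀ x ∈ S ∩ {x | f x = 0}, ∃ C ∈ t, x ∈ C := fun f hf h0 =>
    by_contra fun h => h0 fun s hs =>
      (hm _ ⟨h1.inter (cl_zero hf), h⟩ Set.inter_subset_left hs).2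
  refine h2 ?_
  rcases S.eq_empty_or_nonempty with rfl | hne
  · exact ⟨∅, by simp, by simp⟩
  by_cases h4 : Irr A S
  · exact ⟨{S}, by simp [h1, h4], by simp⟩
  rw [Irr, not_and] at h4
  have h5 := h4 hne
  simp only [not_forall, not_or] at h5
  obtain ⟨f, hf, g, hg, h6, h7, h8⟩ := h5
  obtain ⟨t, a1, a2⟩ := h3 f hf (by simpa only [not_forall] using h7)
  obtain ⟨u, b1, b2⟩ := h3 g hg (by simpa only [not_forall] using h8)
  refine ⟨t ∪ u, fun C hC => ?_, fun x hx => ?_⟩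
  · rcases Finset.mem_union.1 hC with h | h
    · exact ⟨(a1 C h).1, (a1 C h).2.1, (a1 C h).2.2.trans Set.inter_subset_left⟩
    · exact ⟨(b1 C h).1, (b1 C h).2.1, (b1 C h).2.2.trans Set.inter_subset_left⟩
  · rcases mul_eq_zero.1 (h6 x hx) with h | h
    · exact (a2 x ⟨hx, h⟩).imp fun C hC => ⟨Finset.mem_union_left _ hC.1, hC.2⟩
    · exact (b2 x ⟨hx, h⟩).imp fun C hC => ⟨Finset.mem_union_right _ hC.1, hC.2⟩

theorem Irr.zconn {S : Set (GL (Fin n) F)} (h : Irr (glA F n) S) : ZConn S :=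
  fun _ _ hA hB hS _ => h.subset_or (zclosed_iff.1 hA) (zclosed_iff.1 hB) hS

theorem Irr.mul {S T : Set (GL (Fin n) F)} (hS : Irr (glA F n) S) (hT : Irr (glA F n) T) :
    Irr (glA F n) (S * T) := by
  rw [← Set.image_mul_prod]
  exact (hS.prod hT).image (((reg_fst _ _).mul (reg_snd _ _)).regOn _).zreg

theorem Irr.inv {S : Set (GL (Fin n) F)} (hS : Irr (glA F n) S) : Irr (glA F n) S⁻¹ := by
  rw [← Set.image_inv_eq_inv]
  exact hS.image (reg_inv.regOn _).zreg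

/-- Take a cover `t` of least cardinality, so no member is contained in the union of the others;
its members are the maximal irreducible subsets of `G` (`Irr.subset_of_biUnion`), which are permuted
by translations. Some point lies in exactly one member, hence every point does. So the members are
pairwise disjoint; apply connectedness to one member and the union of the others. -/
theorem irr_of_zconn {G : Subgroup (GL (Fin n) F)} (h1 : Cl (glA F n) (G : Set (GL (Fin n) F)))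
    (h2 : ZConn (G : Set (GL (Fin n) F))) : Irr (glA F n) (G : Set (GL (Fin n) F)) := by
  classical
  obtain ⟨t, ht, hc⟩ := exists_irr_cover fg_glA h1
  obtain ⟨H, hH⟩ : ∃ H, H = ⋃₀ {C : Set (GL (Fin n) F) | C ⊆ G ∧ Irr (glA F n) C ∧ 1 ∈ C} :=
    ⟨_, rfl⟩
  have hmax : ∀ C : Set (GL (Fin n) F), C ⊆ G → Irr (glA F n) C → 1 ∈ C → C ⊆ H :=
    fun C a b c => hH ▸ Set.subset_sUnion_of_mem ⟨a, b, c⟩
  have hG : H ⊆ G := hH ▸ Set.sUnion_subset fun C hC => hC.1
  have h0 : 1 ∈ H := hmax {1} (by simp) (irr_singleton _ _) rfl rfl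
  have hi : Irr (glA F n) H := by
    rw [hH]
    refine irr_sUnion ⟨{1}, by simp, irr_singleton _ _, rfl⟩ (fun C hC D hD => ⟨C * D, ⟨?_,
      hC.2.1.mul hD.2.1, 1, hC.2.2, 1, hD.2.2, mul_one 1⟩, fun x hx => ⟨x, hx, 1, hD.2.2, mul_one x⟩,
      fun x hx => ⟨1, hC.2.2, x, hx, one_mul x⟩⟩) fun C hC => hC.2.1
    rintro _ ⟨x, hx, y, hy, rfl⟩
    exact G.mul_mem (hC.1 hx) (hD.1 hy)
  have hcl : Cl (glA F n) H := hmax _ (h1.zcl_subset hG)
    (hi.of_subset_zcl (subset_zcl _ _) le_rfl) (subset_zcl _ _ h0)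
  have h3 : ∀ C ∈ t, ¬Disjoint H C → C ⊆ H := by
    intro C hC hd
    obtain ⟨x, hx, hx'⟩ := Set.not_disjoint_iff.1 hd
    refine fun y hy => hmax (H⁻¹ * C) ?_ (hi.inv.mul (ht C hC).2.1)
      ⟨x⁻¹, by simpa using hx, x, hx', inv_mul_cancel x⟩ ⟨1, by simpa using h0, y, hy, one_mul y⟩
    rintro _ ⟨a, ha, b, hb, rfl⟩
    exact G.mul_mem (G.inv_mem_iff.1 (hG ha)) ((ht C hC).2.2 hb)
  rcases h2 H (⋃ C ∈ t.filter (Disjoint H), C) (zclosed_iff.2 hcl)
    (zclosed_iff.2 (cl_biUnion _ fun C hC => (ht C (Finset.mem_filter.1 hC).1).1))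
    (fun x hx => by
      obtain ⟨C, hC, hx⟩ := hc x hx
      by_cases hd : Disjoint H C
      · exact Or.inr (Set.mem_iUnion₂.2 ⟨C, Finset.mem_filter.2 ⟨hC, hd⟩, hx⟩)
      · exact Or.inl (h3 C hC hd hx))
    (Set.eq_empty_of_forall_notMem fun x hx => by
      obtain ⟨C, hC, hx'⟩ := Set.mem_iUnion₂.1 hx.2
      exact Set.disjoint_left.1 (Finset.mem_filter.1 hC).2 hx.1.2 hx') with h | h
  · exact hG.antisymm h ▸ hi
  · obtain ⟨C, hC, hx⟩ := Set.mem_iUnion₂.1 (h G.one_mem)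
    exact absurd hx (Set.disjoint_left.1 (Finset.mem_filter.1 hC).2 h0)

end Pool.Agent.Work.MP_bb5f23_al.Lit
end

-- merged part: Pool.Agent.Work.MP_bb5f23_al.LitSubg
section
/-! Closures of subgroups, generation by irreducible sets. -/

namespace Pool.Agent.Work.MP_bb5f23_al.Lit

open scoped Pointwise commutatorElement

variable {F : Type} [Field F] {n : ℕ}

/-- The closure of a subgroup (`Reg.mapsTo_zcl` for left and right translations, twice). -/
def zclSub (H : Subgroup (GL (Fin n) F)) : Subgroup (GL (Fin n) F) where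
  carrier := zcl (glA F n) H
  one_mem' := subset_zcl _ _ H.one_mem
  mul_mem' := by
    intro a b ha hb
    have h1 : ∀ h ∈ (H : Set (GL (Fin n) F)), h * b ∈ zcl (glA F n) H := fun h hh =>
      (reg_mul_left h).mapsTo_zcl (T := H) (fun x hx => H.mul_mem hh hx) b hb
    exact cl_zcl _ _ ((reg_mul_right b).mapsTo_zcl h1 a ha)
  inv_mem' := by
    intro a ha
    exact reg_inv.mapsTo_zcl (T := H) (fun x hx => H.inv_mem hx) a ha

theorem coe_zclSub (H : Subgroup (GL (Fin n) F)) :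
    (zclSub H : Set (GL (Fin n) F)) = zcl (glA F n) H := rfl

theorem le_zclSub (H : Subgroup (GL (Fin n) F)) : H ≤ zclSub H := subset_zcl _ _

theorem normalizer_le_zclSub (H : Subgroup (GL (Fin n) F)) :
    Subgroup.normalizer (H : Set (GL (Fin n) F)) ≤
      Subgroup.normalizer (zclSub H : Set (GL (Fin n) F)) :=
  Subgroup.le_normalizer_iff.2 fun g hg k hk =>
    (reg_conj g g⁻¹).mapsTo_zcl (T := H) (fun x hx => (hg x).1 hx) k hk

/-- Cayley-Hamilton (`Matrix.isNilpotent_iff_charpoly`, `Matrix.aeval_self_charpoly`). -/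
theorem isNilpotent_iff_pow {m : Matrix (Fin n) (Fin n) F} : IsNilpotent m ↔ m ^ n = 0 := by
  refine ⟨fun h => ?_, fun h => ⟨n, h⟩⟩
  have h1 : m.charpoly = Polynomial.X ^ n := by
    have h2 := (LinearMap.isNilpotent_iff_charpoly (Matrix.toLin' m)).1
      (Matrix.isNilpotent_toLin'_iff m |>.2 h)
    rwa [Matrix.charpoly_toLin', Module.finrank_fin_fun] at h2
  have h3 := Matrix.aeval_self_charpoly m
  rwa [h1, map_pow, Polynomial.aeval_X] at h3

theorem LitSubg_pow_mem (k : ℕ) (i j : Fin n) :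
    (fun g : GL (Fin n) F => ((g.1 - 1) ^ k) i j) ∈ glA F n := by
  induction k generalizing i j with
  | zero => exact (glA F n).algebraMap_mem ((1 : Matrix (Fin n) (Fin n) F) i j)
  | succ k ih =>
    have e : (fun g : GL (Fin n) F => ((g.1 - 1) ^ (k + 1)) i j) =
        ∑ l, (fun g : GL (Fin n) F => ((g.1 - 1) ^ k) i l) * ((fun g : GL (Fin n) F => g.1 l j) -
          algebraMap F _ ((1 : Matrix (Fin n) (Fin n) F) l j)) := by
      funext g
      simp [pow_succ, Matrix.mul_apply, Finset.sum_apply]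
    rw [e]
    exact sum_mem fun l _ => mul_mem (ih i l) (sub_mem (entry_mem l j) ((glA F n).algebraMap_mem _))

theorem cl_unip : Cl (glA F n) {g | IsNilpotent (g.1 - 1)} := fun g hg =>
  isNilpotent_iff_pow.2 (Matrix.ext fun i j => hg _ (LitSubg_pow_mem n i j) fun s hs => by
    rw [isNilpotent_iff_pow.1 hs]
    rfl)

theorem IsUnip.zclSub {H : Subgroup (GL (Fin n) F)} (h : IsUnip H) : IsUnip (zclSub H) :=
  fun _ hg => cl_unip.zcl_subset (fun x hx => h x hx) hg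

theorem isNilpotent_conj {g : GL (Fin n) F} (h : IsNilpotent (g.1 - 1)) (a : GL (Fin n) F) :
    IsNilpotent ((a * g * a⁻¹).1 - 1) := by
  have e : (a * g * a⁻¹).1 - 1 = a.1 * (g.1 - 1) * (a⁻¹).1 := by
    rw [mul_sub, sub_mul, mul_one, Units.mul_inv, Units.val_mul, Units.val_mul]
  obtain ⟨k, hk⟩ := h
  refine ⟨k, ?_⟩
  rw [e, Units.conj_pow, hk, mul_zero, zero_mul]

/-- The irreducible subsets of `Q` containing `1` form a directed family (`Irr.mul`) whose union is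
a subgroup containing `S`. -/
theorem irr_of_forall {Q : Subgroup (GL (Fin n) F)} {S : Set (GL (Fin n) F)}
    (hS : Q ≤ Subgroup.closure S)
    (h : ∀ s ∈ S, ∃ C : Set (GL (Fin n) F), C ⊆ Q ∧ Irr (glA F n) C ∧ 1 ∈ C ∧ s ∈ C) :
    Irr (glA F n) (Q : Set (GL (Fin n) F)) := by
  let 𝒮 : Set (Set (GL (Fin n) F)) := {C | C ⊆ Q ∧ Irr (glA F n) C ∧ 1 ∈ C}
  have h1 : ({1} : Set (GL (Fin n) F)) ∈ 𝒮 :=
    ⟨Set.singleton_subset_iff.2 Q.one_mem, irr_singleton _ _, rfl⟩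
  have hmul : ∀ C ∈ 𝒮, ∀ C' ∈ 𝒮, C * C' ∈ 𝒮 := fun C hC C' hC' =>
    ⟨by
      rintro _ ⟨a, ha, b, hb, rfl⟩
      exact Q.mul_mem (hC.1 ha) (hC'.1 hb), hC.2.1.mul hC'.2.1, ⟨1, hC.2.2, 1, hC'.2.2, mul_one 1⟩⟩
  have hirr : Irr (glA F n) (⋃₀ 𝒮) := irr_sUnion ⟨_, h1⟩
    (fun C hC C' hC' => ⟨C * C', hmul C hC C' hC', fun a ha => ⟨a, ha, 1, hC'.2.2, mul_one a⟩,
      fun a ha => ⟨1, hC.2.2, a, ha, one_mul a⟩⟩) fun C hC => hC.2.1
  have e : ⋃₀ 𝒮 = Q := by
    refine Set.Subset.antisymm (Set.sUnion_subset fun C hC => hC.1) fun q hq => ?_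
    have hq' := hS hq
    clear hq
    induction hq' using Subgroup.closure_induction with
    | mem x hx =>
      obtain ⟨C, c1, c2, c3, c4⟩ := h x hx
      exact ⟨C, ⟨c1, c2, c3⟩, c4⟩
    | one => exact ⟨_, h1, rfl⟩
    | mul x y _ _ hx hy =>
      obtain ⟨C, hC, hx⟩ := hx
      obtain ⟨C', hC', hy⟩ := hy
      exact ⟨C * C', hmul C hC C' hC', x, hx, y, hy, rfl⟩
    | inv x _ hx =>
      obtain ⟨C, hC, hx⟩ := hx
      exact ⟨C⁻¹, ⟨fun a ha => Q.inv_mem_iff.1 (hC.1 ha), hC.2.1.inv, by simpa using hC.2.2⟩,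
        by simpa using hx⟩
  rwa [e] at hirr

theorem Irr.sup {P Q : Subgroup (GL (Fin n) F)} (hP : Irr (glA F n) (P : Set (GL (Fin n) F)))
    (hQ : Irr (glA F n) (Q : Set (GL (Fin n) F))) :
    Irr (glA F n) ((P ⊔ Q : Subgroup (GL (Fin n) F)) : Set (GL (Fin n) F)) := by
  refine irr_of_forall (S := (P : Set (GL (Fin n) F)) ∪ Q) (Subgroup.sup_eq_closure P Q).le ?_
  rintro s (hs | hs)
  · exact ⟨P, SetLike.coe_subset_coe.2 le_sup_left, hP, P.one_mem, hs⟩
  · exact ⟨Q, SetLike.coe_subset_coe.2 le_sup_right, hQ, Q.one_mem, hs⟩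

/-- The set of commutators is the image of `Q ×ˢ Q`. -/
theorem Irr.commutator {Q : Subgroup (GL (Fin n) F)} (h : Irr (glA F n) (Q : Set (GL (Fin n) F))) :
    Irr (glA F n) ((⁅Q, Q⁆ : Subgroup (GL (Fin n) F)) : Set (GL (Fin n) F)) := by
  have h1 : Reg (prodA (glA F n) (glA F n)) (glA F n) fun p => p.1 * p.2 * p.1⁻¹ * p.2⁻¹ :=
    (((reg_fst _ _).mul (reg_snd _ _)).mul (reg_fst _ _).inv).mul (reg_snd _ _).inv
  refine irr_of_forall (Subgroup.commutator_def Q Q).le ?_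
  rintro _ ⟨a, ha, b, hb, rfl⟩
  refine ⟨_, ?_, (h.prod h).image (h1.regOn _).zreg, ⟨(1, 1), ⟨Q.one_mem, Q.one_mem⟩, by simp⟩,
    ⟨(a, b), ⟨ha, hb⟩, rfl⟩⟩
  rintro _ ⟨p, hp, rfl⟩
  exact Subgroup.commutator_mem_commutator hp.1 hp.2

/-- The subgroup generated by the `G`-conjugates of `Q`. -/
def normCl (G Q : Subgroup (GL (Fin n) F)) : Subgroup (GL (Fin n) F) :=
  Subgroup.closure {x | ∃ g ∈ G, ∃ q ∈ Q, x = g * q * g⁻¹}

theorem le_normCl (G Q : Subgroup (GL (Fin n) F)) : Q ≤ normCl G Q := fun q hq =>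
  Subgroup.subset_closure ⟨1, G.one_mem, q, hq, by simp⟩

theorem le_normalizer_normCl (G Q : Subgroup (GL (Fin n) F)) :
    G ≤ Subgroup.normalizer (normCl G Q : Set (GL (Fin n) F)) := by
  refine Subgroup.le_normalizer_closure_iff.2 ?_
  rintro a ha _ ⟨g, hg, q, hq, rfl⟩
  exact Subgroup.subset_closure ⟨a * g, G.mul_mem ha hg, q, hq, by simp [mul_assoc]⟩

theorem Irr.normCl {Q : Subgroup (GL (Fin n) F)} (h : Irr (glA F n) (Q : Set (GL (Fin n) F)))
    (G : Subgroup (GL (Fin n) F)) : Irr (glA F n) (normCl G Q : Set (GL (Fin n) F)) := by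
  refine irr_of_forall le_rfl ?_
  rintro _ ⟨g, hg, q, hq, rfl⟩
  refine ⟨_, ?_, h.image ((reg_conj g g⁻¹).regOn _).zreg, ⟨1, Q.one_mem, by simp⟩, ⟨q, hq, rfl⟩⟩
  rintro _ ⟨p, hp, rfl⟩
  exact Subgroup.subset_closure ⟨g, hg, p, hp, rfl⟩

/-- No nontrivial irreducible unipotent normal subgroup. -/
def Red (G : Subgroup (GL (Fin n) F)) : Prop :=
  ∀ Q : Subgroup (GL (Fin n) F), Q ≤ G → G ≤ Subgroup.normalizer (Q : Set (GL (Fin n) F)) →
    IsUnip Q → Irr (glA F n) (Q : Set (GL (Fin n) F)) → Q = ⊥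

/-- Apply the definition of `Ru` to `zclSub Q`. -/
theorem red_of_ru {G : Subgroup (GL (Fin n) F)} (h1 : Cl (glA F n) (G : Set (GL (Fin n) F)))
    (h2 : Ru G = ⊥) : Red G := by
  intro Q hQ hN hu hirr
  have h3 : zclSub Q ≤ Ru G := le_sSup ⟨fun x hx => h1.zcl_subset hQ hx,
    hN.trans (normalizer_le_zclSub Q), zclosed_iff.2 (cl_zcl _ _),
    (hirr.of_subset_zcl (subset_zcl _ _) subset_rfl).zconn, hu.zclSub⟩
  exact le_bot_iff.1 (h2 ▸ (le_zclSub Q).trans h3)

end Pool.Agent.Work.MP_bb5f23_al.Lit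
end

-- merged part: Pool.Agent.Work.MP_bb5f23_al.LitRep
section
/-! Rational representations of subgroups of `GL_n(F)`. -/

namespace Pool.Agent.Work.MP_bb5f23_al.Lit

variable {F : Type} [Field F] {n : ℕ}

/-- A representation of `G` whose matrix coefficients are regular functions. The operators are
given for all elements of `GL_n`, the values outside `G` are irrelevant. -/
structure RRep (G : Subgroup (GL (Fin n) F)) (L : Type) [AddCommGroup L] [Module F L] where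
  op : GL (Fin n) F → Module.End F L
  op_one : op 1 = 1
  op_mul : ∀ g ∈ G, ∀ h ∈ G, op (g * h) = op g * op h
  reg : ∀ (φ : Module.Dual F L) (v : L), ∃ f ∈ glA F n, ∀ g ∈ G, φ (op g v) = f g

namespace RRep

variable {G H : Subgroup (GL (Fin n) F)} {L : Type} [AddCommGroup L] [Module F L] (ρ : RRep G L)

/-- Restriction to a subgroup. -/
def res (h : H ≤ G) : RRep H L where
  op := ρ.op
  op_one := ρ.op_one
  op_mul g hg g' hg' := ρ.op_mul g (h hg) g' (h hg')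
  reg φ v := (ρ.reg φ v).imp fun _ hf => ⟨hf.1, fun g hg => hf.2 g (h hg)⟩

@[simp] theorem res_op (h : H ≤ G) : (ρ.res h).op = ρ.op := rfl

theorem op_mul_apply {g h : GL (Fin n) F} (hg : g ∈ G) (hh : h ∈ G) (v : L) :
    ρ.op (g * h) v = ρ.op g (ρ.op h v) := by rw [ρ.op_mul g hg h hh]; rfl

theorem op_one_apply (v : L) : ρ.op 1 v = v := by rw [ρ.op_one]; rfl

theorem op_inv_op {g : GL (Fin n) F} (hg : g ∈ G) (v : L) : ρ.op g⁻¹ (ρ.op g v) = v := by
  rw [← ρ.op_mul_apply (G.inv_mem hg) hg, inv_mul_cancel, op_one_apply]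

theorem op_op_inv {g : GL (Fin n) F} (hg : g ∈ G) (v : L) : ρ.op g (ρ.op g⁻¹ v) = v := by
  rw [← ρ.op_mul_apply hg (G.inv_mem hg), mul_inv_cancel, op_one_apply]

theorem op_injective {g : GL (Fin n) F} (hg : g ∈ G) : Function.Injective (ρ.op g) :=
  Function.LeftInverse.injective (ρ.op_inv_op hg)

theorem op_ne_zero {g : GL (Fin n) F} (hg : g ∈ G) {v : L} (hv : v ≠ 0) : ρ.op g v ≠ 0 :=
  fun h => hv (ρ.op_injective hg (h.trans (map_zero _).symm))

theorem op_pow {g : GL (Fin n) F} (hg : g ∈ G) (m : ℕ) : ρ.op (g ^ m) = ρ.op g ^ m := by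
  induction m with
  | zero => rw [pow_zero, pow_zero, ρ.op_one]
  | succ m ih => rw [pow_succ, pow_succ, ρ.op_mul _ (G.pow_mem hg m) g hg, ih]

/-- The underlying abstract representation. -/
def toRep : Representation F G L where
  toFun g := ρ.op g
  map_one' := ρ.op_one
  map_mul' g h := ρ.op_mul g g.2 h h.2

/-- Invariant subspaces. -/
def Stable (W : Submodule F L) : Prop := ∀ g ∈ G, ∀ v ∈ W, ρ.op g v ∈ W

/-- Irreducible representations. -/
def IsIrr : Prop := (∃ v : L, v ≠ 0) ∧ ∀ W : Submodule F L, ρ.Stable W → W = ⊥ ∨ W = ⊤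

/-- The cone over the `H`-orbit of `v`. -/
def cone (H : Subgroup (GL (Fin n) F)) (v : L) : Set L :=
  {y | ∃ a : F, ∃ h ∈ H, y = a • ρ.op h v}

/-- The elements of `G` stabilising the line of `v`. -/
def lineStab (v : L) : Subgroup (GL (Fin n) F) where
  carrier := {g | g ∈ G ∧ ∃ a : F, ρ.op g v = a • v}
  one_mem' := ⟨G.one_mem, 1, by rw [op_one_apply, one_smul]⟩
  mul_mem' := by
    rintro g h ⟨hg, a, ha⟩ ⟨hh, b, hb⟩
    exact ⟨G.mul_mem hg hh, b * a, by rw [ρ.op_mul_apply hg hh, hb, map_smul, ha, smul_smul]⟩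
  inv_mem' := by
    rintro g ⟨hg, a, ha⟩
    refine ⟨G.inv_mem hg, a⁻¹, ?_⟩
    have h := ρ.op_inv_op hg v
    rw [ha, map_smul] at h
    by_cases h0 : a = 0
    · rw [h0, zero_smul] at h
      simp [← h]
    · rw [eq_inv_smul_iff₀ h0, h]

theorem mem_lineStab {v : L} {g : GL (Fin n) F} :
    g ∈ ρ.lineStab v ↔ g ∈ G ∧ ∃ a : F, ρ.op g v = a • v := Iff.rfl

theorem regOn_orbit (v : L) : RegOn (glA F n) (linA F L) G fun g => ρ.op g v :=
  regOn_adjoin (by rintro _ ⟨φ, rfl⟩; exact ρ.reg φ v)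

theorem regOn_cone (v : L) : RegOn (prodA (linA F F) (glA F n)) (linA F L)
    (Set.univ ×ˢ (G : Set (GL (Fin n) F))) fun p => p.1 • ρ.op p.2 v := by
  refine regOn_adjoin ?_
  rintro _ ⟨φ, rfl⟩
  obtain ⟨f, hf, h⟩ := ρ.reg φ v
  refine ⟨_, mul_mem (reg_fst _ _ _ id_mem_linA) (reg_snd _ _ f hf), fun p hp => ?_⟩
  simp [h p.2 hp.2]

theorem stable_span_orbit (v : L) :
    ρ.Stable (Submodule.span F ((fun g => ρ.op g v) '' (G : Set (GL (Fin n) F)))) := by
  intro g hg w hw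
  refine Submodule.mem_comap.1 (Submodule.span_le.2 ?_ hw)
  rintro _ ⟨h, hh, rfl⟩
  exact Submodule.subset_span ⟨g * h, G.mul_mem hg hh, ρ.op_mul_apply hg hh v⟩

theorem IsIrr.span_orbit {ρ : RRep G L} (h : ρ.IsIrr) {v : L} (hv : v ≠ 0) :
    Submodule.span F ((fun g => ρ.op g v) '' (G : Set (GL (Fin n) F))) = ⊤ :=
  (h.2 _ (ρ.stable_span_orbit v)).resolve_left fun h0 =>
    hv (h0.le (Submodule.subset_span ⟨1, G.one_mem, ρ.op_one_apply v⟩))

/-- The common kernel of the `φ ∘ ρ g` is invariant. -/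
theorem IsIrr.exists_ne {ρ : RRep G L} (h : ρ.IsIrr) {φ : Module.Dual F L} (hφ : φ ≠ 0) {v : L}
    (hv : v ≠ 0) : ∃ g ∈ G, φ (ρ.op g v) ≠ 0 := by
  by_contra h0
  refine hφ (LinearMap.ker_eq_top.1 (eq_top_iff.2 ((h.span_orbit hv).ge.trans
    (Submodule.span_le.2 ?_))))
  rintro _ ⟨g, hg, rfl⟩
  exact by_contra fun h1 => h0 ⟨g, hg, h1⟩

theorem LitRep_mk (τ : G → Module.End F L) (h1 : τ 1 = 1) (h2 : ∀ g h, τ (g * h) = τ g * τ h)
    (h3 : ∀ (φ : Module.Dual F L) (v : L), ∃ f ∈ glA F n, ∀ g : G, φ (τ g v) = f g) :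
    ∃ σ : RRep G L, ∀ g (hg : g ∈ G), σ.op g = τ ⟨g, hg⟩ := by
  classical
  refine ⟨⟨fun g => if hg : g ∈ G then τ ⟨g, hg⟩ else 1, by rw [dif_pos G.one_mem]; exact h1,
    fun g hg h hh => ?_, fun φ v => (h3 φ v).imp fun f hf => ⟨hf.1, fun g hg => ?_⟩⟩,
    fun g hg => dif_pos hg⟩
  · rw [dif_pos hg, dif_pos hh, dif_pos (G.mul_mem hg hh)]
    exact h2 ⟨g, hg⟩ ⟨h, hh⟩
  · rw [dif_pos hg]
    exact hf.2 ⟨g, hg⟩

theorem exists_sub {W : Submodule F L} (hW : ρ.Stable W) :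
    ∃ σ : RRep G W, ∀ g ∈ G, ∀ w : W, (σ.op g w : L) = ρ.op g w := by
  obtain ⟨σ, hσ⟩ := LitRep_mk (G := G) (fun g => (ρ.op g).restrict (hW g g.2))
    (LinearMap.ext fun w => Subtype.ext (ρ.op_one_apply w))
    (fun g h => LinearMap.ext fun w => Subtype.ext (ρ.op_mul_apply g.2 h.2 w)) fun φ w => by
      obtain ⟨ψ, rfl⟩ := LinearMap.exists_extend φ
      exact (ρ.reg ψ w).imp fun f hf => ⟨hf.1, fun g => hf.2 g g.2⟩
  exact ⟨σ, fun g hg w => by rw [hσ g hg]; rfl⟩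

theorem exists_quot {W : Submodule F L} (hW : ρ.Stable W) :
    ∃ σ : RRep G (L ⧸ W), ∀ g ∈ G, ∀ v, σ.op g (W.mkQ v) = W.mkQ (ρ.op g v) := by
  obtain ⟨σ, hσ⟩ := LitRep_mk (G := G) (fun g => W.mapQ W (ρ.op g) (hW g g.2))
    (Submodule.linearMap_qext _ (LinearMap.ext fun v => congrArg W.mkQ (ρ.op_one_apply v)))
    (fun g h => Submodule.linearMap_qext _ (LinearMap.ext fun v =>
      congrArg W.mkQ (ρ.op_mul_apply g.2 h.2 v))) fun φ w => by
      obtain ⟨v, rfl⟩ := W.mkQ_surjective w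
      exact (ρ.reg (φ ∘ₗ W.mkQ) v).imp fun f hf => ⟨hf.1, fun g => hf.2 g g.2⟩
  exact ⟨σ, fun g hg v => by rw [hσ g hg]; rfl⟩

/-- The dual representation (regular by `Module.evalEquiv` and `reg_inv`). -/
def dual [FiniteDimensional F L] : RRep G (Module.Dual F L) where
  op g := (ρ.op g⁻¹).dualMap
  op_one := by
    rw [inv_one, ρ.op_one]
    rfl
  op_mul g hg h hh := by
    rw [mul_inv_rev, ρ.op_mul _ (G.inv_mem hh) _ (G.inv_mem hg)]
    rfl
  reg Φ φ := by
    obtain ⟨v, rfl⟩ := (Module.evalEquiv F L).surjective Φ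
    obtain ⟨f, hf, h⟩ := ρ.reg φ v
    exact ⟨_, reg_inv f hf, fun g hg => h _ (G.inv_mem hg)⟩

theorem dual_op [FiniteDimensional F L] (g : GL (Fin n) F) (φ : Module.Dual F L) (v : L) :
    ρ.dual.op g φ v = φ (ρ.op g⁻¹ v) := rfl

/-- Use `Submodule.dualCoannihilator`. -/
theorem IsIrr.dual [FiniteDimensional F L] {ρ : RRep G L} (h : ρ.IsIrr) : ρ.dual.IsIrr := by
  refine ⟨?_, fun W hW => ?_⟩
  · obtain ⟨v, hv⟩ := h.1
    by_contra h0
    exact hv ((Module.forall_dual_apply_eq_zero_iff F v).1 fun φ => by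
      rw [by_contra fun h1 : φ ≠ 0 => h0 ⟨φ, h1⟩, LinearMap.zero_apply])
  have h1 : ρ.Stable W.dualCoannihilator := fun g hg v hv =>
    (Submodule.mem_dualCoannihilator _).2 fun φ hφ => by
      have := (Submodule.mem_dualCoannihilator _).1 hv _ (hW _ (G.inv_mem hg) φ hφ)
      rwa [dual_op, inv_inv] at this
  rw [← Subspace.dualCoannihilator_dualAnnihilator_eq (W := W)]
  rcases h.2 _ h1 with h2 | h2 <;> simp [h2]

/-- The standard representation. -/
def std (G : Subgroup (GL (Fin n) F)) : RRep G (Fin n → F) where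
  op g := Matrix.toLin' g.1
  op_one := Matrix.toLin'_one
  op_mul g _ h _ := Matrix.toLin'_mul g.1 h.1
  reg φ v := by
    refine ⟨∑ i, ∑ j, (v j * φ fun k => if i = k then 1 else 0) • fun g => g.1 i j,
      sum_mem fun i _ => sum_mem fun j _ => Subalgebra.smul_mem _ (entry_mem i j) _,
      fun g _ => ?_⟩
    rw [LinearMap.pi_apply_eq_sum_univ]
    simp only [Matrix.toLin'_apply, Matrix.mulVec, dotProduct, smul_eq_mul, Finset.sum_mul,
      Finset.sum_apply, Pi.smul_apply]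
    exact Finset.sum_congr rfl fun i _ => Finset.sum_congr rfl fun j _ => by ring

/-- A finite dimensional space of functions stable under right translation. The evaluations span
the dual space (their common kernel is trivial). -/
theorem exists_fn (G : Subgroup (GL (Fin n) F)) (W : Submodule F (GL (Fin n) F → F))
    [FiniteDimensional F W] (hst : ∀ g ∈ G, ∀ f ∈ W, (fun x => f (x * g)) ∈ W)
    (hreg : ∀ f ∈ W, ∀ x, ∃ f' ∈ glA F n, ∀ g ∈ G, f (x * g) = f' g) :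
    ∃ σ : RRep G W, ∀ g ∈ G, ∀ (f : W) (x : GL (Fin n) F), (σ.op g f).1 x = f.1 (x * g) := by
  let τ : G → Module.End F W := fun g =>
    { toFun := fun f => ⟨fun x => f.1 (x * g), hst g g.2 f f.2⟩
      map_add' := fun _ _ => rfl
      map_smul' := fun _ _ => rfl }
  refine (LitRep_mk τ (LinearMap.ext fun f => Subtype.ext (funext fun x => by simp [τ]))
    (fun g h => LinearMap.ext fun f => Subtype.ext (funext fun x => by simp [τ, mul_assoc]))
    fun φ f => ?_).imp fun σ hσ g hg f x => by rw [hσ g hg]; rfl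
  have h1 : φ ∈ Submodule.span F (Set.range fun x => LinearMap.proj x ∘ₗ W.subtype) :=
    (Submodule.span_eq_top_of_ne_zero fun z hz => by
      obtain ⟨x, hx⟩ := Function.ne_iff.1 fun h0 => hz (Subtype.ext h0)
      exact ⟨_, ⟨x, rfl⟩, hx⟩).ge trivial
  induction h1 using Submodule.span_induction with
  | mem ψ hψ =>
    obtain ⟨x, rfl⟩ := hψ
    exact (hreg f f.2 x).imp fun f' hf' => ⟨hf'.1, fun g => hf'.2 g g.2⟩
  | zero => exact ⟨0, zero_mem _, fun _ => rfl⟩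
  | add a b _ _ ha hb =>
    obtain ⟨a', ha', ha⟩ := ha
    obtain ⟨b', hb', hb⟩ := hb
    exact ⟨a' + b', add_mem ha' hb', fun g => by simp [ha g, hb g]⟩
  | smul c a _ ha =>
    obtain ⟨a', ha', ha⟩ := ha
    exact ⟨c • a', Subalgebra.smul_mem _ ha' c, fun g => by simp [ha g]⟩

end RRep

end Pool.Agent.Work.MP_bb5f23_al.Lit
end

-- merged part: Pool.Agent.Work.MP_bb5f23_al.LitTriv
section
/-! Elements acting trivially in all irreducible representations. -/

namespace Pool.Agent.Work.MP_bb5f23_al.Lit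

variable {F : Type} [Field F] {n : ℕ}

/-- `g ∈ G` acts trivially in all irreducible rational representations. -/
def TrivAll (G : Subgroup (GL (Fin n) F)) (g : GL (Fin n) F) : Prop :=
  ∀ (L : Type) [AddCommGroup L] [Module F L] [FiniteDimensional F L] (ρ : RRep G L),
    ρ.IsIrr → ∀ v, ρ.op g v = v

theorem LitTriv_pow {L L' : Type} [AddCommGroup L] [Module F L] [AddCommGroup L'] [Module F L']
    (f : L →ₗ[F] L') {a : Module.End F L} {b : Module.End F L'} (h : ∀ v, b (f v) = f (a v))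
    (k : ℕ) (v : L) : ((b - 1) ^ k) (f v) = f (((a - 1) ^ k) v) := by
  induction k with
  | zero => rfl
  | succ k ih => simp [pow_succ', ih, h]

theorem LitTriv_nil {G : Subgroup (GL (Fin n) F)} {g : GL (Fin n) F} (hg : g ∈ G)
    (h : TrivAll G g) (d : ℕ) : ∀ (L : Type) [AddCommGroup L] [Module F L]
      [FiniteDimensional F L] (ρ : RRep G L), Module.finrank F L = d →
        ∃ k : ℕ, ∀ v, ((ρ.op g - 1) ^ k) v = 0 := by
  induction d using Nat.strong_induction_on with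
  | _ d ih =>
    intro L _ _ _ ρ hd
    by_cases h0 : ∃ v : L, v ≠ 0
    swap
    · push Not at h0
      exact ⟨0, fun v => h0 _⟩
    by_cases hirr : ρ.IsIrr
    · exact ⟨1, fun v => by simp [h L ρ hirr v]⟩
    obtain ⟨W, hW, h1, h2⟩ : ∃ W : Submodule F L, ρ.Stable W ∧ W ≠ ⊥ ∧ W ≠ ⊤ := by
      by_contra hn
      push Not at hn
      exact hirr ⟨h0, fun W hW => or_iff_not_imp_left.2 (hn W hW)⟩
    obtain ⟨σ, hσ⟩ := ρ.exists_sub hW
    obtain ⟨τ, hτ⟩ := ρ.exists_quot hW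
    have h3 := Submodule.finrank_lt h2
    have h4 := W.finrank_quotient_add_finrank
    have h5 : Module.finrank F W ≠ 0 := fun h => h1 (Submodule.finrank_eq_zero.1 h)
    obtain ⟨a, ha⟩ := ih _ (hd ▸ h3) W σ rfl
    obtain ⟨b, hb⟩ := ih _ (by omega) (L ⧸ W) τ rfl
    refine ⟨a + b, fun v => ?_⟩
    have h6 : ((ρ.op g - 1) ^ b) v ∈ W := by
      rw [← Submodule.Quotient.mk_eq_zero, ← W.mkQ_apply, ← LitTriv_pow W.mkQ (hτ g hg), hb]
    have h7 := LitTriv_pow W.subtype (a := σ.op g) (b := ρ.op g) (fun w => (hσ g hg w).symm) a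
      ⟨_, h6⟩
    rw [ha, map_zero] at h7
    rw [pow_add]
    exact h7

/-- Induction on the dimension: for every rational representation `ρ` on `L` the operator
`ρ g - 1` is nilpotent (take a maximal proper invariant subspace `W`; `L / W` is irreducible). Apply
this to `RRep.std`. -/
theorem TrivAll.isNilpotent {G : Subgroup (GL (Fin n) F)} {g : GL (Fin n) F} (hg : g ∈ G)
    (h : TrivAll G g) : IsNilpotent (g.1 - 1) := by
  obtain ⟨k, hk⟩ := LitTriv_nil hg h _ _ (RRep.std G) rfl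
  refine ⟨k, Matrix.toLin'.injective ?_⟩
  rw [Matrix.toLin'_pow, map_sub, Matrix.toLin'_one, map_zero]
  exact LinearMap.ext hk

/-- The elements with `TrivAll` form a normal subgroup of `G` containing `normCl G Q`. -/
theorem Red.eq_bot_of_trivAll {G Q : Subgroup (GL (Fin n) F)} (hG : Red G) (hQ : Q ≤ G)
    (hirr : Irr (glA F n) (Q : Set (GL (Fin n) F))) (h : ∀ q ∈ Q, TrivAll G q) : Q = ⊥ := by
  have key : ∀ x ∈ normCl G Q, x ∈ G ∧ TrivAll G x := by
    intro x hx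
    induction hx using Subgroup.closure_induction with
    | mem x hx =>
      obtain ⟨g, hg, q, hq, rfl⟩ := hx
      refine ⟨G.mul_mem (G.mul_mem hg (hQ hq)) (G.inv_mem hg), fun L _ _ _ ρ hρ v => ?_⟩
      rw [ρ.op_mul_apply (G.mul_mem hg (hQ hq)) (G.inv_mem hg), ρ.op_mul_apply hg (hQ hq),
        h q hq L ρ hρ, ρ.op_op_inv hg]
    | one => exact ⟨G.one_mem, fun L _ _ _ ρ _ v => ρ.op_one_apply v⟩
    | mul x y _ _ hx hy =>
      refine ⟨G.mul_mem hx.1 hy.1, fun L _ _ _ ρ hρ v => ?_⟩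
      rw [ρ.op_mul_apply hx.1 hy.1, hy.2 L ρ hρ, hx.2 L ρ hρ]
    | inv x _ hx =>
      refine ⟨G.inv_mem hx.1, fun L _ _ _ ρ hρ v => ?_⟩
      conv_lhs => rw [← hx.2 L ρ hρ v]
      exact ρ.op_inv_op hx.1 v
  have h1 := hG (normCl G Q) (fun x hx => (key x hx).1) (le_normalizer_normCl G Q)
    (fun x hx => (key x hx).2.isNilpotent (key x hx).1) (hirr.normCl G)
  exact le_bot_iff.1 (h1 ▸ le_normCl G Q)

end Pool.Agent.Work.MP_bb5f23_al.Lit
end

-- merged part: Pool.Agent.Work.MP_bb5f23_al.LitPGrp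
section
/-! Unipotent and semisimple elements over the closure of a finite field. -/

namespace Pool.Agent.Work.MP_bb5f23_al.Lit

variable {F : Type} [Field F] [IsFbar F] {n : ℕ}

/-- The order is invertible in `F`. -/
def SS (g : GL (Fin n) F) : Prop := (orderOf g : F) ≠ 0

theorem finOrd (g : GL (Fin n) F) : IsOfFinOrder g :=
  isOfFinOrder_of_rho (Units.coeHom (Matrix (Fin n) (Fin n) F)) Units.val_injective g

theorem finite_closure {S : Set (GL (Fin n) F)} (hS : S.Finite) :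
    (Subgroup.closure S : Set (GL (Fin n) F)).Finite :=
  closure_finite (Units.coeHom (Matrix (Fin n) (Fin n) F)) Units.val_injective hS

theorem ringChar_prime (F : Type) [Field F] [IsFbar F] : (ringChar F).Prime := by
  obtain ⟨p, hp, _, -⟩ := IsFbar.exists_prime (F := F)
  rwa [ringChar.eq F p]

theorem LitPGrp_pow (g : GL (Fin n) F) (k : ℕ) :
    (g.1 - 1) ^ ringChar F ^ k = 0 ↔ g ^ ringChar F ^ k = 1 := by
  rw [← Units.val_eq_one, Units.val_pow_eq_pow_val]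
  rcases isEmpty_or_nonempty (Fin n) with h | h
  · exact iff_of_true (Subsingleton.elim _ _) (Subsingleton.elim _ _)
  · have := Fact.mk (ringChar_prime F)
    rw [sub_pow_char_pow_of_commute _ _ (Commute.one_right _), one_pow, sub_eq_zero]

/-- `(g - 1) ^ p ^ k = g ^ p ^ k - 1` (`sub_pow_char_pow_of_commute`). -/
theorem isNilpotent_iff_pow_eq_one {g : GL (Fin n) F} :
    IsNilpotent (g.1 - 1) ↔ ∃ k, g ^ ringChar F ^ k = 1 :=
  ⟨fun ⟨m, hm⟩ => ⟨m, (LitPGrp_pow g m).1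
    (pow_eq_zero_of_le (Nat.lt_pow_self (ringChar_prime F).one_lt).le hm)⟩,
    fun ⟨k, hk⟩ => ⟨_, (LitPGrp_pow g k).2 hk⟩⟩

theorem pow_eq_one_of_isNilpotent {g : GL (Fin n) F} (h : IsNilpotent (g.1 - 1)) {k : ℕ}
    (hk : n ≤ ringChar F ^ k) : g ^ ringChar F ^ k = 1 := by
  refine (LitPGrp_pow g k).1 (pow_eq_zero_of_le hk ?_)
  have h1 := Matrix.aeval_self_charpoly (g.1 - 1)
  rwa [sub_eq_zero.1 (Matrix.isNilpotent_charpoly_sub_pow_of_isNilpotent h).eq_zero,
    Polynomial.aeval_X_pow, Fintype.card_fin] at h1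

theorem ss_of_pow {g : GL (Fin n) F} {N : ℕ} (hN : (N : F) ≠ 0) (h : g ^ N = 1) : SS g := by
  obtain ⟨c, rfl⟩ := orderOf_dvd_of_pow_eq_one h
  rw [Nat.cast_mul] at hN
  exact left_ne_zero_of_mul hN

theorem SS.conj {g : GL (Fin n) F} (h : SS g) (a : GL (Fin n) F) : SS (a * g * a⁻¹) :=
  ss_of_pow h (by rw [conj_pow, pow_orderOf_eq_one, mul_one, mul_inv_cancel])

theorem SS.pow {g : GL (Fin n) F} (h : SS g) (m : ℕ) : SS (g ^ m) :=
  ss_of_pow h (by rw [← pow_mul, mul_comm, pow_mul, pow_orderOf_eq_one, one_pow])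

/-- The order is coprime to `p ^ k`. -/
theorem SS.mem_zpowers {g : GL (Fin n) F} (h : SS g) (k : ℕ) :
    g ∈ Subgroup.zpowers (g ^ ringChar F ^ k) :=
  mem_zpowers_pow_iff.2 (Nat.Coprime.pow_left k
    ((ringChar_prime F).coprime_iff_not_dvd.2 fun h' => h ((ringChar.spec F _).2 h')))

theorem SS.eq_one {g : GL (Fin n) F} (h : SS g) (h' : IsNilpotent (g.1 - 1)) : g = 1 := by
  obtain ⟨k, hk⟩ := isNilpotent_iff_pow_eq_one.1 h'
  have h1 := h.mem_zpowers k
  rwa [hk, Subgroup.zpowers_one_eq_bot, Subgroup.mem_bot] at h1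

/-- Every nonzero element of `F` has finite order prime to `p`. -/
theorem ss_of_isDiag {g : GL (Fin n) F} (h : g.1.IsDiag) : SS g := by
  obtain ⟨p, hp, _, hF⟩ := IsFbar.exists_prime (F := F)
  have := Fact.mk hp
  obtain ⟨m, hm, h1⟩ := exists_level p hF (Units.coeHom (Matrix (Fin n) (Fin n) F))
    (Set.finite_singleton g)
  have h2 := (mem_fixSub _ _ g).1 (h1 rfl)
  have h3 : g ^ p ^ m = g := by
    rw [← Units.val_inj, Units.val_pow_eq_pow_val, ← h.diagonal_diag, Matrix.diagonal_pow]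
    exact congrArg _ (funext fun i => h2 i i)
  obtain ⟨N, hN⟩ : ∃ N, p ^ m = N + 1 := ⟨p ^ m - 1, by have := pow_pos hp.pos m; omega⟩
  refine ss_of_pow (N := N) (fun h0 => ?_) ?_
  · have h4 := congrArg (Nat.cast : ℕ → F) hN
    rw [Nat.cast_succ, h0, Nat.cast_pow, CharP.cast_eq_zero F p, zero_pow hm.ne', zero_add] at h4
    exact zero_ne_one h4
  · rwa [hN, pow_succ, mul_eq_right] at h3

/-- Jordan decomposition: write `orderOf g = p ^ a * m`. -/
theorem exists_jordan (g : GL (Fin n) F) : ∃ s ∈ Subgroup.zpowers g, ∃ u ∈ Subgroup.zpowers g,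
    g = s * u ∧ SS s ∧ IsNilpotent (u.1 - 1) := by
  obtain ⟨a, m, hm, e⟩ := Nat.exists_eq_pow_mul_and_not_dvd (finOrd g).orderOf_pos.ne' _
    (ringChar_prime F).ne_one
  obtain ⟨x, y, h⟩ := Nat.isCoprime_iff_coprime.2
    (Nat.Coprime.pow_left a ((ringChar_prime F).coprime_iff_not_dvd.2 hm))
  have h1 : ∀ z : ℤ, g ^ (z * ((ringChar F ^ a * m : ℕ) : ℤ)) = 1 := fun z => by
    rw [← e, mul_comm, zpow_mul, zpow_natCast, pow_orderOf_eq_one, one_zpow]
  refine ⟨_, Subgroup.zpow_mem_zpowers g (x * (ringChar F ^ a : ℕ)), _,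
    Subgroup.zpow_mem_zpowers g (y * m), by rw [← zpow_add, h, zpow_one],
    ss_of_pow (fun h' => hm ((ringChar.spec F _).1 h')) ?_,
    isNilpotent_iff_pow_eq_one.2 ⟨a, ?_⟩⟩
  · rw [← zpow_natCast, ← zpow_mul, mul_assoc, ← Nat.cast_mul, h1]
  · rw [← zpow_natCast, ← zpow_mul, mul_assoc, ← Nat.cast_mul, mul_comm m, h1]

theorem ss_pow_of_le (g : GL (Fin n) F) {k : ℕ} (hk : n ≤ ringChar F ^ k) :
    SS (g ^ ringChar F ^ k) := by
  obtain ⟨_, ⟨x, rfl⟩, _, ⟨y, rfl⟩, e, hs, hu⟩ := exists_jordan g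
  rw [e, (Commute.zpow_zpow_self g x y).mul_pow, pow_eq_one_of_isNilpotent hu hk, mul_one]
  exact hs.pow _

end Pool.Agent.Work.MP_bb5f23_al.Lit
end

-- merged part: Pool.Agent.Work.MP_bb5f23_al.LitFix
section
/-! Fixed vectors of unipotent groups, simultaneous diagonalisation. -/

namespace Pool.Agent.Work.MP_bb5f23_al.Lit

variable {F : Type} [Field F] [IsFbar F] {n : ℕ}

omit [IsFbar F] in
/-- A finite `p`-group acting linearly in characteristic `p` has a nonzero fixed vector. -/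
theorem fix_finite {p : ℕ} [Fact p.Prime] [CharP F p] {Γ : Type} [Group Γ] [Finite Γ]
    (hΓ : IsPGroup p Γ) {W : Type} [AddCommGroup W] [Module F W] (σ : Representation F Γ W)
    {v : W} (hv : v ≠ 0) : ∃ w : W, w ≠ 0 ∧ ∀ q, σ q w = w := by
  let A : AddSubgroup W := AddSubgroup.closure (Set.range fun q => σ q v)
  have hp : ∀ w : W, p • w = 0 := fun w => by
    rw [← Nat.cast_smul_eq_nsmul F, CharP.cast_eq_zero, zero_smul]
  have hst : ∀ (q : Γ) (w : W), w ∈ A → σ q w ∈ A := by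
    intro q w hw
    have h1 : A ≤ A.comap (σ q).toAddMonoidHom := by
      refine (AddSubgroup.closure_le _).2 ?_
      rintro _ ⟨q', rfl⟩
      refine AddSubgroup.subset_closure ⟨q * q', ?_⟩
      simp
    exact h1 hw
  have hfg : AddGroup.FG A :=
    (AddGroup.fg_iff_addSubgroup_fg A).2 ((AddSubgroup.fg_iff A).2 ⟨_, rfl, Set.finite_range _⟩)
  have hfin : Finite A := AddCommGroup.finite_of_fg_isAddTorsion A fun a =>
    isOfFinAddOrder_iff_nsmul_eq_zero.2 ⟨p, (Fact.out : p.Prime).pos, Subtype.ext (hp a)⟩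
  let : MulAction Γ A :=
    { smul := fun q a => ⟨σ q a, hst q a a.2⟩
      one_smul := fun a => Subtype.ext (by
        change σ 1 a = a
        simp)
      mul_smul := fun q q' a => Subtype.ext (by
        change σ (q * q') a = σ q (σ q' a)
        simp) }
  have hvA : v ∈ A := AddSubgroup.subset_closure ⟨1, by simp⟩
  have hord : addOrderOf (⟨v, hvA⟩ : A) = p :=
    addOrderOf_eq_prime (Subtype.ext (hp v)) fun h => hv (congrArg Subtype.val h)
  have h0 : (0 : A) ∈ MulAction.fixedPoints Γ A := fun q => Subtype.ext (map_zero (σ q))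
  obtain ⟨b, hb, hne⟩ := hΓ.exists_fixed_point_of_prime_dvd_card_of_fixed_point A
    (hord ▸ addOrderOf_dvd_natCard _) h0
  exact ⟨b, fun h => hne (Subtype.ext h.symm), fun q => congrArg Subtype.val (hb q)⟩

/-- For a finite `p`-group `Γ` and `v ≠ 0` the additive subgroup generated by the orbit is a finite
elementary abelian `p`-group on which `Γ` acts; count fixed points
(`IsPGroup.exists_fixed_point_of_prime_dvd_card_of_fixed_point`). In general take a finite subgroup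
whose fixed space has the least dimension. -/
theorem exists_fixed {Q : Subgroup (GL (Fin n) F)} (hQ : IsUnip Q) {W : Type} [AddCommGroup W]
    [Module F W] [FiniteDimensional F W] (σ : Representation F Q W) (h : ∃ w : W, w ≠ 0) :
    ∃ w : W, w ≠ 0 ∧ ∀ q, σ q w = w := by
  classical
  obtain ⟨v, hv⟩ := h
  have : Fact (ringChar F).Prime := ⟨ringChar_prime F⟩
  let Fx : Finset Q → Submodule F W := fun s => ⨅ q ∈ s, LinearMap.eqLocus (σ q) LinearMap.id
  have hFx : ∀ s w, w ∈ Fx s ↔ ∀ q ∈ s, σ q w = w := fun s w => by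
    simp only [Fx, Submodule.mem_iInf, LinearMap.mem_eqLocus, LinearMap.id_apply]
  obtain ⟨s, hs⟩ := exists_minimalFor_of_wellFoundedLT (fun _ : Finset Q => True) Fx ⟨∅, trivial⟩
  let H : Subgroup Q := Subgroup.closure (s : Set Q)
  have hfin : Finite H :=
    closure_finite ((Units.coeHom (Matrix (Fin n) (Fin n) F)).comp Q.subtype)
      (Units.val_injective.comp Subtype.val_injective) s.finite_toSet
  have hH : IsPGroup (ringChar F) H := fun g => by
    obtain ⟨k, hk⟩ := isNilpotent_iff_pow_eq_one.1 (hQ g.1.1 g.1.2)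
    exact ⟨k, Subtype.ext (Subtype.ext hk)⟩
  obtain ⟨w, hw, hfix⟩ := fix_finite hH (σ.comp H.subtype) hv
  refine ⟨w, hw, fun q => ?_⟩
  have h1 : w ∈ Fx s := (hFx s w).2 fun q' hq' => hfix ⟨q', Subgroup.subset_closure hq'⟩
  have h2 : Fx (insert q s) ≤ Fx s := fun x hx =>
    (hFx s x).2 fun q' hq' => (hFx _ x).1 hx q' (Finset.mem_insert_of_mem hq')
  exact (hFx _ w).1 (hs.2 trivial h2 h1) q (Finset.mem_insert_self q s)

variable {G : Subgroup (GL (Fin n) F)} {L : Type} [AddCommGroup L] [Module F L]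

theorem RRep.fix_of_eigen (ρ : RRep G L) {g : GL (Fin n) F} (hg : g ∈ G)
    (h : IsNilpotent (g.1 - 1)) {v : L} {a : F} (hv : ρ.op g v = a • v) : ρ.op g v = v := by
  by_cases h0 : v = 0
  · rw [h0, map_zero]
  have : Fact (ringChar F).Prime := ⟨ringChar_prime F⟩
  obtain ⟨k, hk⟩ := isNilpotent_iff_pow_eq_one.1 h
  have h1 : ∀ m : ℕ, ρ.op (g ^ m) v = a ^ m • v := by
    intro m
    induction m with
    | zero => rw [pow_zero, pow_zero, ρ.op_one_apply, one_smul]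
    | succ m ih =>
      rw [pow_succ, ρ.op_mul_apply (G.pow_mem hg m) hg, hv, map_smul, ih, smul_smul, pow_succ']
  have h2 := h1 (ringChar F ^ k)
  rw [hk, ρ.op_one_apply] at h2
  have h3 : (a - 1) ^ ringChar F ^ k = 0 := by
    rw [sub_pow_char_pow, one_pow]
    refine (smul_eq_zero.1 ?_).resolve_right h0
    rw [sub_smul, one_smul, ← h2, sub_self]
  rw [hv, sub_eq_zero.1 (pow_eq_zero_iff (pow_ne_zero k (Fact.out : (ringChar F).Prime).ne_zero)
    |>.1 h3), one_smul]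

/-- Apply `exists_fixed` to the dual of the subrepresentation `W` and extend the linear form. -/
theorem RRep.exists_inv_form [FiniteDimensional F L] (ρ : RRep G L) (hG : IsUnip G)
    {W : Submodule F L} (hW : ρ.Stable W) (h : W ≠ ⊥) : ∃ φ : Module.Dual F L,
      (∃ w ∈ W, φ w ≠ 0) ∧ ∀ g ∈ G, ∀ w ∈ W, φ (ρ.op g w) = φ w := by
  obtain ⟨σ, hσ⟩ := ρ.exists_sub hW
  obtain ⟨w, hw, hw0⟩ := (Submodule.ne_bot_iff W).1 h
  obtain ⟨ψ, hψ⟩ : ∃ ψ : Module.Dual F W, ψ ⟨w, hw⟩ ≠ 0 := by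
    by_contra hcon
    push Not at hcon
    exact hw0 (congrArg Subtype.val ((Module.forall_dual_apply_eq_zero_iff F _).1 hcon))
  obtain ⟨φ₀, h0, hfix⟩ := exists_fixed hG σ.dual.toRep ⟨ψ, fun e => hψ (by rw [e]; rfl)⟩
  obtain ⟨φ, hφ⟩ := LinearMap.exists_extend φ₀
  have e : ∀ x : W, φ x = φ₀ x := fun x => LinearMap.congr_fun hφ x
  refine ⟨φ, ?_, fun g hg x hx => ?_⟩
  · by_contra hcon
    push Not at hcon
    exact h0 (LinearMap.ext fun x => (e x).symm.trans (hcon x x.2))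
  · have h1 : φ₀ (σ.op g⁻¹⁻¹ ⟨x, hx⟩) = φ₀ ⟨x, hx⟩ :=
      LinearMap.congr_fun (hfix ⟨g⁻¹, G.inv_mem hg⟩) ⟨x, hx⟩
    rw [inv_inv, ← e, ← e, hσ g hg] at h1
    exact h1

variable [IsAlgClosed F]

/-- Each operator is semisimple (`X ^ N - 1` is squarefree,
`Module.End.isSemisimple_of_squarefree_aeval_eq_zero`); use
`Module.End.iSup_iInf_maxGenEigenspace_eq_top_of_iSup_maxGenEigenspace_eq_top_of_commute`, or
induction on the dimension. -/
theorem span_eigen {W : Type} [AddCommGroup W] [Module F W] [FiniteDimensional F W]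
    {S : Set (Module.End F W)} (hc : ∀ a ∈ S, ∀ b ∈ S, Commute a b)
    (hs : ∀ a ∈ S, ∃ N : ℕ, (N : F) ≠ 0 ∧ a ^ N = 1) :
    Submodule.span F {w | ∀ a ∈ S, ∃ c : F, a w = c • w} = ⊤ := by
  have h1 := Module.End.iSup_iInf_maxGenEigenspace_eq_top_of_iSup_maxGenEigenspace_eq_top_of_commute
    (fun a : S => a.1) (fun a b _ => hc a a.2 b b.2)
    fun a => Module.End.iSup_maxGenEigenspace_eq_top a.1
  have h2 : ∀ a ∈ S, a.IsFinitelySemisimple := by
    intro a ha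
    obtain ⟨N, hN, hpow⟩ := hs a ha
    refine (Module.End.isSemisimple_of_squarefree_aeval_eq_zero
      (Polynomial.X_pow_sub_one_separable_iff.2 hN).squarefree ?_).isFinitelySemisimple
    simp [hpow]
  rw [eq_top_iff, ← h1]
  refine iSup_le fun χ w hw => Submodule.subset_span fun a ha => ⟨χ ⟨a, ha⟩, ?_⟩
  have h3 := (Submodule.mem_iInf _).1 hw ⟨a, ha⟩
  rw [(h2 a ha).maxGenEigenspace_eq_eigenspace] at h3
  exact Module.End.mem_eigenspace_iff.1 h3

/-- Extract a basis from the common eigenvectors (`exists_linearIndependent`), index it by `Fin n`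
and take the matrix whose columns are the basis vectors. -/
theorem exists_diag {S : Set (GL (Fin n) F)} (hc : ∀ a ∈ S, ∀ b ∈ S, Commute a b)
    (hs : ∀ a ∈ S, SS a) : ∃ h : GL (Fin n) F, ∀ a ∈ S, (h⁻¹ * a * h).1.IsDiag := by
  have h1 := span_eigen (W := Fin n → F) (S := (fun a : GL (Fin n) F => Matrix.toLin' a.1) '' S)
    (by
      rintro _ ⟨a, ha, rfl⟩ _ ⟨b, hb, rfl⟩
      change Matrix.toLin' a.1 ∘ₗ Matrix.toLin' b.1 = Matrix.toLin' b.1 ∘ₗ Matrix.toLin' a.1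
      rw [← Matrix.toLin'_mul, ← Matrix.toLin'_mul, ← Units.val_mul, ← Units.val_mul,
        (hc a ha b hb).eq])
    (by
      rintro _ ⟨a, ha, rfl⟩
      refine ⟨orderOf a, hs a ha, ?_⟩
      rw [← Matrix.toLin'_pow, ← Units.val_pow_eq_pow_val, pow_orderOf_eq_one, Units.val_one,
        Matrix.toLin'_one]
      rfl)
  obtain ⟨b, hb, hspan, hli⟩ := exists_linearIndependent F
    {w : Fin n → F | ∀ a ∈ (fun a : GL (Fin n) F => Matrix.toLin' a.1) '' S, ∃ c : F, a w = c • w}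
  rw [h1] at hspan
  let B₀ : Module.Basis b F (Fin n → F) := Module.Basis.mk hli (by simp [hspan])
  let B := B₀.reindex (B₀.indexEquiv (Pi.basisFun F (Fin n)))
  have hB : ∀ j, B j ∈ b := fun j => by
    simp only [B, B₀, Module.Basis.reindex_apply, Module.Basis.mk_apply]
    exact Subtype.coe_prop _
  let := (Pi.basisFun F (Fin n)).invertibleToMatrix B
  refine ⟨unitOfInvertible ((Pi.basisFun F (Fin n)).toMatrix B), fun a ha => ?_⟩
  choose c hc' using fun j => hb (hB j) _ ⟨a, ha, rfl⟩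
  have h2 : a.1 * (Pi.basisFun F (Fin n)).toMatrix B =
      (Pi.basisFun F (Fin n)).toMatrix B * Matrix.diagonal c := by
    ext i j
    have h3 := congrFun (hc' j) i
    rw [Matrix.toLin'_apply] at h3
    rw [Matrix.mul_diagonal, Matrix.mul_apply, mul_comm]
    simpa [Module.Basis.toMatrix_apply, Matrix.mulVec, dotProduct] using h3
  rw [mul_assoc, Units.val_mul, Units.val_mul, val_unitOfInvertible, h2, ← mul_assoc,
    val_inv_unitOfInvertible, invOf_mul_self, one_mul]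
  exact Matrix.isDiag_diagonal c

end Pool.Agent.Work.MP_bb5f23_al.Lit
end

-- merged part: Pool.Agent.Work.MP_bb5f23_al.LitLat
section
/-! Cones, rays and lines in the character lattice. -/

namespace Pool.Agent.Work.MP_bb5f23_al.Lit

variable {n r : ℕ}

/-- `{γ | 0 < ⟨γ, c⟩}`. -/
def posS (c : Fin r → ℤ) : AddSubsemigroup (Fin r → ℤ) where
  carrier := {γ | 0 < γ ⬝ᵥ c}
  add_mem' ha hb := by simpa [add_dotProduct] using add_pos ha hb

/-- `{γ | ⟨γ, c⟩ = 0}`. -/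
def zeroS (c : Fin r → ℤ) : AddSubsemigroup (Fin r → ℤ) where
  carrier := {γ | γ ⬝ᵥ c = 0}
  add_mem' {a b} (ha : a ⬝ᵥ c = 0) (hb : b ⬝ᵥ c = 0) := by simp [add_dotProduct, ha, hb]

/-- `{γ | 0 ≤ ⟨γ, c⟩}`. -/
def nnS (c : Fin r → ℤ) : AddSubsemigroup (Fin r → ℤ) where
  carrier := {γ | 0 ≤ γ ⬝ᵥ c}
  add_mem' ha hb := by simpa [add_dotProduct] using add_nonneg ha hb

/-- `{γ | k < ⟨γ, c⟩}`. -/
def gtS (c : Fin r → ℤ) (k : ℕ) : AddSubsemigroup (Fin r → ℤ) where
  carrier := {γ | (k : ℤ) < γ ⬝ᵥ c}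
  add_mem' {a b} (ha : (k : ℤ) < a ⬝ᵥ c) (hb : (k : ℤ) < b ⬝ᵥ c) := by
    change (k : ℤ) < (a + b) ⬝ᵥ c
    rw [add_dotProduct]
    omega

/-- `{0}`. -/
def nullS (r : ℕ) : AddSubsemigroup (Fin r → ℤ) where
  carrier := {0}
  add_mem' {a b} (ha : a = 0) (hb : b = 0) := by simp [ha, hb]

theorem LitLat_add {e γ γ' : Fin r → ℤ} {a b a' b' : ℤ} (h : a • γ = b • e)
    (h' : a' • γ' = b' • e) : (a * a') • (γ + γ') = (a' * b + a * b') • e := by
  rw [smul_add, add_smul, mul_smul a' b, mul_smul a b', ← h, ← h', smul_smul, smul_smul,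
    mul_comm a' a]

theorem LitLat_trans {e γ δ : Fin r → ℤ} {a b p q : ℤ} (h' : p • δ = q • γ) (h : a • γ = b • e) :
    (a * p) • δ = (q * b) • e := by
  rw [mul_smul, h', smul_comm, h, mul_smul]

theorem LitLat_dot {e γ : Fin r → ℤ} {a b : ℤ} (h : a • γ = b • e) (c : Fin r → ℤ) :
    a * (γ ⬝ᵥ c) = b * (e ⬝ᵥ c) := by
  simpa only [smul_dotProduct, smul_eq_mul] using congrArg (· ⬝ᵥ c) h

/-- The positive rational multiples of `e`. -/
def ray (e : Fin r → ℤ) : AddSubsemigroup (Fin r → ℤ) where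
  carrier := {γ | ∃ a b : ℤ, 0 < a ∧ 0 < b ∧ a • γ = b • e}
  add_mem' := by
    rintro γ γ' ⟨a, b, ha, hb, h⟩ ⟨a', b', ha', hb', h'⟩
    exact ⟨a * a', a' * b + a * b', by positivity, by positivity, LitLat_add h h'⟩

/-- The rational multiples of `e`. -/
def line (e : Fin r → ℤ) : AddSubsemigroup (Fin r → ℤ) where
  carrier := {γ | ∃ a b : ℤ, a ≠ 0 ∧ a • γ = b • e}
  add_mem' := by
    rintro γ γ' ⟨a, b, ha, h⟩ ⟨a', b', ha', h'⟩
    exact ⟨a * a', a' * b + a * b', mul_ne_zero ha ha', LitLat_add h h'⟩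

theorem mem_posS {c γ : Fin r → ℤ} : γ ∈ posS c ↔ 0 < γ ⬝ᵥ c := Iff.rfl
theorem mem_zeroS {c γ : Fin r → ℤ} : γ ∈ zeroS c ↔ γ ⬝ᵥ c = 0 := Iff.rfl
theorem mem_nnS {c γ : Fin r → ℤ} : γ ∈ nnS c ↔ 0 ≤ γ ⬝ᵥ c := Iff.rfl
theorem mem_gtS {c γ : Fin r → ℤ} {k : ℕ} : γ ∈ gtS c k ↔ (k : ℤ) < γ ⬝ᵥ c := Iff.rfl
theorem mem_nullS {γ : Fin r → ℤ} : γ ∈ nullS r ↔ γ = 0 := Iff.rfl
theorem mem_ray {e γ : Fin r → ℤ} : γ ∈ ray e ↔ ∃ a b : ℤ, 0 < a ∧ 0 < b ∧ a • γ = b • e := Iff.rfl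
theorem mem_line {e γ : Fin r → ℤ} : γ ∈ line e ↔ ∃ a b : ℤ, a ≠ 0 ∧ a • γ = b • e := Iff.rfl

theorem self_mem_ray (e : Fin r → ℤ) : e ∈ ray e := ⟨1, 1, one_pos, one_pos, rfl⟩

theorem ray_eq_of_mem {e γ : Fin r → ℤ} (h : γ ∈ ray e) : ray γ = ray e := by
  obtain ⟨a, b, ha, hb, h⟩ := h
  ext δ
  exact ⟨fun ⟨p, q, hp, hq, h'⟩ => ⟨_, _, mul_pos ha hp, mul_pos hq hb, LitLat_trans h' h⟩,
    fun ⟨p, q, hp, hq, h'⟩ => ⟨_, _, mul_pos hb hp, mul_pos hq ha, LitLat_trans h' h.symm⟩⟩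

theorem line_eq_of_mem_ray {e γ : Fin r → ℤ} (h : γ ∈ ray e) : line γ = line e := by
  obtain ⟨a, b, ha, hb, h⟩ := h
  ext δ
  exact ⟨fun ⟨p, q, hp, h'⟩ => ⟨_, _, mul_ne_zero ha.ne' hp, LitLat_trans h' h⟩,
    fun ⟨p, q, hp, h'⟩ => ⟨_, _, mul_ne_zero hb.ne' hp, LitLat_trans h' h.symm⟩⟩

theorem line_neg (e : Fin r → ℤ) : line (-e) = line e := by
  ext δ
  exact ⟨fun ⟨p, q, hp, h⟩ => ⟨p, -q, hp, by rw [h, smul_neg, neg_smul]⟩,
    fun ⟨p, q, hp, h⟩ => ⟨p, -q, hp, by rw [h, neg_smul_neg]⟩⟩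

theorem neg_mem_ray_iff {e γ : Fin r → ℤ} : -γ ∈ ray (-e) ↔ γ ∈ ray e := by
  simp only [mem_ray, smul_neg, neg_inj]

theorem ray_le_line (e : Fin r → ℤ) : ray e ≤ line e :=
  fun _ ⟨a, b, ha, _, h⟩ => ⟨a, b, ha.ne', h⟩

theorem ray_le_posS {e c : Fin r → ℤ} (h : 0 < e ⬝ᵥ c) : ray e ≤ posS c := by
  rintro γ ⟨a, b, ha, hb, h'⟩
  exact (pos_iff_pos_of_mul_pos (LitLat_dot h' c ▸ mul_pos hb h)).1 ha

theorem line_inf_posS {e c : Fin r → ℤ} (h : 0 < e ⬝ᵥ c) : line e ⊓ posS c = ray e := by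
  refine le_antisymm ?_ (le_inf (ray_le_line e) (ray_le_posS h))
  rintro γ ⟨⟨a, b, ha, h'⟩, h1⟩
  have h2 : (a * a) • γ = (a * b) • e := by rw [mul_smul, h', mul_smul]
  exact ⟨a * a, a * b, mul_self_pos.2 ha,
    (pos_iff_pos_of_mul_pos (LitLat_dot h2 c ▸ mul_pos (mul_self_pos.2 ha) h1)).2 h, h2⟩

theorem line_le_zeroS {e c : Fin r → ℤ} (h : e ⬝ᵥ c = 0) : line e ≤ zeroS c := by
  rintro γ ⟨a, b, ha, h'⟩
  have h1 := LitLat_dot h' c
  rw [h, mul_zero] at h1
  exact (mul_eq_zero.1 h1).resolve_left ha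

/-- If `e = 0` then `γ ≠ 0`, take `c = γ`; otherwise use a nonzero two by two minor. -/
theorem exists_dot_of_not_mem_line {e γ : Fin r → ℤ} (h : γ ∉ line e) :
    ∃ c, e ⬝ᵥ c = 0 ∧ γ ⬝ᵥ c ≠ 0 := by
  by_cases he : e = 0
  · refine ⟨γ, by rw [he, zero_dotProduct], fun h0 => h ⟨1, 0, one_ne_zero, ?_⟩⟩
    rw [dotProduct_self_eq_zero.1 h0, smul_zero, zero_smul]
  obtain ⟨j, hj⟩ := Function.ne_iff.1 he
  obtain ⟨i, hi⟩ := Function.ne_iff.1 (show e j • γ ≠ γ j • e from fun h0 => h ⟨_, _, hj, h0⟩)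
  refine ⟨Pi.single i (e j) - Pi.single j (e i), ?_, fun h0 => hi ?_⟩
  · rw [dotProduct_sub, dotProduct_single, dotProduct_single, mul_comm, sub_self]
  · rw [dotProduct_sub, dotProduct_single, dotProduct_single] at h0
    simp only [Pi.smul_apply, smul_eq_mul]
    linarith

/-- Induction on `Γ`: replace `c` by `m • c + c'` with `m` large. -/
theorem exists_generic (𝒞 : AddSubgroup (Fin r → ℤ)) (Γ : Finset (Fin r → ℤ))
    (h : ∀ γ ∈ Γ, ∃ c ∈ 𝒞, γ ⬝ᵥ c ≠ 0) : ∃ c ∈ 𝒞, ∀ γ ∈ Γ, γ ⬝ᵥ c ≠ 0 := by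
  induction Γ using Finset.induction_on with
  | empty => exact ⟨0, zero_mem _, by simp⟩
  | insert γ₀ Γ _ ih =>
    obtain ⟨c, hc, h1⟩ := ih fun γ hγ => h γ (Finset.mem_insert_of_mem hγ)
    by_cases h0 : γ₀ ⬝ᵥ c = 0
    · obtain ⟨c', hc', h2⟩ := h γ₀ (Finset.mem_insert_self _ _)
      obtain ⟨m, hm⟩ := Infinite.exists_notMem_finset
        (Γ.image fun γ => -(γ ⬝ᵥ c') / (γ ⬝ᵥ c))
      refine ⟨m • c + c', add_mem (zsmul_mem hc m) hc', ?_⟩
      rw [Finset.forall_mem_insert]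
      simp only [dotProduct_add, dotProduct_smul, smul_eq_mul]
      refine ⟨by rwa [h0, mul_zero, zero_add], fun γ hγ h3 => hm (Finset.mem_image.2 ⟨γ, hγ, ?_⟩)⟩
      rw [← eq_neg_of_add_eq_zero_left h3, Int.mul_ediv_cancel _ (h1 γ hγ)]
    · exact ⟨c, hc, (Finset.forall_mem_insert _ _ _).2 ⟨h0, h1⟩⟩

/-- `c` separates the weights. -/
def Regular (wt : Fin n → Fin r → ℤ) (c : Fin r → ℤ) : Prop :=
  ∀ i j, (wt i - wt j) ⬝ᵥ c = 0 → wt i = wt j

variable {wt : Fin n → Fin r → ℤ}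

theorem Regular.neg {c : Fin r → ℤ} (h : Regular wt c) : Regular wt (-c) := fun i j h0 =>
  h i j (by rwa [dotProduct_neg, neg_eq_zero] at h0)

theorem exists_regular (wt : Fin n → Fin r → ℤ) {e : Fin r → ℤ} (he : e ≠ 0) :
    ∃ c, Regular wt c ∧ 0 < e ⬝ᵥ c := by
  obtain ⟨c, -, hc⟩ := exists_generic ⊤ (insert e ((Finset.univ.image
    fun p : Fin n × Fin n => wt p.1 - wt p.2).erase 0)) fun γ hγ => ⟨γ, trivial, fun h0 => by
      rw [dotProduct_self_eq_zero.1 h0] at hγ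
      simp [he.symm] at hγ⟩
  have h1 : Regular wt c := fun i j h0 => by
    by_contra h2
    exact hc _ (Finset.mem_insert_of_mem (Finset.mem_erase.2 ⟨sub_ne_zero.2 h2,
      Finset.mem_image.2 ⟨(i, j), Finset.mem_univ _, rfl⟩⟩)) h0
  rcases (hc e (Finset.mem_insert_self _ _)).lt_or_gt with h2 | h2
  · exact ⟨-c, h1.neg, by rwa [dotProduct_neg, neg_pos]⟩
  · exact ⟨c, h1, h2⟩

theorem exists_regular' (wt : Fin n → Fin r → ℤ) : ∃ c, Regular wt c := by
  obtain ⟨c, -, hc⟩ := exists_generic ⊤ ((Finset.univ.image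
    fun p : Fin n × Fin n => wt p.1 - wt p.2).erase 0) fun γ hγ => ⟨γ, trivial, fun h0 =>
      (Finset.mem_erase.1 hγ).1 (dotProduct_self_eq_zero.1 h0)⟩
  refine ⟨c, fun i j h0 => ?_⟩
  by_contra h2
  exact hc _ (Finset.mem_erase.2 ⟨sub_ne_zero.2 h2,
    Finset.mem_image.2 ⟨(i, j), Finset.mem_univ _, rfl⟩⟩) h0

theorem exists_line_cochar (wt : Fin n → Fin r → ℤ) (e : Fin r → ℤ) :
    ∃ c, ∀ i j, (wt i - wt j ∈ zeroS c ↔ wt i - wt j ∈ line e) := by
  classical
  obtain ⟨c, h1, hc⟩ := exists_generic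
    { carrier := {c | e ⬝ᵥ c = 0}
      zero_mem' := dotProduct_zero e
      add_mem' := fun {a b} (ha : e ⬝ᵥ a = 0) (hb : e ⬝ᵥ b = 0) =>
        show e ⬝ᵥ (a + b) = 0 by rw [dotProduct_add, ha, hb, add_zero]
      neg_mem' := fun {a} (ha : e ⬝ᵥ a = 0) =>
        show e ⬝ᵥ (-a) = 0 by rw [dotProduct_neg, ha, neg_zero] }
    ((Finset.univ.image fun p : Fin n × Fin n => wt p.1 - wt p.2).filter fun γ => γ ∉ line e)
    fun γ hγ => exists_dot_of_not_mem_line (Finset.mem_filter.1 hγ).2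
  refine ⟨c, fun i j => ⟨fun h0 => ?_, fun h0 => line_le_zeroS h1 h0⟩⟩
  by_contra h2
  exact hc _ (Finset.mem_filter.2 ⟨Finset.mem_image.2 ⟨(i, j), Finset.mem_univ _, rfl⟩, h2⟩) h0

end Pool.Agent.Work.MP_bb5f23_al.Lit
end

-- merged part: Pool.Agent.Work.MP_bb5f23_al.LitMS
section
/-! The diagonal torus with weights `wt` and the subgroups cut out by sets of weights. -/

namespace Pool.Agent.Work.MP_bb5f23_al.Lit

variable {F : Type} [Field F] {n r : ℕ}

/-- The invertible diagonal matrix with entries `x`. -/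
def dg : (Fin n → Fˣ) →* GL (Fin n) F where
  toFun x := ⟨Matrix.diagonal fun i => (x i : F), Matrix.diagonal fun i => ((x i)⁻¹ : Fˣ),
    by simp [Matrix.diagonal_mul_diagonal], by simp [Matrix.diagonal_mul_diagonal]⟩
  map_one' := by ext i j; simp
  map_mul' x y := Units.ext (by simp [Matrix.diagonal_mul_diagonal])

theorem dg_val (x : Fin n → Fˣ) : (dg x).1 = Matrix.diagonal fun i => (x i : F) := rfl

theorem dg_injective : Function.Injective (dg : (Fin n → Fˣ) → GL (Fin n) F) := by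
  intro x y h
  funext i
  have h1 := congrArg (fun g : GL (Fin n) F => g.1 i i) h
  simp only [dg_val, Matrix.diagonal_apply_eq] at h1
  exact Units.ext h1

theorem isDiag_iff {g : GL (Fin n) F} : g.1.IsDiag ↔ ∃ x, g = dg x := by
  constructor
  · intro h
    have hd : g.1.det ≠ 0 := (Matrix.isUnit_iff_isUnit_det _).1 g.isUnit |>.ne_zero
    have he : Matrix.diagonal g.1.diag = g.1 := h.diagonal_diag
    rw [← he, Matrix.det_diagonal] at hd
    have hi : ∀ i, g.1 i i ≠ 0 := fun i => Finset.prod_ne_zero_iff.1 hd i (Finset.mem_univ i)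
    exact ⟨fun i => Units.mk0 _ (hi i), Units.ext he.symm⟩
  · rintro ⟨x, rfl⟩
    exact Matrix.isDiag_diagonal _

/-- The torus. -/
def tau (wt : Fin n → Fin r → ℤ) : (Fin r → Fˣ) →* GL (Fin n) F :=
  dg.comp
    { toFun := fun z i => mon (wt i) z
      map_one' := by ext i; simp [mon_one]
      map_mul' := fun z w => by ext i; simp [mon_mul] }

/-- Its image. -/
def TT (F : Type) [Field F] (wt : Fin n → Fin r → ℤ) : Subgroup (GL (Fin n) F) := (tau wt).range

/-- The cocharacter attached to `c`. -/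
def coc (wt : Fin n → Fin r → ℤ) (c : Fin r → ℤ) (t : Fˣ) : GL (Fin n) F := tau wt (cochar c t)

/-- The matrices with entries only at weights in `S`. -/
def MS (F : Type) [Field F] (wt : Fin n → Fin r → ℤ) (S : Set (Fin r → ℤ)) :
    Submodule F (Matrix (Fin n) (Fin n) F) where
  carrier := {m | ∀ i j, m i j ≠ 0 → wt i - wt j ∈ S}
  zero_mem' i j h := (h rfl).elim
  add_mem' := by
    intro a b ha hb i j h
    by_cases h1 : a i j = 0
    · exact hb i j (by simpa [h1] using h)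
    · exact ha i j h1
  smul_mem' c m hm i j h := hm i j fun h0 => h (by simp [h0])

variable {wt : Fin n → Fin r → ℤ} {S S' : Set (Fin r → ℤ)}

theorem tau_val (z : Fin r → Fˣ) :
    (tau wt z).1 = Matrix.diagonal fun i => (mon (wt i) z : F) := rfl

theorem tau_mem (z : Fin r → Fˣ) : tau wt z ∈ TT F wt := ⟨z, rfl⟩

theorem coc_mem (c : Fin r → ℤ) (t : Fˣ) : coc wt c t ∈ TT F wt := ⟨_, rfl⟩

theorem coc_mul (c : Fin r → ℤ) (s t : Fˣ) : coc wt c (s * t) = coc wt c s * coc wt c t := by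
  simp [coc, cochar_mul]

theorem coc_one (c : Fin r → ℤ) : coc wt c (1 : Fˣ) = 1 := by
  have h : cochar c (1 : Fˣ) = 1 := by
    funext i
    simp [cochar]
  rw [coc, h, map_one]

theorem coc_inv (c : Fin r → ℤ) (t : Fˣ) : coc wt c t⁻¹ = (coc wt c t)⁻¹ := by
  rw [eq_inv_iff_mul_eq_one, ← coc_mul, inv_mul_cancel, coc_one]

theorem coc_neg (c : Fin r → ℤ) (t : Fˣ) : coc wt (-c) t = (coc wt c t)⁻¹ := by
  have h : cochar (-c) t = (cochar c t)⁻¹ := by
    funext i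
    simp [cochar]
  rw [coc, h, map_inv, coc]

theorem TT_comm {t t' : GL (Fin n) F} (ht : t ∈ TT F wt) (ht' : t' ∈ TT F wt) : t * t' = t' * t := by
  obtain ⟨z, rfl⟩ := ht
  obtain ⟨w, rfl⟩ := ht'
  rw [← map_mul, ← map_mul, mul_comm]

theorem ss_of_mem_TT [IsFbar F] {t : GL (Fin n) F} (ht : t ∈ TT F wt) : SS t := by
  obtain ⟨z, rfl⟩ := ht
  exact ss_of_isDiag (Matrix.isDiag_diagonal _)

/-- `z = ∏ i, cochar (Pi.single i 1) (z i)`. -/
theorem TT_le_of_coc {H : Subgroup (GL (Fin n) F)}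
    (h : ∀ i t, coc wt (Pi.single i 1) t ∈ H) : TT F wt ≤ H := by
  rintro _ ⟨z, rfl⟩
  have h1 : ∀ i, cochar (Pi.single i (1 : ℤ)) (z i) = Pi.mulSingle i (z i) := by
    intro i
    funext j
    by_cases hj : j = i
    · subst hj
      simp [cochar]
    · simp [cochar, hj]
  have h2 : z ∈ H.comap (tau wt) := by
    rw [← Finset.univ_prod_mulSingle z]
    refine Subgroup.prod_mem _ fun i _ => ?_
    rw [← h1]
    exact h i (z i)
  exact h2

theorem tau_conj_apply (z : Fin r → Fˣ) (m : Matrix (Fin n) (Fin n) F) (i j : Fin n) :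
    ((tau wt z).1 * m * ((tau wt z)⁻¹).1) i j = (mon (wt i - wt j) z : F) * m i j := by
  rw [← map_inv, tau_val, tau_val, Matrix.mul_diagonal, Matrix.diagonal_mul, mon_inv,
    sub_eq_add_neg, mon_add, mon_neg, Units.val_mul]
  ring

theorem coc_conj_apply (c : Fin r → ℤ) (t : Fˣ) (m : Matrix (Fin n) (Fin n) F) (i j : Fin n) :
    ((coc wt c t).1 * m * ((coc wt c t)⁻¹).1) i j = (t : F) ^ ((wt i - wt j) ⬝ᵥ c) * m i j := by
  rw [coc, tau_conj_apply, mon_cochar, Units.val_zpow_eq_zpow_val]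

theorem mem_MS {m : Matrix (Fin n) (Fin n) F} :
    m ∈ MS F wt S ↔ ∀ i j, m i j ≠ 0 → wt i - wt j ∈ S := Iff.rfl

theorem MS_mono' (h : ∀ i j, wt i - wt j ∈ S → wt i - wt j ∈ S') : MS F wt S ≤ MS F wt S' :=
  fun _ hm i j hij => h i j (hm i j hij)

theorem MS_mono (h : S ⊆ S') : MS F wt S ≤ MS F wt S' := MS_mono' fun _ _ hij => h hij

theorem mul_mem_MS {S'' : Set (Fin r → ℤ)} (h : ∀ a ∈ S, ∀ b ∈ S', a + b ∈ S'')
    {m m' : Matrix (Fin n) (Fin n) F} (hm : m ∈ MS F wt S) (hm' : m' ∈ MS F wt S') :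
    m * m' ∈ MS F wt S'' := by
  intro i j hij
  rw [Matrix.mul_apply] at hij
  obtain ⟨k, -, hk⟩ := Finset.exists_ne_zero_of_sum_ne_zero hij
  have h1 := h _ (hm i k (left_ne_zero_of_mul hk)) _ (hm' k j (right_ne_zero_of_mul hk))
  rwa [sub_add_sub_cancel] at h1

theorem diagonal_mem_MS (h : (0 : Fin r → ℤ) ∈ S) (d : Fin n → F) :
    Matrix.diagonal d ∈ MS F wt S := by
  intro i j hij
  by_cases he : i = j
  · subst he
    rwa [sub_self]
  · exact (hij (Matrix.diagonal_apply_ne d he)).elim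

theorem one_mem_MS (h : (0 : Fin r → ℤ) ∈ S) : (1 : Matrix (Fin n) (Fin n) F) ∈ MS F wt S :=
  diagonal_mem_MS h fun _ => 1

theorem exists_MS_gt_eq_bot (wt : Fin n → Fin r → ℤ) (c : Fin r → ℤ) :
    ∃ k : ℕ, MS F wt (gtS c k) = ⊥ := by
  refine ⟨Finset.univ.sup fun ij : Fin n × Fin n => ((wt ij.1 - wt ij.2) ⬝ᵥ c).toNat, ?_⟩
  rw [eq_bot_iff]
  intro m hm
  rw [Submodule.mem_bot]
  ext i j
  by_contra hij
  have h1 := mem_gtS.1 (hm i j hij)
  have h2 : ((wt i - wt j) ⬝ᵥ c).toNat ≤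
      Finset.univ.sup fun ij : Fin n × Fin n => ((wt ij.1 - wt ij.2) ⬝ᵥ c).toNat :=
    Finset.le_sup (f := fun ij : Fin n × Fin n => ((wt ij.1 - wt ij.2) ⬝ᵥ c).toNat)
      (Finset.mem_univ (i, j))
  omega

theorem isNilpotent_of_mem_MS {c : Fin r → ℤ} {m : Matrix (Fin n) (Fin n) F}
    (hm : m ∈ MS F wt (posS c)) : IsNilpotent m := by
  have h1 : ∀ k : ℕ, m ^ (k + 1) ∈ MS F wt (gtS c k) := by
    intro k
    induction k with
    | zero =>
      rw [zero_add, pow_one]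
      exact hm
    | succ k ih =>
      rw [pow_succ]
      refine mul_mem_MS (fun a ha b hb => ?_) ih hm
      have ha' : (k : ℤ) < a ⬝ᵥ c := ha
      have hb' : 0 < b ⬝ᵥ c := hb
      change ((k + 1 : ℕ) : ℤ) < (a + b) ⬝ᵥ c
      rw [add_dotProduct]
      omega
  obtain ⟨k, hk⟩ := exists_MS_gt_eq_bot (F := F) wt c
  refine ⟨k + 1, ?_⟩
  have h2 := h1 k
  rwa [hk, Submodule.mem_bot] at h2

theorem exists_unit_one_add {c : Fin r → ℤ} {m : Matrix (Fin n) (Fin n) F}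
    (hm : m ∈ MS F wt (posS c)) : ∃ u : GL (Fin n) F, u.1 = 1 + m :=
  (isNilpotent_of_mem_MS hm).isUnit_one_add

theorem LitMS_zpow (k : ℤ) :
    ∃ (P : Polynomial F) (M : ℕ), ∀ t : Fˣ, (t : F) ^ k * (t : F) ^ M = P.eval (t : F) := by
  refine ⟨Polynomial.X ^ (k + k.natAbs).toNat, k.natAbs, fun t => ?_⟩
  rw [Polynomial.eval_pow, Polynomial.eval_X, ← zpow_natCast, ← zpow_natCast,
    ← zpow_add₀ t.ne_zero]
  congr 1
  omega

theorem LitMS_entry (c : Fin r → ℤ) (i j : Fin n) :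
    ∃ (P : Polynomial F) (M : ℕ), ∀ t : Fˣ,
      (coc wt c t).1 i j * (t : F) ^ M = P.eval (t : F) := by
  by_cases h : i = j
  · subst h
    obtain ⟨P, M, hP⟩ := LitMS_zpow (F := F) (wt i ⬝ᵥ c)
    refine ⟨P, M, fun t => ?_⟩
    rw [coc, tau_val, Matrix.diagonal_apply_eq, mon_cochar, Units.val_zpow_eq_zpow_val, hP]
  · refine ⟨0, 0, fun t => ?_⟩
    rw [coc, tau_val, Matrix.diagonal_apply_ne _ h, zero_mul, Polynomial.eval_zero]

/-- Laurent expansion along a cocharacter. -/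
theorem laurent {f : GL (Fin n) F → F} (hf : f ∈ glA F n) (c : Fin r → ℤ) :
    ∃ (P : Polynomial F) (M : ℕ), ∀ t : Fˣ, f (coc wt c t) * (t : F) ^ M = P.eval (t : F) := by
  induction hf using Algebra.adjoin_induction with
  | mem f hf =>
    rcases hf with ⟨ij, rfl⟩ | ⟨ij, rfl⟩
    · exact LitMS_entry c ij.1 ij.2
    · obtain ⟨P, M, hP⟩ := LitMS_entry (F := F) (wt := wt) (-c) ij.1 ij.2
      refine ⟨P, M, fun t => ?_⟩
      rw [← hP, coc_neg]
  | algebraMap a => exact ⟨Polynomial.C a, 0, fun t => by simp⟩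
  | add f g _ _ hf hg =>
    obtain ⟨P, M, hP⟩ := hf
    obtain ⟨Q, N, hQ⟩ := hg
    refine ⟨P * Polynomial.X ^ N + Q * Polynomial.X ^ M, M + N, fun t => ?_⟩
    simp only [Polynomial.eval_add, Polynomial.eval_mul, Polynomial.eval_pow, Polynomial.eval_X,
      ← hP, ← hQ, Pi.add_apply]
    ring
  | mul f g _ _ hf hg =>
    obtain ⟨P, M, hP⟩ := hf
    obtain ⟨Q, N, hQ⟩ := hg
    refine ⟨P * Q, M + N, fun t => ?_⟩
    simp only [Polynomial.eval_mul, ← hP, ← hQ, Pi.mul_apply]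
    ring

theorem LitMS_irr_coc [Infinite F] (wt : Fin n → Fin r → ℤ) (c : Fin r → ℤ) :
    Irr (glA F n) (Set.range (coc wt c)) := by
  classical
  have h1 : Irr (linA F F) {t ∈ Set.univ | t ≠ 0} :=
    Irr.ne (c := fun t : F => t) irr_line id_mem_linA ⟨1, trivial, one_ne_zero⟩
  have h2 := h1.image (B := glA F n)
    (φ := fun t : F => if h : t = 0 then 1 else coc wt c (Units.mk0 t h)) (by
      intro f hf
      obtain ⟨P, M, hP⟩ := laurent (wt := wt) hf c
      refine ⟨fun t => P.eval t, eval_mem_linA P, fun t ht => ?_⟩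
      have ht' : t ≠ 0 := ht.2
      have h3 := hP (Units.mk0 t ht')
      rw [Units.val_mk0] at h3
      simp only [dif_neg ht', ← h3, mul_eq_zero, pow_ne_zero M ht', or_false])
  convert h2 using 1
  ext g
  constructor
  · rintro ⟨t, rfl⟩
    refine ⟨t, ⟨trivial, t.ne_zero⟩, ?_⟩
    simp only [dif_neg t.ne_zero, Units.mk0_val]
  · rintro ⟨t, ht, rfl⟩
    have ht' : t ≠ 0 := ht.2
    exact ⟨Units.mk0 t ht', by simp only [dif_neg ht']⟩

/-- The image of a cocharacter is irreducible (`laurent`, `Irr.image` from `{t | t ≠ 0}`); use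
`irr_of_forall`, `TT_le_of_coc`. -/
theorem irr_TT [Infinite F] (wt : Fin n → Fin r → ℤ) :
    Irr (glA F n) (TT F wt : Set (GL (Fin n) F)) := by
  refine irr_of_forall (S := {g | ∃ i t, g = coc wt (Pi.single i 1) t})
    (TT_le_of_coc fun i t => Subgroup.subset_closure ⟨i, t, rfl⟩) ?_
  rintro _ ⟨i, t, rfl⟩
  refine ⟨Set.range (coc wt (Pi.single i 1)), ?_, LitMS_irr_coc wt _, ⟨1, coc_one _⟩, ⟨t, rfl⟩⟩
  rintro _ ⟨s, rfl⟩
  exact coc_mem _ s

end Pool.Agent.Work.MP_bb5f23_al.Lit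
end

-- merged part: Pool.Agent.Work.MP_bb5f23_al.LitUS
section
/-! The subgroups `US G S`, contraction along cocharacters, centralisers. -/

namespace Pool.Agent.Work.MP_bb5f23_al.Lit

variable {F : Type} [Field F] [IsFbar F] {n r : ℕ}

omit [IsFbar F] in
theorem US_mul_aux {wt : Fin n → Fin r → ℤ} {S : AddSubsemigroup (Fin r → ℤ)}
    {a b : GL (Fin n) F} (ha : a.1 - 1 ∈ MS F wt S) (hb : b.1 - 1 ∈ MS F wt S) :
    (a * b).1 - 1 ∈ MS F wt S := by
  have : (a * b).1 - 1 = (a.1 - 1) * (b.1 - 1) + (a.1 - 1) + (b.1 - 1) := by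
    rw [Units.val_mul]
    noncomm_ring
  rw [this]
  exact add_mem (add_mem (mul_mem_MS (fun _ hx _ hy => S.add_mem hx hy) ha hb) ha) hb

/-- The elements `g ∈ G` with `g - 1` supported at weights in `S`. -/
def US (wt : Fin n → Fin r → ℤ) (G : Subgroup (GL (Fin n) F)) (S : AddSubsemigroup (Fin r → ℤ)) :
    Subgroup (GL (Fin n) F) where
  carrier := {g | g ∈ G ∧ g.1 - 1 ∈ MS F wt S}
  one_mem' := ⟨G.one_mem, by simp⟩
  mul_mem' ha hb := ⟨G.mul_mem ha.1 hb.1, US_mul_aux ha.2 hb.2⟩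
  inv_mem' {g} hg := by
    refine ⟨G.inv_mem hg.1, ?_⟩
    have hp : ∀ m : ℕ, (g ^ m).1 - 1 ∈ MS F wt S := by
      intro m
      induction m with
      | zero => simp
      | succ m ih => rw [pow_succ]; exact US_mul_aux ih hg.2
    obtain ⟨m, hm⟩ := (Submonoid.mem_powers_iff _ _).1
      ((finOrd g).mem_powers_iff_mem_zpowers.2 (Subgroup.inv_mem _ (Subgroup.mem_zpowers g)))
    rw [← hm]
    exact hp m

variable {wt : Fin n → Fin r → ℤ} {G G' : Subgroup (GL (Fin n) F)}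
  {S S' : AddSubsemigroup (Fin r → ℤ)} {c : Fin r → ℤ}

theorem mem_US {g : GL (Fin n) F} : g ∈ US wt G S ↔ g ∈ G ∧ g.1 - 1 ∈ MS F wt S := Iff.rfl

theorem mem_US_of_zero_mem (h : (0 : Fin r → ℤ) ∈ S) {g : GL (Fin n) F} :
    g ∈ US wt G S ↔ g ∈ G ∧ g.1 ∈ MS F wt S := by
  have h1 : (1 : Matrix (Fin n) (Fin n) F) ∈ MS F wt S := one_mem_MS h
  rw [mem_US]
  refine and_congr_right fun _ => ⟨fun hg => ?_, fun hg => sub_mem hg h1⟩
  simpa using add_mem hg h1

theorem US_le : US wt G S ≤ G := fun _ h => h.1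

theorem US_mono' (hG : G ≤ G') (h : ∀ i j, wt i - wt j ∈ S → wt i - wt j ∈ S') :
    US wt G S ≤ US wt G' S' := fun _ hg => ⟨hG hg.1, MS_mono' h hg.2⟩

theorem US_mono (hG : G ≤ G') (h : S ≤ S') : US wt G S ≤ US wt G' S' :=
  US_mono' hG fun _ _ hij => h hij

theorem US_congr (h : ∀ i j, wt i - wt j ∈ S ↔ wt i - wt j ∈ S') : US wt G S = US wt G S' :=
  le_antisymm (US_mono' le_rfl fun i j => (h i j).1) (US_mono' le_rfl fun i j => (h i j).2)

theorem US_US : US wt (US wt G S) S' = US wt G (S ⊓ S') := by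
  ext g
  exact ⟨fun h => ⟨h.1.1, fun i j hij => ⟨h.1.2 i j hij, h.2 i j hij⟩⟩,
    fun h => ⟨⟨h.1, fun i j hij => (h.2 i j hij).1⟩, fun i j hij => (h.2 i j hij).2⟩⟩

theorem US_inf : US wt G (S ⊓ S') = US wt G S ⊓ US wt G S' := by
  ext g
  exact ⟨fun h => ⟨⟨h.1, fun i j hij => (h.2 i j hij).1⟩, ⟨h.1, fun i j hij => (h.2 i j hij).2⟩⟩,
    fun h => ⟨h.1.1, fun i j hij => ⟨h.1.2 i j hij, h.2.2 i j hij⟩⟩⟩

theorem US_eq_inf : US wt G S = G ⊓ US wt ⊤ S := by
  ext g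
  exact ⟨fun h => ⟨h.1, trivial, h.2⟩, fun h => ⟨h.1, h.2.2⟩⟩

omit [IsFbar F] in
theorem LitUS_eq_zero {A B : Set (Fin r → ℤ)} (h : ∀ x ∈ A, x ∉ B) {m : Matrix (Fin n) (Fin n) F}
    (hA : m ∈ MS F wt A) (hB : m ∈ MS F wt B) : m = 0 := by
  ext i j
  by_contra hij
  exact h _ (hA i j hij) (hB i j hij)

theorem US_eq_bot (h : ∀ i j, wt i - wt j ∉ S) : US wt G S = ⊥ := by
  refine (Subgroup.eq_bot_iff_forall _).2 fun g hg => Units.ext (sub_eq_zero.1 ?_)
  ext i j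
  by_contra hij
  exact h i j (hg.2 i j hij)

theorem US_pos_inf_nn : US wt G (posS (-c)) ⊓ US wt G' (nnS c) = ⊥ := by
  refine (Subgroup.eq_bot_iff_forall _).2 fun g hg => Units.ext (sub_eq_zero.1 ?_)
  refine LitUS_eq_zero (fun x hx hx' => ?_) hg.1.2 hg.2.2
  have h1 : 0 < x ⬝ᵥ (-c) := hx
  have h2 : 0 ≤ x ⬝ᵥ c := hx'
  rw [dotProduct_neg] at h1
  omega

theorem Regular.US_zeroS (h : Regular wt c) : US wt G (zeroS c) = US wt G (nullS r) :=
  US_congr fun i j => ⟨fun hij => mem_nullS.2 (sub_eq_zero.2 (h i j hij)), fun hij => by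
    rw [mem_zeroS, mem_nullS.1 hij, zero_dotProduct]⟩

theorem Cl.US (h : Cl (glA F n) (G : Set (GL (Fin n) F))) :
    Cl (glA F n) (US wt G S : Set (GL (Fin n) F)) := by
  intro g hg
  refine ⟨h (zcl_mono (fun _ hx => hx.1) hg), fun i j hij => ?_⟩
  by_contra hS
  refine hij (hg (fun x => (x.1 - 1) i j) ?_ fun s hs => ?_)
  · have : (fun x : GL (Fin n) F => (x.1 - 1) i j) = (fun x : GL (Fin n) F => x.1 i j) -
        algebraMap F _ ((1 : Matrix (Fin n) (Fin n) F) i j) := by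
      ext x
      simp
    rw [this]
    exact sub_mem (entry_mem i j) (Subalgebra.algebraMap_mem _ _)
  · by_contra h0
    exact hS (hs.2 i j h0)

theorem TT_le_US (hT : TT F wt ≤ G) (h : (0 : Fin r → ℤ) ∈ S) : TT F wt ≤ US wt G S := by
  rintro _ ⟨z, rfl⟩
  exact (mem_US_of_zero_mem h).2 ⟨hT (tau_mem z), by rw [tau_val]; exact diagonal_mem_MS h _⟩

omit [IsFbar F] in
theorem LitUS_conj (p u : GL (Fin n) F) :
    (p * u * p⁻¹).1 - 1 = p.1 * (u.1 - 1) * (p⁻¹).1 := by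
  rw [Units.val_mul, Units.val_mul, mul_sub, sub_mul, mul_one, Units.mul_inv]

theorem conj_mem_US (hT : TT F wt ≤ G) {t g : GL (Fin n) F} (ht : t ∈ TT F wt)
    (hg : g ∈ US wt G S) : t * g * t⁻¹ ∈ US wt G S := by
  refine ⟨G.mul_mem (G.mul_mem (hT ht) hg.1) (G.inv_mem (hT ht)), ?_⟩
  obtain ⟨z, rfl⟩ := ht
  rw [LitUS_conj]
  intro i j hij
  rw [tau_conj_apply] at hij
  exact hg.2 i j (right_ne_zero_of_mul hij)

theorem isUnip_US (h : S ≤ posS c) : IsUnip (US wt G S) :=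
  fun _ hg => isNilpotent_of_mem_MS (MS_mono (fun _ hx => h hx) hg.2)

theorem LitUS_zero_nn : (0 : Fin r → ℤ) ∈ nnS c := by simp [mem_nnS]

theorem LitUS_zero_zero : (0 : Fin r → ℤ) ∈ zeroS c := by simp [mem_zeroS]

/-- `p u p⁻¹ - 1 = p (u - 1) p⁻¹`. -/
theorem nn_conj_gt (k : ℕ) {p u : GL (Fin n) F} (hp : p ∈ US wt G (nnS c))
    (hu : u ∈ US wt G (gtS c k)) : p * u * p⁻¹ ∈ US wt G (gtS c k) := by
  refine ⟨G.mul_mem (G.mul_mem hp.1 hu.1) (G.inv_mem hp.1), ?_⟩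
  rw [LitUS_conj]
  have h1 := ((mem_US_of_zero_mem LitUS_zero_nn).1 hp).2
  have h2 := ((mem_US_of_zero_mem LitUS_zero_nn).1 (inv_mem hp)).2
  refine mul_mem_MS (S := gtS c k) (S' := nnS c) (fun a ha b hb => ?_)
    (mul_mem_MS (fun a ha b hb => ?_) h1 hu.2) h2
  · have ha' : (k : ℤ) < a ⬝ᵥ c := ha
    have hb' : 0 ≤ b ⬝ᵥ c := hb
    change (k : ℤ) < (a + b) ⬝ᵥ c
    rw [add_dotProduct]
    omega
  · have ha' : 0 ≤ a ⬝ᵥ c := ha
    have hb' : (k : ℤ) < b ⬝ᵥ c := hb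
    change (k : ℤ) < (a + b) ⬝ᵥ c
    rw [add_dotProduct]
    omega

theorem nn_conj_pos {p u : GL (Fin n) F} (hp : p ∈ US wt G (nnS c))
    (hu : u ∈ US wt G (posS c)) : p * u * p⁻¹ ∈ US wt G (posS c) :=
  nn_conj_gt 0 hp hu

/-- `a b a⁻¹ b⁻¹ - 1 = (a b - b a) a⁻¹ b⁻¹` and `a b - b a = (a-1)(b-1) - (b-1)(a-1)`. -/
theorem comm_mem_US {S'' : AddSubsemigroup (Fin r → ℤ)} (h : ∀ x ∈ S, ∀ y ∈ S', x + y ∈ S'')
    (h1 : ∀ x ∈ S'', ∀ y ∈ S, x + y ∈ S'') (h2 : ∀ x ∈ S'', ∀ y ∈ S', x + y ∈ S'')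
    {a b : GL (Fin n) F} (ha : a ∈ US wt G S) (hb : b ∈ US wt G S') :
    a * b * a⁻¹ * b⁻¹ ∈ US wt G S'' := by
  refine ⟨G.mul_mem (G.mul_mem (G.mul_mem ha.1 hb.1) (G.inv_mem ha.1)) (G.inv_mem hb.1), ?_⟩
  have hx : (a.1 - 1) * (b.1 - 1) - (b.1 - 1) * (a.1 - 1) ∈ MS F wt S'' :=
    sub_mem (mul_mem_MS h ha.2 hb.2)
      (mul_mem_MS (fun x hx y hy => by rw [add_comm]; exact h y hy x hx) hb.2 ha.2)
  have key : ∀ {T : AddSubsemigroup (Fin r → ℤ)}, (∀ x ∈ S'', ∀ y ∈ T, x + y ∈ S'') →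
      ∀ {m : Matrix (Fin n) (Fin n) F} {g : GL (Fin n) F}, m ∈ MS F wt S'' → g ∈ US wt G T →
        m * g.1 ∈ MS F wt S'' := by
    intro T hT m g hm hg
    have : m * g.1 = m * (g.1 - 1) + m := by noncomm_ring
    rw [this]
    exact add_mem (mul_mem_MS hT hm hg.2) hm
  have e : (a * b * a⁻¹ * b⁻¹).1 - 1 =
      ((a.1 - 1) * (b.1 - 1) - (b.1 - 1) * (a.1 - 1)) * (a⁻¹).1 * (b⁻¹).1 := by
    have : (a.1 - 1) * (b.1 - 1) - (b.1 - 1) * (a.1 - 1) = a.1 * b.1 - b.1 * a.1 := by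
      noncomm_ring
    rw [this, sub_mul, sub_mul, Units.mul_inv_cancel_right, Units.mul_inv]
    simp only [Units.val_mul]
  rw [e]
  exact key h2 (key h1 hx (inv_mem ha)) (inv_mem hb)

/-- The rescaled matrix. -/
def LitUS_sc (wt : Fin n → Fin r → ℤ) (c : Fin r → ℤ) (t : F) (m : Matrix (Fin n) (Fin n) F) :
    Matrix (Fin n) (Fin n) F := Matrix.of fun i j => t ^ ((wt i - wt j) ⬝ᵥ c).toNat * m i j

omit [IsFbar F] in
theorem LitUS_sc_one (t : F) : LitUS_sc wt c t 1 = 1 := by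
  ext i j
  by_cases h : i = j
  · subst h
    simp [LitUS_sc]
  · simp [LitUS_sc, Matrix.one_apply_ne h]

omit [IsFbar F] in
theorem LitUS_sc_mul (t : F) {m m' : Matrix (Fin n) (Fin n) F} (hm : m ∈ MS F wt (nnS c))
    (hm' : m' ∈ MS F wt (nnS c)) :
    LitUS_sc wt c t m * LitUS_sc wt c t m' = LitUS_sc wt c t (m * m') := by
  ext i j
  simp only [LitUS_sc, Matrix.mul_apply, Matrix.of_apply, Finset.mul_sum]
  refine Finset.sum_congr rfl fun k _ => ?_
  by_cases h1 : m i k = 0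
  · simp [h1]
  by_cases h2 : m' k j = 0
  · simp [h2]
  have a1 : 0 ≤ (wt i - wt k) ⬝ᵥ c := hm i k h1
  have a2 : 0 ≤ (wt k - wt j) ⬝ᵥ c := hm' k j h2
  have e : (wt i - wt j) ⬝ᵥ c = (wt i - wt k) ⬝ᵥ c + (wt k - wt j) ⬝ᵥ c := by
    rw [← add_dotProduct, sub_add_sub_cancel]
  rw [e, Int.toNat_add a1 a2, pow_add]
  ring

omit [IsFbar F] in
theorem LitUS_sc_mem (m : Matrix (Fin n) (Fin n) F) (i j : Fin n) :
    (fun t => LitUS_sc wt c t m i j) ∈ linA F F := by
  have : (fun t => LitUS_sc wt c t m i j) =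
      (fun t : F => t) ^ ((wt i - wt j) ⬝ᵥ c).toNat * algebraMap F _ (m i j) := by
    ext t
    simp [LitUS_sc]
  rw [this]
  exact mul_mem (pow_mem id_mem_linA _) (Subalgebra.algebraMap_mem _ _)

theorem LitUS_pos_le_nn : posS c ≤ nnS c := fun _ hx => le_of_lt (mem_posS.1 hx)

theorem LitUS_zero_le_nn : zeroS c ≤ nnS c := fun _ hx => le_of_eq (mem_zeroS.1 hx).symm

/-- The contraction: `γ t` has entries `t ^ ((wt i - wt j) ⬝ᵥ c).toNat * u i j`; its inverse is the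
same expression for `u⁻¹` (a polynomial identity in `t`, or check `t = 0` and `t ≠ 0`). -/
theorem exists_contr {u : GL (Fin n) F} (hu : u ∈ US wt ⊤ (posS c)) :
    ∃ γ : F → GL (Fin n) F, Reg (linA F F) (glA F n) γ ∧ γ 0 = 1 ∧
      ∀ t : Fˣ, γ t = coc wt c t * u * (coc wt c t)⁻¹ := by
  have hn : u ∈ US wt ⊤ (nnS c) := US_mono le_rfl LitUS_pos_le_nn hu
  have h1 := ((mem_US_of_zero_mem LitUS_zero_nn).1 hn).2
  have h2 := ((mem_US_of_zero_mem LitUS_zero_nn).1 (inv_mem hn)).2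
  refine ⟨fun t => ⟨LitUS_sc wt c t u.1, LitUS_sc wt c t (u⁻¹).1, ?_, ?_⟩, ?_, ?_, ?_⟩
  · rw [LitUS_sc_mul t h1 h2, Units.mul_inv, LitUS_sc_one]
  · rw [LitUS_sc_mul t h2 h1, Units.inv_mul, LitUS_sc_one]
  · exact reg_glA (fun i j => LitUS_sc_mem _ i j) fun i j => LitUS_sc_mem _ i j
  · refine Units.ext ?_
    ext i j
    change (0 : F) ^ ((wt i - wt j) ⬝ᵥ c).toNat * u.1 i j = (1 : Matrix (Fin n) (Fin n) F) i j
    by_cases hij : 0 < (wt i - wt j) ⬝ᵥ c
    · have hne : i ≠ j := by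
        rintro rfl
        simp at hij
      rw [zero_pow (by omega), zero_mul, Matrix.one_apply_ne hne]
    · have h0 : (u.1 - 1) i j = 0 := by
        by_contra h0
        exact hij (hu.2 i j h0)
      rw [Int.toNat_of_nonpos (not_lt.1 hij), pow_zero, one_mul]
      exact sub_eq_zero.1 h0
  · intro t
    refine Units.ext ?_
    ext i j
    rw [Units.val_mul, Units.val_mul, coc_conj_apply]
    change (t : F) ^ ((wt i - wt j) ⬝ᵥ c).toNat * u.1 i j = _
    by_cases h0 : u.1 i j = 0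
    · simp [h0]
    · have : 0 ≤ (wt i - wt j) ⬝ᵥ c := h1 i j h0
      rw [← zpow_natCast, Int.toNat_of_nonneg this]

omit [IsFbar F] in
theorem LitUS_split {m : Matrix (Fin n) (Fin n) F} (hm : m ∈ MS F wt (nnS c)) :
    ∃ b ∈ MS F wt (zeroS c), ∃ v ∈ MS F wt (posS c), m = b + v := by
  refine ⟨Matrix.of fun i j => if (wt i - wt j) ⬝ᵥ c = 0 then m i j else 0, fun i j hij => ?_,
    Matrix.of fun i j => if (wt i - wt j) ⬝ᵥ c = 0 then 0 else m i j, fun i j hij => ?_, ?_⟩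
  · by_contra h
    exact hij (if_neg h)
  · by_cases h : (wt i - wt j) ⬝ᵥ c = 0
    · exact (hij (if_pos h)).elim
    · have h0 : m i j ≠ 0 := fun h0 => hij ((if_neg h).trans h0)
      exact lt_of_le_of_ne (hm i j h0) (Ne.symm h)
  · ext i j
    by_cases h : (wt i - wt j) ⬝ᵥ c = 0 <;> simp only [Matrix.add_apply, Matrix.of_apply, h] <;> simp

theorem LitUS_disj : ∀ x ∈ (zeroS c : Set (Fin r → ℤ)), x ∉ (posS c : Set (Fin r → ℤ)) :=
  fun _ hx hx' => (mem_posS.1 hx').ne' (mem_zeroS.1 hx)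

theorem LitUS_zp : ∀ a ∈ (zeroS c : Set (Fin r → ℤ)), ∀ b ∈ (posS c : Set (Fin r → ℤ)),
    a + b ∈ (posS c : Set (Fin r → ℤ)) := fun a ha b hb => by
  change 0 < (a + b) ⬝ᵥ c
  rw [add_dotProduct, mem_zeroS.1 ha, zero_add]
  exact hb

/-- The block diagonal part `b` of `p` is invertible with inverse the block diagonal part of
`p⁻¹`. -/
theorem exists_levi {p : GL (Fin n) F} (hp : p ∈ US wt ⊤ (nnS c)) :
    ∃ b ∈ US wt ⊤ (zeroS c), ∃ u ∈ US wt ⊤ (posS c), p = b * u := by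
  have h1 := ((mem_US_of_zero_mem LitUS_zero_nn).1 hp).2
  have h2 := ((mem_US_of_zero_mem LitUS_zero_nn).1 (inv_mem hp)).2
  obtain ⟨b, hb, v, hv, e⟩ := LitUS_split h1
  obtain ⟨b', hb', v', hv', e'⟩ := LitUS_split h2
  have hbb : b' * b = 1 := by
    have h3 : 1 - b' * b = b' * v + v' * b + v' * v := by
      rw [← Units.inv_mul p, e', e]
      noncomm_ring
    refine (sub_eq_zero.1 (LitUS_eq_zero (wt := wt) (LitUS_disj (c := c)) ?_ ?_)).symm
    · exact sub_mem (one_mem_MS LitUS_zero_zero)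
        (mul_mem_MS (fun _ hx _ hy => (zeroS c).add_mem hx hy) hb' hb)
    · rw [h3]
      exact add_mem (add_mem (mul_mem_MS LitUS_zp hb' hv)
        (mul_mem_MS (fun x hx y hy => by rw [add_comm]; exact LitUS_zp y hy x hx) hv' hb))
        (mul_mem_MS (fun _ hx _ hy => (posS c).add_mem hx hy) hv' hv)
  let B : GL (Fin n) F := ⟨b, b', mul_eq_one_comm.1 hbb, hbb⟩
  refine ⟨B, (mem_US_of_zero_mem LitUS_zero_zero).2 ⟨trivial, hb⟩, B⁻¹ * p, ⟨trivial, ?_⟩,
    (mul_inv_cancel_left _ _).symm⟩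
  have h4 : (B⁻¹ * p).1 - 1 = b' * v := by
    change b' * p.1 - 1 = _
    rw [e, mul_add, hbb, add_sub_cancel_left]
  rw [h4]
  exact mul_mem_MS LitUS_zp hb' hv

theorem LU_unique {a a' b b' u u' : GL (Fin n) F} (ha : a ∈ US wt ⊤ (posS (-c)))
    (ha' : a' ∈ US wt ⊤ (posS (-c))) (hb : b ∈ US wt ⊤ (zeroS c)) (hb' : b' ∈ US wt ⊤ (zeroS c))
    (hu : u ∈ US wt ⊤ (posS c)) (hu' : u' ∈ US wt ⊤ (posS c)) (h : a * b * u = a' * b' * u') :
    a = a' ∧ b = b' ∧ u = u' := by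
  have hz := US_mono (wt := wt) (G := (⊤ : Subgroup (GL (Fin n) F))) le_rfl
    (LitUS_zero_le_nn (c := c))
  have hp := US_mono (wt := wt) (G := (⊤ : Subgroup (GL (Fin n) F))) le_rfl
    (LitUS_pos_le_nn (c := c))
  have e1 : a'⁻¹ * a = b' * u' * u⁻¹ * b⁻¹ := by
    have : a = a' * b' * u' * u⁻¹ * b⁻¹ := by rw [← h]; group
    rw [this]
    group
  have h1 : a'⁻¹ * a ∈ US wt ⊤ (posS (-c)) ⊓ US wt ⊤ (nnS c) :=
    Subgroup.mem_inf.2 ⟨mul_mem (inv_mem ha') ha, by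
      rw [e1]
      exact mul_mem (mul_mem (mul_mem (hz hb') (hp hu')) (inv_mem (hp hu))) (inv_mem (hz hb))⟩
  rw [US_pos_inf_nn, Subgroup.mem_bot, inv_mul_eq_one] at h1
  subst h1
  rw [mul_assoc, mul_assoc, mul_right_inj] at h
  have e2 : b'⁻¹ * b = u' * u⁻¹ := by
    have : b = b' * u' * u⁻¹ := by rw [← h]; group
    rw [this]
    group
  have h2 : b'⁻¹ * b = 1 := by
    refine Units.ext (sub_eq_zero.1 (LitUS_eq_zero (wt := wt) (LitUS_disj (c := c)) ?_ ?_))
    · exact (mul_mem (inv_mem hb') hb : b'⁻¹ * b ∈ US wt ⊤ (zeroS c)).2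
    · rw [e2]
      exact (mul_mem hu' (inv_mem hu) : u' * u⁻¹ ∈ US wt ⊤ (posS c)).2
  rw [inv_mul_eq_one] at h2
  subst h2
  exact ⟨rfl, rfl, mul_left_cancel h⟩

variable [IsAlgClosed F]

/-- A subgroup contracted by a cocharacter is irreducible (`irr_of_forall`, `exists_contr`). -/
theorem irr_of_coc_stable {Q : Subgroup (GL (Fin n) F)} (hQ : Q ≤ US wt ⊤ (posS c))
    (h : ∀ t, ∀ q ∈ Q, coc wt c t * q * (coc wt c t)⁻¹ ∈ Q) :
    Irr (glA F n) (Q : Set (GL (Fin n) F)) := by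
  refine irr_of_forall (S := Q) (fun _ hx => Subgroup.subset_closure hx) fun s hs => ?_
  obtain ⟨γ, hγ, h0, h1⟩ := exists_contr (hQ hs)
  refine ⟨γ '' Set.univ, ?_, irr_line.image (hγ.regOn _).zreg, ⟨0, trivial, h0⟩,
    ⟨(1 : Fˣ), trivial, ?_⟩⟩
  · rintro _ ⟨t, -, rfl⟩
    by_cases ht : t = 0
    · rw [ht, h0]
      exact Q.one_mem
    · have := h1 (Units.mk0 t ht)
      rw [Units.val_mk0] at this
      rw [this]
      exact h _ _ hs
  · rw [h1, coc_one, one_mul, inv_one, mul_one]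

theorem irr_US (hT : TT F wt ≤ G) (h : S ≤ posS c) :
    Irr (glA F n) (US wt G S : Set (GL (Fin n) F)) :=
  irr_of_coc_stable (US_mono le_top h) fun t _ hq => conj_mem_US hT (coc_mem c t) hq

omit [IsFbar F] [IsAlgClosed F] in
theorem LitUS_comm (z : Fin r → Fˣ) (g : GL (Fin n) F) : tau wt z * g = g * tau wt z ↔
    ∀ i j, g.1 i j ≠ 0 → mon (wt i - wt j) z = 1 := by
  rw [← mul_inv_eq_iff_eq_mul, Units.ext_iff, ← Matrix.ext_iff]
  refine forall_congr' fun i => forall_congr' fun j => ?_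
  rw [Units.val_mul, Units.val_mul, tau_conj_apply]
  refine ⟨fun h h0 => Units.ext (mul_right_cancel₀ h0 (by simpa using h)), fun h => ?_⟩
  by_cases h0 : g.1 i j = 0
  · simp [h0]
  · simp [h h0]

theorem comm_coc_iff {g : GL (Fin n) F} :
    (∀ t, coc wt c t * g = g * coc wt c t) ↔ g ∈ US wt ⊤ (zeroS c) := by
  rw [mem_US_of_zero_mem LitUS_zero_zero]
  simp only [coc, LitUS_comm, mon_cochar]
  refine ⟨fun h => ⟨trivial, fun i j hij => eq_zero_of_forall_zpow fun t => h t i j hij⟩,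
    fun h t i j hij => ?_⟩
  rw [mem_zeroS.1 (h.2 i j hij), zpow_zero]

theorem comm_TT_iff {g : GL (Fin n) F} :
    (∀ t ∈ TT F wt, t * g = g * t) ↔ g ∈ US wt ⊤ (nullS r) := by
  rw [mem_US_of_zero_mem (mem_nullS.2 rfl)]
  refine ⟨fun h => ⟨trivial, fun i j hij => mem_nullS.2 (mon_inj (F := F) fun z => ?_)⟩, ?_⟩
  · rw [mon_zero]
    exact (LitUS_comm z g).1 (h _ (tau_mem z)) i j hij
  · rintro h _ ⟨z, rfl⟩
    refine (LitUS_comm z g).2 fun i j hij => ?_
    rw [mem_nullS.1 (h.2 i j hij), mon_zero]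

end Pool.Agent.Work.MP_bb5f23_al.Lit
end

-- merged part: Pool.Agent.Work.MP_bb5f23_al.LitFibre
section
/-! Closed cones: finiteness of linear projections. -/

namespace Pool.Agent.Work.MP_bb5f23_al.Lit

variable {F : Type} [Field F] {L : Type} [AddCommGroup L] [Module F L]

/-- A closed cone. -/
structure IsCone (F : Type) [Field F] {L : Type} [AddCommGroup L] [Module F L] (Y : Set L) :
    Prop where
  cl : Cl (linA F L) Y
  smul : ∀ (a : F), ∀ y ∈ Y, a • y ∈ Y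

theorem IsCone.inter {Y Y' : Set L} (h : IsCone F Y) (h' : IsCone F Y') : IsCone F (Y ∩ Y') :=
  ⟨h.cl.inter h'.cl, fun a y hy => ⟨h.smul a y hy.1, h'.smul a y hy.2⟩⟩

theorem isCone_submodule (W : Submodule F L) : IsCone F (W : Set L) :=
  ⟨cl_submodule W, fun a _ hy => W.smul_mem a hy⟩

theorem isCone_zcl {S : Set L} (h : ∀ (a : F), ∀ y ∈ S, a • y ∈ S) :
    IsCone F (zcl (linA F L) S) :=
  ⟨cl_zcl _ _, fun a => (reg_linear (a • LinearMap.id : L →ₗ[F] L)).mapsTo_zcl (h a)⟩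

/-- Polynomials as functions on a set. -/
noncomputable def LitFibre_ev {ι : Type} (Φ : Set (ι → F)) : MvPolynomial ι F →ₐ[F] (Φ → F) :=
  MvPolynomial.aeval fun i y => y.1 i

theorem LitFibre_ev_apply {ι : Type} (Φ : Set (ι → F)) (P : MvPolynomial ι F) (y : Φ) :
    LitFibre_ev Φ P y = MvPolynomial.eval y.1 P := by
  induction P using MvPolynomial.induction_on with
  | C a => simp [LitFibre_ev]
  | add p q hp hq => simp [hp, hq]
  | mul_X p i hp =>
    rw [map_mul, map_mul, Pi.mul_apply, hp]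
    simp [LitFibre_ev]

theorem LitFibre_mem {ι : Type} [Fintype ι] {Φ : Set (ι → F)} {N : ℕ}
    (h : ∀ i, ∃ P : MvPolynomial ι F, P.totalDegree < N ∧
      ∀ y ∈ Φ, y i ^ N = MvPolynomial.eval y P) (d : ℕ) :
    ∀ P : MvPolynomial ι F, P.totalDegree ≤ d → LitFibre_ev Φ P ∈
      (MvPolynomial.restrictTotalDegree ι F (Fintype.card ι * N)).map
        (LitFibre_ev Φ).toLinearMap := by
  classical
  induction d using Nat.strong_induction_on with
  | _ d ih =>
  intro P hP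
  rw [P.as_sum, map_sum]
  refine Submodule.sum_mem _ fun s hs => ?_
  have hsd : (s.sum fun _ e => e) ≤ d := (MvPolynomial.le_totalDegree hs).trans hP
  by_cases hs' : (s.sum fun _ e => e) ≤ Fintype.card ι * N
  · exact ⟨_, (MvPolynomial.mem_restrictTotalDegree _ _ _).2
      ((MvPolynomial.totalDegree_monomial_le _ _).trans hs'), rfl⟩
  · have : ∃ i, N ≤ s i := by
      by_contra hc
      push Not at hc
      apply hs'
      rw [Finsupp.sum_fintype _ _ (fun _ => rfl)]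
      calc ∑ i, s i ≤ ∑ _i : ι, N := Finset.sum_le_sum fun i _ => (hc i).le
        _ = Fintype.card ι * N := by simp
    obtain ⟨i, hi⟩ := this
    obtain ⟨Q, hQ, hQ'⟩ := h i
    obtain ⟨s', rfl⟩ : ∃ s', s = s' + Finsupp.single i N :=
      ⟨s - Finsupp.single i N, (tsub_add_cancel_of_le (Finsupp.single_le_iff.2 hi)).symm⟩
    have e1 : ((s' + Finsupp.single i N).sum fun _ e => e) = (s'.sum fun _ e => e) + N := by
      rw [Finsupp.sum_add_index' (fun _ => rfl) (fun _ _ _ => rfl), Finsupp.sum_single_index rfl]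
    have e2 : LitFibre_ev Φ (MvPolynomial.monomial (s' + Finsupp.single i N)
        (MvPolynomial.coeff (s' + Finsupp.single i N) P)) = LitFibre_ev Φ (MvPolynomial.monomial s'
        (MvPolynomial.coeff (s' + Finsupp.single i N) P) * Q) := by
      funext y
      rw [MvPolynomial.monomial_add_single, LitFibre_ev_apply, LitFibre_ev_apply, map_mul, map_mul,
        map_pow, MvPolynomial.eval_X, hQ' y.1 y.2]
    rw [e2]
    refine ih ((s'.sum fun _ e => e) + Q.totalDegree) (by omega) _ ?_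
    exact (MvPolynomial.totalDegree_mul _ _).trans
      (Nat.add_le_add_right (MvPolynomial.totalDegree_monomial_le _ _) _)

theorem LitFibre_eval_smul {ι : Type} {P : MvPolynomial ι F} {k : ℕ} (hP : P.IsHomogeneous k)
    (t : F) (x : ι → F) : MvPolynomial.eval (t • x) P = MvPolynomial.eval x P * t ^ k := by
  rw [MvPolynomial.eval_eq, MvPolynomial.eval_eq, Finset.sum_mul]
  refine Finset.sum_congr rfl fun s hs => ?_
  have hk : ∑ i ∈ s.support, s i = k := by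
    have := hP (MvPolynomial.mem_support_iff.1 hs)
    simpa [Finsupp.weight_apply, Finsupp.sum] using this
  simp only [Pi.smul_apply, smul_eq_mul, mul_pow, Finset.prod_mul_distrib,
    Finset.prod_pow_eq_pow_sum, hk]
  ring

theorem LitFibre_line {ι : Type} (g : MvPolynomial ι F) (x : ι → F) : ∃ q : Polynomial F,
    (∀ t, q.eval t = MvPolynomial.eval (t • x) g) ∧
      ∀ k, q.coeff k = MvPolynomial.eval x (MvPolynomial.homogeneousComponent k g) := by
  refine ⟨∑ k ∈ Finset.range (g.totalDegree + 1),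
    Polynomial.monomial k (MvPolynomial.eval x (MvPolynomial.homogeneousComponent k g)), ?_, ?_⟩
  · intro t
    conv_rhs => rw [← g.sum_homogeneousComponent]
    rw [Polynomial.eval_finset_sum, map_sum]
    refine Finset.sum_congr rfl fun k _ => ?_
    rw [Polynomial.eval_monomial,
      LitFibre_eval_smul (MvPolynomial.homogeneousComponent_isHomogeneous k g)]
  · intro k
    rw [Polynomial.finset_sum_coeff]
    simp only [Polynomial.coeff_monomial]
    rw [Finset.sum_ite_eq' ]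
    split_ifs with hk
    · rfl
    · rw [MvPolynomial.homogeneousComponent_eq_zero _ _ (by simpa using hk), map_zero]

/-- If every coordinate satisfies `x i ^ N = (polynomial of total degree < N)` on `Φ`, the functions
on `Φ` given by polynomials are spanned by the monomials of degree `≤ card ι * N` (strong induction
on the degree), so they form a finite dimensional space; they separate points (Lagrange type
indicator polynomials on any finite subset), so `Φ` is finite. -/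
theorem finite_of_pow {ι : Type} [Fintype ι] {Φ : Set (ι → F)} {N : ℕ}
    (h : ∀ i, ∃ P : MvPolynomial ι F, P.totalDegree < N ∧
      ∀ y ∈ Φ, y i ^ N = MvPolynomial.eval y P) : Φ.Finite := by
  have hfg : (Subalgebra.toSubmodule (LitFibre_ev Φ).range).FG := by
    have e : Subalgebra.toSubmodule (LitFibre_ev Φ).range =
        (MvPolynomial.restrictTotalDegree ι F (Fintype.card ι * N)).map
          (LitFibre_ev Φ).toLinearMap := by
      apply le_antisymm
      · rintro _ ⟨P, rfl⟩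
        exact LitFibre_mem h _ P le_rfl
      · rintro _ ⟨P, -, rfl⟩
        exact ⟨P, rfl⟩
    rw [e]
    exact Submodule.FG.map _ (Module.Finite.iff_fg.1 inferInstance)
  have hint : ∀ i, ∃ p : Polynomial F, p ≠ 0 ∧ ∀ y ∈ Φ, p.eval (y i) = 0 := fun i => by
    obtain ⟨p, hp, hp'⟩ := IsIntegral.of_mem_of_fg _ hfg (LitFibre_ev Φ (MvPolynomial.X i)) ⟨_, rfl⟩
    refine ⟨p, hp.ne_zero, fun y hy => ?_⟩
    have h1 : Polynomial.aeval (LitFibre_ev Φ (MvPolynomial.X i)) p = 0 := hp'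
    have h2 := Polynomial.aeval_algHom_apply (Pi.evalAlgHom F (fun _ : Φ => F) ⟨y, hy⟩)
      (LitFibre_ev Φ (MvPolynomial.X i)) p
    rw [h1, map_zero] at h2
    simpa [LitFibre_ev_apply] using h2
  choose p hp hp' using hint
  refine (Set.Finite.pi' fun i => Polynomial.finite_setOf_isRoot (hp i)).subset fun y hy i => ?_
  exact hp' i y hy

/-- Use coordinates (`exists_mvPoly`, `eval_mvPoly_mem`). By the Nullstellensatz
(`MvPolynomial.vanishingIdeal_zeroLocus_eq_radical`) `X i ^ N = f + ∑ j, ℓ j * g j` with `f`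
vanishing on `Y` and `N > 0` independent of `i`. Evaluate at `t • y` for `y` in the fibre and compare
the coefficients of `t ^ N` (`MvPolynomial.homogeneousComponent`, `F` infinite):
`y i ^ N = ∑ j, c j * (component of degree N - 1 of g j)(y)`. -/
theorem IsCone.finite_fibre [IsAlgClosed F] [FiniteDimensional F L] {Y : Set L} (hY : IsCone F Y)
    {J : Type} [Fintype J] (ℓ : J → Module.Dual F L) (h : ∀ y ∈ Y, (∀ j, ℓ j y = 0) → y = 0)
    (c : J → F) : {y ∈ Y | ∀ j, ℓ j y = c j}.Finite := by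
  classical
  let b := Module.finBasis F L
  let ι := Fin (Module.finrank F L)
  let Y' : Set (ι → F) := {x | b.equivFun.symm x ∈ Y}
  let lam : J → MvPolynomial ι F := fun j => ∑ i, MvPolynomial.C (ℓ j (b i)) * MvPolynomial.X i
  have hlam : ∀ j x, MvPolynomial.eval x (lam j) = ℓ j (b.equivFun.symm x) := fun j x => by
    simp only [lam, map_sum, map_mul, MvPolynomial.eval_C, MvPolynomial.eval_X,
      Module.Basis.equivFun_symm_apply, map_smul, smul_eq_mul, mul_comm]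
  have hrepr : ∀ x : ι → F, (b.repr (b.equivFun.symm x) : ι → F) = x := fun x =>
    b.equivFun.apply_symm_apply x
  let I : Ideal (MvPolynomial ι F) :=
    MvPolynomial.vanishingIdeal F Y' ⊔ Ideal.span (Set.range lam)
  have hX : ∀ i, MvPolynomial.X i ∈ I.radical := fun i => by
    rw [← MvPolynomial.vanishingIdeal_zeroLocus_eq_radical (K := F)]
    intro x hx
    have h1 : b.equivFun.symm x ∈ Y := by
      refine hY.cl fun f hf hf0 => ?_
      obtain ⟨P, hP⟩ := exists_mvPoly b hf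
      rw [hP, hrepr]
      refine hx P (Ideal.mem_sup_left fun z hz => ?_)
      have := hf0 _ hz
      rwa [hP, hrepr] at this
    have h2 := h _ h1 fun j => by
      rw [← hlam]
      exact hx _ (Ideal.mem_sup_right (Ideal.subset_span ⟨j, rfl⟩))
    have h3 : x = 0 := by rw [← hrepr x, h2]; simp
    simp [h3]
  choose N hN using hX
  have hM : ∀ i, MvPolynomial.X i ^ ((∑ i, N i) + 1) ∈ I := fun i =>
    I.pow_mem_of_pow_mem (hN i) ((Finset.single_le_sum (f := N) (fun _ _ => Nat.zero_le _)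
      (Finset.mem_univ i)).trans (Nat.le_succ _))
  generalize ∑ i, N i = M at hM
  have hfin : {x : ι → F | b.equivFun.symm x ∈ {y ∈ Y | ∀ j, ℓ j y = c j}}.Finite := by
    refine finite_of_pow (N := M + 1) fun i => ?_
    obtain ⟨f, hf, g', hg', hfg⟩ := Submodule.mem_sup.1 (hM i)
    obtain ⟨g, rfl⟩ := Ideal.mem_span_range_iff_exists_fun.1 hg'
    refine ⟨∑ j, MvPolynomial.homogeneousComponent M (g j) * MvPolynomial.C (c j), ?_, ?_⟩
    · refine Nat.lt_succ_of_le (MvPolynomial.totalDegree_finsetSum_le fun j _ => ?_)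
      refine (MvPolynomial.totalDegree_mul _ _).trans ?_
      rw [MvPolynomial.totalDegree_C, add_zero]
      exact (MvPolynomial.homogeneousComponent_isHomogeneous M (g j)).totalDegree_le
    · rintro x ⟨hx1, hx2⟩
      choose q hq hq' using fun j => LitFibre_line (g j) x
      have e : Polynomial.C (x i ^ (M + 1)) * Polynomial.X ^ (M + 1) =
          ∑ j, q j * Polynomial.C (c j) * Polynomial.X := by
        refine Polynomial.funext fun t => ?_
        have h1 := congrArg (MvPolynomial.eval (t • x)) hfg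
        have h2 : MvPolynomial.eval (t • x) f = 0 := by
          refine hf (t • x) ?_
          change b.equivFun.symm (t • x) ∈ Y
          rw [map_smul]
          exact hY.smul _ _ hx1
        rw [map_add, h2, zero_add, map_sum, map_pow, MvPolynomial.eval_X] at h1
        rw [Polynomial.eval_finset_sum]
        simp only [Polynomial.eval_mul, Polynomial.eval_C, Polynomial.eval_pow, Polynomial.eval_X,
          hq]
        rw [← mul_pow, mul_comm (x i) t]
        refine h1.symm.trans (Finset.sum_congr rfl fun j _ => ?_)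
        rw [map_mul, hlam, map_smul, map_smul, hx2 j, smul_eq_mul]
        ring
      have e2 := congrArg (fun r => Polynomial.coeff r (M + 1)) e
      simp only [Polynomial.coeff_C_mul_X_pow, if_true, Polynomial.finset_sum_coeff,
        Polynomial.coeff_mul_X, Polynomial.coeff_mul_C, hq'] at e2
      rw [e2, map_sum]
      simp only [map_mul, MvPolynomial.eval_C]
  refine (hfin.image b.equivFun.symm).subset fun y hy => ⟨b.equivFun y, ?_, ?_⟩
  · change b.equivFun.symm (b.equivFun y) ∈ {y ∈ Y | ∀ j, ℓ j y = c j}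
    rw [LinearEquiv.symm_apply_apply]
    exact hy
  · exact b.equivFun.symm_apply_apply y

end Pool.Agent.Work.MP_bb5f23_al.Lit
end

-- merged part: Pool.Agent.Work.MP_bb5f23_al.LitLU0
section
/-! Block LU decomposition over a commutative ring. -/

namespace Pool.Agent.Work.MP_bb5f23_al.Lit

section ring

variable {R : Type} [CommRing R] {n : ℕ}

/-- The principal minor on the indices of level at least `k`. -/
def minor (lv : Fin n → ℤ) (k : ℤ) (m : Matrix (Fin n) (Fin n) R) : R :=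
  (m.toSquareBlockProp fun i => k ≤ lv i).det

theorem map_minor {R' : Type} [CommRing R'] (f : R →+* R') (lv : Fin n → ℤ) (k : ℤ)
    (m : Matrix (Fin n) (Fin n) R) : f (minor lv k m) = minor lv k (m.map f) := by
  unfold minor
  rw [RingHom.map_det]
  rfl

/-- `(g p)_{I I} = g_{I I} p_{I I}` since `p_{i j} = 0` for `i ∉ I`, `j ∈ I`. -/
theorem minor_mul_right (lv : Fin n → ℤ) (k : ℤ) (g : Matrix (Fin n) (Fin n) R)
    {p : Matrix (Fin n) (Fin n) R} (hp : ∀ i j, lv i < lv j → p i j = 0) :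
    minor lv k (g * p) = minor lv k g * minor lv k p := by
  unfold minor
  rw [← Matrix.det_mul]
  congr 1
  have h := Matrix.toBlock_mul_eq_add (fun i => k ≤ lv i) (fun i => k ≤ lv i) (fun i => k ≤ lv i) g p
  have h0 : p.toBlock (fun i => ¬ k ≤ lv i) (fun i => k ≤ lv i) = 0 := by
    ext i j
    have h1 := i.2
    have h2 := j.2
    exact hp _ _ (by omega)
  rw [h0, Matrix.mul_zero, add_zero] at h
  exact h

theorem minor_mul_left (lv : Fin n → ℤ) (k : ℤ) (g : Matrix (Fin n) (Fin n) R)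
    {a : Matrix (Fin n) (Fin n) R} (ha : ∀ i j, lv j < lv i → a i j = 0) :
    minor lv k (a * g) = minor lv k a * minor lv k g := by
  unfold minor
  rw [← Matrix.det_mul]
  congr 1
  have h := Matrix.toBlock_mul_eq_add (fun i => k ≤ lv i) (fun i => k ≤ lv i) (fun i => k ≤ lv i) a g
  have h0 : a.toBlock (fun i => k ≤ lv i) (fun i => ¬ k ≤ lv i) = 0 := by
    ext i j
    have h1 := i.2
    have h2 := j.2
    exact ha _ _ (by omega)
  rw [h0, Matrix.zero_mul, add_zero] at h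
  exact h

/-- A strictly triangular perturbation of the identity (`Matrix.BlockTriangular.det`, or refine the
levels to a linear order). -/
theorem det_eq_one_of_lt {ι : Type} [Fintype ι] [DecidableEq ι] (lv : ι → ℤ) {a : Matrix ι ι R}
    (ha : ∀ i j, lv j ≤ lv i → (a - 1) i j = 0) : a.det = 1 := by
  have h1 : ∀ i j, lv j ≤ lv i → a i j = (1 : Matrix ι ι R) i j := fun i j hij => by
    have := ha i j hij
    rwa [Matrix.sub_apply, sub_eq_zero] at this
  have hb : a.BlockTriangular lv := by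
    intro i j hij
    rw [h1 i j hij.le, Matrix.one_apply_ne]
    rintro rfl
    exact lt_irrefl _ hij
  rw [hb.det]
  refine Finset.prod_eq_one fun c _ => ?_
  have : a.toSquareBlock lv c = 1 := by
    ext i j
    have hi := i.2
    have hj := j.2
    have := h1 i.1 j.1 (by omega)
    simp only [Matrix.toSquareBlock_def, Matrix.of_apply, this, Matrix.one_apply, Subtype.ext_iff]
  rw [this, Matrix.det_one]

/-- The block diagonal part. -/
def LitLU0_dg (lv : Fin n → ℤ) (m : Matrix (Fin n) (Fin n) R) : Matrix (Fin n) (Fin n) R :=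
  Matrix.of fun i j => if lv i = lv j then m i j else 0

theorem LitLU0_dg_mul (lv : Fin n → ℤ) {P Q : Matrix (Fin n) (Fin n) R}
    (hP : ∀ i j, lv i < lv j → P i j = 0) (hQ : ∀ i j, lv i < lv j → Q i j = 0)
    {i j : Fin n} (hij : lv i ≤ lv j) : (LitLU0_dg lv P * Q) i j = (P * Q) i j := by
  simp only [Matrix.mul_apply, LitLU0_dg, Matrix.of_apply]
  refine Finset.sum_congr rfl fun l _ => ?_
  split_ifs with h
  · rfl
  · rcases lt_or_gt_of_ne h with h' | h'
    · rw [hP i l h']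
    · rw [hQ l j (by omega), mul_zero, mul_zero]

theorem LitLU0_dg_mul_dg (lv : Fin n → ℤ) {P Q : Matrix (Fin n) (Fin n) R}
    (hP : ∀ i j, lv i < lv j → P i j = 0) (hQ : ∀ i j, lv i < lv j → Q i j = 0)
    (h : P * Q = 1) : LitLU0_dg lv P * LitLU0_dg lv Q = 1 := by
  ext i j
  by_cases hij : lv i = lv j
  · rw [← h, ← LitLU0_dg_mul lv hP hQ hij.le]
    simp only [Matrix.mul_apply, LitLU0_dg, Matrix.of_apply]
    refine Finset.sum_congr rfl fun l _ => ?_
    by_cases h1 : lv i = lv l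
    · rw [if_pos (h1.symm.trans hij)]
    · rw [if_neg h1, zero_mul, zero_mul]
  · rw [Matrix.one_apply_ne (by rintro rfl; exact hij rfl)]
    simp only [Matrix.mul_apply, LitLU0_dg, Matrix.of_apply]
    refine Finset.sum_eq_zero fun l _ => ?_
    by_cases h1 : lv i = lv l
    · rw [if_neg (show ¬ lv l = lv j from fun h2 => hij (h1.trans h2)), mul_zero]
    · rw [if_neg h1, zero_mul]

/-- The matrix of solutions of the principal systems. -/
noncomputable def LitLU0_W (lv : Fin n → ℤ) (g : Matrix (Fin n) (Fin n) R) :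
    Matrix (Fin n) (Fin n) R :=
  Matrix.of fun i j => if h : lv j ≤ lv i then
    (g.toSquareBlockProp fun l => lv j ≤ lv l)⁻¹ ⟨i, h⟩ ⟨j, le_rfl⟩ else 0

theorem LitLU0_mul_W (lv : Fin n → ℤ) {g : Matrix (Fin n) (Fin n) R}
    (h : ∀ i, IsUnit (minor lv (lv i) g)) {i j : Fin n} (hij : lv j ≤ lv i) :
    (g * LitLU0_W lv g - 1) i j = 0 := by
  have h1 := Matrix.mul_nonsing_inv _ (h j)
  have h2 := congrFun (congrFun h1 ⟨i, hij⟩) ⟨j, le_rfl⟩
  rw [Matrix.sub_apply, sub_eq_zero]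
  have h3 : (1 : Matrix (Fin n) (Fin n) R) i j =
      (1 : Matrix {l // lv j ≤ lv l} {l // lv j ≤ lv l} R) ⟨i, hij⟩ ⟨j, le_rfl⟩ := by
    simp only [Matrix.one_apply, Subtype.ext_iff]
  rw [h3, ← h2, Matrix.mul_apply, Matrix.mul_apply,
    ← Fintype.sum_subtype_add_sum_subtype (fun l => lv j ≤ lv l)]
  have h4 : ∑ l : {l // ¬ lv j ≤ lv l}, g i l.1 * LitLU0_W lv g l.1 j = 0 := by
    refine Finset.sum_eq_zero fun l _ => ?_
    simp only [LitLU0_W, Matrix.of_apply, dif_neg l.2, mul_zero]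
  rw [h4, add_zero]
  refine Finset.sum_congr rfl fun l _ => ?_
  simp only [LitLU0_W, Matrix.of_apply, dif_pos l.2]
  rfl

/-- For each `j` solve `g_{I I} w = e_j` on `I = {i | lv j ≤ lv i}` and let column `j` of `a` be
`g w`; so `a = g Wm` where `Wm i j = 0` for `lv i < lv j`, and `a` is unitriangular, `det a = 1`.
Also `det g` is a unit (the lowest level), so `Wm` is invertible; its inverse `p` is block
triangular (`Matrix.blockTriangular_inv_of_blockTriangular`) and `g = a p`. Let `b`, `b'` be the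
block diagonal parts of `p`, `Wm`; `b b' = 1`; `u = b' p`, `u' = Wm b`. -/
theorem exists_LU_ring (lv : Fin n → ℤ) {g : Matrix (Fin n) (Fin n) R}
    (h : ∀ i, IsUnit (minor lv (lv i) g)) : ∃ a b u : (Matrix (Fin n) (Fin n) R)ˣ,
      g = a.1 * b.1 * u.1 ∧ (∀ i j, lv j ≤ lv i → (a.1 - 1) i j = 0) ∧
      (∀ i j, lv i ≠ lv j → b.1 i j = 0) ∧ ∀ i j, lv i ≤ lv j → (u.1 - 1) i j = 0 := by
  set W := LitLU0_W lv g with hW
  have hWt : ∀ i j, lv i < lv j → W i j = 0 := fun i j hij => by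
    simp only [hW, LitLU0_W, Matrix.of_apply, dif_neg (not_le.2 hij)]
  have ha : ∀ i j, lv j ≤ lv i → (g * W - 1) i j = 0 := fun i j hij => LitLU0_mul_W lv h hij
  have hdet : (g * W).det = 1 := det_eq_one_of_lt lv ha
  have hWu : IsUnit W.det := by
    rw [Matrix.det_mul, mul_comm] at hdet
    exact IsUnit.of_mul_eq_one _ hdet
  have hWp : W * W⁻¹ = 1 := Matrix.mul_nonsing_inv _ hWu
  have hpW : W⁻¹ * W = 1 := Matrix.nonsing_inv_mul _ hWu
  have hpt : ∀ i j, lv i < lv j → W⁻¹ i j = 0 := by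
    letI : Invertible W := Matrix.invertibleOfIsUnitDet W hWu
    have hb : W.BlockTriangular (fun i => OrderDual.toDual (lv i)) := fun i j hij =>
      hWt i j hij
    have := Matrix.blockTriangular_inv_of_blockTriangular hb
    exact fun i j hij => this hij
  have hbb : LitLU0_dg lv W⁻¹ * LitLU0_dg lv W = 1 := LitLU0_dg_mul_dg lv hpt hWt hpW
  have hbb' : LitLU0_dg lv W * LitLU0_dg lv W⁻¹ = 1 := LitLU0_dg_mul_dg lv hWt hpt hWp
  have hua : IsUnit (g * W) := (Matrix.isUnit_iff_isUnit_det _).2 (hdet ▸ isUnit_one)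
  have hub : IsUnit (LitLU0_dg lv W⁻¹) := ⟨⟨_, _, hbb, hbb'⟩, rfl⟩
  have hub' : IsUnit (LitLU0_dg lv W) := ⟨⟨_, _, hbb', hbb⟩, rfl⟩
  have hup : IsUnit W⁻¹ := ⟨⟨_, _, hpW, hWp⟩, rfl⟩
  obtain ⟨a, ha'⟩ := hua
  obtain ⟨b, hb'⟩ := hub
  obtain ⟨u, hu'⟩ := hub'.mul hup
  refine ⟨a, b, u, ?_, ?_, ?_, ?_⟩
  · rw [ha', hb', hu', Matrix.mul_assoc, ← Matrix.mul_assoc (LitLU0_dg lv W⁻¹), hbb,
      Matrix.one_mul, Matrix.mul_assoc, hWp, Matrix.mul_one]
  · rw [ha']; exact ha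
  · intro i j hij
    rw [hb']
    simp only [LitLU0_dg, Matrix.of_apply, if_neg hij]
  · intro i j hij
    rw [hu', Matrix.sub_apply, LitLU0_dg_mul lv hWt hpt hij, hWp, sub_self]

end ring

end Pool.Agent.Work.MP_bb5f23_al.Lit
end

-- merged part: Pool.Agent.Work.MP_bb5f23_al.LitLU
section
/-! The function cutting out the big cell. -/

namespace Pool.Agent.Work.MP_bb5f23_al.Lit

variable {F : Type} [Field F] {n r : ℕ}

/-- The function whose non-vanishing locus is the big cell of `c`. -/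
def del (wt : Fin n → Fin r → ℤ) (c : Fin r → ℤ) (g : GL (Fin n) F) : F :=
  ∏ i, minor (fun j => wt j ⬝ᵥ c) (wt i ⬝ᵥ c) g.1

variable {wt : Fin n → Fin r → ℤ} {c : Fin r → ℤ}

theorem LitLU_minor_one (lv : Fin n → ℤ) (k : ℤ) (lv' : Fin n → ℤ)
    {a : Matrix (Fin n) (Fin n) F} (ha : ∀ i j, lv' j ≤ lv' i → (a - 1) i j = 0) :
    minor lv k a = 1 := by
  refine det_eq_one_of_lt (fun i : {i // k ≤ lv i} => lv' i.1) fun i j hij => ?_
  have h := ha i.1 j.1 hij
  rw [Matrix.sub_apply, Matrix.one_apply] at h ⊢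
  simp only [Subtype.ext_iff]
  exact h

theorem LitLU_minor_poly (lv : Fin n → ℤ) (k : ℤ) (g : GL (Fin n) F) :
    minor lv k g.1 = MvPolynomial.eval (fun ij : Fin n × Fin n => g.1 ij.1 ij.2)
      (minor lv k (Matrix.of fun i j => (MvPolynomial.X (i, j) : MvPolynomial _ F))) := by
  rw [map_minor]
  congr 1
  ext i j
  simp

theorem LitLU_minor_mem (lv : Fin n → ℤ) (k : ℤ) :
    (fun g : GL (Fin n) F => minor lv k g.1) ∈ glA F n := by
  simp only [LitLU_minor_poly lv k]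
  exact eval_mem_glA _

theorem del_one : del wt c (1 : GL (Fin n) F) = 1 := by
  refine Finset.prod_eq_one fun i _ => ?_
  exact LitLU_minor_one _ _ (fun j => wt j ⬝ᵥ c) fun i j _ => by simp

theorem exists_del_poly (wt : Fin n → Fin r → ℤ) (c : Fin r → ℤ) :
    ∃ P : MvPolynomial (Fin n × Fin n) F, ∀ g : GL (Fin n) F,
      del wt c g = MvPolynomial.eval (fun ij => g.1 ij.1 ij.2) P :=
  ⟨∏ i, minor (fun j => wt j ⬝ᵥ c) (wt i ⬝ᵥ c) (Matrix.of fun i j => MvPolynomial.X (i, j)),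
    fun g => by
      rw [map_prod, del]
      exact Finset.prod_congr rfl fun i _ => LitLU_minor_poly _ _ g⟩

theorem del_mem : (del wt c : GL (Fin n) F → F) ∈ glA F n := by
  obtain ⟨P, hP⟩ := exists_del_poly (F := F) wt c
  rw [show (del wt c : GL (Fin n) F → F) = _ from funext hP]
  exact eval_mem_glA P

variable [IsFbar F]

theorem LitLU_nn {p : GL (Fin n) F} (hp : p ∈ US wt ⊤ (nnS c)) (i j : Fin n)
    (h : wt i ⬝ᵥ c < wt j ⬝ᵥ c) : p.1 i j = 0 := by
  by_contra hne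
  have hij : i ≠ j := fun e => by rw [e] at h; exact lt_irrefl _ h
  have h1 : (p.1 - 1) i j ≠ 0 := by rwa [Matrix.sub_apply, Matrix.one_apply_ne hij, sub_zero]
  have h2 : 0 ≤ (wt i - wt j) ⬝ᵥ c := hp.2 i j h1
  rw [sub_dotProduct] at h2
  omega

theorem LitLU_pos {u : GL (Fin n) F} : u ∈ US wt ⊤ (posS c) ↔
    ∀ i j, wt i ⬝ᵥ c ≤ wt j ⬝ᵥ c → (u.1 - 1) i j = 0 := by
  constructor
  · intro hu i j h
    by_contra hne
    have h2 : 0 < (wt i - wt j) ⬝ᵥ c := hu.2 i j hne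
    rw [sub_dotProduct] at h2
    omega
  · refine fun h => ⟨trivial, fun i j hne => ?_⟩
    change 0 < (wt i - wt j) ⬝ᵥ c
    rw [sub_dotProduct]
    by_contra hc
    exact hne (h i j (by omega))

theorem LitLU_neg {a : GL (Fin n) F} : a ∈ US wt ⊤ (posS (-c)) ↔
    ∀ i j, wt j ⬝ᵥ c ≤ wt i ⬝ᵥ c → (a.1 - 1) i j = 0 := by
  simp only [LitLU_pos, dotProduct_neg, neg_le_neg_iff]

theorem LitLU_zero {b : GL (Fin n) F} (h : ∀ i j, wt i ⬝ᵥ c ≠ wt j ⬝ᵥ c → b.1 i j = 0) :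
    b ∈ US wt ⊤ (zeroS c) := by
  refine ⟨trivial, fun i j hne => ?_⟩
  change (wt i - wt j) ⬝ᵥ c = 0
  rw [sub_dotProduct, sub_eq_zero]
  by_contra hc
  have hij : i ≠ j := fun e => hc (by rw [e])
  exact hne (by rw [Matrix.sub_apply, Matrix.one_apply_ne hij, h i j hc, sub_zero])

theorem del_mul_nn (g : GL (Fin n) F) {p : GL (Fin n) F} (hp : p ∈ US wt ⊤ (nnS c)) :
    del wt c (g * p) = del wt c g * del wt c p := by
  rw [del, del, del, ← Finset.prod_mul_distrib]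
  exact Finset.prod_congr rfl fun i _ => minor_mul_right _ _ _ (LitLU_nn hp)

theorem del_ne_zero_of_nn {p : GL (Fin n) F} (hp : p ∈ US wt ⊤ (nnS c)) : del wt c p ≠ 0 := by
  have h := del_mul_nn p⁻¹ hp
  rw [inv_mul_cancel, del_one] at h
  exact right_ne_zero_of_mul_eq_one h.symm

theorem del_pos {u : GL (Fin n) F} (hu : u ∈ US wt ⊤ (posS c)) : del wt c u = 1 :=
  Finset.prod_eq_one fun _ _ => LitLU_minor_one _ _ (fun j => -(wt j ⬝ᵥ c)) fun i j h =>
    LitLU_pos.1 hu i j (neg_le_neg_iff.1 h)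

theorem del_neg_mul (g : GL (Fin n) F) {a : GL (Fin n) F} (ha : a ∈ US wt ⊤ (posS (-c))) :
    del wt c (a * g) = del wt c g := by
  refine Finset.prod_congr rfl fun k _ => ?_
  rw [Units.val_mul, minor_mul_left _ _ _ fun i j h => ?_,
    LitLU_minor_one _ _ (fun j => wt j ⬝ᵥ c) (LitLU_neg.1 ha), one_mul]
  have hij : i ≠ j := fun e => by rw [e] at h; exact lt_irrefl _ h
  have h1 := LitLU_neg.1 ha i j h.le
  rwa [Matrix.sub_apply, Matrix.one_apply_ne hij, sub_zero] at h1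

theorem del_ne_zero_iff {g : GL (Fin n) F} : del wt c g ≠ 0 ↔ ∃ a ∈ US wt ⊤ (posS (-c)),
    ∃ b ∈ US wt ⊤ (zeroS c), ∃ u ∈ US wt ⊤ (posS c), g = a * b * u := by
  constructor
  · intro h
    obtain ⟨a, b, u, e, ha, hb, hu⟩ := exists_LU_ring (fun j => wt j ⬝ᵥ c) (g := g.1) fun i =>
      (Finset.prod_ne_zero_iff.1 h i (Finset.mem_univ i)).isUnit
    exact ⟨a, LitLU_neg.2 ha, b, LitLU_zero hb, u, LitLU_pos.2 hu, Units.ext e⟩
  · rintro ⟨a, ha, b, hb, u, hu, rfl⟩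
    rw [mul_assoc, del_neg_mul _ ha]
    exact del_ne_zero_of_nn (mul_mem (US_mono le_rfl (fun _ h => (mem_zeroS.1 h).ge) hb)
      (US_mono le_rfl (fun _ h => (mem_posS.1 h).le) hu))

omit [IsFbar F] in
/-- The functions `f / d ^ k` on the set where `d` does not vanish. -/
def LitLU_loc {X : Type} (A : Subalgebra F (X → F)) {d : X → F} (hd : d ∈ A) :
    Subalgebra F ({x // d x ≠ 0} → F) where
  carrier := {φ | ∃ f ∈ A, ∃ k : ℕ, ∀ x, φ x * d x.1 ^ k = f x.1}
  mul_mem' := by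
    rintro φ ψ ⟨f, hf, k, h⟩ ⟨f', hf', k', h'⟩
    refine ⟨f * f', mul_mem hf hf', k + k', fun x => ?_⟩
    rw [Pi.mul_apply, Pi.mul_apply, ← h, ← h']
    ring
  add_mem' := by
    rintro φ ψ ⟨f, hf, k, h⟩ ⟨f', hf', k', h'⟩
    refine ⟨f * d ^ k' + f' * d ^ k,
      add_mem (mul_mem hf (pow_mem hd _)) (mul_mem hf' (pow_mem hd _)), k + k', fun x => ?_⟩
    simp only [Pi.add_apply, Pi.mul_apply, Pi.pow_apply, ← h, ← h']
    ring
  algebraMap_mem' t := ⟨algebraMap F _ t, A.algebraMap_mem t, 0, fun x => by simp⟩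

/-- Let `Ω = {g | del g ≠ 0}` and let `R` be the algebra of functions on `Ω` of the form
`f / del ^ k`, `f ∈ glA`. Apply `exists_LU_ring` to the matrix of coordinate functions over `R`
and evaluate (`Units.map`); `f ∘ β ∈ R` for `f ∈ glA` by `Algebra.adjoin_induction`. -/
theorem exists_levi_map (wt : Fin n → Fin r → ℤ) (c : Fin r → ℤ) :
    ∃ β : GL (Fin n) F → GL (Fin n) F, ZReg (glA F n) (glA F n) {g | del wt c g ≠ 0} β ∧
      ∀ g, del wt c g ≠ 0 → β g ∈ US wt ⊤ (zeroS c) ∧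
        ∃ a ∈ US wt ⊤ (posS (-c)), ∃ u ∈ US wt ⊤ (posS c), g = a * β g * u := by
  classical
  let R := LitLU_loc (glA F n) (del_mem (wt := wt) (c := c))
  have res : ∀ f ∈ glA F n, (fun x : {x : GL (Fin n) F // del wt c x ≠ 0} => f x.1) ∈ R :=
    fun f hf => ⟨f, hf, 0, fun x => by rw [pow_zero, mul_one]⟩
  let ev : {x : GL (Fin n) F // del wt c x ≠ 0} → R →+* F := fun x =>
    (Pi.evalRingHom _ x).comp R.val.toRingHom
  let G : Matrix (Fin n) (Fin n) R := Matrix.of fun i j => ⟨_, res _ (entry_mem i j)⟩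
  have hG : ∀ x, G.map (ev x) = x.1.1 := fun x => rfl
  have hu : ∀ i, IsUnit (minor (fun j => wt j ⬝ᵥ c) (wt i ⬝ᵥ c) G) := fun i => by
    have hne : ∀ x : {x : GL (Fin n) F // del wt c x ≠ 0},
        minor (fun j => wt j ⬝ᵥ c) (wt i ⬝ᵥ c) x.1.1 ≠ 0 := fun x =>
      Finset.prod_ne_zero_iff.1 x.2 i (Finset.mem_univ i)
    have hm : (fun x : {x : GL (Fin n) F // del wt c x ≠ 0} =>
        (minor (fun j => wt j ⬝ᵥ c) (wt i ⬝ᵥ c) x.1.1)⁻¹) ∈ R := by
      refine ⟨∏ k ∈ Finset.univ.erase i, fun g => minor (fun j => wt j ⬝ᵥ c) (wt k ⬝ᵥ c) g.1,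
        prod_mem fun k _ => LitLU_minor_mem _ _, 1, fun x => ?_⟩
      rw [pow_one, Finset.prod_apply, del, ← Finset.mul_prod_erase _ _ (Finset.mem_univ i),
        inv_mul_cancel_left₀ (hne x)]
    refine IsUnit.of_mul_eq_one (⟨_, hm⟩ : R) (Subtype.ext (funext fun x => ?_))
    change ev x (minor (fun j => wt j ⬝ᵥ c) (wt i ⬝ᵥ c) G) * _ = 1
    rw [map_minor, hG]
    exact mul_inv_cancel₀ (hne x)
  obtain ⟨a, b, u, e, ha, hb, hu⟩ := exists_LU_ring (fun j => wt j ⬝ᵥ c) hu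
  have one : ∀ x (v : GL (Fin n) R) (i j : Fin n), (v.1 - 1) i j = 0 →
      ((Matrix.GeneralLinearGroup.map (ev x) v).1 - 1) i j = 0 := fun x v i j h => by
    have h1 := congrArg (ev x) h
    rw [map_zero, Matrix.sub_apply, map_sub, Matrix.one_apply, apply_ite (ev x), map_one,
      map_zero] at h1
    rw [Matrix.sub_apply, Matrix.one_apply]
    exact h1
  have hreg : Reg R (glA F n) fun x => Matrix.GeneralLinearGroup.map (ev x) b :=
    reg_glA (fun i j => (b.1 i j).2) fun i j => ((b⁻¹).1 i j).2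
  refine ⟨fun g => if h : del wt c g ≠ 0 then Matrix.GeneralLinearGroup.map (ev ⟨g, h⟩) b else 1,
    fun f hf => ?_, fun g hg => ?_⟩
  · obtain ⟨f', hf', k, hk⟩ := hreg f hf
    refine ⟨f', hf', fun g hg => ?_⟩
    have hg' : del wt c g ≠ 0 := hg
    beta_reduce
    rw [dif_pos hg', ← hk ⟨g, hg'⟩, mul_eq_zero_iff_right (pow_ne_zero k hg')]
  · beta_reduce
    rw [dif_pos hg]
    refine ⟨LitLU_zero fun i j h => ?_, Matrix.GeneralLinearGroup.map (ev ⟨g, hg⟩) a,
      LitLU_neg.2 fun i j h => one _ a i j (ha i j h), Matrix.GeneralLinearGroup.map (ev ⟨g, hg⟩) u,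
      LitLU_pos.2 fun i j h => one _ u i j (hu i j h), ?_⟩
    · change ev ⟨g, hg⟩ (b.1 i j) = 0
      rw [hb i j h, map_zero]
    · rw [← map_mul, ← map_mul]
      refine Units.ext ((hG ⟨g, hg⟩).symm.trans ?_)
      rw [e]
      rfl

end Pool.Agent.Work.MP_bb5f23_al.Lit
end

-- merged part: Pool.Agent.Work.MP_bb5f23_al.LitWeyl
section
/-! The action of the normaliser of the torus on the lattices. -/

namespace Pool.Agent.Work.MP_bb5f23_al.Lit

variable {F : Type} [Field F] {n r : ℕ}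

/-- The normaliser of the torus in `GL_n`. -/
def NN (F : Type) [Field F] (wt : Fin n → Fin r → ℤ) : Subgroup (GL (Fin n) F) :=
  Subgroup.normalizer (TT F wt : Set (GL (Fin n) F))

/-- `A` is the action of `m` on characters. -/
structure Acts (wt : Fin n → Fin r → ℤ) (m : GL (Fin n) F) (A : (Fin r → ℤ) ≃+ (Fin r → ℤ)) :
    Prop where
  mem : m ∈ NN F wt
  spec : ∀ γ z z', tau wt z' = m * tau wt z * m⁻¹ → mon (A γ) z' = mon γ z

variable {wt : Fin n → Fin r → ℤ} {m m' : GL (Fin n) F} {A A' : (Fin r → ℤ) ≃+ (Fin r → ℤ)}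

theorem TT_le_NN : TT F wt ≤ NN F wt := Subgroup.le_normalizer

theorem conj_mem_TT (hm : m ∈ NN F wt) {t : GL (Fin n) F} (ht : t ∈ TT F wt) :
    m * t * m⁻¹ ∈ TT F wt := (hm t).1 ht

theorem LitWeyl_ex (hm : m ∈ NN F wt) (z : Fin r → Fˣ) : ∃ z', tau wt z' = m * tau wt z * m⁻¹ :=
  conj_mem_TT hm (tau_mem z)

theorem LitWeyl_ex' (hm : m ∈ NN F wt) (z' : Fin r → Fˣ) :
    ∃ z, tau wt z' = m * tau wt z * m⁻¹ := by
  obtain ⟨z, hz⟩ := LitWeyl_ex (inv_mem hm) z'
  exact ⟨z, by rw [hz]; group⟩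

theorem LitWeyl_entry {z z' : Fin r → Fˣ} (h : tau wt z' = m * tau wt z * m⁻¹) {i j : Fin n}
    (hij : m.1 i j ≠ 0) : mon (wt i) z' = mon (wt j) z := by
  have h1 : tau wt z' * m = m * tau wt z := by rw [h]; group
  have h2 := congrArg (fun g : GL (Fin n) F => g.1 i j) h1
  simp only [Units.val_mul, tau_val, Matrix.diagonal_mul, Matrix.mul_diagonal] at h2
  rw [mul_comm] at h2
  exact Units.ext (mul_left_cancel₀ hij h2)

theorem LitWeyl_col (m : GL (Fin n) F) (j : Fin n) : ∃ i, m.1 i j ≠ 0 := by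
  by_contra h
  push Not at h
  have h1 := congrArg (fun g : GL (Fin n) F => g.1 j j) (inv_mul_cancel m)
  simp only [Units.val_mul, Matrix.mul_apply, h, mul_zero, Finset.sum_const_zero, Units.val_one,
    Matrix.one_apply_eq] at h1
  exact zero_ne_one h1

theorem LitWeyl_ind (hspan : AddSubgroup.closure (Set.range wt) = ⊤) {P : (Fin r → ℤ) → Prop}
    (h1 : ∀ j, P (wt j)) (h0 : P 0) (ha : ∀ a b, P a → P b → P (a + b)) (hn : ∀ a, P a → P (-a))
    (γ : Fin r → ℤ) : P γ := by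
  have : γ ∈ AddSubgroup.closure (Set.range wt) := by rw [hspan]; trivial
  induction this using AddSubgroup.closure_induction with
  | mem x hx =>
    obtain ⟨j, rfl⟩ := hx
    exact h1 j
  | zero => exact h0
  | add a b _ _ h h' => exact ha a b h h'
  | neg a _ h => exact hn a h

theorem Acts.inv (h : Acts wt m A) : Acts wt m⁻¹ A.symm :=
  ⟨inv_mem h.mem, fun γ z z' e => by
    have := h.spec (A.symm γ) z' z (by rw [e]; group)
    rw [← this, AddEquiv.apply_symm_apply]⟩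

theorem Acts.mul (h : Acts wt m A) (h' : Acts wt m' A') : Acts wt (m * m') (A'.trans A) :=
  ⟨mul_mem h.mem h'.mem, fun γ z z' e => by
    obtain ⟨z₁, hz⟩ := LitWeyl_ex h'.mem z
    rw [AddEquiv.trans_apply, h.spec (A' γ) z₁ z' (by rw [e, hz]; group), h'.spec γ z z₁ hz]⟩

variable [IsAlgClosed F]

theorem Acts.unique (h : Acts wt m A) (h' : Acts wt m A') : A = A' :=
  AddEquiv.ext fun γ => mon_inj (F := F) fun z' => by
    obtain ⟨z, hz⟩ := LitWeyl_ex' h.mem z'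
    rw [h.spec γ z z' hz, h'.spec γ z z' hz]

/-- Compare the entries `(i, j)` of `tau z' * m = m * tau z` (`mon_inj`). -/
theorem Acts.entry (h : Acts wt m A) {i j : Fin n} (hij : m.1 i j ≠ 0) : A (wt j) = wt i :=
  mon_inj (F := F) fun z' => by
    obtain ⟨z, hz⟩ := LitWeyl_ex' h.mem z'
    rw [h.spec _ z z' hz, LitWeyl_entry hz hij]

theorem Acts.exists_wt (h : Acts wt m A) (j : Fin n) : ∃ i, A (wt j) = wt i :=
  (LitWeyl_col m j).imp fun _ hi => h.entry hi

/-- The `γ` admitting a `δ` with `mon δ z' = mon γ z` form a subgroup containing the weights; `δ`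
is unique (`mon_inj`); the map for `m⁻¹` is the inverse. -/
theorem exists_acts (hspan : AddSubgroup.closure (Set.range wt) = ⊤) (hm : m ∈ NN F wt) :
    ∃ A, Acts wt m A := by
  let R : GL (Fin n) F → (Fin r → ℤ) → (Fin r → ℤ) → Prop := fun m γ δ =>
    ∀ z z', tau wt z' = m * tau wt z * m⁻¹ → mon δ z' = mon γ z
  have hadd : ∀ {m a b c d}, R m a c → R m b d → R m (a + b) (c + d) := fun h h' z z' e => by
    rw [mon_add, mon_add, h z z' e, h' z z' e]
  have hex : ∀ m γ, ∃ δ, R m γ δ := fun m => LitWeyl_ind hspan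
    (fun j => (LitWeyl_col m j).elim fun i hi => ⟨wt i, fun z z' e => LitWeyl_entry e hi⟩)
    ⟨0, fun z z' _ => by rw [mon_zero, mon_zero]⟩
    (fun a b ⟨c, h⟩ ⟨d, h'⟩ => ⟨c + d, hadd h h'⟩)
    fun a ⟨c, h⟩ => ⟨-c, fun z z' e => by rw [mon_neg, mon_neg, h z z' e]⟩
  have huniq : ∀ {m γ δ δ'}, m ∈ NN F wt → R m γ δ → R m γ δ' → δ = δ' := fun hm h h' =>
    mon_inj (F := F) fun z' => by
      obtain ⟨z, hz⟩ := LitWeyl_ex' hm z'
      rw [h z z' hz, h' z z' hz]
  have hinv : ∀ {γ δ}, R m γ δ → R m⁻¹ δ γ := fun h z z' e => (h z' z (by rw [e]; group)).symm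
  have hinv' : ∀ {γ δ}, R m⁻¹ γ δ → R m δ γ := fun h z z' e => (h z' z (by rw [e]; group)).symm
  choose f hf using hex
  exact ⟨⟨⟨f m, f m⁻¹, fun γ => huniq (inv_mem hm) (hf _ _) (hinv (hf m γ)),
    fun γ => huniq hm (hf _ _) (hinv' (hf m⁻¹ γ))⟩,
    fun a b => huniq hm (hf _ _) (hadd (hf m a) (hf m b))⟩, hm, hf m⟩

theorem acts_of_mem_TT (hspan : AddSubgroup.closure (Set.range wt) = ⊤) (hm : m ∈ TT F wt) :
    Acts wt m (AddEquiv.refl _) := by
  refine ⟨TT_le_NN hm, fun γ z z' e => ?_⟩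
  rw [TT_comm hm (tau_mem z), mul_inv_cancel_right] at e
  refine LitWeyl_ind hspan (P := fun γ => mon γ z' = mon γ z)
    (fun j => congrFun (dg_injective e) j) ?_ ?_ ?_ γ
  · rw [mon_zero, mon_zero]
  · intro a b h h'
    rw [mon_add, mon_add, h, h']
  · intro a h
    rw [mon_neg, mon_neg, h]

theorem Acts.conj_MS (h : Acts wt m A) {S : Set (Fin r → ℤ)} {x : Matrix (Fin n) (Fin n) F}
    (hx : x ∈ MS F wt S) : m.1 * x * (m⁻¹).1 ∈ MS F wt (A '' S) := by
  intro i j hij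
  rw [Matrix.mul_apply] at hij
  obtain ⟨l, -, hl⟩ := Finset.exists_ne_zero_of_sum_ne_zero hij
  have h1 := left_ne_zero_of_mul hl
  rw [Matrix.mul_apply] at h1
  obtain ⟨k, -, hk⟩ := Finset.exists_ne_zero_of_sum_ne_zero h1
  refine ⟨_, hx k l (right_ne_zero_of_mul hk), ?_⟩
  rw [map_sub, h.entry (left_ne_zero_of_mul hk), ← h.inv.entry (right_ne_zero_of_mul hl),
    AddEquiv.apply_symm_apply]

/-- Supports correspond: apply `conj_MS` to `m⁻¹` and the support of the conjugate. -/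
theorem Acts.exists_entry (h : Acts wt m A) {x : Matrix (Fin n) (Fin n) F} {i j : Fin n}
    (hx : x i j ≠ 0) : ∃ i' j', (m.1 * x * (m⁻¹).1) i' j' ≠ 0 ∧ wt i' - wt j' = A (wt i - wt j) := by
  have h1 : m.1 * x * (m⁻¹).1 ∈
      MS F wt {γ | ∃ i' j', (m.1 * x * (m⁻¹).1) i' j' ≠ 0 ∧ wt i' - wt j' = γ} :=
    fun i' j' h' => ⟨i', j', h', rfl⟩
  have h2 := h.inv.conj_MS h1
  rw [inv_inv, ← mul_assoc, ← mul_assoc, Units.inv_mul, one_mul, Units.inv_mul_cancel_right] at h2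
  obtain ⟨_, ⟨i', j', h3, rfl⟩, h4⟩ := h2 i j hx
  exact ⟨i', j', h3, by rw [← h4, AddEquiv.apply_symm_apply]⟩

/-- `c' i = A.symm (Pi.single i 1) ⬝ᵥ c`. -/
theorem Acts.exists_dual (h : Acts wt m A) (c : Fin r → ℤ) : ∃ c', (∀ γ, A γ ⬝ᵥ c' = γ ⬝ᵥ c) ∧
    ∀ t : Fˣ, m * coc wt c t * m⁻¹ = coc wt c' t := by
  have h1 : ∀ δ : Fin r → ℤ, (δ ⬝ᵥ fun i => A.symm (Pi.single i 1) ⬝ᵥ c) = A.symm δ ⬝ᵥ c :=
    fun δ => by
    conv_rhs => rw [pi_eq_sum_univ' δ, map_sum, sum_dotProduct]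
    refine Finset.sum_congr rfl fun i _ => ?_
    rw [map_zsmul, smul_dotProduct, smul_eq_mul]
  refine ⟨_, fun γ => by rw [h1, AddEquiv.symm_apply_apply], fun t => ?_⟩
  obtain ⟨z', hz⟩ := LitWeyl_ex h.mem (cochar c t)
  rw [coc, ← hz]
  refine congrArg dg (funext fun i => ?_)
  change mon (wt i) z' = mon (wt i) _
  rw [mon_cochar, h1, ← mon_cochar, ← h.spec _ _ z' hz, AddEquiv.apply_symm_apply]

theorem Acts.regular (h : Acts wt m A) {c c' : Fin r → ℤ} (hc : ∀ γ, A γ ⬝ᵥ c' = γ ⬝ᵥ c)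
    (hreg : Regular wt c) : Regular wt c' := by
  intro i j hij
  obtain ⟨i', hi⟩ := h.inv.exists_wt i
  obtain ⟨j', hj⟩ := h.inv.exists_wt j
  refine A.symm.injective ?_
  rw [hi, hj]
  refine hreg i' j' ?_
  rw [← hc, ← hi, ← hj, ← map_sub, AddEquiv.apply_symm_apply, hij]

/-- `A` permutes the finite set of weights, which generates the lattice. -/
theorem Acts.exists_iterate (hspan : AddSubgroup.closure (Set.range wt) = ⊤) (h : Acts wt m A) :
    ∃ M, 0 < M ∧ ∀ γ, A^[M] γ = γ := by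
  have hmaps : Set.MapsTo A (Set.range wt) (Set.range wt) := by
    rintro _ ⟨j, rfl⟩
    exact (h.exists_wt j).imp fun _ hi => hi.symm
  have hinj : Function.Injective (hmaps.restrict _ _ _) := fun a b e =>
    Subtype.ext (A.injective (congrArg Subtype.val e))
  have hper : ∀ j, ∃ p, 0 < p ∧ Function.IsPeriodicPt A p (wt j) := fun j => by
    obtain ⟨p, hp, hp'⟩ := hinj.mem_periodicPts ⟨wt j, j, rfl⟩
    exact ⟨p, hp, hp'.map (g := Subtype.val) fun _ => rfl⟩
  choose p hp hp' using hper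
  refine ⟨∏ j, p j, Finset.prod_pos fun j _ => hp j, LitWeyl_ind hspan
    (fun j => (hp' j).trans_dvd (Finset.dvd_prod_of_mem p (Finset.mem_univ j)))
    (iterate_map_zero A _) (fun a b ha hb => ?_) fun a ha => ?_⟩
  · rw [iterate_map_add, ha, hb]
  · rw [iterate_map_neg, ha]

variable [IsFbar F] {G : Subgroup (GL (Fin n) F)}

theorem Acts.conj_US (h : Acts wt m A) (hm : m ∈ G) {S S' : AddSubsemigroup (Fin r → ℤ)}
    (hS : ∀ γ ∈ S, A γ ∈ S') {u : GL (Fin n) F} (hu : u ∈ US wt G S) : m * u * m⁻¹ ∈ US wt G S' := by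
  refine ⟨G.mul_mem (G.mul_mem hm hu.1) (G.inv_mem hm), ?_⟩
  have h1 := h.conj_MS hu.2
  rw [mul_sub, sub_mul, mul_one, Units.mul_inv] at h1
  refine MS_mono ?_ h1
  rintro _ ⟨γ, hγ, rfl⟩
  exact hS γ hγ

theorem Acts.map_US_ray (h : Acts wt m A) (hm : m ∈ G) (e : Fin r → ℤ) :
    (US wt G (ray e)).map (MulAut.conj m).toMonoidHom = US wt G (ray (A e)) := by
  have key : ∀ (B : (Fin r → ℤ) ≃+ (Fin r → ℤ)) (d : Fin r → ℤ), ∀ γ ∈ ray d, B γ ∈ ray (B d) := by
    rintro B d γ ⟨a, b, ha, hb, e⟩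
    exact ⟨a, b, ha, hb, by rw [← map_zsmul, e, map_zsmul]⟩
  refine le_antisymm ?_ fun u hu => ?_
  · rintro _ ⟨u, hu, rfl⟩
    exact h.conj_US hm (key A e) hu
  · have h1 := h.inv.conj_US (G.inv_mem hm) (key A.symm (A e)) hu
    rw [AddEquiv.symm_apply_apply] at h1
    refine ⟨_, h1, ?_⟩
    change m * (m⁻¹ * u * m⁻¹⁻¹) * m⁻¹ = u
    group

theorem Acts.mem_null (h : Acts wt m A) (hA : ∀ γ, A γ = γ) : m ∈ US wt ⊤ (nullS r) :=
  (mem_US_of_zero_mem (mem_nullS.2 rfl)).2 ⟨trivial, fun i j hij =>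
    mem_nullS.2 (by rw [← h.entry hij, hA, sub_self])⟩

theorem Acts.mem_zeroS (h : Acts wt m A) {c : Fin r → ℤ} (hc : ∀ γ, A γ ⬝ᵥ c = γ ⬝ᵥ c) :
    m ∈ US wt ⊤ (zeroS c) :=
  (mem_US_of_zero_mem (Lit.mem_zeroS.2 (zero_dotProduct c))).2 ⟨trivial, fun i j hij =>
    Lit.mem_zeroS.2 (by rw [← h.entry hij, sub_dotProduct, hc, sub_self])⟩

/-- By `Acts.entry`, `A γ - γ ∈ line e` for the weights, hence for all `γ`. So `a • A e = b • e`;
finite order gives `A e = e` or `A e = -e`. In the first case `A^[M] γ = γ + M • (A γ - γ)`. -/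
theorem Acts.line_cases (hspan : AddSubgroup.closure (Set.range wt) = ⊤) (h : Acts wt m A)
    {e : Fin r → ℤ} (hm : m ∈ US wt ⊤ (line e)) :
    (∀ γ, A γ - γ ∈ line e) ∧ ((∀ γ, A γ = γ) ∨ A e = -e) := by
  have h0 : (0 : Fin r → ℤ) ∈ line e := ⟨1, 0, one_ne_zero, by simp⟩
  have hm' := ((mem_US_of_zero_mem h0).1 hm).2
  have h1 : ∀ γ, A γ - γ ∈ line e := LitWeyl_ind hspan
    (fun j => (LitWeyl_col m j).elim fun i hi => by
      rw [h.entry hi]
      exact hm' i j hi)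
    (by rwa [map_zero, sub_zero])
    (fun a b ha hb => by
      rw [map_add, add_sub_add_comm]
      exact (line e).add_mem ha hb)
    fun a ⟨x, y, hx, hxy⟩ => ⟨x, -y, hx, by rw [map_neg, neg_sub_neg, ← neg_sub, smul_neg, hxy,
      neg_smul]⟩
  refine ⟨h1, ?_⟩
  obtain ⟨M, hM, hA⟩ := h.exists_iterate hspan
  obtain ⟨a, b, ha, hab⟩ := h1 e
  have h2 : a • A e = (a + b) • e := by rw [add_smul, ← hab, smul_sub, add_sub_cancel]
  have h3 : ∀ k : ℕ, a ^ k • A^[k] e = (a + b) ^ k • e := fun k => by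
    induction k with
    | zero => simp
    | succ k ih =>
      rw [Function.iterate_succ_apply', pow_succ', mul_smul, ← map_zsmul, ih, map_zsmul,
        smul_comm, h2, pow_succ, mul_smul]
  have h4 : A e = e ∨ A e = -e := by
    have h5 := h3 M
    rw [hA, ← sub_eq_zero, ← sub_smul, smul_eq_zero, sub_eq_zero] at h5
    rcases h5 with h5 | h5
    · rcases (pow_eq_pow_iff_of_ne_zero hM.ne').1 h5 with h6 | ⟨h6, -⟩
      · rw [← h6] at h2
        exact Or.inl (smul_right_injective _ ha h2)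
      · refine Or.inr (smul_right_injective _ ha ?_)
        change a • A e = a • -e
        rw [h2, smul_neg, ← neg_smul]
        congr 1
        omega
    · exact Or.inl (by rw [h5, map_zero])
  refine h4.imp_left fun h5 γ => ?_
  obtain ⟨x, y, hx, hxy⟩ := h1 γ
  have h6 : A (A γ - γ) = A γ - γ := by
    refine smul_right_injective _ hx ?_
    change x • A (A γ - γ) = x • (A γ - γ)
    rw [← map_zsmul, hxy, map_zsmul, h5]
  have h7 : ∀ k : ℕ, A^[k] γ = γ + k • (A γ - γ) := fun k => by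
    induction k with
    | zero => simp
    | succ k ih =>
      rw [Function.iterate_succ_apply', ih, map_add, map_nsmul, h6, succ_nsmul]
      abel
  have h8 := h7 M
  rw [hA, left_eq_add, smul_eq_zero, sub_eq_zero] at h8
  exact h8.resolve_left hM.ne'

end Pool.Agent.Work.MP_bb5f23_al.Lit
end

-- merged part: Pool.Agent.Work.MP_bb5f23_al.LitChev
section
/-! Images of irreducible sets contain a dense open subset of their closure. -/

namespace Pool.Agent.Work.MP_bb5f23_al.Lit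

variable {F : Type} [Field F] [IsAlgClosed F]

theorem LitChev_point {R : Type} [CommRing R] [Algebra F R] [Algebra.FiniteType F R] (q : Ideal R)
    (hq : q ≠ ⊤) : ∃ χ : R →ₐ[F] F, ∀ r ∈ q, χ r = 0 := by
  obtain ⟨m, hm, hqm⟩ := q.exists_le_maximal hq
  let _ := Ideal.Quotient.field m
  have := finite_of_finite_type_of_isJacobsonRing F (R ⧸ m)
  let e := AlgEquiv.ofBijective (Algebra.ofId F (R ⧸ m))
    (IsAlgClosed.algebraMap_bijective_of_isIntegral (k := F) (K := R ⧸ m))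
  refine ⟨(e.symm : (R ⧸ m) →ₐ[F] F).comp (Ideal.Quotient.mkₐ F m), fun r hr => ?_⟩
  rw [AlgHom.comp_apply, Ideal.Quotient.mkₐ_eq_mk, Ideal.Quotient.eq_zero_iff_mem.2 (hqm hr),
    map_zero]

/-- `R` is a finitely presented `B`-algebra (`B` is noetherian). The image of `Spec R` is
constructible (`PrimeSpectrum.isConstructible_range_comap`) and contains `⊥`; write it with
`PrimeSpectrum.exists_constructibleSetData_iff` as a finite union of sets `V(g) \ V(f)`: the one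
containing `⊥` is `D(f)`, `f ≠ 0`. If `χ f ≠ 0` then `ker χ` is the contraction of a prime `q` of
`R`; take a maximal ideal above `q`; its residue field is finite over `F`
(`finite_of_finite_type_of_isJacobsonRing`), hence equal to `F`
(`IsAlgClosed.algebraMap_bijective_of_isIntegral`). -/
theorem exists_extend {B R : Type} [CommRing B] [CommRing R] [IsDomain R] [Algebra F B]
    [Algebra F R] [Algebra.FiniteType F B] [Algebra.FiniteType F R] (i : B →ₐ[F] R)
    (hi : Function.Injective i) : ∃ c : B, c ≠ 0 ∧ ∀ χ : B →ₐ[F] F, χ c ≠ 0 →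
      ∃ χ' : R →ₐ[F] F, ∀ b, χ' (i b) = χ b := by
  have : IsNoetherianRing B := Algebra.FiniteType.isNoetherianRing F B
  have hft : (i : B →+* R).FiniteType :=
    RingHom.FiniteType.of_comp_finiteType (f := algebraMap F B) (by
      rw [i.comp_algebraMap]
      exact RingHom.finiteType_algebraMap.2 inferInstance)
  obtain ⟨s, hs⟩ := PrimeSpectrum.exists_constructibleSetData_iff.2
    (PrimeSpectrum.isConstructible_range_comap (RingHom.FinitePresentation.of_finiteType.1 hft))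
  have h0 : PrimeSpectrum.comap (i : B →+* R) ⟨⊥, Ideal.isPrime_bot⟩ ∈ s.toSet :=
    hs ▸ Set.mem_range_self _
  obtain ⟨C, hC, h1, h2⟩ := Set.mem_iUnion₂.1 h0
  have hg : ∀ j, C.g j = 0 := fun j => hi (by
    have h3 : i (C.g j) ∈ (⊥ : Ideal R) := h1 ⟨j, rfl⟩
    rw [map_zero]
    exact Ideal.mem_bot.1 h3)
  refine ⟨C.f, fun h => h2 ?_, fun χ hχ => ?_⟩
  · rw [h, PrimeSpectrum.zeroLocus_singleton_zero]
    trivial
  have h3 : (⟨RingHom.ker χ, RingHom.ker_isPrime _⟩ : PrimeSpectrum B) ∈ s.toSet := by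
    refine Set.mem_iUnion₂.2 ⟨C, hC, ?_, fun h => hχ (h rfl)⟩
    rintro _ ⟨j, rfl⟩
    rw [hg]
    exact zero_mem (RingHom.ker χ)
  rw [hs] at h3
  obtain ⟨q, hq⟩ := h3
  obtain ⟨χ', h'⟩ := LitChev_point (F := F) q.asIdeal q.isPrime.ne_top
  refine ⟨χ', fun b => ?_⟩
  have h4 : b - algebraMap F B (χ b) ∈ (PrimeSpectrum.comap (i : B →+* R) q).asIdeal := by
    rw [hq]
    change χ (b - algebraMap F B (χ b)) = 0
    rw [map_sub, χ.commutes]
    exact sub_self _
  have h5 := h' (i (b - algebraMap F B (χ b))) h4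
  rw [map_sub, map_sub, i.commutes, χ'.commutes, sub_eq_zero] at h5
  exact h5

variable {X Y : Type} {A : Subalgebra F (X → F)} {B : Subalgebra F (Y → F)}

theorem LitChev_extend {B R : Type} [CommRing B] [CommRing R] [IsDomain R] [Algebra F B]
    [Algebra F R] [Algebra.FiniteType F B] [Algebra.FiniteType F R] (ψ : B →ₐ[F] R) :
    ∃ c : B, ψ c ≠ 0 ∧ ∀ χ : B →ₐ[F] F, (∀ b, ψ b = 0 → χ b = 0) → χ c ≠ 0 →
      ∃ χ' : R →ₐ[F] F, ∀ b, χ' (ψ b) = χ b := by
  obtain ⟨c, hc, h⟩ := exists_extend (Ideal.kerLiftAlg ψ) (Ideal.kerLiftAlg_injective ψ)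
  obtain ⟨c, rfl⟩ := Ideal.Quotient.mk_surjective c
  refine ⟨c, fun h0 => hc (Ideal.Quotient.eq_zero_iff_mem.2 h0), fun χ h0 hχ => ?_⟩
  obtain ⟨χ', h'⟩ := h (Ideal.Quotient.liftₐ _ χ h0) hχ
  exact ⟨χ', fun b => h' (Ideal.Quotient.mk _ b)⟩

/-- restriction of functions along a map -/
def LitChev_res {Z : Type} (A : Subalgebra F (X → F)) (φ : Z → X) : A →ₐ[F] (Z → F) where
  toFun f z := f.1 (φ z)
  map_one' := rfl
  map_mul' _ _ := rfl
  map_zero' := rfl
  map_add' _ _ := rfl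
  commutes' _ := rfl

/-- Let `R` be the image of `A` in the functions on `S` (a domain as `S` is irreducible) and
`B' ≤ R` the image of `B` under `f ↦ f ∘ φ`. A point `y` of the closure of `φ '' S` defines a
homomorphism `B' → F`; extend it to `R`, pull back to `A`, and get a point of `zcl A S = S`. -/
theorem chevalley (hA : A.FG) (hA' : Pts A) (hB : B.FG) (hB' : Sep B) {S : Set X} (hS : Cl A S)
    (hS' : Irr A S) {φ : X → Y} (hφ : RegOn A B S φ) :
    ∃ c ∈ B, (∃ x ∈ S, c (φ x) ≠ 0) ∧ ∀ y ∈ zcl B (φ '' S), c y ≠ 0 → y ∈ φ '' S := by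
  have : Algebra.FiniteType F A := (Subalgebra.fg_iff_finiteType A).1 hA
  have : Algebra.FiniteType F B := (Subalgebra.fg_iff_finiteType B).1 hB
  let ρ : A →ₐ[F] (S → F) := LitChev_res A fun s : S => s.1
  have : Algebra.FiniteType F ρ.range :=
    Algebra.FiniteType.of_surjective ρ.rangeRestrict ρ.rangeRestrict_surjective
  have : Nonempty S := hS'.1.to_subtype
  have : NoZeroDivisors ρ.range := ⟨by
    rintro ⟨_, f, rfl⟩ ⟨_, g, rfl⟩ h
    refine (hS'.2 f f.2 g g.2 fun s hs => congrFun (congrArg Subtype.val h) ⟨s, hs⟩).imp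
      (fun h => Subtype.ext (funext fun s => h s s.2)) fun h => Subtype.ext (funext fun s => h s s.2)⟩
  have : IsDomain ρ.range := NoZeroDivisors.to_isDomain _
  let ψ : B →ₐ[F] ρ.range := (LitChev_res B fun s : S => φ s.1).codRestrict ρ.range fun f => by
    obtain ⟨g, hg, e⟩ := hφ f f.2
    exact ⟨⟨g, hg⟩, funext fun s => (e s s.2).symm⟩
  obtain ⟨c, hc, h⟩ := LitChev_extend ψ
  refine ⟨c, c.2, ?_, fun y hy hcy => ?_⟩
  · by_contra hn
    push Not at hn
    exact hc (Subtype.ext (funext fun s => hn s s.2))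
  obtain ⟨χ, hχ⟩ := h ((Pi.evalAlgHom F (fun _ => F) y).comp B.val)
    (fun f hf => hy f f.2 (by
      rintro _ ⟨s, hs, rfl⟩
      exact congrFun (congrArg Subtype.val hf) ⟨s, hs⟩)) hcy
  obtain ⟨x, hx⟩ := hA' (χ.comp ρ.rangeRestrict)
  have hxS : x ∈ S := hS fun f hf h0 => by
    have h1 : ρ.rangeRestrict ⟨f, hf⟩ = 0 := Subtype.ext (funext fun s => h0 s s.2)
    have h2 := hx ⟨f, hf⟩
    rw [AlgHom.comp_apply, h1, map_zero] at h2
    exact h2.symm
  refine ⟨x, hxS, hB' _ _ fun f hf => ?_⟩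
  obtain ⟨g, hg, e⟩ := hφ f hf
  have h1 : ρ.rangeRestrict ⟨g, hg⟩ = ψ ⟨f, hf⟩ := Subtype.ext (funext fun s => (e s s.2).symm)
  have h2 := hx ⟨g, hg⟩
  rw [AlgHom.comp_apply, h1] at h2
  rw [e x hxS]
  exact h2.symm.trans (hχ ⟨f, hf⟩)

end Pool.Agent.Work.MP_bb5f23_al.Lit
end

-- merged part: Pool.Agent.Work.MP_bb5f23_al.LitLK
section
/-! The Lie-Kolchin theorem. -/

namespace Pool.Agent.Work.MP_bb5f23_al.Lit

open scoped commutatorElement

variable {F : Type} [Field F] {n : ℕ}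

/-- Every nonzero rational representation has a common eigenvector. -/
def Tri (Q : Subgroup (GL (Fin n) F)) : Prop :=
  ∀ (L : Type) [AddCommGroup L] [Module F L] [FiniteDimensional F L] (ρ : RRep Q L),
    (∃ v : L, v ≠ 0) → ∃ v : L, v ≠ 0 ∧ ∀ g ∈ Q, ∃ a : F, ρ.op g v = a • v

theorem IsUnip.tri [IsFbar F] {Q : Subgroup (GL (Fin n) F)} (h : IsUnip Q) : Tri Q := by
  intro L _ _ _ ρ hne
  obtain ⟨w, hw, hfix⟩ := exists_fixed h ρ.toRep hne
  exact ⟨w, hw, fun g hg => ⟨1, (hfix ⟨g, hg⟩).trans (one_smul _ _).symm⟩⟩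

variable [IsAlgClosed F]

/-- A family of commuting operators on a nonzero space has a common eigenvector (take a minimal
nonzero invariant subspace; every operator is a scalar on it). -/
theorem exists_common_eigen {W : Type} [AddCommGroup W] [Module F W] [FiniteDimensional F W]
    {S : Set (Module.End F W)} (hc : ∀ a ∈ S, ∀ b ∈ S, Commute a b) (h : ∃ w : W, w ≠ 0) :
    ∃ w : W, w ≠ 0 ∧ ∀ a ∈ S, ∃ c : F, a w = c • w := by
  obtain ⟨w₀, hw₀⟩ := h
  obtain ⟨U, ⟨hU0, hU⟩, hmin⟩ := IsArtinian.set_has_minimal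
    {U : Submodule F W | U ≠ ⊥ ∧ ∀ a ∈ S, ∀ x ∈ U, a x ∈ U}
    ⟨⊤, (Submodule.ne_bot_iff _).2 ⟨w₀, trivial, hw₀⟩, fun _ _ _ _ => trivial⟩
  obtain ⟨w, hwU, hw⟩ := (Submodule.ne_bot_iff _).1 hU0
  refine ⟨w, hw, fun a ha => ?_⟩
  have : Nontrivial U := Submodule.nontrivial_iff_ne_bot.2 hU0
  obtain ⟨c, hc'⟩ := Module.End.exists_eigenvalue (a.restrict (hU a ha))
  obtain ⟨v, hv⟩ := hc'.exists_hasEigenvector
  have hv1 : a v = c • (v : W) := congrArg Subtype.val hv.apply_eq_smul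
  have h1 : U ⊓ a.eigenspace c = U := by
    refine (eq_or_lt_of_le inf_le_left).resolve_right (hmin _ ⟨?_, ?_⟩)
    · exact (Submodule.ne_bot_iff _).2 ⟨v, ⟨v.2, Module.End.mem_eigenspace_iff.2 hv1⟩,
        fun h0 => hv.2 (Subtype.ext h0)⟩
    · intro b hb x hx
      refine ⟨hU b hb x hx.1, Module.End.mem_eigenspace_iff.2 ?_⟩
      have h2 : a (b x) = b (a x) := LinearMap.congr_fun (hc a ha b hb).eq x
      rw [h2, Module.End.mem_eigenspace_iff.1 hx.2, map_smul]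
  rw [← h1] at hwU
  exact ⟨c, Module.End.mem_eigenspace_iff.1 hwU.2⟩

/-- Let `D = ⁅Q, Q⁆` and `v` a common eigenvector of `D`, `φ v = 1`, `χ d = φ (ρ d v)`,
`E = {w | ∀ d ∈ D, ρ d w = χ d • w}`. For `w ∈ E`, `w ≠ 0`, fixed `d`, the function
`h ↦ ψ (ρ (h⁻¹ d h) w)` (`ψ w = 1`) is regular on `Q` with values among the eigenvalues of `ρ d`
(`ρ d (ρ h w) = χ (h⁻¹ d h) • ρ h w`), hence constant (`Irr.eq_of_finite`): `E` is `Q`-stable. On
`E` every `d ∈ D` has determinant `1`, so `χ d ^ dim E = 1` and `χ = 1` (`Irr.eq_of_pow`,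
`Irr.commutator`). So `Q` acts on `E` by commuting operators. -/
theorem tri_of_commutator {Q : Subgroup (GL (Fin n) F)}
    (hQ : Irr (glA F n) (Q : Set (GL (Fin n) F))) (h : Tri ⁅Q, Q⁆) : Tri Q := by
  intro L _ _ _ ρ hne
  have hD : ⁅Q, Q⁆ ≤ Q := Subgroup.commutator_le.2 fun a ha b hb =>
    Q.mul_mem (Q.mul_mem (Q.mul_mem ha hb) (Q.inv_mem ha)) (Q.inv_mem hb)
  have hconj : ∀ g ∈ Q, ∀ d ∈ ⁅Q, Q⁆, g⁻¹ * d * g ∈ ⁅Q, Q⁆ := by
    intro g hg d hd
    have h1 : g⁻¹ * d * g = ⁅g⁻¹, d⁆ * d := by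
      rw [commutatorElement_def]
      group
    rw [h1]
    exact Subgroup.mul_mem _ (Subgroup.commutator_mem_commutator (Q.inv_mem hg) (hD hd)) hd
  obtain ⟨v, hv, heig⟩ := h L (ρ.res hD) hne
  obtain ⟨φ, hφ⟩ : ∃ φ : Module.Dual F L, φ v = 1 := Module.Projective.exists_dual_eq_one F hv
  obtain ⟨χ, hχ, hχ'⟩ := ρ.reg φ v
  have hχv : ∀ d ∈ ⁅Q, Q⁆, ρ.op d v = χ d • v := by
    intro d hd
    obtain ⟨a, ha⟩ := heig d hd
    rw [RRep.res_op] at ha
    rw [← hχ' d (hD hd), ha, map_smul, hφ, smul_eq_mul, mul_one]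
  let E : Submodule F L :=
    { carrier := {w | ∀ d ∈ ⁅Q, Q⁆, ρ.op d w = χ d • w}
      zero_mem' := fun d _ => by simp
      add_mem' := fun ha hb d hd => by rw [map_add, ha d hd, hb d hd, smul_add]
      smul_mem' := fun a w hw d hd => by rw [map_smul, hw d hd, smul_comm] }
  have hmove : ∀ g ∈ Q, ∀ d ∈ ⁅Q, Q⁆, ∀ w ∈ E,
      ρ.op d (ρ.op g w) = χ (g⁻¹ * d * g) • ρ.op g w := by
    intro g hg d hd w hw
    have h1 : d * g = g * (g⁻¹ * d * g) := by group
    rw [← ρ.op_mul_apply (hD hd) hg, h1, ρ.op_mul_apply hg (hD (hconj g hg d hd)),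
      hw _ (hconj g hg d hd), map_smul]
  have hconst : ∀ g ∈ Q, ∀ d ∈ ⁅Q, Q⁆, χ (g⁻¹ * d * g) = χ d := by
    intro g hg d hd
    have h1 : (fun x : GL (Fin n) F => χ (x⁻¹ * d * x)) ∈ glA F n :=
      ((reg_inv.mul (reg_const _ _ d)).mul (Reg.id _)) χ hχ
    have h2 := hQ.eq_of_finite h1 ((Module.End.finite_hasEigenvalue (ρ.op d)).subset ?_) hg
      Q.one_mem
    · simpa using h2
    · rintro _ ⟨x, hx, rfl⟩
      exact Module.End.hasEigenvalue_of_hasEigenvector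
        ⟨Module.End.mem_eigenspace_iff.2 (hmove x hx d hd v hχv), ρ.op_ne_zero hx hv⟩
  have hE : ρ.Stable E := fun g hg w hw d hd => by rw [hmove g hg d hd w hw, hconst g hg d hd]
  obtain ⟨τ, hτ⟩ := ρ.exists_sub hE
  have hτD : ∀ d ∈ ⁅Q, Q⁆, τ.op d = χ d • LinearMap.id := fun d hd =>
    LinearMap.ext fun w => Subtype.ext ((hτ d (hD hd) w).trans (w.2 d hd))
  have hdet : ∀ d ∈ ⁅Q, Q⁆, LinearMap.det (τ.op d) = 1 := by
    have h1 : ⁅Q, Q⁆ ≤ ((LinearMap.det.comp τ.toRep).toHomUnits.ker).map Q.subtype := by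
      refine Subgroup.commutator_le.2 fun a ha b hb => ⟨⁅(⟨a, ha⟩ : Q), ⟨b, hb⟩⁆, ?_, rfl⟩
      rw [SetLike.mem_coe, MonoidHom.mem_ker, map_commutatorElement,
        commutatorElement_eq_one_iff_commute]
      exact Commute.all _ _
    intro d hd
    obtain ⟨d', hd', rfl⟩ := h1 hd
    exact congrArg Units.val (MonoidHom.mem_ker.1 hd')
  have hv' : (⟨v, hχv⟩ : E) ≠ 0 := fun h0 => hv (congrArg Subtype.val h0)
  have : Nontrivial E := ⟨_, _, hv'⟩
  have hone : ∀ d ∈ ⁅Q, Q⁆, χ d = 1 := by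
    intro d hd
    have h1 := hQ.commutator.eq_of_pow hχ (Module.finrank_pos (R := F) (M := E))
      (fun x hx => by
        have h2 := hdet x hx
        rwa [hτD x hx, LinearMap.det_smul, LinearMap.det_id, mul_one] at h2) hd (Subgroup.one_mem _)
    rw [h1, ← hχ' 1 Q.one_mem, ρ.op_one_apply, hφ]
  obtain ⟨w, hw, hw'⟩ := exists_common_eigen (S := τ.op '' (Q : Set (GL (Fin n) F)))
    (by
      rintro _ ⟨a, ha, rfl⟩ _ ⟨b, hb, rfl⟩
      have h1 : a * b = ⁅a, b⁆ * (b * a) := by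
        rw [commutatorElement_def]
        group
      have h2 := Subgroup.commutator_mem_commutator ha hb
      change τ.op a * τ.op b = τ.op b * τ.op a
      rw [← τ.op_mul a ha b hb, h1, τ.op_mul _ (hD h2) _ (Q.mul_mem hb ha), hτD _ h2, hone _ h2,
        one_smul, τ.op_mul b hb a ha]
      rfl) ⟨_, hv'⟩
  refine ⟨w, fun h0 => hw (Subtype.ext h0), fun g hg => ?_⟩
  obtain ⟨a, ha⟩ := hw' _ ⟨g, hg, rfl⟩
  exact ⟨a, (hτ g hg w).symm.trans (congrArg Subtype.val ha)⟩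

/-- Lie-Kolchin. Induction on `k` with `(fun H => ⁅H, H⁆)^[k] Q = ⊥`; the image of
`derivedSeries Q k` under `Q.subtype` is this iterate (`Subgroup.map_commutator`). -/
theorem tri_of_solvable {Q : Subgroup (GL (Fin n) F)}
    (hQ : Irr (glA F n) (Q : Set (GL (Fin n) F))) (h : Group.IsSolvable Q) : Tri Q := by
  have key : ∀ (k : ℕ) (H : Subgroup (GL (Fin n) F)), Irr (glA F n) (H : Set (GL (Fin n) F)) →
      (fun H : Subgroup (GL (Fin n) F) => ⁅H, H⁆)^[k] H = ⊥ → Tri H := by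
    intro k
    induction k with
    | zero =>
      rintro H - (rfl : H = ⊥) L _ _ _ ρ ⟨v, hv⟩
      refine ⟨v, hv, fun g hg => ⟨1, ?_⟩⟩
      rw [Subgroup.mem_bot.1 hg, ρ.op_one_apply, one_smul]
    | succ k ih => exact fun H hH hk => tri_of_commutator hH (ih _ hH.commutator hk)
  have hmap : ∀ k, (derivedSeries Q k).map Q.subtype =
      (fun H : Subgroup (GL (Fin n) F) => ⁅H, H⁆)^[k] Q := by
    intro k
    induction k with
    | zero => exact (MonoidHom.range_eq_map _).symm.trans Q.range_subtype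
    | succ k ih =>
      rw [derivedSeries_succ, Subgroup.map_commutator, ih, Function.iterate_succ_apply']
  obtain ⟨k, hk⟩ := h
  refine key k Q hQ ?_
  rw [← hmap, hk, Subgroup.map_bot]

end Pool.Agent.Work.MP_bb5f23_al.Lit
end
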