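import Pool.Agent.Work.MP_bb5f23_al.KL1

-- merged part: Pool.Agent.Work.MP_bb5f23_al.Rank1
section
/-! Rank one relations and the action of `N` on the roots. -/

namespace Pool.Agent.Work.MP_bb5f23_al

namespace Datum

variable {F : Type} [Field F] {G : Type*} [Group G] (D : Datum F G)

theorem x_add (α : Fin D.r → ℤ) (a b : F) : D.x α (a + b) = D.x α a * D.x α b := by
  simp [PreDatum.x, ofAdd_add]

theorem x_zero (α : Fin D.r → ℤ) : D.x α 0 = 1 := by simp [PreDatum.x]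

theorem x_neg (α : Fin D.r → ℤ) (a : F) : D.x α (-a) = (D.x α a)⁻¹ := by
  simp [PreDatum.x, ofAdd_neg]

theorem x_mem (α : Fin D.r → ℤ) (a : F) : D.x α a ∈ D.rootSub α := ⟨_, rfl⟩

theorem mem_rootSub {α : Fin D.r → ℤ} {g : G} : g ∈ D.rootSub α ↔ ∃ a, g = D.x α a :=
  ⟨fun ⟨a, ha⟩ => ⟨a.toAdd, ha.symm⟩, fun ⟨_, ha⟩ => ha ▸ D.x_mem _ _⟩

theorem x_injective {α : Fin D.r → ℤ} (hα : α ∈ D.Phi) : Function.Injective (D.x α) :=
  fun _ _ h => Multiplicative.ofAdd.injective (D.x_inj α hα h)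

theorem mem_pos {α : Fin D.r → ℤ} :
    α ∈ D.pos ↔ α ∈ D.Phi ∧ α ∈ AddSubmonoid.closure (D.Delta : Set (Fin D.r → ℤ)) := by
  simp [PreDatum.pos]

theorem pos_sub : D.pos ⊆ D.Phi := fun _ h => (D.mem_pos.1 h).1

theorem delta_pos {α : Fin D.r → ℤ} (h : α ∈ D.Delta) : α ∈ D.pos :=
  D.mem_pos.2 ⟨D.delta_sub h, AddSubmonoid.subset_closure h⟩

theorem mem_posOut {J : Finset (Fin D.r → ℤ)} {β : Fin D.r → ℤ} :
    β ∈ D.posOut J ↔ β ∈ D.pos ∧ β ∉ AddSubmonoid.closure (J : Set (Fin D.r → ℤ)) := by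
  simp [posOut]

theorem mem_Psi {m : G} {β : Fin D.r → ℤ} : β ∈ D.Psi m ↔ β ∈ D.pos ∧ D.act m β ∈ D.pos := by
  simp [Psi]

theorem mem_Ith {A : Type*} [CommGroup A] {θ : D.T →* A} {α : Fin D.r → ℤ} :
    α ∈ D.Ith θ ↔ α ∈ D.Delta ∧ ∀ a, θ ⟨D.h α a, D.h_mem α a⟩ = 1 := by
  simp [Ith]

theorem x_mem_U {α : Fin D.r → ℤ} (hα : α ∈ D.pos) (a : F) : D.x α a ∈ D.U :=
  (le_iSup₂_of_le (f := fun α (_ : α ∈ D.pos) => D.rootSub α) α hα le_rfl) (D.x_mem α a)

theorem x_mem_Uneg {α : Fin D.r → ℤ} (hα : α ∈ D.pos) (a : F) : D.x (-α) a ∈ D.Uneg :=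
  (le_iSup₂_of_le (f := fun α (_ : α ∈ D.pos) => D.rootSub (-α)) α hα le_rfl) (D.x_mem (-α) a)

theorem T_le_B : D.T ≤ D.B := le_sup_left

theorem U_le_B : D.U ≤ D.B := le_sup_right

theorem B_le_P (J : Finset (Fin D.r → ℤ)) : D.B ≤ D.P J := le_sup_left

theorem NJ_le_P (J : Finset (Fin D.r → ℤ)) : D.NJ J ≤ D.P J := le_sup_right

theorem s_mem_NJ {J : Finset (Fin D.r → ℤ)} {j : Fin D.r → ℤ} (hj : j ∈ J) : D.s j ∈ D.NJ J :=
  Subgroup.subset_closure ⟨j, hj, rfl⟩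

theorem NJ_mono {J K : Finset (Fin D.r → ℤ)} (h : J ⊆ K) : D.NJ J ≤ D.NJ K :=
  Subgroup.closure_mono (Set.image_mono h)

theorem T_comm {t t' : G} (ht : t ∈ D.T) (ht' : t' ∈ D.T) : t * t' = t' * t := by
  obtain ⟨z, rfl⟩ := ht
  obtain ⟨z', rfl⟩ := ht'
  rw [← map_mul, ← map_mul, mul_comm]

theorem T_le_N : D.T ≤ D.N := Subgroup.le_normalizer

theorem conj_mem_T {m t : G} (hm : m ∈ D.N) (ht : t ∈ D.T) : m * t * m⁻¹ ∈ D.T := (hm t).1 ht

theorem h_mul (α : Fin D.r → ℤ) (a b : Fˣ) : D.h α (a * b) = D.h α a * D.h α b := by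
  simp [h, cochar_mul]

theorem h_one (α : Fin D.r → ℤ) : D.h α 1 = 1 := by
  have : cochar (D.co α) (1 : Fˣ) = 1 := by
    ext i
    simp [cochar]
  simp [h, this]

theorem h_inv (α : Fin D.r → ℤ) (a : Fˣ) : D.h α a⁻¹ = (D.h α a)⁻¹ := by
  rw [eq_inv_iff_mul_eq_one, ← h_mul, inv_mul_cancel, h_one]

theorem NJ_finite [IsFbar F] (J : Finset (Fin D.r → ℤ)) : (D.NJ J : Set G).Finite :=
  closure_finite D.rho D.rho_inj (J.finite_toSet.image _)

include D in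
theorem finOrder [IsFbar F] (g : G) : IsOfFinOrder g := isOfFinOrder_of_rho D.rho D.rho_inj g

/-! The following identities are images under `phi α` of identities of 2 by 2 matrices. -/

section sl2

open scoped MatrixGroups

/-- Upper unipotent matrix. -/
def Rank1_U (a : F) : SL(2, F) := ⟨!![1, a; 0, 1], by simp [Matrix.det_fin_two]⟩

/-- Lower unipotent matrix. -/
def Rank1_L (a : F) : SL(2, F) := ⟨!![1, 0; a, 1], by simp [Matrix.det_fin_two]⟩

/-- Diagonal matrix. -/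
def Rank1_H (t : Fˣ) : SL(2, F) :=
  ⟨!![(t : F), 0; 0, (t⁻¹ : Fˣ)], by simp [Matrix.det_fin_two]⟩

/-- The Weyl element. -/
def Rank1_S (F : Type) [Field F] : SL(2, F) := ⟨!![0, 1; -1, 0], by simp [Matrix.det_fin_two]⟩

theorem Rank1_Uv (a : F) : (Rank1_U a).1 = !![1, a; 0, 1] := rfl

theorem Rank1_Lv (a : F) : (Rank1_L a).1 = !![1, 0; a, 1] := rfl

theorem Rank1_Hv (t : Fˣ) : (Rank1_H t).1 = !![(t : F), 0; 0, (t⁻¹ : Fˣ)] := rfl

theorem Rank1_Sv : (Rank1_S F).1 = !![0, 1; -1, 0] := rfl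

theorem Rank1_mul (g h : SL(2, F)) : (g * h).1 = g.1 * h.1 := rfl

theorem Rank1_ext {g h : SL(2, F)} (e : g.1 = h.1) : g = h := Subtype.ext e

theorem Rank1_s (α : Fin D.r → ℤ) : D.s α = D.phi α (Rank1_S F) := rfl

variable {α : Fin D.r → ℤ} (hα : α ∈ D.Delta)
include hα

theorem Rank1_u (a : F) : D.x α a = D.phi α (Rank1_U a) := (D.phi_upper α hα a _ rfl).symm

theorem Rank1_l (a : F) : D.x (-α) a = D.phi α (Rank1_L a) := (D.phi_lower α hα a _ rfl).symm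

theorem Rank1_h (t : Fˣ) : D.h α t = D.phi α (Rank1_H t) := (D.phi_diag α hα t _ rfl).symm

theorem h_mul_s (a : Fˣ) :
    D.h α a * D.s α = D.x α a * D.x (-α) (-(a⁻¹ : Fˣ)) * D.x α a := by
  rw [D.Rank1_h hα, D.Rank1_s, D.Rank1_u hα, D.Rank1_l hα, ← map_mul, ← map_mul, ← map_mul]
  congr 1
  apply Rank1_ext
  simp only [Rank1_mul, Rank1_Uv, Rank1_Lv, Rank1_Hv, Rank1_Sv, Matrix.mul_fin_two]
  simp

theorem s_mul_s : D.s α * D.s α = D.h α (-1) := by
  rw [D.Rank1_h hα, D.Rank1_s, ← map_mul]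
  congr 1
  apply Rank1_ext
  simp only [Rank1_mul, Rank1_Hv, Rank1_Sv, Matrix.mul_fin_two]
  simp

theorem s_h (a : Fˣ) : D.s α * D.h α a * (D.s α)⁻¹ = D.h α a⁻¹ := by
  rw [mul_inv_eq_iff_eq_mul, D.Rank1_h hα, D.Rank1_h hα, D.Rank1_s, ← map_mul, ← map_mul]
  congr 1
  apply Rank1_ext
  simp only [Rank1_mul, Rank1_Hv, Rank1_Sv, Matrix.mul_fin_two]
  simp

theorem h_x (a : Fˣ) (b : F) : D.h α a * D.x α b * (D.h α a)⁻¹ = D.x α ((a : F) ^ 2 * b) := by
  rw [mul_inv_eq_iff_eq_mul, D.Rank1_h hα, D.Rank1_u hα, D.Rank1_u hα, ← map_mul, ← map_mul]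
  congr 1
  apply Rank1_ext
  simp only [Rank1_mul, Rank1_Uv, Rank1_Hv, Matrix.mul_fin_two]
  have : (a : F) ^ 2 * b * (a : F)⁻¹ = a * b := by field_simp
  simp [this]

theorem s_x (a : F) : D.s α * D.x α a * (D.s α)⁻¹ = D.x (-α) (-a) := by
  rw [mul_inv_eq_iff_eq_mul, D.Rank1_l hα, D.Rank1_u hα, D.Rank1_s, ← map_mul, ← map_mul]
  congr 1
  apply Rank1_ext
  simp only [Rank1_mul, Rank1_Uv, Rank1_Lv, Rank1_Sv, Matrix.mul_fin_two]
  simp

theorem s_x_rel (a : Fˣ) : D.s α * D.x α a * (D.s α)⁻¹ =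
    D.x α (-(a⁻¹ : Fˣ)) * D.h α a⁻¹ * D.s α * D.x α (-(a⁻¹ : Fˣ)) := by
  rw [D.s_x hα, D.Rank1_l hα, D.Rank1_u hα, D.Rank1_h hα, D.Rank1_s, ← map_mul, ← map_mul,
    ← map_mul]
  congr 1
  apply Rank1_ext
  simp only [Rank1_mul, Rank1_Uv, Rank1_Lv, Rank1_Hv, Rank1_Sv, Matrix.mul_fin_two]
  simp

/-- `[[1,c],[0,1]] [[1,0],[-d,1]] [[1,c],[0,1]]` lies in the big cell when `e = 1 - c d ≠ 0`. -/
theorem big_cell (c d : F) (e : Fˣ) (he : (e : F) = 1 - c * d) :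
    ∃ f, D.x α c * D.x (-α) (-d) * D.x α c = D.x (-α) (-d / e) * D.h α e * D.x α f := by
  refine ⟨(e * c + c) / e, ?_⟩
  rw [D.Rank1_l hα, D.Rank1_l hα, D.Rank1_u hα, D.Rank1_u hα, D.Rank1_h hα, ← map_mul, ← map_mul,
    ← map_mul, ← map_mul]
  congr 1
  apply Rank1_ext
  simp only [Rank1_mul, Rank1_Uv, Rank1_Lv, Rank1_Hv, Matrix.mul_fin_two]
  have he0 : (e : F) ≠ 0 := e.ne_zero
  have hcd : c * d = 1 - e := by rw [he]; ring
  ext i j
  fin_cases i <;> fin_cases j <;> simp <;> field_simp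
  · linear_combination -hcd
  · linear_combination (-c) * hcd
  · linear_combination hcd

/-- From `h_mul_s` and `tau_x` (for `α` and `-α`, `mon_neg`). -/
theorem tau_s (z : Fin D.r → Fˣ) :
    D.tau z * D.s α * (D.tau z)⁻¹ = D.h α (mon α z) * D.s α := by
  have h1 := D.h_mul_s hα 1
  rw [D.h_one, one_mul] at h1
  have h2 := D.tau_x α (D.delta_sub hα) z ((1 : Fˣ) : F)
  have h3 := D.tau_x (-α) (D.neg_mem α (D.delta_sub hα)) z (-((1 : Fˣ)⁻¹ : Fˣ))
  rw [D.h_mul_s hα]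
  have e2 : ((mon α z : Fˣ) : F) * ((1 : Fˣ) : F) = mon α z := by simp
  have e3 : ((mon (-α) z : Fˣ) : F) * (-((1 : Fˣ)⁻¹ : Fˣ)) = -(((mon α z)⁻¹ : Fˣ) : F) := by
    simp [mon_neg]
  rw [e2] at h2
  rw [e3] at h3
  rw [← h2, ← h3]
  conv_lhs => rw [h1]
  group

theorem s_tau (z : Fin D.r → Fˣ) :
    D.s α * D.tau z * (D.s α)⁻¹ = D.tau z * D.h α (mon α z)⁻¹ := by
  have h1 := D.tau_s hα z
  rw [D.T_comm (D.tau_mem z) (D.h_mem α _), D.h_inv]
  have h2 : D.tau z = D.h α (mon α z) * D.s α * D.tau z * (D.s α)⁻¹ := by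
    rw [← h1]
    group
  conv_rhs => rw [h2]
  group

/-- For the reverse inclusion use `s⁻¹ = s * h (-1)⁻¹`. -/
theorem s_mem_N : D.s α ∈ D.N := by
  have key : ∀ t ∈ D.T, D.s α * t * (D.s α)⁻¹ ∈ D.T := by
    rintro _ ⟨z, rfl⟩
    rw [D.s_tau hα]
    exact D.T.mul_mem (D.tau_mem z) (D.h_mem α _)
  refine Subgroup.mem_normalizer_iff.2 fun t => ⟨key t, fun ht => ?_⟩
  have h1 := key _ (D.T.mul_mem (D.T.mul_mem (D.T.inv_mem (D.h_mem α (-1))) ht) (D.h_mem α (-1)))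
  rw [← D.s_mul_s hα] at h1
  convert h1 using 1
  group

/-- Compare `h_x` with `tau_x`, use `x_injective`, `mon_cochar`, `eq_zero_of_forall_zpow`. -/
theorem dot_co [IsAlgClosed F] : α ⬝ᵥ D.co α = 2 := by
  have key : ∀ t : Fˣ, t ^ (α ⬝ᵥ D.co α - 2) = 1 := by
    intro t
    have h1 := D.h_x hα t 1
    have h2 := D.tau_x α (D.delta_sub hα) (cochar (D.co α) t) 1
    have h3 := D.x_injective (D.delta_sub hα) (h2.symm.trans h1)
    rw [mon_cochar, mul_one, mul_one] at h3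
    have h4 : t ^ (α ⬝ᵥ D.co α) = t ^ (2 : ℤ) := by
      ext
      rw [h3]
      simp [zpow_ofNat]
    rw [zpow_sub, h4, mul_inv_cancel]
  exact sub_eq_zero.1 (eq_zero_of_forall_zpow key)

/-- The operators of `SL(2)` attached to a simple root. -/
noncomputable def sl2Op {k V : Type*} [Field k] [AddCommGroup V] [Module k V]
    (ρ : Representation k G V) : SL2Op F k V where
  u a := ρ (D.x α a)
  h a := ρ (D.h α a)
  s := ρ (D.s α)
  u_zero := by rw [D.x_zero, map_one]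
  u_add a b := by rw [D.x_add, map_mul]
  h_one := by rw [D.h_one, map_one]
  h_mul a b := by rw [D.h_mul, map_mul]
  h_u a b := by rw [← map_mul, ← map_mul, ← D.h_x hα, inv_mul_cancel_right]
  s_h a := by rw [← map_mul, ← map_mul, ← D.s_h hα, inv_mul_cancel_right]
  s_s := by rw [← map_mul, D.s_mul_s hα]
  s_u a := by
    rw [← map_mul, ← map_mul, ← map_mul, ← map_mul, ← map_mul, ← D.s_x_rel hα,
      inv_mul_cancel_right]

end sl2

theorem NJ_le_N {J : Finset (Fin D.r → ℤ)} (hJ : J ⊆ D.Delta) : D.NJ J ≤ D.N := by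
  refine (Subgroup.closure_le _).2 ?_
  rintro _ ⟨j, hj, rfl⟩
  exact D.s_mem_N (hJ hj)

/-! The action on the lattice. -/

theorem act_spec {m : G} (hm : m ∈ D.N) (γ : Fin D.r → ℤ) {z z' : Fin D.r → Fˣ}
    (h : D.tau z' = m * D.tau z * m⁻¹) : mon (D.act m γ) z' = mon γ z := by
  rw [act, dif_pos hm]
  exact (D.weyl m hm).choose_spec.1 γ z z' h

theorem act_mem {m : G} (hm : m ∈ D.N) {β : Fin D.r → ℤ} (hβ : β ∈ D.Phi) :
    D.act m β ∈ D.Phi := by
  rw [act, dif_pos hm]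
  exact ((D.weyl m hm).choose_spec.2 β hβ).1

theorem conj_x {m : G} (hm : m ∈ D.N) {β : Fin D.r → ℤ} (hβ : β ∈ D.Phi) :
    ∃ c : Fˣ, ∀ a, m * D.x β a * m⁻¹ = D.x (D.act m β) (c * a) := by
  rw [act, dif_pos hm]
  exact ((D.weyl m hm).choose_spec.2 β hβ).2

theorem map_rootSub {m : G} (hm : m ∈ D.N) {β : Fin D.r → ℤ} (hβ : β ∈ D.Phi) :
    (D.rootSub β).map (MulAut.conj m).toMonoidHom = D.rootSub (D.act m β) := by
  obtain ⟨c, hc⟩ := D.conj_x hm hβ
  ext g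
  rw [Subgroup.mem_map, D.mem_rootSub]
  constructor
  · rintro ⟨u, hu, rfl⟩
    obtain ⟨a, rfl⟩ := D.mem_rootSub.1 hu
    exact ⟨c * a, hc a⟩
  · rintro ⟨a, rfl⟩
    refine ⟨D.x β ((c⁻¹ : Fˣ) * a), D.x_mem _ _, ?_⟩
    have := hc ((c⁻¹ : Fˣ) * a)
    rw [Units.mul_inv_cancel_left] at this
    exact this

variable [IsAlgClosed F]

/-- Uniqueness: every `z'` arises from some `z` since `m⁻¹` normalises `T`; use `mon_inj`. -/
theorem act_eq {m : G} (hm : m ∈ D.N) {γ δ : Fin D.r → ℤ}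
    (h : ∀ z z', D.tau z' = m * D.tau z * m⁻¹ → mon δ z' = mon γ z) : D.act m γ = δ := by
  refine mon_inj (F := F) fun z' => ?_
  obtain ⟨z, hz⟩ := D.conj_mem_T (D.N.inv_mem hm) (D.tau_mem z')
  have hz' : D.tau z' = m * D.tau z * m⁻¹ := by
    rw [hz]
    group
  rw [D.act_spec hm γ hz', h z z' hz']

theorem act_mul {m m' : G} (hm : m ∈ D.N) (hm' : m' ∈ D.N) (γ : Fin D.r → ℤ) :
    D.act (m * m') γ = D.act m (D.act m' γ) := by
  refine D.act_eq (D.N.mul_mem hm hm') fun z z' h => ?_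
  obtain ⟨w, hw⟩ := D.conj_mem_T hm' (D.tau_mem z)
  have h1 : D.tau z' = m * D.tau w * m⁻¹ := by
    rw [h, hw]
    group
  rw [D.act_spec hm _ h1, D.act_spec hm' _ hw]

/-- Note `act_spec` for `m = 1` shows `tau z = tau z' → mon γ z = mon γ z'` once `act 1 = id`;
prove `act 1 γ = γ` from `act_spec` with `z = z'` and `mon_inj`. -/
theorem act_T {t : G} (ht : t ∈ D.T) (γ : Fin D.r → ℤ) : D.act t γ = γ := by
  refine mon_inj (F := F) fun z => D.act_spec (D.T_le_N ht) γ ?_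
  rw [D.T_comm ht (D.tau_mem z), mul_inv_cancel_right]

theorem act_inv_act {m : G} (hm : m ∈ D.N) (γ : Fin D.r → ℤ) :
    D.act m⁻¹ (D.act m γ) = γ := by
  rw [← D.act_mul (D.N.inv_mem hm) hm, inv_mul_cancel, D.act_T D.T.one_mem]

theorem act_act_inv {m : G} (hm : m ∈ D.N) (γ : Fin D.r → ℤ) :
    D.act m (D.act m⁻¹ γ) = γ := by
  rw [← D.act_mul hm (D.N.inv_mem hm), mul_inv_cancel, D.act_T D.T.one_mem]

theorem act_s {α : Fin D.r → ℤ} (hα : α ∈ D.Delta) (γ : Fin D.r → ℤ) :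
    D.act (D.s α) γ = γ - (γ ⬝ᵥ D.co α) • α := by
  refine mon_inj (F := F) fun z' => ?_
  have h1 : D.tau z' = D.s α * D.tau (z' * cochar (D.co α) (mon α z')⁻¹) * (D.s α)⁻¹ := by
    rw [map_mul]
    change _ = _ * (_ * D.h α _) * _
    rw [← D.s_tau hα]
    have e : D.s α * (D.s α * D.tau z' * (D.s α)⁻¹) * (D.s α)⁻¹ =
        (D.s α * D.s α) * D.tau z' * (D.s α * D.s α)⁻¹ := by group
    rw [e, D.s_mul_s hα, D.T_comm (D.h_mem α _) (D.tau_mem z'), mul_inv_cancel_right]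
  rw [D.act_spec (D.s_mem_N hα) γ h1, mon_mul, mon_cochar, sub_eq_add_neg, mon_add, mon_neg,
    mon_zsmul, inv_zpow]

theorem act_s_self {α : Fin D.r → ℤ} (hα : α ∈ D.Delta) : D.act (D.s α) α = -α := by
  rw [D.act_s hα, D.dot_co hα, two_zsmul]
  abel

theorem act_s_act_s {α : Fin D.r → ℤ} (hα : α ∈ D.Delta) (γ : Fin D.r → ℤ) :
    D.act (D.s α) (D.act (D.s α) γ) = γ := by
  rw [← D.act_mul (D.s_mem_N hα) (D.s_mem_N hα), D.s_mul_s hα, D.act_T (D.h_mem α _)]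

theorem act_s_inv {α : Fin D.r → ℤ} (hα : α ∈ D.Delta) (γ : Fin D.r → ℤ) :
    D.act (D.s α)⁻¹ γ = D.act (D.s α) γ := by
  conv_lhs => rw [← D.act_s_act_s hα γ]
  rw [D.act_inv_act (D.s_mem_N hα)]

omit [IsAlgClosed F] in
theorem Rank1_ne {α : Fin D.r → ℤ} (hα : α ∈ D.pos) : D.rootSub α ≠ D.rootSub (-α) := by
  intro h
  have h1 : D.x α 1 ∈ D.B ⊓ D.Uneg := by
    refine ⟨D.U_le_B (D.x_mem_U hα 1), ?_⟩
    obtain ⟨a, ha⟩ := D.mem_rootSub.1 (h ▸ D.x_mem α 1)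
    rw [ha]
    exact D.x_mem_Uneg hα a
  rw [D.opp, Subgroup.mem_bot, ← D.x_zero α] at h1
  exact one_ne_zero (D.x_injective (D.pos_sub hα) h1)

/-- If `x α 1 = x β c` then conjugating by `tau z` gives `x α (mon α z) = x β (mon β z * c)`;
for `z` with `mon α z = 1` this forces `mon β z = 1`, so by `mon_sep` the roots are proportional,
hence `β = α ∨ β = -α` by `reduced`. To exclude `β = -α` (say `α > 0`) use `opp`. -/
theorem rootSub_inj {α β : Fin D.r → ℤ} (hα : α ∈ D.Phi) (hβ : β ∈ D.Phi)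
    (h : D.rootSub α = D.rootSub β) : α = β := by
  obtain ⟨c, hc⟩ := D.mem_rootSub.1 (h ▸ D.x_mem α 1 : D.x α 1 ∈ D.rootSub β)
  have hc0 : c ≠ 0 := by
    rintro rfl
    rw [D.x_zero, ← D.x_zero α] at hc
    exact one_ne_zero (D.x_injective hα hc)
  have key : ∀ z : Fin D.r → Fˣ, mon α z = 1 → mon β z = 1 := by
    intro z hz
    have h1 := D.tau_x α hα z 1
    have h2 := D.tau_x β hβ z c
    rw [hz, Units.val_one, one_mul, hc, h2] at h1
    have h3 := D.x_injective hβ h1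
    ext
    exact mul_right_cancel₀ hc0 (h3.trans (one_mul c).symm)
  have hprop : ∃ a b : ℤ, a ≠ 0 ∧ a • β = b • α := by
    by_contra hcon
    have h1 : ∀ t : Fˣ, t ^ (1 : ℤ) = 1 := by
      intro t
      obtain ⟨z, hz1, hz2⟩ := mon_sep (F := F) (α := α) (γ := β)
        (fun a b ha he => hcon ⟨a, b, ha, he⟩) t
      rw [zpow_one, ← hz2, key z hz1]
    exact one_ne_zero (eq_zero_of_forall_zpow h1)
  obtain ⟨a, b, ha, hab⟩ := hprop
  rcases D.reduced α hα β hβ a b ha hab with h1 | h1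
  · exact h1.symm
  · exfalso
    subst h1
    rcases D.pos_or_neg α hα with h2 | h2
    · exact D.Rank1_ne h2 h
    · refine D.Rank1_ne h2 ?_
      rw [neg_neg]
      exact h.symm

theorem U'_eq {m : G} (hm : m ∈ D.N) : D.U' m = ⨆ β ∈ D.Psi m, D.rootSub β := by
  refine le_antisymm (iSup₂_le fun α hα => iSup_le ?_) (iSup₂_le fun α hα => ?_)
  · rintro ⟨β, hβ, h⟩
    rw [D.map_rootSub hm (D.pos_sub hα)] at h
    have h1 := D.rootSub_inj (D.act_mem hm (D.pos_sub hα)) (D.pos_sub hβ) h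
    exact le_iSup₂_of_le (f := fun β (_ : β ∈ D.Psi m) => D.rootSub β) α
      (D.mem_Psi.2 ⟨hα, h1 ▸ hβ⟩) le_rfl
  · obtain ⟨h1, h2⟩ := D.mem_Psi.1 hα
    refine le_iSup₂_of_le α h1 (le_iSup_of_le ⟨_, h2, D.map_rootSub hm (D.pos_sub h1)⟩ le_rfl)

end Datum

end Pool.Agent.Work.MP_bb5f23_al
end

-- merged part: Pool.Agent.Work.MP_bb5f23_al.Roots
section
/-! Root combinatorics: positivity, length, parabolic cosets. -/

namespace Pool.Agent.Work.MP_bb5f23_al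

namespace Datum

variable {F : Type} [Field F] {G : Type*} [Group G] (D : Datum F G)

theorem Roots_ext (g : (Fin D.r → ℤ) → ℚ) :
    ∃ c : (Fin D.r → ℤ) →+ ℚ, ∀ δ ∈ D.Delta, c δ = g δ := by
  obtain ⟨c, hc⟩ := (Module.Baer.of_divisible ℚ).extension_property _ D.delta_indep
    (Finsupp.linearCombination ℤ fun δ : D.Delta => g δ)
  refine ⟨c.toAddMonoidHom, fun δ hδ => ?_⟩
  simpa using LinearMap.congr_fun hc (Finsupp.single ⟨δ, hδ⟩ 1)

/-- Dual functionals of the base: extend the linearly independent family `Delta` over `ℚ`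
(or use that `ℚ` is an injective `ℤ`-module). -/
theorem exists_dual : ∃ c : (Fin D.r → ℤ) → ((Fin D.r → ℤ) →+ ℚ),
    ∀ δ ∈ D.Delta, ∀ δ' ∈ D.Delta, c δ δ' = if δ = δ' then 1 else 0 := by
  choose c hc using fun δ : Fin D.r → ℤ => D.Roots_ext fun δ' => if δ = δ' then 1 else 0
  exact ⟨c, fun δ _ => hc δ⟩

/-- The height `∑ δ ∈ Delta, c δ`. -/
theorem exists_ht : ∃ ht : (Fin D.r → ℤ) →+ ℚ, ∀ α ∈ D.pos, 0 < ht α := by
  obtain ⟨c, hc⟩ := D.Roots_ext fun _ => 1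
  have key : ∀ α ∈ AddSubmonoid.closure (D.Delta : Set (Fin D.r → ℤ)), α = 0 ∨ 0 < c α := by
    intro α hα
    induction hα using AddSubmonoid.closure_induction with
    | mem δ hδ => exact Or.inr (by rw [hc δ hδ]; exact one_pos)
    | zero => exact Or.inl rfl
    | add a b _ _ ha hb =>
      rcases ha with rfl | ha
      · rwa [zero_add]
      · rcases hb with rfl | hb
        · exact Or.inr (by rwa [add_zero])
        · exact Or.inr (by rw [map_add]; exact add_pos ha hb)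
  refine ⟨c, fun α hα => (key α (D.mem_pos.1 hα).2).resolve_left ?_⟩
  rintro rfl
  exact D.zero_not_mem (D.pos_sub hα)

theorem neg_not_pos {α : Fin D.r → ℤ} (hα : α ∈ D.pos) : -α ∉ D.pos := fun h => by
  obtain ⟨c, hc⟩ := D.exists_ht
  have h1 := hc _ hα
  have h2 := hc _ h
  rw [map_neg] at h2
  linarith

theorem neg_pos_of_not {α : Fin D.r → ℤ} (hα : α ∈ D.Phi) (h : α ∉ D.pos) : -α ∈ D.pos :=
  (D.pos_or_neg α hα).resolve_left h

/-- A simple root lying in the monoid generated by `J ⊆ Delta` belongs to `J`. -/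
theorem mem_of_mem_closure {J : Finset (Fin D.r → ℤ)} (hJ : J ⊆ D.Delta) {α : Fin D.r → ℤ}
    (hα : α ∈ D.Delta) (h : α ∈ AddSubmonoid.closure (J : Set (Fin D.r → ℤ))) : α ∈ J := by
  by_contra hn
  obtain ⟨c, hc⟩ := D.exists_dual
  have key : ∀ β ∈ AddSubmonoid.closure (J : Set (Fin D.r → ℤ)), c α β = 0 := by
    intro β hβ
    induction hβ using AddSubmonoid.closure_induction with
    | mem δ hδ =>
      rw [hc α hα δ (hJ hδ), if_neg]
      rintro rfl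
      exact hn hδ
    | zero => exact map_zero _
    | add a b _ _ ha hb => rw [map_add, ha, hb, add_zero]
  have h1 := key α h
  rw [hc α hα α hα, if_pos rfl] at h1
  exact one_ne_zero h1

theorem root_cases (J : Finset (Fin D.r → ℤ)) {β : Fin D.r → ℤ} (hβ : β ∈ D.Phi) :
    β ∈ D.posOut J ∨ -β ∈ D.posOut J ∨ D.InSub J β := by
  by_cases h1 : β ∈ AddSubmonoid.closure (J : Set (Fin D.r → ℤ))
  · exact Or.inr (Or.inr ⟨hβ, Or.inl h1⟩)
  by_cases h2 : -β ∈ AddSubmonoid.closure (J : Set (Fin D.r → ℤ))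
  · exact Or.inr (Or.inr ⟨hβ, Or.inr h2⟩)
  rcases D.pos_or_neg β hβ with h | h
  · exact Or.inl (D.mem_posOut.2 ⟨h, h1⟩)
  · exact Or.inr (Or.inl (D.mem_posOut.2 ⟨h, h2⟩))

theorem Roots_prop {α γ : Fin D.r → ℤ} (hα : α ∈ D.pos) (hγ : γ ∈ D.pos) {a b : ℤ} (ha : a ≠ 0)
    (e : a • γ = b • α) : γ = α := by
  refine (D.reduced α (D.pos_sub hα) γ (D.pos_sub hγ) a b ha e).resolve_right ?_
  rintro rfl
  exact D.neg_not_pos hα hγ

variable [IsAlgClosed F]

/-- Distinct positive roots are separated (`reduced`, `mon_sep`, `neg_not_pos`). -/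
theorem root_sep {α γ : Fin D.r → ℤ} (hα : α ∈ D.pos) (hγ : γ ∈ D.pos) (h : α ≠ γ) (a : Fˣ) :
    ∃ z, mon α z = 1 ∧ mon γ z = a :=
  mon_sep (fun _ _ ha e => h (D.Roots_prop hα hγ ha e).symm) a

/-- `β ≠ α` positive is not a multiple of `α` (`reduced`), so it has a positive coordinate at some
simple `δ ≠ α`, which `act_s` does not change. -/
theorem act_s_pos {α β : Fin D.r → ℤ} (hα : α ∈ D.Delta) (hβ : β ∈ D.pos) (h : β ≠ α) :
    D.act (D.s α) β ∈ D.pos ∧ D.act (D.s α) β ≠ α := by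
  constructor
  · by_contra hn
    have h1 := D.neg_pos_of_not (D.act_mem (D.s_mem_N hα) (D.pos_sub hβ)) hn
    obtain ⟨c, hc⟩ := D.Roots_ext fun δ => if δ = α then 0 else 1
    have key : ∀ γ ∈ AddSubmonoid.closure (D.Delta : Set (Fin D.r → ℤ)),
        0 ≤ c γ ∧ (c γ = 0 → ∃ k : ℤ, γ = k • α) := by
      intro γ hγ
      induction hγ using AddSubmonoid.closure_induction with
      | mem δ hδ =>
        rw [hc δ hδ]
        split_ifs with e
        · exact ⟨le_rfl, fun _ => ⟨1, by rw [e, one_smul]⟩⟩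
        · exact ⟨zero_le_one, fun e' => (one_ne_zero e').elim⟩
      | zero => exact ⟨(map_zero c).ge, fun _ => ⟨0, (zero_smul _ _).symm⟩⟩
      | add a b _ _ ha hb =>
        rw [map_add]
        refine ⟨add_nonneg ha.1 hb.1, fun e => ?_⟩
        obtain ⟨k, hk⟩ := ha.2 (by linarith [ha.1, hb.1])
        obtain ⟨l, hl⟩ := hb.2 (by linarith [ha.1, hb.1])
        exact ⟨k + l, by rw [hk, hl, add_smul]⟩
    have h2 := (key _ (D.mem_pos.1 h1).2).1
    rw [D.act_s hα, map_neg, map_sub, map_zsmul, hc α hα, if_pos rfl, smul_zero, sub_zero] at h2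
    have h3 := key _ (D.mem_pos.1 hβ).2
    obtain ⟨k, hk⟩ := h3.2 (by linarith [h3.1])
    exact h (D.Roots_prop (D.delta_pos hα) hβ one_ne_zero (by rw [one_smul]; exact hk))
  · intro e
    have h1 := D.act_s_act_s hα β
    rw [e, D.act_s_self hα] at h1
    exact D.neg_not_pos (D.delta_pos hα) (h1 ▸ hβ)

theorem act_pos_of_closure {m : G} (hm : m ∈ D.N) {J : Finset (Fin D.r → ℤ)}
    (h : ∀ j ∈ J, D.act m j ∈ D.pos) {β : Fin D.r → ℤ} (hβ : β ∈ D.Phi)
    (hβJ : β ∈ AddSubmonoid.closure (J : Set (Fin D.r → ℤ))) : D.act m β ∈ D.pos := by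
  refine D.mem_pos.2 ⟨D.act_mem hm hβ, ?_⟩
  clear hβ
  induction hβJ using AddSubmonoid.closure_induction with
  | mem δ hδ => exact (D.mem_pos.1 (h δ hδ)).2
  | zero =>
    rw [map_zero]
    exact zero_mem _
  | add a b _ _ ha hb =>
    rw [map_add]
    exact add_mem ha hb

theorem act_neg_of_closure {m : G} (hm : m ∈ D.N) {J : Finset (Fin D.r → ℤ)} (hJ : J ⊆ D.Phi)
    (h : ∀ j ∈ J, D.act m j ∉ D.pos) {β : Fin D.r → ℤ} (hβ : β ∈ D.Phi)
    (hβJ : β ∈ AddSubmonoid.closure (J : Set (Fin D.r → ℤ))) : D.act m β ∉ D.pos := fun hp => by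
  refine D.neg_not_pos hp (D.mem_pos.2 ⟨D.neg_mem _ (D.act_mem hm hβ), ?_⟩)
  clear hβ hp
  induction hβJ using AddSubmonoid.closure_induction with
  | mem δ hδ => exact (D.mem_pos.1 (D.neg_pos_of_not (D.act_mem hm (hJ hδ)) (h δ hδ))).2
  | zero =>
    rw [map_zero, neg_zero]
    exact zero_mem _
  | add a b _ _ ha hb =>
    rw [map_add, neg_add]
    exact add_mem ha hb

/-- All positive roots stay positive, so `m` normalises `U`; use `norm_U`. -/
theorem mem_T_of_simple_pos {m : G} (hm : m ∈ D.N) (h : ∀ α ∈ D.Delta, D.act m α ∈ D.pos) :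
    m ∈ D.T := by
  have key : D.U ≤ D.U.comap (MulAut.conj m).toMonoidHom := by
    refine iSup₂_le fun β hβ g hg => ?_
    obtain ⟨a, rfl⟩ := D.mem_rootSub.1 hg
    obtain ⟨c, hc⟩ := D.conj_x hm (D.pos_sub hβ)
    change m * D.x β a * m⁻¹ ∈ D.U
    rw [hc]
    exact D.x_mem_U (D.act_pos_of_closure hm h (D.pos_sub hβ) (D.mem_pos.1 hβ).2) _
  exact D.norm_U m hm fun u hu => key hu

theorem len_eq_zero_iff {m : G} (hm : m ∈ D.N) : D.len m = 0 ↔ m ∈ D.T := by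
  rw [len, Finset.card_eq_zero, Finset.filter_eq_empty_iff]
  refine ⟨fun h => D.mem_T_of_simple_pos hm fun α hα => not_not.1 (h (D.delta_pos hα)),
    fun h β hβ => not_not.2 ?_⟩
  rwa [D.act_T h]

theorem len_mul_T {m t : G} (hm : m ∈ D.N) (ht : t ∈ D.T) : D.len (m * t) = D.len m := by
  simp only [len, D.act_mul hm (D.T_le_N ht), D.act_T ht]

theorem len_T_mul {m t : G} (hm : m ∈ D.N) (ht : t ∈ D.T) : D.len (t * m) = D.len m := by
  simp only [len, D.act_mul (D.T_le_N ht) hm, D.act_T ht]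

theorem Roots_inv {m : G} (hm : m ∈ D.N) : D.len m ≤ D.len m⁻¹ := by
  refine Finset.card_le_card_of_injOn (fun β => -D.act m β) (fun β hβ => ?_) fun β _ γ _ e => ?_
  · simp only [Finset.coe_filter, Set.mem_ofPred_eq] at hβ ⊢
    refine ⟨D.neg_pos_of_not (D.act_mem hm (D.pos_sub hβ.1)) hβ.2, ?_⟩
    rw [map_neg, D.act_inv_act hm]
    exact D.neg_not_pos hβ.1
  · have e' : D.act m β = D.act m γ := neg_injective e
    rw [← D.act_inv_act hm β, e', D.act_inv_act hm]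

/-- The bijection `β ↦ - act m β`. -/
theorem len_inv {m : G} (hm : m ∈ D.N) : D.len m⁻¹ = D.len m :=
  le_antisymm (by simpa only [inv_inv] using D.Roots_inv (inv_mem hm)) (D.Roots_inv hm)

open Classical in
theorem Roots_erase {m : G} (hm : m ∈ D.N) {α : Fin D.r → ℤ} (hα : α ∈ D.Delta) :
    ((D.pos.filter fun β => D.act (m * D.s α) β ∉ D.pos).erase α).card =
      ((D.pos.filter fun β => D.act m β ∉ D.pos).erase α).card := by
  refine Finset.card_nbij' (D.act (D.s α)) (D.act (D.s α)) (fun β hβ => ?_) (fun β hβ => ?_)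
    (fun β _ => D.act_s_act_s hα β) fun β _ => D.act_s_act_s hα β
  · simp only [Finset.mem_coe, Finset.mem_erase, Finset.mem_filter] at hβ ⊢
    obtain ⟨h1, h2⟩ := D.act_s_pos hα hβ.2.1 hβ.1
    exact ⟨h2, h1, by rw [← D.act_mul hm (D.s_mem_N hα)]; exact hβ.2.2⟩
  · simp only [Finset.mem_coe, Finset.mem_erase, Finset.mem_filter] at hβ ⊢
    obtain ⟨h1, h2⟩ := D.act_s_pos hα hβ.2.1 hβ.1
    exact ⟨h2, h1, by rw [D.act_mul hm (D.s_mem_N hα), D.act_s_act_s hα]; exact hβ.2.2⟩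

theorem len_mul_s_of_pos {m : G} (hm : m ∈ D.N) {α : Fin D.r → ℤ} (hα : α ∈ D.Delta)
    (h : D.act m α ∈ D.pos) : D.len (m * D.s α) = D.len m + 1 := by
  classical
  have e := D.Roots_erase hm hα
  have h1 : α ∈ D.pos.filter fun β => D.act (m * D.s α) β ∉ D.pos := by
    refine Finset.mem_filter.2 ⟨D.delta_pos hα, ?_⟩
    rw [D.act_mul hm (D.s_mem_N hα), D.act_s_self hα, map_neg]
    exact D.neg_not_pos h
  have h2 : α ∉ D.pos.filter fun β => D.act m β ∉ D.pos := fun h' => (Finset.mem_filter.1 h').2 h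
  rw [Finset.erase_eq_of_notMem h2] at e
  rw [len, len, ← e, Finset.card_erase_add_one h1]

theorem len_mul_s_of_neg {m : G} (hm : m ∈ D.N) {α : Fin D.r → ℤ} (hα : α ∈ D.Delta)
    (h : D.act m α ∉ D.pos) : D.len (m * D.s α) + 1 = D.len m := by
  classical
  have e := D.Roots_erase hm hα
  have h1 : α ∉ D.pos.filter fun β => D.act (m * D.s α) β ∉ D.pos := fun h' => by
    refine (Finset.mem_filter.1 h').2 ?_
    rw [D.act_mul hm (D.s_mem_N hα), D.act_s_self hα, map_neg]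
    exact D.neg_pos_of_not (D.act_mem hm (D.delta_sub hα)) h
  have h2 : α ∈ D.pos.filter fun β => D.act m β ∉ D.pos := Finset.mem_filter.2 ⟨D.delta_pos hα, h⟩
  rw [Finset.erase_eq_of_notMem h1] at e
  rw [len, len, e, Finset.card_erase_add_one h2]

theorem Roots_s_mul {m : G} (hm : m ∈ D.N) {α : Fin D.r → ℤ} (hα : α ∈ D.Delta) :
    D.len (D.s α * m) = D.len (m⁻¹ * D.s α) := by
  have e : (D.s α * m)⁻¹ = m⁻¹ * D.s α * (D.h α (-1))⁻¹ := by
    rw [← D.s_mul_s hα]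
    group
  rw [← D.len_inv (mul_mem (D.s_mem_N hα) hm), e,
    D.len_mul_T (mul_mem (inv_mem hm) (D.s_mem_N hα)) (inv_mem (D.h_mem α _))]

theorem len_s_mul_of_pos {m : G} (hm : m ∈ D.N) {α : Fin D.r → ℤ} (hα : α ∈ D.Delta)
    (h : D.act m⁻¹ α ∈ D.pos) : D.len (D.s α * m) = D.len m + 1 := by
  rw [D.Roots_s_mul hm hα, D.len_mul_s_of_pos (inv_mem hm) hα h, D.len_inv hm]

theorem len_s_mul_of_neg {m : G} (hm : m ∈ D.N) {α : Fin D.r → ℤ} (hα : α ∈ D.Delta)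
    (h : D.act m⁻¹ α ∉ D.pos) : D.len (D.s α * m) + 1 = D.len m := by
  rw [D.Roots_s_mul hm hα, D.len_mul_s_of_neg (inv_mem hm) hα h, D.len_inv hm]

theorem Roots_ind {p : G → Prop} (hT : ∀ t ∈ D.T, p t)
    (hs : ∀ α ∈ D.Delta, ∀ m ∈ D.N, D.len (D.s α * m) = D.len m + 1 → p m → p (D.s α * m))
    {m : G} (hm : m ∈ D.N) : p m := by
  induction hn : D.len m generalizing m with
  | zero => exact hT m ((D.len_eq_zero_iff hm).1 hn)
  | succ n ih =>
    have h1 : ∃ α ∈ D.Delta, D.act m⁻¹ α ∉ D.pos := by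
      by_contra hc
      have h2 := D.mem_T_of_simple_pos (inv_mem hm) fun α hα => not_not.1 fun h => hc ⟨α, hα, h⟩
      rw [(D.len_eq_zero_iff hm).2 (inv_mem_iff.1 h2)] at hn
      exact n.succ_ne_zero hn.symm
    obtain ⟨α, hα, h⟩ := h1
    have h2 := D.len_s_mul_of_neg hm hα h
    have h3 : (D.s α)⁻¹ * m ∈ D.N := mul_mem (inv_mem (D.s_mem_N hα)) hm
    have h4 : D.len ((D.s α)⁻¹ * m) = n := by
      have e : (D.s α)⁻¹ * m = (D.h α (-1))⁻¹ * (D.s α * m) := by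
        rw [← D.s_mul_s hα]
        group
      rw [e, D.len_T_mul (mul_mem (D.s_mem_N hα) hm) (inv_mem (D.h_mem α _))]
      omega
    have h5 := hs α hα _ h3 (by rw [mul_inv_cancel_left, h4, hn]) (ih h3 h4)
    rwa [mul_inv_cancel_left] at h5

theorem Roots_cases {m : G} (hm : m ∈ D.N) {α : Fin D.r → ℤ} (hα : α ∈ D.Delta) :
    D.len (D.s α * m) = D.len m + 1 ∨ D.len (D.s α * m) + 1 = D.len m :=
  (em (D.act m⁻¹ α ∈ D.pos)).imp (D.len_s_mul_of_pos hm hα) (D.len_s_mul_of_neg hm hα)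

theorem Roots_sign {R : Type*} [Ring R] {m : G} (hm : m ∈ D.N) {α : Fin D.r → ℤ}
    (hα : α ∈ D.Delta) : (-1 : R) ^ D.len (D.s α * m) = -(-1) ^ D.len m := by
  rcases D.Roots_cases hm hα with h | h
  · rw [h, pow_succ, mul_neg_one]
  · rw [← h, pow_succ, mul_neg_one, neg_neg]

/-- Induction on the length. -/
theorem exists_NJ_mul_T {m : G} (hm : m ∈ D.N) :
    ∃ v ∈ D.NJ D.Delta, ∃ t ∈ D.T, m = v * t := by
  refine D.Roots_ind (p := fun m => ∃ v ∈ D.NJ D.Delta, ∃ t ∈ D.T, m = v * t)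
    (fun t ht => ⟨1, one_mem _, t, ht, (one_mul t).symm⟩) ?_ hm
  rintro α hα _ - - ⟨v, hv, t, ht, rfl⟩
  exact ⟨D.s α * v, mul_mem (D.s_mem_NJ hα) hv, t, ht, (mul_assoc _ _ _).symm⟩

/-- Induction principle: `N` is generated as a monoid by `T` and the `s α`. -/
theorem N_induction {p : G → Prop} (hT : ∀ t ∈ D.T, p t)
    (hs : ∀ α ∈ D.Delta, ∀ m ∈ D.N, p m → p (D.s α * m)) {m : G} (hm : m ∈ D.N) : p m :=
  D.Roots_ind hT (fun α hα m hm _ => hs α hα m hm) hm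

/-- The sign is multiplicative. -/
theorem neg_one_pow_len_mul {R : Type*} [Ring R] {m m' : G} (hm : m ∈ D.N) (hm' : m' ∈ D.N) :
    (-1 : R) ^ D.len (m * m') = (-1) ^ D.len m * (-1) ^ D.len m' := by
  refine D.N_induction (p := fun m => (-1 : R) ^ D.len (m * m') = (-1) ^ D.len m * (-1) ^ D.len m')
    (fun t ht => ?_) (fun α hα m hm ih => ?_) hm
  · rw [D.len_T_mul hm' ht, (D.len_eq_zero_iff (D.T_le_N ht)).2 ht, pow_zero, one_mul]
  · rw [mul_assoc, D.Roots_sign (mul_mem hm hm') hα, D.Roots_sign hm hα, ih, neg_mul]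

theorem len_mul_le {m m' : G} (hm : m ∈ D.N) (hm' : m' ∈ D.N) :
    D.len (m * m') ≤ D.len m + D.len m' := by
  refine D.Roots_ind (p := fun m => D.len (m * m') ≤ D.len m + D.len m')
    (fun t ht => ?_) (fun α hα m hm e ih => ?_) hm
  · rw [D.len_T_mul hm' ht]
    exact Nat.le_add_left _ _
  · have h := D.Roots_cases (mul_mem hm hm') hα
    rw [mul_assoc]
    omega

theorem len_s {α : Fin D.r → ℤ} (hα : α ∈ D.Delta) : D.len (D.s α) = 1 := by
  have h := D.len_mul_s_of_pos (one_mem D.N) hα (by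
    rw [D.act_T (one_mem _)]
    exact D.delta_pos hα)
  rwa [one_mul, (D.len_eq_zero_iff (one_mem _)).2 (one_mem _), zero_add] at h

/-- An element of maximal length (the length is bounded by `pos.card`). -/
theorem exists_longest : ∃ m ∈ D.N, ∀ β ∈ D.pos, D.act m β ∉ D.pos := by
  by_contra hc
  have key : ∀ n, ∃ m ∈ D.N, D.len m = n := by
    intro n
    induction n with
    | zero => exact ⟨1, one_mem _, (D.len_eq_zero_iff (one_mem _)).2 (one_mem _)⟩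
    | succ n ih =>
      obtain ⟨m, hm, rfl⟩ := ih
      have h1 : ∃ α ∈ D.Delta, D.act m α ∈ D.pos := by
        by_contra h
        exact hc ⟨m, hm, fun β hβ => D.act_neg_of_closure hm D.delta_sub
          (fun α hα h' => h ⟨α, hα, h'⟩) (D.pos_sub hβ) (D.mem_pos.1 hβ).2⟩
      obtain ⟨α, hα, h⟩ := h1
      exact ⟨m * D.s α, mul_mem hm (D.s_mem_N hα), D.len_mul_s_of_pos hm hα h⟩
  obtain ⟨m, -, h⟩ := key (D.pos.card + 1)
  have h2 : D.len m ≤ D.pos.card := Finset.card_filter_le _ _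
  omega

end Datum

end Pool.Agent.Work.MP_bb5f23_al
end

-- merged part: Pool.Agent.Work.MP_bb5f23_al.Parab
section
/-! Parabolic subgroups of the Weyl group. -/

namespace Pool.Agent.Work.MP_bb5f23_al

namespace Datum

variable {F : Type} [Field F] {G : Type*} [Group G] (D : Datum F G) [IsAlgClosed F]
variable {J : Finset (Fin D.r → ℤ)}

omit [IsAlgClosed F] in
theorem NJ_induction (hJ : J ⊆ D.Delta) {p : G → Prop} (h1 : p 1)
    (hT : ∀ m ∈ D.N, ∀ t ∈ D.T, p m → p (t * m))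
    (hs : ∀ j ∈ J, ∀ m ∈ D.N, p m → p (D.s j * m)) {v : G} (hv : v ∈ D.NJ J) : p v := by
  have key : v ∈ D.N ∧ p v := by
    induction hv using Subgroup.closure_induction_left with
    | one => exact ⟨one_mem _, h1⟩
    | mul_left x hx y _ ih =>
      obtain ⟨j, hj, rfl⟩ := hx
      exact ⟨mul_mem (D.s_mem_N (hJ hj)) ih.1, hs j hj y ih.1 ih.2⟩
    | inv_mul_cancel x hx y _ ih =>
      obtain ⟨j, hj, rfl⟩ := hx
      have e : (D.s j)⁻¹ * y = (D.h j (-1))⁻¹ * (D.s j * y) := by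
        rw [← D.s_mul_s (hJ hj)]
        group
      refine ⟨mul_mem (inv_mem (D.s_mem_N (hJ hj))) ih.1, ?_⟩
      rw [e]
      exact hT _ (mul_mem (D.s_mem_N (hJ hj)) ih.1) _ (inv_mem (D.h_mem _ _)) (hs j hj y ih.1 ih.2)
  exact key.2

theorem Parab_fun (hJ : J ⊆ D.Delta) : ∃ c : (Fin D.r → ℤ) →+ ℚ,
    (∀ β ∈ D.pos, 0 ≤ c β ∧ (c β = 0 → β ∈ AddSubmonoid.closure (J : Set (Fin D.r → ℤ)))) ∧
    (∀ β ∈ AddSubmonoid.closure (J : Set (Fin D.r → ℤ)), c β = 0) ∧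
    ∀ v ∈ D.NJ J, ∀ γ, c (D.act v γ) = c γ := by
  classical
  obtain ⟨c, hc⟩ := D.Roots_ext fun δ => if δ ∈ J then 0 else 1
  have hj : ∀ j ∈ J, c j = 0 := fun j hj => by rw [hc j (hJ hj), if_pos hj]
  refine ⟨c, fun β hβ => ?_, fun β hβ => ?_, fun v hv => ?_⟩
  · have h := (D.mem_pos.1 hβ).2
    clear hβ
    induction h using AddSubmonoid.closure_induction with
    | mem δ hδ =>
      rw [hc δ hδ]
      split_ifs with e
      · exact ⟨le_rfl, fun _ => AddSubmonoid.subset_closure e⟩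
      · exact ⟨zero_le_one, fun e' => (one_ne_zero e').elim⟩
    | zero => exact ⟨(map_zero c).ge, fun _ => zero_mem _⟩
    | add a b _ _ ha hb =>
      rw [map_add]
      exact ⟨add_nonneg ha.1 hb.1, fun e => add_mem (ha.2 (by linarith [ha.1, hb.1]))
        (hb.2 (by linarith [ha.1, hb.1]))⟩
  · induction hβ using AddSubmonoid.closure_induction with
    | mem δ hδ => exact hj δ hδ
    | zero => exact map_zero _
    | add a b _ _ ha hb => rw [map_add, ha, hb, add_zero]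
  · refine D.NJ_induction hJ (p := fun v => ∀ γ, c (D.act v γ) = c γ) (fun γ => ?_)
      (fun m hm t ht h γ => ?_) (fun j hjJ m hm h γ => ?_) hv
    · rw [D.act_T (one_mem _)]
    · rw [D.act_mul (D.T_le_N ht) hm, D.act_T ht, h]
    · rw [D.act_mul (D.s_mem_N (hJ hjJ)) hm, D.act_s (hJ hjJ), map_sub, map_zsmul, hj j hjJ,
        smul_zero, sub_zero, h]

theorem act_posOut (hJ : J ⊆ D.Delta) {v : G} (hv : v ∈ D.NJ J) {β : Fin D.r → ℤ}
    (hβ : β ∈ D.posOut J) : D.act v β ∈ D.posOut J := by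
  obtain ⟨c, h1, h2, h3⟩ := D.Parab_fun hJ
  obtain ⟨hp, hn⟩ := D.mem_posOut.1 hβ
  have hc : 0 < c β := lt_of_le_of_ne (h1 β hp).1 fun e => hn ((h1 β hp).2 e.symm)
  refine D.mem_posOut.2 ⟨?_, fun h => ?_⟩
  · by_contra h
    have := (h1 _ (D.neg_pos_of_not (D.act_mem (D.NJ_le_N hJ hv) (D.pos_sub hp)) h)).1
    rw [map_neg, h3 v hv] at this
    linarith
  · have := h2 _ h
    rw [h3 v hv] at this
    linarith

theorem act_inSub (hJ : J ⊆ D.Delta) {v : G} (hv : v ∈ D.NJ J) {β : Fin D.r → ℤ}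
    (hβ : D.InSub J β) : D.InSub J (D.act v β) := by
  obtain ⟨c, h1, h2, h3⟩ := D.Parab_fun hJ
  have hc : c β = 0 := by
    rcases hβ.2 with h | h
    · exact h2 _ h
    · simpa using h2 _ h
  have hm := D.act_mem (D.NJ_le_N hJ hv) hβ.1
  refine ⟨hm, (D.pos_or_neg _ hm).imp (fun h => (h1 _ h).2 ?_) fun h => (h1 _ h).2 ?_⟩
  · rw [h3 v hv, hc]
  · rw [map_neg, h3 v hv, hc, neg_zero]

open Classical in
theorem Parab_out (hJ : J ⊆ D.Delta) {x v : G} (hx : x ∈ D.N) (hv : v ∈ D.NJ J) :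
    ((D.posOut J).filter fun β => D.act (x * v) β ∉ D.pos).card =
      ((D.posOut J).filter fun β => D.act x β ∉ D.pos).card := by
  have hvN := D.NJ_le_N hJ hv
  refine Finset.card_nbij' (D.act v) (D.act v⁻¹) (fun β hβ => ?_) (fun β hβ => ?_)
    (fun β _ => D.act_inv_act hvN β) fun β _ => D.act_act_inv hvN β
  · simp only [Finset.coe_filter, Set.mem_ofPred_eq] at hβ ⊢
    exact ⟨D.act_posOut hJ hv hβ.1, by rw [← D.act_mul hx hvN]; exact hβ.2⟩
  · simp only [Finset.coe_filter, Set.mem_ofPred_eq] at hβ ⊢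
    exact ⟨D.act_posOut hJ (inv_mem hv) hβ.1,
      by rw [D.act_mul hx hvN, D.act_act_inv hvN]; exact hβ.2⟩

omit [IsAlgClosed F] in
open Classical in
theorem Parab_split (J : Finset (Fin D.r → ℤ)) (m : G) : D.len m =
    ((D.posOut J).filter fun β => D.act m β ∉ D.pos).card +
      ((D.pos.filter fun β => β ∈ AddSubmonoid.closure (J : Set (Fin D.r → ℤ))).filter
        fun β => D.act m β ∉ D.pos).card := by
  rw [len, add_comm, ← Finset.card_filter_add_card_filter_not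
    (fun β => β ∈ AddSubmonoid.closure (J : Set (Fin D.r → ℤ))), posOut]
  congr 2 <;> rw [Finset.filter_comm]

theorem Parab_sub (hJ : J ⊆ D.Delta) {v : G} (hv : v ∈ D.NJ J) {β : Fin D.r → ℤ} (hβ : β ∈ D.pos)
    (hc : β ∈ AddSubmonoid.closure (J : Set (Fin D.r → ℤ))) :
    (D.act v β ∈ D.pos → D.act v β ∈ AddSubmonoid.closure (J : Set (Fin D.r → ℤ))) ∧
      (D.act v β ∉ D.pos → -D.act v β ∈ AddSubmonoid.closure (J : Set (Fin D.r → ℤ))) := by
  obtain ⟨c, h1, h2, h3⟩ := D.Parab_fun hJ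
  refine ⟨fun h => (h1 _ h).2 (by rw [h3 v hv, h2 _ hc]), fun h => (h1 _
    (D.neg_pos_of_not (D.act_mem (D.NJ_le_N hJ hv) (D.pos_sub hβ)) h)).2 ?_⟩
  rw [map_neg, h3 v hv, h2 _ hc, neg_zero]

theorem len_mul_of_min (hJ : J ⊆ D.Delta) {x v : G} (hx : D.MinRep J x) (hv : v ∈ D.NJ J) :
    D.len (x * v) = D.len x + D.len v := by
  classical
  have hvN := D.NJ_le_N hJ hv
  rw [D.Parab_split J (x * v), D.Parab_split J x, D.Parab_split J v, D.Parab_out hJ hx.1 hv]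
  have e1 : ((D.pos.filter fun β => β ∈ AddSubmonoid.closure (J : Set (Fin D.r → ℤ))).filter
      fun β => D.act x β ∉ D.pos) = ∅ := by
    refine Finset.filter_eq_empty_iff.2 fun β hβ => not_not.2 ?_
    rw [Finset.mem_filter] at hβ
    exact D.act_pos_of_closure hx.1 hx.2 (D.pos_sub hβ.1) hβ.2
  have e2 : ((D.posOut J).filter fun β => D.act v β ∉ D.pos) = ∅ :=
    Finset.filter_eq_empty_iff.2 fun β hβ => not_not.2 (D.mem_posOut.1 (D.act_posOut hJ hv hβ)).1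
  rw [e1, e2, Finset.card_empty, add_zero, zero_add]
  congr 2
  refine Finset.filter_congr fun β hβ => not_congr ?_
  rw [Finset.mem_filter] at hβ
  have hm := D.act_mem hvN (D.pos_sub hβ.1)
  obtain ⟨k1, k2⟩ := D.Parab_sub hJ hv hβ.1 hβ.2
  rw [D.act_mul hx.1 hvN]
  refine ⟨fun h => by_contra fun h' => ?_, fun h => D.act_pos_of_closure hx.1 hx.2 hm (k1 h)⟩
  have := D.act_pos_of_closure hx.1 hx.2 (D.neg_mem _ hm) (k2 h')
  rw [map_neg] at this
  exact D.neg_not_pos h this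

theorem len_mul_of_max (hJ : J ⊆ D.Delta) {x v : G} (hx : D.MaxRep J x) (hv : v ∈ D.NJ J) :
    D.len (x * v) + D.len v = D.len x := by
  classical
  have hvN := D.NJ_le_N hJ hv
  have hJ' : J ⊆ D.Phi := hJ.trans D.delta_sub
  rw [D.Parab_split J (x * v), D.Parab_split J x, D.Parab_split J v, D.Parab_out hJ hx.1 hv]
  have e1 : ((D.pos.filter fun β => β ∈ AddSubmonoid.closure (J : Set (Fin D.r → ℤ))).filter
      fun β => D.act x β ∉ D.pos) =
      D.pos.filter fun β => β ∈ AddSubmonoid.closure (J : Set (Fin D.r → ℤ)) := by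
    refine Finset.filter_true_of_mem fun β hβ => ?_
    rw [Finset.mem_filter] at hβ
    exact D.act_neg_of_closure hx.1 hJ' hx.2 (D.pos_sub hβ.1) hβ.2
  have e2 : ((D.posOut J).filter fun β => D.act v β ∉ D.pos) = ∅ :=
    Finset.filter_eq_empty_iff.2 fun β hβ => not_not.2 (D.mem_posOut.1 (D.act_posOut hJ hv hβ)).1
  have e3 : ((D.pos.filter fun β => β ∈ AddSubmonoid.closure (J : Set (Fin D.r → ℤ))).filter
      fun β => D.act (x * v) β ∉ D.pos) =
      ((D.pos.filter fun β => β ∈ AddSubmonoid.closure (J : Set (Fin D.r → ℤ))).filter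
        fun β => D.act v β ∈ D.pos) := by
    refine Finset.filter_congr fun β hβ => ?_
    rw [Finset.mem_filter] at hβ
    have hm := D.act_mem hvN (D.pos_sub hβ.1)
    obtain ⟨k1, k2⟩ := D.Parab_sub hJ hv hβ.1 hβ.2
    rw [D.act_mul hx.1 hvN]
    refine ⟨fun h => by_contra fun h' => ?_,
      fun h => D.act_neg_of_closure hx.1 hJ' hx.2 hm (k1 h)⟩
    have := D.act_neg_of_closure hx.1 hJ' hx.2 (D.neg_mem _ hm) (k2 h')
    rw [map_neg] at this
    exact this (D.neg_pos_of_not (D.act_mem hx.1 hm) h)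
  rw [e1, e2, e3, Finset.card_empty, zero_add, add_assoc, Finset.card_filter_add_card_filter_not]

theorem exists_minRep (hJ : J ⊆ D.Delta) {m : G} (hm : m ∈ D.N) :
    ∃ v ∈ D.NJ J, D.MinRep J (m * v) := by
  classical
  have hex : ∃ l, ∃ v ∈ D.NJ J, D.len (m * v) = l := ⟨_, 1, one_mem _, rfl⟩
  obtain ⟨v, hv, hl⟩ := Nat.find_spec hex
  have hN := mul_mem hm (D.NJ_le_N hJ hv)
  refine ⟨v, hv, hN, fun j hj => by_contra fun h => ?_⟩
  have h1 := D.len_mul_s_of_neg hN (hJ hj) h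
  have h2 := Nat.find_min' hex ⟨v * D.s j, mul_mem hv (D.s_mem_NJ hj), rfl⟩
  rw [← mul_assoc] at h2
  omega

theorem exists_maxRep (hJ : J ⊆ D.Delta) {m : G} (hm : m ∈ D.N) :
    ∃ v ∈ D.NJ J, D.MaxRep J (m * v) := by
  classical
  have hb : ∀ g, D.len g ≤ D.pos.card := fun g => Finset.card_filter_le _ _
  have hex : ∃ l, ∃ v ∈ D.NJ J, D.pos.card - D.len (m * v) = l := ⟨_, 1, one_mem _, rfl⟩
  obtain ⟨v, hv, hl⟩ := Nat.find_spec hex
  have hN := mul_mem hm (D.NJ_le_N hJ hv)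
  refine ⟨v, hv, hN, fun j hj h => ?_⟩
  have h1 := D.len_mul_s_of_pos hN (hJ hj) h
  have h2 := Nat.find_min' hex ⟨v * D.s j, mul_mem hv (D.s_mem_NJ hj), rfl⟩
  have h3 := hb (m * v * D.s j)
  rw [← mul_assoc] at h2
  omega

theorem mem_of_minRep (hJ : J ⊆ D.Delta) {x : G} (hx : D.MinRep J x) {β : Fin D.r → ℤ}
    (hβ : D.InSub J β) (h : D.act x β ∈ D.Delta) : β ∈ J := by
  rcases hβ.2 with hc | hc
  swap
  · have := D.act_pos_of_closure hx.1 hx.2 (D.neg_mem _ hβ.1) hc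
    rw [map_neg] at this
    exact (D.neg_not_pos (D.delta_pos h) this).elim
  obtain ⟨c, hc1⟩ := D.Roots_ext fun _ => 1
  have k1 : ∀ α ∈ AddSubmonoid.closure (D.Delta : Set (Fin D.r → ℤ)), α = 0 ∨ 1 ≤ c α := by
    intro α hα
    induction hα using AddSubmonoid.closure_induction with
    | mem δ hδ => exact Or.inr (hc1 δ hδ).ge
    | zero => exact Or.inl rfl
    | add a b _ _ ha hb =>
      rcases ha with rfl | ha
      · rwa [zero_add]
      · rcases hb with rfl | hb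
        · exact Or.inr (by rwa [add_zero])
        · exact Or.inr (by rw [map_add]; linarith)
  have k2 : ∀ j ∈ J, 1 ≤ c (D.act x j) := fun j hj =>
    (k1 _ (D.mem_pos.1 (hx.2 j hj)).2).resolve_left fun e =>
      D.zero_not_mem (e ▸ D.pos_sub (hx.2 j hj))
  have k3 : ∀ γ ∈ AddSubmonoid.closure (J : Set (Fin D.r → ℤ)),
      γ = 0 ∨ (1 ≤ c (D.act x γ) ∧ (γ ∈ J ∨ 2 ≤ c (D.act x γ))) := by
    intro γ hγ
    induction hγ using AddSubmonoid.closure_induction with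
    | mem δ hδ => exact Or.inr ⟨k2 δ hδ, Or.inl hδ⟩
    | zero => exact Or.inl rfl
    | add a b _ _ ha hb =>
      rcases ha with rfl | ha
      · rwa [zero_add]
      · rcases hb with rfl | hb
        · exact Or.inr (by rwa [add_zero])
        · refine Or.inr ⟨?_, Or.inr ?_⟩ <;> rw [map_add, map_add] <;> linarith [ha.1, hb.1]
  rcases k3 β hc with rfl | ⟨-, h1 | h1⟩
  · exact (D.zero_not_mem hβ.1).elim
  · exact h1
  · rw [hc1 _ h] at h1
    norm_num at h1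

theorem minRep_s_mul (hJ : J ⊆ D.Delta) {x : G} (hx : D.MinRep J x) {α : Fin D.r → ℤ}
    (hα : α ∈ D.Delta) (h : D.act x⁻¹ α ∉ J) : D.MinRep J (D.s α * x) := by
  have _ := hJ
  refine ⟨mul_mem (D.s_mem_N hα) hx.1, fun j hj => ?_⟩
  rw [D.act_mul (D.s_mem_N hα) hx.1]
  refine (D.act_s_pos hα (hx.2 j hj) fun e => h ?_).1
  rw [← e, D.act_inv_act hx.1]
  exact hj

open Classical in
theorem psi_cases {m : G} (hm : m ∈ D.N) (ht : (Fin D.r → ℤ) →+ ℚ) (hht : ∀ α ∈ D.pos, 0 < ht α) :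
    D.Psi m = D.posOut (D.Delta.filter fun β => D.act m β ∉ D.pos) ∨
      ∃ β ∈ D.Delta, D.act m β ∉ D.pos ∧
        ∑ γ ∈ D.Psi m, ht γ < ∑ γ ∈ D.Psi m, ht (D.act (D.s β) γ) := by
  set K := D.Delta.filter fun β => D.act m β ∉ D.pos with hK
  have hKD : K ⊆ D.Delta := Finset.filter_subset _ _
  by_cases hst : ∀ β ∈ K, ∀ γ ∈ D.Psi m, D.act (D.s β) γ ∈ D.Psi m
  · left
    have hst' : ∀ v ∈ D.NJ K, ∀ γ ∈ D.Psi m, D.act v γ ∈ D.Psi m := fun v hv =>
      D.NJ_induction hKD (p := fun v => ∀ γ ∈ D.Psi m, D.act v γ ∈ D.Psi m)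
        (fun γ h => by rwa [D.act_T (one_mem _)])
        (fun n hn t ht' h γ hγ => by
          rw [D.act_mul (D.T_le_N ht') hn, D.act_T ht']
          exact h γ hγ)
        (fun j hj n hn h γ hγ => by
          rw [D.act_mul (D.s_mem_N (hKD hj)) hn]
          exact hst j hj _ (h γ hγ)) hv
    obtain ⟨v, hv, hx⟩ := D.exists_minRep hKD hm
    have hvN := D.NJ_le_N hKD hv
    have hT : m * v ∈ D.T := by
      refine D.mem_T_of_simple_pos hx.1 fun δ hδ => ?_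
      by_cases hδK : δ ∈ K
      · exact hx.2 δ hδK
      · have : δ ∈ D.Psi m := D.mem_Psi.2 ⟨D.delta_pos hδ,
          by_contra fun h => hδK (Finset.mem_filter.2 ⟨hδ, h⟩)⟩
        rw [D.act_mul hm hvN]
        exact (D.mem_Psi.1 (hst' v hv δ this)).2
    ext γ
    rw [D.mem_Psi, D.mem_posOut]
    refine and_congr_right fun hγ => ⟨fun h hc => ?_, fun h => ?_⟩
    · exact D.act_neg_of_closure hm (hKD.trans D.delta_sub)
        (fun j hj => (Finset.mem_filter.1 hj).2) (D.pos_sub hγ) hc h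
    · have h1 := (D.mem_posOut.1 (D.act_posOut hKD (inv_mem hv) (D.mem_posOut.2 ⟨hγ, h⟩))).1
      rwa [← D.act_T hT (D.act v⁻¹ γ), D.act_mul hm hvN, D.act_act_inv hvN] at h1
  · right
    push Not at hst
    obtain ⟨β, hβ, γ0, hγ0, hn0⟩ := hst
    obtain ⟨hβD, hβn⟩ := Finset.mem_filter.1 hβ
    refine ⟨β, hβD, hβn, ?_⟩
    have key : ∀ γ ∈ D.Psi m, D.act (D.s β) γ ∉ D.Psi m → ht γ < ht (D.act (D.s β) γ) := by
      intro γ hγ hn
      obtain ⟨hp, hmp⟩ := D.mem_Psi.1 hγ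
      have hne : γ ≠ β := fun e => hβn (e ▸ hmp)
      have hsp := (D.act_s_pos hβD hp hne).1
      have hneg : γ ⬝ᵥ D.co β < 0 := by
        by_contra hk
        push Not at hk
        refine hn (D.mem_Psi.2 ⟨hsp, D.mem_pos.2 ⟨D.act_mem hm (D.pos_sub hsp), ?_⟩⟩)
        obtain ⟨k, hk'⟩ := Int.eq_ofNat_of_zero_le hk
        rw [D.act_s hβD, map_sub, map_zsmul, hk', sub_eq_add_neg, ← smul_neg, natCast_zsmul]
        exact add_mem (D.mem_pos.1 hmp).2 (nsmul_mem (D.mem_pos.1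
          (D.neg_pos_of_not (D.act_mem hm (D.delta_sub hβD)) hβn)).2 _)
      rw [D.act_s hβD, map_sub, map_zsmul, zsmul_eq_mul]
      have h1 := hht β (D.delta_pos hβD)
      have h2 : ((γ ⬝ᵥ D.co β : ℤ) : ℚ) < 0 := by exact_mod_cast hneg
      nlinarith
    rw [← Finset.sum_filter_add_sum_filter_not (D.Psi m) (fun γ => D.act (D.s β) γ ∈ D.Psi m),
      ← Finset.sum_filter_add_sum_filter_not (D.Psi m) (fun γ => D.act (D.s β) γ ∈ D.Psi m)
        fun γ => ht (D.act (D.s β) γ)]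
    refine add_lt_add_of_le_of_lt (le_of_eq ?_) (Finset.sum_lt_sum (fun γ hγ => ?_) ⟨γ0, ?_, ?_⟩)
    · refine Finset.sum_nbij' (D.act (D.s β)) (D.act (D.s β)) (fun γ hγ => ?_) (fun γ hγ => ?_)
        (fun γ _ => D.act_s_act_s hβD γ) (fun γ _ => D.act_s_act_s hβD γ) fun γ _ => ?_
      · rw [Finset.mem_filter] at hγ ⊢
        exact ⟨hγ.2, by rw [D.act_s_act_s hβD]; exact hγ.1⟩
      · rw [Finset.mem_filter] at hγ ⊢
        exact ⟨hγ.2, by rw [D.act_s_act_s hβD]; exact hγ.1⟩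
      · rw [D.act_s_act_s hβD]
    · rw [Finset.mem_filter] at hγ
      exact (key γ hγ.1 hγ.2).le
    · exact Finset.mem_filter.2 ⟨hγ0, hn0⟩
    · exact key γ0 hγ0 hn0

end Datum

end Pool.Agent.Work.MP_bb5f23_al
end

-- merged part: Pool.Agent.Work.MP_bb5f23_al.Unip
section
/-! The unipotent group `U`: factorisations and torus orbits. -/

namespace Pool.Agent.Work.MP_bb5f23_al

namespace Datum

variable {F : Type} [Field F] {G : Type*} [Group G] (D : Datum F G)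

theorem tau_prodX {l : List (Fin D.r → ℤ)} (hl : ∀ α ∈ l, α ∈ D.Phi) (z : Fin D.r → Fˣ)
    (a : (Fin D.r → ℤ) → F) :
    D.tau z * D.prodX l a * (D.tau z)⁻¹ = D.prodX l fun α => mon α z * a α := by
  induction l with
  | nil => simp [PreDatum.prodX]
  | cons β l ih =>
    have h1 := D.tau_x β (hl β List.mem_cons_self) z (a β)
    have h2 := ih fun α hα => hl α (List.mem_cons_of_mem _ hα)
    simp only [PreDatum.prodX, List.map_cons, List.prod_cons] at h2 ⊢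
    rw [← h1, ← h2]
    group

theorem prodX_append (l l' : List (Fin D.r → ℤ)) (a : (Fin D.r → ℤ) → F) :
    D.prodX (l ++ l') a = D.prodX l a * D.prodX l' a := by
  simp [PreDatum.prodX]

theorem prodX_mem {l : List (Fin D.r → ℤ)} {H : Subgroup G} (a : (Fin D.r → ℤ) → F)
    (h : ∀ α ∈ l, D.x α (a α) ∈ H) : D.prodX l a ∈ H := by
  refine Subgroup.list_prod_mem _ fun g hg => ?_
  obtain ⟨α, hα, rfl⟩ := List.mem_map.1 hg
  exact h α hα

theorem Unip_conj (m : G) (S : Finset (Fin D.r → ℤ)) (f : (Fin D.r → ℤ) → Fin D.r → ℤ)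
    (H : Subgroup G) (h : ∀ α ∈ S, ∀ a, m * D.x (f α) a * m⁻¹ ∈ H) {u : G}
    (hu : u ∈ ⨆ α ∈ S, D.rootSub (f α)) : m * u * m⁻¹ ∈ H := by
  have : (⨆ α ∈ S, D.rootSub (f α)) ≤ H.comap (MulAut.conj m).toMonoidHom := by
    refine iSup₂_le fun α hα g hg => ?_
    obtain ⟨a, rfl⟩ := D.mem_rootSub.1 hg
    exact h α hα a
  exact this hu

theorem Unip_x_mem {S : Finset (Fin D.r → ℤ)} {α : Fin D.r → ℤ} (hα : α ∈ S) (a : F) :
    D.x α a ∈ ⨆ β ∈ S, D.rootSub β :=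
  (le_iSup₂_of_le (f := fun α (_ : α ∈ S) => D.rootSub α) α hα le_rfl) (D.x_mem α a)

theorem conj_mem_U {t u : G} (ht : t ∈ D.T) (hu : u ∈ D.U) : t * u * t⁻¹ ∈ D.U := by
  obtain ⟨z, rfl⟩ := ht
  refine D.Unip_conj _ D.pos id _ (fun α hα a => ?_) hu
  rw [id, D.tau_x α (D.pos_sub hα)]
  exact D.x_mem_U hα _

theorem conj_mem_Uneg {t u : G} (ht : t ∈ D.T) (hu : u ∈ D.Uneg) : t * u * t⁻¹ ∈ D.Uneg := by
  obtain ⟨z, rfl⟩ := ht
  refine D.Unip_conj _ D.pos (fun α => -α) _ (fun α hα a => ?_) hu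
  rw [D.tau_x _ (D.neg_mem α (D.pos_sub hα))]
  exact D.x_mem_Uneg hα _

theorem mem_B {g : G} : g ∈ D.B ↔ ∃ t ∈ D.T, ∃ u ∈ D.U, g = t * u := by
  constructor
  · intro hg
    let S : Subgroup G :=
      { carrier := {g | ∃ t ∈ D.T, ∃ u ∈ D.U, g = t * u}
        one_mem' := ⟨1, one_mem _, 1, one_mem _, (mul_one _).symm⟩
        mul_mem' := by
          rintro _ _ ⟨t, ht, u, hu, rfl⟩ ⟨t', ht', u', hu', rfl⟩
          refine ⟨t * t', mul_mem ht ht', t'⁻¹ * u * t'⁻¹⁻¹ * u',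
            mul_mem (D.conj_mem_U (inv_mem ht') hu) hu', by group⟩
        inv_mem' := by
          rintro _ ⟨t, ht, u, hu, rfl⟩
          exact ⟨t⁻¹, inv_mem ht, t * u⁻¹ * t⁻¹, D.conj_mem_U ht (inv_mem hu), by group⟩ }
    have : D.B ≤ S := sup_le (fun t ht => ⟨t, ht, 1, one_mem _, (mul_one _).symm⟩)
      fun u hu => ⟨1, one_mem _, u, hu, (one_mul _).symm⟩
    exact this hg
  · rintro ⟨t, ht, u, hu, rfl⟩
    exact mul_mem (D.T_le_B ht) (D.U_le_B hu)

theorem mem_B' {g : G} : g ∈ D.B ↔ ∃ u ∈ D.U, ∃ t ∈ D.T, g = u * t := by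
  constructor
  · intro hg
    obtain ⟨t, ht, u, hu, rfl⟩ := D.mem_B.1 hg
    exact ⟨t * u * t⁻¹, D.conj_mem_U ht hu, t, ht, by group⟩
  · rintro ⟨u, hu, t, ht, rfl⟩
    exact mul_mem (D.U_le_B hu) (D.T_le_B ht)

theorem Unip_coord {a : (Fin D.r → ℤ) → F} {z z' : Fin D.r → Fˣ}
    (h : D.tau z * D.prodX D.pos.toList a * (D.tau z)⁻¹
      = D.tau z' * D.prodX D.pos.toList a * (D.tau z')⁻¹) {α : Fin D.r → ℤ} (hα : α ∈ D.pos)
    (ha : a α ≠ 0) : mon α z = mon α z' := by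
  have hl : ∀ α ∈ D.pos.toList, α ∈ D.Phi := fun α hα => D.pos_sub (Finset.mem_toList.1 hα)
  rw [D.tau_prodX hl, D.tau_prodX hl] at h
  have := D.prod_inj _ (Finset.nodup_toList _) (fun _ => Finset.mem_toList) _ _ h α
    (Finset.mem_toList.2 hα)
  exact Units.ext (mul_right_cancel₀ ha this)

/-- Take a nonzero coordinate. -/
theorem root_of_ne_one {u : G} (hu : u ∈ D.U) (h : u ≠ 1) :
    ∃ α ∈ D.pos, ∀ z, D.tau z * u * (D.tau z)⁻¹ = u → mon α z = 1 := by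
  obtain ⟨a, rfl⟩ := D.prod_surj _ (Finset.nodup_toList D.pos) (fun _ => Finset.mem_toList) u hu
  by_cases ha : ∀ α ∈ D.pos, a α = 0
  · refine (h (Subgroup.mem_bot.1 (D.prodX_mem a fun α hα => ?_))).elim
    rw [ha α (Finset.mem_toList.1 hα), D.x_zero]
    exact one_mem _
  · push Not at ha
    obtain ⟨α, hα, ha⟩ := ha
    refine ⟨α, hα, fun z hz => ?_⟩
    rw [← mon_one α]
    refine D.Unip_coord ?_ hα ha
    rw [hz, map_one, one_mul, inv_one, mul_one]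

variable [IsAlgClosed F]

theorem eq_one_of_comm {u : G} (hu : u ∈ D.U) (h : ∀ t ∈ D.T, t * u * t⁻¹ = u) : u = 1 := by
  by_contra hne
  obtain ⟨α, hα, hz⟩ := D.root_of_ne_one hu hne
  have : α = 0 := mon_inj (F := F) fun z => by rw [hz z (h _ (D.tau_mem z)), mon_zero]
  exact D.zero_not_mem (this ▸ D.pos_sub hα)

/-- Conjugate by the longest element. -/
theorem eq_one_of_comm_neg {u : G} (hu : u ∈ D.Uneg) (h : ∀ t ∈ D.T, t * u * t⁻¹ = u) :
    u = 1 := by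
  obtain ⟨m, hm, hlong⟩ := D.exists_longest
  have h1 : m * u * m⁻¹ ∈ D.U := by
    refine D.Unip_conj _ D.pos (fun α => -α) _ (fun α hα a => ?_) hu
    obtain ⟨c, hc⟩ := D.conj_x hm (D.neg_mem α (D.pos_sub hα))
    rw [hc, map_neg]
    exact D.x_mem_U (D.neg_pos_of_not (D.act_mem hm (D.pos_sub hα)) (hlong α hα)) _
  have h2 : m * u * m⁻¹ = 1 := by
    refine D.eq_one_of_comm h1 fun t ht => ?_
    have := h _ (D.conj_mem_T (inv_mem hm) ht)
    calc t * (m * u * m⁻¹) * t⁻¹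
        = m * (m⁻¹ * t * m⁻¹⁻¹ * u * (m⁻¹ * t * m⁻¹⁻¹)⁻¹) * m⁻¹ := by group
      _ = m * u * m⁻¹ := by rw [this]
  calc u = m⁻¹ * (m * u * m⁻¹) * m := by group
    _ = 1 := by rw [h2]; group

theorem eq_one_of_mem_T_U {t : G} (ht : t ∈ D.T) (hu : t ∈ D.U) : t = 1 := by
  refine D.eq_one_of_comm hu fun t' ht' => ?_
  rw [D.T_comm ht' ht, mul_inv_cancel_right]

/-- If `m = t u` then `u` normalises `T` and `u t' u⁻¹ t'⁻¹ ∈ T ∩ U`. -/
theorem mem_T_of_mem_N_B {m : G} (hm : m ∈ D.N) (hb : m ∈ D.B) : m ∈ D.T := by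
  obtain ⟨t, ht, u, hu, rfl⟩ := D.mem_B.1 hb
  have hN : u ∈ D.N := by
    have := mul_mem (inv_mem (D.T_le_N ht)) hm
    rwa [inv_mul_cancel_left] at this
  have : u = 1 := by
    refine D.eq_one_of_comm hu fun t' ht' => ?_
    have h1 : u * t' * u⁻¹ * t'⁻¹ ∈ D.T := mul_mem (D.conj_mem_T hN ht') (inv_mem ht')
    have h2 : u * t' * u⁻¹ * t'⁻¹ ∈ D.U := by
      have := mul_mem hu (D.conj_mem_U ht' (inv_mem hu))
      simpa only [mul_assoc] using this
    have h3 := D.eq_one_of_mem_T_U h1 h2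
    calc t' * u * t'⁻¹ = (u * t' * u⁻¹ * t'⁻¹) * (t' * u * t'⁻¹) := by rw [h3, one_mul]
      _ = u := by group
  rw [this, mul_one]
  exact ht

/-- A nonzero coordinate at `γ ≠ β` takes infinitely many values (`root_sep`). -/
theorem mem_rootSub_of_finite {β : Fin D.r → ℤ} (hβ : β ∈ D.pos) {u : G} (hu : u ∈ D.U)
    (h : {g | ∃ z, mon β z = 1 ∧ g = D.tau z * u * (D.tau z)⁻¹}.Finite) :
    u ∈ D.rootSub β := by
  obtain ⟨a, rfl⟩ := D.prod_surj _ (Finset.nodup_toList D.pos) (fun _ => Finset.mem_toList) u hu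
  refine D.prodX_mem a fun γ hγ => ?_
  have hγ' := Finset.mem_toList.1 hγ
  by_cases hne : β = γ
  · rw [hne]
    exact D.x_mem _ _
  by_cases ha : a γ = 0
  · rw [ha, D.x_zero]
    exact one_mem _
  exfalso
  choose z hz1 hz2 using D.root_sep hβ hγ' hne
  have hinf : Infinite Fˣ := by
    have : Infinite {a : F // a ≠ 0} := ((Set.finite_singleton (0 : F)).infinite_compl).to_subtype
    exact Infinite.of_injective _ unitsEquivNeZero.symm.injective
  refine Set.infinite_of_injective_forall_mem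
    (f := fun c : Fˣ => D.tau (z c) * D.prodX D.pos.toList a * (D.tau (z c))⁻¹)
    (fun c c' hc => ?_) (fun c => ?_) h
  swap
  · exact ⟨z c, hz1 c, rfl⟩
  rw [← hz2 c, ← hz2 c']
  exact D.Unip_coord hc hγ' ha

theorem U'_le_U (m : G) : D.U' m ≤ D.U :=
  iSup₂_le fun α hα => iSup_le fun _ =>
    le_iSup₂_of_le (f := fun α (_ : α ∈ D.pos) => D.rootSub α) α hα le_rfl

theorem conj_mem_of_U' {m u : G} (hm : m ∈ D.N) (hu : u ∈ D.U' m) : m * u * m⁻¹ ∈ D.U := by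
  rw [D.U'_eq hm] at hu
  refine D.Unip_conj _ (D.Psi m) id _ (fun α hα a => ?_) hu
  obtain ⟨h1, h2⟩ := D.mem_Psi.1 hα
  obtain ⟨c, hc⟩ := D.conj_x hm (D.pos_sub h1)
  rw [id, hc]
  exact D.x_mem_U h2 _

theorem conj_mem_U' {m t u : G} (hm : m ∈ D.N) (ht : t ∈ D.T) (hu : u ∈ D.U' m) :
    t * u * t⁻¹ ∈ D.U' m := by
  obtain ⟨z, rfl⟩ := ht
  rw [D.U'_eq hm] at hu ⊢
  refine D.Unip_conj _ (D.Psi m) id _ (fun α hα a => ?_) hu
  rw [id, D.tau_x α (D.pos_sub (D.mem_Psi.1 hα).1)]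
  exact D.Unip_x_mem hα _

omit [IsAlgClosed F] in
theorem Unip_mem_Um {m u : G} : u ∈ D.Um m ↔ u ∈ D.U ∧ m * u * m⁻¹ ∈ D.Uneg := Iff.rfl

omit [IsAlgClosed F] in
theorem Unip_x_mem_Um {m : G} (hm : m ∈ D.N) {γ : Fin D.r → ℤ} (hγ : γ ∈ D.pos)
    (h : D.act m γ ∉ D.pos) (a : F) : D.x γ a ∈ D.Um m := by
  refine D.Unip_mem_Um.2 ⟨D.x_mem_U hγ a, ?_⟩
  obtain ⟨c, hc⟩ := D.conj_x hm (D.pos_sub hγ)
  have := D.x_mem_Uneg (D.neg_pos_of_not (D.act_mem hm (D.pos_sub hγ)) h) (c * a)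
  rw [neg_neg] at this
  rw [hc]
  exact this

theorem conj_mem_Um {m t u : G} (hm : m ∈ D.N) (ht : t ∈ D.T) (hu : u ∈ D.Um m) :
    t * u * t⁻¹ ∈ D.Um m := by
  obtain ⟨h1, h2⟩ := D.Unip_mem_Um.1 hu
  refine D.Unip_mem_Um.2 ⟨D.conj_mem_U ht h1, ?_⟩
  have := D.conj_mem_Uneg (D.conj_mem_T hm ht) h2
  convert this using 1
  group

/-- Enumerate first the roots outside `Psi m`, then those in `Psi m`. -/
theorem U_decomp {m u : G} (hm : m ∈ D.N) (hu : u ∈ D.U) :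
    ∃ u₁ ∈ D.Um m, ∃ u₂ ∈ D.U' m, u = u₁ * u₂ := by
  classical
  obtain ⟨a, rfl⟩ := D.prod_surj ((D.pos \ D.Psi m).toList ++ (D.Psi m).toList)
    (List.Nodup.append (Finset.nodup_toList _) (Finset.nodup_toList _) fun α h1 h2 =>
      (Finset.mem_sdiff.1 (Finset.mem_toList.1 h1)).2 (Finset.mem_toList.1 h2))
    (fun α => by
      rw [List.mem_append, Finset.mem_toList, Finset.mem_toList, Finset.mem_sdiff, D.mem_Psi]
      tauto) u hu
  refine ⟨_, D.prodX_mem a fun α hα => ?_, _, D.prodX_mem a fun α hα => ?_,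
    D.prodX_append _ _ a⟩
  · obtain ⟨h1, h2⟩ := Finset.mem_sdiff.1 (Finset.mem_toList.1 hα)
    exact D.Unip_x_mem_Um hm h1 (fun h => h2 (D.mem_Psi.2 ⟨h1, h⟩)) _
  · rw [D.U'_eq hm]
    exact D.Unip_x_mem (Finset.mem_toList.1 hα) _

theorem eq_one_of_Um {m u : G} (hu : u ∈ D.Um m) (h : m * u * m⁻¹ ∈ D.B) : u = 1 := by
  have h1 : m * u * m⁻¹ ∈ D.B ⊓ D.Uneg := ⟨h, (D.Unip_mem_Um.1 hu).2⟩
  rw [D.opp, Subgroup.mem_bot] at h1
  calc u = m⁻¹ * (m * u * m⁻¹) * m := by group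
    _ = 1 := by rw [h1]; group

theorem mem_U'_iff {m u : G} (hm : m ∈ D.N) :
    u ∈ D.U' m ↔ u ∈ D.U ∧ m * u * m⁻¹ ∈ D.B := by
  refine ⟨fun h => ⟨D.U'_le_U m h, D.U_le_B (D.conj_mem_of_U' hm h)⟩, fun ⟨h1, h2⟩ => ?_⟩
  obtain ⟨u₁, hu₁, u₂, hu₂, rfl⟩ := D.U_decomp hm h1
  have h3 : u₁ = 1 := by
    refine D.eq_one_of_Um hu₁ ?_
    have := mul_mem h2 (inv_mem (D.U_le_B (D.conj_mem_of_U' hm hu₂)))
    convert this using 1
    group
  rw [h3, one_mul]
  exact hu₂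

theorem x_mem_U'_iff {m : G} (hm : m ∈ D.N) {γ : Fin D.r → ℤ} (hγ : γ ∈ D.pos) {a : F}
    (ha : a ≠ 0) : D.x γ a ∈ D.U' m ↔ D.act m γ ∈ D.pos := by
  constructor
  · intro h
    by_contra hn
    have := D.eq_one_of_Um (D.Unip_x_mem_Um hm hγ hn a) ((D.mem_U'_iff hm).1 h).2
    rw [← D.x_zero γ] at this
    exact ha (D.x_injective (D.pos_sub hγ) this)
  · intro h
    rw [D.U'_eq hm]
    exact D.Unip_x_mem (D.mem_Psi.2 ⟨hγ, h⟩) _

theorem Unip_Psi_s {α β : Fin D.r → ℤ} (hα : α ∈ D.Delta) (hβ : β ∈ D.pos) (h : β ≠ α) :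
    β ∈ D.Psi (D.s α) := D.mem_Psi.2 ⟨hβ, (D.act_s_pos hα hβ h).1⟩

theorem U_decomp_s {α : Fin D.r → ℤ} (hα : α ∈ D.Delta) {u : G} (hu : u ∈ D.U) :
    ∃ u' ∈ D.U' (D.s α), ∃ a, u = u' * D.x α a := by
  classical
  obtain ⟨a, rfl⟩ := D.prod_surj ((D.pos.erase α).toList ++ [α])
    (List.Nodup.append (Finset.nodup_toList _) (List.nodup_singleton _) fun β h1 h2 =>
      (Finset.mem_erase.1 (Finset.mem_toList.1 h1)).1 (List.mem_singleton.1 h2))
    (fun β => by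
      rw [List.mem_append, Finset.mem_toList, List.mem_singleton, Finset.mem_erase]
      constructor
      · rintro (h | rfl)
        exacts [h.2, D.delta_pos hα]
      · tauto) u hu
  refine ⟨D.prodX (D.pos.erase α).toList a, D.prodX_mem a fun β hβ => ?_, a α, ?_⟩
  · obtain ⟨h1, h2⟩ := Finset.mem_erase.1 (Finset.mem_toList.1 hβ)
    rw [D.U'_eq (D.s_mem_N hα)]
    exact D.Unip_x_mem (D.Unip_Psi_s hα h2 h1) _
  · rw [D.prodX_append]
    simp [PreDatum.prodX]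

theorem s_conj_U' {α : Fin D.r → ℤ} (hα : α ∈ D.Delta) {u : G} (hu : u ∈ D.U' (D.s α)) :
    D.s α * u * (D.s α)⁻¹ ∈ D.U' (D.s α) ∧ (D.s α)⁻¹ * u * D.s α ∈ D.U' (D.s α) := by
  have hs := D.s_mem_N hα
  have key : ∀ β ∈ D.Psi (D.s α), D.act (D.s α) β ∈ D.Psi (D.s α) := fun β hβ => by
    obtain ⟨h1, h2⟩ := D.mem_Psi.1 hβ
    refine D.mem_Psi.2 ⟨h2, ?_⟩
    rw [D.act_s_act_s hα]
    exact h1
  rw [D.U'_eq hs] at hu ⊢
  constructor
  · refine D.Unip_conj _ (D.Psi (D.s α)) id _ (fun β hβ a => ?_) hu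
    obtain ⟨c, hc⟩ := D.conj_x hs (D.pos_sub (D.mem_Psi.1 hβ).1)
    rw [id, hc]
    exact D.Unip_x_mem (key β hβ) _
  · have : (D.s α)⁻¹ * u * (D.s α)⁻¹⁻¹ ∈ ⨆ β ∈ D.Psi (D.s α), D.rootSub β := by
      refine D.Unip_conj _ (D.Psi (D.s α)) id _ (fun β hβ a => ?_) hu
      obtain ⟨c, hc⟩ := D.conj_x (inv_mem hs) (D.pos_sub (D.mem_Psi.1 hβ).1)
      rw [id, hc, D.act_s_inv hα]
      exact D.Unip_x_mem (key β hβ) _
    rwa [inv_inv] at this

theorem U'_le_U'_s {m : G} (hm : m ∈ D.N) {α : Fin D.r → ℤ} (hα : α ∈ D.Delta)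
    (h : D.act m α ∉ D.pos) : D.U' m ≤ D.U' (D.s α) := by
  rw [D.U'_eq hm, D.U'_eq (D.s_mem_N hα)]
  refine iSup₂_le fun β hβ g hg => ?_
  obtain ⟨a, rfl⟩ := D.mem_rootSub.1 hg
  obtain ⟨h1, h2⟩ := D.mem_Psi.1 hβ
  refine D.Unip_x_mem (D.Unip_Psi_s hα h1 ?_) _
  rintro rfl
  exact h h2

theorem VJ_le_U (J : Finset (Fin D.r → ℤ)) : D.VJ J ≤ D.U :=
  iSup₂_le fun α hα =>
    le_iSup₂_of_le (f := fun α (_ : α ∈ D.pos) => D.rootSub α) α (D.mem_posOut.1 hα).1 le_rfl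

theorem VJ_le_U'_s {J : Finset (Fin D.r → ℤ)} (hJ : J ⊆ D.Delta) {β : Fin D.r → ℤ}
    (hβ : β ∈ J) : D.VJ J ≤ D.U' (D.s β) := by
  rw [D.U'_eq (D.s_mem_N (hJ hβ))]
  refine iSup₂_le fun γ hγ g hg => ?_
  obtain ⟨a, rfl⟩ := D.mem_rootSub.1 hg
  obtain ⟨h1, h2⟩ := D.mem_posOut.1 hγ
  refine D.Unip_x_mem (D.Unip_Psi_s (hJ hβ) h1 ?_) _
  rintro rfl
  exact h2 (AddSubmonoid.subset_closure hβ)

omit [IsAlgClosed F] in
theorem Unip_closure {J : Finset (Fin D.r → ℤ)} (hJ : J ⊆ D.Delta) {β γ : Fin D.r → ℤ}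
    (hβ : β ∈ J) (hγ : γ ∈ AddSubmonoid.closure (D.Delta : Set (Fin D.r → ℤ))) (i : ℕ) {j : ℕ}
    (hj : 0 < j) (h : i • β + j • γ ∈ AddSubmonoid.closure (J : Set (Fin D.r → ℤ))) :
    γ ∈ AddSubmonoid.closure (J : Set (Fin D.r → ℤ)) := by
  obtain ⟨c, hc⟩ := D.exists_dual
  have h0 : ∀ δ ∈ D.Delta, δ ∉ J →
      ∀ y ∈ AddSubmonoid.closure (J : Set (Fin D.r → ℤ)), c δ y = 0 := by
    intro δ hδ hδJ y hy
    induction hy using AddSubmonoid.closure_induction with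
    | mem y hy =>
      rw [hc δ hδ y (hJ hy), if_neg]
      rintro rfl
      exact hδJ hy
    | zero => exact map_zero _
    | add y y' _ _ h1 h2 => rw [map_add, h1, h2, add_zero]
  have h1 : ∀ y ∈ AddSubmonoid.closure (D.Delta : Set (Fin D.r → ℤ)),
      (∀ δ ∈ D.Delta, 0 ≤ c δ y) ∧ ((∀ δ ∈ D.Delta, δ ∉ J → c δ y = 0) →
        y ∈ AddSubmonoid.closure (J : Set (Fin D.r → ℤ))) := by
    intro y hy
    induction hy using AddSubmonoid.closure_induction with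
    | mem y hy =>
      refine ⟨fun δ hδ => ?_, fun h => ?_⟩
      · rw [hc δ hδ y hy]
        split_ifs <;> norm_num
      · by_cases hyJ : y ∈ J
        · exact AddSubmonoid.subset_closure hyJ
        · have := h y hy hyJ
          rw [hc y hy y hy, if_pos rfl] at this
          exact (one_ne_zero this).elim
    | zero => exact ⟨fun δ _ => (map_zero _).ge, fun _ => zero_mem _⟩
    | add y y' _ _ h1 h2 =>
      refine ⟨fun δ hδ => ?_, fun h => add_mem (h1.2 fun δ hδ hδJ => ?_) (h2.2 fun δ hδ hδJ => ?_)⟩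
      · rw [map_add]
        exact add_nonneg (h1.1 δ hδ) (h2.1 δ hδ)
      · have := h δ hδ hδJ
        rw [map_add] at this
        linarith [h1.1 δ hδ, h2.1 δ hδ]
      · have := h δ hδ hδJ
        rw [map_add] at this
        linarith [h1.1 δ hδ, h2.1 δ hδ]
  refine (h1 γ hγ).2 fun δ hδ hδJ => ?_
  have h2 := h0 δ hδ hδJ _ h
  rw [map_add, map_nsmul, map_nsmul, h0 δ hδ hδJ β (AddSubmonoid.subset_closure hβ), smul_zero,
    zero_add, nsmul_eq_mul] at h2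
  exact (mul_eq_zero.1 h2).resolve_left (Nat.cast_ne_zero.2 hj.ne')

/-- From `comm`: for `γ ∈ posOut J` the roots `i β + j γ` are in `posOut J` (`exists_dual`). -/
theorem x_conj_VJ {J : Finset (Fin D.r → ℤ)} (hJ : J ⊆ D.Delta) {β : Fin D.r → ℤ} (hβ : β ∈ J)
    (a : F) {v : G} (hv : v ∈ D.VJ J) : D.x β a * v * (D.x β a)⁻¹ ∈ D.VJ J := by
  refine D.Unip_conj _ (D.posOut J) id _ (fun γ hγ b => ?_) hv
  obtain ⟨h1, h2⟩ := D.mem_posOut.1 hγ
  have hβp := D.delta_pos (hJ hβ)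
  have hne : β ≠ γ := by
    rintro rfl
    exact h2 (AddSubmonoid.subset_closure hβ)
  have h3 := D.comm β hβp γ h1 hne a b
  have h4 : (⨆ δ ∈ D.Phi, ⨆ _ : ∃ i j : ℕ, 0 < i ∧ 0 < j ∧ δ = i • β + j • γ, D.rootSub δ)
      ≤ D.VJ J := by
    refine iSup₂_le fun δ hδ => iSup_le ?_
    rintro ⟨i, j, -, hj, rfl⟩ g hg
    obtain ⟨e, rfl⟩ := D.mem_rootSub.1 hg
    refine D.Unip_x_mem (D.mem_posOut.2 ⟨D.mem_pos.2 ⟨hδ, ?_⟩, fun h => h2 ?_⟩) _
    · exact add_mem (nsmul_mem (D.mem_pos.1 hβp).2 i) (nsmul_mem (D.mem_pos.1 h1).2 j)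
    · exact D.Unip_closure hJ hβ (D.mem_pos.1 h1).2 i hj h
  have h5 := mul_mem (h4 h3) (D.Unip_x_mem hγ b : D.x γ b ∈ D.VJ J)
  rwa [inv_mul_cancel_right] at h5

theorem NJ_conj_VJ {J : Finset (Fin D.r → ℤ)} (hJ : J ⊆ D.Delta) {m : G} (hm : m ∈ D.NJ J)
    {v : G} (hv : v ∈ D.VJ J) : m * v * m⁻¹ ∈ D.VJ J := by
  refine D.Unip_conj _ (D.posOut J) id _ (fun γ hγ b => ?_) hv
  obtain ⟨c, hc⟩ := D.conj_x (D.NJ_le_N hJ hm) (D.pos_sub (D.mem_posOut.1 hγ).1)
  rw [id, hc]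
  exact D.Unip_x_mem (D.act_posOut hJ hm hγ) _

end Datum

end Pool.Agent.Work.MP_bb5f23_al
end

-- merged part: Pool.Agent.Work.MP_bb5f23_al.Bruhat
section
/-! The Bruhat decomposition, standard parabolic subgroups and transport of rank one data. -/

namespace Pool.Agent.Work.MP_bb5f23_al

namespace Datum

variable {F : Type} [Field F] {G : Type*} [Group G] (D : Datum F G) [IsAlgClosed F]

/-- The elements whose left multiplication, as well as that of the inverse, preserves `p`. -/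
def Bruhat_stab (p : G → Prop) : Subgroup G where
  carrier := {g | (∀ y, p y → p (g * y)) ∧ ∀ y, p y → p (g⁻¹ * y)}
  one_mem' := ⟨fun y hy => by simpa using hy, fun y hy => by simpa using hy⟩
  mul_mem' := by
    rintro a b ⟨ha, ha'⟩ ⟨hb, hb'⟩
    refine ⟨fun y hy => ?_, fun y hy => ?_⟩
    · rw [mul_assoc]
      exact ha _ (hb y hy)
    · rw [mul_inv_rev, mul_assoc]
      exact hb' _ (ha' y hy)
  inv_mem' := by
    rintro a ⟨ha, ha'⟩
    exact ⟨ha', by simpa using ha⟩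

omit [IsAlgClosed F] in
theorem Bruhat_conj_x_mem {n : G} (hn : n ∈ D.N) {β : Fin D.r → ℤ} (hβ : β ∈ D.Phi)
    (h : D.act n⁻¹ β ∈ D.pos) (a : F) : n⁻¹ * D.x β a * n ∈ D.U := by
  obtain ⟨c, hc⟩ := D.conj_x (inv_mem hn) hβ
  have h1 := hc a
  rw [inv_inv] at h1
  rw [h1]
  exact D.x_mem_U h _

omit [IsAlgClosed F] in
theorem Bruhat_s_inv {α : Fin D.r → ℤ} (hα : α ∈ D.Delta) :
    (D.s α)⁻¹ = (D.h α (-1))⁻¹ * D.s α := by
  rw [← D.s_mul_s hα]
  group

/-- Let `b = m v`. For `t ∈ T` put `t' = t m t⁻¹ m⁻¹ ∈ T`; then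
`b⁻¹ t'⁻¹ (t b t⁻¹) = v⁻¹ (t v t⁻¹) ∈ B ⊓ U⁻ = ⊥`, so `v` commutes with `T`. -/
theorem eq_one_of_mul_mem_B {m v : G} (hm : m ∈ D.N) (hv : v ∈ D.Uneg) (h : m * v ∈ D.B) :
    v = 1 ∧ m ∈ D.T := by
  have hv1 : v = 1 := by
    refine D.eq_one_of_comm_neg hv fun t ht => ?_
    have ht' : t * (m * t⁻¹ * m⁻¹) ∈ D.T := mul_mem ht (D.conj_mem_T hm (inv_mem ht))
    have h1 : v⁻¹ * (t * v * t⁻¹) ∈ D.B := by
      have e : v⁻¹ * (t * v * t⁻¹) =
          (m * v)⁻¹ * (t * (m * t⁻¹ * m⁻¹))⁻¹ * (t * (m * v) * t⁻¹) := by group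
      rw [e]
      exact mul_mem (mul_mem (inv_mem h) (inv_mem (D.T_le_B ht')))
        (mul_mem (mul_mem (D.T_le_B ht) h) (inv_mem (D.T_le_B ht)))
    have h2 : v⁻¹ * (t * v * t⁻¹) ∈ D.Uneg := mul_mem (inv_mem hv) (D.conj_mem_Uneg ht hv)
    have h3 : v⁻¹ * (t * v * t⁻¹) ∈ D.B ⊓ D.Uneg := ⟨h1, h2⟩
    rw [D.opp, Subgroup.mem_bot, inv_mul_eq_one] at h3
    exact h3.symm
  refine ⟨hv1, D.mem_T_of_mem_N_B hm ?_⟩
  rwa [hv1, mul_one] at h

/-- Reduce to `n'⁻¹ u n ∈ B`, write `u = u₁ u₂` with `U_decomp` for `n⁻¹`. -/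
theorem bruhat_unique {n n' b b' : G} (hn : n ∈ D.N) (hn' : n' ∈ D.N) (hb : b ∈ D.B)
    (hb' : b' ∈ D.B) (h : b * n * b' = n') : n⁻¹ * n' ∈ D.T := by
  obtain ⟨t, ht, u, hu, rfl⟩ := D.mem_B.1 hb
  obtain ⟨u₁, hu₁, u₂, hu₂, rfl⟩ := D.U_decomp (inv_mem hn) hu
  have h1 : n⁻¹ * u₁ * n ∈ D.Uneg := by
    have := hu₁.2
    simpa using this
  have h2 : n⁻¹ * u₂ * n ∈ D.U := by simpa using D.conj_mem_of_U' (inv_mem hn) hu₂
  have hN : n'⁻¹ * t * n ∈ D.N := mul_mem (mul_mem (inv_mem hn') (D.T_le_N ht)) hn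
  have h3 : n'⁻¹ * t * n * (n⁻¹ * u₁ * n) ∈ D.B := by
    have e : n'⁻¹ * t * n * (n⁻¹ * u₁ * n) = b'⁻¹ * (n⁻¹ * u₂ * n)⁻¹ := by
      rw [← h]
      group
    rw [e]
    exact mul_mem (inv_mem hb') (inv_mem (D.U_le_B h2))
  have h4 := (D.eq_one_of_mul_mem_B hN h1 h3).2
  have e : n⁻¹ * n' = (n⁻¹ * t * n⁻¹⁻¹) * (n'⁻¹ * t * n)⁻¹ := by group
  rw [e]
  exact mul_mem (D.conj_mem_T (inv_mem hn) ht) (inv_mem h4)

/-- `u = u' x_α(a)` with `s u' s⁻¹ ∈ U` and `n⁻¹ x_α(a) n ∈ U`. -/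
theorem s_mul_of_pos {α : Fin D.r → ℤ} (hα : α ∈ D.Delta) {n u : G} (hn : n ∈ D.N)
    (hu : u ∈ D.U) (h : D.act n⁻¹ α ∈ D.pos) :
    ∃ u₁ ∈ D.U, ∃ u₂ ∈ D.U, D.s α * u * n = u₁ * (D.s α * n) * u₂ := by
  obtain ⟨u', hu', a, rfl⟩ := D.U_decomp_s hα hu
  refine ⟨D.s α * u' * (D.s α)⁻¹, D.U'_le_U _ (D.s_conj_U' hα hu').1,
    n⁻¹ * D.x α a * n, D.Bruhat_conj_x_mem hn (D.delta_sub hα) h a, ?_⟩
  group

/-- For `a ≠ 0` use `s_x_rel`: `s x(a) n = x(-1/a) h(1/a) s x(-1/a) (s n)` and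
`(s n)⁻¹ x(-1/a) (s n) ∈ U`, `h(1/a) s s = h(-1/a)`. -/
theorem s_mul_of_neg {α : Fin D.r → ℤ} (hα : α ∈ D.Delta) {n u : G} (hn : n ∈ D.N)
    (hu : u ∈ D.U) (h : D.act n⁻¹ α ∉ D.pos) :
    (∃ u₁ ∈ D.U, D.s α * u * n = u₁ * (D.s α * n)) ∨
      ∃ u₁ ∈ D.U, ∃ u₂ ∈ D.U, ∃ a, D.s α * u * n = u₁ * (D.h α a * n) * u₂ := by
  obtain ⟨u', hu', a, rfl⟩ := D.U_decomp_s hα hu
  have hu1 : D.s α * u' * (D.s α)⁻¹ ∈ D.U := D.U'_le_U _ (D.s_conj_U' hα hu').1
  by_cases ha : a = 0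
  · left
    refine ⟨_, hu1, ?_⟩
    rw [ha, D.x_zero]
    group
  · right
    have hs := D.s_mem_N hα
    have hΦ := D.delta_sub hα
    have hsn : D.act (D.s α * n)⁻¹ α ∈ D.pos := by
      rw [mul_inv_rev, D.act_mul (inv_mem hn) (inv_mem hs), D.act_s_inv hα, D.act_s_self hα,
        map_neg]
      exact D.neg_pos_of_not (D.act_mem (inv_mem hn) hΦ) h
    have hrel := D.s_x_rel hα (Units.mk0 a ha)
    rw [Units.val_mk0] at hrel
    set c : Fˣ := (Units.mk0 a ha)⁻¹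
    refine ⟨D.s α * u' * (D.s α)⁻¹ * D.x α (-(c : F)),
      mul_mem hu1 (D.x_mem_U (D.delta_pos hα) _),
      (D.s α * n)⁻¹ * D.x α (-(c : F)) * (D.s α * n),
      D.Bruhat_conj_x_mem (mul_mem hs hn) hΦ hsn _, c * (-1), ?_⟩
    rw [D.h_mul, ← D.s_mul_s hα]
    calc D.s α * (u' * D.x α a) * n
        = D.s α * u' * (D.s α)⁻¹ * (D.s α * D.x α a * (D.s α)⁻¹) * (D.s α * n) := by group
      _ = _ := by
        rw [hrel]
        group

/-- `G` is generated as a monoid by `T`, `U` and the `s α`. The set of `g` whose left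
multiplication preserves `p` contains `T`, `U`, `N` (`N_induction`) and the negative root groups
(`exists_longest`, `conj_x`); use `gen`. -/
theorem G_induction {p : G → Prop} (h1 : p 1) (hT : ∀ t ∈ D.T, ∀ g, p g → p (t * g))
    (hU : ∀ u ∈ D.U, ∀ g, p g → p (u * g)) (hs : ∀ α ∈ D.Delta, ∀ g, p g → p (D.s α * g))
    (g : G) : p g := by
  have hN : ∀ m ∈ D.N, ∀ g, p g → p (m * g) := fun m hm =>
    D.N_induction (p := fun m => ∀ g, p g → p (m * g)) hT
      (fun α hα m _ ih g hg => by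
        rw [mul_assoc]
        exact hs α hα _ (ih g hg)) hm
  have hx : ∀ β ∈ D.Phi, ∀ a g, p g → p (D.x β a * g) := by
    intro β hβ a g hg
    by_cases hp : β ∈ D.pos
    · exact hU _ (D.x_mem_U hp a) g hg
    · obtain ⟨w, hw, hw'⟩ := D.exists_longest
      have h1 : D.act w β ∈ D.pos := by
        have h2 := hw' _ (D.neg_pos_of_not hβ hp)
        have h3 := D.neg_pos_of_not (D.act_mem hw (D.neg_mem β hβ)) h2
        rwa [map_neg, neg_neg] at h3
      obtain ⟨c, hc⟩ := D.conj_x hw hβ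
      have e : D.x β a * g = w⁻¹ * (D.x (D.act w β) (c * a) * (w * g)) := by
        rw [← hc]
        group
      rw [e]
      exact hN _ (inv_mem hw) _ (hU _ (D.x_mem_U h1 _) _ (hN _ hw _ hg))
  have htop : (⊤ : Subgroup G) ≤ Bruhat_stab p := by
    rw [← D.gen]
    refine sup_le (fun t ht => ⟨hT t ht, hT _ (inv_mem ht)⟩) (iSup₂_le fun β hβ g hg => ?_)
    obtain ⟨a, rfl⟩ := D.mem_rootSub.1 hg
    refine ⟨hx β hβ a, ?_⟩
    rw [← D.x_neg]
    exact hx β hβ (-a)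
  simpa using (htop (Subgroup.mem_top g)).1 1 h1

theorem bruhat (g : G) : ∃ u ∈ D.U, ∃ n ∈ D.N, ∃ b ∈ D.B, g = u * n * b := by
  refine D.G_induction (p := fun g => ∃ u ∈ D.U, ∃ n ∈ D.N, ∃ b ∈ D.B, g = u * n * b)
    ⟨1, one_mem _, 1, one_mem _, 1, one_mem _, by simp⟩ ?_ ?_ ?_ g
  · rintro t ht _ ⟨u, hu, n, hn, b, hb, rfl⟩
    exact ⟨t * u * t⁻¹, D.conj_mem_U ht hu, t * n, mul_mem (D.T_le_N ht) hn, b, hb, by group⟩
  · rintro u' hu' _ ⟨u, hu, n, hn, b, hb, rfl⟩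
    exact ⟨u' * u, mul_mem hu' hu, n, hn, b, hb, by group⟩
  · rintro α hα _ ⟨u, hu, n, hn, b, hb, rfl⟩
    have hsn : D.s α * n ∈ D.N := mul_mem (D.s_mem_N hα) hn
    have e : D.s α * (u * n * b) = D.s α * u * n * b := by group
    rw [e]
    by_cases h : D.act n⁻¹ α ∈ D.pos
    · obtain ⟨u₁, hu₁, u₂, hu₂, e'⟩ := D.s_mul_of_pos hα hn hu h
      exact ⟨u₁, hu₁, _, hsn, u₂ * b, mul_mem (D.U_le_B hu₂) hb, by rw [e']; group⟩
    · rcases D.s_mul_of_neg hα hn hu h with ⟨u₁, hu₁, e'⟩ | ⟨u₁, hu₁, u₂, hu₂, a, e'⟩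
      · exact ⟨u₁, hu₁, _, hsn, b, hb, by rw [e']⟩
      · exact ⟨u₁, hu₁, _, mul_mem (D.T_le_N (D.h_mem α a)) hn, u₂ * b,
          mul_mem (D.U_le_B hu₂) hb, by rw [e']; group⟩

theorem bruhat' (g : G) : ∃ n ∈ D.N, ∃ u ∈ D.Um n⁻¹, ∃ b ∈ D.B, g = u * n * b := by
  obtain ⟨u, hu, n, hn, b, hb, rfl⟩ := D.bruhat g
  obtain ⟨u₁, hu₁, u₂, hu₂, rfl⟩ := D.U_decomp (inv_mem hn) hu
  refine ⟨n, hn, u₁, hu₁, n⁻¹ * u₂ * n⁻¹⁻¹ * b,
    mul_mem (D.U_le_B (D.conj_mem_of_U' (inv_mem hn) hu₂)) hb, by group⟩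

theorem bruhat'_unique {n u u' b b' : G} (hu : u ∈ D.Um n⁻¹) (hu' : u' ∈ D.Um n⁻¹)
    (hb : b ∈ D.B) (hb' : b' ∈ D.B) (h : u * n * b = u' * n * b') : u = u' := by
  have h1 : u'⁻¹ * u ∈ D.Um n⁻¹ := mul_mem (inv_mem hu') hu
  have h2 : n⁻¹ * (u'⁻¹ * u) * n⁻¹⁻¹ ∈ D.B := by
    have e : n⁻¹ * (u'⁻¹ * u) * n⁻¹⁻¹ = (u' * n)⁻¹ * (u * n * b) * b⁻¹ := by group
    have e' : (u' * n)⁻¹ * (u' * n * b') * b⁻¹ = b' * b⁻¹ := by group
    rw [e, h, e']
    exact mul_mem hb' (inv_mem hb)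
  have h3 := D.eq_one_of_Um h1 h2
  rw [inv_mul_eq_one] at h3
  exact h3.symm

/-- Induction on `len n`, writing `n = s α * n'` with `len n = len n' + 1`; then
`len (n' v) = len n' + len v` and `act (n' v)⁻¹ α` is positive. -/
theorem cell_mul {n v b : G} (hn : n ∈ D.N) (hv : v ∈ D.N) (hb : b ∈ D.B)
    (h : D.len (n * v) = D.len n + D.len v) :
    ∃ b₁ ∈ D.B, ∃ b₂ ∈ D.B, n * b * v = b₁ * (n * v) * b₂ := by
  generalize hl : D.len n = l at h
  induction l generalizing n with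
  | zero =>
    have hT := D.T_le_B ((D.len_eq_zero_iff hn).1 hl)
    exact ⟨n * b * n⁻¹, mul_mem (mul_mem hT hb) (inv_mem hT), 1, one_mem _, by group⟩
  | succ l ih =>
    have hnT : n⁻¹ ∉ D.T := fun h' => by
      have := (D.len_eq_zero_iff hn).2 (by simpa using inv_mem h')
      omega
    obtain ⟨α, hα, hneg⟩ : ∃ α ∈ D.Delta, D.act n⁻¹ α ∉ D.pos := by
      by_contra hc
      push Not at hc
      exact hnT (D.mem_T_of_simple_pos (inv_mem hn) hc)
    have hs := D.s_mem_N hα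
    have hn' : (D.s α)⁻¹ * n ∈ D.N := mul_mem (inv_mem hs) hn
    have hl' : D.len ((D.s α)⁻¹ * n) = l := by
      have h1 := D.len_s_mul_of_neg hn hα hneg
      rw [D.Bruhat_s_inv hα, mul_assoc, D.len_T_mul (mul_mem hs hn) (inv_mem (D.h_mem _ _))]
      omega
    have hnv : (D.s α)⁻¹ * n * v ∈ D.N := mul_mem hn' hv
    have e : n * v = D.s α * ((D.s α)⁻¹ * n * v) := by group
    have h2 := D.len_mul_le hn' hv
    have h3 := D.len_mul_le hs hnv
    rw [← e, D.len_s hα] at h3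
    have h4 : D.len ((D.s α)⁻¹ * n * v) = l + D.len v := by omega
    have hpos : D.act ((D.s α)⁻¹ * n * v)⁻¹ α ∈ D.pos := by
      by_contra hc
      have h5 := D.len_s_mul_of_neg hnv hα hc
      rw [← e] at h5
      omega
    obtain ⟨b₁, hb₁, b₂, hb₂, e₁⟩ := ih hn' hl' h4
    obtain ⟨u, hu, t, ht, rfl⟩ := D.mem_B'.1 hb₁
    have hpos' : D.act (t * ((D.s α)⁻¹ * n * v))⁻¹ α ∈ D.pos := by
      rw [mul_inv_rev, D.act_mul (inv_mem hnv) (inv_mem (D.T_le_N ht)), D.act_T (inv_mem ht)]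
      exact hpos
    obtain ⟨u₁, hu₁, u₂, hu₂, e₂⟩ := D.s_mul_of_pos hα (mul_mem (D.T_le_N ht) hnv) hu hpos'
    refine ⟨u₁ * (D.s α * t * (D.s α)⁻¹),
      mul_mem (D.U_le_B hu₁) (D.T_le_B (D.conj_mem_T hs ht)), u₂ * b₂,
      mul_mem (D.U_le_B hu₂) hb₂, ?_⟩
    calc n * b * v = D.s α * ((D.s α)⁻¹ * n * b * v) := by group
      _ = D.s α * u * (t * ((D.s α)⁻¹ * n * v)) * b₂ := by
        rw [e₁]
        group
      _ = _ := by
        rw [e₂]
        group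

variable {J : Finset (Fin D.r → ℤ)}

/-- The right side is closed under left multiplication by `T`, `U`, `s j`, `(s j)⁻¹`. -/
theorem mem_P (hJ : J ⊆ D.Delta) {g : G} :
    g ∈ D.P J ↔ ∃ u ∈ D.U, ∃ v ∈ D.NJ J, ∃ b ∈ D.B, g = u * v * b := by
  constructor
  · intro hg
    set p : G → Prop := fun g => ∃ u ∈ D.U, ∃ v ∈ D.NJ J, ∃ b ∈ D.B, g = u * v * b with hp
    have hT : ∀ t ∈ D.T, ∀ g, p g → p (t * g) := by
      rintro t ht _ ⟨u, hu, v, hv, b, hb, rfl⟩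
      exact ⟨t * u * t⁻¹, D.conj_mem_U ht hu, v, hv, v⁻¹ * t * v⁻¹⁻¹ * b,
        mul_mem (D.T_le_B (D.conj_mem_T (inv_mem (D.NJ_le_N hJ hv)) ht)) hb, by group⟩
    have hU : ∀ u ∈ D.U, ∀ g, p g → p (u * g) := by
      rintro u' hu' _ ⟨u, hu, v, hv, b, hb, rfl⟩
      exact ⟨u' * u, mul_mem hu' hu, v, hv, b, hb, by group⟩
    have hB : ∀ b ∈ D.B, ∀ g, p g → p (b * g) := by
      intro b hb g hg
      obtain ⟨t, ht, u, hu, rfl⟩ := D.mem_B.1 hb
      rw [mul_assoc]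
      exact hT t ht _ (hU u hu g hg)
    have hs : ∀ j ∈ J, ∀ g, p g → p (D.s j * g) := by
      rintro j hj _ ⟨u, hu, v, hv, b, hb, rfl⟩
      have hn := D.NJ_le_N hJ hv
      have hsv : D.s j * v ∈ D.NJ J := mul_mem (D.s_mem_NJ hj) hv
      have e : D.s j * (u * v * b) = D.s j * u * v * b := by group
      rw [e]
      by_cases h : D.act v⁻¹ j ∈ D.pos
      · obtain ⟨u₁, hu₁, u₂, hu₂, e'⟩ := D.s_mul_of_pos (hJ hj) hn hu h
        exact ⟨u₁, hu₁, _, hsv, u₂ * b, mul_mem (D.U_le_B hu₂) hb, by rw [e']; group⟩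
      · rcases D.s_mul_of_neg (hJ hj) hn hu h with ⟨u₁, hu₁, e'⟩ | ⟨u₁, hu₁, u₂, hu₂, a, e'⟩
        · exact ⟨u₁, hu₁, _, hsv, b, hb, by rw [e']⟩
        · exact ⟨u₁, hu₁, v, hv, v⁻¹ * D.h j a * v⁻¹⁻¹ * u₂ * b,
            mul_mem (mul_mem (D.T_le_B (D.conj_mem_T (inv_mem hn) (D.h_mem j a)))
              (D.U_le_B hu₂)) hb, by rw [e']; group⟩
    have hle : D.P J ≤ Bruhat_stab p := by
      refine sup_le (fun b hb => ⟨hB b hb, hB _ (inv_mem hb)⟩) ((Subgroup.closure_le _).2 ?_)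
      rintro _ ⟨j, hj, rfl⟩
      refine ⟨hs j hj, fun g hg => ?_⟩
      rw [D.Bruhat_s_inv (hJ hj), mul_assoc]
      exact hT _ (inv_mem (D.h_mem _ _)) _ (hs j hj g hg)
    have h1 : p 1 := ⟨1, one_mem _, 1, one_mem _, 1, one_mem _, by simp⟩
    have h2 := (hle hg).1 1 h1
    rwa [mul_one] at h2
  · rintro ⟨u, hu, v, hv, b, hb, rfl⟩
    exact mul_mem (mul_mem (D.B_le_P J (D.U_le_B hu)) (D.NJ_le_P J hv)) (D.B_le_P J hb)

theorem Bruhat_min_aux (hJ : J ⊆ D.Delta) {x u n u' v b : G} (hx : D.MinRep J x) (hu : u ∈ D.U)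
    (hn : n ∈ D.N) (hu' : u' ∈ D.U) (hv : v ∈ D.NJ J) (hb : b ∈ D.B)
    (h : u * n = x * (u' * v * b)) : (x * v)⁻¹ * n ∈ D.T := by
  have hvN := D.NJ_le_N hJ hv
  obtain ⟨b₁, hb₁, b₂, hb₂, e⟩ :=
    D.cell_mul hx.1 hvN (D.U_le_B hu') (D.len_mul_of_min hJ hx hv)
  refine D.bruhat_unique (mul_mem hx.1 hvN) hn (mul_mem (inv_mem (D.U_le_B hu)) hb₁)
    (mul_mem hb₂ hb) ?_
  calc u⁻¹ * b₁ * (x * v) * (b₂ * b) = u⁻¹ * (b₁ * (x * v) * b₂ * b) := by group
    _ = u⁻¹ * (x * (u' * v * b)) := by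
      rw [← e]
      group
    _ = n := by
      rw [← h]
      group

theorem min_cell (hJ : J ⊆ D.Delta) {x u n p : G} (hx : D.MinRep J x) (hu : u ∈ D.U)
    (hn : n ∈ D.N) (hp : p ∈ D.P J) (h : u * n = x * p) :
    ∃ v ∈ D.NJ J, ∃ t ∈ D.T, n = x * v * t := by
  obtain ⟨u', hu', v, hv, b, hb, rfl⟩ := (D.mem_P hJ).1 hp
  exact ⟨v, hv, (x * v)⁻¹ * n, D.Bruhat_min_aux hJ hx hu hn hu' hv hb h, by group⟩

/-- By `cell_mul` and `bruhat_unique`, `x⁻¹ u x ∈ B`; conclude with `mem_U'_iff`. -/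
theorem stab_min (hJ : J ⊆ D.Delta) {x u : G} (hx : D.MinRep J x) (hu : u ∈ D.U)
    (h : x⁻¹ * u * x ∈ D.P J) : u ∈ D.U' x⁻¹ := by
  obtain ⟨u', hu', v, hv, b, hb, e⟩ := (D.mem_P hJ).1 h
  have h1 : u * x = x * (u' * v * b) := by
    rw [← e]
    group
  have h2 := D.Bruhat_min_aux hJ hx hu hx.1 hu' hv hb h1
  have e2 : (x * v)⁻¹ * x = v⁻¹ := by group
  rw [e2, inv_mem_iff] at h2
  refine (D.mem_U'_iff (inv_mem hx.1)).2 ⟨hu, ?_⟩
  rw [inv_inv, e]
  exact mul_mem (mul_mem (D.U_le_B hu') (D.T_le_B h2)) hb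

/-- Let `n x_j(a) n⁻¹ = x_α(c a)`, `n x_{-j}(a) n⁻¹ = x_{-α}(d a)`. Then
`g = n s_j n⁻¹ = x_α(c) x_{-α}(-d) x_α(c) ∈ N` (`h_mul_s` with `a = 1`). If `c d ≠ 1`, `big_cell`
and `eq_one_of_mul_mem_B` (with `m = g⁻¹`) give `d = 0`. So `d = c⁻¹`, `g = h α c * s α`, and
`h j b = (h j b * s j) * (s j)⁻¹` is transported with `h_mul_s`. -/
theorem transport {n : G} (hn : n ∈ D.N) {j α : Fin D.r → ℤ} (hj : j ∈ D.Delta)
    (hα : α ∈ D.Delta) (h : D.act n j = α) : ∃ c : Fˣ,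
      (∀ a, n * D.x j a * n⁻¹ = D.x α (c * a)) ∧ n * D.s j * n⁻¹ = D.h α c * D.s α ∧
      ∀ b, n * D.h j b * n⁻¹ = D.h α b := by
  have hjΦ := D.delta_sub hj
  have hαΦ := D.delta_sub hα
  obtain ⟨c, hc⟩ := D.conj_x hn hjΦ
  obtain ⟨d, hd⟩ := D.conj_x hn (D.neg_mem j hjΦ)
  rw [h] at hc
  rw [map_neg, h] at hd
  have key : ∀ b : Fˣ, n * (D.h j b * D.s j) * n⁻¹ =
      D.x α (c * b) * D.x (-α) (d * -(b⁻¹ : Fˣ)) * D.x α (c * b) := by
    intro b
    rw [D.h_mul_s hj, ← hc, ← hd]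
    group
  have k1 : n * D.s j * n⁻¹ = D.x α c * D.x (-α) (-d) * D.x α c := by
    have := key 1
    simpa [D.h_one] using this
  have hgN : n * D.s j * n⁻¹ ∈ D.N := mul_mem (mul_mem hn (D.s_mem_N hj)) (inv_mem hn)
  have hcd : (c : F) * d = 1 := by
    by_contra hne
    have he : (1 : F) - c * d ≠ 0 := fun h0 => hne (sub_eq_zero.1 h0).symm
    obtain ⟨f, hf⟩ := D.big_cell hα c d (Units.mk0 _ he) (Units.val_mk0 he)
    have hB : (n * D.s j * n⁻¹)⁻¹ * D.x (-α) (-d / (Units.mk0 _ he : Fˣ)) ∈ D.B := by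
      have e : (n * D.s j * n⁻¹)⁻¹ * D.x (-α) (-d / (Units.mk0 _ he : Fˣ)) =
          (D.h α (Units.mk0 _ he) * D.x α f)⁻¹ := by
        rw [k1, hf]
        group
      rw [e]
      exact inv_mem (mul_mem (D.T_le_B (D.h_mem _ _))
        (D.U_le_B (D.x_mem_U (D.delta_pos hα) _)))
    have h1 := (D.eq_one_of_mul_mem_B (inv_mem hgN) (D.x_mem_Uneg (D.delta_pos hα) _) hB).1
    rw [← D.x_zero (-α)] at h1
    have h2 := D.x_injective (D.neg_mem α hαΦ) h1
    rw [div_eq_zero_iff, neg_eq_zero] at h2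
    rcases h2 with h2 | h2
    · exact d.ne_zero h2
    · exact Units.ne_zero _ h2
  have hdc : d = c⁻¹ := by
    rw [eq_inv_iff_mul_eq_one, mul_comm]
    exact Units.ext (by simpa using hcd)
  have key' : ∀ b : Fˣ, n * (D.h j b * D.s j) * n⁻¹ = D.h α (c * b) * D.s α := by
    intro b
    rw [key, D.h_mul_s hα, hdc]
    simp [mul_comm]
  have k2 : n * D.s j * n⁻¹ = D.h α c * D.s α := by
    have := key' 1
    simpa [D.h_one] using this
  refine ⟨c, hc, k2, fun b => ?_⟩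
  calc n * D.h j b * n⁻¹ = n * (D.h j b * D.s j) * n⁻¹ * (n * D.s j * n⁻¹)⁻¹ := by group
    _ = D.h α b := by
      rw [key', k2, mul_comm c b, D.h_mul]
      group

end Datum

end Pool.Agent.Work.MP_bb5f23_al
end

-- merged part: Pool.Agent.Work.MP_bb5f23_al.Tower
section
/-! Frobenius endomorphisms and the tower of finite levels. -/

namespace Pool.Agent.Work.MP_bb5f23_al

namespace Datum

variable {F : Type} [Field F] {G : Type*} [Group G] (D : Datum F G) [IsAlgClosed F]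

omit [IsAlgClosed F] in
theorem Tower_mon_map (σ : F →+* F) {r : ℕ} (α : Fin r → ℤ) (z : Fin r → Fˣ) :
    mon α (fun i => Units.map (σ : F →* F) (z i)) = Units.map (σ : F →* F) (mon α z) := by
  simp only [mon, map_prod, map_zpow]

omit [IsAlgClosed F] in
theorem Tower_rel_mul (σ : F →+* F) {g g' h h' : G} (hg : D.rho g' = (D.rho g).map σ)
    (hh : D.rho h' = (D.rho h).map σ) : D.rho (g' * h') = (D.rho (g * h)).map σ := by
  rw [map_mul, map_mul, Matrix.map_mul, hg, hh]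

omit [IsAlgClosed F] in
theorem Tower_rel_one (σ : F →+* F) : D.rho 1 = (D.rho 1).map σ := by
  rw [map_one, Matrix.map_one _ (map_zero σ) (map_one σ)]

omit [IsAlgClosed F] in
theorem Tower_rel_inv (σ : F →+* F) {g g' : G} (hg : D.rho g' = (D.rho g).map σ) :
    D.rho g'⁻¹ = (D.rho g⁻¹).map σ := by
  have h1 : D.rho g' * (D.rho g⁻¹).map σ = 1 := by
    rw [hg, ← Matrix.map_mul, ← map_mul, mul_inv_cancel, ← D.Tower_rel_one σ, map_one]
  calc D.rho g'⁻¹ = D.rho g'⁻¹ * (D.rho g' * (D.rho g⁻¹).map σ) := by rw [h1, mul_one]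
    _ = (D.rho g⁻¹).map σ := by
      rw [← mul_assoc, ← map_mul, inv_mul_cancel, map_one, one_mul]

omit [IsAlgClosed F] in
theorem Tower_rel_tau (σ : F →+* F) (z : Fin D.r → Fˣ) :
    D.rho (D.tau fun i => Units.map (σ : F →* F) (z i)) = (D.rho (D.tau z)).map σ := by
  rw [D.rho_tau, D.rho_tau, Matrix.diagonal_map (map_zero σ)]
  refine congrArg Matrix.diagonal (funext fun i => ?_)
  rw [Tower_mon_map]
  rfl

theorem Tower_rel_x (σ : F →+* F) {α : Fin D.r → ℤ} (hα : α ∈ D.Phi)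
    (h1 : D.x α 1 ∈ fixSub D.rho σ) (a : F) :
    D.rho (D.x α (σ a)) = (D.rho (D.x α a)).map σ := by
  by_cases ha : a = 0
  · subst ha
    rw [map_zero, D.x_zero]
    exact D.Tower_rel_one σ
  have hα0 : α ≠ 0 := fun h => D.zero_not_mem (h ▸ hα)
  obtain ⟨z, hz⟩ := mon_surj hα0 (Units.mk0 a ha)
  have e1 : D.x α a = D.tau z * D.x α 1 * (D.tau z)⁻¹ := by
    rw [D.tau_x α hα, hz, mul_one]
    rfl
  have e2 : D.x α (σ a) = (D.tau fun i => Units.map (σ : F →* F) (z i)) * D.x α 1 *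
      (D.tau fun i => Units.map (σ : F →* F) (z i))⁻¹ := by
    rw [D.tau_x α hα, Tower_mon_map, hz, mul_one]
    rfl
  have h1' : D.rho (D.x α 1) = (D.rho (D.x α 1)).map σ := Eq.symm h1
  rw [e1, e2]
  exact D.Tower_rel_mul σ (D.Tower_rel_mul σ (D.Tower_rel_tau σ z) h1')
    (D.Tower_rel_inv σ (D.Tower_rel_tau σ z))

/-- If `σ` fixes the matrices of the `x α 1` then it induces an endomorphism of `G`. For `a ≠ 0`
write `a = mon α z` (`mon_surj`), `x α a = tau z * x α 1 * (tau z)⁻¹`; so `σ.mapMatrix` maps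
`rho (x α a)` to `rho (x α (σ a))` and `rho (tau z)` to `rho (tau (σ z))`. By `gen` it preserves
the range of `rho`; transport along `rho` (`MonoidHom.ofInjective` or `Function.invFun`). -/
theorem exists_frob (σ : F →+* F) (hσ : ∀ α ∈ D.Phi, D.x α 1 ∈ fixSub D.rho σ) :
    ∃ φ : G →* G, (∀ g, D.rho (φ g) = (D.rho g).map σ) ∧
      (∀ α ∈ D.Phi, ∀ a, φ (D.x α a) = D.x α (σ a)) ∧
      ∀ z, φ (D.tau z) = D.tau fun i => Units.map (σ : F →* F) (z i) := by
  let H : Subgroup G :=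
    { carrier := {g | ∃ g', D.rho g' = (D.rho g).map σ}
      one_mem' := ⟨1, D.Tower_rel_one σ⟩
      mul_mem' := fun ⟨g', hg⟩ ⟨h', hh⟩ => ⟨g' * h', D.Tower_rel_mul σ hg hh⟩
      inv_mem' := fun ⟨g', hg⟩ => ⟨g'⁻¹, D.Tower_rel_inv σ hg⟩ }
  have hH : ⊤ ≤ H := by
    rw [← D.gen]
    refine sup_le ?_ (iSup₂_le fun α hα => ?_)
    · rintro _ ⟨z, rfl⟩
      exact ⟨_, D.Tower_rel_tau σ z⟩
    · intro g hg
      obtain ⟨a, rfl⟩ := D.mem_rootSub.1 hg
      exact ⟨_, D.Tower_rel_x σ hα (hσ α hα) a⟩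
  have hex : ∀ g, ∃ g', D.rho g' = (D.rho g).map σ := fun g => hH (Subgroup.mem_top g)
  choose f hf using hex
  refine ⟨{ toFun := f
            map_one' := D.rho_inj ((hf 1).trans (D.Tower_rel_one σ).symm)
            map_mul' := fun g h =>
              D.rho_inj ((hf (g * h)).trans (D.Tower_rel_mul σ (hf g) (hf h)).symm) }, hf, ?_, ?_⟩
  · intro α hα a
    exact D.rho_inj ((hf _).trans (D.Tower_rel_x σ hα (hσ α hα) a).symm)
  · intro z
    exact D.rho_inj ((hf _).trans (D.Tower_rel_tau σ z).symm)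

/-- The properties of one level. -/
theorem Tower_level (σ : F →+* F) (hσ : ∀ α ∈ D.Phi, D.x α 1 ∈ fixSub D.rho σ) :
    (∀ α ∈ D.Delta, D.s α ∈ fixSub D.rho σ) ∧
    (∀ α ∈ D.Delta, ∀ a, D.x α a ∈ fixSub D.rho σ ↔ σ a = a) ∧
    (∀ g ∈ fixSub D.rho σ, ∃ u ∈ D.U ⊓ fixSub D.rho σ, ∃ n ∈ D.N, ∃ b ∈ D.B, g = u * n * b) ∧
    ∀ α ∈ D.Delta, ∀ u ∈ D.U ⊓ fixSub D.rho σ,
      ∃ u' ∈ D.U' (D.s α) ⊓ fixSub D.rho σ, ∃ a, σ a = a ∧ u = u' * D.x α a := by
  obtain ⟨φ, hφ, hx, hτ⟩ := D.exists_frob σ hσ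
  have hfix : ∀ g, g ∈ fixSub D.rho σ ↔ φ g = g := by
    intro g
    change (D.rho g).map σ = D.rho g ↔ _
    rw [← hφ]
    exact D.rho_inj.eq_iff
  have hs : ∀ α ∈ D.Delta, φ (D.s α) = D.s α := by
    intro α hα
    have e := D.h_mul_s hα 1
    rw [D.h_one, one_mul] at e
    have hα' := D.delta_sub hα
    rw [e, map_mul, map_mul, hx α hα', hx (-α) (D.neg_mem α hα')]
    simp
  have hT : ∀ t ∈ D.T, φ t ∈ D.T := by
    rintro _ ⟨z, rfl⟩
    rw [hτ]
    exact D.tau_mem _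
  have hU : ∀ u ∈ D.U, φ u ∈ D.U := by
    have : D.U ≤ D.U.comap φ := by
      refine iSup₂_le fun α hα g hg => ?_
      obtain ⟨a, rfl⟩ := D.mem_rootSub.1 hg
      rw [Subgroup.mem_comap, hx α (D.pos_sub hα)]
      exact D.x_mem_U hα _
    exact fun u hu => this hu
  have hUn : ∀ u ∈ D.Uneg, φ u ∈ D.Uneg := by
    have : D.Uneg ≤ D.Uneg.comap φ := by
      refine iSup₂_le fun α hα g hg => ?_
      obtain ⟨a, rfl⟩ := D.mem_rootSub.1 hg
      rw [Subgroup.mem_comap, hx (-α) (D.neg_mem α (D.pos_sub hα))]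
      exact D.x_mem_Uneg hα _
    exact fun u hu => this hu
  have hB : ∀ b ∈ D.B, φ b ∈ D.B := by
    intro b hb
    obtain ⟨t, ht, u, hu, rfl⟩ := D.mem_B.1 hb
    rw [map_mul]
    exact D.B.mul_mem (D.T_le_B (hT t ht)) (D.U_le_B (hU u hu))
  have hN : ∀ n ∈ D.N, ∃ t ∈ D.T, φ n = n * t := by
    intro n hn
    refine D.N_induction (p := fun n => ∃ t ∈ D.T, φ n = n * t) ?_ ?_ hn
    · intro t ht
      exact ⟨t⁻¹ * φ t, D.T.mul_mem (D.T.inv_mem ht) (hT t ht), by rw [mul_inv_cancel_left]⟩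
    · rintro α hα m - ⟨t, ht, e⟩
      exact ⟨t, ht, by rw [map_mul, hs α hα, e, mul_assoc]⟩
  refine ⟨fun α hα => (hfix _).2 (hs α hα), fun α hα a => ?_, fun g hg => ?_,
    fun α hα u hu => ?_⟩
  · rw [hfix, hx α (D.delta_sub hα)]
    exact (D.x_injective (D.delta_sub hα)).eq_iff
  · obtain ⟨n, hn, u, hu, b, hb, rfl⟩ := D.bruhat' g
    obtain ⟨t, ht, e⟩ := hN n hn
    have hu' : φ u ∈ D.Um n⁻¹ := by
      refine ⟨hU u hu.1, ?_⟩
      have h1 : n⁻¹ * u * n⁻¹⁻¹ ∈ D.Uneg := hu.2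
      have h2 := D.conj_mem_Uneg ht (hUn _ h1)
      change n⁻¹ * φ u * n⁻¹⁻¹ ∈ D.Uneg
      have h3 : t * φ (n⁻¹ * u * n⁻¹⁻¹) * t⁻¹ = n⁻¹ * φ u * n⁻¹⁻¹ := by
        rw [inv_inv, map_mul, map_mul, map_inv, e]
        group
      rwa [h3] at h2
    have h4 : φ u * n * (t * φ b) = u * n * b := by
      have h5 := (hfix _).1 hg
      rw [map_mul, map_mul, e] at h5
      rw [← h5]
      simp only [mul_assoc]
    have h6 := D.bruhat'_unique hu' hu (D.B.mul_mem (D.T_le_B ht) (hB b hb)) hb h4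
    exact ⟨u, ⟨hu.1, (hfix u).2 h6⟩, n, hn, b, hb, rfl⟩
  · obtain ⟨u', hu', a, rfl⟩ := D.U_decomp_s hα hu.1
    have hsN := D.s_mem_N hα
    have h1 : φ u' ∈ D.U' (D.s α) := by
      rw [D.mem_U'_iff hsN] at hu' ⊢
      refine ⟨hU _ hu'.1, ?_⟩
      have h2 := hB _ hu'.2
      rwa [map_mul, map_mul, map_inv, hs α hα] at h2
    have h3 : φ u' * D.x α (σ a) = u' * D.x α a := by
      have h4 := (hfix _).1 hu.2
      rwa [map_mul, hx α (D.delta_sub hα)] at h4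
    have h5 : D.x α (a - σ a) = u'⁻¹ * φ u' := by
      rw [sub_eq_add_neg, D.x_add, D.x_neg, eq_inv_mul_iff_mul_eq, ← mul_assoc, ← h3,
        mul_inv_cancel_right]
    have h6 : σ a = a := by
      by_contra hne
      have h7 : a - σ a ≠ 0 := fun h => hne (sub_eq_zero.1 h).symm
      have h8 : D.x α (a - σ a) ∈ D.U' (D.s α) := by
        rw [h5]
        exact (D.U' (D.s α)).mul_mem ((D.U' (D.s α)).inv_mem hu') h1
      rw [D.x_mem_U'_iff hsN (D.delta_pos hα) h7, D.act_s_self hα] at h8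
      exact D.neg_not_pos (D.delta_pos hα) h8
    rw [h6] at h3
    exact ⟨u', ⟨hu', (hfix u').2 (mul_right_cancel h3)⟩, a, h6, rfl⟩

/-- Take `m0` with all `x α 1` of level `m0` (`exists_level`), `σ i = iterateFrobenius F p (m0 * i !)`,
`lev i = fixSub rho (σ i)`, `fld i` the fixed field. With `φ` from `exists_frob`: `φ` preserves `T`,
`B`, `U`, `Um n⁻¹` up to the following remarks: `φ (s α) = s α` (`h_mul_s` with `a = 1`), so
`φ n ∈ n T` for `n ∈ N` (`N_induction`), and `φ` preserves `U` and `Uneg`. For `bruhat` use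
`bruhat'` and `bruhat'_unique`; for `decomp` use `U_decomp_s` and `x_mem_U'_iff`. -/
theorem exists_tower [IsFbar F] : Nonempty D.Tower := by
  obtain ⟨p, hp, hchar, hpa⟩ := IsFbar.exists_prime (F := F)
  have : Fact p.Prime := ⟨hp⟩
  obtain ⟨m0, hm0, hS⟩ := exists_level p hpa D.rho
    (S := (fun α => D.x α 1) '' (D.Phi : Set (Fin D.r → ℤ))) (D.Phi.finite_toSet.image _)
  have hmono : ∀ {m m' : ℕ}, m ∣ m' →
      fixSub D.rho (iterateFrobenius F p m) ≤ fixSub D.rho (iterateFrobenius F p m') := by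
    intro m m' h g hg
    rw [mem_fixSub] at hg ⊢
    exact fun i j => fix_frob_dvd p h (hg i j)
  have hpos : ∀ i : ℕ, 0 < m0 * i.factorial := fun i => Nat.mul_pos hm0 i.factorial_pos
  have hdvd : ∀ {i j : ℕ}, i ≤ j → m0 * i.factorial ∣ m0 * j.factorial :=
    fun h => Nat.mul_dvd_mul_left _ (Nat.factorial_dvd_factorial h)
  have hdvd' : ∀ {m : ℕ}, 0 < m → m ∣ m0 * m.factorial :=
    fun h => Dvd.dvd.mul_left (Nat.dvd_factorial h le_rfl) _
  have hL := fun i : ℕ => D.Tower_level (iterateFrobenius F p (m0 * i.factorial))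
    fun α hα => hmono (Dvd.intro _ rfl) (hS ⟨α, hα, rfl⟩)
  refine ⟨{ lev := fun i => fixSub D.rho (iterateFrobenius F p (m0 * i.factorial))
            fld := fun i => (iterateFrobenius F p (m0 * i.factorial)).eqLocusField (RingHom.id F)
            lev_fin := fun i => fixSub_finite p (hpos i) D.rho D.rho_inj
            fld_fin := fun i => (fix_frob_finite p (hpos i)).1
            lev_mono := fun i j h => hmono (hdvd h)
            fld_mono := fun i j h a ha => fix_frob_dvd p (hdvd h) ha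
            lev_ex := fun g => ?_
            fld_ex := fun a => ?_
            s_mem := fun i => (hL i).1
            x_mem := fun i => (hL i).2.1
            bruhat := fun i => (hL i).2.2.1
            decomp := fun i => (hL i).2.2.2 }⟩
  · obtain ⟨m, hm, hg⟩ := exists_level p hpa D.rho (Set.finite_singleton g)
    exact ⟨m, hmono (hdvd' hm) (hg rfl)⟩
  · obtain ⟨m, hm, ha⟩ := hpa a
    exact ⟨m, fix_frob_dvd p (hdvd' hm) ((iterateFrobenius_def p m a).trans ha)⟩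

end Datum

end Pool.Agent.Work.MP_bb5f23_al
end

-- merged part: Pool.Agent.Work.MP_bb5f23_al.NF1
section
/-! Torus-stable subgroups of `U`. -/

namespace Pool.Agent.Work.MP_bb5f23_al

namespace Datum

variable {F : Type} [Field F] {G : Type*} [Group G] (D : Datum F G) [IsAlgClosed F]

/-- The subgroup generated by the root subgroups of a list. -/
def NF1_K (l : List (Fin D.r → ℤ)) : Subgroup G := ⨆ γ ∈ l, D.rootSub γ

/-- A sorted, upward closed list of positive roots. -/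
structure NF1_Tail (ht : (Fin D.r → ℤ) →+ ℚ) (l : List (Fin D.r → ℤ)) : Prop where
  nodup : l.Nodup
  sorted : l.Pairwise fun α β => ht α ≤ ht β
  sub : ∀ α ∈ l, α ∈ D.pos
  up : ∀ γ ∈ D.pos, ∀ δ ∈ l, ht δ < ht γ → γ ∈ l

omit [IsAlgClosed F] in
theorem NF1_units_infinite [Infinite F] : Infinite Fˣ := by
  have h : ({0}ᶜ : Set F).Infinite := (Set.finite_singleton (0 : F)).infinite_compl
  have := h.to_subtype
  exact Infinite.of_injective (fun a : ({0}ᶜ : Set F) => Units.mk0 a.1 a.2)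
    fun a b hab => Subtype.ext (congrArg Units.val hab)

section aux

omit [IsAlgClosed F]

theorem NF1_x_mem {l : List (Fin D.r → ℤ)} {γ : Fin D.r → ℤ} (hγ : γ ∈ l) (a : F) :
    D.x γ a ∈ D.NF1_K l :=
  (le_iSup₂_of_le (f := fun γ (_ : γ ∈ l) => D.rootSub γ) γ hγ le_rfl) (D.x_mem γ a)

theorem NF1_K_le {l : List (Fin D.r → ℤ)} {H : Subgroup G} (h : ∀ γ ∈ l, ∀ a, D.x γ a ∈ H) :
    D.NF1_K l ≤ H :=
  iSup₂_le fun γ hγ g hg => by
    obtain ⟨a, rfl⟩ := D.mem_rootSub.1 hg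
    exact h γ hγ a

theorem NF1_conj {l : List (Fin D.r → ℤ)} {u : G}
    (h : ∀ δ ∈ l, ∀ b, u * D.x δ b * u⁻¹ ∈ D.NF1_K l) {g : G} (hg : g ∈ D.NF1_K l) :
    u * g * u⁻¹ ∈ D.NF1_K l :=
  D.NF1_K_le (H := (D.NF1_K l).comap (MulAut.conj u).toMonoidHom) h hg

theorem NF1_tail {ht : (Fin D.r → ℤ) →+ ℚ} {δ : Fin D.r → ℤ} {l : List (Fin D.r → ℤ)}
    (h : D.NF1_Tail ht (δ :: l)) : D.NF1_Tail ht l where
  nodup := (List.nodup_cons.1 h.nodup).2
  sorted := (List.pairwise_cons.1 h.sorted).2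
  sub α hα := h.sub α (List.mem_cons_of_mem _ hα)
  up γ hγ ε hε hlt := by
    rcases List.mem_cons.1 (h.up γ hγ ε (List.mem_cons_of_mem _ hε) hlt) with rfl | h'
    · exact absurd ((List.pairwise_cons.1 h.sorted).1 ε hε) (not_le.2 hlt)
    · exact h'

theorem NF1_tau {l : List (Fin D.r → ℤ)} (hl : ∀ α ∈ l, α ∈ D.pos) (z : Fin D.r → Fˣ) {g : G}
    (hg : g ∈ D.NF1_K l) : D.tau z * g * (D.tau z)⁻¹ ∈ D.NF1_K l :=
  D.NF1_conj (fun δ hδ b => by
    rw [D.tau_x δ (D.pos_sub (hl δ hδ))]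
    exact D.NF1_x_mem hδ _) hg

theorem NF1_x_conj {ht : (Fin D.r → ℤ) →+ ℚ} (hht : ∀ α ∈ D.pos, 0 < ht α)
    {l : List (Fin D.r → ℤ)} (h : D.NF1_Tail ht l) {α : Fin D.r → ℤ} (hα : α ∈ D.pos) (a : F)
    {g : G} (hg : g ∈ D.NF1_K l) : D.x α a * g * (D.x α a)⁻¹ ∈ D.NF1_K l := by
  refine D.NF1_conj (fun δ hδ b => ?_) hg
  by_cases e : α = δ
  · subst e
    rw [← D.x_neg, ← D.x_add, ← D.x_add]
    exact D.NF1_x_mem hδ _
  · have hδ' := h.sub δ hδ
    have h1 := D.comm α hα δ hδ' e a b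
    have h2 : (⨆ γ ∈ D.Phi, ⨆ _ : ∃ i j : ℕ, 0 < i ∧ 0 < j ∧ γ = i • α + j • δ,
        D.rootSub γ) ≤ D.NF1_K l := by
      refine iSup₂_le fun γ hγ => iSup_le ?_
      rintro ⟨i, j, hi, hj, rfl⟩
      have hp : i • α + j • δ ∈ D.pos :=
        D.mem_pos.2 ⟨hγ, add_mem (nsmul_mem (D.mem_pos.1 hα).2 i)
          (nsmul_mem (D.mem_pos.1 hδ').2 j)⟩
      have hl : i • α + j • δ ∈ l := by
        refine h.up _ hp δ hδ ?_
        rw [map_add, map_nsmul, map_nsmul, nsmul_eq_mul, nsmul_eq_mul]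
        have h3 : (1 : ℚ) ≤ i := by exact_mod_cast hi
        have h4 : (1 : ℚ) ≤ j := by exact_mod_cast hj
        have h5 := hht α hα
        have h6 := hht δ hδ'
        nlinarith
      exact le_iSup₂_of_le (f := fun γ (_ : γ ∈ l) => D.rootSub γ) _ hl le_rfl
    have h3 := (D.NF1_K l).mul_mem (h2 h1) (D.NF1_x_mem hδ b)
    rwa [inv_mul_cancel_right] at h3

theorem NF1_decomp {ht : (Fin D.r → ℤ) →+ ℚ} (hht : ∀ α ∈ D.pos, 0 < ht α) {δ : Fin D.r → ℤ}
    {l : List (Fin D.r → ℤ)} (h : D.NF1_Tail ht (δ :: l)) {g : G} (hg : g ∈ D.NF1_K (δ :: l)) :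
    ∃ b, ∃ g' ∈ D.NF1_K l, g = D.x δ b * g' := by
  have hδ := h.sub δ List.mem_cons_self
  have hl := D.NF1_tail h
  let S : Subgroup G :=
    { carrier := {g | ∃ b, ∃ g' ∈ D.NF1_K l, g = D.x δ b * g'}
      one_mem' := ⟨0, 1, one_mem _, by rw [D.x_zero, one_mul]⟩
      mul_mem' := by
        rintro _ _ ⟨b, g, hg, rfl⟩ ⟨b', g', hg', rfl⟩
        refine ⟨b + b', _, mul_mem (D.NF1_x_conj hht hl hδ (-b') hg) hg', ?_⟩
        rw [D.x_add, D.x_neg]
        group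
      inv_mem' := by
        rintro _ ⟨b, g, hg, rfl⟩
        refine ⟨-b, _, D.NF1_x_conj hht hl hδ b (inv_mem hg), ?_⟩
        rw [D.x_neg]
        group }
  refine D.NF1_K_le (H := S) (fun γ hγ a => ?_) hg
  rcases List.mem_cons.1 hγ with rfl | hγ
  · exact ⟨a, 1, one_mem _, (mul_one _).symm⟩
  · exact ⟨0, _, D.NF1_x_mem hγ a, by rw [D.x_zero, one_mul]⟩

theorem NF1_congr {l : List (Fin D.r → ℤ)} {a b : (Fin D.r → ℤ) → F} (h : ∀ α ∈ l, a α = b α) :
    D.prodX l a = D.prodX l b := by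
  unfold PreDatum.prodX
  rw [List.map_congr_left fun α hα => by rw [h α hα]]

theorem NF1_eq_one {l : List (Fin D.r → ℤ)} {a : (Fin D.r → ℤ) → F} (h : ∀ α ∈ l, a α = 0) :
    D.prodX l a = 1 :=
  Subgroup.mem_bot.1 (D.prodX_mem a fun α hα => by rw [h α hα, D.x_zero]; exact one_mem _)

theorem NF1_cons (γ : Fin D.r → ℤ) (l : List (Fin D.r → ℤ)) (a : (Fin D.r → ℤ) → F) :
    D.prodX (γ :: l) a = D.x γ (a γ) * D.prodX l a := by
  simp [PreDatum.prodX]

theorem NF1_filter (p : (Fin D.r → ℤ) → Bool) (l : List (Fin D.r → ℤ)) (a : (Fin D.r → ℤ) → F) :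
    D.prodX (l.filter p) a = D.prodX l fun γ => if p γ then a γ else 0 := by
  induction l with
  | nil => rfl
  | cons γ l ih =>
    by_cases h : p γ
    · rw [List.filter_cons_of_pos h, NF1_cons, NF1_cons, ih, if_pos h]
    · rw [List.filter_cons_of_neg h, NF1_cons, ih, if_neg h, D.x_zero, one_mul]

end aux

theorem NF1_root_le {H : Subgroup G} (hT : ∀ t ∈ D.T, ∀ g ∈ H, t * g * t⁻¹ ∈ H)
    {γ : Fin D.r → ℤ} (hγ : γ ∈ D.pos) {c : F} (hc : c ≠ 0) (h : D.x γ c ∈ H) :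
    D.rootSub γ ≤ H := by
  intro g hg
  obtain ⟨a, rfl⟩ := D.mem_rootSub.1 hg
  by_cases ha : a = 0
  · rw [ha, D.x_zero]
    exact one_mem _
  · have h0 : γ ≠ 0 := fun e => D.zero_not_mem (e ▸ D.pos_sub hγ)
    obtain ⟨z, hz⟩ := mon_surj h0 (Units.mk0 (a / c) (div_ne_zero ha hc))
    have := hT _ (D.tau_mem z) _ h
    rwa [D.tau_x γ (D.pos_sub hγ), hz, Units.val_mk0, div_mul_cancel₀ a hc] at this

theorem NF1_main {ht : (Fin D.r → ℤ) →+ ℚ} (hht : ∀ α ∈ D.pos, 0 < ht α) {H : Subgroup G}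
    (hT : ∀ t ∈ D.T, ∀ g ∈ H, t * g * t⁻¹ ∈ H) (l : List (Fin D.r → ℤ)) (h : D.NF1_Tail ht l) :
    ∀ γ ∈ D.pos, γ ∉ l → ∀ c, ∀ g ∈ D.NF1_K l, D.x γ c * g ∈ H → D.x γ c ∈ H := by
  induction l with
  | nil =>
    intro γ _ _ c g hg hH
    have : g = 1 := Subgroup.mem_bot.1 (D.NF1_K_le (H := ⊥) (fun _ h => by simp at h) hg)
    rwa [this, mul_one] at hH
  | cons δ l ih =>
    intro γ hγ hγl c g hg hH
    have hδ := h.sub δ List.mem_cons_self
    have hl := D.NF1_tail h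
    have hγl' : γ ∉ l := fun e => hγl (List.mem_cons_of_mem _ e)
    have hne : γ ≠ δ := fun e => hγl (e ▸ List.mem_cons_self)
    obtain ⟨b, g', hg', rfl⟩ := D.NF1_decomp hht h hg
    by_cases hb : b = 0
    · rw [hb, D.x_zero, one_mul] at hH
      exact ih hl γ hγ hγl' c g' hg' hH
    · have := NF1_units_infinite (F := F)
      obtain ⟨e, he⟩ := exists_ne (1 : Fˣ)
      obtain ⟨z, hz1, hz2⟩ := D.root_sep hγ hδ hne e
      have h1 := mul_mem (inv_mem hH) (hT _ (D.tau_mem z) _ hH)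
      have e1 : D.tau z * (D.x γ c * (D.x δ b * g')) * (D.tau z)⁻¹ =
          D.x γ c * (D.x δ (e * b) * (D.tau z * g' * (D.tau z)⁻¹)) := by
        have a1 := D.tau_x γ (D.pos_sub hγ) z c
        have a2 := D.tau_x δ (D.pos_sub hδ) z b
        rw [hz1, Units.val_one, one_mul] at a1
        rw [hz2] at a2
        rw [← a2]
        conv_rhs => rw [← a1]
        group
      have e2 : (D.x γ c * (D.x δ b * g'))⁻¹ *
          (D.x γ c * (D.x δ (e * b) * (D.tau z * g' * (D.tau z)⁻¹))) =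
          D.x δ (-b + e * b) * ((D.x δ (-(-b + e * b)) * g'⁻¹ * (D.x δ (-(-b + e * b)))⁻¹) *
            (D.tau z * g' * (D.tau z)⁻¹)) := by
        rw [D.x_neg, D.x_add, D.x_neg]
        group
      rw [e1, e2] at h1
      have h2 := ih hl δ hδ (List.nodup_cons.1 h.nodup).1 _ _
        (mul_mem (D.NF1_x_conj hht hl hδ _ (inv_mem hg')) (D.NF1_tau hl.sub z hg')) h1
      have h3 : -b + e * b ≠ 0 := by
        have : -b + e * b = ((e : F) - 1) * b := by ring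
        rw [this]
        exact mul_ne_zero (sub_ne_zero.2 fun e' => he (Units.ext e')) hb
      have h4 := D.NF1_root_le hT hδ h3 h2 (D.x_mem δ b)
      have h5 := mul_mem hH (inv_mem h4)
      rw [mul_assoc] at h5
      exact ih hl γ hγ hγl' c _ (D.NF1_x_conj hht hl hδ b hg') h5

theorem NF1_main' {ht : (Fin D.r → ℤ) →+ ℚ} (hht : ∀ α ∈ D.pos, 0 < ht α) {H : Subgroup G}
    (hT : ∀ t ∈ D.T, ∀ g ∈ H, t * g * t⁻¹ ∈ H) (l : List (Fin D.r → ℤ)) (h : D.NF1_Tail ht l)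
    (a : (Fin D.r → ℤ) → F) (hH : D.prodX l a ∈ H) : ∀ γ ∈ l, D.x γ (a γ) ∈ H := by
  induction l with
  | nil => simp
  | cons δ l ih =>
    have hl := D.NF1_tail h
    rw [NF1_cons] at hH
    have h1 := D.NF1_main hht hT l hl δ (h.sub δ List.mem_cons_self)
      (List.nodup_cons.1 h.nodup).1 _ _ (D.prodX_mem a fun α hα => D.NF1_x_mem hα _) hH
    intro γ hγ
    rcases List.mem_cons.1 hγ with rfl | hγ
    · exact h1
    · exact ih hl ((H.mul_mem_cancel_left h1).1 hH) γ hγ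

/-- Let `l` enumerate `pos` sorted by height (`exists_ht`, `List.mergeSort` or
`List.insertionSort`). For a tail `l'` of `l` the set `U(l') = {prodX l' a}` is a subgroup
normalised by `U` and `T` (induction on tails; by `comm` the commutators of `x α a` with `x γ b`,
`γ ∈ l'`, lie in root groups of larger height, i.e. further in the list). Induction on tails
`l' = γ :: l''`: every element of `H ∩ U(l')` has nonzero coordinates only at roots whose root group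
lies in `H`. For `g = x γ a * g' ∈ H` with `a ≠ 0` choose `g' ∈ U(l₃)` with the tail `l₃` of `l''`
shortest; if `l₃ = δ :: l₄` and `g' = x δ b * g''` with `b ≠ 0`, take `t` with `γ(t) = 1 ≠ δ(t)`
(`root_sep`): `g⁻¹ t g t⁻¹ ∈ H ∩ U(l₃)` has `δ`-coordinate `(δ(t) - 1) b ≠ 0`, so
`rootSub δ ≤ H` and `g * x δ (-b) ∈ x γ a * U(l₄)`, a contradiction. So `x γ a ∈ H` and by
`T`-stability (`mon_surj`) `rootSub γ ≤ H`. -/
theorem exists_sorted (H : Subgroup G) (hT : ∀ t ∈ D.T, ∀ g ∈ H, t * g * t⁻¹ ∈ H) :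
    ∃ l : List (Fin D.r → ℤ), l.Nodup ∧ (∀ α, α ∈ l ↔ α ∈ D.pos) ∧
      ∀ a, D.prodX l a ∈ H → ∀ γ ∈ l, a γ ≠ 0 → D.rootSub γ ≤ H := by
  obtain ⟨ht, hht⟩ := D.exists_ht
  have hp := List.mergeSort_perm D.pos.toList fun α β => decide (ht α ≤ ht β)
  have hs := List.pairwise_mergeSort (le := fun α β => decide (ht α ≤ ht β))
    (fun a b c h1 h2 => by
      simp only [decide_eq_true_eq] at h1 h2 ⊢
      exact h1.trans h2)
    (fun a b => by simpa using le_total (ht a) (ht b)) D.pos.toList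
  have hm : ∀ α, α ∈ D.pos.toList.mergeSort (fun α β => decide (ht α ≤ ht β)) ↔ α ∈ D.pos :=
    fun α => by rw [hp.mem_iff, Finset.mem_toList]
  have hl : D.NF1_Tail ht (D.pos.toList.mergeSort fun α β => decide (ht α ≤ ht β)) :=
    ⟨hp.nodup_iff.2 D.pos.nodup_toList, hs.imp fun h => of_decide_eq_true h,
      fun α hα => (hm α).1 hα, fun γ hγ _ _ _ => (hm γ).2 hγ⟩
  exact ⟨_, hl.nodup, hm, fun a ha γ hγ h0 =>
    D.NF1_root_le hT ((hm γ).1 hγ) h0 (D.NF1_main' hht hT _ hl a ha γ hγ)⟩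

theorem le_iSup_of_stable (H : Subgroup G) (hU : H ≤ D.U)
    (hT : ∀ t ∈ D.T, ∀ g ∈ H, t * g * t⁻¹ ∈ H) :
    H ≤ ⨆ γ ∈ D.pos, ⨆ _ : D.rootSub γ ≤ H, D.rootSub γ := by
  intro g hg
  obtain ⟨l, hn, hm, hl⟩ := D.exists_sorted H hT
  obtain ⟨a, rfl⟩ := D.prod_surj l hn hm g (hU hg)
  refine D.prodX_mem a fun γ hγ => ?_
  by_cases h0 : a γ = 0
  · rw [h0, D.x_zero]
    exact one_mem _
  · have : D.rootSub γ ≤ ⨆ γ ∈ D.pos, ⨆ _ : D.rootSub γ ≤ H, D.rootSub γ :=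
      le_iSup₂_of_le γ ((hm γ).1 hγ) (le_iSup_of_le (hl a hg γ hγ h0) le_rfl)
    exact this (D.x_mem γ _)

/-- Let `l` be as in `exists_sorted`, `l₁` (resp. `l₂`) its sublist of roots with
`rootSub γ ≤ H` false (resp. true). Then `H = {prodX l₂ a}`: if `h = prodX (l₁ ++ l₂) a` then
`prodX l₁ a = prodX l a'` (with `a' = a` on `l₁`, `0` on `l₂`) lies in `H`. So the coset of
`u = prodX (l₁ ++ l₂) a` determines `a` on `l₁` (`prod_inj`), and a nonzero coordinate takes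
infinitely many values under `T` (`tau_prodX`, `mon_surj`). -/
theorem mem_of_finite_orbit (H : Subgroup G) (hU : H ≤ D.U)
    (hT : ∀ t ∈ D.T, ∀ g ∈ H, t * g * t⁻¹ ∈ H) {u : G} (hu : u ∈ D.U)
    (h : {c : G ⧸ H | ∃ t ∈ D.T, c = ((t * u * t⁻¹ : G) : G ⧸ H)}.Finite) : u ∈ H := by
  classical
  obtain ⟨l, hn, hm, hl⟩ := D.exists_sorted H hT
  obtain ⟨p, hp⟩ : ∃ p : (Fin D.r → ℤ) → Bool, ∀ γ, p γ = true ↔ ¬D.rootSub γ ≤ H :=
    ⟨fun γ => decide (¬D.rootSub γ ≤ H), fun _ => decide_eq_true_iff⟩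
  have hperm := List.filter_append_perm p l
  have hn' := hperm.nodup_iff.2 hn
  have hm' : ∀ α, α ∈ l.filter p ++ l.filter (fun x => !p x) ↔ α ∈ D.pos :=
    fun α => hperm.mem_iff.trans (hm α)
  have h1 : ∀ γ ∈ l.filter p, p γ = true := fun γ hγ => (List.mem_filter.1 hγ).2
  have h2 : ∀ γ ∈ l.filter (fun x => !p x), ¬p γ = true := fun γ hγ => by
    simpa using (List.mem_filter.1 hγ).2
  have h3 : ∀ a, D.prodX (l.filter fun x => !p x) a ∈ H := fun a =>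
    D.prodX_mem a fun γ hγ => not_not.1 (fun e => h2 γ hγ ((hp γ).2 e)) (D.x_mem γ _)
  have h4 : ∀ g ∈ H, ∃ b, g = D.prodX (l.filter fun x => !p x) b := fun g hg => by
    obtain ⟨b, rfl⟩ := D.prod_surj _ hn' hm' g (hU hg)
    refine ⟨b, ?_⟩
    rw [D.prodX_append] at hg ⊢
    have h5 := (H.mul_mem_cancel_right (h3 b)).1 hg
    rw [D.NF1_filter] at h5
    rw [D.NF1_eq_one (l := l.filter p) fun γ hγ => ?_, one_mul]
    by_contra h0
    refine (hp γ).1 (h1 γ hγ) (hl _ h5 γ (List.mem_filter.1 hγ).1 ?_)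
    rwa [if_pos (h1 γ hγ)]
  have h5 : ∀ a b, (D.prodX (l.filter p) a : G ⧸ H) = D.prodX (l.filter p) b →
      ∀ γ ∈ l.filter p, a γ = b γ := fun a b hab γ hγ => by
    obtain ⟨c, hc⟩ := h4 _ (QuotientGroup.eq.1 hab)
    have := D.prod_inj _ hn' hm' (fun γ => if p γ then a γ else c γ)
      (fun γ => if p γ then b γ else 0) ?_ γ (List.mem_append_left _ hγ)
    · rwa [if_pos (h1 γ hγ), if_pos (h1 γ hγ)] at this
    · rw [D.prodX_append, D.prodX_append, D.NF1_congr (b := a) fun γ hγ => if_pos (h1 γ hγ),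
        D.NF1_congr (b := c) fun γ hγ => if_neg (h2 γ hγ),
        D.NF1_congr (b := b) fun γ hγ => if_pos (h1 γ hγ),
        D.NF1_eq_one fun γ hγ => if_neg (h2 γ hγ), ← hc, mul_inv_cancel_left, mul_one]
  obtain ⟨a, rfl⟩ := D.prod_surj _ hn' hm' u hu
  rw [D.prodX_append, D.NF1_eq_one (l := l.filter p) fun γ hγ => ?_, one_mul]
  · exact h3 a
  · by_contra h0
    have hγ' : γ ∈ D.pos := (hm γ).1 (List.mem_filter.1 hγ).1
    have h6 : γ ≠ 0 := fun e => D.zero_not_mem (e ▸ D.pos_sub hγ')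
    choose z hz using mon_surj (F := F) h6
    have := NF1_units_infinite (F := F)
    refine Set.infinite_of_injective_forall_mem
      (f := fun e : Fˣ => (D.prodX (l.filter p) fun α => mon α (z e) * a α : G ⧸ H))
      (fun e e' hee => ?_) (fun e => ?_) h
    · have := h5 _ _ hee γ hγ
      rw [hz, hz] at this
      exact Units.ext (mul_right_cancel₀ h0 this)
    · refine ⟨_, D.tau_mem (z e), ?_⟩
      rw [D.tau_prodX fun α hα => D.pos_sub ((hm' α).1 hα), D.prodX_append,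
        QuotientGroup.mk_mul_of_mem _ (h3 _)]

end Datum

end Pool.Agent.Work.MP_bb5f23_al
end

-- merged part: Pool.Agent.Work.MP_bb5f23_al.NF1b
section
/-! The commensurator of `U'` and the induced module. -/

namespace Pool.Agent.Work.MP_bb5f23_al

/-- The induced module of the trivial character is the permutation module:
`IndV.mk h 1 ↦ single (h⁻¹ S) 1`. -/
theorem exists_ind_equiv {k H : Type*} [Field k] [Group H] (S : Subgroup H) :
    ∃ e : Representation.IndV S.subtype (Representation.trivial k S k) ≃ₗ[k] ((H ⧸ S) →₀ k),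
      ∀ h v, e (Representation.ind S.subtype (Representation.trivial k S k) h v) =
        Finsupp.mapDomain (h • ·) (e v) := by
  let f₀ : TensorProduct k (MonoidAlgebra k H) k →ₗ[k] ((H ⧸ S) →₀ k) :=
    Finsupp.lmapDomain k k (fun h : H => ((h⁻¹ : H) : H ⧸ S)) ∘ₗ
      (MonoidAlgebra.coeffLinearEquiv k).toLinearMap ∘ₗ (TensorProduct.rid k _).toLinearMap
  have h₀ : ∀ (h : H) (a b : k), f₀ (MonoidAlgebra.single h a ⊗ₜ b) =
      Finsupp.single ((h⁻¹ : H) : H ⧸ S) (b * a) := fun h a b => by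
    simp only [f₀, LinearMap.comp_apply, LinearEquiv.coe_coe, TensorProduct.rid_tmul,
      MonoidAlgebra.smul_single, smul_eq_mul, Finsupp.lmapDomain_apply]
    exact Finsupp.mapDomain_single
  have hq : ∀ (s : S) (h : H), (((s * h)⁻¹ : H) : H ⧸ S) = (h⁻¹ : H) := fun s h => by
    rw [QuotientGroup.eq]
    simp
  let f : Representation.IndV S.subtype (Representation.trivial k S k) →ₗ[k] ((H ⧸ S) →₀ k) :=
    Representation.Coinvariants.lift _ f₀ fun s =>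
      TensorProduct.ext <| MonoidAlgebra.lhom_ext' fun h => LinearMap.ext_ring <|
        LinearMap.ext_ring <| by
          have := hq s h
          simp only [mul_inv_rev] at this
          simp [h₀, this]
  have hf : ∀ (h : H) (a : k), f (Representation.IndV.mk S.subtype _ h a) =
      Finsupp.single ((h⁻¹ : H) : H ⧸ S) a := fun h a => (h₀ h 1 a).trans (by rw [mul_one])
  have hs : ∀ (s : S) (h : H) (a : k),
      Representation.IndV.mk S.subtype (Representation.trivial k S k) (s * h) a =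
        Representation.IndV.mk S.subtype (Representation.trivial k S k) h a := fun s h a => by
    have := Representation.Coinvariants.mk_self_apply (Representation.tprod
      ((Representation.leftRegular k H).comp S.subtype) (Representation.trivial k S k)) s
      (MonoidAlgebra.single h 1 ⊗ₜ a)
    simpa using this
  let g : ((H ⧸ S) →₀ k) →ₗ[k] Representation.IndV S.subtype (Representation.trivial k S k) :=
    Finsupp.linearCombination k fun c => Representation.IndV.mk S.subtype _ c.out⁻¹ 1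
  refine ⟨LinearEquiv.ofLinearMap f g ?_ ?_, fun h v => ?_⟩
  · refine Finsupp.lhom_ext' fun c => LinearMap.ext_ring ?_
    simp only [LinearMap.comp_apply, Finsupp.lsingle_apply, g, Finsupp.linearCombination_single,
      one_smul, LinearMap.id_apply]
    exact (hf _ _).trans (by rw [inv_inv, QuotientGroup.out_eq'])
  · refine Representation.IndV.hom_ext _ _ fun h => LinearMap.ext_ring ?_
    obtain ⟨s, hs'⟩ := QuotientGroup.mk_out_eq_mul S h⁻¹
    rw [LinearMap.comp_apply, LinearMap.comp_apply, hf, LinearMap.comp_apply, LinearMap.id_apply]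
    simp only [g, Finsupp.linearCombination_single, one_smul]
    rw [hs', mul_inv_rev, inv_inv]
    exact hs s⁻¹ h 1
  · have : f ∘ₗ Representation.ind S.subtype (Representation.trivial k S k) h =
        Finsupp.lmapDomain k k (h • ·) ∘ₗ f := by
      refine Representation.IndV.hom_ext _ _ fun h' => LinearMap.ext_ring ?_
      rw [LinearMap.comp_apply, LinearMap.comp_apply, Representation.ind_mk, hf,
        LinearMap.comp_apply, LinearMap.comp_apply, hf, Finsupp.lmapDomain_apply,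
        Finsupp.mapDomain_single, mul_inv_rev, inv_inv]
      rfl
    exact LinearMap.congr_fun this v

/-- The elements with finite orbit form a submonoid. -/
def NF1b_comm {G : Type*} [Group G] (S : Subgroup G) : Submonoid G where
  carrier := {u | {c : G ⧸ S | ∃ v ∈ S, c = ((v * u : G) : G ⧸ S)}.Finite}
  one_mem' := (Set.finite_singleton ((1 : G) : G ⧸ S)).subset <| by
    rintro _ ⟨v, hv, rfl⟩
    rw [Set.mem_singleton_iff, eq_comm, QuotientGroup.eq]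
    simpa using hv
  mul_mem' {u u'} hu hu' := (Set.Finite.image2 (fun c d => c.out • d) hu hu').subset <| by
    rintro _ ⟨v, hv, rfl⟩
    obtain ⟨s, hs⟩ := QuotientGroup.mk_out_eq_mul S (v * u)
    refine ⟨_, ⟨v, hv, rfl⟩, _, ⟨s⁻¹, inv_mem s.2, rfl⟩, ?_⟩
    change (((((v * u : G) : G ⧸ S).out * ((s : G)⁻¹ * u') : G)) : G ⧸ S) = _
    rw [hs]
    congr 1
    group

theorem NF1b_conj {G : Type*} [Group G] (S : Subgroup G) {t u : G}
    (h1 : ∀ g ∈ S, t * g * t⁻¹ ∈ S) (h2 : ∀ g ∈ S, t⁻¹ * g * t⁻¹⁻¹ ∈ S) (hu : u ∈ NF1b_comm S) :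
    t * u * t⁻¹ ∈ NF1b_comm S := by
  refine (Set.Finite.image (fun c : G ⧸ S => ((t * c.out * t⁻¹ : G) : G ⧸ S)) hu).subset ?_
  rintro _ ⟨v, hv, rfl⟩
  obtain ⟨s, hs⟩ := QuotientGroup.mk_out_eq_mul S (t⁻¹ * v * t⁻¹⁻¹ * u)
  refine ⟨_, ⟨_, h2 v hv, rfl⟩, ?_⟩
  simp only
  rw [hs, eq_comm, QuotientGroup.eq]
  convert h1 s s.2 using 1
  group

namespace Datum

variable {F : Type} [Field F] {G : Type*} [Group G] (D : Datum F G) [IsAlgClosed F]

/-- Let `U' = U' m`. The `u ∈ U` with finite `U'`-orbit of `u U'` form a `T`-stable submonoid `H`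
(`U' u U' = ⋃ g_i U'`, `U' u u₁ U' ⊆ ⋃ g_i U' u₁ U'`), a subgroup since elements have finite order.
If `rootSub γ ≤ H`, `u = x γ b`, `β ∈ Psi m`, `β ≠ γ`, the set of `a` with `u⁻¹ x β a u ∈ U'` is
an additive subgroup of finite index in `F` (so nonzero) stable under `mon β z` for `mon γ z = 1`,
hence everything (`root_sep`). So `u` and `u⁻¹` conjugate `U'` into itself; conclude with
`le_iSup_of_stable`. -/
theorem mem_normalizer_of_finite [IsFbar F] {m u : G} (hm : m ∈ D.N) (hu : u ∈ D.U)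
    (h : {c : G ⧸ D.U' m | ∃ v ∈ D.U' m, c = ((v * u : G) : G ⧸ D.U' m)}.Finite) :
    u ∈ Subgroup.normalizer (D.U' m : Set G) := by
  let H₀ : Subgroup G :=
    { NF1b_comm (D.U' m) with
      inv_mem' := fun {g} hg => (Submonoid.powers_le.2 hg)
        ((D.finOrder g).mem_powers_iff_mem_zpowers.2 (inv_mem (Subgroup.mem_zpowers g))) }
  have hT : ∀ t ∈ D.T, ∀ g ∈ D.U ⊓ H₀, t * g * t⁻¹ ∈ D.U ⊓ H₀ := fun t ht g hg =>
    ⟨D.conj_mem_U ht hg.1, NF1b_conj _ (fun _ => D.conj_mem_U' hm ht)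
      (fun _ => D.conj_mem_U' hm (inv_mem ht)) hg.2⟩
  refine (iSup₂_le fun γ hγ => iSup_le fun hle => ?_ : _ ≤ Subgroup.normalizer (D.U' m : Set G))
    (D.le_iSup_of_stable (D.U ⊓ H₀) inf_le_left hT ⟨hu, h⟩)
  have hx : ∀ β ∈ D.Psi m, ∀ a, D.x β a ∈ D.U' m := fun β hβ a => by
    rw [D.U'_eq hm]
    exact (le_iSup₂_of_le (f := fun β (_ : β ∈ D.Psi m) => D.rootSub β) β hβ le_rfl) (D.x_mem β a)
  have key : ∀ b, ∀ g ∈ D.U' m, (D.x γ b)⁻¹ * g * D.x γ b ∈ D.U' m := by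
    intro b
    have : D.U' m ≤ (D.U' m).comap (MulAut.conj (D.x γ b)⁻¹).toMonoidHom := by
      refine (D.U'_eq hm).le.trans (iSup₂_le fun β hβ g hg => ?_)
      obtain ⟨c, rfl⟩ := D.mem_rootSub.1 hg
      change (D.x γ b)⁻¹ * D.x β c * (D.x γ b)⁻¹⁻¹ ∈ D.U' m
      rw [inv_inv]
      by_cases hβγ : γ = β
      · subst hβγ
        exact mul_mem (mul_mem (inv_mem (hx γ hβ b)) (hx γ hβ c)) (hx γ hβ b)
      by_cases hc : c = 0
      · rw [hc, D.x_zero, mul_one, inv_mul_cancel]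
        exact one_mem _
      obtain ⟨a, -, a', -, hne, heq⟩ := Set.infinite_univ.exists_ne_map_eq_of_mapsTo
        (f := fun a : F => ((D.x β a * D.x γ b : G) : G ⧸ D.U' m))
        (t := {c | ∃ v ∈ D.U' m, c = ((v * D.x γ b : G) : G ⧸ D.U' m)})
        (fun a _ => ⟨D.x β a, hx β hβ a, rfl⟩) (hle (D.x_mem γ b)).2
      have h0 : -a + a' ≠ 0 := fun h0 => hne (by linear_combination -h0)
      have h1 : (D.x γ b)⁻¹ * D.x β (-a + a') * D.x γ b ∈ D.U' m := by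
        convert QuotientGroup.eq.1 heq using 1
        rw [D.x_add, D.x_neg]
        group
      obtain ⟨z, hz1, hz2⟩ := D.root_sep hγ (D.mem_Psi.1 hβ).1 hβγ
        (Units.mk0 c hc / Units.mk0 _ h0)
      have h2 := D.tau_x γ (D.pos_sub hγ) z b
      have h3 := D.tau_x β (D.pos_sub (D.mem_Psi.1 hβ).1) z (-a + a')
      rw [hz1, Units.val_one, one_mul] at h2
      rw [hz2, Units.val_div_eq_div_val, Units.val_mk0, Units.val_mk0, div_mul_cancel₀ _ h0] at h3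
      convert D.conj_mem_U' hm (D.tau_mem z) h1 using 1
      conv_lhs => rw [← h2, ← h3]
      group
    intro g hg
    simpa using this hg
  intro g hg
  obtain ⟨b, rfl⟩ := D.mem_rootSub.1 hg
  refine fun n => ⟨fun hn => ?_, fun hn => ?_⟩
  · have := key (-b) n hn
    rwa [D.x_neg, inv_inv] at this
  · simpa [mul_assoc] using key b _ hn

end Datum

end Pool.Agent.Work.MP_bb5f23_al
end

-- merged part: Pool.Agent.Work.MP_bb5f23_al.NF2
section
/-! The normal form of an object of `X(G)`. -/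

namespace Pool.Agent.Work.MP_bb5f23_al

section NF2_gen

variable {k : Type*} [Field k]

theorem NF2_apply_eq_zero {X : Type*} (τ : (X →₀ k) →ₗ[k] (X →₀ k)) (f : X →₀ k) (z : X)
    (h : ∀ x ∈ f.support, τ (Finsupp.single x 1) z = 0) : τ f z = 0 := by
  have e : f = ∑ x ∈ f.support, f x • Finsupp.single x (1 : k) := by
    conv_lhs => rw [← Finsupp.sum_single f]
    simp [Finsupp.sum]
  rw [e, map_sum, Finsupp.finsetSum_apply]
  refine Finset.sum_eq_zero fun x hx => ?_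
  rw [map_smul, Finsupp.smul_apply, h x hx, smul_zero]

/-- The classes met by the support of an eigenvector are permuted. -/
theorem NF2_class {X Y : Type*} (cl σ : X → Y) (hσ : ∀ x x', σ x = σ x' ↔ cl x = cl x')
    (τ : (X →₀ k) →ₗ[k] (X →₀ k)) (hτ : Function.Injective τ)
    (h : ∀ x z, τ (Finsupp.single x 1) z ≠ 0 → cl z = σ x) {b : X →₀ k} {c : k}
    (hb : τ b = c • b) {x : X} (hx : x ∈ b.support) : ∃ z ∈ b.support, cl z = σ x := by
  classical
  by_contra hn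
  have h1 : τ (b.filter fun y => cl y = cl x) = 0 := by
    ext z
    by_cases hz : cl z = σ x
    · have h2 : τ (b.filter fun y => ¬ cl y = cl x) z = 0 := by
        refine NF2_apply_eq_zero τ _ z fun y hy => by_contra fun hy' => ?_
        rw [Finsupp.support_filter, Finset.mem_filter] at hy
        exact hy.2 ((hσ _ _).1 ((h y z hy').symm.trans hz))
      have h3 : b z = 0 := by_contra fun h3 => hn ⟨z, Finsupp.mem_support_iff.2 h3, hz⟩
      have h4 := congrArg (fun f => τ f z) (Finsupp.filter_add_filter_not b fun y => cl y = cl x)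
      simp only [map_add, Finsupp.add_apply, h2, add_zero, hb, Finsupp.smul_apply, h3,
        smul_zero] at h4
      exact h4
    · refine NF2_apply_eq_zero τ _ z fun y hy => by_contra fun hy' => ?_
      rw [Finsupp.support_filter, Finset.mem_filter] at hy
      exact hz ((h y z hy').trans ((hσ _ _).2 hy.2))
  have h2 := congrArg (fun f => f x) (hτ (h1.trans (map_zero τ).symm))
  simp only [Finsupp.filter_apply, if_true, Finsupp.zero_apply] at h2
  exact Finsupp.mem_support_iff.1 hx h2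

variable {H : Type*} [Group H] (S : Subgroup H)

theorem NF2_act_single (u w : H) (c : k) :
    Finsupp.mapDomain (u • ·) (Finsupp.single (w : H ⧸ S) c) =
      Finsupp.single ((u * w : H) : H ⧸ S) c := by
  rw [Finsupp.mapDomain_single]
  rfl

theorem NF2_act_mul (u w : H) (f : (H ⧸ S) →₀ k) :
    Finsupp.mapDomain ((u * w) • ·) f = Finsupp.mapDomain (u • ·) (Finsupp.mapDomain (w • ·) f) := by
  rw [← Finsupp.mapDomain_comp]
  exact Finsupp.mapDomain_congr fun x _ => mul_smul u w x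

theorem NF2_act_apply (u : H) (f : (H ⧸ S) →₀ k) (x : H ⧸ S) :
    Finsupp.mapDomain (u • ·) f (u • x) = f x :=
  Finsupp.mapDomain_apply (MulAction.injective u) f x

/-- An equivariant surjection of a permutation module of a locally finite group is injective. -/
theorem NF2_inj (hH : ∀ A : Set H, A.Finite → ∃ Γ : Subgroup H, (Γ : Set H).Finite ∧ A ⊆ Γ)
    (r : ((H ⧸ S) →₀ k) →ₗ[k] ((H ⧸ S) →₀ k))
    (hr : ∀ (u : H) f, r (Finsupp.mapDomain (u • ·) f) = Finsupp.mapDomain (u • ·) (r f))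
    (hs : Function.Surjective r) : Function.Injective r := by
  classical
  rw [injective_iff_map_eq_zero]
  intro f hf
  obtain ⟨b', hb'⟩ := hs (Finsupp.single ((1 : H) : H ⧸ S) 1)
  set b := r (Finsupp.single ((1 : H) : H ⧸ S) 1) with hb
  obtain ⟨Γ, hΓ, hA⟩ := hH (Quotient.out '' (↑(b.support ∪ b'.support ∪ f.support) : Set (H ⧸ S)))
    ((Finset.finite_toSet _).image _)
  set Z : Set (H ⧸ S) := QuotientGroup.mk '' (Γ : Set H) with hZ
  set W := Finsupp.supported k k Z with hW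
  have hWs : W = Submodule.span k ((fun i => Finsupp.single i (1 : k)) '' Z) :=
    Finsupp.supported_eq_span_single k Z
  have hfin : FiniteDimensional k W := by
    rw [hWs]
    exact FiniteDimensional.span_of_finite k ((hΓ.image _).image _)
  have hmem : ∀ g : (H ⧸ S) →₀ k, g.support ⊆ b.support ∪ b'.support ∪ f.support → g ∈ W :=
    fun g hg x hx => ⟨x.out, hA ⟨x, hg hx, rfl⟩, QuotientGroup.out_eq' x⟩
  have hact : ∀ γ ∈ Γ, ∀ g ∈ W, Finsupp.mapDomain (γ • ·) g ∈ W := by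
    intro γ hγ g hg x hx
    obtain ⟨y, hy, rfl⟩ := Finset.mem_image.1 (Finsupp.mapDomain_support hx)
    obtain ⟨w, hw, rfl⟩ := hg hy
    exact ⟨γ * w, Γ.mul_mem hγ hw, rfl⟩
  have hsing : ∀ γ : H, Finsupp.single (γ : H ⧸ S) (1 : k) =
      Finsupp.mapDomain (γ • ·) (Finsupp.single ((1 : H) : H ⧸ S) 1) := fun γ => by
    rw [NF2_act_single, mul_one]
  have hrW : ∀ g ∈ W, r g ∈ W := by
    intro g hg
    have : W ≤ W.comap r := by
      conv_lhs => rw [hWs]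
      refine Submodule.span_le.2 ?_
      rintro _ ⟨_, ⟨γ, hγ, rfl⟩, rfl⟩
      show r (Finsupp.single (γ : H ⧸ S) 1) ∈ W
      rw [hsing, hr]
      exact hact γ hγ b (hmem b (Finset.subset_union_left.trans Finset.subset_union_left))
    exact this hg
  have hsurj : W ≤ W.map r := by
    conv_lhs => rw [hWs]
    refine Submodule.span_le.2 ?_
    rintro _ ⟨_, ⟨γ, hγ, rfl⟩, rfl⟩
    refine ⟨Finsupp.mapDomain (γ • ·) b', hact γ hγ b'
      (hmem b' (Finset.subset_union_right.trans Finset.subset_union_left)), ?_⟩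
    show r _ = Finsupp.single (γ : H ⧸ S) 1
    rw [hr, hb', ← hsing]
  exact (LinearMap.injOn_iff_surjOn (p := W) (f := r) hrW).2 hsurj
    (hmem f Finset.subset_union_right) W.zero_mem (hf.trans (map_zero r).symm)

end NF2_gen

section NF2_quot

variable {G : Type*} [Group G] {U S : Subgroup G}

/-- The class modulo a subgroup `N` containing `S`. -/
noncomputable def NF2_cl (N : Subgroup G) (x : U ⧸ S.subgroupOf U) : G ⧸ N :=
  ((x.out : U) : G)

theorem NF2_cl_mk {N : Subgroup G} (h : S ≤ N) (w : U) :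
    NF2_cl N (w : U ⧸ S.subgroupOf U) = ((w : G) : G ⧸ N) := by
  obtain ⟨s, hs⟩ := QuotientGroup.mk_out_eq_mul (S.subgroupOf U) w
  rw [NF2_cl, hs, eq_comm, QuotientGroup.eq, Subgroup.coe_mul, inv_mul_cancel_left]
  exact h s.2

theorem NF2_cl_inj : Function.Injective (NF2_cl (U := U) (S := S) S) := by
  intro x y h
  rw [← QuotientGroup.out_eq' x, ← QuotientGroup.out_eq' y, QuotientGroup.eq]
  rw [NF2_cl, NF2_cl, QuotientGroup.eq] at h
  exact h

end NF2_quot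

namespace Datum

variable {F : Type} [Field F] {G : Type*} [Group G] (D : Datum F G) [IsAlgClosed F] [IsFbar F]
variable {k : Type*} [Field k] {V : Type*} [AddCommGroup V] [Module k V]

omit [IsAlgClosed F] [IsFbar F] in
theorem NF2_mem (ρ : Representation k G V) (ξ : V) {u : G} (hu : u ∈ D.U) : ρ u ξ ∈ D.cyc ρ ξ :=
  Submodule.subset_span ⟨⟨u, hu⟩, rfl⟩

omit [IsAlgClosed F] [IsFbar F] in
theorem NF2_self (ρ : Representation k G V) (ξ : V) : ξ ∈ D.cyc ρ ξ := by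
  simpa using D.NF2_mem ρ ξ D.U.one_mem

omit [IsAlgClosed F] [IsFbar F] in
theorem NF2_eig (ρ : Representation k G V) {ξ : V} {θ : D.T →* kˣ} (hξ : ξ ∈ D.eigen ρ θ) {t : G}
    (ht : t ∈ D.T) : ρ t ξ = (θ ⟨t, ht⟩ : k) • ξ :=
  Module.End.mem_eigenspace_iff.1 ((Submodule.mem_iInf _).1 hξ ⟨t, ht⟩)

omit [IsAlgClosed F] [IsFbar F] in
theorem NF2_conj (ρ : Representation k G V) (t u : G) (v : V) :
    ρ t (ρ u v) = ρ (t * u * t⁻¹) (ρ t v) := by
  rw [← Module.End.mul_apply, ← Module.End.mul_apply, ← map_mul, ← map_mul, inv_mul_cancel_right]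

omit [IsAlgClosed F] [IsFbar F] in
theorem NF2_torus (ρ : Representation k G V) {ξ : V} {θ : D.T →* kˣ} (hξ : ξ ∈ D.eigen ρ θ) {t : G}
    (ht : t ∈ D.T) : ∀ v ∈ D.cyc ρ ξ, ρ t v ∈ D.cyc ρ ξ := by
  have : D.cyc ρ ξ ≤ (D.cyc ρ ξ).comap (ρ t) := by
    refine Submodule.span_le.2 ?_
    rintro _ ⟨u, rfl⟩
    show ρ t (ρ u ξ) ∈ D.cyc ρ ξ
    rw [NF2_conj, D.NF2_eig ρ hξ ht, map_smul]
    exact Submodule.smul_mem _ _ (D.NF2_mem ρ ξ (D.conj_mem_U ht u.2))
  exact fun v hv => this hv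

omit [IsFbar F] in
theorem NF2_norm {m : G} (hm : m ∈ D.N) {t g : G} (ht : t ∈ D.T)
    (hg : g ∈ D.U ⊓ Subgroup.normalizer (D.U' m : Set G)) :
    t * g * t⁻¹ ∈ D.U ⊓ Subgroup.normalizer (D.U' m : Set G) := by
  have h1 : t ∈ Subgroup.normalizer (D.U' m : Set G) := by
    refine Subgroup.mem_normalizer_iff.2 fun h => ⟨D.conj_mem_U' hm ht, fun hh => ?_⟩
    simpa [mul_assoc] using D.conj_mem_U' hm (D.T.inv_mem ht) hh
  exact ⟨D.conj_mem_U ht hg.1, Subgroup.mul_mem _ (Subgroup.mul_mem _ h1 hg.2)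
    (Subgroup.inv_mem _ h1)⟩

/-- The support of a fixed vector lies in the normaliser. -/
theorem NF2_supp {m : G} (hm : m ∈ D.N) {a : (D.U ⧸ (D.U' m).subgroupOf D.U) →₀ k}
    (ha : ∀ v : D.U, (v : G) ∈ D.U' m → Finsupp.mapDomain (v • ·) a = a) {w : D.U}
    (hw : a w ≠ 0) : (w : G) ∈ D.U ⊓ Subgroup.normalizer (D.U' m : Set G) := by
  refine ⟨w.2, D.mem_normalizer_of_finite hm w.2 ?_⟩
  refine ((Finset.finite_toSet a.support).image (NF2_cl (D.U' m))).subset ?_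
  rintro _ ⟨v, hv, rfl⟩
  refine ⟨((⟨v, D.U'_le_U m hv⟩ * w : D.U) : D.U ⧸ (D.U' m).subgroupOf D.U), ?_,
    NF2_cl_mk le_rfl _⟩
  have h1 := NF2_act_apply _ (⟨v, D.U'_le_U m hv⟩ : D.U) a w
  rw [ha _ hv] at h1
  exact Finsupp.mem_support_iff.2 fun h => hw (h1.symm.trans h)

/-- Let `U' = U' m`, `Nu = U ⊓ normalizer U'`. `T` preserves `cyc ρ ξ`; let `τ t = e t e⁻¹`, so
`τ t (u • f) = (t u t⁻¹) • τ t f`. The vector `a t = τ t (single 1 1)` is `U'`-fixed, so its support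
lies in `Nu / U'` (`mem_normalizer_of_finite`), and `τ t` maps functions supported over the class
`u Nu` to functions supported over `(t u t⁻¹) Nu`, injectively. As `b = e ξ` is an eigenvector of
all `τ t`, the finite set of classes met by its support is `T`-stable, so it only contains the
trivial class (`mem_of_finite_orbit` for `Nu`). Hence `U'` fixes `b`. -/
theorem fix_of_equiv (ρ : Representation k G V) {m : G} (hm : m ∈ D.N) {ξ : V} {θ : D.T →* kˣ}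
    (hξ : ξ ∈ D.eigen ρ θ) (e : D.cyc ρ ξ ≃ₗ[k] ((D.U ⧸ (D.U' m).subgroupOf D.U) →₀ k))
    (he : ∀ u v, e (D.cycRep ρ ξ u v) = Finsupp.mapDomain (u • ·) (e v)) {u : G}
    (hu : u ∈ D.U' m) : ρ u ξ = ξ := by
  set Nu := D.U ⊓ Subgroup.normalizer (D.U' m : Set G) with hNu
  have hle : D.U' m ≤ Nu := le_inf (D.U'_le_U m) Subgroup.le_normalizer
  set b := e ⟨ξ, D.NF2_self ρ ξ⟩ with hb
  have key : ∀ t ∈ D.T, ∀ x ∈ b.support, ∃ z ∈ b.support,
      NF2_cl Nu z = ((t * (x.out : D.U) * t⁻¹ : G) : G ⧸ Nu) := by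
    intro t ht x hx
    set τ := e.toLinearMap ∘ₗ (ρ t).restrict (D.NF2_torus ρ hξ ht) ∘ₗ e.symm.toLinearMap with hτ
    have hτe : ∀ v, τ (e v) = e ((ρ t).restrict (D.NF2_torus ρ hξ ht) v) := fun v => by
      simp [hτ]
    have h1 : ∀ (w : D.U) f, τ (Finsupp.mapDomain (w • ·) f) =
        Finsupp.mapDomain ((⟨t * w * t⁻¹, D.conj_mem_U ht w.2⟩ : D.U) • ·) (τ f) := by
      intro w f
      obtain ⟨v, rfl⟩ := e.surjective f
      rw [← he, hτe, hτe, ← he]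
      exact congrArg e (Subtype.ext (NF2_conj ρ t w v))
    have h2 : Function.Injective τ := by
      intro f g hfg
      obtain ⟨v, rfl⟩ := e.surjective f
      obtain ⟨v', rfl⟩ := e.surjective g
      rw [hτe, hτe] at hfg
      have h3 : ρ t v = ρ t v' := congrArg Subtype.val (e.injective hfg)
      have h4 := congrArg (ρ t⁻¹) h3
      rw [ρ.inv_self_apply, ρ.inv_self_apply] at h4
      exact congrArg e (Subtype.ext h4)
    set a := τ (Finsupp.single ((1 : D.U) : D.U ⧸ (D.U' m).subgroupOf D.U) 1) with ha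
    have h3 : ∀ v : D.U, (v : G) ∈ D.U' m → Finsupp.mapDomain (v • ·) a = a := by
      intro v hv
      have h4 : t⁻¹ * v * t⁻¹⁻¹ ∈ D.U' m := D.conj_mem_U' hm (D.T.inv_mem ht) hv
      have h5 := h1 ⟨_, D.U'_le_U m h4⟩
        (Finsupp.single ((1 : D.U) : D.U ⧸ (D.U' m).subgroupOf D.U) 1)
      have h6 : (((⟨_, D.U'_le_U m h4⟩ : D.U) * 1 : D.U) : D.U ⧸ (D.U' m).subgroupOf D.U) =
          ((1 : D.U) : D.U ⧸ (D.U' m).subgroupOf D.U) := by
        rw [eq_comm, QuotientGroup.eq, inv_one, one_mul, mul_one]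
        exact h4
      rw [NF2_act_single, h6, ← ha] at h5
      convert h5.symm using 4
      exact Subtype.ext (by simp [mul_assoc])
    refine NF2_class (NF2_cl Nu) (fun y => ((t * (y.out : D.U) * t⁻¹ : G) : G ⧸ Nu)) ?_ τ h2 ?_
      (c := θ ⟨t, ht⟩) ?_ hx
    · intro y y'
      rw [NF2_cl, NF2_cl, QuotientGroup.eq, QuotientGroup.eq]
      constructor
      · intro h
        simpa [hNu, mul_assoc] using D.NF2_norm hm (D.T.inv_mem ht) h
      · intro h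
        simpa [hNu, mul_assoc] using D.NF2_norm hm ht h
    · intro y z hz
      have h4 : Finsupp.single y (1 : k) = Finsupp.mapDomain (y.out • ·)
          (Finsupp.single ((1 : D.U) : D.U ⧸ (D.U' m).subgroupOf D.U) 1) := by
        rw [NF2_act_single, mul_one, QuotientGroup.out_eq']
      rw [h4, h1, ← ha] at hz
      set w : D.U := ⟨t * (y.out : D.U) * t⁻¹, D.conj_mem_U ht y.out.2⟩ with hw
      obtain ⟨z', rfl⟩ := MulAction.surjective w z
      obtain ⟨w', rfl⟩ := QuotientGroup.mk_surjective z'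
      rw [NF2_act_apply] at hz
      have h5 := D.NF2_supp hm h3 hz
      refine (NF2_cl_mk hle (w * w')).trans ?_
      rw [eq_comm, QuotientGroup.eq, Subgroup.coe_mul, hw, inv_mul_cancel_left]
      exact h5
    · rw [hb, hτe, ← map_smul]
      exact congrArg e (Subtype.ext (D.NF2_eig ρ hξ ht))
  have hN : ∀ x ∈ b.support, ((x.out : D.U) : G) ∈ Nu := by
    intro x hx
    refine D.mem_of_finite_orbit Nu inf_le_left (fun t ht g hg => D.NF2_norm hm ht hg) x.out.2 ?_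
    refine ((Finset.finite_toSet b.support).image (NF2_cl Nu)).subset ?_
    rintro _ ⟨t, ht, rfl⟩
    exact key t ht x hx
  have hfix : Finsupp.mapDomain ((⟨u, D.U'_le_U m hu⟩ : D.U) • ·) b = b := by
    refine (Finsupp.mapDomain_congr (g := id) fun x hx => ?_).trans Finsupp.mapDomain_id
    rw [id, ← QuotientGroup.out_eq' x]
    refine (QuotientGroup.eq.2 ?_).symm
    have h1 := (Subgroup.mem_normalizer_iff''.1 (hN x hx).2 u).1 hu
    rw [Subgroup.mem_subgroupOf]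
    simpa [mul_assoc] using h1
  rw [hb, ← he] at hfix
  exact congrArg Subtype.val (e.injective hfix)

/-- Let `r` be the linear map `single (u U') 1 ↦ u • b`, `b = e ξ` (well defined by
`fix_of_equiv`). It is onto. It is injective: given `f` with `r f = 0` and `b'` with
`r b' = single 1 1`, let `Γ ≤ U` be the finite group (`closure_finite`) generated by representatives
of the supports of `b`, `b'`, `f`; `r` maps the finite-dimensional span of the `single (γ U') 1`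
onto itself. Then `r⁻¹ ∘ e` followed by `mapDomain` along the injection `U / U' → G / U'` works. -/
theorem exists_coord (ρ : Representation k G V) {m : G} (hm : m ∈ D.N) {ξ : V} {θ : D.T →* kˣ}
    (hξ : ξ ∈ D.eigen ρ θ) (e : D.cyc ρ ξ ≃ₗ[k] ((D.U ⧸ (D.U' m).subgroupOf D.U) →₀ k))
    (he : ∀ u v, e (D.cycRep ρ ξ u v) = Finsupp.mapDomain (u • ·) (e v)) :
    ∃ f : D.cyc ρ ξ →ₗ[k] ((G ⧸ D.U' m) →₀ k), Function.Injective f ∧
      ∀ u ∈ D.U, ∀ h : ρ u ξ ∈ D.cyc ρ ξ, f ⟨ρ u ξ, h⟩ = Finsupp.single (u : G ⧸ D.U' m) 1 := by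
  set b := e ⟨ξ, D.NF2_self ρ ξ⟩ with hb
  have hbu : ∀ (u : D.U) (h : ρ u ξ ∈ D.cyc ρ ξ), e ⟨ρ u ξ, h⟩ = Finsupp.mapDomain (u • ·) b :=
    fun u h => he u ⟨ξ, D.NF2_self ρ ξ⟩
  set r : ((D.U ⧸ (D.U' m).subgroupOf D.U) →₀ k) →ₗ[k] ((D.U ⧸ (D.U' m).subgroupOf D.U) →₀ k) :=
    Finsupp.linearCombination k fun x => Finsupp.mapDomain (x.out • ·) b with hr
  have h1 : ∀ w : D.U, r (Finsupp.single (w : D.U ⧸ (D.U' m).subgroupOf D.U) 1) =
      Finsupp.mapDomain (w • ·) b := by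
    intro w
    obtain ⟨s, hs⟩ := QuotientGroup.mk_out_eq_mul ((D.U' m).subgroupOf D.U) w
    rw [hr, Finsupp.linearCombination_single, one_smul, hs, NF2_act_mul,
      ← hbu s (D.NF2_mem ρ ξ s.1.2)]
    congr 2
    exact Subtype.ext (D.fix_of_equiv ρ hm hξ e he s.2)
  have h2 : ∀ (u : D.U) f, r (Finsupp.mapDomain (u • ·) f) = Finsupp.mapDomain (u • ·) (r f) := by
    intro u f
    induction f using Finsupp.induction_linear with
    | zero => simp
    | add f g hf hg => rw [Finsupp.mapDomain_add, map_add, map_add, Finsupp.mapDomain_add, hf, hg]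
    | single x c =>
      obtain ⟨w, rfl⟩ := QuotientGroup.mk_surjective x
      rw [NF2_act_single, ← Finsupp.smul_single_one,
        ← Finsupp.smul_single_one (QuotientGroup.mk w) c,
        map_smul, map_smul, h1, h1, Finsupp.mapDomain_smul, NF2_act_mul]
  have h3 : Function.Surjective r := by
    intro f
    obtain ⟨⟨v, hv⟩, rfl⟩ := e.surjective f
    show e ⟨v, hv⟩ ∈ LinearMap.range r
    induction hv using Submodule.span_induction with
    | mem x hx =>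
      obtain ⟨u, rfl⟩ := hx
      exact ⟨_, (h1 u).trans (hbu u _).symm⟩
    | zero => exact (map_zero e).symm ▸ zero_mem _
    | add x y hx hy ihx ihy => exact (map_add e ⟨x, hx⟩ ⟨y, hy⟩).symm ▸ add_mem ihx ihy
    | smul c x hx ih => exact (map_smul e c ⟨x, hx⟩).symm ▸ Submodule.smul_mem _ c ih
  have h4 : Function.Injective r := by
    refine NF2_inj _ (fun A hA => ?_) r h2 h3
    have h5 := (closure_finite D.rho D.rho_inj (hA.image Subtype.val)).preimage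
      (f := (Subtype.val : D.U → G)) Subtype.val_injective.injOn
    exact ⟨(Subgroup.closure (Subtype.val '' A)).subgroupOf D.U, h5,
      fun x hx => Subgroup.mem_subgroupOf.2 (Subgroup.subset_closure ⟨x, hx, rfl⟩)⟩
  set R := LinearEquiv.ofBijective r ⟨h4, h3⟩ with hR
  refine ⟨Finsupp.lmapDomain k k (NF2_cl (D.U' m)) ∘ₗ R.symm.toLinearMap ∘ₗ e.toLinearMap,
    (Finsupp.mapDomain_injective NF2_cl_inj).comp (R.symm.injective.comp e.injective),
    fun u hu h => ?_⟩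
  have h5 : R.symm (e ⟨ρ u ξ, h⟩) =
      Finsupp.single ((⟨u, hu⟩ : D.U) : D.U ⧸ (D.U' m).subgroupOf D.U) 1 := by
    rw [LinearEquiv.symm_apply_eq]
    exact (hbu ⟨u, hu⟩ h).trans (h1 ⟨u, hu⟩).symm
  show Finsupp.mapDomain (NF2_cl (D.U' m)) (R.symm (e ⟨ρ u ξ, h⟩)) = _
  rw [h5, Finsupp.mapDomain_single, NF2_cl_mk le_rfl]

end Datum

end Pool.Agent.Work.MP_bb5f23_al
end

-- merged part: Pool.Agent.Work.MP_bb5f23_al.NF3
section
/-! The normal form of an object of `X(G)`. -/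

namespace Pool.Agent.Work.MP_bb5f23_al

namespace Datum

variable {F : Type} [Field F] {G : Type*} [Group G] (D : Datum F G) [IsAlgClosed F] [IsFbar F]
variable {k : Type*} [Field k] {V : Type*} [AddCommGroup V] [Module k V]

/-- Assemble the coordinates through `DirectSum.IsInternal`; `N` permutes the weight spaces. -/
theorem exists_NF {ρ : Representation k G V} (h : D.InX ρ) : Nonempty (D.NF ρ) := by
  obtain ⟨m, ξ, w, hθ, -, hsp, hint, hw⟩ := h
  choose θ hθ using hθ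
  have hf : ∀ i, ∃ f : D.cyc ρ (ξ i) →ₗ[k] ((G ⧸ D.U' (w i)) →₀ k), Function.Injective f ∧
      ∀ u ∈ D.U, ∀ h : ρ u (ξ i) ∈ D.cyc ρ (ξ i),
        f ⟨ρ u (ξ i), h⟩ = Finsupp.single (u : G ⧸ D.U' (w i)) 1 := fun i => by
    obtain ⟨φ⟩ := (hw i).2
    obtain ⟨e, he⟩ := exists_ind_equiv (k := k) ((D.U' (w i)).subgroupOf D.U)
    refine D.exists_coord ρ (hw i).1 (hθ i) (φ.toLinearEquiv.trans e) fun u v => ?_
    rw [LinearEquiv.trans_apply, LinearEquiv.trans_apply, ← he]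
    exact congrArg e (φ.toIntertwiningMap.isIntertwining _ _ u v)
  choose f hf1 hf2 using hf
  have heig : ∀ i (t : D.T), ρ t (ξ i) = (θ i t : k) • ξ i := fun i t =>
    Module.End.mem_eigenspace_iff.1 ((Submodule.mem_iInf _).1 (hθ i) t)
  let E := LinearEquiv.ofBijective (DirectSum.coeLinearMap fun i => D.cyc ρ (ξ i)) hint
  refine ⟨{
    m := m
    ξ := ξ
    w := w
    θ := θ
    w_mem := fun i => (hw i).1
    eig := heig
    span_top := ?_
    co := (sigmaFinsuppLequivDFinsupp k).symm.toLinearMap ∘ₗ DFinsupp.mapRange.linearMap f ∘ₗ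
      E.symm.toLinearMap
    co_inj := (sigmaFinsuppLequivDFinsupp k).symm.injective.comp
      (((DFinsupp.mapRange_injective (fun i => f i) fun i => map_zero _).2 hf1).comp
        E.symm.injective)
    co_apply := fun i u hu => ?_
    stable := fun n hn i => ?_ }⟩
  · rw [eq_top_iff, ← hint.submodule_iSup_eq_top]
    refine iSup_le fun i => Submodule.span_mono ?_
    rintro _ ⟨u, rfl⟩
    exact ⟨i, u, u.2, rfl⟩
  · have hc : ρ u (ξ i) ∈ D.cyc ρ (ξ i) := Submodule.subset_span ⟨⟨u, hu⟩, rfl⟩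
    have h1 : E.symm (ρ u (ξ i)) = DFinsupp.single i ⟨ρ u (ξ i), hc⟩ := by
      rw [LinearEquiv.symm_apply_eq]
      exact (DirectSum.coeLinearMap_of (fun i => D.cyc ρ (ξ i)) i ⟨ρ u (ξ i), hc⟩).symm
    change (sigmaFinsuppLequivDFinsupp k).symm
      (DFinsupp.mapRange.linearMap f (E.symm (ρ u (ξ i)))) = _
    rw [h1, LinearEquiv.symm_apply_eq]
    refine Eq.trans ?_ (sigmaFinsuppEquivDFinsupp_single _ _).symm
    refine (DFinsupp.mapRange_single (f := fun i => f i) (hf := fun i => map_zero _)).trans ?_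
    rw [hf2 i u hu]
  · let θ' : D.T →* kˣ :=
      { toFun := fun t => θ i ⟨n⁻¹ * t * n⁻¹⁻¹, D.conj_mem_T (inv_mem hn) t.2⟩
        map_one' := by
          rw [← map_one (θ i)]
          congr 1
          ext
          simp
        map_mul' := fun t t' => by
          rw [← map_mul]
          congr 1
          ext
          simp [mul_assoc] }
    rw [hsp]
    refine (le_iSup (D.eigen ρ) θ') ((Submodule.mem_iInf _).2 fun t =>
      Module.End.mem_eigenspace_iff.2 ?_)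
    have := congrArg (ρ n) (heig i ⟨n⁻¹ * t * n⁻¹⁻¹, D.conj_mem_T (inv_mem hn) t.2⟩)
    rw [map_smul] at this
    refine Eq.trans ?_ this
    rw [← Module.End.mul_apply, ← Module.End.mul_apply, ← map_mul, ← map_mul]
    congr 2
    simp [mul_assoc]

end Datum

end Pool.Agent.Work.MP_bb5f23_al
end
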