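import Pool.Agent.Work.MP_bb5f23_al.NF3

-- merged part: Pool.Agent.Work.MP_bb5f23_al.Char
section
/-! Extension of a character of `T` to a standard parabolic subgroup. -/

namespace Pool.Agent.Work.MP_bb5f23_al

namespace Datum

variable {F : Type} [Field F] {G : Type*} [Group G] (D : Datum F G) [IsAlgClosed F]
variable {A : Type*} [CommGroup A] {θ : D.T →* A} {J : Finset (Fin D.r → ℤ)}

theorem Ith_sub : D.Ith θ ⊆ D.Delta := fun _ h => (D.mem_Ith.1 h).1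

open Classical in
/-- The character as a function on the whole group. -/
noncomputable def Char_th (θ : D.T →* A) (g : G) : A := if h : g ∈ D.T then θ ⟨g, h⟩ else 1

omit [IsAlgClosed F] in
theorem Char_th_eq {g : G} (h : g ∈ D.T) : θ ⟨g, h⟩ = D.Char_th θ g := by
  rw [Char_th, dif_pos h]

omit [IsAlgClosed F] in
theorem Char_th_mul {g g' : G} (h : g ∈ D.T) (h' : g' ∈ D.T) :
    D.Char_th θ (g * g') = D.Char_th θ g * D.Char_th θ g' := by
  rw [← D.Char_th_eq h, ← D.Char_th_eq h', ← D.Char_th_eq (D.T.mul_mem h h'), ← map_mul]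
  rfl

omit [IsAlgClosed F] in
theorem Char_th_one : D.Char_th θ 1 = 1 := by
  rw [← D.Char_th_eq D.T.one_mem]
  exact map_one θ

omit [IsAlgClosed F] in
theorem Char_th_h (hJ : J ⊆ D.Ith θ) {j : Fin D.r → ℤ} (hj : j ∈ J) (a : Fˣ) :
    D.Char_th θ (D.h j a) = 1 := by
  rw [← D.Char_th_eq (D.h_mem j a)]
  exact (D.mem_Ith.1 (hJ hj)).2 a

omit [IsAlgClosed F] in
theorem Char_conj_inv {m t : G} (hm : m ∈ D.N) (ht : t ∈ D.T) : m⁻¹ * t * m ∈ D.T := by
  simpa using D.conj_mem_T (D.N.inv_mem hm) ht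

theorem Char_th_conj (hJ : J ⊆ D.Ith θ) {v : G} (hv : v ∈ D.NJ J) :
    ∀ t ∈ D.T, D.Char_th θ (v⁻¹ * t * v) = D.Char_th θ t := by
  have hJD : J ⊆ D.Delta := hJ.trans D.Ith_sub
  refine D.NJ_induction hJD (p := fun v => ∀ t ∈ D.T, D.Char_th θ (v⁻¹ * t * v) = D.Char_th θ t)
    ?_ ?_ ?_ hv
  · intro t _
    simp
  · intro m _ t0 ht0 ih t ht
    have e : (t0 * m)⁻¹ * t * (t0 * m) = m⁻¹ * t * m := by
      have := D.T_comm ht ht0
      calc (t0 * m)⁻¹ * t * (t0 * m) = m⁻¹ * (t0⁻¹ * (t * t0)) * m := by group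
        _ = m⁻¹ * t * m := by rw [this]; group
    rw [e, ih t ht]
  · intro j hj m _ ih t ht
    have h1 := D.Char_conj_inv (D.s_mem_N (hJD hj)) ht
    have e : (D.s j * m)⁻¹ * t * (D.s j * m) = m⁻¹ * ((D.s j)⁻¹ * t * D.s j) * m := by group
    rw [e, ih _ h1]
    obtain ⟨z, hz⟩ := h1
    have h2 := D.s_tau (hJD hj) z
    have h3 : t = D.tau z * D.h j (mon j z)⁻¹ := by
      rw [← h2, hz]; group
    rw [← hz]
    conv_rhs => rw [h3, D.Char_th_mul (D.tau_mem z) (D.h_mem j _), D.Char_th_h hJ hj, mul_one]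

/-- `θ` is invariant under `N_J` (`s_tau`, `NJ_induction`). -/
theorem theta_conj (hJ : J ⊆ D.Ith θ) {v : G} (hv : v ∈ D.NJ J) {t : G} (ht : t ∈ D.T)
    (ht' : v⁻¹ * t * v ∈ D.T) : θ ⟨_, ht'⟩ = θ ⟨t, ht⟩ := by
  rw [D.Char_th_eq, D.Char_th_eq, D.Char_th_conj hJ hv t ht]

/-- The kernel of `θ` inside `G`. -/
def Char_K (θ : D.T →* A) (g : G) : Prop := g ∈ D.T ∧ D.Char_th θ g = 1

omit [IsAlgClosed F] in
theorem Char_K_mul {g g' : G} (h : D.Char_K θ g) (h' : D.Char_K θ g') : D.Char_K θ (g * g') :=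
  ⟨D.T.mul_mem h.1 h'.1, by rw [D.Char_th_mul h.1 h'.1, h.2, h'.2, mul_one]⟩

omit [IsAlgClosed F] in
theorem Char_K_h (hJ : J ⊆ D.Ith θ) {j : Fin D.r → ℤ} (hj : j ∈ J) (a : Fˣ) :
    D.Char_K θ (D.h j a) := ⟨D.h_mem j a, D.Char_th_h hJ hj a⟩

theorem Char_K_conj (hJ : J ⊆ D.Ith θ) {v g : G} (hv : v ∈ D.NJ J) (h : D.Char_K θ g) :
    D.Char_K θ (v * g * v⁻¹) := by
  refine ⟨D.conj_mem_T (D.NJ_le_N (hJ.trans D.Ith_sub) hv) h.1, ?_⟩
  have := D.Char_th_conj hJ ((D.NJ J).inv_mem hv) g h.1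
  rw [inv_inv] at this
  rw [this, h.2]

omit [IsAlgClosed F] in
theorem Char_word_mem {l : List (Fin D.r → ℤ)} (hl : ∀ x ∈ l, x ∈ J) :
    (l.map D.s).prod ∈ D.NJ J := by
  refine Subgroup.list_prod_mem _ fun g hg => ?_
  obtain ⟨x, hx, rfl⟩ := List.mem_map.1 hg
  exact D.s_mem_NJ (hl x hx)

theorem Char_exchange (hJ : J ⊆ D.Ith θ) {α : Fin D.r → ℤ} (hα : α ∈ J)
    (l : List (Fin D.r → ℤ)) (hl : ∀ x ∈ l, x ∈ J) (h : D.act (l.map D.s).prod α ∉ D.pos) :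
    ∃ l' : List (Fin D.r → ℤ), (∀ x ∈ l', x ∈ J) ∧ l'.length + 1 = l.length ∧
      ∃ κ, D.Char_K θ κ ∧ (l.map D.s).prod * D.s α = κ * (l'.map D.s).prod := by
  have hJD : J ⊆ D.Delta := hJ.trans D.Ith_sub
  induction l with
  | nil =>
    exfalso
    apply h
    rw [List.map_nil, List.prod_nil, D.act_T D.T.one_mem]
    exact D.delta_pos (hJD hα)
  | cons β l ih =>
    have hβ : β ∈ J := hl β List.mem_cons_self
    have hl2 : ∀ x ∈ l, x ∈ J := fun x hx => hl x (List.mem_cons_of_mem _ hx)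
    have hn := D.NJ_le_N hJD (D.Char_word_mem hl2)
    rw [List.map_cons, List.prod_cons] at h ⊢
    by_cases h2 : D.act (l.map D.s).prod α ∈ D.pos
    · rw [D.act_mul (D.s_mem_N (hJD hβ)) hn] at h
      have h3 : D.act (l.map D.s).prod α = β := by
        by_contra hne
        exact h (D.act_s_pos (hJD hβ) h2 hne).1
      obtain ⟨c, -, h4, -⟩ := D.transport hn (hJD hα) (hJD hβ) h3
      refine ⟨l, hl2, rfl, D.h β c⁻¹ * D.h β (-1),
        D.Char_K_mul (D.Char_K_h hJ hβ _) (D.Char_K_h hJ hβ _), ?_⟩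
      rw [← D.s_h (hJD hβ), ← D.s_mul_s (hJD hβ)]
      calc D.s β * (l.map D.s).prod * D.s α
          = D.s β * ((l.map D.s).prod * D.s α * (l.map D.s).prod⁻¹) * (l.map D.s).prod := by group
        _ = _ := by rw [h4]; group
    · obtain ⟨l', h3, h4, κ, h5, h6⟩ := ih hl2 h2
      refine ⟨β :: l', fun x hx => ?_, by simp [h4], D.s β * κ * (D.s β)⁻¹,
        D.Char_K_conj hJ (D.s_mem_NJ hβ) h5, ?_⟩
      · rcases List.mem_cons.1 hx with rfl | hx
        exacts [hβ, h3 x hx]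
      · rw [List.map_cons, List.prod_cons, mul_assoc, h6]
        group

/-- Reduced words up to the kernel of `θ`. -/
def Char_Red (θ : D.T →* A) (J : Finset (Fin D.r → ℤ)) (v : G) : Prop :=
  ∃ l : List (Fin D.r → ℤ), (∀ x ∈ l, x ∈ J) ∧ D.len (l.map D.s).prod = l.length ∧
    ∃ κ, D.Char_K θ κ ∧ v = κ * (l.map D.s).prod

theorem Char_Red_s (hJ : J ⊆ D.Ith θ) {v : G} (h : D.Char_Red θ J v) {α : Fin D.r → ℤ}
    (hα : α ∈ J) : D.Char_Red θ J (v * D.s α) := by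
  have hJD : J ⊆ D.Delta := hJ.trans D.Ith_sub
  obtain ⟨l, h1, h2, κ, h3, rfl⟩ := h
  have hn := D.NJ_le_N hJD (D.Char_word_mem h1)
  by_cases h4 : D.act (l.map D.s).prod α ∈ D.pos
  · refine ⟨l ++ [α], fun x hx => ?_, ?_, κ, h3, by simp [mul_assoc]⟩
    · rcases List.mem_append.1 hx with hx | hx
      · exact h1 x hx
      · rw [List.mem_singleton.1 hx]; exact hα
    · have := D.len_mul_s_of_pos hn (hJD hα) h4
      rw [h2] at this
      simpa using this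
  · obtain ⟨l', h5, h6, κ', h7, h8⟩ := D.Char_exchange hJ hα l h1 h4
    refine ⟨l', h5, ?_, κ * κ', D.Char_K_mul h3 h7, by rw [mul_assoc, h8, mul_assoc]⟩
    have := D.len_mul_s_of_neg hn (hJD hα) h4
    rw [h8, D.len_T_mul (D.NJ_le_N hJD (D.Char_word_mem h5)) h7.1] at this
    omega

theorem Char_Red_K (hJ : J ⊆ D.Ith θ) {v g : G} (h : D.Char_Red θ J v) (hg : D.Char_K θ g) :
    D.Char_Red θ J (v * g) := by
  obtain ⟨l, h1, h2, κ, h3, rfl⟩ := h
  exact ⟨l, h1, h2, _, D.Char_K_mul h3 (D.Char_K_conj hJ (D.Char_word_mem h1) hg), by group⟩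

omit [IsAlgClosed F] in
theorem Char_s_inv {α : Fin D.r → ℤ} (hα : α ∈ D.Delta) :
    (D.s α)⁻¹ = D.s α * D.h α (-1)⁻¹ ∧ (D.s α)⁻¹ = D.h α (-1)⁻¹ * D.s α := by
  rw [D.h_inv, ← D.s_mul_s hα]
  constructor <;> group

theorem Char_Red_of_mem (hJ : J ⊆ D.Ith θ) {v : G} (hv : v ∈ D.NJ J) : D.Char_Red θ J v := by
  have hJD : J ⊆ D.Delta := hJ.trans D.Ith_sub
  induction hv using Subgroup.closure_induction_right with
  | one =>
    exact ⟨[], by simp, by simpa using (D.len_eq_zero_iff D.N.one_mem).2 D.T.one_mem, 1,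
      ⟨D.T.one_mem, D.Char_th_one⟩, by simp⟩
  | mul_right x _ y hy ih =>
    obtain ⟨j, hj, rfl⟩ := hy
    exact D.Char_Red_s hJ ih hj
  | mul_inv_cancel x _ y hy ih =>
    obtain ⟨j, hj, rfl⟩ := hy
    rw [(D.Char_s_inv (hJD hj)).1, ← mul_assoc]
    exact D.Char_Red_K hJ (D.Char_Red_s hJ ih hj) (D.Char_K_h hJ hj _)

/-- Let `K = ker θ ≤ T`, normalised by `N_J` (`theta_conj`) and containing all `h j a`, `j ∈ J`.
Every `v ∈ N_J` is `κ * (l.map s).prod` with `κ ∈ K` and `l` a list in `J`. Show by induction on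
the length of `l` that a word lying in `T` lies in `K`. Exchange lemma (induction on `l`): if
`n = (l.map s).prod` makes `α ∈ J` negative then `l = l₁ ++ β :: l₂` with
`act (l₂.map s).prod α = β` (`act_s_pos`); by `transport`,
`s β * n₂ * s α = s β * h β c * s β * n₂ = h β c' * n₂`, so `n * s α ∈ K * (word l₁ ++ l₂)`.
A nonempty word in `T` has length function `0`, so some initial segment `l' ++ [α]` has
`act (word l') α` negative (otherwise `len` equals the length of the list); delete two letters. -/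
theorem theta_NJ (hJ : J ⊆ D.Ith θ) {v : G} (hv : v ∈ D.NJ J) (ht : v ∈ D.T) :
    θ ⟨v, ht⟩ = 1 := by
  obtain ⟨l, h1, h2, κ, h3, h4⟩ := D.Char_Red_of_mem hJ hv
  have hn := D.NJ_le_N (hJ.trans D.Ith_sub) (D.Char_word_mem h1)
  have h5 : (l.map D.s).prod ∈ D.T := by
    have : (l.map D.s).prod = κ⁻¹ * v := by rw [h4]; group
    rw [this]
    exact D.T.mul_mem (D.T.inv_mem h3.1) ht
  rw [(D.len_eq_zero_iff hn).2 h5] at h2
  rw [List.length_eq_zero_iff.1 h2.symm, List.map_nil, List.prod_nil, mul_one] at h4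
  rw [D.Char_th_eq, h4, h3.2]

/-- The graph of the extension. -/
def Char_Rel (θ : D.T →* A) (J : Finset (Fin D.r → ℤ)) (g : G) (a : A) : Prop :=
  ∃ u ∈ D.U, ∃ v ∈ D.NJ J, ∃ t ∈ D.T, ∃ u' ∈ D.U, g = u * v * t * u' ∧ a = D.Char_th θ t

theorem Char_cell_unique {n n' u u' : G} (hn : n ∈ D.N) (hn' : n' ∈ D.N) (hu : u ∈ D.U)
    (hu' : u' ∈ D.U) (h : u * n * u' = n') : n = n' := by
  have h1 := D.bruhat_unique hn hn' (D.U_le_B hu) (D.U_le_B hu') h
  have h2 : n⁻¹ * u * n⁻¹⁻¹ = n⁻¹ * n' * u'⁻¹ := by rw [← h]; group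
  have h3 : u ∈ D.U' n⁻¹ := (D.mem_U'_iff (D.N.inv_mem hn)).2 ⟨hu, by
    rw [h2]
    exact D.B.mul_mem (D.T_le_B h1) (D.U_le_B (D.U.inv_mem hu'))⟩
  have h4 := D.U.mul_mem (D.conj_mem_of_U' (D.N.inv_mem hn) h3) hu'
  rw [h2, inv_mul_cancel_right] at h4
  exact inv_mul_eq_one.1 (D.eq_one_of_mem_T_U h1 h4)

theorem Char_Rel_unique (hJ : J ⊆ D.Ith θ) {g : G} {a b : A} (ha : D.Char_Rel θ J g a)
    (hb : D.Char_Rel θ J g b) : a = b := by
  have hJD : J ⊆ D.Delta := hJ.trans D.Ith_sub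
  obtain ⟨u, hu, v, hv, t, ht, u', hu', h1, rfl⟩ := ha
  obtain ⟨w, hw, y, hy, q, hq, w', hw', h2, rfl⟩ := hb
  have h3 : v * t = y * q := D.Char_cell_unique
    (D.N.mul_mem (D.NJ_le_N hJD hv) (D.T_le_N ht)) (D.N.mul_mem (D.NJ_le_N hJD hy) (D.T_le_N hq))
    (D.U.mul_mem (D.U.inv_mem hw) hu) (D.U.mul_mem hu' (D.U.inv_mem hw')) (by
      calc w⁻¹ * u * (v * t) * (u' * w'⁻¹) = w⁻¹ * (u * v * t * u') * w'⁻¹ := by group
        _ = y * q := by rw [← h1, h2]; group)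
  have h4 : y⁻¹ * v = q * t⁻¹ := by
    calc y⁻¹ * v = y⁻¹ * (v * t) * t⁻¹ := by group
      _ = q * t⁻¹ := by rw [h3]; group
  have h5 : y⁻¹ * v ∈ D.T := by rw [h4]; exact D.T.mul_mem hq (D.T.inv_mem ht)
  have h6 := D.theta_NJ hJ ((D.NJ J).mul_mem ((D.NJ J).inv_mem hy) hv) h5
  rw [D.Char_th_eq] at h6
  have h7 : q = y⁻¹ * v * t := by rw [h4]; group
  rw [h7, D.Char_th_mul h5 ht, h6, one_mul]

/-- Left multiplication by `g` multiplies the values by `a`. -/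
def Char_Mul (θ : D.T →* A) (J : Finset (Fin D.r → ℤ)) (g : G) (a : A) : Prop :=
  ∀ p b, D.Char_Rel θ J p b → D.Char_Rel θ J (g * p) (a * b)

omit [IsAlgClosed F] in
theorem Char_Mul_mul {g g' : G} {a a' : A} (h : D.Char_Mul θ J g a) (h' : D.Char_Mul θ J g' a') :
    D.Char_Mul θ J (g * g') (a * a') := fun p b hp => by
  rw [mul_assoc, mul_assoc]
  exact h _ _ (h' p b hp)

omit [IsAlgClosed F] in
theorem Char_Mul_U {g : G} (hg : g ∈ D.U) : D.Char_Mul θ J g 1 := by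
  rintro p b ⟨u, hu, v, hv, t, ht, u', hu', rfl, rfl⟩
  exact ⟨g * u, D.U.mul_mem hg hu, v, hv, t, ht, u', hu', by group, one_mul _⟩

theorem Char_Mul_T (hJ : J ⊆ D.Ith θ) {g : G} (hg : g ∈ D.T) :
    D.Char_Mul θ J g (D.Char_th θ g) := by
  rintro p b ⟨u, hu, v, hv, t, ht, u', hu', rfl, rfl⟩
  have h1 := D.Char_conj_inv (D.NJ_le_N (hJ.trans D.Ith_sub) hv) hg
  refine ⟨g * u * g⁻¹, D.conj_mem_U hg hu, v, hv, v⁻¹ * g * v * t, D.T.mul_mem h1 ht, u', hu',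
    by group, ?_⟩
  rw [D.Char_th_mul h1 ht, D.Char_th_conj hJ hv g hg]

theorem Char_Mul_s (hJ : J ⊆ D.Ith θ) {j : Fin D.r → ℤ} (hj : j ∈ J) :
    D.Char_Mul θ J (D.s j) 1 := by
  have hJD : J ⊆ D.Delta := hJ.trans D.Ith_sub
  rintro p b ⟨u, hu, v, hv, t, ht, u', hu', rfl, rfl⟩
  have hvN := D.NJ_le_N hJD hv
  have hsv := (D.NJ J).mul_mem (D.s_mem_NJ hj) hv
  have hc : ∀ w ∈ D.U, t⁻¹ * w * t⁻¹⁻¹ * u' ∈ D.U := fun w hw =>
    D.U.mul_mem (D.conj_mem_U (D.T.inv_mem ht) hw) hu'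
  have e : D.s j * (u * v * t * u') = D.s j * u * v * t * u' := by group
  rw [e, one_mul]
  by_cases h : D.act v⁻¹ j ∈ D.pos
  · obtain ⟨u₁, h1, u₂, h2, h3⟩ := D.s_mul_of_pos (hJD hj) hvN hu h
    exact ⟨u₁, h1, _, hsv, t, ht, _, hc u₂ h2, by rw [h3]; group, rfl⟩
  · rcases D.s_mul_of_neg (hJD hj) hvN hu h with ⟨u₁, h1, h3⟩ | ⟨u₁, h1, u₂, h2, a, h3⟩
    · exact ⟨u₁, h1, _, hsv, t, ht, u', hu', by rw [h3], rfl⟩
    · have h4 := D.Char_conj_inv hvN (D.h_mem j a)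
      refine ⟨u₁, h1, v, hv, v⁻¹ * D.h j a * v * t, D.T.mul_mem h4 ht, _, hc u₂ h2,
        by rw [h3]; group, ?_⟩
      rw [D.Char_th_mul h4 ht, D.Char_th_conj hJ hv _ (D.h_mem j a), D.Char_th_h hJ hj, one_mul]

theorem Char_Mul_NJ (hJ : J ⊆ D.Ith θ) {v : G} (hv : v ∈ D.NJ J) : D.Char_Mul θ J v 1 := by
  induction hv using Subgroup.closure_induction_right with
  | one => exact D.Char_Mul_U D.U.one_mem
  | mul_right x _ y hy ih =>
    obtain ⟨j, hj, rfl⟩ := hy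
    simpa using D.Char_Mul_mul ih (D.Char_Mul_s hJ hj)
  | mul_inv_cancel x _ y hy ih =>
    obtain ⟨j, hj, rfl⟩ := hy
    have h1 := D.Char_Mul_T hJ (D.h_mem j (-1)⁻¹)
    rw [D.Char_th_h hJ hj] at h1
    rw [(D.Char_s_inv ((hJ.trans D.Ith_sub) hj)).1]
    simpa using D.Char_Mul_mul ih (D.Char_Mul_mul (D.Char_Mul_s hJ hj) h1)

theorem Char_Rel_mul (hJ : J ⊆ D.Ith θ) {g p : G} {a b : A} (ha : D.Char_Rel θ J g a)
    (hb : D.Char_Rel θ J p b) : D.Char_Rel θ J (g * p) (a * b) := by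
  obtain ⟨u, hu, v, hv, t, ht, u', hu', rfl, rfl⟩ := ha
  have := D.Char_Mul_mul (D.Char_Mul_mul (D.Char_Mul_mul (D.Char_Mul_U hu) (D.Char_Mul_NJ hJ hv))
    (D.Char_Mul_T hJ ht)) (D.Char_Mul_U hu') p b hb
  simpa using this

theorem Char_Rel_exists (hJ : J ⊆ D.Ith θ) (g : D.P J) : ∃ a, D.Char_Rel θ J g a := by
  obtain ⟨u, hu, v, hv, b, hb, h⟩ := (D.mem_P (hJ.trans D.Ith_sub)).1 g.2
  obtain ⟨t, ht, u', hu', rfl⟩ := D.mem_B.1 hb
  exact ⟨_, u, hu, v, hv, t, ht, u', hu', by rw [h]; group, rfl⟩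

/-- Define `χ (u v t u') = θ t` (`mem_P`, `mem_B`); well defined by `bruhat_unique` and
`theta_NJ`. Prove `χ (g p) = χ g * χ p` by showing that the set of `g` such that this holds for all
`p` contains `T`, `U`, `s j` (`s_mul_of_pos`, `s_mul_of_neg`, `theta_conj`) and is closed under
products. -/
theorem exists_ext (hJ : J ⊆ D.Ith θ) : ∃ χ : D.P J →* A,
    (∀ (t : D.T) (ht : (t : G) ∈ D.P J), χ ⟨t, ht⟩ = θ t) ∧
    (∀ u ∈ D.U, ∀ hu : u ∈ D.P J, χ ⟨u, hu⟩ = 1) ∧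
    ∀ j ∈ J, ∀ hj : D.s j ∈ D.P J, χ ⟨D.s j, hj⟩ = 1 := by
  choose f hf using D.Char_Rel_exists hJ
  refine ⟨MonoidHom.mk' f fun g p => D.Char_Rel_unique hJ (hf (g * p))
    (D.Char_Rel_mul hJ (hf g) (hf p)), fun t ht => ?_, fun u hu hu' => ?_, fun j hj hj' => ?_⟩
  · refine D.Char_Rel_unique hJ (hf ⟨t, ht⟩) ⟨1, D.U.one_mem, 1, (D.NJ J).one_mem, t, t.2, 1,
      D.U.one_mem, by simp, D.Char_th_eq t.2⟩
  · refine D.Char_Rel_unique hJ (hf ⟨u, hu'⟩) ⟨u, hu, 1, (D.NJ J).one_mem, 1, D.T.one_mem, 1,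
      D.U.one_mem, by simp, D.Char_th_one.symm⟩
  · refine D.Char_Rel_unique hJ (hf ⟨_, hj'⟩) ⟨1, D.U.one_mem, _, D.s_mem_NJ hj, 1, D.T.one_mem,
      1, D.U.one_mem, by simp, D.Char_th_one.symm⟩

theorem exists_par {k : Type*} [Field k] (θ : D.T →* kˣ) {J : Finset (Fin D.r → ℤ)}
    (hJ : J ⊆ D.Ith θ) : ∃ Q : D.Par k, Q.θ = θ ∧ Q.J = J := by
  obtain ⟨χ, h1, h2, h3⟩ := D.exists_ext (θ := θ) (J := D.Ith θ \ J) Finset.sdiff_subset
  exact ⟨⟨θ, D.Ith θ \ J, Finset.sdiff_subset, χ, h1, h2, h3⟩, rfl,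
    Finset.sdiff_sdiff_eq_self hJ⟩

end Datum

end Pool.Agent.Work.MP_bb5f23_al
end

-- merged part: Pool.Agent.Work.MP_bb5f23_al.Mono
section
/-! The coset space `G / P_J` and the induced modules. -/

namespace Pool.Agent.Work.MP_bb5f23_al

namespace Datum

open scoped TensorProduct

variable {F : Type} [Field F] {G : Type*} [Group G] (D : Datum F G) [IsAlgClosed F]
variable {J : Finset (Fin D.r → ℤ)}

omit [IsAlgClosed F] in
theorem Mono_coset (g : G) {p : G} (hp : p ∈ D.P J) : ((g * p : G) : G ⧸ D.P J) = g := by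
  rw [eq_comm, QuotientGroup.eq, inv_mul_cancel_left]
  exact hp

omit [IsAlgClosed F] in
theorem Mono_congr {α : Fin D.r → ℤ} {m m' : G} (h : (m : G ⧸ D.P J) = m') :
    D.Desc J α m ↔ D.Desc J α m' := by
  have h' : ((D.s α * m : G) : G ⧸ D.P J) = (D.s α * m' : G) := congrArg (D.s α • ·) h
  unfold Desc
  rw [h, h']

theorem clen_le {m u : G} (hm : m ∈ D.N) (hu : u ∈ D.U) :
    D.clen J ((u * m : G) : G ⧸ D.P J) ≤ D.len m :=
  Nat.sInf_le ⟨m, hm, u, hu, rfl, rfl⟩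

/-- `min_cell` and `len_mul_of_min`. -/
theorem clen_min (hJ : J ⊆ D.Delta) {x u : G} (hx : D.MinRep J x) (hu : u ∈ D.U) :
    D.clen J ((u * x : G) : G ⧸ D.P J) = D.len x := by
  refine le_antisymm (D.clen_le hx.1 hu) (le_csInf ⟨_, x, hx.1, u, hu, rfl, rfl⟩ ?_)
  rintro l ⟨m, hm, u', hu', e, rfl⟩
  rw [QuotientGroup.eq] at e
  obtain ⟨v, hv, t, ht, rfl⟩ := D.min_cell hJ hx (D.U.mul_mem (D.U.inv_mem hu) hu') hm e
    (by group)
  rw [D.len_mul_T (D.N.mul_mem hx.1 (D.NJ_le_N hJ hv)) ht, D.len_mul_of_min hJ hx hv]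
  exact Nat.le_add_right _ _

theorem Mono_pos (hJ : J ⊆ D.Delta) {α : Fin D.r → ℤ} (hα : α ∈ D.Delta) {x : G}
    (hx : D.MinRep J x) (h : ¬D.Desc J α x) : D.act x⁻¹ α ∈ D.pos := by
  by_contra hn
  have h1 := D.len_s_mul_of_neg hx.1 hα hn
  have h2 := D.clen_le (J := J) (D.N.mul_mem (D.s_mem_N hα) hx.1) D.U.one_mem
  have h3 := D.clen_min hJ hx D.U.one_mem
  rw [one_mul] at h2 h3
  refine h ?_
  unfold Desc
  omega

/-- Let `x = m v` be minimal (`exists_minRep`). If `act x⁻¹ α` is negative then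
`clen (s x) ≤ len (s x) < len x = clen x`; otherwise `x⁻¹ x_α(a) x ∈ U`. -/
theorem fix_of_not_desc (hJ : J ⊆ D.Delta) {α : Fin D.r → ℤ} (hα : α ∈ D.Delta) {m : G}
    (hm : m ∈ D.N) (h : ¬D.Desc J α m) (a : F) :
    ∃ v ∈ D.NJ J, (m * v)⁻¹ * D.x α a * (m * v) ∈ D.U := by
  obtain ⟨v, hv, hx⟩ := D.exists_minRep hJ hm
  have hp := D.Mono_pos hJ hα hx fun h' => h ((D.Mono_congr (D.Mono_coset m (D.NJ_le_P J hv))).1 h')
  obtain ⟨c, hc⟩ := D.conj_x (D.N.inv_mem hx.1) (D.delta_sub hα)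
  refine ⟨v, hv, ?_⟩
  have := hc a
  rw [inv_inv] at this
  rw [this]
  exact D.x_mem_U hp _

theorem mem_P_of_no_desc (hJ : J ⊆ D.Delta) {m : G} (hm : m ∈ D.N)
    (h : ∀ α ∈ D.Delta, ¬D.Desc J α m) : m ∈ D.P J := by
  obtain ⟨v, hv, hx⟩ := D.exists_minRep hJ hm
  have ht := D.mem_T_of_simple_pos (D.N.inv_mem hx.1) fun α hα =>
    D.Mono_pos hJ hα hx fun h' => h α hα ((D.Mono_congr (D.Mono_coset m (D.NJ_le_P J hv))).1 h')
  have h1 : m * v ∈ D.P J := D.B_le_P J (D.T_le_B (by simpa using D.T.inv_mem ht))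
  simpa using (D.P J).mul_mem h1 ((D.P J).inv_mem (D.NJ_le_P J hv))

/-- `s s ∈ T` fixes the coset of `m`. -/
theorem not_desc_of_desc {α : Fin D.r → ℤ} (hα : α ∈ D.Delta) {m : G} (hm : m ∈ D.N)
    (h : D.Desc J α m) : ¬D.Desc J α (D.s α * m) := by
  have ht : m⁻¹ * D.h α (-1) * m⁻¹⁻¹ ∈ D.T := D.conj_mem_T (D.N.inv_mem hm) (D.h_mem α _)
  have e : D.s α * (D.s α * m) = m * (m⁻¹ * D.h α (-1) * m⁻¹⁻¹) := by
    rw [← D.s_mul_s hα]
    group
  unfold Desc at h ⊢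
  rw [e, D.Mono_coset m (D.B_le_P J (D.T_le_B ht))]
  exact not_lt.2 h.le

theorem desc_congr {α : Fin D.r → ℤ} {m m' : G} (h : (m : G ⧸ D.P J) = m') :
    D.Desc J α m ↔ D.Desc J α m' := D.Mono_congr h

/-- The cosets of elements of `N` form a finite set (`exists_NJ_mul_T`, `NJ_finite`); a coset
`u x P` with `x` minimal and `1 ≠ u ∈ Um x⁻¹` (`bruhat`, `exists_minRep`, `U_decomp`) fixed by `t`
has `t u t⁻¹ = u` (`stab_min`, `eq_one_of_Um`), then use `root_of_ne_one`. -/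
theorem exists_fixed_finset [IsFbar F] (hJ : J ⊆ D.Delta) : ∃ X0 : Finset (G ⧸ D.P J),
    (∀ c, c ∈ X0 ↔ ∃ m ∈ D.N, c = (m : G ⧸ D.P J)) ∧
    ∀ c ∉ X0, ∃ α : Fin D.r → ℤ, α ≠ 0 ∧ ∀ z, D.tau z • c = c → mon α z = 1 := by
  classical
  have hX : ∀ c, c ∈ (D.NJ_finite D.Delta).toFinset.image (fun m : G => (m : G ⧸ D.P J)) ↔
      ∃ m ∈ D.N, c = (m : G ⧸ D.P J) := by
    intro c
    simp only [Finset.mem_image, Set.Finite.mem_toFinset, SetLike.mem_coe]
    constructor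
    · rintro ⟨m, hm, rfl⟩
      exact ⟨m, D.NJ_le_N le_rfl hm, rfl⟩
    · rintro ⟨m, hm, rfl⟩
      obtain ⟨v, hv, t, ht, rfl⟩ := D.exists_NJ_mul_T hm
      exact ⟨v, hv, (D.Mono_coset v (D.B_le_P J (D.T_le_B ht))).symm⟩
  refine ⟨_, hX, fun c hc => ?_⟩
  rw [hX] at hc
  obtain ⟨g, rfl⟩ := QuotientGroup.mk_surjective c
  obtain ⟨u, hu, n, hn, b, hb, rfl⟩ := D.bruhat g
  obtain ⟨v, hv, hx⟩ := D.exists_minRep hJ hn
  generalize hxe : n * v = x at hx
  have hxN := D.N.inv_mem hx.1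
  obtain ⟨u₁, h₁, u₂, h₂, rfl⟩ := D.U_decomp hxN hu
  have e : ((u₁ * u₂ * n * b : G) : G ⧸ D.P J) = (u₁ * x : G) := by
    have e' : u₁ * u₂ * n * b = u₁ * x * (x⁻¹ * u₂ * x⁻¹⁻¹ * v⁻¹ * b) := by
      rw [← hxe]
      group
    rw [e']
    refine D.Mono_coset _ ((D.P J).mul_mem ((D.P J).mul_mem ?_ ?_) (D.B_le_P J hb))
    · exact D.B_le_P J (D.U_le_B (D.conj_mem_of_U' hxN h₂))
    · exact (D.P J).inv_mem (D.NJ_le_P J hv)
  rw [e] at hc ⊢
  have hne : u₁ ≠ 1 := by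
    rintro rfl
    exact hc ⟨x, hx.1, by rw [one_mul]⟩
  obtain ⟨α, hα, H⟩ := D.root_of_ne_one h₁.1 hne
  refine ⟨α, fun h0 => D.zero_not_mem (h0 ▸ D.pos_sub hα), fun z hz => H z ?_⟩
  have hz' : ((D.tau z * (u₁ * x) : G) : G ⧸ D.P J) = (u₁ * x : G) := hz
  rw [QuotientGroup.eq] at hz'
  have ht := D.conj_mem_T hxN (D.tau_mem z)
  have hw : (D.tau z * u₁ * (D.tau z)⁻¹)⁻¹ * u₁ ∈ D.Um x⁻¹ :=
    (D.Um x⁻¹).mul_mem ((D.Um x⁻¹).inv_mem (D.conj_mem_Um hxN (D.tau_mem z) h₁)) h₁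
  have hP : x⁻¹ * ((D.tau z * u₁ * (D.tau z)⁻¹)⁻¹ * u₁) * x ∈ D.P J := by
    have := (D.P J).mul_mem (D.B_le_P J (D.T_le_B ht)) hz'
    convert this using 1
    group
  have := D.eq_one_of_Um hw (D.U_le_B (D.conj_mem_of_U' hxN (D.stab_min hJ hx hw.1 hP)))
  exact inv_mul_eq_one.1 this

variable {k : Type*} [Field k]

namespace Par

variable {D} (Q : D.Par k)

theorem J'_sub : Q.J' ⊆ D.Delta := Q.sub.trans D.Ith_sub

theorem J_sub : Q.J ⊆ D.Ith Q.θ := Finset.sdiff_subset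

theorem vec_mul_U (g : G) {u : G} (hu : u ∈ D.U) : Q.vec (g * u) = Q.vec g := by
  rw [Q.vec_mul g u (D.B_le_P _ (D.U_le_B hu)), Q.χ_U u hu, Units.val_one, one_smul]

theorem vec_mul_T (g : G) (t : D.T) : Q.vec (g * t) = (Q.θ t : k) • Q.vec g := by
  rw [Q.vec_mul g t (D.B_le_P _ (D.T_le_B t.2)), Q.χ_T]

theorem vec_mul_NJ (g : G) {v : G} (hv : v ∈ D.NJ Q.J') : Q.vec (g * v) = Q.vec g := by
  induction hv using Subgroup.closure_induction generalizing g with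
  | mem x hx =>
    obtain ⟨j, hj, rfl⟩ := hx
    rw [Q.vec_mul g _ (D.NJ_le_P _ (D.s_mem_NJ hj)), Q.χ_s j hj, Units.val_one, one_smul]
  | one => rw [mul_one]
  | mul x y _ _ hx hy => rw [← mul_assoc, hy, hx]
  | inv x _ hx => rw [← hx (g * x⁻¹), inv_mul_cancel_right]

theorem vec_ne_zero (g : G) : Q.vec g ≠ 0 := by
  obtain ⟨a, ha⟩ := Q.vec_eq g
  rw [ha]
  exact Finsupp.single_ne_zero.2 a.ne_zero

theorem span_vec : Submodule.span k (Set.range Q.vec) = ⊤ := by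
  refine eq_top_iff.2 fun f _ => ?_
  induction f using Finsupp.induction_linear with
  | zero => exact zero_mem _
  | add f g hf hg => exact add_mem (hf trivial) (hg trivial)
  | single c b =>
    obtain ⟨g, rfl⟩ := QuotientGroup.mk_surjective c
    obtain ⟨a, ha⟩ := Q.vec_eq g
    have : Finsupp.single (g : G ⧸ D.P Q.J') b = (b * (a : k)⁻¹) • Q.vec g := by
      rw [ha, Finsupp.smul_single, smul_eq_mul, inv_mul_cancel_right₀ a.ne_zero]
    rw [this]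
    exact Submodule.smul_mem _ _ (Submodule.subset_span ⟨g, rfl⟩)

theorem vec_fix_of_not_desc {α : Fin D.r → ℤ} (hα : α ∈ D.Delta) {m : G} (hm : m ∈ D.N)
    (h : ¬D.Desc Q.J' α m) (a : F) : Q.vec (D.x α a * m) = Q.vec m := by
  obtain ⟨v, hv, hu⟩ := D.fix_of_not_desc Q.J'_sub hα hm h a
  have e : D.x α a * m = m * v * ((m * v)⁻¹ * D.x α a * (m * v)) * v⁻¹ := by group
  rw [e, Q.vec_mul_NJ _ (inv_mem hv), Q.vec_mul_U _ hu, Q.vec_mul_NJ _ hv]

/-- If `U_α` fixes both `vec m` and `vec (s m)` then `U_α`, `U_{-α}` (`s_x`) fix `vec m`, hence so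
do `s α` and `h α a` (`h_mul_s`). -/
theorem vec_fix_of_not_desc₂ {α : Fin D.r → ℤ} (hα : α ∈ D.Delta) {m : G} (hm : m ∈ D.N)
    (h : ¬D.Desc Q.J' α m) (h' : ¬D.Desc Q.J' α (D.s α * m)) :
    Q.vec (D.s α * m) = Q.vec m ∧ ∀ a, Q.vec (D.h α a * m) = Q.vec m := by
  have hmul : ∀ g g' : G, Q.vec (g * m) = Q.vec m → Q.vec (g' * m) = Q.vec m →
      Q.vec (g * g' * m) = Q.vec m := fun g g' hg hg' => by
    rw [mul_assoc, ← Q.rep_vec, hg', Q.rep_vec, hg]
  have h1 := Q.vec_fix_of_not_desc hα hm h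
  have h2 : ∀ a, Q.vec (D.x (-α) a * m) = Q.vec m := fun a => by
    have k1 := Q.vec_fix_of_not_desc hα (D.N.mul_mem (D.s_mem_N hα) hm) h' (-a)
    have k2 := D.h_x hα (-1) (-a)
    have k3 := D.s_x hα (-a)
    rw [← D.s_mul_s hα, Units.val_neg, Units.val_one, neg_one_sq, one_mul] at k2
    rw [neg_neg] at k3
    have e : D.x (-α) a * m = (D.s α)⁻¹ * (D.x α (-a) * (D.s α * m)) := by
      rw [← k3]
      conv_rhs => rw [← k2]
      group
    rw [e, ← Q.rep_vec, k1, Q.rep_vec, inv_mul_cancel_left]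
  have h3 : ∀ a, Q.vec (D.h α a * D.s α * m) = Q.vec m := fun a => by
    rw [D.h_mul_s hα]
    exact hmul _ _ (hmul _ _ (h1 _) (h2 _)) (h1 _)
  have h4 : Q.vec (D.s α * m) = Q.vec m := by
    have := h3 1
    rwa [D.h_one, one_mul] at this
  refine ⟨h4, fun a => ?_⟩
  rw [← Q.rep_vec, ← h4, Q.rep_vec, ← mul_assoc, h3, h4]

theorem good_one : D.Good Q.rep Q.θ ∅ (Q.vec 1) := by
  refine ⟨Finset.empty_subset _, fun t => ?_, fun γ hγ a => ?_, fun j hj => by simp at hj⟩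
  · rw [Q.rep_vec, mul_one, ← Q.vec_mul_T, one_mul]
  · rw [Q.rep_vec, mul_one, ← Q.vec_mul_U 1 (D.x_mem_U (D.mem_posOut.1 hγ).1 a), one_mul]

theorem coc_finOrder [IsFbar F] (g : G) (c : G ⧸ D.P Q.J') : IsOfFinOrder (Q.coc.c g c) :=
  Q.χ.isOfFinOrder ((D.P Q.J').subtype_injective.isOfFinOrder_iff.1 (D.finOrder _))

/-- `g e ⊗ g' e' = g (e ⊗ g⁻¹ g' e')` and `g⁻¹ g' = u v t b` by `bruhat`, `exists_NJ_mul_T`; index
by the finite set `N_Delta`. -/
theorem tensor_gen [IsFbar F] (Q' : D.Par k) : ∃ (m : ℕ)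
    (e : Fin m → ((G ⧸ D.P Q.J') →₀ k) ⊗[k] ((G ⧸ D.P Q'.J') →₀ k))
    (θ : Fin m → ((Fin D.r → Fˣ) →* kˣ)),
    (∀ i z, (Q.rep.tprod Q'.rep) (D.tau z) (e i) = (θ i z : k) • e i) ∧
    Submodule.span k {v | ∃ g i, v = (Q.rep.tprod Q'.rep) g (e i)} = ⊤ := by
  obtain ⟨m, e, he⟩ := (D.NJ_finite D.Delta).fin_param
  have hN : ∀ i, e i ∈ D.N := fun i => D.NJ_le_N le_rfl (by
    have : e i ∈ (D.NJ D.Delta : Set G) := he.2 ▸ ⟨i, rfl⟩
    exact this)
  let ψ : Fin m → ((Fin D.r → Fˣ) →* D.T) := fun i =>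
    ((MulAut.conj (e i)⁻¹).toMonoidHom.comp D.tau).codRestrict D.T fun z =>
      D.conj_mem_T (D.N.inv_mem (hN i)) (D.tau_mem z)
  refine ⟨m, fun i => Q.vec 1 ⊗ₜ Q'.vec (e i),
    fun i => Q.θ.comp D.tau.rangeRestrict * Q'.θ.comp (ψ i), fun i z => ?_, ?_⟩
  · have h1 : Q.vec (D.tau z * 1) = (Q.θ (D.tau.rangeRestrict z) : k) • Q.vec 1 := by
      rw [← Q.vec_mul_T, one_mul, mul_one]
      rfl
    have h2 : Q'.vec (D.tau z * e i) = (Q'.θ (ψ i z) : k) • Q'.vec (e i) := by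
      rw [← Q'.vec_mul_T]
      congr 1
      change _ = e i * ((e i)⁻¹ * D.tau z * (e i)⁻¹⁻¹)
      group
    rw [Representation.tprod_apply, TensorProduct.map_tmul, Q.rep_vec, Q'.rep_vec, h1, h2,
      TensorProduct.smul_tmul_smul]
    rfl
  · generalize hS : Submodule.span k {v | ∃ g i, v = (Q.rep.tprod Q'.rep) g
      (Q.vec 1 ⊗ₜ Q'.vec (e i))} = S
    have key : ∀ g g' : G, Q.vec g ⊗ₜ Q'.vec g' ∈ S := by
      intro g g'
      obtain ⟨u, hu, n, hn, b, hb, h⟩ := D.bruhat (g⁻¹ * g')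
      obtain ⟨v, hv, t, ht, rfl⟩ := D.exists_NJ_mul_T hn
      obtain ⟨i, rfl⟩ : v ∈ Set.range e := he.2.symm ▸ hv
      have e' : g' = g * u * e i * (t * b) := by
        rw [← mul_inv_cancel_left g g', h]
        group
      rw [e', Q'.vec_mul _ _ (D.B_le_P _ (D.B.mul_mem (D.T_le_B ht) hb)),
        TensorProduct.tmul_smul, ← hS]
      refine Submodule.smul_mem _ _ (Submodule.subset_span ⟨g * u, i, ?_⟩)
      rw [Representation.tprod_apply, TensorProduct.map_tmul, Q.rep_vec, Q'.rep_vec, mul_one,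
        Q.vec_mul_U g hu]
    have key' : ∀ x y, x ⊗ₜ y ∈ S := by
      intro x y
      have hx : x ∈ Submodule.span k (Set.range Q.vec) := Q.span_vec ▸ Submodule.mem_top
      have hy : y ∈ Submodule.span k (Set.range Q'.vec) := Q'.span_vec ▸ Submodule.mem_top
      induction hx using Submodule.span_induction with
      | mem x hx =>
        obtain ⟨g, rfl⟩ := hx
        induction hy using Submodule.span_induction with
        | mem y hy =>
          obtain ⟨g', rfl⟩ := hy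
          exact key g g'
        | zero => rw [TensorProduct.tmul_zero]; exact zero_mem _
        | add y y' _ _ h h' => rw [TensorProduct.tmul_add]; exact add_mem h h'
        | smul a y _ h => rw [TensorProduct.tmul_smul]; exact S.smul_mem a h
      | zero => rw [TensorProduct.zero_tmul]; exact zero_mem _
      | add x x' _ _ h h' => rw [TensorProduct.add_tmul]; exact add_mem h h'
      | smul a x _ h => rw [← TensorProduct.smul_tmul']; exact S.smul_mem a h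
    refine eq_top_iff.2 fun w _ => ?_
    induction w using TensorProduct.induction_on with
    | zero => exact zero_mem _
    | tmul x y => exact key' x y
    | add x y hx hy => exact add_mem (hx trivial) (hy trivial)

end Par

end Datum

end Pool.Agent.Work.MP_bb5f23_al
end

-- merged part: Pool.Agent.Work.MP_bb5f23_al.Good
section
/-! Vectors satisfying the relations of `η(θ)_J`. -/

namespace Pool.Agent.Work.MP_bb5f23_al

namespace Datum

variable {F : Type} [Field F] {G : Type*} [Group G] (D : Datum F G) [IsAlgClosed F]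
variable {k : Type*} [Field k] {V : Type*} [AddCommGroup V] [Module k V]
variable {ρ : Representation k G V} {θ : D.T →* kˣ} {J K : Finset (Fin D.r → ℤ)} {y : V}

theorem Good_mul (ρ : Representation k G V) (a b : G) (y : V) : ρ (a * b) y = ρ a (ρ b y) := by
  rw [map_mul]
  rfl

theorem Good_sq (n : ℕ) : (-1 : k) ^ n * (-1 : k) ^ n = 1 := by
  rw [← mul_pow]
  simp

/-- The stabiliser of a vector. -/
def Good_stab (ρ : Representation k G V) (z : V) : Subgroup G where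
  carrier := {g | ρ g z = z}
  one_mem' := by simp
  mul_mem' := by
    intro a b ha hb
    simp only [Set.mem_ofPred_eq] at ha hb ⊢
    rw [Good_mul, hb, ha]
  inv_mem' := by
    intro a ha
    simp only [Set.mem_ofPred_eq] at ha ⊢
    conv_lhs => rw [← ha]
    rw [← Good_mul, inv_mul_cancel, map_one]
    rfl

theorem Good_len_one : D.len 1 = 0 := (D.len_eq_zero_iff D.N.one_mem).2 D.T.one_mem

theorem Good_sign (hJ : J ⊆ D.Delta) (h : ∀ j ∈ J, ρ (D.s j) y = -y) {v : G}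
    (hv : v ∈ D.NJ J) : ρ v y = (-1 : k) ^ D.len v • y := by
  induction hv using Subgroup.closure_induction with
  | mem x hx =>
    obtain ⟨j, hj, rfl⟩ := hx
    rw [D.len_s (hJ hj), h j hj]
    simp
  | one => simp [D.Good_len_one]
  | mul a b ha hb iha ihb =>
    rw [Good_mul, ihb, map_smul, iha, smul_smul,
      D.neg_one_pow_len_mul (D.NJ_le_N hJ ha) (D.NJ_le_N hJ hb), mul_comm]
  | inv a ha ih =>
    rw [D.len_inv (D.NJ_le_N hJ ha)]
    have h1 : y = (-1 : k) ^ D.len a • ρ a⁻¹ y := by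
      rw [← map_smul, ← ih, ← Good_mul, inv_mul_cancel, map_one]
      rfl
    conv_rhs => rw [h1]
    rw [smul_smul, Good_sq, one_smul]

theorem Good_fix {n : G} (hn : n ∈ D.N) {α : Fin D.r → ℤ} (hα : α ∈ D.Phi)
    (h : ∀ a, ρ (D.x (D.act n⁻¹ α) a) y = y) (a : F) : ρ (D.x α a * n) y = ρ n y := by
  obtain ⟨c, hc⟩ := D.conj_x (D.N.inv_mem hn) hα
  have : D.x α a * n = n * D.x (D.act n⁻¹ α) (c * a) := by
    rw [← hc]
    group
  rw [this, Good_mul, h]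

theorem Good.act_NJ (hy : D.Good ρ θ J y) {v : G} (hv : v ∈ D.NJ J) :
    ρ v y = (-1 : k) ^ D.len v • y :=
  D.Good_sign (hy.sub.trans D.Ith_sub) (fun j hj => (hy.st j hj).2.1) hv

/-- `transport`. -/
theorem St_transport {n : G} (hn : n ∈ D.N) {j α : Fin D.r → ℤ} (hj : j ∈ D.Delta)
    (hα : α ∈ D.Delta) (h : D.act n j = α) (hy : y ∈ D.St ρ j) : ρ n y ∈ D.St ρ α := by
  obtain ⟨c, hx, hs, hh⟩ := D.transport hn hj hα h
  obtain ⟨h1, h2, h3⟩ := hy
  have k1 : ∀ b, ρ (D.h α b) (ρ n y) = ρ n y := fun b => by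
    have : D.h α b * n = n * D.h j b := by
      rw [← hh]
      group
    rw [← Good_mul, this, Good_mul, h1]
  have hs' : D.s α = D.h α c⁻¹ * (n * D.s j * n⁻¹) := by
    rw [hs, D.h_inv]
    group
  refine ⟨k1, ?_, fun a => ?_⟩
  · have : D.s α * n = D.h α c⁻¹ * (n * D.s j) := by
      rw [hs']
      group
    rw [← Good_mul, this, Good_mul, Good_mul, h2, map_neg, map_neg, k1]
  · have e1 : D.x α a = n * D.x j ((c⁻¹ * a : Fˣ) : F) * n⁻¹ := by
      rw [hx]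
      congr 1
      simp
    have e2 : D.s α * D.x α a * n = D.h α c⁻¹ * (n * (D.s j * D.x j ((c⁻¹ * a : Fˣ) : F))) := by
      rw [hs', e1]
      group
    have e3 : D.h α c⁻¹ * (n * D.x j (-((c⁻¹ * a)⁻¹ : Fˣ))) =
        D.x α (-(a⁻¹ : Fˣ)) * (D.h α c⁻¹ * n) := by
      have e4 := D.h_x hα c⁻¹ ((c : F) * -((c⁻¹ * a)⁻¹ : Fˣ))
      have e5 : ((c⁻¹ : Fˣ) : F) ^ 2 * ((c : F) * -((c⁻¹ * a)⁻¹ : Fˣ)) = -((a⁻¹ : Fˣ) : F) := by
        have := c.ne_zero
        have := a.ne_zero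
        simp only [Units.val_inv_eq_inv_val, Units.val_mul]
        field_simp
      rw [e5] at e4
      rw [← e4, ← hx]
      group
    rw [← Good_mul, e2, Good_mul, Good_mul, h3, map_sub, map_sub, k1, ← Good_mul, ← Good_mul,
      mul_assoc, e3, Good_mul, Good_mul, k1]

/-- Apply `root_cases` to `β = act n⁻¹ α`. In the third case replace `n` by a minimal
`n v` (`exists_minRep`, `act_NJ`), use `act_inSub`, `mem_of_minRep`, `St_transport`. -/
theorem Good.cases (hy : D.Good ρ θ J y) {n : G} (hn : n ∈ D.N) {α : Fin D.r → ℤ}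
    (hα : α ∈ D.Delta) : (∀ a, ρ (D.x α a * n) y = ρ n y) ∨
      (∀ a, ρ (D.x α a * (D.s α * n)) y = ρ (D.s α * n) y) ∨ ρ n y ∈ D.St ρ α := by
  have hJ : J ⊆ D.Delta := hy.sub.trans D.Ith_sub
  have hαP := D.delta_sub hα
  have hs := D.s_mem_N hα
  rcases D.root_cases J (D.act_mem (D.N.inv_mem hn) hαP) with h | h | h
  · exact Or.inl (D.Good_fix hn hαP (hy.fix _ h))
  · refine Or.inr (Or.inl (D.Good_fix (D.N.mul_mem hs hn) hαP ?_))
    rw [mul_inv_rev, D.act_mul (D.N.inv_mem hn) (D.N.inv_mem hs), D.act_s_inv hα,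
      D.act_s_self hα, map_neg]
    exact hy.fix _ h
  · refine Or.inr (Or.inr ?_)
    obtain ⟨v, hv, hx⟩ := D.exists_minRep hJ hn
    have hvN := D.NJ_le_N hJ hv
    have h1 := D.act_inSub hJ ((D.NJ J).inv_mem hv) h
    have h2 : D.act (n * v) (D.act v⁻¹ (D.act n⁻¹ α)) = α := by
      rw [D.act_mul hn hvN, D.act_act_inv hvN, D.act_act_inv hn]
    have h3 := D.mem_of_minRep hJ hx h1 (by rw [h2]; exact hα)
    have h4 := D.St_transport hx.1 (hJ h3) hα h2 (hy.st _ h3)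
    rw [Good_mul, hy.act_NJ D hv, map_smul] at h4
    have h5 := (D.St ρ α).smul_mem ((-1 : k) ^ D.len v) h4
    rwa [smul_smul, Good_sq, one_smul] at h5

/-- Let `n = x`: the roots of `Psi x⁻¹` are images under `act x` of roots in `posOut J`
(`act_neg_of_closure`). -/
theorem Good.fix_max (hy : D.Good ρ θ J y) {x u : G} (hx : D.MaxRep J x) (hu : u ∈ D.U' x⁻¹) :
    ρ (u * x) y = ρ x y := by
  have hJ : J ⊆ D.Delta := hy.sub.trans D.Ith_sub
  have hle : D.U' x⁻¹ ≤ Good_stab ρ (ρ x y) := by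
    rw [D.U'_eq (D.N.inv_mem hx.1)]
    refine iSup₂_le fun β hβ g hg => ?_
    obtain ⟨a, rfl⟩ := D.mem_rootSub.1 hg
    obtain ⟨h1, h2⟩ := D.mem_Psi.1 hβ
    change ρ _ (ρ x y) = ρ x y
    rw [← Good_mul]
    refine D.Good_fix hx.1 (D.pos_sub h1) (hy.fix _ (D.mem_posOut.2 ⟨h2, fun h3 => ?_⟩)) a
    have h4 := D.act_neg_of_closure hx.1 (hJ.trans D.delta_sub) hx.2 (D.pos_sub h2) h3
    rw [D.act_act_inv hx.1] at h4
    exact h4 h1
  rw [Good_mul]
  exact hle hu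

/-- `G_induction`, `U_decomp_s`, `s_conj_U'`, `Good.cases`, `s_x_rel`. -/
theorem Good.mem_span (hy : D.Good ρ θ J y) (g : G) :
    ρ g y ∈ Submodule.span k {v | ∃ u ∈ D.U, ∃ n ∈ D.N, v = ρ (u * n) y} := by
  set S := Submodule.span k {v | ∃ u ∈ D.U, ∃ n ∈ D.N, v = ρ (u * n) y} with hS
  have hgen : ∀ u ∈ D.U, ∀ n ∈ D.N, ρ (u * n) y ∈ S := fun u hu n hn =>
    Submodule.subset_span ⟨u, hu, n, hn, rfl⟩
  have hN : ∀ n ∈ D.N, ρ n y ∈ S := fun n hn => by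
    simpa using hgen 1 D.U.one_mem n hn
  have hst : ∀ g : G, (∀ u ∈ D.U, ∀ n ∈ D.N, ρ (g * (u * n)) y ∈ S) → ∀ z ∈ S, ρ g z ∈ S := by
    intro g hg z hz
    have : S ≤ S.comap (ρ g) := by
      refine Submodule.span_le.2 ?_
      rintro _ ⟨u, hu, n, hn, rfl⟩
      change ρ g _ ∈ S
      rw [← Good_mul]
      exact hg u hu n hn
    exact this hz
  have hU : ∀ u ∈ D.U, ∀ z ∈ S, ρ u z ∈ S := fun u hu => hst u fun u' hu' n hn => by
    rw [← mul_assoc]
    exact hgen _ (D.U.mul_mem hu hu') n hn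
  refine D.G_induction (p := fun g => ρ g y ∈ S) (hN 1 D.N.one_mem) (fun t ht g hg => ?_)
    (fun u hu g hg => ?_) (fun α hα g hg => ?_) g
  · rw [Good_mul]
    refine hst t (fun u hu n hn => ?_) _ hg
    have : t * (u * n) = t * u * t⁻¹ * (t * n) := by group
    rw [this]
    exact hgen _ (D.conj_mem_U ht hu) _ (D.N.mul_mem (D.T_le_N ht) hn)
  · rw [Good_mul]
    exact hU u hu _ hg
  · rw [Good_mul]
    refine hst _ (fun u hu n hn => ?_) _ hg
    have hs := D.s_mem_N hα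
    obtain ⟨u', hu', a, rfl⟩ := D.U_decomp_s hα hu
    have : D.s α * (u' * D.x α a * n) = D.s α * u' * (D.s α)⁻¹ * (D.s α * (D.x α a * n)) := by
      group
    rw [this, Good_mul]
    refine hU _ (D.U'_le_U _ (D.s_conj_U' hα hu').1) _ ?_
    by_cases ha : a = 0
    · rw [ha, D.x_zero, one_mul]
      exact hN _ (D.N.mul_mem hs hn)
    lift a to Fˣ using Ne.isUnit ha
    rcases hy.cases D hn hα with h | h | h
    · rw [Good_mul, h, ← Good_mul]
      exact hN _ (D.N.mul_mem hs hn)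
    · have e : D.s α * (D.x α a * n) = D.x α (-(a⁻¹ : Fˣ)) * (D.h α a⁻¹ * D.s α) *
          (D.x α (-(a⁻¹ : Fˣ)) * (D.s α * n)) := by
        have := D.s_x_rel hα a
        calc D.s α * (D.x α a * n) = D.s α * D.x α a * (D.s α)⁻¹ * (D.s α * n) := by group
          _ = _ := by rw [this]; group
      rw [e, Good_mul, h, ← Good_mul, mul_assoc]
      exact hgen _ (D.x_mem_U (D.delta_pos hα) _) _ (D.N.mul_mem
        (D.N.mul_mem (D.T_le_N (D.h_mem _ _)) hs) (D.N.mul_mem hs hn))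
    · rw [← mul_assoc, Good_mul, h.2.2 a, ← Good_mul]
      exact S.sub_mem (hgen _ (D.x_mem_U (D.delta_pos hα) _) _ hn) (hN n hn)

/-- If `z` is fixed by `U_α` and by all `h α a` then `z - s z` satisfies the Steinberg
relations. -/
theorem sub_mem_St {α : Fin D.r → ℤ} (hα : α ∈ D.Delta) {z : V}
    (hx : ∀ a, ρ (D.x α a) z = z) (hh : ∀ a, ρ (D.h α a) z = z) :
    z - ρ (D.s α) z ∈ D.St ρ α := by
  have k1 : ∀ a, ρ (D.h α a) (ρ (D.s α) z) = ρ (D.s α) z := fun a => by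
    have e : D.h α a * D.s α = D.s α * D.h α a⁻¹ := by
      have := D.s_h hα a⁻¹
      rw [inv_inv] at this
      rw [← this]
      group
    rw [← Good_mul, e, Good_mul, hh]
  refine ⟨fun a => ?_, ?_, fun a => ?_⟩
  · rw [map_sub, hh, k1]
  · rw [map_sub, ← Good_mul, D.s_mul_s hα, hh, neg_sub]
  · have e : D.s α * D.x α a * D.s α = D.x α (-(a⁻¹ : Fˣ)) * (D.h α a⁻¹ * (D.s α *
        (D.x α (-(a⁻¹ : Fˣ)) * D.h α (-1)))) := by
      rw [← D.s_mul_s hα]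
      calc D.s α * D.x α a * D.s α = D.s α * D.x α a * (D.s α)⁻¹ * (D.s α * D.s α) := by group
        _ = _ := by rw [D.s_x_rel hα a]; group
    rw [map_sub, map_sub, ← Good_mul ρ _ (D.s α), e]
    simp only [Good_mul, hx, hh, k1]
    abel

variable [IsFbar F]

theorem zeta_eq (ρ : Representation k G V) (J : Finset (Fin D.r → ℤ)) (y : V) :
    D.zeta ρ J y = ∑ v ∈ (D.NJ_finite J).toFinset, (-1 : k) ^ D.len v • ρ v y :=
  finsum_mem_eq_finite_toFinset_sum _ (D.NJ_finite J)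

theorem Good_card : ((D.NJ_finite J).toFinset.card : k) = Nat.card (D.NJ J) := by
  rw [← Set.ncard_eq_toFinset_card _ (D.NJ_finite J)]
  rfl

theorem zeta_add (y z : V) : D.zeta ρ J (y + z) = D.zeta ρ J y + D.zeta ρ J z := by
  simp only [zeta_eq, map_add, smul_add, Finset.sum_add_distrib]

theorem zeta_smul (c : k) (y : V) : D.zeta ρ J (c • y) = c • D.zeta ρ J y := by
  simp only [zeta_eq, map_smul, Finset.smul_sum, smul_comm c]

theorem zeta_mem {W : Submodule k V} (hJ : J ⊆ D.Delta) (hW : ∀ n ∈ D.N, ρ n y ∈ W) :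
    D.zeta ρ J y ∈ W := by
  rw [zeta_eq]
  exact W.sum_mem fun v hv => W.smul_mem _
    (hW v (D.NJ_le_N hJ ((Set.Finite.mem_toFinset _).1 hv)))

theorem map_zeta {V' : Type*} [AddCommGroup V'] [Module k V'] {σ : Representation k G V'}
    (f : V →ₗ[k] V') (hf : ∀ v ∈ D.NJ J, f (ρ v y) = σ v (f y)) :
    f (D.zeta ρ J y) = D.zeta σ J (f y) := by
  rw [zeta_eq, zeta_eq, map_sum]
  exact Finset.sum_congr rfl fun v hv => by
    rw [map_smul, hf v ((Set.Finite.mem_toFinset _).1 hv)]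

theorem act_zeta (hJ : J ⊆ D.Delta) {v : G} (hv : v ∈ D.NJ J) (y : V) :
    ρ v (D.zeta ρ J y) = (-1 : k) ^ D.len v • D.zeta ρ J y := by
  rw [zeta_eq, map_sum, Finset.smul_sum]
  refine Finset.sum_nbij' (fun w => v * w) (fun w => v⁻¹ * w) (fun w hw => ?_) (fun w hw => ?_)
    (fun w _ => by simp) (fun w _ => by simp) (fun w hw => ?_)
  · rw [Set.Finite.mem_toFinset] at hw ⊢
    exact (D.NJ J).mul_mem hv hw
  · rw [Set.Finite.mem_toFinset] at hw ⊢
    exact (D.NJ J).mul_mem ((D.NJ J).inv_mem hv) hw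
  · rw [Set.Finite.mem_toFinset] at hw
    rw [D.neg_one_pow_len_mul (D.NJ_le_N hJ hv) (D.NJ_le_N hJ hw), map_smul, Good_mul, smul_smul,
      ← mul_assoc, Good_sq, one_mul]

theorem zeta_act (hJ : J ⊆ D.Delta) {v : G} (hv : v ∈ D.NJ J) (y : V) :
    D.zeta ρ J (ρ v y) = (-1 : k) ^ D.len v • D.zeta ρ J y := by
  rw [zeta_eq, zeta_eq, Finset.smul_sum]
  refine Finset.sum_nbij' (fun w => w * v) (fun w => w * v⁻¹) (fun w hw => ?_) (fun w hw => ?_)
    (fun w _ => by simp) (fun w _ => by simp) (fun w hw => ?_)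
  · rw [Set.Finite.mem_toFinset] at hw ⊢
    exact (D.NJ J).mul_mem hw hv
  · rw [Set.Finite.mem_toFinset] at hw ⊢
    exact (D.NJ J).mul_mem hw ((D.NJ J).inv_mem hv)
  · rw [Set.Finite.mem_toFinset] at hw
    rw [D.neg_one_pow_len_mul (D.NJ_le_N hJ hw) (D.NJ_le_N hJ hv), Good_mul, smul_smul,
      mul_left_comm, Good_sq, mul_one]

theorem zeta_zeta (hK : K ⊆ D.Delta) (hJK : J ⊆ K) (y : V) :
    D.zeta ρ K (D.zeta ρ J y) = (Nat.card (D.NJ J) : k) • D.zeta ρ K y := by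
  let f : V →ₗ[k] V := ⟨⟨D.zeta ρ K, D.zeta_add⟩, D.zeta_smul⟩
  change f _ = _
  rw [D.zeta_eq ρ J, map_sum, ← D.Good_card, Nat.cast_smul_eq_nsmul, ← Finset.sum_const]
  refine Finset.sum_congr rfl fun v hv => ?_
  rw [Set.Finite.mem_toFinset] at hv
  rw [map_smul]
  change _ • D.zeta ρ K _ = _
  rw [D.zeta_act hK (D.NJ_mono hJK hv), smul_smul, Good_sq, one_smul]

theorem zeta_of_sign (hJ : J ⊆ D.Delta) (h : ∀ j ∈ J, ρ (D.s j) y = -y) :
    D.zeta ρ J y = (Nat.card (D.NJ J) : k) • y := by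
  rw [D.zeta_eq ρ J, ← D.Good_card, Nat.cast_smul_eq_nsmul, ← Finset.sum_const]
  refine Finset.sum_congr rfl fun v hv => ?_
  rw [Set.Finite.mem_toFinset] at hv
  rw [D.Good_sign hJ h hv, smul_smul, Good_sq, one_smul]

theorem zeta_eq_zero [CharZero k] (hK : K ⊆ D.Delta) {j : Fin D.r → ℤ} (hj : j ∈ K)
    (h : ρ (D.s j) y = y) : D.zeta ρ K y = 0 := by
  have h1 := D.zeta_act (ρ := ρ) hK (D.s_mem_NJ hj) y
  rw [h, D.len_s (hK hj), pow_one, neg_one_smul] at h1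
  have h2 : (2 : k) • D.zeta ρ K y = 0 := by
    rw [two_smul]
    exact add_eq_zero_iff_eq_neg.2 h1
  exact (smul_eq_zero.1 h2).resolve_left two_ne_zero

/-- Weight: `theta_conj`. Fixed by `V_K`: `act_posOut`. Steinberg relations:
`2 ζ = (1 - s) ζ = ∑ ± (1 - s) v y` and each `(1 - s) v y ∈ St` by `Good.cases`, `sub_mem_St`. -/
theorem Good.zeta [CharZero k] (hy : D.Good ρ θ J y) (hJK : J ⊆ K) (hK : K ⊆ D.Ith θ) :
    D.Good ρ θ K (D.zeta ρ K y) := by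
  have hKD : K ⊆ D.Delta := hK.trans D.Ith_sub
  have heig : ∀ v ∈ D.NJ K, ∀ t : D.T, ρ t (ρ v y) = (θ t : k) • ρ v y := by
    intro v hv t
    have ht : v⁻¹ * t * v ∈ D.T := by
      simpa using D.conj_mem_T (D.N.inv_mem (D.NJ_le_N hKD hv)) t.2
    have e : (t : G) * v = v * (v⁻¹ * t * v) := by group
    rw [← Good_mul, e, Good_mul, hy.eig ⟨_, ht⟩, map_smul, D.theta_conj hK hv t.2 ht]
  refine ⟨hK, fun t => ?_, fun γ hγ a => ?_, fun j hj => ?_⟩
  · rw [zeta_eq, map_sum, Finset.smul_sum]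
    refine Finset.sum_congr rfl fun v hv => ?_
    rw [map_smul, heig v ((Set.Finite.mem_toFinset _).1 hv), smul_comm]
  · rw [zeta_eq, map_sum]
    refine Finset.sum_congr rfl fun v hv => ?_
    rw [Set.Finite.mem_toFinset] at hv
    have h1 := D.mem_posOut.1 (D.act_posOut hKD ((D.NJ K).inv_mem hv) hγ)
    rw [map_smul, ← Good_mul, D.Good_fix (D.NJ_le_N hKD hv) (D.pos_sub (D.mem_posOut.1 hγ).1)
      (hy.fix _ (D.mem_posOut.2 ⟨h1.1, fun h => h1.2 (AddSubmonoid.closure_mono hJK h)⟩))]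
  · have hjD := hKD hj
    have hh : ∀ v ∈ D.NJ K, ∀ a, ρ (D.h j a) (ρ v y) = ρ v y := fun v hv a => by
      have := heig v hv ⟨_, D.h_mem j a⟩
      rwa [(D.mem_Ith.1 (hK hj)).2 a, Units.val_one, one_smul] at this
    have hterm : ∀ v ∈ D.NJ K, ρ v y - ρ (D.s j) (ρ v y) ∈ D.St ρ j := by
      intro v hv
      rcases hy.cases D (D.NJ_le_N hKD hv) hjD with h | h | h
      · exact D.sub_mem_St hjD (fun a => by rw [← Good_mul, h]) (hh v hv)
      · have h1 := D.sub_mem_St hjD (z := ρ (D.s j * v) y) (fun a => by rw [← Good_mul, h])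
          (hh _ ((D.NJ K).mul_mem (D.s_mem_NJ hj) hv))
        rw [← Good_mul, ← mul_assoc, D.s_mul_s hjD, Good_mul, Good_mul, hh v hv] at h1
        rw [← neg_sub]
        exact (D.St ρ j).neg_mem h1
      · rw [h.2.1, sub_neg_eq_add]
        exact (D.St ρ j).add_mem h h
    have h1 : D.zeta ρ K y - ρ (D.s j) (D.zeta ρ K y) ∈ D.St ρ j := by
      rw [zeta_eq, map_sum, ← Finset.sum_sub_distrib]
      refine (D.St ρ j).sum_mem fun v hv => ?_
      rw [map_smul, ← smul_sub]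
      exact (D.St ρ j).smul_mem _ (hterm v ((Set.Finite.mem_toFinset _).1 hv))
    rw [D.act_zeta hKD (D.s_mem_NJ hj), D.len_s hjD, pow_one, neg_one_smul, sub_neg_eq_add,
      ← two_smul k] at h1
    exact (Submodule.smul_mem_iff _ two_ne_zero).1 h1

theorem Par.good_eta [CharZero k] (Q : D.Par k) : D.Good Q.rep Q.θ Q.J Q.eta :=
  Good.zeta D Q.good_one (Finset.empty_subset _) Q.J_sub

end Datum

end Pool.Agent.Work.MP_bb5f23_al
end

-- merged part: Pool.Agent.Work.MP_bb5f23_al.Pres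
section
/-! The presentation of the module generated by `eta`. -/

namespace Pool.Agent.Work.MP_bb5f23_al

/-- Triangular families are linearly independent: in a nontrivial relation look at an index of
maximal `l`. -/
theorem linearIndependent_of_triangular {k X : Type*} [Field k] {S : Set X} (l : X → ℕ)
    (f : S → X →₀ k) (h1 : ∀ c : S, f c c ≠ 0)
    (h2 : ∀ (c : S) (c' : X), f c c' ≠ 0 → c' = c ∨ l c' < l c) : LinearIndependent k f := by
  classical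
  rw [linearIndependent_iff']
  intro s g hs
  by_contra hne
  push Not at hne
  obtain ⟨i0, hi0, hg0⟩ := hne
  have hne' : (s.filter fun i => g i ≠ 0).Nonempty := ⟨i0, Finset.mem_filter.2 ⟨hi0, hg0⟩⟩
  obtain ⟨c, hc, hmax⟩ := Finset.exists_max_image _ (fun i : S => l i) hne'
  obtain ⟨hcs, hgc⟩ := Finset.mem_filter.1 hc
  have h0 : (∑ i ∈ s, g i • f i) c = 0 := by rw [hs]; rfl
  rw [Finsupp.finsetSum_apply, Finset.sum_eq_single c] at h0
  · rw [Finsupp.smul_apply, smul_eq_mul] at h0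
    exact mul_ne_zero hgc (h1 c) h0
  · intro i hi hic
    rw [Finsupp.smul_apply, smul_eq_mul]
    by_cases hgi : g i = 0
    · rw [hgi, zero_mul]
    by_cases hfi : f i c = 0
    · rw [hfi, mul_zero]
    rcases h2 i c hfi with h | h
    · exact absurd (Subtype.ext h).symm hic
    · exact absurd (hmax i (Finset.mem_filter.2 ⟨hi, hgi⟩)) (not_le.2 h)
  · intro h
    exact absurd hcs h

namespace Datum

variable {F : Type} [Field F] {G : Type*} [Group G] (D : Datum F G) [IsAlgClosed F] [IsFbar F]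
variable {k : Type*} [Field k] [CharZero k] {V : Type*} [AddCommGroup V] [Module k V]
variable {ρ : Representation k G V}

omit [IsFbar F] [CharZero k] in
/-- Right multiplication by `N_J` only changes the sign. -/
theorem Pres_mem_of_mul {θ : D.T →* kˣ} {J : Finset (Fin D.r → ℤ)} {y : V}
    (hy : D.Good ρ θ J y) {W : Submodule k V} {n v : G} (hv : v ∈ D.NJ J)
    (h : ρ (n * v) y ∈ W) : ρ n y ∈ W := by
  rw [map_mul, Module.End.mul_apply, hy.act_NJ D hv, map_smul] at h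
  exact (W.smul_mem_iff (pow_ne_zero _ (neg_ne_zero.2 one_ne_zero))).1 h

/-- The inductive step: a maximal `x` which is not minimal for `J'`. -/
theorem Pres_step (Q : D.Par k) {y : V} (hy : D.Good ρ Q.θ Q.J y) {W : Submodule k V} {x : G}
    (hx : D.MaxRep Q.J x) {j : Fin D.r → ℤ} (hj : j ∈ Q.J') (hneg : D.act x j ∉ D.pos)
    (hz : D.zeta ρ (insert j Q.J) y = 0)
    (ih : ∀ x', D.MaxRep Q.J x' → D.len x' < D.len x → ρ x' y ∈ W) : ρ x y ∈ W := by
  classical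
  have hK : insert j Q.J ⊆ D.Ith Q.θ := Finset.insert_subset (Q.sub hj) Q.J_sub
  have hKD : insert j Q.J ⊆ D.Delta := hK.trans D.Ith_sub
  have hJD : Q.J ⊆ D.Delta := Q.J_sub.trans D.Ith_sub
  have hJK : D.NJ Q.J ≤ D.NJ (insert j Q.J) := D.NJ_mono (Finset.subset_insert _ _)
  have hxK : D.MaxRep (insert j Q.J) x := by
    refine ⟨hx.1, fun i hi => ?_⟩
    rcases Finset.mem_insert.1 hi with rfl | hi
    · exact hneg
    · exact hx.2 i hi
  set A : G → Prop := fun v => ∃ v' ∈ D.NJ Q.J, ∃ t ∈ D.T, v = v' * t with hA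
  set S := (D.NJ_finite (insert j Q.J)).toFinset with hS
  have hterm : ∀ v ∈ S, (-1 : k) ^ D.len v • ρ (x * v) y -
      (if A v then (1 : k) else 0) • ρ x y ∈ W := by
    intro v hv
    have hv' : v ∈ D.NJ (insert j Q.J) := (Set.Finite.mem_toFinset _).1 hv
    have hvN : v ∈ D.N := D.NJ_le_N hKD hv'
    by_cases ha : A v
    · obtain ⟨v', hv1, t, ht, rfl⟩ := id ha
      have htK : t ∈ D.NJ (insert j Q.J) := by
        have := mul_mem (inv_mem (hJK hv1)) hv'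
        rwa [inv_mul_cancel_left] at this
      have hty : ρ t y = y := by
        have := hy.eig ⟨t, ht⟩
        rwa [D.theta_NJ hK htK ht, Units.val_one, one_smul] at this
      rw [if_pos ha, D.len_mul_T (D.NJ_le_N hJD hv1) ht, map_mul, map_mul, Module.End.mul_apply,
        Module.End.mul_apply, hty, hy.act_NJ D hv1, map_smul, smul_smul, ← mul_pow, neg_mul_neg,
        one_mul, one_pow, sub_self]
      exact W.zero_mem
    · rw [if_neg ha, zero_smul, sub_zero]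
      refine W.smul_mem _ ?_
      obtain ⟨w, hw, hmax⟩ := D.exists_maxRep hJD (mul_mem hx.1 hvN)
      refine D.Pres_mem_of_mul hy hw (ih _ hmax ?_)
      have hvw : v * w ∈ D.NJ (insert j Q.J) := mul_mem hv' (hJK hw)
      have h1 := D.len_mul_of_max hKD hxK hvw
      have h2 : D.len (v * w) ≠ 0 := by
        intro h0
        have hT := (D.len_eq_zero_iff (D.NJ_le_N hKD hvw)).1 h0
        exact ha ⟨w⁻¹, inv_mem hw, w * (v * w) * w⁻¹, D.conj_mem_T (D.NJ_le_N hJD hw) hT,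
          by group⟩
      rw [mul_assoc]
      omega
  have hsum := W.sum_mem hterm
  have h0 : ∑ v ∈ S, (-1 : k) ^ D.len v • ρ (x * v) y = 0 := by
    have h1 : ρ x (D.zeta ρ (insert j Q.J) y) = 0 := by rw [hz, map_zero]
    rw [D.zeta_eq, map_sum] at h1
    rw [← h1]
    refine Finset.sum_congr rfl fun v _ => ?_
    rw [map_smul, map_mul, Module.End.mul_apply]
  rw [Finset.sum_sub_distrib, h0, zero_sub, W.neg_mem_iff, ← Finset.sum_smul, Finset.sum_boole]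
    at hsum
  refine (W.smul_mem_iff ?_).1 hsum
  rw [Nat.cast_ne_zero, Finset.card_ne_zero]
  exact ⟨1, Finset.mem_filter.2 ⟨(Set.Finite.mem_toFinset _).2 (one_mem _),
    1, one_mem _, 1, one_mem _, (mul_one 1).symm⟩⟩

/-- Induction on `len n`. Replace `n` by a maximal `x = n v` (`exists_maxRep`, `Good.act_NJ`; do
the induction on the length of such maximal `x`). If `x` is not minimal for `J'` take `j ∈ J'` with
`act x j` negative, `K = insert j J`, so `x` is maximal for `K`; in `0 = ρ x (zeta K y)` the terms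
`v ∈ N_J ⊔ T` (i.e. `v = v' t`, `v' ∈ N_J`) each contribute `ρ x y` (use `theta_NJ` for `K`), and
for the other terms every element of `x v N_J` is shorter than `x` (`len_mul_of_max`,
`len_eq_zero_iff`). -/
theorem Good.mem_span_min (Q : D.Par k) {y : V} (hy : D.Good ρ Q.θ Q.J y)
    (hz : ∀ j ∈ Q.J', D.zeta ρ (insert j Q.J) y = 0) {n : G} (hn : n ∈ D.N) :
    ρ n y ∈ Submodule.span k {v | ∃ x, D.MaxRep Q.J x ∧ D.MinRep Q.J' x ∧ v = ρ x y} := by
  have hJD : Q.J ⊆ D.Delta := Q.J_sub.trans D.Ith_sub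
  have key : ∀ m : ℕ, ∀ x, D.MaxRep Q.J x → D.len x = m →
      ρ x y ∈ Submodule.span k {v | ∃ x, D.MaxRep Q.J x ∧ D.MinRep Q.J' x ∧ v = ρ x y} := by
    intro m
    induction m using Nat.strong_induction_on with
    | _ m ih =>
      intro x hx hm
      by_cases hmin : D.MinRep Q.J' x
      · exact Submodule.subset_span ⟨x, hx, hmin, rfl⟩
      · have : ∃ j ∈ Q.J', D.act x j ∉ D.pos := by
          by_contra hc
          push Not at hc
          exact hmin ⟨hx.1, hc⟩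
        obtain ⟨j, hj, hneg⟩ := this
        exact D.Pres_step Q hy hx hj hneg (hz j hj) fun x' hx' hlt =>
          ih _ (hm ▸ hlt) x' hx' rfl
  obtain ⟨v, hv, hmax⟩ := D.exists_maxRep hJD hn
  exact D.Pres_mem_of_mul hy hv (key _ _ hmax rfl)

/-- Expand `zeta_eq`: terms `v ∈ T` give `vec (u x)` (`theta_NJ`), the others have
`clen ≤ len (x v) < len x`. -/
theorem Par.eta_triangular (Q : D.Par k) {x u : G} (hx : D.MaxRep Q.J x) (hx' : D.MinRep Q.J' x)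
    (hu : u ∈ D.U) : Q.rep (u * x) Q.eta ((u * x : G) : G ⧸ D.P Q.J') ≠ 0 ∧
      ∀ c, Q.rep (u * x) Q.eta c ≠ 0 → c = ((u * x : G) : G ⧸ D.P Q.J') ∨
        D.clen Q.J' c < D.clen Q.J' ((u * x : G) : G ⧸ D.P Q.J') := by
  classical
  have hJD : Q.J ⊆ D.Delta := Q.J_sub.trans D.Ith_sub
  set S := (D.NJ_finite Q.J).toFinset with hS
  have hexp : Q.rep (u * x) Q.eta = ∑ v ∈ S, (-1 : k) ^ D.len v • Q.vec (u * x * v) := by
    rw [Par.eta, D.zeta_eq, map_sum]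
    refine Finset.sum_congr rfl fun v _ => ?_
    rw [map_smul, Q.rep_vec, Q.rep_vec, mul_one]
  have hT : ∀ v ∈ S, v ∈ D.T → (-1 : k) ^ D.len v • Q.vec (u * x * v) = Q.vec (u * x) := by
    intro v hv ht
    have hv' : v ∈ D.NJ Q.J := (Set.Finite.mem_toFinset _).1 hv
    have h1 := Q.vec_mul_T (u * x) ⟨v, ht⟩
    rw [D.theta_NJ Q.J_sub hv' ht, Units.val_one, one_smul] at h1
    rw [(D.len_eq_zero_iff (D.T_le_N ht)).2 ht, pow_zero, one_smul]
    exact h1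
  have hN : ∀ v ∈ S, v ∉ D.T → ∀ c, ((-1 : k) ^ D.len v • Q.vec (u * x * v)) c ≠ 0 →
      D.clen Q.J' c < D.clen Q.J' ((u * x : G) : G ⧸ D.P Q.J') := by
    intro v hv ht c hc
    have hv' : v ∈ D.NJ Q.J := (Set.Finite.mem_toFinset _).1 hv
    have hvN : v ∈ D.N := D.NJ_le_N hJD hv'
    obtain ⟨a, ha⟩ := Q.vec_eq (u * x * v)
    rw [ha, Finsupp.smul_apply, smul_eq_mul] at hc
    have hc' : ((u * x * v : G) : G ⧸ D.P Q.J') = c := by
      by_contra hne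
      rw [Finsupp.single_eq_of_ne (Ne.symm hne), mul_zero] at hc
      exact hc rfl
    have h1 := D.clen_le (J := Q.J') (mul_mem hx.1 hvN) hu
    have h2 := D.len_mul_of_max hJD hx hv'
    have h3 : D.len v ≠ 0 := fun h0 => ht ((D.len_eq_zero_iff hvN).1 h0)
    rw [D.clen_min Q.J'_sub hx' hu, ← hc', mul_assoc]
    omega
  obtain ⟨a, ha⟩ := Q.vec_eq (u * x)
  rw [hexp]
  refine ⟨?_, fun c hc => ?_⟩
  · have h1 : ∀ v ∈ S, ((-1 : k) ^ D.len v • Q.vec (u * x * v)) ((u * x : G) : G ⧸ D.P Q.J') =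
        (if v ∈ D.T then (1 : k) else 0) * a := by
      intro v hv
      by_cases ht : v ∈ D.T
      · rw [hT v hv ht, ha, if_pos ht, Finsupp.single_eq_same, one_mul]
      · rw [if_neg ht, zero_mul]
        by_contra hne
        exact lt_irrefl _ (hN v hv ht _ hne)
    rw [Finsupp.finsetSum_apply, Finset.sum_congr rfl h1, ← Finset.sum_mul, Finset.sum_boole]
    refine mul_ne_zero ?_ a.ne_zero
    rw [Nat.cast_ne_zero, Finset.card_ne_zero]
    exact ⟨1, Finset.mem_filter.2 ⟨(Set.Finite.mem_toFinset _).2 (one_mem _), one_mem _⟩⟩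
  · rw [Finsupp.finsetSum_apply] at hc
    obtain ⟨v, hv, hne⟩ := Finset.exists_ne_zero_of_sum_ne_zero hc
    by_cases ht : v ∈ D.T
    · left
      rw [hT v hv ht, ha] at hne
      by_contra hne'
      exact hne (Finsupp.single_eq_of_ne hne')
    · exact Or.inr (hN v hv ht c hne)

theorem Par.zeta_eta (Q : D.Par k) {j : Fin D.r → ℤ} (hj : j ∈ Q.J') :
    D.zeta Q.rep (insert j Q.J) Q.eta = 0 := by
  have hK : insert j Q.J ⊆ D.Ith Q.θ := Finset.insert_subset (Q.sub hj) Q.J_sub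
  have hKD : insert j Q.J ⊆ D.Delta := hK.trans D.Ith_sub
  have h1 : Q.rep (D.s j) (Q.vec 1) = Q.vec 1 := by
    rw [Q.rep_vec, mul_one, ← one_mul (D.s j), Q.vec_mul_NJ 1 (D.s_mem_NJ hj)]
  rw [Par.eta, D.zeta_zeta hKD (Finset.subset_insert _ _),
    D.zeta_eq_zero hKD (Finset.mem_insert_self _ _) h1, smul_zero]

omit [IsAlgClosed F] [IsFbar F] [CharZero k] in
theorem Pres_prod_apply {V' : Type*} [AddCommGroup V'] [Module k V']
    (ρ' : Representation k G V') (g : G) (y' : V') (y : V) :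
    (ρ'.prod ρ) g (y', y) = (ρ' g y', ρ g y) := rfl

omit [IsAlgClosed F] [IsFbar F] [CharZero k] in
/-- A pair of good vectors is good. -/
theorem Pres_good_prod {V' : Type*} [AddCommGroup V'] [Module k V'] {ρ' : Representation k G V'}
    {θ : D.T →* kˣ} {J : Finset (Fin D.r → ℤ)} {y' : V'} {y : V} (hy' : D.Good ρ' θ J y')
    (hy : D.Good ρ θ J y) : D.Good (ρ'.prod ρ) θ J (y', y) where
  sub := hy.sub
  eig t := by rw [Pres_prod_apply, hy'.eig, hy.eig, Prod.smul_mk]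
  fix γ hγ a := by rw [Pres_prod_apply, hy'.fix γ hγ, hy.fix γ hγ]
  st j hj := by
    obtain ⟨h1, h2, h3⟩ := hy'.st j hj
    obtain ⟨k1, k2, k3⟩ := hy.st j hj
    refine ⟨fun a => ?_, ?_, fun a => ?_⟩
    · rw [Pres_prod_apply, h1, k1]
    · rw [Pres_prod_apply, h2, k2, Prod.neg_mk]
    · rw [Pres_prod_apply, Pres_prod_apply, h3, k3, Prod.mk_sub_mk]

omit [CharZero k] in
theorem Pres_zeta_prod {V' : Type*} [AddCommGroup V'] [Module k V'] (ρ' : Representation k G V')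
    (J : Finset (Fin D.r → ℤ)) (y' : V') (y : V) :
    D.zeta (ρ'.prod ρ) J (y', y) = (D.zeta ρ' J y', D.zeta ρ J y) := by
  refine Prod.ext ?_ ?_
  · exact D.map_zeta (σ := ρ') (LinearMap.fst k V' V) fun _ _ => rfl
  · exact D.map_zeta (σ := ρ) (LinearMap.snd k V' V) fun _ _ => rfl

omit [IsFbar F] [CharZero k] in
/-- Two normal forms of the same coset give proportional vectors. -/
theorem Pres_same_coset {θ : D.T →* kˣ} {J J' : Finset (Fin D.r → ℤ)} (hJ' : J' ⊆ D.Delta)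
    {y : V} (hy : D.Good ρ θ J y) {u x u₁ x₁ : G} (hu : u ∈ D.U) (hu₁ : u₁ ∈ D.U)
    (hx : D.MaxRep J x) (hx' : D.MinRep J' x) (hx₁ : D.MinRep J' x₁)
    (h : ((u * x : G) : G ⧸ D.P J') = (u₁ * x₁ : G)) :
    ∃ a : k, ρ (u₁ * x₁) y = a • ρ (u * x) y := by
  have hp : (u * x)⁻¹ * (u₁ * x₁) ∈ D.P J' := QuotientGroup.eq.1 h
  have huu : u⁻¹ * u₁ ∈ D.U := mul_mem (inv_mem hu) hu₁
  obtain ⟨v, hv, t, ht, hxe⟩ := D.min_cell hJ' hx' huu hx₁.1 hp (by group)
  have hvN : v ∈ D.N := D.NJ_le_N hJ' hv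
  have hl : D.len x = D.len x₁ := by
    rw [← D.clen_min hJ' hx' hu, ← D.clen_min hJ' hx₁ hu₁, h]
  have hl' : D.len x₁ = D.len x + D.len v := by
    rw [hxe, D.len_mul_T (mul_mem hx.1 hvN) ht, D.len_mul_of_min hJ' hx' hv]
  have hvT : v ∈ D.T := (D.len_eq_zero_iff hvN).1 (by omega)
  have hvt : v * t ∈ D.T := mul_mem hvT ht
  have hst : u⁻¹ * u₁ ∈ D.U' x⁻¹ := by
    refine D.stab_min hJ' hx' huu ?_
    have h1 := mul_mem hp (inv_mem (D.B_le_P J' (D.T_le_B hvt)))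
    have h2 : (u * x)⁻¹ * (u₁ * x₁) * (v * t)⁻¹ = x⁻¹ * (u⁻¹ * u₁) * x := by
      rw [hxe]
      group
    rwa [h2] at h1
  refine ⟨θ ⟨v * t, hvt⟩, ?_⟩
  have h3 : u₁ * x₁ = u * (u⁻¹ * u₁ * x * (v * t)) := by
    rw [hxe]
    group
  have h4 : ρ (v * t) y = (θ ⟨v * t, hvt⟩ : k) • y := hy.eig ⟨v * t, hvt⟩
  rw [h3, map_mul, map_mul ρ (u⁻¹ * u₁ * x), Module.End.mul_apply, Module.End.mul_apply, h4,
    map_smul, map_smul, hy.fix_max D hx hst, map_mul, Module.End.mul_apply]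

/-- All translates lie in the span of the normal forms. -/
theorem Pres_span (Q : D.Par k) {y : V} (hy : D.Good ρ Q.θ Q.J y)
    (hz : ∀ j ∈ Q.J', D.zeta ρ (insert j Q.J) y = 0) {W : Submodule k V}
    (hW : ∀ u ∈ D.U, ∀ x, D.MaxRep Q.J x → D.MinRep Q.J' x → ρ (u * x) y ∈ W) (g : G) :
    ρ g y ∈ W := by
  refine (Submodule.span_le.2 ?_) (hy.mem_span D g)
  rintro _ ⟨u, hu, n, hn, rfl⟩
  have h1 : ρ n y ∈ W.comap (ρ u) := by
    refine (Submodule.span_le.2 ?_) (Good.mem_span_min D Q hy hz hn)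
    rintro _ ⟨x, hx, hx', rfl⟩
    have := hW u hu x hx hx'
    rwa [map_mul, Module.End.mul_apply] at this
  rw [map_mul, Module.End.mul_apply]
  exact h1

/-- The pair `d = (eta, y)` is good for `Q.rep.prod ρ` and killed by the `zeta (insert j J)`. By
`Good.mem_span`, `Good.mem_span_min` all `g d` lie in the span of the `u x d` (`u ∈ U`, `x` maximal
for `J`, minimal for `J'`). If `u x P = u₁ x₁ P` then `x₁ = x t` (`min_cell`, `len_mul_of_min`) and
`u⁻¹ u₁ ∈ U' x⁻¹` (`stab_min`), so `u₁ x₁ d ∈ k u x d` (`Good.fix_max`). Choose one pair `(u, x)`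
per coset; the first components are linearly independent (`eta_triangular`), so the first
projection is injective on the span. -/
theorem presentation (Q : D.Par k) {y : V} (hy : D.Good ρ Q.θ Q.J y)
    (hz : ∀ j ∈ Q.J', D.zeta ρ (insert j Q.J) y = 0) (a : G →₀ k) (ha : lc Q.rep Q.eta a = 0) :
    lc ρ y a = 0 := by
  have hd : D.Good (Q.rep.prod ρ) Q.θ Q.J (Q.eta, y) := D.Pres_good_prod (Par.good_eta D Q) hy
  have hdz : ∀ j ∈ Q.J', D.zeta (Q.rep.prod ρ) (insert j Q.J) (Q.eta, y) = 0 := by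
    intro j hj
    rw [D.Pres_zeta_prod, Par.zeta_eta D Q hj, hz j hj]
    rfl
  let S : Set (G ⧸ D.P Q.J') := {c | ∃ p : G × G, p.1 ∈ D.U ∧ D.MaxRep Q.J p.2 ∧
    D.MinRep Q.J' p.2 ∧ ((p.1 * p.2 : G) : G ⧸ D.P Q.J') = c}
  have hS : ∀ c : S, ∃ p : G × G, p.1 ∈ D.U ∧ D.MaxRep Q.J p.2 ∧
    D.MinRep Q.J' p.2 ∧ ((p.1 * p.2 : G) : G ⧸ D.P Q.J') = c := fun c => c.2
  choose p hp1 hp2 hp3 hp4 using hS
  let e : S → ((G ⧸ D.P Q.J') →₀ k) × V := fun c => (Q.rep.prod ρ) ((p c).1 * (p c).2) (Q.eta, y)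
  have hli : LinearIndependent k fun c : S => Q.rep ((p c).1 * (p c).2) Q.eta := by
    refine linearIndependent_of_triangular (D.clen Q.J') _ (fun c => ?_) fun c c' hc => ?_
    · have := (Par.eta_triangular D Q (hp2 c) (hp3 c) (hp1 c)).1
      rwa [hp4 c] at this
    · have := (Par.eta_triangular D Q (hp2 c) (hp3 c) (hp1 c)).2 c' hc
      rwa [hp4 c] at this
  have hall : ∀ g, (Q.rep.prod ρ) g (Q.eta, y) ∈ Submodule.span k (Set.range e) := by
    refine D.Pres_span Q hd hdz fun u hu x hx hx' => ?_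
    let c : S := ⟨((u * x : G) : G ⧸ D.P Q.J'), (u, x), hu, hx, hx', rfl⟩
    obtain ⟨b, hb⟩ := D.Pres_same_coset Q.J'_sub hd (hp1 c) hu (hp2 c) (hp3 c) hx' (hp4 c)
    rw [hb]
    exact Submodule.smul_mem _ _ (Submodule.subset_span ⟨c, rfl⟩)
  have hmem : lc (Q.rep.prod ρ) (Q.eta, y) a ∈ Submodule.span k (Set.range e) := by
    rw [lc, Finsupp.linearCombination_apply]
    exact Submodule.sum_mem _ fun g _ => Submodule.smul_mem _ _ (hall g)
  obtain ⟨b, hb⟩ := (Finsupp.mem_span_range_iff_exists_finsupp).1 hmem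
  have hb' : Finsupp.linearCombination k e b = lc (Q.rep.prod ρ) (Q.eta, y) a := hb
  have h1 : LinearMap.fst k _ V (lc (Q.rep.prod ρ) (Q.eta, y) a) = lc Q.rep Q.eta a := by
    rw [lc, Finsupp.apply_linearCombination]
    rfl
  have h2 : LinearMap.snd k _ V (lc (Q.rep.prod ρ) (Q.eta, y) a) = lc ρ y a := by
    rw [lc, Finsupp.apply_linearCombination]
    rfl
  have hb0 : b = 0 := by
    refine linearIndependent_iff.1 hli b ?_
    rw [← hb', Finsupp.apply_linearCombination, ha] at h1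
    exact h1
  rw [← h2, ← hb', hb0, map_zero, map_zero]

end Datum

end Pool.Agent.Work.MP_bb5f23_al
end

-- merged part: Pool.Agent.Work.MP_bb5f23_al.Soc1a
section
/-! The coefficient space of a submodule of an induced module. -/

namespace Pool.Agent.Work.MP_bb5f23_al

namespace Datum

variable {F : Type} [Field F] {G : Type*} [Group G] {D : Datum F G} [IsAlgClosed F] [IsFbar F]
variable {k : Type*} [Field k] [CharZero k]

section

variable {V : Type*} [AddCommGroup V] [Module k V] (L : D.Tower) (ρ : Representation k G V)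

theorem Soc1a_fin (i : ℕ) : ((D.U ⊓ L.lev i : Subgroup G) : Set G).Finite :=
  (L.lev_fin i).subset fun _ h => h.2

/-- The sum over the finite unipotent group as a linear map. -/
noncomputable def Soc1a_lin (i : ℕ) : V →ₗ[k] V := ∑ u ∈ (Soc1a_fin L i).toFinset, ρ u

theorem Soc1a_sum (i : ℕ) (y : V) :
    L.usum ρ i y = ∑ u ∈ (Soc1a_fin L i).toFinset, ρ u y :=
  finsum_mem_eq_finite_toFinset_sum _ (Soc1a_fin L i)

theorem Soc1a_eq (i : ℕ) (y : V) : L.usum ρ i y = Soc1a_lin L ρ i y := by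
  rw [Soc1a_sum, Soc1a_lin, LinearMap.sum_apply]

theorem Soc1a_mem {i : ℕ} {u : G} : u ∈ (Soc1a_fin L i).toFinset ↔ u ∈ D.U ⊓ L.lev i :=
  Set.Finite.mem_toFinset _

theorem Soc1a_card {H : Subgroup G} (hH : (H : Set G).Finite) :
    Nat.card H = hH.toFinset.card := Nat.card_eq_card_finite_toFinset hH

theorem Soc1a_mul (g h : G) (y : V) : ρ (g * h) y = ρ g (ρ h y) := by
  rw [map_mul, Module.End.mul_apply]

theorem Tower.usum_add (i : ℕ) (y z : V) : L.usum ρ i (y + z) = L.usum ρ i y + L.usum ρ i z := by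
  simp only [Soc1a_eq, map_add]

theorem Tower.usum_smul (i : ℕ) (c : k) (y : V) : L.usum ρ i (c • y) = c • L.usum ρ i y := by
  simp only [Soc1a_eq, map_smul]

theorem Tower.usum_act (i : ℕ) {u : G} (hu : u ∈ D.U ⊓ L.lev i) (y : V) :
    L.usum ρ i (ρ u y) = L.usum ρ i y := by
  rw [Soc1a_sum, Soc1a_sum]
  refine Finset.sum_nbij' (fun v => v * u) (fun v => v * u⁻¹) ?_ ?_ ?_ ?_ ?_
  · intro v hv
    exact (Soc1a_mem L).2 (mul_mem ((Soc1a_mem L).1 hv) hu)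
  · intro v hv
    exact (Soc1a_mem L).2 (mul_mem ((Soc1a_mem L).1 hv) (inv_mem hu))
  · intro v _
    simp
  · intro v _
    simp
  · intro v _
    rw [Soc1a_mul]

theorem Tower.usum_mem (i : ℕ) {W : Submodule k V} (hW : Inv ρ W) {y : V} (hy : y ∈ W) :
    L.usum ρ i y ∈ W := by
  rw [Soc1a_sum]
  exact W.sum_mem fun u _ => hW u hy

theorem Tower.usum_usum {i j : ℕ} (h : i ≤ j) (y : V) :
    L.usum ρ j (L.usum ρ i y) = (Nat.card (D.U ⊓ L.lev i : Subgroup G) : k) • L.usum ρ j y := by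
  rw [Soc1a_sum L ρ i, Soc1a_eq, map_sum, Finset.sum_congr rfl (g := fun _ => L.usum ρ j y),
    Finset.sum_const, Soc1a_card (Soc1a_fin L i), Nat.cast_smul_eq_nsmul]
  intro u hu
  have hu' := (Soc1a_mem L).1 hu
  rw [← Soc1a_eq, Tower.usum_act L ρ j ⟨hu'.1, L.lev_mono h hu'.2⟩]

theorem Tower.usum_of_fix (i : ℕ) {y : V} (h : ∀ u ∈ D.U ⊓ L.lev i, ρ u y = y) :
    L.usum ρ i y = (Nat.card (D.U ⊓ L.lev i : Subgroup G) : k) • y := by
  rw [Soc1a_sum, Finset.sum_congr rfl fun u hu => h u ((Soc1a_mem L).1 hu), Finset.sum_const,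
    Soc1a_card (Soc1a_fin L i), Nat.cast_smul_eq_nsmul]

theorem Tower.T_usum (i : ℕ) {t : G} (ht : t ∈ D.T ⊓ L.lev i) (y : V) :
    ρ t (L.usum ρ i y) = L.usum ρ i (ρ t y) := by
  rw [Soc1a_sum, Soc1a_sum, map_sum]
  refine Finset.sum_nbij' (fun v => t * v * t⁻¹) (fun v => t⁻¹ * v * t⁻¹⁻¹) ?_ ?_ ?_ ?_ ?_
  · intro v hv
    have hv' := (Soc1a_mem L).1 hv
    exact (Soc1a_mem L).2 ⟨D.conj_mem_U ht.1 hv'.1,
      (L.lev i).mul_mem ((L.lev i).mul_mem ht.2 hv'.2) ((L.lev i).inv_mem ht.2)⟩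
  · intro v hv
    have hv' := (Soc1a_mem L).1 hv
    exact (Soc1a_mem L).2 ⟨D.conj_mem_U (D.T.inv_mem ht.1) hv'.1,
      (L.lev i).mul_mem ((L.lev i).mul_mem ((L.lev i).inv_mem ht.2) hv'.2)
        ((L.lev i).inv_mem ((L.lev i).inv_mem ht.2))⟩
  · intro v _
    group
  · intro v _
    group
  · intro v _
    rw [← Soc1a_mul, ← Soc1a_mul, inv_mul_cancel_right]

/-- The map `(u', a) ↦ u' x_α(a)` is a bijection onto the level `i` part of `U` (`decomp`,
`x_mem_U'_iff`), and `s u' s⁻¹` lies in it (`s_conj_U'`). -/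
theorem Tower.usum_s_usum (i : ℕ) {α : Fin D.r → ℤ} (hα : α ∈ D.Delta) (y : V) :
    L.usum ρ i (ρ (D.s α) (L.usum ρ i y)) =
      (Nat.card (D.U' (D.s α) ⊓ L.lev i : Subgroup G) : k) •
        ∑ᶠ a ∈ (L.fld i : Set F), L.usum ρ i (ρ (D.s α * D.x α a) y) := by
  have hU' : ((D.U' (D.s α) ⊓ L.lev i : Subgroup G) : Set G).Finite :=
    (L.lev_fin i).subset fun _ h => h.2
  have m1 : ∀ u, u ∈ hU'.toFinset ↔ u ∈ D.U' (D.s α) ⊓ L.lev i := fun u =>
    Set.Finite.mem_toFinset _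
  have m2 : ∀ a, a ∈ (L.fld_fin i).toFinset ↔ a ∈ L.fld i := fun a => Set.Finite.mem_toFinset _
  rw [finsum_mem_eq_finite_toFinset_sum _ (L.fld_fin i), Soc1a_sum L ρ i y, map_sum, Soc1a_eq,
    map_sum, Soc1a_card hU', Nat.cast_smul_eq_nsmul, ← Finset.sum_const, ← Finset.sum_product']
  symm
  refine Finset.sum_bij (fun p _ => p.1 * D.x α p.2) ?_ ?_ ?_ ?_
  · rintro ⟨u, a⟩ hp
    obtain ⟨h1, h2⟩ := Finset.mem_product.1 hp
    have h1' := (m1 u).1 h1
    exact (Soc1a_mem L).2 ⟨mul_mem (D.U'_le_U _ h1'.1) (D.x_mem_U (D.delta_pos hα) a),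
      mul_mem h1'.2 ((L.x_mem i α hα a).2 ((m2 a).1 h2))⟩
  · rintro ⟨u, a⟩ hp ⟨v, b⟩ hq e
    have hu := ((m1 u).1 (Finset.mem_product.1 hp).1).1
    have hv := ((m1 v).1 (Finset.mem_product.1 hq).1).1
    simp only at e
    have hab : a = b := by
      by_contra hne
      have h3 : D.x α (b - a) = v⁻¹ * u := by
        rw [sub_eq_add_neg, D.x_add, D.x_neg, eq_inv_mul_iff_mul_eq, ← mul_assoc, ← e,
          mul_inv_cancel_right]
      have h4 : D.x α (b - a) ∈ D.U' (D.s α) := h3 ▸ mul_mem (inv_mem hv) hu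
      rw [D.x_mem_U'_iff (D.s_mem_N hα) (D.delta_pos hα) (sub_ne_zero.2 (Ne.symm hne)),
        D.act_s_self hα] at h4
      exact D.neg_not_pos (D.delta_pos hα) h4
    subst hab
    rw [mul_right_cancel e]
  · intro u hu
    obtain ⟨u', h1, a, h2, rfl⟩ := L.decomp i α hα u ((Soc1a_mem L).1 hu)
    exact ⟨(u', a), Finset.mem_product.2 ⟨(m1 u').2 h1, (m2 a).2 h2⟩, rfl⟩
  · rintro ⟨u, a⟩ hp
    have hu := (m1 u).1 (Finset.mem_product.1 hp).1
    have h5 : D.s α * u * (D.s α)⁻¹ ∈ D.U ⊓ L.lev i :=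
      ⟨D.U'_le_U _ (D.s_conj_U' hα hu.1).1,
        (L.lev i).mul_mem ((L.lev i).mul_mem (L.s_mem i α hα) hu.2)
          ((L.lev i).inv_mem (L.s_mem i α hα))⟩
    simp only
    rw [← Soc1a_eq, ← Tower.usum_act L ρ i h5, ← Soc1a_mul, ← Soc1a_mul]
    congr 3
    group

end

namespace Par

variable (Q : D.Par k)

/-- The span of the torus eigenvectors `vec n`. -/
noncomputable def E : Submodule k ((G ⧸ D.P Q.J') →₀ k) := Submodule.span k (Q.vec '' D.N)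

/-- The properties of the raising operator of the simple root `α`. -/
def IsRaise (α : Fin D.r → ℤ) (X : Module.End k ((G ⧸ D.P Q.J') →₀ k)) : Prop :=
  ∀ n ∈ D.N, (¬D.Desc Q.J' α n → X (Q.vec n) = Q.vec (D.s α * n)) ∧
    (D.Desc Q.J' α n → (∀ a, Q.vec (D.h α a * n) = Q.vec n) → X (Q.vec n) = Q.vec n) ∧
    (D.Desc Q.J' α n → ¬(∀ a, Q.vec (D.h α a * n) = Q.vec n) → X (Q.vec n) = 0)

/-- Define `X` on the basis of cosets (`Finsupp.linearCombination`); for `n, n' ∈ N` in the same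
coset `vec n'` is a multiple of `vec n` (`vec_mul`), so the three cases only depend on the coset. -/
theorem exists_raise (α : Fin D.r → ℤ) : ∃ X, Q.IsRaise α X := by
  classical
  refine ⟨Finsupp.linearCombination k fun c : G ⧸ D.P Q.J' =>
    if D.Desc Q.J' α c.out then
      (if ∀ a, Q.rep (D.h α a) (Finsupp.single c 1) = Finsupp.single c 1 then Finsupp.single c 1
        else 0)
    else Q.rep (D.s α) (Finsupp.single c 1), fun n _ => ?_⟩
  obtain ⟨a, ha⟩ := Q.vec_eq n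
  have hd : D.Desc Q.J' α (n : G ⧸ D.P Q.J').out ↔ D.Desc Q.J' α n :=
    D.desc_congr (QuotientGroup.out_eq' _)
  have ha' : Q.vec n = (a : k) • Finsupp.single (n : G ⧸ D.P Q.J') (1 : k) := by
    rw [ha, Finsupp.smul_single, smul_eq_mul, mul_one]
  have hf : (∀ b, Q.rep (D.h α b) (Finsupp.single (n : G ⧸ D.P Q.J') 1) =
      Finsupp.single (n : G ⧸ D.P Q.J') 1) ↔ ∀ b, Q.vec (D.h α b * n) = Q.vec n := by
    refine forall_congr' fun b => ?_
    rw [← Q.rep_vec, ha', map_smul]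
    exact (smul_right_injective _ a.ne_zero).eq_iff.symm
  refine ⟨fun h => ?_, fun h h' => ?_, fun h h' => ?_⟩
  · rw [← Q.rep_vec]
    conv_lhs => rw [ha]
    rw [Finsupp.linearCombination_single, if_neg (mt hd.1 h), ha', map_smul]
  · conv_lhs => rw [ha]
    rw [Finsupp.linearCombination_single, if_pos (hd.2 h), if_pos (hf.2 h'), ha']
  · rw [ha, Finsupp.linearCombination_single, if_pos (hd.2 h), if_neg (mt hf.1 h'), smul_zero]

theorem Soc1a_term {α : Fin D.r → ℤ} (hα : α ∈ D.Delta) {n : G} (hn : n ∈ D.N)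
    (hd : D.Desc Q.J' α n) (a : Fˣ) :
    Q.rep (D.s α * D.x α a) (Q.vec n) =
      Q.rep (D.x α (-(a⁻¹ : Fˣ))) (Q.vec (D.h α (-a⁻¹) * n)) := by
  have h1 := Q.vec_fix_of_not_desc hα (D.N.mul_mem (D.s_mem_N hα) hn)
    (D.not_desc_of_desc hα hn hd) (-(a⁻¹ : Fˣ))
  have h2 : D.s α * D.x α a * n = D.x α (-(a⁻¹ : Fˣ)) * D.h α a⁻¹ * D.s α *
      (D.x α (-(a⁻¹ : Fˣ)) * (D.s α * n)) := by
    rw [← mul_assoc _ (D.x α _), ← D.s_x_rel hα a]
    group
  have h3 : D.x α (-(a⁻¹ : Fˣ)) * D.h α a⁻¹ * D.s α * (D.s α * n) =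
      D.x α (-(a⁻¹ : Fˣ)) * (D.h α (-a⁻¹) * n) := by
    rw [← mul_neg_one a⁻¹, D.h_mul, ← D.s_mul_s hα]
    simp only [mul_assoc]
  rw [Q.rep_vec, h2, ← Q.rep_vec, h1, Q.rep_vec, h3, Q.rep_vec]

theorem Soc1a_vec (L : D.Tower) {α : Fin D.r → ℤ} (hα : α ∈ D.Delta)
    {X : Module.End k ((G ⧸ D.P Q.J') →₀ k)} (hX : Q.IsRaise α X) {n : G} (hn : n ∈ D.N) :
    ∃ i0, ∀ i, i0 ≤ i →
      ∑ a ∈ (L.fld_fin i).toFinset, Soc1a_lin L Q.rep i (Q.rep (D.s α * D.x α a) (Q.vec n)) =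
        Soc1a_lin L Q.rep i
          (((Nat.card (L.fld i) : k) - 1) • X (Q.vec n) + Q.rep (D.s α) (Q.vec n)) := by
  classical
  have hcard : ∀ i, Nat.card (L.fld i) = (L.fld_fin i).toFinset.card := fun i =>
    Nat.card_eq_card_finite_toFinset (L.fld_fin i)
  have hmem : ∀ i a, a ∈ (L.fld_fin i).toFinset ↔ a ∈ L.fld i := fun i a =>
    Set.Finite.mem_toFinset _
  obtain ⟨h1, h2, h3⟩ := hX n hn
  by_cases hd : D.Desc Q.J' α n
  swap
  · refine ⟨0, fun i _ => ?_⟩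
    have : ∀ a, Q.rep (D.s α * D.x α a) (Q.vec n) = Q.vec (D.s α * n) := by
      intro a
      rw [Soc1a_mul, Q.rep_vec, Q.vec_fix_of_not_desc hα hn hd, Q.rep_vec]
    simp only [this]
    rw [h1 hd, Q.rep_vec, Finset.sum_const, ← hcard, sub_smul, one_smul, sub_add_cancel, map_smul,
      Nat.cast_smul_eq_nsmul]
  let w : F → (G ⧸ D.P Q.J') →₀ k := fun a =>
    if h : a = 0 then 0 else Q.vec (D.h α (-(Units.mk0 a h)⁻¹) * n)
  have w0 : w 0 = 0 := by simp [w]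
  have key : ∀ i, ∑ a ∈ (L.fld_fin i).toFinset,
      Soc1a_lin L Q.rep i (Q.rep (D.s α * D.x α a) (Q.vec n)) =
      Soc1a_lin L Q.rep i (∑ a ∈ (L.fld_fin i).toFinset, w a + Q.rep (D.s α) (Q.vec n)) := by
    intro i
    have z : (0 : F) ∈ (L.fld_fin i).toFinset := (hmem i 0).2 (L.fld i).zero_mem
    rw [map_add, map_sum, ← Finset.sum_erase_add _ _ z, ← Finset.sum_erase_add _ _ z, w0,
      map_zero, add_zero, D.x_zero, mul_one]
    congr 1
    refine Finset.sum_congr rfl fun a ha => ?_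
    obtain ⟨a0, ha⟩ := Finset.mem_erase.1 ha
    have := Q.Soc1a_term hα hn hd (Units.mk0 a a0)
    rw [Units.val_mk0] at this
    rw [this, ← Soc1a_eq, ← Soc1a_eq, Tower.usum_act]
    · simp only [w, dif_neg a0]
    · refine ⟨D.x_mem_U (D.delta_pos hα) _, (L.x_mem i α hα _).2 ?_⟩
      rw [Units.val_inv_eq_inv_val, Units.val_mk0]
      exact (L.fld i).neg_mem ((L.fld i).inv_mem ((hmem i a).1 ha))
  by_cases hf : ∀ a, Q.vec (D.h α a * n) = Q.vec n
  · refine ⟨0, fun i _ => ?_⟩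
    have z : (0 : F) ∈ (L.fld_fin i).toFinset := (hmem i 0).2 (L.fld i).zero_mem
    rw [key, h2 hd hf, ← Finset.sum_erase_add _ _ z, w0, add_zero]
    congr 2
    rw [Finset.sum_congr rfl (g := fun _ => Q.vec n), Finset.sum_const, Finset.card_erase_of_mem z,
      ← Nat.cast_smul_eq_nsmul k, Nat.cast_sub (Finset.card_pos.2 ⟨0, z⟩), hcard, Nat.cast_one]
    intro a ha
    simp only [w, dif_neg (Finset.mem_erase.1 ha).1, hf]
  · rw [h3 hd hf]
    push Not at hf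
    obtain ⟨b, hb⟩ := hf
    obtain ⟨i0, hi0⟩ := L.fld_ex b
    refine ⟨i0, fun i hi => ?_⟩
    have hbi : (b : F) ∈ L.fld i := L.fld_mono hi hi0
    have ht : n⁻¹ * D.h α b * n⁻¹⁻¹ ∈ D.T := D.conj_mem_T (D.N.inv_mem hn) (D.h_mem α b)
    set c : k := (Q.θ ⟨_, ht⟩ : k) with hc
    have hbc : Q.vec (D.h α b * n) = c • Q.vec n := by
      rw [hc, ← Q.vec_mul_T n ⟨_, ht⟩]
      congr 1
      simp only [inv_inv]
      group
    have hc1 : c ≠ 1 := by
      intro e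
      rw [e, one_smul] at hbc
      exact hb hbc
    have hw : ∀ a, w (a * (b : F)⁻¹) = c • w a := by
      intro a
      by_cases a0 : a = 0
      · rw [a0, zero_mul, w0, smul_zero]
      · have a1 : a * (b : F)⁻¹ ≠ 0 := mul_ne_zero a0 (inv_ne_zero b.ne_zero)
        have e : -(Units.mk0 _ a1)⁻¹ = -(Units.mk0 a a0)⁻¹ * b := by
          ext
          simp [mul_comm]
        simp only [w, dif_neg a0, dif_neg a1]
        rw [e, D.h_mul, mul_assoc, ← Q.rep_vec, hbc, map_smul, Q.rep_vec]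
    have hS : ∑ a ∈ (L.fld_fin i).toFinset, w (a * (b : F)⁻¹) =
        ∑ a ∈ (L.fld_fin i).toFinset, w a := by
      refine Finset.sum_nbij' (fun a => a * (b : F)⁻¹) (fun a => a * b) ?_ ?_ ?_ ?_ ?_
      · intro a ha
        exact (hmem i _).2 ((L.fld i).mul_mem ((hmem i a).1 ha) ((L.fld i).inv_mem hbi))
      · intro a ha
        exact (hmem i _).2 ((L.fld i).mul_mem ((hmem i a).1 ha) hbi)
      · intro a _
        simp
      · intro a _
        simp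
      · intro a _
        rfl
    simp only [hw] at hS
    rw [← Finset.smul_sum] at hS
    have hz : ∑ a ∈ (L.fld_fin i).toFinset, w a = 0 := by
      have : (c - 1) • ∑ a ∈ (L.fld_fin i).toFinset, w a = 0 := by
        rw [sub_smul, hS, one_smul, sub_self]
      exact (smul_eq_zero.1 this).resolve_left (sub_ne_zero.2 hc1)
    rw [key, hz, smul_zero]

/-- With `q = Nat.card (fld i)`. If `α` is not a descent every term is `usum (vec (s n))`
(`vec_fix_of_not_desc`). Otherwise for `a ≠ 0`, by `s_x_rel` and `vec_fix_of_not_desc` for `s n`,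
`s x(a) vec n = x(-1/a) vec (h(-1/a) n)`, and `vec (h b n) = ψ b • vec n` for a character `ψ` of
`Fˣ`; its sum over the units of `fld i` is `q - 1` if `ψ = 1`, and `0` as soon as `fld i` contains
a `b` with `ψ b ≠ 1` (`sum_hom_units`). -/
theorem sum_s_x (L : D.Tower) {α : Fin D.r → ℤ} (hα : α ∈ D.Delta)
    {X : Module.End k ((G ⧸ D.P Q.J') →₀ k)} (hX : Q.IsRaise α X) {y : (G ⧸ D.P Q.J') →₀ k}
    (hy : y ∈ Q.E) : ∃ i0, ∀ i, i0 ≤ i →
      ∑ᶠ a ∈ (L.fld i : Set F), L.usum Q.rep i (Q.rep (D.s α * D.x α a) y) =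
        L.usum Q.rep i (((Nat.card (L.fld i) : k) - 1) • X y + Q.rep (D.s α) y) := by
  simp only [finsum_mem_eq_finite_toFinset_sum _ (L.fld_fin _), Soc1a_eq]
  induction hy using Submodule.span_induction with
  | mem y hy =>
    obtain ⟨n, hn, rfl⟩ := hy
    exact Q.Soc1a_vec L hα hX hn
  | zero => exact ⟨0, fun i _ => by simp⟩
  | add y z _ _ h1 h2 =>
    obtain ⟨i1, h1⟩ := h1
    obtain ⟨i2, h2⟩ := h2
    refine ⟨max i1 i2, fun i hi => ?_⟩
    simp only [map_add (Q.rep _) y z, map_add X y z]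
    rw [Finset.sum_congr rfl fun a _ => map_add _ _ _, Finset.sum_add_distrib,
      h1 i (le_of_max_le_left hi), h2 i (le_of_max_le_right hi), ← map_add]
    congr 1
    rw [smul_add]
    abel
  | smul c y _ h1 =>
    obtain ⟨i1, h1⟩ := h1
    refine ⟨i1, fun i hi => ?_⟩
    simp only [map_smul (Q.rep _) c y, map_smul X c y]
    rw [Finset.sum_congr rfl fun a _ => map_smul _ _ _, ← Finset.smul_sum, h1 i hi, ← map_smul,
      smul_add, smul_comm c]

end Par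

end Datum

end Pool.Agent.Work.MP_bb5f23_al
end

-- merged part: Pool.Agent.Work.MP_bb5f23_al.Soc1
section
/-! The coefficient space of a submodule of an induced module. -/

namespace Pool.Agent.Work.MP_bb5f23_al

namespace Datum

variable {F : Type} [Field F] {G : Type*} [Group G] {D : Datum F G} [IsAlgClosed F] [IsFbar F]
variable {k : Type*} [Field k] [CharZero k]

section

variable {V : Type*} [AddCommGroup V] [Module k V] (L : D.Tower) (ρ : Representation k G V)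

omit [IsAlgClosed F] [IsFbar F] in
theorem Soc1_card_ne (H : Subgroup G) (i : ℕ) :
    (Nat.card (H ⊓ L.lev i : Subgroup G) : k) ≠ 0 := by
  have : Finite (H ⊓ L.lev i : Subgroup G) :=
    ((L.lev_fin i).subset (fun _ h => h.2)).to_subtype
  exact Nat.cast_ne_zero.2 Nat.card_pos.ne'

theorem Soc1_up {K : Submodule k V} (hK : Inv ρ K) {i j : ℕ} (hij : i ≤ j) {y : V}
    (h : L.usum ρ i y ∈ K) : L.usum ρ j y ∈ K := by
  have h1 := L.usum_mem ρ j hK h
  rw [L.usum_usum ρ hij] at h1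
  exact (K.smul_mem_iff (Soc1_card_ne L D.U i)).1 h1

theorem Soc1_usum_zero (i : ℕ) : L.usum ρ i 0 = 0 := by
  have := L.usum_smul ρ i 0 0
  simpa using this

/-- The vectors with a level sum in `K`. -/
def Soc1_coef {K : Submodule k V} (hK : Inv ρ K) : Submodule k V where
  carrier := {y | ∃ i, L.usum ρ i y ∈ K}
  add_mem' := by
    rintro y z ⟨i, hi⟩ ⟨j, hj⟩
    refine ⟨max i j, ?_⟩
    rw [L.usum_add]
    exact K.add_mem (Soc1_up L ρ hK (le_max_left _ _) hi) (Soc1_up L ρ hK (le_max_right _ _) hj)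
  zero_mem' := ⟨0, by rw [Soc1_usum_zero]; exact K.zero_mem⟩
  smul_mem' := by
    rintro c y ⟨i, hi⟩
    exact ⟨i, by rw [L.usum_smul]; exact K.smul_mem c hi⟩

theorem Soc1_mem_coef {K : Submodule k V} (hK : Inv ρ K) {y : V} :
    y ∈ Soc1_coef L ρ hK ↔ ∃ i, L.usum ρ i y ∈ K := Iff.rfl

omit [IsFbar F] in
theorem Soc1_exists_card (i : ℕ) : ∃ j, i ≤ j ∧ Nat.card (L.fld i) ≠ Nat.card (L.fld j) := by
  obtain ⟨a, ha⟩ := (L.fld_fin i).exists_notMem
  obtain ⟨j, hj⟩ := L.fld_ex a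
  refine ⟨max i j, le_max_left _ _, ?_⟩
  have h1 : (L.fld i : Set F) ⊂ L.fld (max i j) :=
    ⟨L.fld_mono (le_max_left _ _), fun h => ha (h (L.fld_mono (le_max_right _ _) hj))⟩
  exact (Set.ncard_lt_ncard h1 (L.fld_fin _)).ne

omit [IsAlgClosed F] [IsFbar F] in
theorem Soc1_exists_lev {S : Set G} (hS : S.Finite) : ∃ i, S ⊆ L.lev i := by
  induction S, hS using Set.Finite.induction_on with
  | empty => exact ⟨0, Set.empty_subset _⟩
  | @insert a s _ _ ih =>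
    obtain ⟨i, hi⟩ := ih
    obtain ⟨j, hj⟩ := L.lev_ex a
    exact ⟨max i j, Set.insert_subset (L.lev_mono (le_max_right _ _) hj)
      (hi.trans (L.lev_mono (le_max_left _ _)))⟩

end

namespace Par

variable (Q : D.Par k)

omit [IsAlgClosed F] [IsFbar F] [CharZero k] in
theorem Soc1_vec_mem {n : G} (hn : n ∈ D.N) : Q.vec n ∈ Q.E :=
  Submodule.subset_span ⟨n, hn, rfl⟩

omit [IsAlgClosed F] [IsFbar F] [CharZero k] in
theorem Soc1_map_E (f : Module.End k ((G ⧸ D.P Q.J') →₀ k)) (hf : ∀ n ∈ D.N, f (Q.vec n) ∈ Q.E)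
    {y : (G ⧸ D.P Q.J') →₀ k} (hy : y ∈ Q.E) : f y ∈ Q.E := by
  have : Q.E ≤ Q.E.comap f := by
    refine Submodule.span_le.2 ?_
    rintro _ ⟨n, hn, rfl⟩
    exact hf n hn
  exact this hy

omit [IsAlgClosed F] [IsFbar F] [CharZero k] in
theorem Soc1_rep_E {m : G} (hm : m ∈ D.N) {y : (G ⧸ D.P Q.J') →₀ k} (hy : y ∈ Q.E) :
    Q.rep m y ∈ Q.E :=
  Q.Soc1_map_E (Q.rep m) (fun n hn => by
    rw [Q.rep_vec]; exact Q.Soc1_vec_mem (D.N.mul_mem hm hn)) hy

omit [IsAlgClosed F] [IsFbar F] [CharZero k] in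
theorem Soc1_raise_E {α : Fin D.r → ℤ} (hα : α ∈ D.Delta)
    {X : Module.End k ((G ⧸ D.P Q.J') →₀ k)} (hX : Q.IsRaise α X)
    {y : (G ⧸ D.P Q.J') →₀ k} (hy : y ∈ Q.E) : X y ∈ Q.E := by
  refine Q.Soc1_map_E X (fun n hn => ?_) hy
  obtain ⟨h1, h2, h3⟩ := hX n hn
  by_cases hd : D.Desc Q.J' α n
  · by_cases hh : ∀ a, Q.vec (D.h α a * n) = Q.vec n
    · rw [h2 hd hh]
      exact Q.Soc1_vec_mem hn
    · rw [h3 hd hh]
      exact Q.E.zero_mem
  · rw [h1 hd]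
    exact Q.Soc1_vec_mem (D.N.mul_mem (D.s_mem_N hα) hn)

theorem Soc1_usum_span (L : D.Tower) (i : ℕ) {w : (G ⧸ D.P Q.J') →₀ k}
    (hw : w ∈ Submodule.span k (Q.vec '' (L.lev i : Set G))) :
    ∃ y ∈ Q.E, L.usum Q.rep i w = L.usum Q.rep i y := by
  induction hw using Submodule.span_induction with
  | mem x hx =>
    obtain ⟨g, hg, rfl⟩ := hx
    obtain ⟨u, hu, n, hn, b, hb, rfl⟩ := L.bruhat i g hg
    refine ⟨Q.vec (n * b), ?_, ?_⟩
    · rw [Q.vec_mul n b (D.B_le_P _ hb)]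
      exact Q.E.smul_mem _ (Q.Soc1_vec_mem hn)
    · rw [mul_assoc, ← Q.rep_vec u, L.usum_act Q.rep i hu]
  | zero => exact ⟨0, Q.E.zero_mem, rfl⟩
  | add x y _ _ hx hy =>
    obtain ⟨x', hx', ex⟩ := hx
    obtain ⟨y', hy', ey⟩ := hy
    exact ⟨x' + y', Q.E.add_mem hx' hy', by rw [L.usum_add, L.usum_add, ex, ey]⟩
  | smul c x _ hx =>
    obtain ⟨x', hx', ex⟩ := hx
    exact ⟨c • x', Q.E.smul_mem c hx', by rw [L.usum_smul, L.usum_smul, ex]⟩

theorem Soc1_ne_bot (L : D.Tower) {K : Submodule k ((G ⧸ D.P Q.J') →₀ k)} (hK : Inv Q.rep K)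
    (h : K ≠ ⊥) : ∃ y ∈ Q.E, y ≠ 0 ∧ ∃ i, L.usum Q.rep i y ∈ K := by
  obtain ⟨v, hvK, hv0⟩ := Submodule.exists_mem_ne_zero_of_ne_bot h
  have hv : v ∈ Submodule.span k (Q.vec '' Set.univ) := by
    rw [Set.image_univ, Q.span_vec]
    trivial
  obtain ⟨T, hT, hvT⟩ := Submodule.mem_span_finite_of_mem_span hv
  obtain ⟨S, -, hSf, hST⟩ := Set.Finite.exists_subset_finite_image_eq T.finite_toSet hT
  obtain ⟨i, hi⟩ := Soc1_exists_lev L hSf
  have hvS : v ∈ Submodule.span k (Q.vec '' (L.lev i : Set G)) :=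
    Submodule.span_mono (hST ▸ Set.image_mono hi) hvT
  have hstab : ∀ g ∈ L.lev i, ∀ w ∈ Submodule.span k (Q.vec '' (L.lev i : Set G)),
      Q.rep g w ∈ Submodule.span k (Q.vec '' (L.lev i : Set G)) := by
    intro g hg
    have : Submodule.span k (Q.vec '' (L.lev i : Set G)) ≤
        (Submodule.span k (Q.vec '' (L.lev i : Set G))).comap (Q.rep g) := by
      refine Submodule.span_le.2 ?_
      rintro _ ⟨g', hg', rfl⟩
      refine Submodule.subset_span ⟨g * g', (L.lev i).mul_mem hg hg', ?_⟩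
      rw [Q.rep_vec]
    exact fun w hw => this hw
  obtain ⟨π, h1, h2, h3⟩ := exists_equivariant_retraction Q.rep (L.lev i) (L.lev_fin i)
    (K ⊓ Submodule.span k (Q.vec '' (L.lev i : Set G)))
    (fun g hg w hw => ⟨hK g hw.1, hstab g hg w hw.2⟩)
  have hz0 : π (Q.vec 1) ≠ 0 := by
    intro hz
    have : Submodule.span k (Q.vec '' (L.lev i : Set G)) ≤ LinearMap.ker π := by
      refine Submodule.span_le.2 ?_
      rintro _ ⟨g, hg, rfl⟩
      have := h3 g hg (Q.vec 1)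
      rw [Q.rep_vec, mul_one, hz, map_zero] at this
      exact this
    have h4 : π v = 0 := this hvS
    exact hv0 ((h2 v ⟨hvK, hvS⟩).symm.trans h4)
  have hfix : ∀ u ∈ D.U ⊓ L.lev i, Q.rep u (π (Q.vec 1)) = π (Q.vec 1) := by
    intro u hu
    rw [← h3 u hu.2, Q.rep_vec, mul_one]
    have := Q.vec_mul_U 1 hu.1
    rw [one_mul] at this
    rw [this]
  obtain ⟨y, hyE, hy⟩ := Q.Soc1_usum_span L i (h1 (Q.vec 1)).2
  refine ⟨y, hyE, ?_, i, hy ▸ L.usum_mem Q.rep i hK (h1 _).1⟩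
  rintro rfl
  rw [Soc1_usum_zero, L.usum_of_fix Q.rep i hfix] at hy
  exact hz0 ((smul_eq_zero.1 hy).resolve_left (Soc1_card_ne L D.U i))

theorem Soc1_step (L : D.Tower) {K : Submodule k ((G ⧸ D.P Q.J') →₀ k)} (hK : Inv Q.rep K)
    {α : Fin D.r → ℤ} (hα : α ∈ D.Delta) {X : Module.End k ((G ⧸ D.P Q.J') →₀ k)}
    (hX : Q.IsRaise α X) {y : (G ⧸ D.P Q.J') →₀ k} (hyE : y ∈ Q.E)
    (hy : y ∈ Soc1_coef L Q.rep hK) :
    X y ∈ Soc1_coef L Q.rep hK ∧ Q.rep (D.s α) y ∈ Soc1_coef L Q.rep hK := by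
  obtain ⟨i1, hi1⟩ := hy
  obtain ⟨i0, hi0⟩ := Q.sum_s_x L hα hX hyE
  have key : ∀ i, max i0 i1 ≤ i →
      ((Nat.card (L.fld i) : k) - 1) • X y + Q.rep (D.s α) y ∈ Soc1_coef L Q.rep hK := by
    intro i hi
    refine ⟨i, ?_⟩
    have h1 : L.usum Q.rep i y ∈ K := Soc1_up L Q.rep hK ((le_max_right _ _).trans hi) hi1
    have h2 := L.usum_mem Q.rep i hK (hK (D.s α) h1)
    rw [L.usum_s_usum Q.rep i hα, hi0 i ((le_max_left _ _).trans hi)] at h2
    exact (K.smul_mem_iff (Soc1_card_ne L _ i)).1 h2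
  obtain ⟨j, hj, hne⟩ := Soc1_exists_card L (max i0 i1)
  have h1 := key _ le_rfl
  have h2 := key j hj
  have h3 := (Soc1_coef L Q.rep hK).sub_mem h1 h2
  rw [add_sub_add_right_eq_sub, ← sub_smul, sub_sub_sub_cancel_right] at h3
  have h4 : X y ∈ Soc1_coef L Q.rep hK :=
    (Submodule.smul_mem_iff _ (sub_ne_zero.2 (Nat.cast_injective.ne hne))).1 h3
  refine ⟨h4, ?_⟩
  have h5 := (Soc1_coef L Q.rep hK).sub_mem h1
    ((Soc1_coef L Q.rep hK).smul_mem ((Nat.card (L.fld (max i0 i1)) : k) - 1) h4)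
  rwa [add_sub_cancel_left] at h5

/-- `𝒦 = {y ∈ E | ∃ i, usum i y ∈ K}` (a subspace by `usum_usum`). Nonzero: take `0 ≠ v ∈ K`,
`i` with `v ∈ S = span (vec '' lev i)`, an equivariant retraction `π` onto `K ⊓ S`
(`exists_equivariant_retraction`); `π (vec 1) ≠ 0` is fixed by the level `i` part of `U`, and by
`Tower.bruhat` it is a multiple of `usum i y` with `y ∈ E`. Stable under `T` (`T_usum`). For two
large levels with different `q`, `(q - 1) X y + s y ∈ 𝒦`; so `X y, s y ∈ 𝒦`. Then `N_induction`. -/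
theorem exists_coeff (L : D.Tower) {K : Submodule k ((G ⧸ D.P Q.J') →₀ k)} (hK : Inv Q.rep K)
    (h : K ≠ ⊥) : ∃ C : Submodule k ((G ⧸ D.P Q.J') →₀ k), C ≠ ⊥ ∧ C ≤ Q.E ∧
      (∀ n ∈ D.N, ∀ y ∈ C, Q.rep n y ∈ C) ∧
      (∀ α ∈ D.Delta, ∃ X, Q.IsRaise α X ∧ ∀ y ∈ C, X y ∈ C) ∧
      ∀ y ∈ C, ∃ i, L.usum Q.rep i y ∈ K := by
  refine ⟨Q.E ⊓ Soc1_coef L Q.rep hK, ?_, inf_le_left, ?_, ?_, fun y hy => hy.2⟩
  · obtain ⟨y, hyE, hy0, hy⟩ := Q.Soc1_ne_bot L hK h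
    exact (Submodule.ne_bot_iff _).2 ⟨y, ⟨hyE, hy⟩, hy0⟩
  · intro n hn
    refine D.N_induction (p := fun m => ∀ y ∈ Q.E ⊓ Soc1_coef L Q.rep hK,
      Q.rep m y ∈ Q.E ⊓ Soc1_coef L Q.rep hK) ?_ ?_ hn
    · rintro t ht y ⟨hyE, i, hi⟩
      obtain ⟨j, hj⟩ := L.lev_ex t
      refine ⟨Q.Soc1_rep_E (D.T_le_N ht) hyE, max i j, ?_⟩
      rw [← L.T_usum Q.rep _ ⟨ht, L.lev_mono (le_max_right _ _) hj⟩]
      exact hK t (Soc1_up L Q.rep hK (le_max_left _ _) hi)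
    · intro α hα m _ ih y hy
      obtain ⟨X, hX⟩ := Q.exists_raise α
      have h1 := ih y hy
      rw [map_mul, Module.End.mul_apply]
      exact ⟨Q.Soc1_rep_E (D.s_mem_N hα) h1.1, (Q.Soc1_step L hK hα hX h1.1 h1.2).2⟩
  · intro α hα
    obtain ⟨X, hX⟩ := Q.exists_raise α
    exact ⟨X, hX, fun y hy => ⟨Q.Soc1_raise_E hα hX hy.1, (Q.Soc1_step L hK hα hX hy.1 hy.2).1⟩⟩

end Par

end Datum

end Pool.Agent.Work.MP_bb5f23_al
end

-- merged part: Pool.Agent.Work.MP_bb5f23_al.Soc2a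
section
/-! The socle of the coefficient space. -/

namespace Pool.Agent.Work.MP_bb5f23_al

namespace Datum

variable {F : Type} [Field F] {G : Type*} [Group G] {D : Datum F G} [IsAlgClosed F] [IsFbar F]
variable {k : Type*} [Field k] [CharZero k]

namespace Par

variable (Q : D.Par k)

omit [IsAlgClosed F] [IsFbar F] [CharZero k] in
theorem Soc2a_rep_apply (g : G) (y : (G ⧸ D.P Q.J') →₀ k) (c : G ⧸ D.P Q.J') :
    Q.rep g y (g • c) = (Q.coc.c g c : k) * y c := by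
  classical
  induction y using Finsupp.induction_linear with
  | zero => simp
  | add f f' hf hf' => simp only [map_add, Finsupp.add_apply, hf, hf', mul_add]
  | single x a =>
    rw [rep, Cocycle.rep_single, Finsupp.single_apply, Finsupp.single_apply]
    by_cases h : x = c
    · subst h
      simp
    · rw [if_neg h, if_neg fun h' => h (smul_left_cancel g h'), mul_zero]

omit [IsAlgClosed F] [IsFbar F] [CharZero k] in
theorem Soc2a_mem_support (g : G) (y : (G ⧸ D.P Q.J') →₀ k) (c : G ⧸ D.P Q.J') :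
    g • c ∈ (Q.rep g y).support ↔ c ∈ y.support := by
  simp [Finsupp.mem_support_iff, Soc2a_rep_apply]

omit [IsAlgClosed F] [IsFbar F] [CharZero k] in
theorem Soc2a_mem {W : Submodule k ((G ⧸ D.P Q.J') →₀ k)} {y : (G ⧸ D.P Q.J') →₀ k}
    (h : ∀ c ∈ y.support, ∃ g : G, (g : G ⧸ D.P Q.J') = c ∧ Q.vec g ∈ W) : y ∈ W := by
  rw [← Finsupp.sum_single y, Finsupp.sum]
  refine W.sum_mem fun c hc => ?_
  obtain ⟨g, rfl, hg⟩ := h c hc
  obtain ⟨a, ha⟩ := Q.vec_eq g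
  have h1 : Finsupp.single (g : G ⧸ D.P Q.J') (y g) = (y g * (a⁻¹ : kˣ)) • Q.vec g := by
    rw [ha, Finsupp.smul_single, smul_eq_mul, mul_assoc, Units.inv_mul, mul_one]
  rw [h1]
  exact W.smul_mem _ hg

omit [IsAlgClosed F] [IsFbar F] [CharZero k] in
theorem Soc2a_vec_supported {S : Set (G ⧸ D.P Q.J')} {g : G} (h : (g : G ⧸ D.P Q.J') ∈ S) :
    Q.vec g ∈ Finsupp.supported k k S := by
  obtain ⟨a, ha⟩ := Q.vec_eq g
  rw [ha]
  exact Finsupp.single_mem_supported k _ h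

omit [IsAlgClosed F] [IsFbar F] [CharZero k] in
theorem Soc2a_supp {y : (G ⧸ D.P Q.J') →₀ k} (hy : y ∈ Q.E) {c : G ⧸ D.P Q.J'}
    (hc : c ∈ y.support) : ∃ n ∈ D.N, (n : G ⧸ D.P Q.J') = c := by
  have h : Q.E ≤ Finsupp.supported k k {c | ∃ n ∈ D.N, (n : G ⧸ D.P Q.J') = c} := by
    refine Submodule.span_le.2 ?_
    rintro _ ⟨n, hn, rfl⟩
    exact Q.Soc2a_vec_supported ⟨n, hn, rfl⟩
  exact (Finsupp.mem_supported k y).1 (h hy) hc

omit [IsAlgClosed F] [IsFbar F] [CharZero k] in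
theorem Soc2a_T_fix {y : (G ⧸ D.P Q.J') →₀ k} (hy : y ∈ Q.E) {c : G ⧸ D.P Q.J'}
    (hc : c ∈ y.support) {t : G} (ht : t ∈ D.T) : t • c = c := by
  obtain ⟨n, hn, rfl⟩ := Q.Soc2a_supp hy hc
  change ((t * n : G) : G ⧸ D.P Q.J') = n
  rw [eq_comm, QuotientGroup.eq]
  have h := D.conj_mem_T (inv_mem hn) ht
  rw [inv_inv, mul_assoc] at h
  exact D.B_le_P _ (D.T_le_B h)

/-- The size function that is minimised. -/
noncomputable def Soc2a_mu (y : (G ⧸ D.P Q.J') →₀ k) : ℕ :=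
  ∑ c ∈ y.support, (1 + D.clen Q.J' c)

omit [IsAlgClosed F] [IsFbar F] [CharZero k] in
theorem Soc2a_mu_lt {y z : (G ⧸ D.P Q.J') →₀ k} (φ : G ⧸ D.P Q.J' → G ⧸ D.P Q.J')
    (h : z ∈ Finsupp.supported k k (φ '' y.support))
    (h1 : ∀ c ∈ y.support, D.clen Q.J' (φ c) ≤ D.clen Q.J' c)
    (h2 : ∃ c ∈ y.support, D.clen Q.J' (φ c) < D.clen Q.J' c) :
    Q.Soc2a_mu z < Q.Soc2a_mu y := by
  classical
  have h3 : z.support ⊆ y.support.image φ := fun c hc => by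
    have h4 := (Finsupp.mem_supported k z).1 h hc
    rw [← Finset.coe_image] at h4
    exact h4
  calc Q.Soc2a_mu z ≤ ∑ c ∈ y.support.image φ, (1 + D.clen Q.J' c) :=
        Finset.sum_le_sum_of_subset h3
    _ ≤ ∑ c ∈ y.support, (1 + D.clen Q.J' (φ c)) :=
        Finset.sum_image_le_of_nonneg fun _ _ => Nat.zero_le _
    _ < Q.Soc2a_mu y := by
        obtain ⟨c, hc, hlt⟩ := h2
        exact Finset.sum_lt_sum (fun c hc => Nat.add_le_add_left (h1 c hc) 1)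
          ⟨c, hc, Nat.add_lt_add_left hlt 1⟩

omit [IsAlgClosed F] [IsFbar F] [CharZero k] in
/-- A minimal vector has the same weight at all the points of its support. -/
theorem Soc2a_eig {C : Submodule k ((G ⧸ D.P Q.J') →₀ k)} (hE : C ≤ Q.E)
    (hN : ∀ n ∈ D.N, ∀ y ∈ C, Q.rep n y ∈ C) {y : (G ⧸ D.P Q.J') →₀ k} (hy : y ∈ C)
    (hmin : ∀ z ∈ C, Q.Soc2a_mu z < Q.Soc2a_mu y → z = 0) {t : G} (ht : t ∈ D.T)
    {c c' : G ⧸ D.P Q.J'} (hc : c ∈ y.support) (hc' : c' ∈ y.support) :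
    Q.coc.c t c = Q.coc.c t c' := by
  classical
  have hval : ∀ x ∈ y.support, Q.rep t y x = (Q.coc.c t x : k) * y x := fun x hx => by
    conv_lhs => rw [← Q.Soc2a_T_fix (hE hy) hx ht]
    exact Q.Soc2a_rep_apply t y x
  have hz : Q.rep t y - (Q.coc.c t c : k) • y = 0 := by
    refine hmin _ (C.sub_mem (hN t (D.T_le_N ht) y hy) (C.smul_mem _ hy)) ?_
    have hsub : (Q.rep t y - (Q.coc.c t c : k) • y).support ⊆ y.support.erase c := by
      intro x hx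
      rw [Finsupp.mem_support_iff, Finsupp.sub_apply, Finsupp.smul_apply, smul_eq_mul] at hx
      rw [Finset.mem_erase]
      constructor
      · rintro rfl
        exact hx (by rw [hval _ hc, sub_self])
      · by_contra hx'
        have h1 : t⁻¹ • x ∉ y.support := fun h2 => by
          have h3 := Q.Soc2a_T_fix (hE hy) h2 ht
          rw [smul_inv_smul] at h3
          exact hx' (h3 ▸ h2)
        rw [← Q.Soc2a_mem_support t, smul_inv_smul, Finsupp.notMem_support_iff] at h1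
        rw [Finsupp.notMem_support_iff] at hx'
        exact hx (by rw [h1, hx', mul_zero, sub_self])
    refine (Finset.sum_le_sum_of_subset hsub).trans_lt ?_
    rw [Soc2a_mu, ← Finset.add_sum_erase _ _ hc]
    omega
  have h1 := DFunLike.congr_fun hz c'
  rw [Finsupp.sub_apply, Finsupp.smul_apply, smul_eq_mul, hval _ hc', ← sub_mul,
    Finsupp.zero_apply, mul_eq_zero, sub_eq_zero] at h1
  exact Units.ext (h1.resolve_right (Finsupp.mem_support_iff.1 hc')).symm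

omit [IsFbar F] [CharZero k] in
theorem Soc2a_eig₂ {C : Submodule k ((G ⧸ D.P Q.J') →₀ k)} (hE : C ≤ Q.E)
    (hN : ∀ n ∈ D.N, ∀ y ∈ C, Q.rep n y ∈ C) {y : (G ⧸ D.P Q.J') →₀ k} (hy : y ∈ C)
    (hmin : ∀ z ∈ C, Q.Soc2a_mu z < Q.Soc2a_mu y → z = 0) {t : G} (ht : t ∈ D.T)
    {n n' : G} (hc : (n : G ⧸ D.P Q.J') ∈ y.support) (hc' : (n' : G ⧸ D.P Q.J') ∈ y.support)
    (h : Q.vec (t * n) = Q.vec n) : Q.vec (t * n') = Q.vec n' := by
  have key : ∀ g : G, (g : G ⧸ D.P Q.J') ∈ y.support →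
      Q.vec (t * g) = (Q.coc.c t g : k) • Q.vec g := fun g hg => by
    obtain ⟨a, ha⟩ := Q.vec_eq g
    rw [← Q.rep_vec, ha, rep, Cocycle.rep_single, Q.Soc2a_T_fix (hE hy) hg ht,
      Finsupp.smul_single, smul_eq_mul]
  have h1 : (Q.coc.c t n : k) = 1 := by
    have h2 := key n hc
    rw [h] at h2
    have h3 : ((Q.coc.c t n : k) - 1) • Q.vec n = 0 := by rw [sub_smul, one_smul, ← h2, sub_self]
    exact sub_eq_zero.1 ((smul_eq_zero.1 h3).resolve_right (Q.vec_ne_zero n))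
  rw [key n' hc', ← Q.Soc2a_eig hE hN hy hmin ht hc hc', h1, one_smul]

omit [IsAlgClosed F] [IsFbar F] [CharZero k] in
theorem Soc2a_h_s {α : Fin D.r → ℤ} (hα : α ∈ D.Delta) (n : G) :
    (∀ a, Q.vec (D.h α a * (D.s α * n)) = Q.vec (D.s α * n)) ↔
      ∀ a, Q.vec (D.h α a * n) = Q.vec n := by
  have key : ∀ a, D.h α a⁻¹ * (D.s α * n) = D.s α * (D.h α a * n) := fun a => by
    rw [← D.s_h hα a]
    group
  constructor
  · intro h a
    have h1 := congrArg (Q.rep (D.s α)⁻¹) (h a⁻¹)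
    rwa [key, Q.rep_vec, Q.rep_vec, inv_mul_cancel_left, inv_mul_cancel_left] at h1
  · intro h a
    rw [← inv_inv a, key, ← Q.rep_vec, h, Q.rep_vec]

/-- The lowering operator `s⁻¹ X s`. -/
noncomputable def Soc2a_low (α : Fin D.r → ℤ) (X : Module.End k ((G ⧸ D.P Q.J') →₀ k)) :
    Module.End k ((G ⧸ D.P Q.J') →₀ k) :=
  Q.rep (D.s α)⁻¹ ∘ₗ X ∘ₗ Q.rep (D.s α)

omit [IsFbar F] [CharZero k] in
theorem Soc2a_low_vec {α : Fin D.r → ℤ} (hα : α ∈ D.Delta)
    {X : Module.End k ((G ⧸ D.P Q.J') →₀ k)} (hX : Q.IsRaise α X) {n : G} (hn : n ∈ D.N) :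
    (D.Desc Q.J' α n ∧ Q.Soc2a_low α X (Q.vec n) = Q.vec (D.s α * n)) ∨
    (¬D.Desc Q.J' α n ∧ (∀ a, Q.vec (D.h α a * n) = Q.vec n) ∧
      Q.Soc2a_low α X (Q.vec n) = Q.vec n) ∨
    (¬D.Desc Q.J' α n ∧ ¬(∀ a, Q.vec (D.h α a * n) = Q.vec n) ∧
      Q.Soc2a_low α X (Q.vec n) = 0) := by
  have hsn : D.s α * n ∈ D.N := mul_mem (D.s_mem_N hα) hn
  obtain ⟨h1, h2, h3⟩ := hX _ hsn
  have h0 : Q.Soc2a_low α X (Q.vec n) = Q.rep (D.s α)⁻¹ (X (Q.vec (D.s α * n))) := by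
    rw [Soc2a_low, LinearMap.comp_apply, LinearMap.comp_apply, Q.rep_vec]
  rw [h0]
  by_cases hd : D.Desc Q.J' α n
  · refine Or.inl ⟨hd, ?_⟩
    rw [h1 (D.not_desc_of_desc hα hn hd), Q.rep_vec, inv_mul_cancel_left]
  · by_cases hd' : D.Desc Q.J' α (D.s α * n)
    · by_cases hf : ∀ a, Q.vec (D.h α a * n) = Q.vec n
      · refine Or.inr (Or.inl ⟨hd, hf, ?_⟩)
        rw [h2 hd' ((Q.Soc2a_h_s hα n).2 hf), Q.rep_vec, inv_mul_cancel_left]
      · refine Or.inr (Or.inr ⟨hd, hf, ?_⟩)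
        rw [h3 hd' fun h => hf ((Q.Soc2a_h_s hα n).1 h), map_zero]
    · obtain ⟨h4, h5⟩ := Q.vec_fix_of_not_desc₂ hα hn hd hd'
      refine Or.inr (Or.inl ⟨hd, h5, ?_⟩)
      rw [h1 hd', Q.rep_vec, inv_mul_cancel_left, h4]

omit [IsFbar F] [CharZero k] in
/-- If a point of the support has descent `α`, the lowering operator decreases the size. -/
theorem Soc2a_low_lt {α : Fin D.r → ℤ} (hα : α ∈ D.Delta)
    {X : Module.End k ((G ⧸ D.P Q.J') →₀ k)} (hX : Q.IsRaise α X) {y : (G ⧸ D.P Q.J') →₀ k}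
    (hy : y ∈ Q.E) {n : G} (hn : (n : G ⧸ D.P Q.J') ∈ y.support) (hd : D.Desc Q.J' α n) :
    Q.Soc2a_mu (Q.Soc2a_low α X y) < Q.Soc2a_mu y := by
  refine Q.Soc2a_mu_lt
    (fun c => if D.clen Q.J' (D.s α • c) < D.clen Q.J' c then D.s α • c else c) ?_ ?_ ?_
  · rw [← Submodule.mem_comap]
    refine Q.Soc2a_mem fun c hc => ?_
    obtain ⟨g, hg, rfl⟩ := Q.Soc2a_supp hy hc
    refine ⟨g, rfl, ?_⟩
    rw [Submodule.mem_comap]
    rcases Q.Soc2a_low_vec hα hX hg with ⟨h1, h2⟩ | ⟨h1, _, h2⟩ | ⟨_, _, h2⟩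
    · rw [h2]
      exact Q.Soc2a_vec_supported ⟨g, hc, if_pos h1⟩
    · rw [h2]
      exact Q.Soc2a_vec_supported ⟨g, hc, if_neg h1⟩
    · rw [h2]
      exact Submodule.zero_mem _
  · intro c _
    split_ifs with h
    · exact h.le
    · exact le_rfl
  · refine ⟨n, hn, ?_⟩
    have h : D.clen Q.J' (D.s α • (n : G ⧸ D.P Q.J')) < D.clen Q.J' (n : G ⧸ D.P Q.J') := hd
    simp only [if_pos h]
    exact h

omit [IsFbar F] [CharZero k] in
/-- The relations of a minimal vector at a descent of a point of its support. -/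
theorem Soc2a_sign {C : Submodule k ((G ⧸ D.P Q.J') →₀ k)} (hE : C ≤ Q.E)
    (hN : ∀ n ∈ D.N, ∀ y ∈ C, Q.rep n y ∈ C) {y : (G ⧸ D.P Q.J') →₀ k} (hy : y ∈ C)
    (hmin : ∀ z ∈ C, Q.Soc2a_mu z < Q.Soc2a_mu y → z = 0) {α : Fin D.r → ℤ} (hα : α ∈ D.Delta)
    {X : Module.End k ((G ⧸ D.P Q.J') →₀ k)} (hX : Q.IsRaise α X) (hXC : ∀ y ∈ C, X y ∈ C)
    {n : G} (hn : (n : G ⧸ D.P Q.J') ∈ y.support) (hd : D.Desc Q.J' α n) :
    (∀ g : G, (g : G ⧸ D.P Q.J') ∈ y.support → ∀ a, Q.vec (D.h α a * g) = Q.vec g) ∧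
      Q.rep (D.s α) y = -y := by
  have h0 : Q.Soc2a_low α X y = 0 :=
    hmin _ (hN _ (inv_mem (D.s_mem_N hα)) _ (hXC _ (hN _ (D.s_mem_N hα) _ hy)))
      (Q.Soc2a_low_lt hα hX (hE hy) hn hd)
  have hfix : ∀ g : G, (g : G ⧸ D.P Q.J') ∈ y.support → ∀ a, Q.vec (D.h α a * g) = Q.vec g := by
    by_contra hcon
    have hno : ∀ g : G, (g : G ⧸ D.P Q.J') ∈ y.support → ¬∀ a, Q.vec (D.h α a * g) = Q.vec g :=
      fun g hg h => hcon fun g' hg' a => Q.Soc2a_eig₂ hE hN hy hmin (D.h_mem α a) hg hg' (h a)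
    have h1 : y ∈ LinearMap.eqLocus
        (Finsupp.lapply (n : G ⧸ D.P Q.J') ∘ₗ Q.rep (D.s α)⁻¹ ∘ₗ Q.Soc2a_low α X)
        (Finsupp.lapply (n : G ⧸ D.P Q.J') : ((G ⧸ D.P Q.J') →₀ k) →ₗ[k] k) := by
      refine Q.Soc2a_mem fun c hc => ?_
      obtain ⟨g, hg, rfl⟩ := Q.Soc2a_supp (hE hy) hc
      refine ⟨g, rfl, ?_⟩
      rw [LinearMap.mem_eqLocus, LinearMap.comp_apply, LinearMap.comp_apply]
      rcases Q.Soc2a_low_vec hα hX hg with ⟨_, h2⟩ | ⟨_, h1, _⟩ | ⟨h1, _, h2⟩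
      · rw [h2, Q.rep_vec, inv_mul_cancel_left]
      · exact absurd h1 (hno g hc)
      · obtain ⟨a, ha⟩ := Q.vec_eq g
        rw [h2, map_zero, map_zero, ha, Finsupp.lapply_apply, Finsupp.single_eq_of_ne]
        exact fun h => h1 ((D.desc_congr h).1 hd)
    rw [LinearMap.mem_eqLocus, LinearMap.comp_apply, LinearMap.comp_apply, h0, map_zero, map_zero,
      Finsupp.lapply_apply] at h1
    exact Finsupp.mem_support_iff.1 hn h1.symm
  refine ⟨hfix, ?_⟩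
  have h1 : y ∈ LinearMap.eqLocus ((LinearMap.id + Q.rep (D.s α)) ∘ₗ Q.Soc2a_low α X)
      (LinearMap.id + Q.rep (D.s α)) := by
    refine Q.Soc2a_mem fun c hc => ?_
    obtain ⟨g, hg, rfl⟩ := Q.Soc2a_supp (hE hy) hc
    refine ⟨g, rfl, ?_⟩
    rw [LinearMap.mem_eqLocus, LinearMap.comp_apply]
    rcases Q.Soc2a_low_vec hα hX hg with ⟨_, h2⟩ | ⟨_, _, h2⟩ | ⟨_, h1, _⟩
    · rw [h2, LinearMap.add_apply, LinearMap.add_apply, LinearMap.id_apply, LinearMap.id_apply,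
        Q.rep_vec, Q.rep_vec, ← mul_assoc, D.s_mul_s hα, hfix g hc, add_comm]
    · rw [h2]
    · exact absurd (hfix g hc) h1
  rw [LinearMap.mem_eqLocus, LinearMap.comp_apply, h0, map_zero, LinearMap.add_apply,
    LinearMap.id_apply] at h1
  exact eq_neg_of_add_eq_zero_right h1.symm

omit [IsFbar F] [CharZero k] in
/-- Every point of the support is reached from the base point. -/
theorem Soc2a_orbit {y : (G ⧸ D.P Q.J') →₀ k} {L : Finset (Fin D.r → ℤ)}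
    (hL : ∀ α ∈ D.Delta, ∀ n ∈ D.N, (n : G ⧸ D.P Q.J') ∈ y.support → D.Desc Q.J' α n → α ∈ L)
    (hs : ∀ α ∈ L, Q.rep (D.s α) y = -y) (l : ℕ) :
    ∀ n ∈ D.N, (n : G ⧸ D.P Q.J') ∈ y.support → D.clen Q.J' (n : G ⧸ D.P Q.J') = l →
      ((1 : G) : G ⧸ D.P Q.J') ∈ y.support ∧
        ∃ v ∈ D.NJ L, (v : G ⧸ D.P Q.J') = (n : G ⧸ D.P Q.J') := by
  induction l using Nat.strong_induction_on with
  | _ l ih =>
    intro n hn hc hl
    by_cases h : ∃ α ∈ D.Delta, D.Desc Q.J' α n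
    · obtain ⟨α, hα, hd⟩ := h
      have hαL := hL α hα n hn hc hd
      have h1 : ((D.s α * n : G) : G ⧸ D.P Q.J') ∈ y.support := by
        have h2 := (Q.Soc2a_mem_support (D.s α) y n).2 hc
        rwa [hs α hαL, Finsupp.support_neg] at h2
      obtain ⟨h2, v, hv, h3⟩ := ih _ (hl ▸ hd) _ (mul_mem (D.s_mem_N hα) hn) h1 rfl
      refine ⟨h2, (D.s α)⁻¹ * v, mul_mem (inv_mem (D.s_mem_NJ hαL)) hv, ?_⟩
      change (D.s α)⁻¹ • (v : G ⧸ D.P Q.J') = n
      rw [h3]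
      exact inv_smul_smul (D.s α) (n : G ⧸ D.P Q.J')
    · have h1 : n ∈ D.P Q.J' :=
        D.mem_P_of_no_desc Q.J'_sub hn fun α hα hd => h ⟨α, hα, hd⟩
      have h2 : ((1 : G) : G ⧸ D.P Q.J') = n := by
        rw [QuotientGroup.eq]
        simpa using h1
      exact ⟨h2 ▸ hc, 1, one_mem _, h2⟩

/-- Choose `0 ≠ y ∈ C` minimising `μ y = ∑ c ∈ y.support, (1 + clen c)`. It is a `T`-eigenvector
(else `t y - λ y` has smaller support). Let `m = s⁻¹ X s`; on `vec n`: if `α` is a descent of `n`,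
`m (vec n) = vec (s n)`; if it is a descent of `s n`, `m (vec n)` is `vec n` or `0` according to
whether the `h α a` fix `vec n`; otherwise `m (vec n) = vec n = vec (s n)`
(`vec_fix_of_not_desc₂`). If some support point has descent `α` then `μ (m y) < μ y`, so `m y = 0`;
splitting `y` into the three parts this gives that the `h α a` fix `y` and `s y = -y`. Let `L` be
the set of such `α`. By induction on `clen` every support point is `v P` with `v ∈ N_L`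
(`mem_P_of_no_desc`), and the base point is in the support; so the weight is `θ`, `L ⊆ Ith θ`, and
`L` is disjoint from `J'` (`vec_mul_NJ`). Then `zeta L y` is both a nonzero multiple of `y`
(`zeta_of_sign`) and a multiple of `zeta L (vec 1)` (`zeta_act`); finish with `zeta_zeta`,
`zeta_mem`. -/
theorem eta_mem_coeff {C : Submodule k ((G ⧸ D.P Q.J') →₀ k)} (h : C ≠ ⊥) (hE : C ≤ Q.E)
    (hN : ∀ n ∈ D.N, ∀ y ∈ C, Q.rep n y ∈ C)
    (hX : ∀ α ∈ D.Delta, ∃ X, Q.IsRaise α X ∧ ∀ y ∈ C, X y ∈ C) : Q.eta ∈ C := by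
  classical
  obtain ⟨y, ⟨hy, hy0⟩, hm⟩ := (measure Q.Soc2a_mu).wf.has_min {y | y ∈ C ∧ y ≠ 0}
    (Submodule.exists_mem_ne_zero_of_ne_bot h)
  have hmin : ∀ z ∈ C, Q.Soc2a_mu z < Q.Soc2a_mu y → z = 0 := fun z hz hlt => by
    by_contra h0
    exact hm z ⟨hz, h0⟩ hlt
  obtain ⟨L, hLdef⟩ : ∃ L : Finset (Fin D.r → ℤ), ∀ α, α ∈ L ↔ α ∈ D.Delta ∧
      ∃ n : G, (n : G ⧸ D.P Q.J') ∈ y.support ∧ D.Desc Q.J' α n :=
    ⟨D.Delta.filter fun α => ∃ n : G, (n : G ⧸ D.P Q.J') ∈ y.support ∧ D.Desc Q.J' α n,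
      fun α => Finset.mem_filter⟩
  have hLD : L ⊆ D.Delta := fun α hα => ((hLdef α).1 hα).1
  have hrel : ∀ α ∈ L,
      (∀ g : G, (g : G ⧸ D.P Q.J') ∈ y.support → ∀ a, Q.vec (D.h α a * g) = Q.vec g) ∧
        Q.rep (D.s α) y = -y := fun α hα => by
    obtain ⟨h1, n, hn, hd⟩ := (hLdef α).1 hα
    obtain ⟨X, hX1, hX2⟩ := hX α h1
    exact Q.Soc2a_sign hE hN hy hmin h1 hX1 hX2 hn hd
  have horb : ∀ c ∈ y.support, ((1 : G) : G ⧸ D.P Q.J') ∈ y.support ∧
      ∃ v ∈ D.NJ L, (v : G ⧸ D.P Q.J') = c := fun c hc => by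
    obtain ⟨n, hn, rfl⟩ := Q.Soc2a_supp (hE hy) hc
    exact Q.Soc2a_orbit (fun α hα n _ h1 h2 => (hLdef α).2 ⟨hα, n, h1, h2⟩)
      (fun α hα => (hrel α hα).2) _ n hn hc rfl
  obtain ⟨c0, hc0⟩ := Finsupp.support_nonempty_iff.2 hy0
  have hbase := (horb c0 hc0).1
  have hLJ : L ⊆ Q.J := fun α hα => by
    rw [J, Finset.mem_sdiff]
    constructor
    · refine D.mem_Ith.2 ⟨hLD hα, fun a => ?_⟩
      have h1 := (hrel α hα).1 1 hbase a
      have h2 := Q.vec_mul_T 1 ⟨D.h α a, D.h_mem α a⟩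
      rw [one_mul] at h2
      rw [mul_one] at h1
      rw [h1] at h2
      have h3 : ((Q.θ ⟨D.h α a, D.h_mem α a⟩ : k) - 1) • Q.vec 1 = 0 := by
        rw [sub_smul, one_smul, ← h2, sub_self]
      exact Units.ext (sub_eq_zero.1 ((smul_eq_zero.1 h3).resolve_right (Q.vec_ne_zero 1)))
    · intro hJ
      have h1 : Q.rep (D.s α) (Q.vec 1) = Q.vec 1 := by
        rw [Q.rep_vec, mul_one, ← Q.vec_mul_NJ 1 (D.s_mem_NJ hJ), one_mul]
      have h2 : D.s α • ((1 : G) : G ⧸ D.P Q.J') = ((1 : G) : G ⧸ D.P Q.J') := by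
        change ((D.s α * 1 : G) : G ⧸ D.P Q.J') = _
        rw [eq_comm, QuotientGroup.eq]
        simpa using D.NJ_le_P _ (D.s_mem_NJ hJ)
      have h3 := Q.Soc2a_rep_apply (D.s α) (Q.vec 1) ((1 : G) : G ⧸ D.P Q.J')
      have h4 := Q.Soc2a_rep_apply (D.s α) y ((1 : G) : G ⧸ D.P Q.J')
      obtain ⟨a, ha⟩ := Q.vec_eq 1
      rw [h1, h2, ha, Finsupp.single_eq_same] at h3
      have h5 : (Q.coc.c (D.s α) ((1 : G) : G ⧸ D.P Q.J') : k) = 1 :=
        (mul_left_eq_self₀.1 h3.symm).resolve_right a.ne_zero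
      rw [(hrel α hα).2, h2, h5, one_mul, Finsupp.neg_apply, neg_eq_iff_add_eq_zero, ← two_mul,
        mul_eq_zero] at h4
      exact Finsupp.mem_support_iff.1 hbase (h4.resolve_left two_ne_zero)
  have hcard : (Nat.card (D.NJ L) : k) ≠ 0 := by
    have : Finite (D.NJ L) := D.NJ_finite L
    exact Nat.cast_ne_zero.2 Nat.card_pos.ne'
  let Z : Module.End k ((G ⧸ D.P Q.J') →₀ k) :=
    { toFun := D.zeta Q.rep L
      map_add' := fun y z => D.zeta_add y z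
      map_smul' := fun c y => D.zeta_smul c y }
  have hZ : y ∈ Submodule.comap Z (Submodule.span k {D.zeta Q.rep L (Q.vec 1)}) := by
    refine Q.Soc2a_mem fun c hc => ?_
    obtain ⟨v, hv, rfl⟩ := (horb c hc).2
    refine ⟨v, rfl, ?_⟩
    change D.zeta Q.rep L (Q.vec v) ∈ Submodule.span k {D.zeta Q.rep L (Q.vec 1)}
    rw [← mul_one v, ← Q.rep_vec, D.zeta_act hLD hv]
    exact Submodule.smul_mem _ _ (Submodule.mem_span_singleton_self _)
  obtain ⟨b, hb⟩ := Submodule.mem_span_singleton.1 hZ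
  change _ = D.zeta Q.rep L y at hb
  rw [D.zeta_of_sign hLD fun α hα => (hrel α hα).2] at hb
  have hb0 : b ≠ 0 := by
    rintro rfl
    rw [zero_smul, eq_comm, smul_eq_zero] at hb
    exact hb.elim hcard hy0
  have h1 : D.zeta Q.rep L (Q.vec 1) ∈ C := by
    rw [← C.smul_mem_iff hb0, hb]
    exact C.smul_mem _ hy
  have hJD : Q.J ⊆ D.Delta := Q.J_sub.trans D.Ith_sub
  have h2 := D.zeta_mem (ρ := Q.rep) hJD fun n hn => hN n hn _ h1
  rw [D.zeta_zeta hJD hLJ] at h2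
  exact (C.smul_mem_iff hcard).1 h2

end Par

end Datum

end Pool.Agent.Work.MP_bb5f23_al
end

-- merged part: Pool.Agent.Work.MP_bb5f23_al.Soc2
section
/-! The socle of an induced module. -/

namespace Pool.Agent.Work.MP_bb5f23_al

namespace Datum

variable {F : Type} [Field F] {G : Type*} [Group G] {D : Datum F G} [IsAlgClosed F] [IsFbar F]
variable {k : Type*} [Field k] [CharZero k]

omit [IsAlgClosed F] [CharZero k] in
theorem Soc2_inv {V : Type*} [AddCommGroup V] [Module k V] (D : Datum F G)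
    (ρ : Representation k G V) (S : Submodule k V) {g : G} (hg : ∀ v ∈ S, ρ g v ∈ S) :
    ∀ v ∈ S, ρ g⁻¹ v ∈ S := by
  obtain ⟨n, hn⟩ : g⁻¹ ∈ Submonoid.powers g :=
    (D.finOrder g).mem_powers_iff_mem_zpowers.2 (Subgroup.inv_mem _ (Subgroup.mem_zpowers g))
  rw [← hn]
  clear hn
  induction n with
  | zero => intro v hv; simpa using hv
  | succ n ih =>
    intro v hv
    change ρ (g ^ (n + 1)) v ∈ S
    rw [pow_succ, map_mul, Module.End.mul_apply]
    exact ih _ (hg v hv)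

/-- The elements of a subgroup preserving a subspace. -/
def Soc2_stab {V : Type*} [AddCommGroup V] [Module k V] (D : Datum F G)
    (ρ : Representation k G V) (H : Subgroup G) (S : Submodule k V) : Subgroup G where
  carrier := {g | g ∈ H ∧ ∀ v ∈ S, ρ g v ∈ S}
  one_mem' := ⟨H.one_mem, fun v hv => by simpa using hv⟩
  mul_mem' := by
    rintro a b ⟨ha, ha'⟩ ⟨hb, hb'⟩
    refine ⟨H.mul_mem ha hb, fun v hv => ?_⟩
    rw [map_mul, Module.End.mul_apply]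
    exact ha' _ (hb' v hv)
  inv_mem' := by
    rintro a ⟨ha, ha'⟩
    exact ⟨H.inv_mem ha, Soc2_inv D ρ S ha'⟩

omit [IsAlgClosed F] [IsFbar F] [CharZero k] in
theorem Soc2_span_stab {V : Type*} [AddCommGroup V] [Module k V] (ρ : Representation k G V)
    (A : Set V) {g : G} (h : ∀ v ∈ A, ρ g v ∈ Submodule.span k A) :
    ∀ v ∈ Submodule.span k A, ρ g v ∈ Submodule.span k A := by
  have : Submodule.span k A ≤ (Submodule.span k A).comap (ρ g) :=
    Submodule.span_le.2 fun v hv => h v hv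
  exact fun v hv => this hv

omit [IsFbar F] [CharZero k] in
theorem Soc2_s_stab {V : Type*} [AddCommGroup V] [Module k V] (L : D.Tower)
    (ρ : Representation k G V) (i : ℕ) {j : Fin D.r → ℤ} (hj : j ∈ D.Delta) {y : V}
    (hy : y ∈ D.St ρ j) {u : G} (hu : u ∈ D.U ⊓ L.lev i) :
    ρ (D.s j) (ρ u y) ∈ Submodule.span k {v | ∃ u ∈ D.U ⊓ L.lev i, v = ρ u y} := by
  obtain ⟨u', hu', a, ha, rfl⟩ := L.decomp i j hj u hu
  have hs := L.s_mem i j hj
  have h1 : D.s j * u' * (D.s j)⁻¹ ∈ D.U ⊓ L.lev i :=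
    ⟨D.U'_le_U _ (D.s_conj_U' hj hu'.1).1,
      (L.lev i).mul_mem ((L.lev i).mul_mem hs hu'.2) ((L.lev i).inv_mem hs)⟩
  have h2 : ρ (D.s j) (ρ (u' * D.x j a) y) =
      ρ (D.s j * u' * (D.s j)⁻¹) (ρ (D.s j * D.x j a) y) := by
    rw [← Module.End.mul_apply, ← map_mul, ← Module.End.mul_apply, ← map_mul]
    congr 2
    group
  obtain ⟨-, hy2, hy3⟩ := hy
  rw [h2]
  by_cases ha0 : a = 0
  · rw [ha0, D.x_zero, mul_one, hy2, map_neg]
    exact Submodule.neg_mem _ (Submodule.subset_span ⟨_, h1, rfl⟩)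
  · have h3 := hy3 (Units.mk0 a ha0)
    rw [Units.val_mk0] at h3
    rw [h3, map_sub]
    refine Submodule.sub_mem _ (Submodule.subset_span ⟨_, (D.U ⊓ L.lev i).mul_mem h1
      (show D.x j (-((Units.mk0 a ha0)⁻¹ : Fˣ)) ∈ D.U ⊓ L.lev i from
        ⟨D.x_mem_U (D.delta_pos hj) _, (L.x_mem i j hj _).2 ?_⟩), ?_⟩)
      (Submodule.subset_span ⟨_, h1, rfl⟩)
    · rw [Units.val_inv_eq_inv_val, Units.val_mk0]
      exact (L.fld i).neg_mem ((L.fld i).inv_mem ha)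
    · rw [map_mul ρ (D.s j * u' * (D.s j)⁻¹), Module.End.mul_apply]

namespace Par

variable (Q : D.Par k)

/-- Let `U_i` be the level `i` part of `U`, `Γ` the finite group generated by `U_i` and the
`s j`, `j ∈ J` (inside `lev i`), `S = span (U_i eta)`; `S` is `Γ`-stable (`Tower.decomp`,
`s_conj_U'`, the Steinberg relations from `good_eta`). For an equivariant retraction `π` onto `S`,
`π (vec 1)` is `U_i`-fixed in `S`, hence a multiple of `usum i eta ∈ K`, and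
`eta = π eta = zeta J (π (vec 1)) ∈ K` (`map_zeta`, `zeta_mem`). -/
theorem eta_mem_of_usum (L : D.Tower) {K : Submodule k ((G ⧸ D.P Q.J') →₀ k)}
    (hK : Inv Q.rep K) {i : ℕ} (h : L.usum Q.rep i Q.eta ∈ K) : Q.eta ∈ K := by
  have hJ : Q.J ⊆ D.Delta := Q.J_sub.trans D.Ith_sub
  obtain ⟨S, hS⟩ : ∃ S : Submodule k ((G ⧸ D.P Q.J') →₀ k),
      S = Submodule.span k {v | ∃ u ∈ D.U ⊓ L.lev i, v = Q.rep u Q.eta} := ⟨_, rfl⟩
  have hU : ∀ u ∈ D.U ⊓ L.lev i, u ∈ Soc2_stab D Q.rep (L.lev i) S := by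
    intro u hu
    refine ⟨hu.2, ?_⟩
    rw [hS]
    refine Soc2_span_stab Q.rep _ ?_
    rintro _ ⟨u', hu', rfl⟩
    refine Submodule.subset_span ⟨u * u', (D.U ⊓ L.lev i).mul_mem hu hu', ?_⟩
    rw [map_mul, Module.End.mul_apply]
  have hN : D.NJ Q.J ≤ Soc2_stab D Q.rep (L.lev i) S := by
    refine (Subgroup.closure_le _).2 ?_
    rintro _ ⟨j, hj, rfl⟩
    refine ⟨L.s_mem i j (hJ hj), ?_⟩
    rw [hS]
    refine Soc2_span_stab Q.rep _ ?_
    rintro _ ⟨u', hu', rfl⟩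
    exact Soc2_s_stab L Q.rep i (hJ hj) ((Par.good_eta D Q).st j hj) hu'
  obtain ⟨π, h1, h2, h3⟩ := exists_equivariant_retraction Q.rep
    (Soc2_stab D Q.rep (L.lev i) S) ((L.lev_fin i).subset fun _ hg => hg.1) S
    (fun g hg => hg.2)
  have hfix : ∀ u ∈ D.U ⊓ L.lev i, Q.rep u (π (Q.vec 1)) = π (Q.vec 1) := by
    intro u hu
    rw [← h3 u (hU u hu), Q.rep_vec, mul_one]
    have := Q.vec_mul_U 1 hu.1
    rw [one_mul] at this
    rw [this]
  have hSK : S ≤ (K.comap (({ toFun := L.usum Q.rep i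
                              map_add' := L.usum_add Q.rep i
                              map_smul' := L.usum_smul Q.rep i } :
      ((G ⧸ D.P Q.J') →₀ k) →ₗ[k] ((G ⧸ D.P Q.J') →₀ k)))) := by
    rw [hS]
    refine Submodule.span_le.2 ?_
    rintro _ ⟨u, hu, rfl⟩
    change L.usum Q.rep i (Q.rep u Q.eta) ∈ K
    rw [L.usum_act Q.rep i hu]
    exact h
  have hz : π (Q.vec 1) ∈ K := by
    have h4 : L.usum Q.rep i (π (Q.vec 1)) ∈ K := hSK (h1 _)
    rw [L.usum_of_fix Q.rep i hfix] at h4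
    exact (K.smul_mem_iff (Soc1_card_ne L D.U i)).1 h4
  have he : Q.eta ∈ S := by
    rw [hS]
    exact Submodule.subset_span ⟨1, Subgroup.one_mem _, by simp⟩
  have h5 : π Q.eta = D.zeta Q.rep Q.J (π (Q.vec 1)) :=
    D.map_zeta π fun v hv => h3 v (hN hv) _
  rw [← h2 _ he, h5]
  exact D.zeta_mem hJ fun n _ => hK n hz

theorem socle {K : Submodule k ((G ⧸ D.P Q.J') →₀ k)} (hK : Inv Q.rep K) (h : K ≠ ⊥) :
    Q.eta ∈ K := by
  obtain ⟨L⟩ := D.exists_tower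
  obtain ⟨C, h1, h2, h3, h4, h5⟩ := Q.exists_coeff L hK h
  obtain ⟨i, hi⟩ := h5 _ (Q.eta_mem_coeff h1 h2 h3 h4)
  exact Q.eta_mem_of_usum L hK hi

end Par

end Datum

end Pool.Agent.Work.MP_bb5f23_al
end
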