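import Pool.Agent.Work.MP_bb5f23_al.LitLK
import Pool.Agent.Work.MP_bb5f23_al.LitBorel
import Mathlib
import Pool.Agent.Work.MP_bb5f23_al.LitBase
import Pool.Agent.Work.MP_bb5f23_al.KL1
import Pool.Agent.Work.MP_bb5f23_al.NF3
import Pool.Agent.Work.MP_bb5f23_al.Soc2
import Pool.Agent.Work.MP_bb5f23_al.Cat

-- merged part: Pool.Agent.Work.MP_bb5f23_al.LitCj
section
/-! Invariance of the literal notions under conjugation. -/

namespace Pool.Agent.Work.MP_bb5f23_al.Lit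

variable {F : Type} [Field F] {n : ℕ}

/-- Conjugation of subgroups. -/
def cj (h : GL (Fin n) F) (H : Subgroup (GL (Fin n) F)) : Subgroup (GL (Fin n) F) :=
  H.map (MulAut.conj h).toMonoidHom

variable {h : GL (Fin n) F} {G B T H K : Subgroup (GL (Fin n) F)}

theorem mem_cj {g : GL (Fin n) F} : g ∈ cj h H ↔ h⁻¹ * g * h ∈ H := Subgroup.mem_map_equiv

theorem cj_cj_inv (h : GL (Fin n) F) (H : Subgroup (GL (Fin n) F)) : cj h (cj h⁻¹ H) = H := by
  ext g
  simp [mem_cj, mul_assoc]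

theorem cj_inv_cj (h : GL (Fin n) F) (H : Subgroup (GL (Fin n) F)) : cj h⁻¹ (cj h H) = H := by
  ext g
  simp [mem_cj, mul_assoc]

theorem cj_le_cj : cj h H ≤ cj h K ↔ H ≤ K :=
  Subgroup.map_le_map_iff_of_injective (MulAut.conj h).injective

theorem LitCj_le : H ≤ cj h K ↔ cj h⁻¹ H ≤ K := by
  rw [← cj_le_cj (h := h⁻¹), cj_inv_cj]

theorem cj_eq_bot : cj h H = ⊥ ↔ H = ⊥ :=
  Subgroup.map_eq_bot_iff_of_injective _ (MulAut.conj h).injective

theorem cj_normalizer : cj h (Subgroup.normalizer (H : Set (GL (Fin n) F))) =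
    Subgroup.normalizer (cj h H : Set (GL (Fin n) F)) :=
  Subgroup.map_equiv_normalizer_eq H (MulAut.conj h)

theorem LitCj_coe : (cj h H : Set (GL (Fin n) F)) = (fun g => h⁻¹ * g * h) ⁻¹' H :=
  Set.ext fun _ => mem_cj

theorem LitCj_closed {S : Set (GL (Fin n) F)} (hS : ZClosed S) (a b : GL (Fin n) F) :
    ZClosed ((fun g => a * g * b) ⁻¹' S) :=
  zclosed_iff.2 ((zclosed_iff.1 hS).preimage (reg_conj a b))

theorem ZClosed.cj (hH : ZClosed (H : Set (GL (Fin n) F))) (h : GL (Fin n) F) :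
    ZClosed (cj h H : Set (GL (Fin n) F)) := by
  rw [LitCj_coe]
  exact LitCj_closed hH h⁻¹ h

theorem ZConn.cj (hH : ZConn (H : Set (GL (Fin n) F))) (h : GL (Fin n) F) :
    ZConn (cj h H : Set (GL (Fin n) F)) := by
  intro A B hA hB h1 h2
  have e : ∀ g ∈ H, h * g * h⁻¹ ∈ Lit.cj h H := fun g hg => ⟨g, hg, rfl⟩
  refine (hH _ _ (LitCj_closed hA h h⁻¹) (LitCj_closed hB h h⁻¹) (fun g hg => h1 (e g hg))
    (Set.eq_empty_of_forall_notMem fun g hg => ?_)).imp (fun h3 => ?_) fun h3 => ?_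
  · exact Set.eq_empty_iff_forall_notMem.1 h2 _ ⟨⟨e g hg.1.1, hg.1.2⟩, hg.2⟩
  · rintro _ ⟨g, hg, rfl⟩
    exact h3 hg
  · rintro _ ⟨g, hg, rfl⟩
    exact h3 hg

theorem IsUnip.cj (hH : IsUnip H) (h : GL (Fin n) F) : IsUnip (cj h H) := by
  rintro _ ⟨g, hg, rfl⟩
  exact isNilpotent_conj (hH g hg) h

theorem IsTorus.cj (hH : IsTorus H) (h : GL (Fin n) F) : IsTorus (cj h H) := by
  obtain ⟨h1, h2, a, ha⟩ := hH
  refine ⟨h1.cj h, h2.cj h, h * a, fun t ht => ?_⟩
  have e : (h * a)⁻¹ * t * (h * a) = a⁻¹ * (h⁻¹ * t * h) * a := by group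
  rw [e]
  exact ha _ (mem_cj.1 ht)

theorem isSolvable_cj (hH : Group.IsSolvable H) (h : GL (Fin n) F) : Group.IsSolvable (cj h H) :=
  Group.isSolvable_of_surjective (f := ((MulAut.conj h).subgroupMap H).toMonoidHom)
    ((MulAut.conj h).subgroupMap H).surjective

theorem LitCj_Ru (h : GL (Fin n) F) (H : Subgroup (GL (Fin n) F)) : cj h (Ru H) ≤ Ru (cj h H) := by
  refine Subgroup.map_le_iff_le_comap.2 (sSup_le fun Q hQ => Subgroup.map_le_iff_le_comap.1 ?_)
  refine le_sSup (a := cj h Q) ⟨cj_le_cj.2 hQ.1, ?_, hQ.2.2.1.cj h, hQ.2.2.2.1.cj h,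
    hQ.2.2.2.2.cj h⟩
  rw [← cj_normalizer]
  exact cj_le_cj.2 hQ.2.1

theorem cj_Ru (h : GL (Fin n) F) (H : Subgroup (GL (Fin n) F)) : cj h (Ru H) = Ru (cj h H) := by
  refine le_antisymm (LitCj_Ru h H) ?_
  have h1 := (cj_le_cj (h := h)).2 (LitCj_Ru h⁻¹ (cj h H))
  rwa [cj_cj_inv, cj_inv_cj] at h1

theorem IsConnRed.cj (hG : IsConnRed G) (h : GL (Fin n) F) : IsConnRed (cj h G) :=
  ⟨hG.1.cj h, hG.2.1.cj h, by rw [← cj_Ru, cj_eq_bot, hG.2.2]⟩

theorem IsBorel.cj (hB : IsBorel G B) (h : GL (Fin n) F) : IsBorel (cj h G) (cj h B) := by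
  refine ⟨⟨cj_le_cj.2 hB.1.1, hB.1.2.1.cj h, hB.1.2.2.1.cj h, isSolvable_cj hB.1.2.2.2 h⟩,
    fun K hK hle => LitCj_le.2 (hB.2 ⟨LitCj_le.1 hK.1, hK.2.1.cj h⁻¹, hK.2.2.1.cj h⁻¹,
      isSolvable_cj hK.2.2.2 h⁻¹⟩ ?_)⟩
  rw [← cj_le_cj (h := h), cj_cj_inv]
  exact hle

theorem IsMaxTorus.cj (hT : IsMaxTorus G T) (h : GL (Fin n) F) : IsMaxTorus (cj h G) (cj h T) := by
  refine ⟨⟨cj_le_cj.2 hT.1.1, hT.1.2.cj h⟩,
    fun K hK hle => LitCj_le.2 (hT.2 ⟨LitCj_le.1 hK.1, hK.2.cj h⁻¹⟩ ?_)⟩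
  rw [← cj_le_cj (h := h), cj_cj_inv]
  exact hle

end Pool.Agent.Work.MP_bb5f23_al.Lit
end

-- merged part: Pool.Agent.Work.MP_bb5f23_al.LitRoot
section
/-! Roots. -/

namespace Pool.Agent.Work.MP_bb5f23_al.Lit

variable {F : Type} [Field F] {n r : ℕ}

/-- The weights occurring in `Q`. -/
def supp (wt : Fin n → Fin r → ℤ) (Q : Subgroup (GL (Fin n) F)) : Set (Fin r → ℤ) :=
  {γ | ∃ u ∈ Q, ∃ i j, (u.1 - 1) i j ≠ 0 ∧ γ = wt i - wt j}

/-- The positive integer multiples of `α`. -/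
def mult (α : Fin r → ℤ) : AddSubsemigroup (Fin r → ℤ) where
  carrier := {γ | ∃ k : ℕ, 0 < k ∧ γ = k • α}
  add_mem' := by
    rintro _ _ ⟨k, hk, rfl⟩ ⟨l, hl, rfl⟩
    exact ⟨k + l, Nat.add_pos_left hk l, (add_smul k l α).symm⟩

theorem mem_mult {α γ : Fin r → ℤ} : γ ∈ mult α ↔ ∃ k : ℕ, 0 < k ∧ γ = k • α := Iff.rfl

theorem LitRoot_ray_or {e γ : Fin r → ℤ} (h : γ ∈ line e) (h0 : γ ≠ 0) :
    γ ∈ ray e ∨ -γ ∈ ray e := by
  obtain ⟨a, b, ha, hab⟩ := h
  have hb : b ≠ 0 := by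
    rintro rfl
    exact smul_ne_zero ha h0 (hab.trans (zero_smul _ _))
  have h1 : (a * a) • γ = (a * b) • e := by rw [mul_smul, hab, mul_smul]
  rcases (mul_ne_zero ha hb).lt_or_gt with h2 | h2
  · exact Or.inr ⟨a * a, -(a * b), mul_self_pos.2 ha, neg_pos.2 h2, by rw [smul_neg, h1, neg_smul]⟩
  · exact Or.inl ⟨a * a, a * b, mul_self_pos.2 ha, h2, h1⟩

theorem LitRoot_ne_zero {e γ : Fin r → ℤ} (he : e ≠ 0) (h : γ ∈ ray e) : γ ≠ 0 := by
  rintro rfl
  obtain ⟨a, b, -, hb, hab⟩ := h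
  exact smul_ne_zero hb.ne' he (hab.symm.trans (smul_zero _))

theorem LitRoot_mult {α γ : Fin r → ℤ} (hα : α ≠ 0) (h : γ ∈ AddSubgroup.zmultiples α)
    (h' : γ ∈ ray α) : γ ∈ mult α := by
  obtain ⟨m, rfl⟩ := AddSubgroup.mem_zmultiples_iff.1 h
  obtain ⟨a, b, ha, hb, hab⟩ := h'
  rw [smul_smul] at hab
  have h1 : a * m = b := smul_left_injective ℤ hα hab
  have h2 : 0 < m := (pos_iff_pos_of_mul_pos (h1 ▸ hb)).1 ha
  refine ⟨m.toNat, by omega, ?_⟩
  rw [← natCast_zsmul, Int.toNat_of_nonneg h2.le]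

theorem LitRoot_mult_le {α : Fin r → ℤ} : mult α ≤ ray α := by
  rintro _ ⟨k, hk, rfl⟩
  exact ⟨1, k, one_pos, Nat.cast_pos.2 hk, by rw [one_smul, natCast_zsmul]⟩

theorem LitRoot_supp_nonempty {wt : Fin n → Fin r → ℤ} {Q : Subgroup (GL (Fin n) F)} (h : Q ≠ ⊥) :
    (supp wt Q).Nonempty := by
  obtain ⟨⟨u, hu⟩, h1⟩ := Subgroup.ne_bot_iff_exists_ne_one.1 h
  by_contra h2
  refine h1 (Subtype.ext (Units.ext (sub_eq_zero.1 ?_)))
  ext i j
  by_contra h3
  exact h2 ⟨_, u, hu, i, j, h3, rfl⟩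

/-- A subgroup inside a line is cyclic: a coordinate where `e` is nonzero embeds it in `ℤ`
(`Int.subgroup_cyclic`). -/
theorem exists_gen_of_le_line {e : Fin r → ℤ} (he : e ≠ 0) {Λ : AddSubgroup (Fin r → ℤ)}
    (h : ∀ γ ∈ Λ, γ ∈ line e) (hne : ∃ γ ∈ Λ, γ ≠ 0) :
    ∃ α ∈ ray e, Λ = AddSubgroup.zmultiples α := by
  obtain ⟨i, hi⟩ := Function.ne_iff.1 he
  have hinj : ∀ γ ∈ Λ, γ i = 0 → γ = 0 := fun γ hγ h0 => by
    obtain ⟨a, b, ha, hab⟩ := h γ hγ
    have h1 := congrFun hab i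
    simp only [Pi.smul_apply, smul_eq_mul, h0, mul_zero] at h1
    rw [(mul_eq_zero.1 h1.symm).resolve_right hi, zero_smul] at hab
    exact (smul_eq_zero.1 hab).resolve_left ha
  obtain ⟨a, ha⟩ := Int.subgroup_cyclic (Λ.map (Pi.evalAddMonoidHom (fun _ => ℤ) i))
  have h1 : a ∈ Λ.map (Pi.evalAddMonoidHom (fun _ => ℤ) i) := by
    rw [ha]
    exact AddSubgroup.subset_closure rfl
  obtain ⟨α, hα, rfl⟩ := h1
  have h2 : Λ = AddSubgroup.zmultiples α := by
    refine le_antisymm (fun γ hγ => ?_) (AddSubgroup.zmultiples_le_of_mem hα)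
    have h3 := AddSubgroup.mem_map_of_mem (Pi.evalAddMonoidHom (fun _ => ℤ) i) hγ
    rw [ha, AddSubgroup.mem_closure_singleton] at h3
    obtain ⟨m, hm⟩ := h3
    exact ⟨m, sub_eq_zero.1 (hinj _ (Λ.sub_mem (Λ.zsmul_mem hα m) hγ) (sub_eq_zero.2 hm))⟩
  have h4 : α ≠ 0 := by
    rintro rfl
    obtain ⟨γ, hγ, h0⟩ := hne
    rw [h2, AddSubgroup.zmultiples_zero_eq_bot] at hγ
    exact h0 hγ
  rcases LitRoot_ray_or (h α hα) h4 with h5 | h5
  · exact ⟨α, h5, h2⟩
  · exact ⟨-α, h5, by rw [AddSubgroup.zmultiples_neg, h2]⟩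

variable [IsFbar F]

/-- Roots: generators of the group generated by the weights of a nontrivial ray group. -/
def IsRoot (wt : Fin n → Fin r → ℤ) (G : Subgroup (GL (Fin n) F)) (α : Fin r → ℤ) : Prop :=
  α ≠ 0 ∧ US wt G (ray α) ≠ ⊥ ∧
    AddSubgroup.closure (supp wt (US wt G (ray α))) = AddSubgroup.zmultiples α

/-- Root homomorphisms. -/
structure RootHom (wt : Fin n → Fin r → ℤ) (G : Subgroup (GL (Fin n) F)) (α : Fin r → ℤ)
    (x : Multiplicative F →* GL (Fin n) F) : Prop where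
  inj : Function.Injective x
  range : x.range = US wt G (ray α)
  conj : ∀ z a, tau wt z * x (Multiplicative.ofAdd a) * (tau wt z)⁻¹ =
    x (Multiplicative.ofAdd ((mon α z : F) * a))

variable {wt : Fin n → Fin r → ℤ} {G : Subgroup (GL (Fin n) F)} {α β e c : Fin r → ℤ}

theorem LitRoot_supp {S : AddSubsemigroup (Fin r → ℤ)} {γ : Fin r → ℤ}
    (h : γ ∈ supp wt (US wt G S)) : γ ∈ S := by
  obtain ⟨u, hu, i, j, hij, rfl⟩ := h
  exact hu.2 i j hij

theorem exists_isRoot (he : e ≠ 0) (hne : US wt G (ray e) ≠ ⊥) : ∃ α ∈ ray e, IsRoot wt G α := by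
  obtain ⟨α, hα, h⟩ := exists_gen_of_le_line he
    (Λ := AddSubgroup.closure (supp wt (US wt G (ray e)))) (fun γ hγ => by
      induction hγ using AddSubgroup.closure_induction with
      | mem γ hγ => exact ray_le_line e (LitRoot_supp hγ)
      | zero => exact ⟨1, 0, one_ne_zero, by simp⟩
      | add a b _ _ ha hb => exact add_mem ha hb
      | neg γ _ hγ =>
        obtain ⟨a, b, ha, hab⟩ := hγ
        exact ⟨a, -b, ha, by rw [smul_neg, hab, neg_smul]⟩) (by
      obtain ⟨γ, hγ⟩ := LitRoot_supp_nonempty hne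
      exact ⟨γ, AddSubgroup.subset_closure hγ, LitRoot_ne_zero he (LitRoot_supp hγ)⟩)
  refine ⟨α, hα, LitRoot_ne_zero he hα, ?_⟩
  rw [ray_eq_of_mem hα]
  exact ⟨hne, h⟩

theorem IsRoot.eq_of_mem_ray (hα : IsRoot wt G α) (hβ : IsRoot wt G β) (h : β ∈ ray α) : β = α := by
  have e1 := ray_eq_of_mem h
  have e2 : AddSubgroup.zmultiples β = AddSubgroup.zmultiples α := by
    rw [← hβ.2.2, e1, hα.2.2]
  obtain ⟨k, -, hk⟩ := LitRoot_mult hα.1 (e2 ▸ AddSubgroup.mem_zmultiples β) h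
  obtain ⟨l, -, hl⟩ := LitRoot_mult hβ.1 (e2 ▸ AddSubgroup.mem_zmultiples α)
    (e1 ▸ self_mem_ray α)
  have h1 : ((l * k : ℕ) : ℤ) • α = (1 : ℤ) • α := by
    rw [natCast_zsmul, mul_smul, ← hk, ← hl, one_smul]
  have h2 : l * k = 1 := by exact_mod_cast smul_left_injective ℤ hα.1 h1
  rw [hk, Nat.eq_one_of_mul_eq_one_left h2, one_smul]

theorem IsRoot.US_mult (hα : IsRoot wt G α) : US wt G (ray α) = US wt G (mult α) := by
  refine le_antisymm (fun g hg => ⟨hg.1, fun i j hij => ?_⟩) (US_mono le_rfl LitRoot_mult_le)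
  refine LitRoot_mult hα.1 ?_ (hg.2 i j hij)
  rw [← hα.2.2]
  exact AddSubgroup.subset_closure ⟨g, hg, i, j, hij, rfl⟩

theorem IsRoot.exists_wt (hα : IsRoot wt G α) : ∃ i j, wt i - wt j ∈ mult α := by
  obtain ⟨_, u, hu, i, j, hij, -⟩ := LitRoot_supp_nonempty (wt := wt) hα.2.1
  rw [hα.US_mult] at hu
  exact ⟨i, j, hu.2 i j hij⟩

theorem IsRoot.dot_ne (hα : IsRoot wt G α) (hc : Regular wt c) : α ⬝ᵥ c ≠ 0 := fun h0 => by
  obtain ⟨i, j, k, hk, e1⟩ := hα.exists_wt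
  rw [hc i j (by rw [e1, smul_dotProduct, h0, smul_zero]), sub_self] at e1
  exact smul_ne_zero hk.ne' hα.1 e1.symm

/-- A root is determined by a pair `(i, j)` with `wt i - wt j` on its ray. -/
theorem finite_isRoot : {α | IsRoot wt G α}.Finite := by
  refine (Set.finite_iUnion fun p : Fin n × Fin n =>
    (?_ : {α | IsRoot wt G α ∧ wt p.1 - wt p.2 ∈ mult α}.Subsingleton).finite).subset
    fun α hα => ?_
  · intro α hα β hβ
    refine hβ.1.eq_of_mem_ray hα.1 ?_
    rw [← ray_eq_of_mem (LitRoot_mult_le hβ.2), ray_eq_of_mem (LitRoot_mult_le hα.2)]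
    exact self_mem_ray α
  · obtain ⟨i, j, hij⟩ := IsRoot.exists_wt hα
    exact Set.mem_iUnion.2 ⟨(i, j), hα, hij⟩

variable [IsAlgClosed F]

theorem LitRoot_supp_act {m : GL (Fin n) F} {A : (Fin r → ℤ) ≃+ (Fin r → ℤ)} (hm : m ∈ G)
    (h : Acts wt m A) {γ : Fin r → ℤ} (hγ : γ ∈ supp wt (US wt G (ray α))) :
    A γ ∈ supp wt (US wt G (ray (A α))) := by
  obtain ⟨u, hu, i, j, hij, rfl⟩ := hγ
  obtain ⟨i', j', h1, h2⟩ := h.exists_entry hij
  refine ⟨m * u * m⁻¹, ?_, i', j', ?_, h2.symm⟩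
  · rw [← h.map_US_ray hm]
    exact ⟨u, hu, rfl⟩
  · rwa [mul_sub, sub_mul, mul_one, Units.mul_inv] at h1

/-- `Acts.map_US_ray`, `Acts.exists_entry` (for `m` and `m⁻¹`), `AddMonoidHom.map_closure`. -/
theorem IsRoot.act (hα : IsRoot wt G α) {m : GL (Fin n) F} {A : (Fin r → ℤ) ≃+ (Fin r → ℤ)}
    (hm : m ∈ G) (h : Acts wt m A) : IsRoot wt G (A α) := by
  refine ⟨fun h0 => hα.1 (A.injective (h0.trans (map_zero A).symm)), ?_, ?_⟩
  · rw [← h.map_US_ray hm, Ne, Subgroup.map_eq_bot_iff_of_injective _ (MulAut.conj m).injective]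
    exact hα.2.1
  · have e1 : supp wt (US wt G (ray (A α))) = A.toAddMonoidHom '' supp wt (US wt G (ray α)) := by
      refine Set.Subset.antisymm (fun γ hγ => ⟨A.symm γ, ?_, A.apply_symm_apply γ⟩) ?_
      · have h1 := LitRoot_supp_act (G.inv_mem hm) h.inv hγ
        rwa [A.symm_apply_apply] at h1
      · rintro _ ⟨γ, hγ, rfl⟩
        exact LitRoot_supp_act hm h hγ
    rw [e1, ← AddMonoidHom.map_closure, hα.2.2, AddMonoidHom.map_zmultiples]
    rfl

theorem IsRoot.neg (hG : Good wt G) (hR : Red G) (hα : IsRoot wt G α) : IsRoot wt G (-α) := by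
  obtain ⟨c, hc, h⟩ := exists_regular wt hα.1
  obtain ⟨m, A, hm⟩ := hG.exists_rayData hR hc h hα.2.1
  rw [← hm.neg]
  exact hα.act hm.mem.1 hm.acts

theorem IsRoot.reduced (hG : Good wt G) (hR : Red G) (hα : IsRoot wt G α) (hβ : IsRoot wt G β)
    {a b : ℤ} (ha : a ≠ 0) (h : a • β = b • α) : β = α ∨ β = -α := by
  rcases LitRoot_ray_or ⟨a, b, ha, h⟩ hβ.1 with h1 | h1
  · exact Or.inl (hα.eq_of_mem_ray hβ h1)
  · exact Or.inr (neg_eq_iff_eq_neg.1 (hα.eq_of_mem_ray (hβ.neg hG hR) h1))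

end Pool.Agent.Work.MP_bb5f23_al.Lit
end

-- merged part: Pool.Agent.Work.MP_bb5f23_al.LitRootHom
section
/-! Root homomorphisms. -/

namespace Pool.Agent.Work.MP_bb5f23_al.Lit

variable {F : Type} [Field F] [IsFbar F] [IsAlgClosed F] {n r : ℕ} {wt : Fin n → Fin r → ℤ}
  {G : Subgroup (GL (Fin n) F)} {α c : Fin r → ℤ}

omit [IsFbar F] [IsAlgClosed F] in
theorem LitRootHom_ext {g g' : GL (Fin n) F} (h : ∀ i j, (g.1 - 1) i j = (g'.1 - 1) i j) :
    g = g' := Units.ext (sub_left_injective (Matrix.ext h))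

omit [IsFbar F] [IsAlgClosed F] in
theorem LitRootHom_conj (z : Fin r → Fˣ) (g : GL (Fin n) F) (i j : Fin n) :
    ((tau wt z * g * (tau wt z)⁻¹).1 - 1) i j = (mon (wt i - wt j) z : F) * (g.1 - 1) i j := by
  rw [← tau_conj_apply, mul_sub, sub_mul, mul_one, Units.mul_inv, Units.val_mul, Units.val_mul]

omit [IsFbar F] [IsAlgClosed F] in
theorem LitRootHom_mon (k : ℕ) (α : Fin r → ℤ) (z : Fin r → Fˣ) : mon (k • α) z = mon α z ^ k := by
  rw [← natCast_zsmul, mon_zsmul, zpow_natCast]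

theorem LitRootHom_add {k : ℕ} (hk : 0 < k) (h : ∀ a b : F, a ^ k = b ^ k → a = b) (a b : F) :
    (a + b) ^ k = a ^ k + b ^ k := by
  have hp := ringChar_prime F
  have : Fact (ringChar F).Prime := ⟨hp⟩
  obtain ⟨e, m, hm, rfl⟩ := Nat.exists_eq_pow_mul_and_not_dvd hk.ne' _ hp.ne_one
  have hm0 : m ≠ 0 := by
    rintro rfl
    exact hm (dvd_zero _)
  have : NeZero (m : F) := ⟨fun h0 => hm ((ringChar.spec F m).1 h0)⟩
  have : NeZero m := ⟨hm0⟩
  obtain ⟨ζ, hζ⟩ := HasEnoughRootsOfUnity.exists_primitiveRoot F m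
  have h1 : ζ = 1 := h ζ 1 (by rw [mul_comm, pow_mul, hζ.pow_eq_one, one_pow, one_pow])
  have h2 : m = 1 := by
    by_contra hne
    exact hζ.ne_one (by omega) h1
  rw [h2, mul_one, add_pow_char_pow]

/-- Fix `1 ≠ u₀ ∈ U = US G (ray α)`; its entries are at weights `κ i j • α`. Let `y a` be the matrix
with `(y a - 1) i j = a ^ κ i j * (u₀ - 1) i j`; `y 0 = 1`, `y (mon α z) = tau z u₀ (tau z)⁻¹`, so
`y` maps `F` onto `U` (`mon_surj`, `Good.ray_trans`). All `u ≠ 1` have the support of `u₀`, which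
generates `ℤ α`, so `y` is injective. Let `κ₀` be the least exponent: `u ↦ (u - 1) i₀ j₀` is additive
on `U` with trivial kernel (`Good.ray_le`), so `a ↦ a ^ κ₀` is injective, `κ₀` is a power of `p`
(otherwise there is a nontrivial `κ₀`-th root of unity), `a ^ κ₀ + b ^ κ₀ = (a + b) ^ κ₀` and
`y a * y b = y (a + b)`. -/
theorem IsRoot.exists_hom (hG : Good wt G) (hR : Red G) (hα : IsRoot wt G α) :
    ∃ x, RootHom wt G α x := by
  classical
  obtain ⟨⟨u₀, hu₀⟩, hne⟩ := Subgroup.ne_bot_iff_exists_ne_one.1 hα.2.1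
  have hne : u₀ ≠ 1 := fun h => hne (Subtype.ext h)
  have hκ : ∀ i j, ∃ k : ℕ, (u₀.1 - 1) i j ≠ 0 → 0 < k ∧ wt i - wt j = k • α := fun i j => by
    by_cases h : (u₀.1 - 1) i j = 0
    · exact ⟨0, fun h' => (h' h).elim⟩
    · obtain ⟨k, hk⟩ := (hα.US_mult ▸ hu₀ : u₀ ∈ US wt G (mult α)).2 i j h
      exact ⟨k, fun _ => hk⟩
  choose κ hκ using hκ
  have hmon : ∀ (z : Fin r → Fˣ) (a : F) i j,
      (mon (wt i - wt j) z : F) * (a ^ κ i j * (u₀.1 - 1) i j)
        = (mon α z * a) ^ κ i j * (u₀.1 - 1) i j := fun z a i j => by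
    by_cases h : (u₀.1 - 1) i j = 0
    · rw [h, mul_zero, mul_zero, mul_zero]
    · rw [(hκ i j h).2, LitRootHom_mon, Units.val_pow_eq_pow_val, mul_pow, mul_assoc]
  have hy : ∀ a : F, ∃ g ∈ US wt G (ray α), ∀ i j,
      (g.1 - 1) i j = a ^ κ i j * (u₀.1 - 1) i j := fun a => by
    by_cases ha : a = 0
    · refine ⟨1, one_mem _, fun i j => ?_⟩
      by_cases h : (u₀.1 - 1) i j = 0
      · rw [h, mul_zero, Units.val_one, sub_self, Matrix.zero_apply]
      · rw [ha, zero_pow (hκ i j h).1.ne', zero_mul, Units.val_one, sub_self, Matrix.zero_apply]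
    · obtain ⟨z, hz⟩ := mon_surj hα.1 (Units.mk0 a ha)
      refine ⟨_, conj_mem_US hG.le (tau_mem z) hu₀, fun i j => ?_⟩
      have := hmon z 1 i j
      rw [one_pow, one_mul, mul_one, hz] at this
      rw [LitRootHom_conj, this, Units.val_mk0]
  choose y hyU hy using hy
  have y1 : y 1 = u₀ := LitRootHom_ext fun i j => by rw [hy, one_pow, one_mul]
  have y0 : y 0 = 1 := LitRootHom_ext fun i j => by
    rw [hy, Units.val_one, sub_self, Matrix.zero_apply]
    by_cases h : (u₀.1 - 1) i j = 0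
    · rw [h, mul_zero]
    · rw [zero_pow (hκ i j h).1.ne', zero_mul]
  have yconj : ∀ (z : Fin r → Fˣ) a,
      tau wt z * y a * (tau wt z)⁻¹ = y ((mon α z : F) * a) := fun z a =>
    LitRootHom_ext fun i j => by rw [LitRootHom_conj, hy, hy, hmon]
  have ysurj : ∀ u ∈ US wt G (ray α), ∃ a, y a = u := fun u hu => by
    by_cases h : u = 1
    · exact ⟨0, y0.trans h.symm⟩
    · obtain ⟨_, ⟨z, rfl⟩, rfl⟩ := hG.ray_trans hR hα.1 hu₀ hne hu h
      exact ⟨_, (yconj z 1).symm.trans (by rw [y1])⟩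
  have hsupp : ∃ k, ∃ i j, (u₀.1 - 1) i j ≠ 0 ∧ κ i j = k := by
    by_contra h
    refine hne (LitRootHom_ext fun i j => ?_)
    rw [Units.val_one, sub_self, Matrix.zero_apply]
    by_contra h'
    exact h ⟨_, i, j, h', rfl⟩
  obtain ⟨i₀, j₀, h₀, hk₀⟩ := Nat.find_spec hsupp
  have hmin : ∀ i j, (u₀.1 - 1) i j ≠ 0 → κ i₀ j₀ ≤ κ i j := fun i j h =>
    hk₀ ▸ Nat.find_min' hsupp ⟨i, j, h, rfl⟩
  have hpos := (hκ i₀ j₀ h₀).1
  have ypow : ∀ a b, y a = y b → ∀ i j, (u₀.1 - 1) i j ≠ 0 → a ^ κ i j = b ^ κ i j :=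
    fun a b h i j hij => mul_right_cancel₀ hij (by rw [← hy, ← hy, h])
  have yinj : ∀ a b, y a = y b → a = b := fun a b h => by
    have h1 := ypow a b h i₀ j₀ h₀
    by_cases hb : b = 0
    · rw [hb, zero_pow hpos.ne'] at h1
      rw [hb]
      exact pow_eq_zero_iff hpos.ne' |>.1 h1
    have ha : a ≠ 0 := by
      rintro rfl
      rw [zero_pow hpos.ne'] at h1
      exact pow_ne_zero _ hb h1.symm
    obtain ⟨z, hz⟩ := mon_surj hα.1 (Units.mk0 a ha / Units.mk0 b hb)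
    let K : AddSubgroup (Fin r → ℤ) :=
      { carrier := {γ | mon γ z = 1}
        zero_mem' := mon_zero z
        add_mem' := fun {γ δ} (h1 : mon γ z = 1) (h2 : mon δ z = 1) =>
          show mon (γ + δ) z = 1 by rw [mon_add, h1, h2, one_mul]
        neg_mem' := fun {γ} (h1 : mon γ z = 1) =>
          show mon (-γ) z = 1 by rw [mon_neg, h1, inv_one] }
    have hK : AddSubgroup.closure (supp wt (US wt G (ray α))) ≤ K := by
      rw [AddSubgroup.closure_le]
      rintro _ ⟨u, hu, i, j, hij, rfl⟩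
      obtain ⟨e, rfl⟩ := ysurj u hu
      rw [hy] at hij
      have hij' := right_ne_zero_of_mul hij
      change mon (wt i - wt j) z = 1
      rw [(hκ i j hij').2, LitRootHom_mon, hz, div_pow, div_eq_one]
      exact Units.ext (by simpa using ypow a b h i j hij')
    rw [hα.2.2] at hK
    have h2 : mon α z = 1 := hK (AddSubgroup.mem_zmultiples α)
    rw [hz, div_eq_one] at h2
    exact congrArg Units.val h2
  have yadd : ∀ a b e, y a * y b = y e → e ^ κ i₀ j₀ = a ^ κ i₀ j₀ + b ^ κ i₀ j₀ :=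
    fun a b e h => by
      have e1 : (y a * y b).1 - 1 = ((y a).1 - 1) * ((y b).1 - 1) + ((y a).1 - 1)
          + ((y b).1 - 1) := by
        rw [Units.val_mul]
        noncomm_ring
      have e2 : (((y a).1 - 1) * ((y b).1 - 1)) i₀ j₀ = 0 := by
        rw [Matrix.mul_apply]
        refine Finset.sum_eq_zero fun l _ => ?_
        by_contra hl
        rw [hy, hy] at hl
        have h1 := right_ne_zero_of_mul (left_ne_zero_of_mul hl)
        have h2 := right_ne_zero_of_mul (right_ne_zero_of_mul hl)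
        have h3 : (κ i₀ l + κ l j₀) • α = κ i₀ j₀ • α := by
          rw [add_nsmul, ← (hκ _ _ h1).2, ← (hκ _ _ h2).2, ← (hκ _ _ h₀).2, sub_add_sub_cancel]
        rw [← natCast_zsmul, ← natCast_zsmul] at h3
        have h4 := smul_left_injective ℤ hα.1 h3
        have h5 := hmin _ _ h1
        have h6 := hmin _ _ h2
        omega
      have e3 := congrFun (congrFun e1 i₀) j₀
      rw [h, Matrix.add_apply, Matrix.add_apply, e2, hy, hy, hy, zero_add, ← add_mul] at e3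
      exact mul_right_cancel₀ h₀ e3
  have pinj : ∀ a b : F, a ^ κ i₀ j₀ = b ^ κ i₀ j₀ → a = b := fun a b h => by
    obtain ⟨b', hb'⟩ := ysurj _ (inv_mem (hyU b))
    obtain ⟨e, he⟩ := ysurj _ (mul_mem (hyU a) (hyU b'))
    have h1 := yadd b b' 0 (by rw [hb', mul_inv_cancel, y0])
    have h2 := yadd a b' e he.symm
    rw [h, ← h1, zero_pow hpos.ne'] at h2
    rw [(pow_eq_zero_iff hpos.ne').1 h2, y0, hb', eq_comm, mul_inv_eq_one] at he
    exact yinj a b he
  have ymul : ∀ a b, y (a + b) = y a * y b := fun a b => by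
    obtain ⟨e, he⟩ := ysurj _ (mul_mem (hyU a) (hyU b))
    rw [← he, pinj e (a + b) (by rw [yadd a b e he.symm, LitRootHom_add hpos pinj])]
  refine ⟨{ toFun := fun a => y a.toAdd, map_one' := y0, map_mul' := fun a b => ymul _ _ },
    fun a b h => yinj _ _ h, ?_, yconj⟩
  ext u
  constructor
  · rintro ⟨a, rfl⟩
    exact hyU _
  · intro hu
    obtain ⟨a, rfl⟩ := ysurj u hu
    exact ⟨Multiplicative.ofAdd a, rfl⟩

/-- Conjugating a root homomorphism. For `a ≠ 0` write `a = mon α z`. -/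
theorem RootHom.conj_eq (hα : α ≠ 0) {x y : Multiplicative F →* GL (Fin n) F}
    {m : GL (Fin n) F} {A : (Fin r → ℤ) ≃+ (Fin r → ℤ)} (hm : m ∈ G) (h : Acts wt m A)
    (hx : RootHom wt G α x) (hy : RootHom wt G (A α) y) : ∃ κ : Fˣ, ∀ a,
      m * x (Multiplicative.ofAdd a) * m⁻¹ = y (Multiplicative.ofAdd ((κ : F) * a)) := by
  have h1 : m * x (Multiplicative.ofAdd 1) * m⁻¹ ∈ y.range := by
    rw [hy.range, ← h.map_US_ray hm, ← hx.range]
    exact ⟨_, ⟨_, rfl⟩, rfl⟩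
  obtain ⟨b, hb⟩ := h1
  have hb0 : b.toAdd ≠ 0 := fun h0 => by
    rw [toAdd_eq_zero.1 h0, map_one, eq_comm, mul_inv_eq_one, mul_eq_left, ← map_one x] at hb
    exact one_ne_zero (ofAdd_eq_one.1 (hx.inj hb))
  refine ⟨Units.mk0 _ hb0, fun a => ?_⟩
  by_cases ha : a = 0
  · simp [ha]
  obtain ⟨z, hz⟩ := mon_surj hα (Units.mk0 a ha)
  obtain ⟨z', hz'⟩ := conj_mem_TT h.mem (tau_mem z)
  have e1 := hx.conj z 1
  have e2 := hy.conj z' b.toAdd
  rw [hz, mul_one, Units.val_mk0] at e1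
  rw [h.spec α z z' hz', hz, Units.val_mk0, ofAdd_toAdd, hb, hz'] at e2
  rw [← e1, Units.val_mk0, mul_comm b.toAdd, ← e2]
  group

/-- `US_le_iSup_ray`, `exists_isRoot`, `Good.ray_le`. -/
theorem Good.US_le_iSup_root (hG : Good wt G) (hR : Red G) {S : AddSubsemigroup (Fin r → ℤ)}
    (hS : S ≤ posS c) : US wt G S ≤
      ⨆ α, ⨆ _ : IsRoot wt G α ∧ US wt G (ray α) ≤ US wt G S, US wt G (ray α) := by
  refine (US_le_iSup_ray hG.cl hG.le hS).trans (iSup₂_le fun e he u hu => ?_)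
  by_cases h1 : u = 1
  · rw [h1]
    exact one_mem _
  have he0 : e ≠ 0 := by
    rintro rfl
    simpa using mem_posS.1 (hS he)
  rw [US_inf] at hu
  have hne : US wt G (ray e) ≠ ⊥ := fun h => h1 (Subgroup.mem_bot.1 (h ▸ hu.2))
  obtain ⟨α, hαe, hα⟩ := exists_isRoot he0 hne
  have hle : US wt G (ray e) ≤ US wt G S :=
    hG.ray_le hR he0 (fun _ ht _ hq => conj_mem_US hG.le ht hq) hu.2 h1 hu.1
  rw [← ray_eq_of_mem hαe] at hle
  refine le_iSup₂_of_le (f := fun α (_ : IsRoot wt G α ∧ US wt G (ray α) ≤ US wt G S) =>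
    US wt G (ray α)) α ⟨hα, hle⟩ le_rfl ?_
  rw [ray_eq_of_mem hαe]
  exact hu.2

end Pool.Agent.Work.MP_bb5f23_al.Lit
end

-- merged part: Pool.Agent.Work.MP_bb5f23_al.LitSL2a
section
/-! A homomorphism from `SL(2, F)` out of the Bruhat relations. -/

namespace Pool.Agent.Work.MP_bb5f23_al.Lit

open scoped MatrixGroups

section core

variable {F : Type} [Field F] {𝔾 : Type*} [Group 𝔾]

open Classical in
/-- the Bruhat normal form -/
noncomputable def LitSL2a_f (X H : F → 𝔾) (s : 𝔾) (a b c d : F) : 𝔾 :=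
  if c = 0 then H a * X (b / a) else X (a / c) * H (-c⁻¹) * s * X (d / c)

/-- the relations -/
structure LitSL2a_Rel (X H : F → 𝔾) (s : 𝔾) : Prop where
  add : ∀ a b, X (a + b) = X a * X b
  mul : ∀ a b, a ≠ 0 → b ≠ 0 → H (a * b) = H a * H b
  hx : ∀ a b, a ≠ 0 → H a * X b = X (a ^ 2 * b) * H a
  sh : ∀ a, a ≠ 0 → s * H a = H a⁻¹ * s
  ss : s * s = H (-1)
  sx : ∀ r, r ≠ 0 → s * X r = X (-r⁻¹) * H r⁻¹ * s * X (-r⁻¹) * s

variable {X H : F → 𝔾} {s : 𝔾}

theorem LitSL2a_f_zero (a b d : F) : LitSL2a_f X H s a b 0 d = H a * X (b / a) := if_pos rfl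

theorem LitSL2a_f_ne (a b d : F) {c : F} (hc : c ≠ 0) :
    LitSL2a_f X H s a b c d = X (a / c) * H (-c⁻¹) * s * X (d / c) := if_neg hc

theorem LitSL2a_Rel.zero (r : LitSL2a_Rel X H s) : X 0 = 1 := by
  have h := r.add 0 0
  rw [add_zero] at h
  exact (mul_eq_left.1 h.symm)

theorem LitSL2a_Rel.one (r : LitSL2a_Rel X H s) : H 1 = 1 := by
  have h := r.mul 1 1 one_ne_zero one_ne_zero
  rw [mul_one] at h
  exact (mul_eq_left.1 h.symm)

theorem LitSL2a_Rel.xh (r : LitSL2a_Rel X H s) (a b : F) (ha : a ≠ 0) :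
    X b * H a = H a * X (b / a ^ 2) := by
  rw [r.hx _ _ ha, mul_div_cancel₀ _ (pow_ne_zero 2 ha)]

theorem LitSL2a_Rel.fu (r : LitSL2a_Rel X H s) {a b c d : F} (hd : a * d - b * c = 1) (t : F) :
    LitSL2a_f X H s (a + t * c) (b + t * d) c d = X t * LitSL2a_f X H s a b c d := by
  by_cases hc : c = 0
  · subst hc
    rw [mul_zero, sub_zero] at hd
    have ha : a ≠ 0 := left_ne_zero_of_mul_eq_one hd
    rw [mul_zero, add_zero, LitSL2a_f_zero, LitSL2a_f_zero, ← mul_assoc, r.xh _ _ ha, mul_assoc,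
      ← r.add]
    congr 2
    field_simp
    linear_combination t * hd
  · rw [LitSL2a_f_ne _ _ _ hc, LitSL2a_f_ne _ _ _ hc]
    simp only [← mul_assoc]
    rw [← r.add]
    congr 4
    field_simp
    ring

theorem LitSL2a_Rel.fd (r : LitSL2a_Rel X H s) {a b c d : F} (hd : a * d - b * c = 1) {t : F}
    (ht : t ≠ 0) :
    LitSL2a_f X H s (t * a) (t * b) (t⁻¹ * c) (t⁻¹ * d) = H t * LitSL2a_f X H s a b c d := by
  by_cases hc : c = 0
  · subst hc
    rw [mul_zero, sub_zero] at hd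
    have ha : a ≠ 0 := left_ne_zero_of_mul_eq_one hd
    rw [mul_zero, LitSL2a_f_zero, LitSL2a_f_zero, ← mul_assoc, ← r.mul _ _ ht ha,
      mul_div_mul_left _ _ ht]
  · rw [LitSL2a_f_ne _ _ _ hc, LitSL2a_f_ne _ _ _ (mul_ne_zero (inv_ne_zero ht) hc)]
    simp only [← mul_assoc]
    rw [r.hx _ _ ht, mul_assoc _ (H t), ← r.mul _ _ ht (neg_ne_zero.2 (inv_ne_zero hc)),
      mul_div_mul_left _ _ (inv_ne_zero ht)]
    congr 4
    · field_simp
    · field_simp

theorem LitSL2a_Rel.fw (r : LitSL2a_Rel X H s) {a b c d : F} (hd : a * d - b * c = 1) :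
    LitSL2a_f X H s c d (-a) (-b) = s * LitSL2a_f X H s a b c d := by
  by_cases hc : c = 0
  · subst hc
    rw [mul_zero, sub_zero] at hd
    have ha : a ≠ 0 := left_ne_zero_of_mul_eq_one hd
    rw [LitSL2a_f_zero, LitSL2a_f_ne _ _ _ (neg_ne_zero.2 ha), zero_div, r.zero, one_mul,
      ← mul_assoc, r.sh _ ha, neg_div_neg_eq, inv_neg, neg_neg]
  have hc' : -c⁻¹ ≠ 0 := neg_ne_zero.2 (inv_ne_zero hc)
  have e : s * H (-c⁻¹) * s = H c := by
    rw [r.sh _ hc', mul_assoc, r.ss, ← r.mul _ _ (inv_ne_zero hc') (neg_ne_zero.2 one_ne_zero),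
      inv_neg, inv_inv, mul_neg, mul_one, neg_neg]
  by_cases ha : a = 0
  · subst ha
    rw [neg_zero, LitSL2a_f_zero, LitSL2a_f_ne _ _ _ hc, zero_div, r.zero, one_mul, ← mul_assoc,
      ← mul_assoc, e]
  · have hr : a / c ≠ 0 := div_ne_zero ha hc
    rw [LitSL2a_f_ne _ _ _ hc, LitSL2a_f_ne _ _ _ (neg_ne_zero.2 ha)]
    calc X (c / -a) * H (-(-a)⁻¹) * s * X (-b / -a)
        = X (-(a / c)⁻¹) * H ((a / c)⁻¹ * c⁻¹) * s * X (-(a / c)⁻¹ / c ^ 2 + d / c) := by
          congr 2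
          · congr 2
            · field_simp
            · field_simp
          · field_simp
            linear_combination (-1 : F) * hd
      _ = X (-(a / c)⁻¹) * H (a / c)⁻¹ * (H c⁻¹ * s) * X (-(a / c)⁻¹ / c ^ 2) * X (d / c) := by
          rw [r.mul _ _ (inv_ne_zero hr) (inv_ne_zero hc), r.add]
          simp only [mul_assoc]
      _ = X (-(a / c)⁻¹) * H (a / c)⁻¹ * s * (H c * X (-(a / c)⁻¹ / c ^ 2)) * X (d / c) := by
          rw [← r.sh _ hc]
          simp only [mul_assoc]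
      _ = X (-(a / c)⁻¹) * H (a / c)⁻¹ * s * X (-(a / c)⁻¹) * s * (H (-c⁻¹) * s * X (d / c)) := by
          rw [← r.xh _ _ hc, ← e]
          simp only [mul_assoc]
      _ = s * (X (a / c) * H (-c⁻¹) * s * X (d / c)) := by
          rw [← r.sx _ hr]
          simp only [mul_assoc]

theorem LitSL2a_Rel.fmul (r : LitSL2a_Rel X H s) {a b c d a' b' c' d' : F}
    (hd' : a' * d' - b' * c' = 1) (hd : a * d - b * c = 1) :
    LitSL2a_f X H s (a' * a + b' * c) (a' * b + b' * d) (c' * a + d' * c) (c' * b + d' * d) =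
      LitSL2a_f X H s a' b' c' d' * LitSL2a_f X H s a b c d := by
  by_cases hc : c' = 0
  · subst hc
    rw [mul_zero, sub_zero] at hd'
    have ha : a' ≠ 0 := left_ne_zero_of_mul_eq_one hd'
    have e : d' = a'⁻¹ := eq_inv_of_mul_eq_one_right hd'
    rw [LitSL2a_f_zero, mul_assoc, ← r.fu hd, ← r.fd (by linear_combination hd) ha, e]
    congr 1
    · field_simp
    · field_simp
    · ring
    · ring
  · have hc' : -c'⁻¹ ≠ 0 := neg_ne_zero.2 (inv_ne_zero hc)
    have d1 : (a + d' / c' * c) * d - (b + d' / c' * d) * c = 1 := by linear_combination hd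
    have d2 : c * -(b + d' / c' * d) - d * -(a + d' / c' * c) = 1 := by linear_combination hd
    have d3 : -c'⁻¹ * c * ((-c'⁻¹)⁻¹ * -(b + d' / c' * d)) -
        -c'⁻¹ * d * ((-c'⁻¹)⁻¹ * -(a + d' / c' * c)) = 1 := by
      field_simp
      linear_combination c' * hd
    rw [LitSL2a_f_ne _ _ _ hc, mul_assoc, mul_assoc, mul_assoc, ← r.fu hd, ← r.fw d1,
      ← r.fd d2 hc', ← r.fu d3]
    congr 1
    · field_simp
      linear_combination (-c) * hd'
    · field_simp
      linear_combination (-d) * hd'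
    · field_simp
    · field_simp

end core

/-- Define `φ g` for `g = !![a, b; c, d]` by `h a * x (b / a)` if `c = 0` and by
`x (a / c) * h (-c⁻¹) * s * x (d / c)` otherwise. Show `φ (g' * g) = φ g' * φ g` for all `g` when
`g'` is upper unipotent, diagonal, or `!![0, 1; -1, 0]` (the relation needed is
`s * x a * s⁻¹ = y (-a) = x (-a⁻¹) * h a⁻¹ * s * x (-a⁻¹)`, from `hs` and `hn`); the set of such
`g'` is closed under products and every `g'` is such a product by the same normal form. -/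
theorem exists_sl2_hom {F : Type} [Field F] {𝔾 : Type*} [Group 𝔾] (x y : Multiplicative F →* 𝔾)
    (h : Fˣ →* 𝔾) (s : 𝔾)
    (hx : ∀ (a : Fˣ) (b : F), h a * x (Multiplicative.ofAdd b) * (h a)⁻¹ =
      x (Multiplicative.ofAdd ((a : F) ^ 2 * b)))
    (hh : ∀ a, s * h a * s⁻¹ = h a⁻¹) (hss : s * s = h (-1))
    (hs : ∀ a : F, s * x (Multiplicative.ofAdd a) * s⁻¹ = y (Multiplicative.ofAdd (-a)))
    (hn : ∀ a : Fˣ, h a * s = x (Multiplicative.ofAdd (a : F)) *
      y (Multiplicative.ofAdd (-((a⁻¹ : Fˣ) : F))) * x (Multiplicative.ofAdd (a : F))) :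
    ∃ φ : SL(2, F) →* 𝔾,
      (∀ (a : F) (g : SL(2, F)), g.1 = !![1, a; 0, 1] → φ g = x (Multiplicative.ofAdd a)) ∧
      (∀ (a : F) (g : SL(2, F)), g.1 = !![1, 0; a, 1] → φ g = y (Multiplicative.ofAdd a)) ∧
      (∀ (t : Fˣ) (g : SL(2, F)), g.1 = !![(t : F), 0; 0, (t⁻¹ : Fˣ)] → φ g = h t) ∧
      ∀ g, φ g ∈ x.range ⊔ y.range := by
  classical
  let X : F → 𝔾 := fun a => x (Multiplicative.ofAdd a)
  let Y : F → 𝔾 := fun a => y (Multiplicative.ofAdd a)
  let H : F → 𝔾 := fun t => if ht : t = 0 then 1 else h (Units.mk0 t ht)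
  have hH : ∀ t : Fˣ, H t = h t := fun t => by
    simp only [H, dif_neg t.ne_zero, Units.mk0_val]
  have hH' : ∀ (t : F) (ht : t ≠ 0), H t = h (Units.mk0 t ht) := fun t ht => dif_neg ht
  have Xadd : ∀ a b, X (a + b) = X a * X b := fun a b => by
    simp only [X, ofAdd_add, map_mul]
  have Xneg : ∀ a, X (-a) = (X a)⁻¹ := fun a => by simp only [X, ofAdd_neg, map_inv]
  have hn' : ∀ a, a ≠ 0 → H a * s = X a * Y (-a⁻¹) * X a := fun a ha => by
    have := hn (Units.mk0 a ha)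
    rw [Units.val_inv_eq_inv_val, Units.val_mk0] at this
    rw [hH' a ha]
    exact this
  have hY : ∀ a, a ≠ 0 → Y (-a) = X (-a⁻¹) * H a⁻¹ * s * X (-a⁻¹) := fun a ha => by
    rw [mul_assoc (X _), hn' _ (inv_ne_zero ha), inv_inv, Xneg]
    group
  have r : LitSL2a_Rel X H s :=
    { add := Xadd
      mul := fun a b ha hb => by
        rw [hH' a ha, hH' b hb, hH' _ (mul_ne_zero ha hb), ← map_mul, Units.mk0_mul]
      hx := fun a b ha => by
        rw [hH' a ha, ← mul_inv_eq_iff_eq_mul]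
        exact hx (Units.mk0 a ha) b
      sh := fun a ha => by
        rw [hH' a ha, hH' _ (inv_ne_zero ha), ← mul_inv_eq_iff_eq_mul, hh]
        congr 1
        ext
        simp
      ss := by rw [hss, ← hH, Units.val_neg, Units.val_one]
      sx := fun a ha => by
        rw [← hY a ha, ← mul_inv_eq_iff_eq_mul]
        exact hs a }
  have hdet : ∀ g : SL(2, F), g.1 0 0 * g.1 1 1 - g.1 0 1 * g.1 1 0 = 1 := fun g => by
    rw [← Matrix.det_fin_two]
    exact g.2
  let φ : SL(2, F) →* 𝔾 := MonoidHom.mk'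
    (fun g => LitSL2a_f X H s (g.1 0 0) (g.1 0 1) (g.1 1 0) (g.1 1 1)) fun g' g => by
      rw [← r.fmul (hdet g') (hdet g)]
      simp only [Matrix.SpecialLinearGroup.coe_mul, Matrix.mul_apply, Fin.sum_univ_two]
  have hφ : ∀ g : SL(2, F), φ g = LitSL2a_f X H s (g.1 0 0) (g.1 0 1) (g.1 1 0) (g.1 1 1) :=
    fun g => rfl
  have mX : ∀ a, X a ∈ x.range ⊔ y.range := fun a => Subgroup.mem_sup_left ⟨_, rfl⟩
  have mY : ∀ a, Y a ∈ x.range ⊔ y.range := fun a => Subgroup.mem_sup_right ⟨_, rfl⟩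
  have mHs : ∀ a, a ≠ 0 → H a * s ∈ x.range ⊔ y.range := fun a ha => by
    rw [hn' a ha]
    exact mul_mem (mul_mem (mX _) (mY _)) (mX _)
  have ms : s ∈ x.range ⊔ y.range := by
    have := mHs 1 one_ne_zero
    rwa [r.one, one_mul] at this
  have mH : ∀ a, a ≠ 0 → H a ∈ x.range ⊔ y.range := fun a ha => by
    have := mul_mem (mHs a ha) (inv_mem ms)
    rwa [mul_inv_cancel_right] at this
  refine ⟨φ, fun a g hg => ?_, fun a g hg => ?_, fun t g hg => ?_, fun g => ?_⟩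
  · rw [hφ, hg]
    change LitSL2a_f X H s 1 a 0 1 = X a
    rw [LitSL2a_f_zero, r.one, one_mul, div_one]
  · rw [hφ, hg]
    change LitSL2a_f X H s 1 0 a 1 = Y a
    by_cases ha : a = 0
    · subst ha
      rw [LitSL2a_f_zero, r.one, one_mul, div_one, r.zero]
      exact (map_one y).symm
    · have := hY (-a) (neg_ne_zero.2 ha)
      rw [neg_neg, inv_neg, neg_neg] at this
      rw [LitSL2a_f_ne _ _ _ ha, this, one_div]
  · rw [hφ, hg]
    change LitSL2a_f X H s t 0 0 (t⁻¹ : Fˣ) = h t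
    rw [LitSL2a_f_zero, zero_div, r.zero, mul_one, hH]
  · rw [hφ]
    by_cases hc : g.1 1 0 = 0
    · have hd := hdet g
      rw [hc, mul_zero, sub_zero] at hd
      rw [hc, LitSL2a_f_zero]
      exact mul_mem (mH _ (left_ne_zero_of_mul_eq_one hd)) (mX _)
    · rw [LitSL2a_f_ne _ _ _ hc]
      exact mul_mem (mul_mem (mul_mem (mX _) (mH _ (neg_ne_zero.2 (inv_ne_zero hc)))) ms) (mX _)

end Pool.Agent.Work.MP_bb5f23_al.Lit
end

-- merged part: Pool.Agent.Work.MP_bb5f23_al.LitPair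
section
/-! Normalising a pair of opposite root homomorphisms. -/

namespace Pool.Agent.Work.MP_bb5f23_al.Lit

open scoped MatrixGroups

variable {F : Type} [Field F] [IsAlgClosed F] [IsFbar F] {n r : ℕ} {wt : Fin n → Fin r → ℤ}
  {G : Subgroup (GL (Fin n) F)} {α : Fin r → ℤ}

omit [IsAlgClosed F] [IsFbar F] in
theorem LitPair_ray {A : (Fin r → ℤ) ≃+ (Fin r → ℤ)} {e e' : Fin r → ℤ} (h : A e = e') :
    ∀ γ ∈ ray e, A γ ∈ ray e' := by
  rintro γ ⟨a, b, ha, hb, hab⟩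
  exact ⟨a, b, ha, hb, by rw [← h, ← map_zsmul, hab, map_zsmul]⟩

omit [IsAlgClosed F] [IsFbar F] in
theorem LitPair_conj {m τ t : GL (Fin n) F} (hm : m ∈ NN F wt) (hτ : τ ∈ TT F wt)
    (ht : t ∈ TT F wt) : ∃ s ∈ TT F wt, τ * (m * t) * τ⁻¹ = m * s :=
  ⟨m⁻¹ * τ * m⁻¹⁻¹ * t * τ⁻¹, mul_mem (mul_mem (conj_mem_TT (inv_mem hm) hτ) ht) (inv_mem hτ),
    by group⟩

theorem LitPair_ne (hG : Good wt G) (hα : α ≠ 0) {m t : GL (Fin n) F}
    {A : (Fin r → ℤ) ≃+ (Fin r → ℤ)} (h : Acts wt m A) (hA : A α = -α) (ht : t ∈ TT F wt) :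
    m * t ∉ US wt G (ray (-α)) := by
  intro hv
  have h1 := h.mul (acts_of_mem_TT hG.span ht)
  have h2 : ∀ i, A (wt i) = wt i := fun i => by
    refine h1.entry (i := i) (j := i) fun h0 => ?_
    obtain ⟨a, b, -, hb, hab⟩ := hv.2 i i (by rw [Matrix.sub_apply, h0]; simp)
    rw [sub_self, smul_zero, eq_comm, smul_eq_zero, neg_eq_zero] at hab
    exact hab.elim hb.ne' hα
  have h3 : A α = α := by
    have : α ∈ AddSubgroup.closure (Set.range wt) := hG.span ▸ AddSubgroup.mem_top α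
    refine AddSubgroup.closure_induction (p := fun γ _ => A γ = γ) ?_ (map_zero A)
      (fun a b _ _ ha hb => by rw [map_add, ha, hb]) (fun a _ ha => by rw [map_neg, ha]) this
    rintro _ ⟨i, rfl⟩
    exact h2 i
  refine hα (funext fun i => ?_)
  have := congrFun (h3.symm.trans hA) i
  simp only [Pi.neg_apply, Pi.zero_apply] at this ⊢
  omega

/-- Uniqueness in `U m T U`: from `u m t w = u' m t' w'` the element `m⁻¹ (u'⁻¹ u) m` lies in
`US G (ray (-α))` (`Acts.conj_US`) and in `US G (nnS c)` (`US_pos_inf_nn`); then `LU_unique`. -/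
theorem RayData.unique (hG : Good wt G) {c : Fin r → ℤ} (hc : 0 < α ⬝ᵥ c) {m : GL (Fin n) F}
    {A : (Fin r → ℤ) ≃+ (Fin r → ℤ)} (h : RayData wt G α c m A) {u u' t t' w w' : GL (Fin n) F}
    (hu : u ∈ US wt G (ray α)) (hu' : u' ∈ US wt G (ray α)) (ht : t ∈ TT F wt) (ht' : t' ∈ TT F wt)
    (hw : w ∈ US wt G (ray α)) (hw' : w' ∈ US wt G (ray α)) (he : u * (m * t) * w = u' * (m * t') * w') :
    u = u' ∧ t = t' ∧ w = w' := by
  have hm : m⁻¹ ∈ G := inv_mem (US_le h.mem)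
  have hA : A.symm α = -α := by rw [AddEquiv.symm_apply_eq, map_neg, h.neg, neg_neg]
  have h1 : US wt G (ray (-α)) ≤ US wt ⊤ (posS (-c)) :=
    US_mono le_top (ray_le_posS (by simpa using hc))
  have h2 : US wt G (ray α) ≤ US wt ⊤ (posS c) := US_mono le_top (ray_le_posS hc)
  have h3 : TT F wt ≤ US wt ⊤ (Lit.zeroS c) := TT_le_US le_top (mem_zeroS.2 (zero_dotProduct c))
  obtain ⟨k1, k2, k3⟩ := LU_unique (h1 (h.acts.inv.conj_US hm (LitPair_ray hA) hu))
    (h1 (h.acts.inv.conj_US hm (LitPair_ray hA) hu')) (h3 ht) (h3 ht') (h2 hw) (h2 hw') (by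
      calc _ = m⁻¹ * (u * (m * t) * w) := by group
        _ = _ := by rw [he]; group)
  exact ⟨by simpa using k1, k2, k3⟩

/-- Take `x`, `y₀` from `exists_hom` for `α`, `-α`. Conjugating `RayData.cell` by `m` (`m * m ∈ T`)
gives `y₀ (-1) = x b * (m t) * x b'`. Conjugating by `z` with `mon α z = -1` and comparing with the
inverse (`RayData.unique`; `(m t)⁻¹ ∈ m T`) gives `b = b'`; `b ≠ 0` since otherwise
`y₀ (-1) = m t` would act on `α` both trivially (it normalises `T`, lies in `US G (ray (-α))`, so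
`Acts.entry` at the diagonal entries gives `A (wt i) = wt i`) and by `-1`. Put `y a = y₀ (-b * a)`.
Conjugating by `T` shows `x a * y (-a⁻¹) * x a ∈ m T` for all `a ≠ 0`. -/
theorem IsRoot.exists_pair (hG : Good wt G) (hR : Red G) (hα : IsRoot wt G α) :
    ∃ (x y : Multiplicative F →* GL (Fin n) F) (c : Fin r → ℤ) (m : GL (Fin n) F)
      (A : (Fin r → ℤ) ≃+ (Fin r → ℤ)), RootHom wt G α x ∧ RootHom wt G (-α) y ∧ 0 < α ⬝ᵥ c ∧
      RayData wt G α c m A ∧ ∀ a : Fˣ, ∃ t ∈ TT F wt, x (Multiplicative.ofAdd (a : F)) *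
        y (Multiplicative.ofAdd (-((a⁻¹ : Fˣ) : F))) * x (Multiplicative.ofAdd (a : F)) = m * t := by
  obtain ⟨x, hx⟩ := hα.exists_hom hG hR
  obtain ⟨y, hy⟩ := (hα.neg hG hR).exists_hom hG hR
  obtain ⟨c, hc, he⟩ := exists_regular wt hα.1
  obtain ⟨m, A, h⟩ := hG.exists_rayData hR hc he hα.2.1
  have hm : m ∈ G := US_le h.mem
  have hxm : ∀ a, x a ∈ US wt G (ray α) := fun a => hx.range ▸ ⟨a, rfl⟩
  have hym : ∀ a, y a ∈ US wt G (ray (-α)) := fun a => hy.range ▸ ⟨a, rfl⟩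
  have hA : A (-α) = α := by rw [map_neg, h.neg, neg_neg]
  have hA' : A.symm (-α) = α := by rw [AddEquiv.symm_apply_eq, h.neg]
  have hv : y (Multiplicative.ofAdd (-1)) ≠ 1 := fun e => by
    simpa using hy.inj (e.trans (map_one y).symm)
  obtain ⟨a, ha, t₀, ht₀, w, hw, e⟩ := h.cell _ (h.acts.conj_US hm (LitPair_ray hA)
    (hym (Multiplicative.ofAdd (-1)))) (by simpa using hv)
  obtain ⟨b, hb⟩ : m⁻¹ * a * m⁻¹⁻¹ ∈ x.range :=
    hx.range ▸ h.acts.inv.conj_US (inv_mem hm) (LitPair_ray hA') ha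
  obtain ⟨b', rfl⟩ : w ∈ x.range := hx.range ▸ hw
  obtain ⟨b, rfl⟩ := Multiplicative.ofAdd.surjective b
  obtain ⟨b', rfl⟩ := Multiplicative.ofAdd.surjective b'
  obtain ⟨t, ht, e1⟩ : ∃ t ∈ TT F wt, y (Multiplicative.ofAdd (-1)) =
      x (Multiplicative.ofAdd b) * (m * t) * x (Multiplicative.ofAdd b') := by
    refine ⟨(m * m)⁻¹ * t₀, mul_mem (inv_mem h.sq) ht₀, ?_⟩
    calc _ = m⁻¹ * (m * y (Multiplicative.ofAdd (-1)) * m⁻¹ * m) := by group
      _ = _ := by rw [e, hb]; group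
  have hconj : ∀ l : Fˣ, ∃ s ∈ TT F wt, y (Multiplicative.ofAdd (-((l⁻¹ : Fˣ) : F))) =
      x (Multiplicative.ofAdd (l * b)) * (m * s) * x (Multiplicative.ofAdd (l * b')) := by
    intro l
    obtain ⟨z, rfl⟩ := mon_surj hα.1 l
    obtain ⟨s, hs, e2⟩ := LitPair_conj h.acts.mem (tau_mem z) ht
    refine ⟨s, hs, ?_⟩
    rw [← hx.conj, ← hx.conj, ← e2, ← mon_neg, ← mul_neg_one, ← hy.conj, e1]
    group
  obtain rfl : b = b' := by
    obtain ⟨s, hs, e2⟩ := hconj (-1)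
    have e3 : y (Multiplicative.ofAdd (-(((-1 : Fˣ)⁻¹ : Fˣ) : F))) =
        (y (Multiplicative.ofAdd (-1)))⁻¹ := by
      rw [← map_inv, ← ofAdd_neg]
      simp
    have e4 := (h.unique hG he (hxm _) (inv_mem (hxm (Multiplicative.ofAdd b'))) hs
      (mul_mem (conj_mem_TT (inv_mem h.acts.mem) (inv_mem ht)) (inv_mem h.sq)) (hxm _)
      (inv_mem (hxm (Multiplicative.ofAdd b))) (by rw [← e2, e3, e1]; group)).1
    rw [← map_inv, ← ofAdd_neg] at e4
    simpa using hx.inj e4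
  have hb0 : b ≠ 0 := by
    rintro rfl
    refine LitPair_ne hG hα.1 h.acts h.neg ht ?_
    have := hym (Multiplicative.ofAdd (-1))
    rwa [e1, ofAdd_zero, map_one, one_mul, mul_one] at this
  refine ⟨x, y.comp (AddMonoidHom.toMultiplicative (AddMonoidHom.mulLeft (-b))), c, m, A, hx,
    ⟨?_, ?_, fun z a => ?_⟩, he, h, fun a => ?_⟩
  · exact hy.inj.comp fun p q hpq => mul_left_cancel₀ (neg_ne_zero.2 hb0) (a := -b)
      (b := p.toAdd) (c := q.toAdd) hpq
  · rw [← hy.range]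
    refine le_antisymm (by rintro _ ⟨p, rfl⟩; exact ⟨_, rfl⟩) ?_
    rintro _ ⟨p, rfl⟩
    refine ⟨Multiplicative.ofAdd ((-b)⁻¹ * p.toAdd), congrArg y ?_⟩
    exact mul_inv_cancel_left₀ (neg_ne_zero.2 hb0) p.toAdd
  · refine (hy.conj z (-b * a)).trans (congrArg y ?_)
    exact mul_left_comm (mon (-α) z : F) (-b) a
  · obtain ⟨s, hs, e2⟩ := hconj (-a * (Units.mk0 b hb0)⁻¹)
    refine ⟨s, hs, ?_⟩
    have e3 : ((-a * (Units.mk0 b hb0)⁻¹ : Fˣ) : F) * b = -a := by simp [hb0]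
    have e4 : -(((-a * (Units.mk0 b hb0)⁻¹ : Fˣ)⁻¹ : Fˣ) : F) = -b * -((a⁻¹ : Fˣ) : F) := by
      simp
    rw [e3, e4, ofAdd_neg, map_inv] at e2
    change _ * y (Multiplicative.ofAdd (-b * -((a⁻¹ : Fˣ) : F))) * _ = _
    rw [e2]
    group

end Pool.Agent.Work.MP_bb5f23_al.Lit
end

-- merged part: Pool.Agent.Work.MP_bb5f23_al.LitSL2b
section
/-! The `SL(2)` attached to a root. -/

namespace Pool.Agent.Work.MP_bb5f23_al.Lit

open scoped MatrixGroups

variable {F : Type} [Field F] [IsAlgClosed F] [IsFbar F] {n r : ℕ} {wt : Fin n → Fin r → ℤ}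
  {G : Subgroup (GL (Fin n) F)} {α : Fin r → ℤ}

/-- `s` has entries at weights in `ℤ α` (`IsRoot.US_mult`), so `γ - A γ ∈ ℤ α` for the weights
(`Acts.entry`) and hence for all `γ`; write `γ - A γ = κ γ • α` with `κ` additive,
`co i = κ (Pi.single i 1)`. -/
theorem exists_coroot (hspan : AddSubgroup.closure (Set.range wt) = ⊤) (hα : α ≠ 0)
    {s : GL (Fin n) F} {A : (Fin r → ℤ) ≃+ (Fin r → ℤ)} (h : Acts wt s A) (hA : A α = -α)
    (hs : s.1 ∈ MS F wt (AddSubgroup.zmultiples α)) :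
    ∃ co : Fin r → ℤ, α ⬝ᵥ co = 2 ∧ (∀ γ, A γ = γ - (γ ⬝ᵥ co) • α) ∧
      ∀ z : Fin r → Fˣ, tau wt z * s * (tau wt z)⁻¹ = coc wt co (mon α z) * s := by
  have h1 : ∀ γ, γ - A γ ∈ AddSubgroup.zmultiples α := by
    intro γ
    have h2 : γ ∈ AddSubgroup.closure (Set.range wt) := hspan ▸ AddSubgroup.mem_top γ
    refine (AddSubgroup.closure_le ((AddSubgroup.zmultiples α).comap
      (AddMonoidHom.id _ - A.toAddMonoidHom))).2 ?_ h2
    rintro _ ⟨j, rfl⟩
    have h3 : ∑ i, (s⁻¹).1 j i * s.1 i j ≠ 0 := by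
      rw [← Matrix.mul_apply, Units.inv_mul, Matrix.one_apply_eq]
      exact one_ne_zero
    obtain ⟨i, -, hi⟩ := Finset.exists_ne_zero_of_sum_ne_zero h3
    have h4 := right_ne_zero_of_mul hi
    change wt j - A (wt j) ∈ AddSubgroup.zmultiples α
    rw [h.entry h4, ← neg_sub]
    exact neg_mem (hs i j h4)
  choose co hco using fun i => AddSubgroup.mem_zmultiples_iff.1 (h1 (Pi.single i 1))
  have h2 : ∀ γ, A γ = γ - (γ ⬝ᵥ co) • α := by
    intro γ
    have e : γ = ∑ i, γ i • (Pi.single i 1 : Fin r → ℤ) := by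
      ext j
      simp [Pi.single_apply]
    rw [dotProduct, Finset.sum_smul]
    simp only [mul_smul, hco, smul_sub, Finset.sum_sub_distrib, ← map_zsmul, ← map_sum, ← e,
      sub_sub_cancel]
  have h3 : α ⬝ᵥ co = 2 := by
    have h4 : (α ⬝ᵥ co - 2) • α = 0 := by
      rw [sub_smul, two_smul, ← sub_sub, ← neg_sub α (_ • α), ← h2, hA, neg_neg, sub_self]
    exact sub_eq_zero.1 ((smul_eq_zero.1 h4).resolve_right hα)
  refine ⟨co, h3, h2, fun z => Units.ext ?_⟩
  ext i j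
  rw [Units.val_mul, Units.val_mul, tau_conj_apply, Units.val_mul, coc, tau_val,
    Matrix.diagonal_mul, mon_cochar]
  by_cases h4 : s.1 i j = 0
  · rw [h4, mul_zero, mul_zero]
  · rw [← h.entry h4, h2, sub_sub_cancel_left, ← neg_smul, mon_zsmul, sub_dotProduct,
      smul_dotProduct, h3, smul_eq_mul]
    congr 3
    ring

/-- Let `nn a = x a * y (-a⁻¹) * x a`, `s = nn 1 = m t`, `h = coc wt co`. Conjugating by `z` with
`mon α z = a` gives `nn a = h a * s`. With `s x(a) s⁻¹ = y (κ a)`, `s y(a) s⁻¹ = x (κ' a)`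
(`RootHom.conj_eq`): `y (-κ) = s x(-1) s⁻¹ = x 1 * y (-1) * s⁻¹ = x 1 * s⁻¹ * x (-κ')`, to be compared
(`RayData.unique`) with `y (-a⁻¹) = x (-a) * nn a * x (-a)`, `a = κ⁻¹`: `κ = -1`, `s⁻¹ = nn (-1)`.
Apply `exists_sl2_hom`. The reflection property follows from `IsRoot.act`. -/
theorem IsRoot.exists_sl2 (hG : Good wt G) (hR : Red G) (hα : IsRoot wt G α) :
    ∃ (x y : Multiplicative F →* GL (Fin n) F) (co : Fin r → ℤ) (φ : SL(2, F) →* GL (Fin n) F),
      RootHom wt G α x ∧ RootHom wt G (-α) y ∧ α ⬝ᵥ co = 2 ∧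
      (∀ β, IsRoot wt G β → IsRoot wt G (β - (β ⬝ᵥ co) • α)) ∧
      (∀ (a : F) (g : SL(2, F)), g.1 = !![1, a; 0, 1] → φ g = x (Multiplicative.ofAdd a)) ∧
      (∀ (a : F) (g : SL(2, F)), g.1 = !![1, 0; a, 1] → φ g = y (Multiplicative.ofAdd a)) ∧
      (∀ (t : Fˣ) (g : SL(2, F)), g.1 = !![(t : F), 0; 0, (t⁻¹ : Fˣ)] →
        φ g = tau wt (cochar co t)) ∧ ∀ g, φ g ∈ G := by
  obtain ⟨x, y, c, m, A, hx, hy, hc, hD, hn⟩ := hα.exists_pair hG hR
  have xm : ∀ a, x a ∈ US wt G (ray α) := fun a => hx.range ▸ ⟨a, rfl⟩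
  have ym : ∀ a, y a ∈ US wt G (ray (-α)) := fun a => hy.range ▸ ⟨a, rfl⟩
  obtain ⟨t, ht, hs⟩ := hn 1
  rw [inv_one, Units.val_one] at hs
  generalize hs' : m * t = s at hs
  have hA : Acts wt s A := hs' ▸ hD.acts.mul (acts_of_mem_TT hG.span ht)
  have hZ : s ∈ US wt G (AddSubgroup.zmultiples α).toAddSubmonoid.toAddSubsemigroup := by
    have h1 : ∀ a, x a ∈ US wt G (AddSubgroup.zmultiples α).toAddSubmonoid.toAddSubsemigroup := by
      refine fun a => US_mono le_rfl ?_ (hα.US_mult ▸ xm a)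
      rintro _ ⟨k, -, rfl⟩
      exact nsmul_mem (AddSubgroup.mem_zmultiples α) k
    rw [← hs]
    refine mul_mem (mul_mem (h1 _) (US_mono le_rfl ?_ ((hα.neg hG hR).US_mult ▸ ym _))) (h1 _)
    rintro _ ⟨k, -, rfl⟩
    exact nsmul_mem (neg_mem (AddSubgroup.mem_zmultiples α)) k
  obtain ⟨co, h2, hco, hz⟩ := exists_coroot hG.span hα.1 hA hD.neg
    ((mem_US_of_zero_mem (AddSubgroup.zmultiples α).zero_mem).1 hZ).2
  have hn' : ∀ a : Fˣ, coc wt co a * s = x (Multiplicative.ofAdd (a : F)) *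
      y (Multiplicative.ofAdd (-((a⁻¹ : Fˣ) : F))) * x (Multiplicative.ofAdd (a : F)) := by
    intro a
    obtain ⟨z, rfl⟩ := mon_surj hα.1 a
    have h3 := hx.conj z 1
    have h4 := hy.conj z (-1)
    rw [mul_one] at h3
    rw [mul_neg_one, mon_neg] at h4
    rw [← hz, ← hs, ← h3, ← h4]
    group
  obtain ⟨κ, hκ⟩ := hx.conj_eq hα.1 hZ.1 hA (y := y) (hD.neg.symm ▸ hy)
  obtain ⟨κ', hκ'⟩ := hy.conj_eq (neg_ne_zero.2 hα.1) hZ.1 hA (y := x)
    (by rwa [map_neg, hD.neg, neg_neg])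
  obtain ⟨t', ht', hs''⟩ := hn κ⁻¹
  have h3 : x (Multiplicative.ofAdd 1) * (m * (m⁻¹ * t⁻¹ * m⁻¹⁻¹ * (m * m)⁻¹)) *
      x (Multiplicative.ofAdd ((κ' : F) * -1)) = (x (Multiplicative.ofAdd ((κ⁻¹ : Fˣ) : F)))⁻¹ *
      (m * t') * (x (Multiplicative.ofAdd ((κ⁻¹ : Fˣ) : F)))⁻¹ := by
    have h4 : m * (m⁻¹ * t⁻¹ * m⁻¹⁻¹ * (m * m)⁻¹) = s⁻¹ := by
      rw [← hs']
      group
    have h5 := hκ (-1)
    rw [mul_neg_one, ofAdd_neg, map_inv] at h5
    rw [h4, ← hκ', ← hs'', inv_inv, ← h5]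
    nth_rw 4 [← hs]
    group
  obtain ⟨h4, h5, -⟩ := hD.unique hG hc (xm _) (inv_mem (xm _)) (mul_mem
    (conj_mem_TT (inv_mem hD.acts.mem) (inv_mem ht)) (inv_mem hD.sq)) ht' (xm _) (inv_mem (xm _)) h3
  obtain rfl : κ = -1 := by
    rw [← map_inv, ← ofAdd_neg] at h4
    have h6 : (1 : F) = -((κ⁻¹ : Fˣ) : F) := hx.inj h4
    rw [← inv_inj, ← Units.val_inj, inv_neg_one, Units.val_neg, Units.val_one, h6, neg_neg]
  have hss : s * s = coc wt co (-1) := by
    have h6 : coc wt co (-1)⁻¹ * s = s⁻¹ := by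
      rw [hn', hs'', ← h5, ← hs']
      group
    rw [coc_inv, inv_mul_eq_iff_eq_mul] at h6
    nth_rw 1 [h6]
    rw [inv_mul_cancel_right]
  obtain ⟨c', h6, h7⟩ := hA.exists_dual co
  obtain rfl : c' = -co := by
    ext i
    obtain ⟨γ, hγ⟩ := A.surjective (Pi.single i 1)
    have h8 : A γ ⬝ᵥ co = -(γ ⬝ᵥ co) := by
      rw [hco, sub_dotProduct, smul_dotProduct, h2, smul_eq_mul]
      ring
    have h9 := h6 γ
    rw [hγ, single_dotProduct, one_mul] at h8 h9
    rw [Pi.neg_apply, h8, h9, neg_neg]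
  obtain ⟨φ, p1, p2, p3, p4⟩ := exists_sl2_hom x y (MonoidHom.mk' (coc wt co) (coc_mul co)) s
    (fun a b => by
      have := hx.conj (cochar co a) b
      rwa [mon_cochar, h2, zpow_ofNat, Units.val_pow_eq_pow_val] at this)
    (fun a => (h7 a).trans ((coc_neg co a).trans (coc_inv co a).symm)) hss
    (fun a => by simpa using hκ a) hn'
  refine ⟨x, y, co, φ, hx, hy, h2, fun β hβ => hco β ▸ hβ.act hZ.1 hA, p1, p2, p3, fun g => ?_⟩
  exact (sup_le (hx.range.trans_le US_le) (hy.range.trans_le US_le) : x.range ⊔ y.range ≤ G) (p4 g)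

end Pool.Agent.Work.MP_bb5f23_al.Lit
end

-- merged part: Pool.Agent.Work.MP_bb5f23_al.LitSpan0
section
/-! Direct spanning along a central series. -/

namespace Pool.Agent.Work.MP_bb5f23_al.Lit

section aux

variable {𝔾 ι : Type*} [Group 𝔾] {H P Q : Subgroup 𝔾}

theorem LitSpan0_conj (hQ : Q ≤ P) (hc : ∀ u ∈ H, ∀ w ∈ P, u * w * u⁻¹ * w⁻¹ ∈ Q) {u w : 𝔾}
    (hu : u ∈ H) (hw : w ∈ P) : u⁻¹ * w * u ∈ P := by
  have h := P.mul_mem (hQ (hc _ (H.inv_mem hu) w hw)) hw
  rwa [inv_inv, inv_mul_cancel_right] at h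

theorem LitSpan0_prod_mem (l : List ι) {a : ι → 𝔾} (h : ∀ α ∈ l, a α ∈ H) : (l.map a).prod ∈ H :=
  H.list_prod_mem fun _ hx => by
    obtain ⟨α, hα, rfl⟩ := List.mem_map.1 hx
    exact h α hα

/-- Central factors can be collected modulo `Q`. -/
theorem LitSpan0_collect (hP : P ≤ H) (hc : ∀ u ∈ H, ∀ w ∈ P, u * w * u⁻¹ * w⁻¹ ∈ Q)
    (hn : ∀ u ∈ H, ∀ w ∈ Q, u⁻¹ * w * u ∈ Q) (l : List ι) {a z : ι → 𝔾} (ha : ∀ α ∈ l, a α ∈ H)
    (hz : ∀ α ∈ l, z α ∈ P) :
    ∃ q ∈ Q, (l.map fun α => a α * z α).prod = (l.map a).prod * (l.map z).prod * q := by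
  induction l with
  | nil => exact ⟨1, Q.one_mem, by simp⟩
  | cons β l ih =>
    have ha' : ∀ α ∈ l, a α ∈ H := fun α h => ha α (List.mem_cons_of_mem β h)
    have hz' : ∀ α ∈ l, z α ∈ P := fun α h => hz α (List.mem_cons_of_mem β h)
    obtain ⟨q, hq, e⟩ := ih ha' hz'
    have h1 := hc _ (H.inv_mem (LitSpan0_prod_mem l ha')) _ (hz β List.mem_cons_self)
    have h2 := hn _ (hP (LitSpan0_prod_mem (β :: l) hz)) _ h1
    refine ⟨_, Q.mul_mem h2 hq, ?_⟩
    simp only [List.map_cons, List.prod_cons, e]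
    group

theorem LitSpan0_filter (l : List ι) (p : ι → Prop) [DecidablePred p] (z : ι → 𝔾) :
    (l.map fun α => if p α then z α else 1).prod = ((l.filter fun α => p α).map z).prod := by
  induction l with
  | nil => rfl
  | cons β l ih =>
    by_cases h : p β <;> simp [h, ih]

/-- The elements congruent to an ordered product. -/
def LitSpan0Sub (hP : P ≤ H) (hc : ∀ u ∈ H, ∀ w ∈ P, u * w * u⁻¹ * w⁻¹ ∈ Q)
    (hn : ∀ u ∈ H, ∀ w ∈ Q, u⁻¹ * w * u ∈ Q) (X : ι → Subgroup 𝔾) (l : List ι) : Subgroup 𝔾 where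
  carrier := {w | ∃ z : ι → 𝔾, (∀ α ∈ l, z α ∈ X α ∧ z α ∈ P) ∧ ∃ q ∈ Q, w = (l.map z).prod * q}
  one_mem' := ⟨fun _ => 1, fun α _ => ⟨(X α).one_mem, P.one_mem⟩, 1, Q.one_mem, by simp⟩
  mul_mem' := by
    rintro _ _ ⟨z, hz, q, hq, rfl⟩ ⟨z', hz', q', hq', rfl⟩
    obtain ⟨q'', hq'', e⟩ := LitSpan0_collect hP hc hn l (fun α h => hP (hz α h).2)
      fun α h => (hz' α h).2
    refine ⟨fun α => z α * z' α, fun α h => ⟨(X α).mul_mem (hz α h).1 (hz' α h).1,
      P.mul_mem (hz α h).2 (hz' α h).2⟩, _, Q.mul_mem (Q.mul_mem (Q.inv_mem hq'')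
        (hn _ (LitSpan0_prod_mem l fun α h => hP (hz' α h).2) _ hq)) hq', ?_⟩
    rw [e]
    group
  inv_mem' := by
    rintro _ ⟨z, hz, q, hq, rfl⟩
    obtain ⟨q', hq', e⟩ := LitSpan0_collect hP hc hn l (fun α h => hP (hz α h).2)
      fun α h => P.inv_mem (hz α h).2
    have h1 : (l.map fun α => (z α)⁻¹).prod ∈ H :=
      LitSpan0_prod_mem l fun α h => H.inv_mem (hP (hz α h).2)
    refine ⟨fun α => (z α)⁻¹, fun α h => ⟨(X α).inv_mem (hz α h).1, P.inv_mem (hz α h).2⟩, _,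
      Q.mul_mem (hn _ h1 _ (Q.inv_mem hq)) hq', ?_⟩
    simp only [mul_inv_cancel, List.map_const', List.prod_replicate, one_pow] at e
    rw [mul_assoc] at e
    rw [mul_inv_rev, inv_eq_of_mul_eq_one_right e.symm]
    group

end aux

/-- Abstract direct spanning. `N k` is a central series of `N 0` ending in `⊥`; the group `X α` has
depth `d α`. Prove by induction on `k`: every `u ∈ N 0` is congruent modulo `N k` to an ordered
product, and congruent ordered products have equal factors of depth `< k`. In the step multiply the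
factors of depth `k` by central elements of `N 0 ⧸ N (k + 1)`. -/
theorem direct_span {𝔾 ι : Type*} [Group 𝔾] (N : ℕ → Subgroup 𝔾) (hN : Antitone N) {K : ℕ}
    (hK : N K = ⊥) (hcomm : ∀ k, ∀ u ∈ N 0, ∀ w ∈ N k, u * w * u⁻¹ * w⁻¹ ∈ N (k + 1))
    (X : ι → Subgroup 𝔾) (d : ι → ℕ) (l : List ι) (hl : l.Nodup) (hX : ∀ α ∈ l, X α ≤ N (d α))
    (hgen : ∀ k, N k ≤ ⨆ α ∈ l, ⨆ _ : k ≤ d α, X α)
    (hind : ∀ k (l' : List ι) (a : ι → 𝔾), l'.Nodup → (∀ α ∈ l', α ∈ l ∧ d α = k ∧ a α ∈ X α) →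
      (l'.map a).prod ∈ N (k + 1) → ∀ α ∈ l', a α = 1) :
    (∀ u ∈ N 0, ∃ a : ι → 𝔾, (∀ α ∈ l, a α ∈ X α) ∧ u = (l.map a).prod) ∧
      ∀ a b : ι → 𝔾, (∀ α ∈ l, a α ∈ X α) → (∀ α ∈ l, b α ∈ X α) →
        (l.map a).prod = (l.map b).prod → ∀ α ∈ l, a α = b α := by
  classical
  have h0 : ∀ k, N k ≤ N 0 := fun k => hN k.zero_le
  have hn : ∀ k, ∀ u ∈ N 0, ∀ w ∈ N k, u⁻¹ * w * u ∈ N k := fun k u hu w hw =>
    LitSpan0_conj (hN k.le_succ) (hcomm k) hu hw
  have hX0 : ∀ {a : ι → 𝔾}, (∀ α ∈ l, a α ∈ X α) → ∀ α ∈ l, a α ∈ N 0 := fun ha α h =>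
    h0 _ (hX α h (ha α h))
  constructor
  · intro u hu
    have key : ∀ k, ∃ a : ι → 𝔾, (∀ α ∈ l, a α ∈ X α) ∧ ∃ w ∈ N k, u = (l.map a).prod * w := by
      intro k
      induction k with
      | zero => exact ⟨fun _ => 1, fun α _ => (X α).one_mem, u, hu, by simp⟩
      | succ k ih =>
        obtain ⟨a, ha, w, hw, rfl⟩ := ih
        have h1 : N k ≤ LitSpan0Sub (h0 k) (hcomm k) (hn (k + 1)) X l := by
          refine (hgen k).trans (iSup₂_le fun α hα => iSup_le fun hk x hx => ?_)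
          refine ⟨Function.update (fun _ => 1) α x, fun β hβ => ?_, 1, (N _).one_mem, ?_⟩
          · by_cases e : β = α
            · subst e
              rw [Function.update_self]
              exact ⟨hx, hN hk (hX β hβ hx)⟩
            · rw [Function.update_of_ne e]
              exact ⟨(X β).one_mem, (N k).one_mem⟩
          · rw [List.prod_map_eq_pow_single α _ fun β e _ => Function.update_of_ne e _ _,
              List.count_eq_one_of_mem hl hα]
            simp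
        obtain ⟨z, hz, q, hq, rfl⟩ := h1 hw
        obtain ⟨q', hq', e⟩ := LitSpan0_collect (h0 k) (hcomm k) (hn (k + 1)) l (hX0 ha)
          fun α h => (hz α h).2
        refine ⟨fun α => a α * z α, fun α h => (X α).mul_mem (ha α h) (hz α h).1, _,
          (N _).mul_mem ((N _).inv_mem hq') hq, ?_⟩
        rw [e]
        group
    obtain ⟨a, ha, w, hw, e⟩ := key K
    rw [hK, Subgroup.mem_bot] at hw
    exact ⟨a, ha, by rw [e, hw, mul_one]⟩
  · intro a b ha hb hab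
    have hz : ∀ α ∈ l, (a α)⁻¹ * b α ∈ X α := fun α h =>
      (X α).mul_mem ((X α).inv_mem (ha α h)) (hb α h)
    have key : ∀ k, ∀ α ∈ l, d α < k → a α = b α := by
      intro k
      induction k with
      | zero => exact fun α _ h => absurd h (Nat.not_lt_zero _)
      | succ k ih =>
        have h1 : ∀ j, j ≤ k + 1 → ∀ α ∈ l, (d α = k → j ≤ k) → (a α)⁻¹ * b α ∈ N j := by
          intro j hj α hα h
          rcases lt_or_ge (d α) k with h2 | h2
          · rw [ih α hα h2, inv_mul_cancel]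
            exact (N j).one_mem
          · exact hN (show j ≤ d α by omega) (hX α hα (hz α hα))
        have h2 : ∀ α ∈ l, (a α)⁻¹ * b α ∈ N k := fun α hα => h1 k k.le_succ α hα fun _ => le_rfl
        obtain ⟨q, hq, e⟩ := LitSpan0_collect (h0 k) (hcomm k) (hn (k + 1)) l (hX0 ha) h2
        simp only [mul_inv_cancel_left] at e
        have h3 : (l.map fun α => (a α)⁻¹ * b α).prod ∈ N (k + 1) := by
          rw [← hab, mul_assoc, left_eq_mul] at e
          rw [eq_inv_of_mul_eq_one_left e]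
          exact (N _).inv_mem hq
        have h4 : ∀ α ∈ l, (if d α = k then 1 else (a α)⁻¹ * b α) ∈ N (k + 1) := by
          intro α hα
          split_ifs with h
          · exact (N _).one_mem
          · exact h1 _ le_rfl α hα fun h' => absurd h' h
        obtain ⟨q', hq', e'⟩ := LitSpan0_collect (h0 k) (hcomm k) (hn (k + 1)) l
          (a := fun α => if d α = k then (a α)⁻¹ * b α else 1)
          (fun α hα => by
            split_ifs
            · exact h0 k (h2 α hα)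
            · exact (N 0).one_mem)
          (fun α hα => hN k.le_succ (h4 α hα))
        simp only [ite_mul_ite, mul_one, one_mul, ite_self] at e'
        rw [e', LitSpan0_filter, (N _).mul_mem_cancel_right hq',
          (N _).mul_mem_cancel_right (LitSpan0_prod_mem l h4)] at h3
        intro α hα hk
        rcases lt_or_ge (d α) k with h5 | h5
        · exact ih α hα h5
        · refine inv_mul_eq_one.1 (hind k _ _ (hl.filter _) (fun β hβ => ?_) h3 α ?_)
          · rw [List.mem_filter, decide_eq_true_iff] at hβ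
            exact ⟨hβ.1, hβ.2, hz β hβ.1⟩
          · rw [List.mem_filter, decide_eq_true_iff]
            exact ⟨hα, by omega⟩
    exact fun α hα => key _ α hα (Nat.lt_succ_self _)

end Pool.Agent.Work.MP_bb5f23_al.Lit
end

-- merged part: Pool.Agent.Work.MP_bb5f23_al.LitSpan
section
/-! Direct spanning by root subgroups. -/

namespace Pool.Agent.Work.MP_bb5f23_al.Lit

variable {F : Type} [Field F] [IsAlgClosed F] [IsFbar F] {n r : ℕ} {wt : Fin n → Fin r → ℤ}
  {G : Subgroup (GL (Fin n) F)} {c : Fin r → ℤ}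

omit [IsAlgClosed F] in
theorem LitSpan_gt_zero : US wt G (gtS c 0) = US wt G (posS c) :=
  US_congr fun _ _ => by simp [mem_gtS, mem_posS]

omit [IsAlgClosed F] in
theorem LitSpan_anti : Antitone fun k : ℕ => US wt G (gtS c k) := fun k l h =>
  US_mono le_rfl fun γ hγ => by
    rw [mem_gtS] at hγ ⊢
    omega

omit [IsAlgClosed F] in
/-- A root whose group lies in the positive part is positive. -/
theorem LitSpan_pos {α : Fin r → ℤ} (hα : IsRoot wt G α)
    (h : US wt G (ray α) ≤ US wt G (posS c)) : 0 < α ⬝ᵥ c := by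
  obtain ⟨_, u, hu, i, j, hij, -⟩ := LitRoot_supp_nonempty (wt := wt) hα.2.1
  obtain ⟨a, b, ha, hb, hab⟩ := hu.2 i j hij
  have h1 : 0 < (wt i - wt j) ⬝ᵥ c := (h hu).2 i j hij
  have h2 := congrArg (· ⬝ᵥ c) hab
  simp only [smul_dotProduct, smul_eq_mul] at h2
  exact (mul_pos_iff_of_pos_left hb).1 (h2 ▸ mul_pos ha h1)

omit [IsAlgClosed F] in
/-- Linearisation of a product. -/
theorem LitSpan_prod {ι : Type} (k : ℕ) (a : ι → GL (Fin n) F) (l : List ι)
    (h : ∀ α ∈ l, a α ∈ US wt G (gtS c k)) :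
    ((l.map a).prod.1 - 1) - (l.map fun α => (a α).1 - 1).sum ∈ MS F wt (gtS c (k + 1)) := by
  induction l with
  | nil => simp
  | cons α l ih =>
    have h1 : a α ∈ US wt G (gtS c k) := h α List.mem_cons_self
    have h2 : ∀ β ∈ l, a β ∈ US wt G (gtS c k) := fun β hβ => h β (List.mem_cons_of_mem _ hβ)
    have h3 : (l.map a).prod ∈ US wt G (gtS c k) :=
      Subgroup.list_prod_mem _ fun x hx => by
        obtain ⟨β, hβ, rfl⟩ := List.mem_map.1 hx
        exact h2 β hβ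
    have e : ((((α :: l).map a).prod.1 - 1) - ((α :: l).map fun α => (a α).1 - 1).sum) =
        ((a α).1 - 1) * ((l.map a).prod.1 - 1) +
          (((l.map a).prod.1 - 1) - (l.map fun α => (a α).1 - 1).sum) := by
      simp only [List.map_cons, List.prod_cons, List.sum_cons, Units.val_mul]
      noncomm_ring
    rw [e]
    refine add_mem (mul_mem_MS (fun x hx y hy => ?_) h1.2 h3.2) (ih h2)
    have hx' : (k : ℤ) < x ⬝ᵥ c := hx
    have hy' : (k : ℤ) < y ⬝ᵥ c := hy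
    change ((k + 1 : ℕ) : ℤ) < (x + y) ⬝ᵥ c
    rw [add_dotProduct]
    omega

omit [IsAlgClosed F] in
/-- Independence of the root groups modulo the next step of the series. -/
theorem LitSpan_ind (k : ℕ) (a : (Fin r → ℤ) → GL (Fin n) F) (l : List (Fin r → ℤ))
    (hl : l.Nodup) (hr : ∀ α ∈ l, IsRoot wt G α) (h : ∀ α ∈ l, a α ∈ US wt G (gtS c k))
    (h' : ∀ α ∈ l, a α ∈ US wt G (ray α)) (hp : (l.map a).prod ∈ US wt G (gtS c (k + 1)))
    {α : Fin r → ℤ} (hα : α ∈ l) : a α ∈ US wt G (gtS c (k + 1)) := by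
  classical
  have h1 : (l.map fun α => (a α).1 - 1).sum ∈ MS F wt (gtS c (k + 1)) := by
    have := sub_mem hp.2 (LitSpan_prod k a l h)
    rwa [sub_sub_cancel] at this
  rw [← List.sum_toFinset _ hl] at h1
  refine ⟨(h α hα).1, fun i j hij => h1 i j ?_⟩
  rw [Matrix.sum_apply, Finset.sum_eq_single α (fun β hβ hne => ?_)
    fun h0 => (h0 (List.mem_toFinset.2 hα)).elim]
  · exact hij
  · have hβ' := List.mem_toFinset.1 hβ
    by_contra h0
    refine hne ((hr α hα).eq_of_mem_ray (hr β hβ') ?_)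
    rw [← ray_eq_of_mem ((h' α hα).2 i j hij), ray_eq_of_mem ((h' β hβ').2 i j h0)]
    exact self_mem_ray β

/-- Apply `direct_span` with `N k = US G (gtS c k)` (`comm_mem_US`, `exists_MS_gt_eq_bot`),
`X α = US G (ray α)` and `d α` the largest `k` with `X α ≤ N k`; generation is
`Good.US_le_iSup_root`. Independence: modulo `MS (gtS c (k + 1))` the product minus `1` is the sum
of the `a α - 1`, whose entries lie on different rays (`IsRoot.eq_of_mem_ray`); so each
`a α ∈ N (k + 1)`, and `Good.ray_le` gives `a α = 1`. -/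
theorem Good.direct_span (hG : Good wt G) (hR : Red G) (l : List (Fin r → ℤ)) (hl : l.Nodup)
    (hmem : ∀ α, α ∈ l ↔ IsRoot wt G α ∧ 0 < α ⬝ᵥ c) :
    (∀ u ∈ US wt G (posS c), ∃ a : (Fin r → ℤ) → GL (Fin n) F,
      (∀ α ∈ l, a α ∈ US wt G (ray α)) ∧ u = (l.map a).prod) ∧
      ∀ a b : (Fin r → ℤ) → GL (Fin n) F, (∀ α ∈ l, a α ∈ US wt G (ray α)) →
        (∀ α ∈ l, b α ∈ US wt G (ray α)) → (l.map a).prod = (l.map b).prod →
        ∀ α ∈ l, a α = b α := by
  classical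
  obtain ⟨K, hK⟩ := exists_MS_gt_eq_bot (F := F) wt c
  have hK' : US wt G (gtS c K) = ⊥ := (Subgroup.eq_bot_iff_forall _).2 fun g hg => by
    have h1 := hg.2
    rw [hK, Submodule.mem_bot, sub_eq_zero] at h1
    exact Units.ext h1
  let d : (Fin r → ℤ) → ℕ := fun α =>
    Nat.findGreatest (fun k => US wt G (ray α) ≤ US wt G (gtS c k)) K
  have hX : ∀ α ∈ l, US wt G (ray α) ≤ US wt G (gtS c (d α)) := fun α hα =>
    Nat.findGreatest_spec (P := fun k => US wt G (ray α) ≤ US wt G (gtS c k)) (Nat.zero_le K) (by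
      rw [LitSpan_gt_zero]
      exact US_mono le_rfl (ray_le_posS ((hmem α).1 hα).2))
  have hd : ∀ α, IsRoot wt G α → ∀ k, US wt G (ray α) ≤ US wt G (gtS c k) → k ≤ d α :=
    fun α hα k hk => Nat.le_findGreatest (P := fun k => US wt G (ray α) ≤ US wt G (gtS c k))
      (le_of_not_ge fun hKk => hα.2.1 (le_bot_iff.1 (hK' ▸ hk.trans (LitSpan_anti hKk)))) hk
  rw [← LitSpan_gt_zero]
  refine Lit.direct_span (fun k => US wt G (gtS c k)) LitSpan_anti hK' (fun k u hu w hw => ?_)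
    (fun α => US wt G (ray α)) d l hl hX (fun k => ?_) fun k l' a hl' h hp α hα => ?_
  · refine comm_mem_US (fun x hx y hy => ?_) (fun x hx y hy => ?_) (fun x hx y hy => ?_) hu hw <;>
    · rw [mem_gtS] at hx hy ⊢
      rw [add_dotProduct]
      omega
  · have hS : gtS c k ≤ posS c := fun γ hγ => by
      rw [mem_gtS] at hγ
      rw [mem_posS]
      omega
    refine (hG.US_le_iSup_root hR hS).trans (iSup₂_le fun α hα => ?_)
    have h1 : α ∈ l := (hmem α).2 ⟨hα.1, LitSpan_pos hα.1 (hα.2.trans (US_mono le_rfl hS))⟩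
    exact le_iSup₂_of_le α h1 (le_iSup_of_le (hd α hα.1 k hα.2) le_rfl)
  · have hr : ∀ β ∈ l', IsRoot wt G β := fun β hβ => ((hmem β).1 (h β hβ).1).1
    have h1 := LitSpan_ind k a l' hl' hr
      (fun β hβ => (h β hβ).2.1 ▸ hX β (h β hβ).1 (h β hβ).2.2) (fun β hβ => (h β hβ).2.2) hp hα
    by_contra hne
    have h2 := hd α (hr α hα) (k + 1) (hG.ray_le hR (hr α hα).1
      (fun t ht q hq => conj_mem_US hG.le ht hq) (h α hα).2.2 hne h1)
    rw [(h α hα).2.1] at h2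
    omega

theorem Good.US_pos_eq (hG : Good wt G) (hR : Red G) (c : Fin r → ℤ) : US wt G (posS c) =
    ⨆ α, ⨆ _ : IsRoot wt G α ∧ 0 < α ⬝ᵥ c, US wt G (ray α) :=
  le_antisymm ((hG.US_le_iSup_root hR le_rfl).trans (iSup₂_le fun α hα =>
    le_iSup₂_of_le α ⟨hα.1, LitSpan_pos hα.1 hα.2⟩ le_rfl))
    (iSup₂_le fun _ hα => US_mono le_rfl (ray_le_posS hα.2))

end Pool.Agent.Work.MP_bb5f23_al.Lit
end

-- merged part: Pool.Agent.Work.MP_bb5f23_al.LitComm
section
/-! Commutators of root subgroups, the normaliser of `U`. -/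

namespace Pool.Agent.Work.MP_bb5f23_al.Lit

variable {F : Type} [Field F] [IsAlgClosed F] [IsFbar F] {n r : ℕ} {wt : Fin n → Fin r → ℤ}
  {G : Subgroup (GL (Fin n) F)} {c : Fin r → ℤ}

omit [IsAlgClosed F] in
theorem LitComm_supp {α : Fin r → ℤ} {S : AddSubsemigroup (Fin r → ℤ)}
    (h : US wt G (ray α) ≤ US wt G S) {δ : Fin r → ℤ} (hδ : δ ∈ supp wt (US wt G (ray α))) :
    δ ∈ ray α ∧ δ ∈ S := by
  obtain ⟨u, hu, i, j, hij, rfl⟩ := hδ
  exact ⟨hu.2 i j hij, (h hu).2 i j hij⟩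

omit [IsAlgClosed F] in
theorem LitComm_ne {α : Fin r → ℤ} (hα : IsRoot wt G α) :
    (supp wt (US wt G (ray α))).Nonempty := by
  rw [Set.nonempty_iff_ne_empty]
  intro h
  have h1 := hα.2.2
  rw [h, AddSubgroup.closure_empty, eq_comm, AddSubgroup.zmultiples_eq_bot] at h1
  exact hα.1 h1

/-- The positive combinations of two weights. -/
def LitCommS (α β : Fin r → ℤ) : AddSubsemigroup (Fin r → ℤ) where
  carrier := {γ | ∃ i j : ℕ, 0 < i ∧ 0 < j ∧ γ = i • α + j • β}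
  add_mem' := by
    rintro _ _ ⟨i, j, hi, hj, rfl⟩ ⟨i', j', -, -, rfl⟩
    refine ⟨i + i', j + j', by omega, by omega, ?_⟩
    rw [add_smul, add_smul]
    abel

theorem LitComm_dual (φ : (Fin r → ℤ) →+ ℤ) : ∃ c' : Fin r → ℤ, ∀ γ, γ ⬝ᵥ c' = φ γ := by
  refine ⟨fun i => φ (Pi.single i 1), fun γ => ?_⟩
  conv_rhs => rw [← Finset.univ_sum_single γ, map_sum]
  refine Finset.sum_congr rfl fun i _ => ?_
  have h1 : (Pi.single i (γ i) : Fin r → ℤ) = γ i • Pi.single i 1 := by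
    rw [← Pi.single_smul, smul_eq_mul, mul_one]
  rw [h1, map_zsmul, smul_eq_mul]

/-- Let `S = {i • α + j • β | 0 < i, 0 < j}`; the commutator lies in `US G S` (`IsRoot.US_mult`,
`comm_mem_US`). If `US G (ray γ) ≤ US G S` then the support of `US G (ray γ)` lies in `S` and
generates `ℤ γ`, so `γ = i • α + j • β` with integers `i, j`; a positive multiple of `γ` lies in `S`,
and `α`, `β` are linearly independent (`IsRoot.reduced`), so `i, j > 0`. -/
theorem Good.comm_root (hG : Good wt G) (hR : Red G) {α β : Fin r → ℤ} (hα : IsRoot wt G α)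
    (hβ : IsRoot wt G β) (hαc : 0 < α ⬝ᵥ c) (hβc : 0 < β ⬝ᵥ c) (hne : α ≠ β) {a b : GL (Fin n) F}
    (ha : a ∈ US wt G (ray α)) (hb : b ∈ US wt G (ray β)) : a * b * a⁻¹ * b⁻¹ ∈
      ⨆ γ, ⨆ _ : IsRoot wt G γ ∧ ∃ i j : ℕ, 0 < i ∧ 0 < j ∧ γ = i • α + j • β,
        US wt G (ray γ) := by
  have hS : LitCommS α β ≤ posS c := by
    rintro _ ⟨i, j, hi, hj, rfl⟩
    rw [mem_posS, add_dotProduct, smul_dotProduct, smul_dotProduct]
    exact add_pos (nsmul_pos hαc hi.ne') (nsmul_pos hβc hj.ne')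
  rw [hα.US_mult] at ha
  rw [hβ.US_mult] at hb
  have h1 : a * b * a⁻¹ * b⁻¹ ∈ US wt G (LitCommS α β) := by
    refine comm_mem_US ?_ ?_ ?_ ha hb
    · rintro _ ⟨i, hi, rfl⟩ _ ⟨j, hj, rfl⟩
      exact ⟨i, j, hi, hj, rfl⟩
    · rintro _ ⟨i, j, hi, hj, rfl⟩ _ ⟨k, -, rfl⟩
      refine ⟨i + k, j, by omega, hj, ?_⟩
      rw [add_smul]
      abel
    · rintro _ ⟨i, j, hi, hj, rfl⟩ _ ⟨k, -, rfl⟩
      refine ⟨i, j + k, hi, by omega, ?_⟩
      rw [add_smul]
      abel
  refine (le_trans (hG.US_le_iSup_root hR hS) (iSup_mono fun γ => iSup_le fun hγ => ?_)) h1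
  refine le_iSup_of_le ⟨hγ.1, ?_⟩ le_rfl
  have h2 : AddSubgroup.closure (supp wt (US wt G (ray γ))) ≤ AddSubgroup.closure {α, β} := by
    rw [AddSubgroup.closure_le]
    intro δ hδ
    obtain ⟨i, j, -, -, rfl⟩ := (LitComm_supp hγ.2 hδ).2
    exact AddSubgroup.add_mem _ (AddSubgroup.nsmul_mem _ (AddSubgroup.subset_closure (by simp)) _)
      (AddSubgroup.nsmul_mem _ (AddSubgroup.subset_closure (by simp)) _)
  rw [hγ.1.2.2] at h2
  obtain ⟨i, j, hij⟩ := AddSubgroup.mem_closure_pair.1 (h2 (AddSubgroup.mem_zmultiples γ))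
  obtain ⟨δ, hδ⟩ := LitComm_ne hγ.1
  obtain ⟨⟨x, y, hx, hy, hxy⟩, i', j', hi', hj', rfl⟩ := LitComm_supp hγ.2 hδ
  have h3 : (y * j - x * j') • β = (x * i' - y * i) • α := by
    rw [← hij, ← natCast_zsmul, ← natCast_zsmul] at hxy
    linear_combination (exp := 1) -hxy
  have h4 : y * j - x * j' = 0 := by
    by_contra h0
    rcases hα.reduced hG hR hβ h0 h3 with h5 | h5
    · exact hne h5.symm
    · rw [h5, neg_dotProduct] at hβc
      omega
  rw [h4, zero_smul, eq_comm, smul_eq_zero] at h3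
  have h5 := h3.resolve_right hα.1
  have hi : 0 < i := by
    have h6 : 0 < x * i' := mul_pos hx (by exact_mod_cast hi')
    exact (mul_pos_iff_of_pos_left hy).1 (by linarith : 0 < y * i)
  have hj : 0 < j := by
    have h6 : 0 < x * j' := mul_pos hx (by exact_mod_cast hj')
    exact (mul_pos_iff_of_pos_left hy).1 (by linarith : 0 < y * j)
  refine ⟨i.toNat, j.toNat, by omega, by omega, ?_⟩
  rw [← natCast_zsmul, ← natCast_zsmul, Int.toNat_of_nonneg hi.le, Int.toNat_of_nonneg hj.le, hij]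

/-- `A` maps positive roots to positive roots (`IsRoot.act`, `Acts.map_US_ray`, `IsRoot.dot_ne`,
`US_pos_inf_nn`). With `A^[M] = id` let `c'` represent `γ ↦ ∑ k < M, A^[k] γ ⬝ᵥ c`. Then
`m ∈ H = US G (zeroS c')` (`Acts.mem_zeroS`), no root is orthogonal to `c'`, so
`US H (posS c)` and `US H (posS (-c))` are trivial (`Good.US_le_iSup_root`, `IsRoot.exists_wt`), and
`Good.le_sup` for `H`, `Good.zeroS_eq` give `H ≤ T`. -/
theorem Good.norm_U (hG : Good wt G) (hR : Red G) (hc : Regular wt c) {m : GL (Fin n) F}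
    (hm : m ∈ G) (hN : m ∈ NN F wt)
    (h : ∀ u ∈ US wt G (posS c), m * u * m⁻¹ ∈ US wt G (posS c)) : m ∈ TT F wt := by
  obtain ⟨A, hA⟩ := exists_acts hG.span hN
  obtain ⟨M, hM, hAM⟩ := hA.exists_iterate hG.span
  have hpos : ∀ α, IsRoot wt G α ∧ 0 < α ⬝ᵥ c → IsRoot wt G (A α) ∧ 0 < A α ⬝ᵥ c := by
    rintro α ⟨hα, hαc⟩
    have hβ := hα.act hm hA
    refine ⟨hβ, lt_of_le_of_ne (not_lt.1 fun hlt => hβ.2.1 ?_) (hβ.dot_ne hc).symm⟩
    rw [eq_bot_iff, ← US_pos_inf_nn (wt := wt) (G := G) (G' := G) (c := c)]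
    refine le_inf (US_mono le_rfl (ray_le_posS (by rw [dotProduct_neg]; omega))) ?_
    rw [← hA.map_US_ray hm]
    rintro _ ⟨u, hu, rfl⟩
    exact US_mono le_rfl (fun γ hγ => mem_nnS.2 (mem_posS.1 hγ).le) (h u (US_mono le_rfl (ray_le_posS hαc) hu))
  have hit : ∀ k α, IsRoot wt G α ∧ 0 < α ⬝ᵥ c → IsRoot wt G (A^[k] α) ∧ 0 < A^[k] α ⬝ᵥ c := by
    intro k α hα
    induction k with
    | zero => exact hα
    | succ k ih =>
      rw [Function.iterate_succ_apply']
      exact hpos _ ih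
  obtain ⟨c', hc'⟩ := LitComm_dual (AddMonoidHom.mk' (fun γ => ∑ k ∈ Finset.range M, A^[k] γ ⬝ᵥ c)
    fun γ δ => by
      rw [← Finset.sum_add_distrib]
      exact Finset.sum_congr rfl fun k _ => by rw [iterate_map_add, add_dotProduct])
  simp only [AddMonoidHom.mk'_apply] at hc'
  have hinv : ∀ γ, A γ ⬝ᵥ c' = γ ⬝ᵥ c' := by
    intro γ
    have h1 := Finset.sum_range_succ (fun k => A^[k] γ ⬝ᵥ c) M
    have h2 := Finset.sum_range_succ' (fun k => A^[k] γ ⬝ᵥ c) M
    simp only [Function.iterate_succ_apply, Function.iterate_zero_apply] at h2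
    rw [hAM] at h1
    rw [hc', hc']
    linarith
  have hpos' : ∀ α, IsRoot wt G α → 0 < α ⬝ᵥ c → 0 < α ⬝ᵥ c' := fun α hα hαc => by
    rw [hc']
    exact Finset.sum_pos (fun k _ => (hit k α ⟨hα, hαc⟩).2) ⟨0, Finset.mem_range.2 hM⟩
  have hne : ∀ α, IsRoot wt G α → α ⬝ᵥ c' ≠ 0 := by
    intro α hα
    rcases lt_or_gt_of_ne (hα.dot_ne hc) with h1 | h1
    · have h2 := hpos' _ (hα.neg hG hR) (by rw [neg_dotProduct]; omega)
      rw [neg_dotProduct] at h2
      omega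
    · exact (hpos' α hα h1).ne'
  have hbot : ∀ d, US wt (US wt G (Lit.zeroS c')) (posS d) ≤ TT F wt := by
    intro d
    rw [US_US]
    refine le_trans (hG.US_le_iSup_root hR (c := d) inf_le_right) (iSup_le fun α => iSup_le ?_)
    rintro ⟨hα, hle⟩
    obtain ⟨δ, hδ⟩ := LitComm_ne hα
    obtain ⟨⟨x, y, -, hy, hxy⟩, h0, -⟩ := LitComm_supp hle hδ
    have h1 := congrArg (fun γ => γ ⬝ᵥ c') hxy
    have h2 : δ ⬝ᵥ c' = 0 := h0
    simp only [smul_dotProduct, h2, smul_eq_mul, mul_zero] at h1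
    exact absurd h1.symm (mul_ne_zero hy.ne' (hne α hα))
  have hmH : m ∈ US wt G (Lit.zeroS c') := ⟨hm, (hA.mem_zeroS hinv).2⟩
  refine (le_trans ((hG.zeroS c').le_sup c) (sup_le (sup_le (hbot _) ?_) (hbot _))) hmH
  rw [← hG.zeroS_eq hR hc]
  exact US_mono US_le le_rfl

end Pool.Agent.Work.MP_bb5f23_al.Lit
end

-- merged part: Pool.Agent.Work.MP_bb5f23_al.LitAsm
section
/-! The root group data of a reductive group with diagonal maximal torus. -/

namespace Pool.Agent.Work.MP_bb5f23_al.Lit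

open scoped MatrixGroups

variable {F : Type} [Field F] [IsAlgClosed F] [IsFbar F] {n r : ℕ} {wt : Fin n → Fin r → ℤ}
  {G : Subgroup (GL (Fin n) F)} {c : Fin r → ℤ}

/-- Choose `x α`, `y α`, `co α`, `φ α` from `IsRoot.exists_sl2` for every root `α`; put
`xh α = x α` for positive roots, `xh α = y (-α)` for negative roots (`IsRoot.neg`, `IsRoot.dot_ne`),
and trivial homomorphisms otherwise. -/
theorem Good.exists_choice (hG : Good wt G) (hR : Red G) (hc : Regular wt c) :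
    ∃ (xh : (Fin r → ℤ) → Multiplicative F →* GL (Fin n) F) (co : (Fin r → ℤ) → Fin r → ℤ)
      (phi : (Fin r → ℤ) → SL(2, F) →* GL (Fin n) F), (∀ α a, xh α a ∈ G) ∧ (∀ α g, phi α g ∈ G) ∧
      (∀ α, IsRoot wt G α → RootHom wt G α (xh α) ∧ α ⬝ᵥ co α = 2 ∧
        ∀ β, IsRoot wt G β → IsRoot wt G (β - (β ⬝ᵥ co α) • α)) ∧
      ∀ α, IsRoot wt G α → 0 < α ⬝ᵥ c →
        (∀ (a : F) (g : SL(2, F)), g.1 = !![1, a; 0, 1] →
          phi α g = xh α (Multiplicative.ofAdd a)) ∧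
        (∀ (a : F) (g : SL(2, F)), g.1 = !![1, 0; a, 1] →
          phi α g = xh (-α) (Multiplicative.ofAdd a)) ∧
        ∀ (t : Fˣ) (g : SL(2, F)), g.1 = !![(t : F), 0; 0, (t⁻¹ : Fˣ)] →
          phi α g = tau wt (cochar (co α) t) := by
  have key : ∀ α : Fin r → ℤ, ∃ (x y : Multiplicative F →* GL (Fin n) F) (co : Fin r → ℤ)
      (φ : SL(2, F) →* GL (Fin n) F), (∀ a, x a ∈ G) ∧ (∀ a, y a ∈ G) ∧ (∀ g, φ g ∈ G) ∧
      (IsRoot wt G α → RootHom wt G α x ∧ RootHom wt G (-α) y ∧ α ⬝ᵥ co = 2 ∧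
        (∀ β, IsRoot wt G β → IsRoot wt G (β - (β ⬝ᵥ co) • α)) ∧
        (∀ (a : F) (g : SL(2, F)), g.1 = !![1, a; 0, 1] → φ g = x (Multiplicative.ofAdd a)) ∧
        (∀ (a : F) (g : SL(2, F)), g.1 = !![1, 0; a, 1] → φ g = y (Multiplicative.ofAdd a)) ∧
        ∀ (t : Fˣ) (g : SL(2, F)), g.1 = !![(t : F), 0; 0, (t⁻¹ : Fˣ)] →
          φ g = tau wt (cochar co t)) := by
    intro α
    by_cases hα : IsRoot wt G α
    · obtain ⟨x, y, co, φ, h1, h2, h3, h4, h5, h6, h7, h8⟩ := hα.exists_sl2 hG hR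
      have xm : ∀ a, x a ∈ US wt G (ray α) := fun a => h1.range ▸ ⟨a, rfl⟩
      have ym : ∀ a, y a ∈ US wt G (ray (-α)) := fun a => h2.range ▸ ⟨a, rfl⟩
      exact ⟨x, y, co, φ, fun a => US_le (xm a), fun a => US_le (ym a),
        h8, fun _ => ⟨h1, h2, h3, h4, h5, h6, h7⟩⟩
    · exact ⟨1, 1, 0, 1, fun _ => G.one_mem, fun _ => G.one_mem, fun _ => G.one_mem,
        fun h => (hα h).elim⟩
  choose x y co φ hx hy hφ h using key
  refine ⟨fun α => if 0 < α ⬝ᵥ c then x α else y (-α), co, φ, fun α a => ?_, hφ,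
    fun α hα => ⟨?_, (h α hα).2.2.1, (h α hα).2.2.2.1⟩, fun α hα hpos => ?_⟩
  · dsimp only
    split_ifs
    · exact hx α a
    · exact hy _ a
  · dsimp only
    split_ifs
    · exact (h α hα).1
    · have := (h _ (hα.neg hG hR)).2.1
      rwa [neg_neg] at this
  · have hn : ¬ 0 < (-α) ⬝ᵥ c := by
      rw [neg_dotProduct]
      omega
    dsimp only
    rw [if_pos hpos, if_neg hn, neg_neg]
    exact (h α hα).2.2.2.2

/-- `Phi = finite_isRoot.toFinset`, `Delta` from `exists_base`, `rho = Units.coeHom _`. Then `pos`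
is the set of roots with `0 < α ⬝ᵥ c`, `U = US G (posS c)` and `Uneg = US G (posS (-c))`
(`Good.US_pos_eq`). `gen`: `Good.le_sup`, `Good.zeroS_eq`; `weyl`: `exists_acts`, `IsRoot.act`,
`RootHom.conj_eq`; `norm_U`: `Good.norm_U`; `comm`: `Good.comm_root`; products:
`Good.direct_span`; `opp`: `US_pos_inf_nn`. -/
theorem Good.exists_relDatum (hG : Good wt G) (hR : Red G) (hc : Regular wt c) :
    ∃ R : RelDatum F G, R.T = TT F wt ∧ R.U = US wt G (posS c) ∧
      ∀ β ∈ R.Phi, Cl (glA F n) (R.rootSub β : Set (GL (Fin n) F)) := by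
  obtain ⟨xh, co, phi, hx, hphi, hroot, hsl⟩ := hG.exists_choice hR hc
  let Φ : Finset (Fin r → ℤ) := (finite_isRoot (wt := wt) (G := G)).toFinset
  have hΦ : ∀ α, α ∈ Φ ↔ IsRoot wt G α := fun α => Set.Finite.mem_toFinset _
  have hneg : ∀ α ∈ Φ, -α ∈ Φ := fun α hα => (hΦ _).2 (((hΦ α).1 hα).neg hG hR)
  have hred : ∀ α ∈ Φ, ∀ β ∈ Φ, ∀ a b : ℤ, a ≠ 0 → a • β = b • α → β = α ∨ β = -α :=
    fun α hα β hβ a b ha h => ((hΦ α).1 hα).reduced hG hR ((hΦ β).1 hβ) ha h
  obtain ⟨Δ, hΔ, hind, hcl⟩ := exists_base (Φ := Φ) (co := co)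
    (fun α hα => (hroot α ((hΦ α).1 hα)).2.1) hneg
    (fun α hα β hβ => (hΦ _).2 ((hroot α ((hΦ α).1 hα)).2.2 β ((hΦ β).1 hβ))) hred
    (fun α hα => ((hΦ α).1 hα).dot_ne hc)
  let P : PreDatum F (GL (Fin n) F) := ⟨n, r, Units.coeHom _, tau wt, wt, Φ, Δ, xh, co, phi⟩
  have hpos : ∀ α : Fin r → ℤ, α ∈ P.pos ↔ IsRoot wt G α ∧ 0 < α ⬝ᵥ c := by
    intro α
    have h0 : α ∈ P.pos ↔ α ∈ Φ ∧ α ∈ AddSubmonoid.closure (Δ : Set (Fin r → ℤ)) := by
      unfold PreDatum.pos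
      exact @Finset.mem_filter _ _ (_) _ _
    rw [h0]
    exact ⟨fun h => ⟨(hΦ α).1 h.1, (hcl α h.1).1 h.2⟩,
      fun h => ⟨(hΦ α).2 h.1, (hcl α ((hΦ α).2 h.1)).2 h.2⟩⟩
  have hsub : ∀ α : Fin r → ℤ, IsRoot wt G α → P.rootSub α = US wt G (ray α) :=
    fun α hα => (hroot α hα).1.range
  have hxm : ∀ α : Fin r → ℤ, IsRoot wt G α → ∀ a, P.x α a ∈ US wt G (ray α) :=
    fun α hα a => hsub α hα ▸ ⟨_, rfl⟩
  have hD : ∀ α ∈ Δ, IsRoot wt G α ∧ 0 < α ⬝ᵥ c := fun α hα =>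
    ⟨(hΦ α).1 (hΔ hα), (hcl α (hΔ hα)).1 (AddSubmonoid.subset_closure hα)⟩
  have hU : P.U = US wt G (posS c) := by
    rw [hG.US_pos_eq hR c]
    refine le_antisymm (iSup₂_le fun α hα => ?_) (iSup₂_le fun α hα => ?_)
    · rw [hsub α ((hpos α).1 hα).1]
      exact le_iSup₂_of_le α ((hpos α).1 hα) le_rfl
    · rw [← hsub α hα.1]
      exact le_iSup₂_of_le (f := fun α (_ : α ∈ P.pos) => P.rootSub α) α ((hpos α).2 hα) le_rfl
  have hall : ∀ c' : Fin r → ℤ, US wt G (posS c') ≤ ⨆ α ∈ Φ, P.rootSub α := by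
    intro c'
    rw [hG.US_pos_eq hR c']
    refine iSup₂_le fun α hα => ?_
    rw [← hsub α hα.1]
    exact le_iSup₂_of_le (f := fun α (_ : α ∈ Φ) => P.rootSub α) α ((hΦ α).2 hα.1) le_rfl
  refine ⟨
    { toPreDatum := P
      tau_mem := fun z => hG.le (tau_mem z)
      xh_mem := hx
      phi_mem := hphi
      rho_inj := Units.val_injective
      rho_tau := fun z => tau_val z
      delta_sub := hΔ
      delta_indep := hind
      pos_or_neg := fun α hα => ?_
      neg_mem := hneg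
      zero_not_mem := fun h => ((hΦ 0).1 h).1 rfl
      reduced := hred
      x_inj := fun α hα => (hroot α ((hΦ α).1 hα)).1.inj
      tau_x := fun α hα z a => (hroot α ((hΦ α).1 hα)).1.conj z a
      gen := ?_
      phi_upper := fun α hα => (hsl α (hD α hα).1 (hD α hα).2).1
      phi_lower := fun α hα => (hsl α (hD α hα).1 (hD α hα).2).2.1
      phi_diag := fun α hα => (hsl α (hD α hα).1 (hD α hα).2).2.2
      weyl := fun m hm hN => ?_
      norm_U := fun m hm hN h => hG.norm_U hR hc hm hN (hU ▸ h)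
      comm := fun α hα β hβ hne a b => ?_
      prod_surj := fun l hl hmem u hu => ?_
      prod_inj := fun l hl hmem a b h α hα => ?_
      opp := ?_ }, rfl, hU, fun β hβ => ?_⟩
  · have h1 := (hΦ α).1 hα
    rcases lt_or_gt_of_ne (h1.dot_ne hc) with h | h
    · refine Or.inr ((hpos _).2 ⟨h1.neg hG hR, ?_⟩)
      rw [neg_dotProduct]
      omega
    · exact Or.inl ((hpos _).2 ⟨h1, h⟩)
  · refine (hG.le_sup c).trans (sup_le (sup_le ?_ ?_) ?_)
    · exact (hall _).trans le_sup_right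
    · rw [hG.zeroS_eq hR hc]
      exact le_sup_left
    · exact (hall _).trans le_sup_right
  · obtain ⟨A, hA⟩ := exists_acts hG.span hN
    refine ⟨A.toAddMonoidHom, hA.spec, fun β hβ => ?_⟩
    have h1 := (hΦ β).1 hβ
    have h2 := h1.act hm hA
    exact ⟨(hΦ _).2 h2, RootHom.conj_eq h1.1 hm hA (hroot β h1).1 (hroot _ h2).1⟩
  · obtain ⟨h1, h2⟩ := (hpos α).1 hα
    obtain ⟨h3, h4⟩ := (hpos β).1 hβ
    refine SetLike.le_def.1 (iSup₂_le fun γ hγ => ?_)
      (hG.comm_root hR h1 h3 h2 h4 hne (hxm α h1 a) (hxm β h3 b))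
    rw [← hsub γ hγ.1]
    exact le_iSup₂_of_le (f := fun γ (_ : γ ∈ Φ) =>
      ⨆ _ : ∃ i j : ℕ, 0 < i ∧ 0 < j ∧ γ = i • α + j • β, P.rootSub γ) γ ((hΦ γ).2 hγ.1)
      (le_iSup (fun _ : ∃ i j : ℕ, 0 < i ∧ 0 < j ∧ γ = i • α + j • β => P.rootSub γ) hγ.2)
  · have hm : ∀ α, α ∈ l ↔ IsRoot wt G α ∧ 0 < α ⬝ᵥ c := fun α => (hmem α).trans (hpos α)
    obtain ⟨a, ha, rfl⟩ := (hG.direct_span hR l hl hm).1 u (hU ▸ hu)
    have : ∀ α : Fin r → ℤ, ∃ t : F, α ∈ l → a α = P.x α t := by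
      intro α
      by_cases hα : α ∈ l
      · have h1 := ha α hα
        rw [← hsub α ((hm α).1 hα).1] at h1
        obtain ⟨t, ht⟩ := h1
        exact ⟨t.toAdd, fun _ => ht.symm⟩
      · exact ⟨0, fun h => (hα h).elim⟩
    choose t ht using this
    exact ⟨t, congrArg List.prod (List.map_congr_left ht)⟩
  · have hm : ∀ α, α ∈ l ↔ IsRoot wt G α ∧ 0 < α ⬝ᵥ c := fun α => (hmem α).trans (hpos α)
    have := (hG.direct_span hR l hl hm).2 (fun α => P.x α (a α)) (fun α => P.x α (b α))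
      (fun α hα => hxm α ((hm α).1 hα).1 _) (fun α hα => hxm α ((hm α).1 hα).1 _) h α hα
    exact Multiplicative.ofAdd.injective ((hroot α ((hm α).1 hα).1).1.inj this)
  · have h1 : P.B ≤ US wt G (Lit.nnS c) := by
      refine sup_le (TT_le_US hG.le (by simp [mem_nnS])) ?_
      rw [hU]
      exact US_mono le_rfl fun γ hγ => mem_nnS.2 (mem_posS.1 hγ).le
    have h2 : P.Uneg ≤ US wt G (posS (-c)) := by
      refine iSup₂_le fun α hα => ?_
      obtain ⟨h3, h4⟩ := (hpos α).1 hα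
      rw [hsub _ (h3.neg hG hR)]
      refine US_mono le_rfl (ray_le_posS ?_)
      simpa using h4
    rw [eq_bot_iff, ← US_pos_inf_nn (wt := wt) (G := G) (G' := G) (c := c), inf_comm]
    exact inf_le_inf h2 h1
  · change Cl (glA F n) (P.rootSub β : Set (GL (Fin n) F))
    rw [hsub β ((hΦ β).1 hβ)]
    exact hG.cl.US

end Pool.Agent.Work.MP_bb5f23_al.Lit
end

-- merged part: Pool.Agent.Work.MP_bb5f23_al.LitLit
section
/-! From the literal hypotheses to a datum. -/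

namespace Pool.Agent.Work.MP_bb5f23_al.Lit

variable {F : Type} [Field F] {n r : ℕ} {G B T : Subgroup (GL (Fin n) F)}

theorem LitLit_normalizer {P Q : Subgroup (GL (Fin n) F)}
    (h : ∀ p ∈ P, ∀ u ∈ Q, p * u * p⁻¹ ∈ Q) : P ≤ Subgroup.normalizer (Q : Set (GL (Fin n) F)) := by
  intro p hp
  rw [Subgroup.mem_normalizer_iff]
  refine fun u => ⟨h p hp u, fun hu => ?_⟩
  have := h p⁻¹ (P.inv_mem hp) _ hu
  simpa [mul_assoc] using this

theorem LitLit_map (h : GL (Fin n) F) (X : Subgroup G) :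
    X.map G.subtype = cj h (X.map ((MulAut.conj h⁻¹).toMonoidHom.comp G.subtype)) := by
  rw [← Subgroup.map_map]
  exact (cj_cj_inv h _).symm

variable [IsAlgClosed F] [IsFbar F] {wt : Fin n → Fin r → ℤ}

/-- `B = US G (nnS c)` by `Good.exists_le_nnS` and maximality (`Good.nnS`, `Good.isSolvable_nnS`);
`US G (posS c)` is closed, irreducible, unipotent, normal in `B` (`nn_conj_pos`) and contains every
unipotent element of `B` (`Good.mem_pos_of_unip`). -/
theorem exists_ru_eq (hspan : AddSubgroup.closure (Set.range wt) = ⊤) (hG : IsConnRed G)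
    (hB : IsBorel G B) (hT : IsMaxTorus G (TT F wt)) (hTB : TT F wt ≤ B) :
    Good wt G ∧ Red G ∧ ∃ c, Regular wt c ∧ Ru B = US wt G (posS c) := by
  have hcl : Cl (glA F n) (G : Set (GL (Fin n) F)) := zclosed_iff.1 hG.1
  have hgood : Good wt G := ⟨hspan, hcl, irr_of_zconn hcl hG.2.1, hT.prop.1,
    fun S hS h1 h2 => hT.le_of_ge ⟨h2, hS⟩ h1⟩
  have hred : Red G := red_of_ru hcl hG.2.2
  obtain ⟨h1, h2, h3, h4⟩ := hB.prop
  have hBc := zclosed_iff.1 h2
  obtain ⟨c, hc, hle⟩ := hgood.exists_le_nnS hred h1 hBc (irr_of_zconn hBc h3) h4 hTB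
  have hP := hgood.nnS c
  have e : B = US wt G (Lit.nnS c) := le_antisymm hle (hB.le_of_ge
    ⟨US_le, zclosed_iff.2 hP.cl, hP.irr.zconn, hgood.isSolvable_nnS hred hc⟩ hle)
  refine ⟨hgood, hred, c, hc, le_antisymm (sSup_le fun Q hQ g hg => ?_) (le_sSup ?_)⟩
  · exact hgood.mem_pos_of_unip hred hc (hle (hQ.1 hg)) (hQ.2.2.2.2 g hg)
  · rw [e]
    exact ⟨US_mono le_rfl fun _ h => mem_nnS.2 (mem_posS.1 h).le,
      LitLit_normalizer fun _ hp _ hu => nn_conj_pos hp hu,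
      zclosed_iff.2 hcl.US, (irr_US hgood.le le_rfl).zconn, isUnip_US le_rfl⟩

/-- Take `h`, `wt` from `IsTorus.exists_wt`; apply `exists_ru_eq` to the conjugates by `h⁻¹`,
`Good.exists_relDatum`, and `RelDatum.exists_datum` with `j g = h⁻¹ * g * h`. -/
theorem exists_datum₀ (hG : IsConnRed G) (hB : IsBorel G B) (hT : IsMaxTorus G T) (hTB : T ≤ B) :
    ∃ D : Datum F G, D.T.map G.subtype = T ∧ D.U.map G.subtype = Ru B ∧ IsUnip (Ru B) ∧
      ∀ α ∈ D.Phi, ZClosed ((D.rootSub α).map G.subtype : Set (GL (Fin n) F)) := by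
  obtain ⟨h, r, wt, hspan, hTe⟩ := hT.prop.2.exists_wt
  have hTe' : T = cj h (TT F wt) := hTe
  have e : cj h⁻¹ T = TT F wt := by rw [hTe', cj_inv_cj]
  obtain ⟨hgood, hred, c, hc, hU⟩ := exists_ru_eq hspan (hG.cj h⁻¹) (hB.cj h⁻¹)
    (e ▸ hT.cj h⁻¹) (e ▸ cj_le_cj.2 hTB)
  obtain ⟨R, h1, h2, h3⟩ := hgood.exists_relDatum hred hc
  obtain ⟨D, k1, k2, k3⟩ := R.exists_datum ((MulAut.conj h⁻¹).toMonoidHom.comp G.subtype)
    ((MulAut.conj h⁻¹).injective.comp Subtype.val_injective)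
    (by rw [MonoidHom.range_comp, Subgroup.range_subtype]; rfl)
  have hRu : Ru B = cj h (US wt (cj h⁻¹ G) (posS c)) := by rw [← hU, ← cj_Ru, cj_cj_inv]
  refine ⟨D, ?_, ?_, ?_, fun α hα => ?_⟩
  · rw [LitLit_map h, k1, h1, hTe']
  · rw [LitLit_map h, k2, h2, hRu]
  · rw [hRu]
    exact (isUnip_US le_rfl).cj h
  · obtain ⟨β, hβ, e'⟩ := k3 α hα
    rw [LitLit_map h, e']
    exact (zclosed_iff.2 (h3 β hβ)).cj h

end Pool.Agent.Work.MP_bb5f23_al.Lit
end

-- merged part: Pool.Agent.Work.MP_bb5f23_al.GV1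
section
/-! Coordinates in an object of `X(G)`. -/

namespace Pool.Agent.Work.MP_bb5f23_al

namespace Datum

variable {F : Type} [Field F] {G : Type*} [Group G] {D : Datum F G} [IsAlgClosed F]
variable {k : Type*} [Field k] {V : Type*} [AddCommGroup V] [Module k V]
variable {ρ : Representation k G V}

namespace NF

variable (Z : D.NF ρ)

theorem GV1_mul (g h : G) (v : V) : ρ (g * h) v = ρ g (ρ h v) := by
  rw [map_mul]
  rfl

theorem GV1_coe_one {H : Subgroup G} {u : G} : (u : G ⧸ H) = ((1 : G) : G ⧸ H) ↔ u ∈ H := by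
  rw [eq_comm, QuotientGroup.eq]
  simp

theorem GV1_co_xi (i : Fin Z.m) :
    Z.co (Z.ξ i) = Finsupp.single ⟨i, ((1 : G) : G ⧸ D.U' (Z.w i))⟩ 1 := by
  have := Z.co_apply i 1 D.U.one_mem
  simpa using this

theorem fix (i : Fin Z.m) {u : G} (hu : u ∈ D.U' (Z.w i)) : ρ u (Z.ξ i) = Z.ξ i := by
  apply Z.co_inj
  rw [Z.co_apply i u (D.U'_le_U _ hu), Z.GV1_co_xi, GV1_coe_one.2 hu]

theorem GV1_congr (i : Fin Z.m) {u u' : G}
    (h : (u : G ⧸ D.U' (Z.w i)) = (u' : G ⧸ D.U' (Z.w i))) :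
    ρ u (Z.ξ i) = ρ u' (Z.ξ i) := by
  have h1 : u⁻¹ * u' ∈ D.U' (Z.w i) := QuotientGroup.eq.1 h
  have h2 : u' = u * (u⁻¹ * u') := by group
  conv_rhs => rw [h2, GV1_mul, Z.fix i h1]

theorem GV1_ext {W : Type*} [AddCommGroup W] [Module k W] (f g : V →ₗ[k] W)
    (h : ∀ i, ∀ u ∈ D.U, f (ρ u (Z.ξ i)) = g (ρ u (Z.ξ i))) (v : V) : f v = g v := by
  have : f = g := LinearMap.ext_on Z.span_top <| by
    rintro _ ⟨i, u, hu, rfl⟩
    exact h i u hu
  rw [this]

/-- `U` permutes the basis (check on the spanning set). -/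
theorem co_U {u : G} (hu : u ∈ D.U) (v : V) :
    Z.co (ρ u v) = Finsupp.mapDomain (fun c => ⟨c.1, u • c.2⟩) (Z.co v) := by
  refine Z.GV1_ext (Z.co ∘ₗ ρ u)
    (Finsupp.lmapDomain k k (fun c : (Σ i : Fin Z.m, G ⧸ D.U' (Z.w i)) =>
      (⟨c.1, u • c.2⟩ : Σ i : Fin Z.m, G ⧸ D.U' (Z.w i))) ∘ₗ Z.co) (fun i u' hu' => ?_) v
  simp only [LinearMap.comp_apply, Finsupp.lmapDomain_apply]
  rw [← GV1_mul, Z.co_apply i _ (D.U.mul_mem hu hu'), Z.co_apply i _ hu',
    Finsupp.mapDomain_single]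
  rfl

theorem GV1_co_U_apply {u : G} (hu : u ∈ D.U) (v : V) (i : Fin Z.m) (c : G ⧸ D.U' (Z.w i)) :
    Z.co (ρ u v) ⟨i, u • c⟩ = Z.co v ⟨i, c⟩ := by
  rw [Z.co_U hu]
  refine Finsupp.mapDomain_apply (f := fun c : (Σ i : Fin Z.m, G ⧸ D.U' (Z.w i)) =>
      (⟨c.1, u • c.2⟩ : Σ i : Fin Z.m, G ⧸ D.U' (Z.w i))) ?_ _ ⟨i, c⟩
  rintro ⟨i, c⟩ ⟨i', c'⟩ h
  obtain rfl : i = i' := congrArg Sigma.fst h
  have h2 : u • c = u • c' := eq_of_heq (Sigma.mk.inj h).2
  rw [smul_left_cancel u h2]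

/-- Every index in a support is the class of an element of `U`. -/
theorem exists_rep {v : V} {i : Fin Z.m} {c : G ⧸ D.U' (Z.w i)} (h : Z.co v ⟨i, c⟩ ≠ 0) :
    ∃ u ∈ D.U, c = (u : G ⧸ D.U' (Z.w i)) := by
  by_contra hc
  apply h
  refine Z.GV1_ext (Finsupp.lapply (⟨i, c⟩ : Σ i : Fin Z.m, G ⧸ D.U' (Z.w i)) ∘ₗ Z.co) 0
    (fun i' u hu => ?_) v
  simp only [LinearMap.comp_apply, Finsupp.lapply_apply, LinearMap.zero_apply]
  rw [Z.co_apply i' u hu]
  refine Finsupp.single_eq_of_ne fun h2 => hc ?_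
  obtain rfl : i = i' := congrArg Sigma.fst h2
  exact ⟨u, hu, eq_of_heq (Sigma.mk.inj h2).2⟩

/-- `T` acts monomially. -/
theorem co_T (t : D.T) (v : V) (i : Fin Z.m) {u : G} (hu : u ∈ D.U) :
    Z.co (ρ t v) ⟨i, ((t * u * (t : G)⁻¹ : G) : G ⧸ D.U' (Z.w i))⟩ =
      Z.θ i t * Z.co v ⟨i, (u : G ⧸ D.U' (Z.w i))⟩ := by
  classical
  refine Z.GV1_ext
    (Finsupp.lapply (⟨i, ((t * u * (t : G)⁻¹ : G) : G ⧸ D.U' (Z.w i))⟩ :
      Σ i : Fin Z.m, G ⧸ D.U' (Z.w i)) ∘ₗ Z.co ∘ₗ ρ t)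
    ((Z.θ i t : k) • (Finsupp.lapply (⟨i, (u : G ⧸ D.U' (Z.w i))⟩ :
      Σ i : Fin Z.m, G ⧸ D.U' (Z.w i)) ∘ₗ Z.co)) (fun i' u' hu' => ?_) v
  simp only [LinearMap.comp_apply, Finsupp.lapply_apply, LinearMap.smul_apply, smul_eq_mul]
  have e : ρ t (ρ u' (Z.ξ i')) = (Z.θ i' t : k) • ρ (t * u' * (t : G)⁻¹) (Z.ξ i') := by
    rw [← map_smul, ← Z.eig, ← GV1_mul, ← GV1_mul, inv_mul_cancel_right]
  rw [e, map_smul, Z.co_apply i' _ (D.conj_mem_U t.2 hu'), Z.co_apply i' _ hu',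
    Finsupp.smul_apply, smul_eq_mul]
  by_cases hi : i' = i
  · subst hi
    congr 1
    rw [Finsupp.single_apply, Finsupp.single_apply]
    refine if_congr ?_ rfl rfl
    simp only [Sigma.mk.injEq, heq_eq_eq, true_and, QuotientGroup.eq]
    constructor
    · intro h
      have := D.conj_mem_U' (Z.w_mem i') (D.T.inv_mem t.2) h
      convert this using 1
      group
    · intro h
      have := D.conj_mem_U' (Z.w_mem i') t.2 h
      convert this using 1
      group
  · rw [Finsupp.single_eq_of_ne fun h => hi (congrArg Sigma.fst h).symm,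
      Finsupp.single_eq_of_ne fun h => hi (congrArg Sigma.fst h).symm, mul_zero, mul_zero]

/-- A vector is in the span of the basis vectors of its support. -/
theorem mem_of_support {v : V} {W : Submodule k V}
    (h : ∀ i, ∀ u ∈ D.U, Z.co v ⟨i, (u : G ⧸ D.U' (Z.w i))⟩ ≠ 0 → ρ u (Z.ξ i) ∈ W) : v ∈ W := by
  have key : ∀ p : (Σ i : Fin Z.m, G ⧸ D.U' (Z.w i)), ∃ y : V, Z.co v p ≠ 0 →
      y ∈ W ∧ Z.co y = Finsupp.single p 1 := by
    rintro ⟨i, c⟩
    by_cases hp : Z.co v ⟨i, c⟩ = 0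
    · exact ⟨0, fun h => absurd hp h⟩
    · obtain ⟨u, hu, rfl⟩ := Z.exists_rep hp
      exact ⟨ρ u (Z.ξ i), fun _ => ⟨h i u hu hp, Z.co_apply i u hu⟩⟩
  choose y hy using key
  have e : v = ∑ p ∈ (Z.co v).support, Z.co v p • y p := by
    apply Z.co_inj
    rw [map_sum]
    conv_lhs => rw [← Finsupp.sum_single (Z.co v)]
    refine Finset.sum_congr rfl fun p hp => ?_
    rw [map_smul, (hy p (Finsupp.mem_support_iff.1 hp)).2, Finsupp.smul_single, smul_eq_mul,
      mul_one]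
  rw [e]
  exact W.sum_mem fun p hp => W.smul_mem _ (hy p (Finsupp.mem_support_iff.1 hp)).1

theorem GV1_supp_one {v : V} (hv : v ∈ Submodule.span k (Set.range Z.ξ)) {i : Fin Z.m}
    {c : G ⧸ D.U' (Z.w i)} (h : Z.co v ⟨i, c⟩ ≠ 0) : c = ((1 : G) : G ⧸ D.U' (Z.w i)) := by
  by_contra hc
  apply h
  have : Submodule.span k (Set.range Z.ξ) ≤ LinearMap.ker
      (Finsupp.lapply (⟨i, c⟩ : Σ i : Fin Z.m, G ⧸ D.U' (Z.w i)) ∘ₗ Z.co) := by
    rw [Submodule.span_le]
    rintro _ ⟨i', rfl⟩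
    simp only [SetLike.mem_coe, LinearMap.mem_ker, LinearMap.comp_apply, Finsupp.lapply_apply]
    rw [Z.GV1_co_xi]
    refine Finsupp.single_eq_of_ne fun h2 => hc ?_
    obtain rfl : i = i' := congrArg Sigma.fst h2
    exact eq_of_heq (Sigma.mk.inj h2).2
  exact this hv

theorem GV1_x_mem {m : G} (hm : m ∈ D.N) {γ : Fin D.r → ℤ} (hγ : γ ∈ D.pos)
    (h : D.act m γ ∈ D.pos) (a : F) : D.x γ a ∈ D.U' m := by
  by_cases ha : a = 0
  · rw [ha, D.x_zero]
    exact Subgroup.one_mem _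
  · exact (D.x_mem_U'_iff hm hγ ha).2 h

/-- `x_mem_U'_iff`. -/
theorem mem_span_of_fix {v : V} (hv : v ∈ Submodule.span k (Set.range Z.ξ))
    {Ψ : Finset (Fin D.r → ℤ)} (hΨ : Ψ ⊆ D.pos) (h : ∀ γ ∈ Ψ, ρ (D.x γ 1) v = v) :
    v ∈ Submodule.span k (Z.ξ '' {i | Ψ ⊆ D.Psi (Z.w i)}) := by
  refine Z.mem_of_support fun i u _ hne => ?_
  have h1 := Z.GV1_supp_one hv hne
  rw [Z.fix i (GV1_coe_one.1 h1)]
  refine Submodule.subset_span ⟨i, fun γ hγ => ?_, rfl⟩
  have h2 := Z.GV1_co_U_apply (D.x_mem_U (hΨ hγ) 1) v i (u : G ⧸ D.U' (Z.w i))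
  rw [h γ hγ] at h2
  have h3 := Z.GV1_supp_one hv (h2 ▸ hne)
  rw [h1] at h3
  have h4 : ((D.x γ 1 * 1 : G) : G ⧸ D.U' (Z.w i)) = ((1 : G) : G ⧸ D.U' (Z.w i)) := h3
  rw [mul_one, GV1_coe_one] at h4
  exact D.mem_Psi.2 ⟨hΨ hγ, (D.x_mem_U'_iff (Z.w_mem i) (hΨ hγ) one_ne_zero).1 h4⟩

/-- Support lemma: the support of an eigenvector of `ker β` is stable under `ker β`; write its
points as `u₁ U'` with `u₁ ∈ Um (w i)` (`U_decomp`, `eq_one_of_Um`, `conj_mem_Um`) and use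
`mem_rootSub_of_finite`. -/
theorem support_of_eigen {β : Fin D.r → ℤ} (hβ : β ∈ D.pos) {v : V}
    (h : ∀ z, mon β z = 1 → ∃ c : k, c ≠ 0 ∧ ρ (D.tau z) v = c • v) {i : Fin Z.m}
    {c : G ⧸ D.U' (Z.w i)} (hc : Z.co v ⟨i, c⟩ ≠ 0) :
    ∃ b, c = (D.x β b : G ⧸ D.U' (Z.w i)) := by
  obtain ⟨u, hu, rfl⟩ := Z.exists_rep hc
  obtain ⟨u₁, hu₁, u₂, hu₂, rfl⟩ := D.U_decomp (Z.w_mem i) hu
  have e : ((u₁ * u₂ : G) : G ⧸ D.U' (Z.w i)) = (u₁ : G ⧸ D.U' (Z.w i)) :=
    QuotientGroup.mk_mul_of_mem u₁ hu₂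
  rw [e] at hc ⊢
  have hfin : {g | ∃ z, mon β z = 1 ∧ g = D.tau z * u₁ * (D.tau z)⁻¹}.Finite := by
    refine Set.Finite.of_injOn (f := fun g : G =>
      (⟨i, (g : G ⧸ D.U' (Z.w i))⟩ : Σ i : Fin Z.m, G ⧸ D.U' (Z.w i))) ?_ ?_
      (Z.co v).support.finite_toSet
    · rintro _ ⟨z, hz, rfl⟩
      obtain ⟨a, ha, hav⟩ := h z hz
      have h1 := Z.co_T ⟨D.tau z, D.tau_mem z⟩ v i hu₁.1
      simp only [hav, map_smul, Finsupp.smul_apply, smul_eq_mul] at h1
      simp only [Finset.mem_coe, Finsupp.mem_support_iff]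
      intro h0
      rw [h0, mul_zero] at h1
      exact mul_ne_zero (Units.ne_zero _) hc h1.symm
    · rintro _ ⟨z, _, rfl⟩ _ ⟨z', _, rfl⟩ hzz
      have h1 := D.conj_mem_Um (Z.w_mem i) (D.tau_mem z) hu₁
      have h2 := D.conj_mem_Um (Z.w_mem i) (D.tau_mem z') hu₁
      have h3 := QuotientGroup.eq.1 (eq_of_heq (Sigma.mk.inj hzz).2)
      have h4 := D.eq_one_of_Um ((D.Um _).mul_mem ((D.Um _).inv_mem h1) h2)
        (D.U_le_B (D.conj_mem_of_U' (Z.w_mem i) h3))
      exact inv_mul_eq_one.1 h4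
  obtain ⟨b, rfl⟩ := D.mem_rootSub.1 (D.mem_rootSub_of_finite hβ hu₁.1 hfin)
  exact ⟨b, rfl⟩

theorem GV1_x_mem_VJ {K : Finset (Fin D.r → ℤ)} {γ : Fin D.r → ℤ} (hγ : γ ∈ D.posOut K) (a : F) :
    D.x γ a ∈ D.VJ K :=
  (le_iSup₂_of_le (f := fun α (_ : α ∈ D.posOut K) => D.rootSub α) γ hγ le_rfl) (D.x_mem γ a)

theorem GV1_VJ_le {K : Finset (Fin D.r → ℤ)} {m : G} (hm : m ∈ D.N)
    (h : D.posOut K ⊆ D.Psi m) : D.VJ K ≤ D.U' m := by
  refine iSup₂_le fun γ hγ g hg => ?_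
  obtain ⟨a, rfl⟩ := D.mem_rootSub.1 hg
  have := D.mem_Psi.1 (h hγ)
  exact GV1_x_mem hm this.1 this.2 a

/-- Let `E' = span {ξ i | posOut K ⊆ Psi (w i)}` and `β ∈ K`. For such `i` the vector
`y = s x_β(1) ξ i` is an eigenvector of `ker β` (which commutes with `s β`, `x β`) and is fixed by
`VJ K` (`x_conj_VJ`, `NJ_conj_VJ`). For a support point `(i', x_β(b) U')` and `v ∈ VJ K` the point
`v x_β(b) U'` is again a support point `x_β(b') U'`; either `β ∈ Psi (w i')`, or `U' ≤ U' (s β)`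
(`U'_le_U'_s`, `VJ_le_U'_s`, `x_mem_U'_iff`) forces `b = b'`; in both cases `VJ K ≤ U' (w i')`. -/
theorem s_x_mem {K : Finset (Fin D.r → ℤ)} (hK : K ⊆ D.Delta) {β : Fin D.r → ℤ} (hβ : β ∈ K)
    {v : V} (hv : v ∈ Submodule.span k (Z.ξ '' {i | D.posOut K ⊆ D.Psi (Z.w i)})) :
    ρ (D.s β) (ρ (D.x β 1) v) ∈ ⨆ b,
      (Submodule.span k (Z.ξ '' {i | D.posOut K ⊆ D.Psi (Z.w i)})).map (ρ (D.x β b)) := by
  have hβD := hK hβ
  have hβp := D.delta_pos hβD
  suffices H : Submodule.span k (Z.ξ '' {i | D.posOut K ⊆ D.Psi (Z.w i)}) ≤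
      (⨆ b, (Submodule.span k (Z.ξ '' {i | D.posOut K ⊆ D.Psi (Z.w i)})).map
        (ρ (D.x β b))).comap (ρ (D.s β * D.x β 1)) by
    have := H hv
    rwa [Submodule.mem_comap, GV1_mul] at this
  rw [Submodule.span_le]
  rintro _ ⟨i, hi, rfl⟩
  rw [SetLike.mem_coe, Submodule.mem_comap]
  have heig : ∀ z, mon β z = 1 → ∃ c : k, c ≠ 0 ∧
      ρ (D.tau z) (ρ (D.s β * D.x β 1) (Z.ξ i)) = c • ρ (D.s β * D.x β 1) (Z.ξ i) := by
    intro z hz
    refine ⟨Z.θ i ⟨D.tau z, D.tau_mem z⟩, Units.ne_zero _, ?_⟩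
    have h1 := D.tau_s hβD z
    have h2 := D.tau_x β (D.pos_sub hβp) z 1
    rw [hz, D.h_one, one_mul] at h1
    rw [hz, Units.val_one, one_mul] at h2
    have h3 : D.tau z * (D.s β * D.x β 1) = D.s β * D.x β 1 * D.tau z := by
      conv_rhs => rw [← h1, ← h2]
      group
    rw [← map_smul, ← Z.eig, ← GV1_mul, ← GV1_mul, h3]
  have hfix : ∀ g ∈ D.VJ K,
      ρ g (ρ (D.s β * D.x β 1) (Z.ξ i)) = ρ (D.s β * D.x β 1) (Z.ξ i) := by
    intro g hg
    have h1 := D.NJ_conj_VJ hK ((D.NJ K).inv_mem (D.s_mem_NJ hβ)) hg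
    have h2 := D.x_conj_VJ hK hβ (-1) h1
    have h3 := Z.fix i (GV1_VJ_le (Z.w_mem i) hi h2)
    conv_rhs => rw [← h3]
    rw [← GV1_mul, ← GV1_mul, D.x_neg]
    congr 2
    group
  refine Z.mem_of_support fun i' u _ hne => ?_
  obtain ⟨b, hb⟩ := Z.support_of_eigen hβp heig hne
  rw [Z.GV1_congr i' hb]
  rw [hb] at hne
  refine Submodule.mem_iSup_of_mem b (Submodule.mem_map_of_mem
    (Submodule.subset_span ⟨i', fun γ hγ => ?_, rfl⟩))
  have hγp := (D.mem_posOut.1 hγ).1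
  have hγV : D.x γ 1 ∈ D.VJ K := GV1_x_mem_VJ hγ 1
  have hg := D.x_conj_VJ hK hβ b hγV
  have h1 := Z.GV1_co_U_apply (D.VJ_le_U K hg) (ρ (D.s β * D.x β 1) (Z.ξ i)) i'
    (D.x β b : G ⧸ D.U' (Z.w i'))
  rw [hfix _ hg] at h1
  obtain ⟨b', hb'⟩ := Z.support_of_eigen hβp heig (h1 ▸ hne)
  have h2 : ((D.x β b * D.x γ 1 * (D.x β b)⁻¹ * D.x β b : G) : G ⧸ D.U' (Z.w i')) =
      (D.x β b' : G ⧸ D.U' (Z.w i')) := hb'
  have h3 : (D.x γ 1)⁻¹ * D.x β (-b + b') ∈ D.U' (Z.w i') := by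
    have := QuotientGroup.eq.1 h2
    convert this using 1
    rw [D.x_add, D.x_neg]
    group
  have h4 : D.x β (-b + b') ∈ D.U' (Z.w i') := by
    by_cases hact : D.act (Z.w i') β ∈ D.pos
    · exact GV1_x_mem (Z.w_mem i') hβp hact _
    · by_cases hbb : -b + b' = 0
      · rw [hbb, D.x_zero]
        exact Subgroup.one_mem _
      · have h5 := D.U'_le_U'_s (Z.w_mem i') hβD hact h3
        have h6 := (D.U' (D.s β)).mul_mem (D.VJ_le_U'_s hK hβ hγV) h5
        rw [mul_inv_cancel_left, D.x_mem_U'_iff (D.s_mem_N hβD) hβp hbb, D.act_s_self hβD] at h6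
        exact absurd h6 (D.neg_not_pos hβp)
  have h5 : D.x γ 1 ∈ D.U' (Z.w i') := by
    have := (D.U' (Z.w i')).mul_mem h4 ((D.U' (Z.w i')).inv_mem h3)
    convert this using 1
    group
  exact D.mem_Psi.2 ⟨hγp, (D.x_mem_U'_iff (Z.w_mem i') hγp one_ne_zero).1 h5⟩

/-- Compare coordinates at `(i, x_β(b) U')` for `β ∉ Psi (w i)`: these points are distinct. -/
theorem free {β : Fin D.r → ℤ} (hβ : β ∈ D.pos) (f : F →₀ V)
    (hf : ∀ b, f b ∈ Submodule.span k (Set.range Z.ξ))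
    (h : (f.sum fun b v => ρ (D.x β b) v) = 0) (b a : F) : ρ (D.x β a) (f b) = f b := by
  have key : f b ∈ LinearMap.eqLocus (ρ (D.x β a)) LinearMap.id := by
    refine Z.mem_of_support fun i u _ hne => ?_
    have h1 := Z.GV1_supp_one (hf b) hne
    rw [Z.fix i (GV1_coe_one.1 h1), LinearMap.mem_eqLocus, LinearMap.id_apply]
    rw [h1] at hne
    refine Z.fix i (GV1_x_mem (Z.w_mem i) hβ ?_ a)
    by_contra hact
    apply hne
    have hterm : ∀ b', Z.co (ρ (D.x β b') (f b')) ⟨i, (D.x β b : G ⧸ D.U' (Z.w i))⟩ =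
        Z.co (f b') ⟨i, (D.x β (-b' + b) : G ⧸ D.U' (Z.w i))⟩ := by
      intro b'
      rw [← Z.GV1_co_U_apply (D.x_mem_U hβ b') (f b') i]
      have e : D.x β b = D.x β b' * D.x β (-b' + b) := by
        rw [← D.x_add, add_neg_cancel_left]
      rw [e]
      rfl
    have h2 := congrArg (fun y => Z.co y ⟨i, (D.x β b : G ⧸ D.U' (Z.w i))⟩) h
    simp only [Finsupp.sum, map_sum, map_zero, Finsupp.coe_zero, Pi.zero_apply,
      Finsupp.finsetSum_apply, hterm] at h2
    rw [Finset.sum_eq_single b] at h2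
    · rwa [neg_add_cancel, D.x_zero] at h2
    · intro b' _ hb'
      by_contra h3
      have h4 := GV1_coe_one.1 (Z.GV1_supp_one (hf b') h3)
      have h5 : -b' + b ≠ 0 := fun h6 => hb' (neg_add_eq_zero.1 h6)
      exact hact ((D.x_mem_U'_iff (Z.w_mem i) hβ h5).1 h4)
    · intro hb
      rw [Finsupp.notMem_support_iff.1 hb]
      simp
  exact key

end NF

end Datum

end Pool.Agent.Work.MP_bb5f23_al
end

-- merged part: Pool.Agent.Work.MP_bb5f23_al.R1c
section
/-! Rank one, step 3: the Steinberg relations modulo the fixed part. -/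

namespace Pool.Agent.Work.MP_bb5f23_al

namespace SL2Op

section aux

variable {F : Type} {k M : Type*} [Field F] [Field k] [AddCommGroup M] [Module k M]
  (O : SL2Op F k M)

theorem R1c_rep (S : Submodule k M) {v : M} (hv : v ∈ ⨆ b, S.map (O.u b)) :
    ∃ g : F →₀ M, (∀ b, g b ∈ S) ∧ (g.sum fun b w => O.u b w) = v := by
  classical
  induction hv using Submodule.iSup_induction' with
  | mem b x hx =>
    obtain ⟨w, hw, rfl⟩ := hx
    refine ⟨Finsupp.single b w, fun c => ?_, by simp⟩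
    rw [Finsupp.single_apply]
    split_ifs
    · exact hw
    · exact S.zero_mem
  | zero => exact ⟨0, fun _ => S.zero_mem, by simp⟩
  | add x y _ _ hx hy =>
    obtain ⟨g, hg, rfl⟩ := hx
    obtain ⟨g', hg', rfl⟩ := hy
    exact ⟨g + g', fun b => S.add_mem (hg b) (hg' b),
      Finsupp.sum_add_index' (by simp) (by simp)⟩

/-- The operators on a quotient by a stable subspace. -/
noncomputable def R1c_quot (N : Submodule k M) (hu : ∀ a, N ≤ N.comap (O.u a))
    (hh : ∀ a, N ≤ N.comap (O.h a)) (hs : N ≤ N.comap O.s) : SL2Op F k (M ⧸ N) where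
  u a := N.mapQ N (O.u a) (hu a)
  h a := N.mapQ N (O.h a) (hh a)
  s := N.mapQ N O.s hs
  u_zero := by
    ext v
    simp [O.u_zero]
  u_add a b := by
    ext v
    simp [O.u_add]
  h_one := by
    ext v
    simp [O.h_one]
  h_mul a b := by
    ext v
    simp [O.h_mul]
  h_u a b := by
    ext v
    simpa using congrArg N.mkQ (LinearMap.congr_fun (O.h_u a b) v)
  s_h a := by
    ext v
    simpa using congrArg N.mkQ (LinearMap.congr_fun (O.s_h a) v)
  s_s := by
    ext v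
    simpa using congrArg N.mkQ (LinearMap.congr_fun O.s_s v)
  s_u a := by
    ext v
    simpa using congrArg N.mkQ (LinearMap.congr_fun (O.s_u a) v)

/-- The part of `E` fixed by all `u a`. -/
def R1c_fix (E : Submodule k M) : Submodule k M where
  carrier := {v | v ∈ E ∧ ∀ a, O.u a v = v}
  add_mem' hv hw := ⟨E.add_mem hv.1 hw.1, fun a => by rw [map_add, hv.2, hw.2]⟩
  zero_mem' := ⟨E.zero_mem, fun a => map_zero _⟩
  smul_mem' c v hv := ⟨E.smul_mem c hv.1, fun a => by rw [map_smul, hv.2]⟩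

theorem R1c_fix_h {E : Submodule k M} (hh : ∀ a, ∀ v ∈ E, O.h a v ∈ E) (a : Fˣ) {v : M}
    (hv : v ∈ O.R1c_fix E) : O.h a v ∈ O.R1c_fix E := by
  refine ⟨hh a v hv.1, fun c => ?_⟩
  have h1 := LinearMap.congr_fun (O.h_u a (((a : F) ^ 2)⁻¹ * c)) v
  rw [Module.End.mul_apply, Module.End.mul_apply, hv.2,
    mul_inv_cancel_left₀ (pow_ne_zero 2 a.ne_zero)] at h1
  exact h1.symm

theorem R1c_h_s (a : Fˣ) (v : M) : O.h a (O.s v) = O.s (O.h a⁻¹ v) := by
  have h1 := LinearMap.congr_fun (O.s_h a⁻¹) v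
  rw [inv_inv] at h1
  exact h1.symm

theorem R1c_s_s (v : M) : O.s (O.s v) = O.h (-1) v := LinearMap.congr_fun O.s_s v

end aux

variable {F : Type} {k M : Type*} [Field F] [IsAlgClosed F] [IsFbar F] [Field k] [CharZero k]
  [AddCommGroup M] [Module k M] (O : SL2Op F k M)

/-- Let `E₀` be the `u`-fixed part of `E`, `F₀ = E₀ + s E₀`, `M₀ = ⨆ b, u(b) F₀ ≤ W`. `M₀` is
stable under all operators (for `s u(a) s ξ` use `s_u`), so the operators descend to `M ⧸ M₀`
(`Submodule.mapQ`), where the image of `E` is free. Apply `st_of_free`. -/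
theorem st_mod (E W : Submodule k M) [FiniteDimensional k E] (hs : ∀ v ∈ E, O.s v ∈ E)
    (hh : ∀ a, ∀ v ∈ E, O.h a v ∈ E)
    (hfree : ∀ f : F →₀ M, (∀ b, f b ∈ E) → (f.sum fun b v => O.u b v) = 0 →
      ∀ b a, O.u a (f b) = f b)
    (hspan : ∀ v ∈ E, O.s (O.u 1 v) ∈ ⨆ b, E.map (O.u b))
    (hWu : ∀ a, ∀ v ∈ W, O.u a v ∈ W) (hWs : ∀ v ∈ W, O.s v ∈ W)
    (hfix : ∀ v ∈ E, (∀ a, O.u a v = v) → v ∈ W) (v : M) (hv : v ∈ E) :
    (∀ a, O.h a v - v ∈ W) ∧ O.s v + v ∈ W ∧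
      ∀ a : Fˣ, O.s (O.u a v) - (O.u (-(a⁻¹ : Fˣ)) v - v) ∈ W := by
  classical
  set E₀ := O.R1c_fix E with hE₀
  set F₀ : Submodule k M := E₀ ⊔ E₀.map O.s with hF₀
  set N : Submodule k M := ⨆ b, F₀.map (O.u b) with hN
  have hFN : ∀ b, ∀ w ∈ F₀, O.u b w ∈ N := fun b w hw =>
    Submodule.mem_iSup_of_mem b ⟨w, hw, rfl⟩
  have hFN0 : F₀ ≤ N := fun w hw => by simpa [O.u_zero] using hFN 0 w hw
  have hFE : F₀ ≤ E := sup_le (fun w hw => hw.1) (by
    rintro _ ⟨w, hw, rfl⟩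
    exact hs w hw.1)
  have hNW : N ≤ W := iSup_le fun b => by
    rintro _ ⟨w, hw, rfl⟩
    refine hWu b w ((sup_le (fun w hw => hfix w hw.1 hw.2) ?_ : F₀ ≤ W) hw)
    rintro _ ⟨w, hw, rfl⟩
    exact hWs w (hfix w hw.1 hw.2)
  have hFh : ∀ a, F₀ ≤ F₀.comap (O.h a) := fun a => sup_le
    (fun w hw => Submodule.mem_sup_left (O.R1c_fix_h hh a hw)) (by
      rintro _ ⟨w, hw, rfl⟩
      rw [Submodule.mem_comap, R1c_h_s]
      exact Submodule.mem_sup_right ⟨_, O.R1c_fix_h hh a⁻¹ hw, rfl⟩)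
  have hu : ∀ a, N ≤ N.comap (O.u a) := fun a => iSup_le fun b => by
    rintro _ ⟨w, hw, rfl⟩
    rw [Submodule.mem_comap, ← Module.End.mul_apply, ← O.u_add]
    exact hFN _ w hw
  have hhN : ∀ a, N ≤ N.comap (O.h a) := fun a => iSup_le fun b => by
    rintro _ ⟨w, hw, rfl⟩
    rw [Submodule.mem_comap, ← Module.End.mul_apply, O.h_u, Module.End.mul_apply]
    exact hFN _ _ (hFh a hw)
  have hsN : N ≤ N.comap O.s := iSup_le fun b => by
    rw [Submodule.map_le_iff_le_comap]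
    refine sup_le (fun w hw => ?_) ?_
    · rw [Submodule.mem_comap, Submodule.mem_comap, hw.2]
      exact hFN0 (Submodule.mem_sup_right ⟨w, hw, rfl⟩)
    · rintro _ ⟨w, hw, rfl⟩
      rw [Submodule.mem_comap, Submodule.mem_comap]
      have hw' := O.R1c_fix_h hh (-1) hw
      by_cases hb : b = 0
      · rw [hb, O.u_zero, Module.End.one_apply, R1c_s_s]
        exact hFN0 (Submodule.mem_sup_left hw')
      · have h1 := LinearMap.congr_fun (O.s_u (Units.mk0 b hb)) (O.s w)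
        simp only [Module.End.mul_apply, Units.val_mk0] at h1
        rw [h1, R1c_s_s, hw'.2]
        exact hFN _ _ (hFh _ (Submodule.mem_sup_right ⟨_, hw', rfl⟩))
  set O' := O.R1c_quot N hu hhN hsN with hO'
  have eu : ∀ a w, O'.u a (N.mkQ w) = N.mkQ (O.u a w) := fun _ _ => rfl
  have eh : ∀ a w, O'.h a (N.mkQ w) = N.mkQ (O.h a w) := fun _ _ => rfl
  have es : ∀ w, O'.s (N.mkQ w) = N.mkQ (O.s w) := fun _ => rfl
  have key := O'.st_of_free (E.map N.mkQ) (by
      rintro _ ⟨w, hw, rfl⟩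
      exact ⟨_, hs w hw, (es w).symm⟩) (by
      rintro a _ ⟨w, hw, rfl⟩
      exact ⟨_, hh a w hw, (eh a w).symm⟩) ?_ ?_ (N.mkQ v) ⟨v, hv, rfl⟩
  · obtain ⟨k1, k2, k3⟩ := key
    refine ⟨fun a => hNW ?_, hNW ?_, fun a => hNW ?_⟩
    · rw [← Submodule.Quotient.eq]
      exact k1 a
    · rw [← sub_neg_eq_add, ← Submodule.Quotient.eq]
      exact k2
    · rw [← Submodule.Quotient.eq]
      exact k3 a
  · intro f hf hf0
    choose g0 hg0 hg0' using hf
    let g : F →₀ M := Finsupp.onFinset f.support (fun b => if b ∈ f.support then g0 b else 0)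
      fun b hb => by
        by_contra hc
        exact hb (if_neg hc)
    have hgE : ∀ b, g b ∈ E := fun b => by
      change (if b ∈ f.support then g0 b else 0) ∈ E
      split_ifs
      · exact hg0 b
      · exact E.zero_mem
    have hgf : ∀ b, N.mkQ (g b) = f b := fun b => by
      change N.mkQ (if b ∈ f.support then g0 b else 0) = f b
      split_ifs with hb
      · exact hg0' b
      · rw [map_zero, Finsupp.notMem_support_iff.1 hb]
    have hfg : f = g.mapRange N.mkQ (map_zero _) := by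
      ext b
      rw [Finsupp.mapRange_apply, hgf]
    have h1 : (g.sum fun b w => O.u b w) ∈ N := by
      rw [← Submodule.Quotient.mk_eq_zero, ← Submodule.mkQ_apply, map_finsuppSum, ← hf0, hfg,
        Finsupp.sum_mapRange_index (by simp)]
      rfl
    obtain ⟨g', hg', h2⟩ := O.R1c_rep F₀ h1
    have h3 := hfree (g - g') (fun b => E.sub_mem (hgE b) (hFE (hg' b))) (by
      rw [Finsupp.sum_sub_index (by simp), h2, sub_self])
    ext b
    rw [← hgf, Finsupp.zero_apply, Submodule.mkQ_apply, Submodule.Quotient.mk_eq_zero]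
    have h4 : g b - g' b ∈ E₀ := ⟨E.sub_mem (hgE b) (hFE (hg' b)), h3 b⟩
    simpa using N.add_mem (hFN0 (Submodule.mem_sup_left h4)) (hFN0 (hg' b))
  · rintro _ ⟨w, hw, rfl⟩
    rw [eu, es]
    have h1 : (⨆ b, E.map (O.u b)) ≤ (⨆ b, (E.map N.mkQ).map (O'.u b)).comap N.mkQ :=
      iSup_le fun b => by
        rintro _ ⟨z, hz, rfl⟩
        exact Submodule.mem_iSup_of_mem b ⟨_, ⟨z, hz, rfl⟩, eu b z⟩
    exact h1 (hspan w hw)

end SL2Op

end Pool.Agent.Work.MP_bb5f23_al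
end

-- merged part: Pool.Agent.Work.MP_bb5f23_al.GV
section
/-! Existence of a good vector in every nonzero quotient of an object of `X(G)`. -/

namespace Pool.Agent.Work.MP_bb5f23_al

namespace Datum

variable {F : Type} [Field F] {G : Type*} [Group G] {D : Datum F G} [IsAlgClosed F]
variable {k : Type*} [Field k] {V : Type*} [AddCommGroup V] [Module k V]
variable {ρ : Representation k G V}

/-- The operators of `SL(2)` attached to a simple root. -/
noncomputable def GV_op (D : Datum F G) {α : Fin D.r → ℤ} (hα : α ∈ D.Delta)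
    (ρ : Representation k G V) : SL2Op F k V where
  u a := ρ (D.x α a)
  h a := ρ (D.h α a)
  s := ρ (D.s α)
  u_zero := by rw [D.x_zero, map_one]
  u_add a b := by rw [D.x_add, map_mul]
  h_one := by rw [D.h_one, map_one]
  h_mul a b := by rw [D.h_mul, map_mul]
  h_u a b := by rw [← map_mul, ← map_mul, ← D.h_x hα, inv_mul_cancel_right]
  s_h a := by rw [← map_mul, ← map_mul, ← D.s_h hα, inv_mul_cancel_right]
  s_s := by rw [← map_mul, D.s_mul_s hα]
  s_u a := by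
    rw [← map_mul, ← map_mul, ← map_mul, ← map_mul, ← map_mul, ← D.s_x_rel hα,
      inv_mul_cancel_right]

namespace NF

variable (Z : D.NF ρ)

theorem GV_fix (i : Fin Z.m) {γ : Fin D.r → ℤ} (hγ : γ ∈ D.Psi (Z.w i)) (a : F) :
    ρ (D.x γ a) (Z.ξ i) = Z.ξ i := by
  by_cases ha : a = 0
  · simp [ha, D.x_zero]
  · rw [D.mem_Psi] at hγ
    exact Z.fix i ((D.x_mem_U'_iff (Z.w_mem i) hγ.1 ha).2 hγ.2)

theorem GV_fix_conj (i : Fin Z.m) {m : G} (hm : m ∈ D.N) {γ : Fin D.r → ℤ}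
    (hγ : γ ∈ D.Psi (Z.w i)) : ρ (D.x (D.act m γ) 1) (ρ m (Z.ξ i)) = ρ m (Z.ξ i) := by
  obtain ⟨c, hc⟩ := D.conj_x hm (D.pos_sub (D.mem_Psi.1 hγ).1)
  have h1 := hc (c⁻¹ : Fˣ)
  rw [Units.mul_inv] at h1
  rw [← h1, ← Module.End.mul_apply, ← map_mul, inv_mul_cancel_right, map_mul,
    Module.End.mul_apply, Z.GV_fix i hγ]

/-- Fix `ht` (`exists_ht`). Among the `i` with `ξ i ∉ W` (nonempty since the `u ξ i` span) choose
one maximising `∑ γ ∈ Psi (w i), ht γ`; let `Ψ = Psi (w i)`, `K` the simple roots outside `Ψ`. For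
`β ∈ K`, `s β ξ i ∉ W` lies in the span of the `ξ i'` with `act (s β) Ψ ⊆ Psi (w i')` (`stable`,
`mem_span_of_fix`), so the second case of `psi_cases` is impossible and `Ψ = posOut K`. Every `i'`
with `Ψ ∪ {β} ⊆ Psi (w i')` has `ξ i' ∈ W`. Apply `SL2Op.st_mod` to `D.sl2Op` and
`E' = span {ξ i' | Ψ ⊆ Psi (w i')}` (stable under `s β` by `act_posOut`). Finally
`h β a ξ - ξ ∈ W` and `ξ ∉ W` give `β ∈ Ith θ`. -/
theorem exists_good [IsFbar F] [CharZero k] {W : Submodule k V} (hW : Inv ρ W) (h : W ≠ ⊤) :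
    ∃ y ∈ Submodule.span k (Set.range Z.ξ), y ∉ W ∧ ∃ θ J,
      D.Good (ρ.quotient W hW) θ J (W.mkQ y) := by
  classical
  obtain ⟨ht, hht⟩ := D.exists_ht
  have hex : ∃ i, Z.ξ i ∉ W := by
    by_contra hc
    push Not at hc
    apply h
    rw [eq_top_iff, ← Z.span_top, Submodule.span_le]
    rintro _ ⟨i, u, _, rfl⟩
    exact hW u (hc i)
  obtain ⟨i, hi, hmax⟩ := Finset.exists_max_image (Finset.univ.filter fun i => Z.ξ i ∉ W)
    (fun i => ∑ γ ∈ D.Psi (Z.w i), ht γ) (by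
      obtain ⟨i, hi⟩ := hex
      exact ⟨i, by simpa using hi⟩)
  have hiW : Z.ξ i ∉ W := by simpa using hi
  have hbig : ∀ Ψ : Finset (Fin D.r → ℤ), ∑ γ ∈ D.Psi (Z.w i), ht γ < ∑ γ ∈ Ψ, ht γ →
      Submodule.span k (Z.ξ '' {j | Ψ ⊆ D.Psi (Z.w j)}) ≤ W := by
    intro Ψ hΨ
    rw [Submodule.span_le]
    rintro _ ⟨j, hj, rfl⟩
    by_contra hc
    have h1 := hmax j (by simpa using hc)
    have h2 : ∑ γ ∈ Ψ, ht γ ≤ ∑ γ ∈ D.Psi (Z.w j), ht γ :=
      Finset.sum_le_sum_of_subset_of_nonneg hj fun γ hγ _ => (hht γ (D.mem_Psi.1 hγ).1).le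
    exact absurd (hΨ.trans_le (h2.trans h1)) (lt_irrefl _)
  rcases D.psi_cases (Z.w_mem i) ht hht with hK | ⟨β, hβ, hneg, hlt⟩
  swap
  · exfalso
    have hs := D.s_mem_N hβ
    have h1 : ρ (D.s β) (Z.ξ i) ∈ W := by
      refine hbig ((D.Psi (Z.w i)).image (D.act (D.s β))) ?_
        (Z.mem_span_of_fix (Z.stable _ hs i) ?_ ?_)
      · rwa [Finset.sum_image fun x _ y _ hxy => by
          rw [← D.act_s_act_s hβ x, hxy, D.act_s_act_s hβ]]
      · intro γ hγ
        obtain ⟨δ, hδ, rfl⟩ := Finset.mem_image.1 hγ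
        rw [D.mem_Psi] at hδ
        exact (D.act_s_pos hβ hδ.1 fun he => hneg (he ▸ hδ.2)).1
      · intro γ hγ
        obtain ⟨δ, hδ, rfl⟩ := Finset.mem_image.1 hγ
        exact Z.GV_fix_conj i hs hδ
    have h2 := hW (D.s β)⁻¹ h1
    rw [Submodule.mem_comap, ← Module.End.mul_apply, ← map_mul, inv_mul_cancel, map_one] at h2
    exact hiW h2
  set K := D.Delta.filter fun β => D.act (Z.w i) β ∉ D.pos with hKdef
  have hKD : K ⊆ D.Delta := Finset.filter_subset _ _
  set E := Submodule.span k (Z.ξ '' {j | D.posOut K ⊆ D.Psi (Z.w j)}) with hE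
  have hEs : E ≤ Submodule.span k (Set.range Z.ξ) :=
    Submodule.span_mono (Set.image_subset_range _ _)
  have hpo : D.posOut K ⊆ D.pos := fun γ hγ => (D.mem_posOut.1 hγ).1
  have hiE : Z.ξ i ∈ E := Submodule.subset_span ⟨i, hK.ge, rfl⟩
  have : FiniteDimensional k E := FiniteDimensional.span_of_finite k (Set.toFinite _)
  have hst : ∀ β ∈ K, (∀ a, ρ (D.h β a) (Z.ξ i) - Z.ξ i ∈ W) ∧
      ρ (D.s β) (Z.ξ i) + Z.ξ i ∈ W ∧ ∀ a : Fˣ, ρ (D.s β) (ρ (D.x β a) (Z.ξ i)) -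
        (ρ (D.x β (-(a⁻¹ : Fˣ))) (Z.ξ i) - Z.ξ i) ∈ W := by
    intro β hβ
    have hβD := hKD hβ
    have hβp := D.delta_pos hβD
    refine (GV_op D hβD ρ).st_mod E W ?_ ?_ ?_ ?_ (fun a v hv => hW _ hv) (fun v hv => hW _ hv)
      ?_ (Z.ξ i) hiE
    · refine fun v hv => (Submodule.span_le.2 ?_ : E ≤ E.comap (ρ (D.s β))) hv
      rintro _ ⟨j, hj, rfl⟩
      refine Z.mem_span_of_fix (Z.stable _ (D.s_mem_N hβD) j) hpo fun γ hγ => ?_
      have h1 := Z.GV_fix_conj j (D.s_mem_N hβD) (hj (D.act_posOut hKD (D.s_mem_NJ hβ) hγ))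
      rwa [D.act_s_act_s hβD] at h1
    · refine fun a v hv => (Submodule.span_le.2 ?_ : E ≤ E.comap (ρ (D.h β a))) hv
      rintro _ ⟨j, hj, rfl⟩
      change ρ (D.h β a) (Z.ξ j) ∈ E
      rw [Z.eig j ⟨_, D.h_mem β a⟩]
      exact E.smul_mem _ (Submodule.subset_span ⟨j, hj, rfl⟩)
    · exact fun f hf h0 => Z.free hβp f (fun b => hEs (hf b)) h0
    · exact fun v hv => Z.s_x_mem hKD hβ hv
    · intro v hv hfix
      have hn : β ∉ D.posOut K := fun hc =>
        (D.mem_posOut.1 hc).2 (AddSubmonoid.subset_closure hβ)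
      refine hbig (insert β (D.posOut K)) ?_
        (Z.mem_span_of_fix (hEs hv) (Finset.insert_subset hβp hpo) fun γ hγ => ?_)
      · rw [Finset.sum_insert hn, hK]
        linarith [hht β hβp]
      · rcases Finset.mem_insert.1 hγ with rfl | hγ
        · exact hfix 1
        · refine (Submodule.span_le.2 ?_ : E ≤ LinearMap.eqLocus (ρ (D.x γ 1)) LinearMap.id) hv
          rintro _ ⟨j, hj, rfl⟩
          exact Z.GV_fix j (hj hγ) 1
  have eq : ∀ g v, (ρ.quotient W hW) g (W.mkQ v) = W.mkQ (ρ g v) := fun _ _ => rfl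
  refine ⟨Z.ξ i, Submodule.subset_span ⟨i, rfl⟩, hiW, Z.θ i, K, ?_, ?_, ?_, ?_⟩
  · intro β hβ
    refine D.mem_Ith.2 ⟨hKD hβ, fun a => ?_⟩
    by_contra hc
    have h1 := (hst β hβ).1 a
    rw [Z.eig i ⟨_, D.h_mem β a⟩] at h1
    have h2 : ((Z.θ i ⟨D.h β a, D.h_mem β a⟩ : k) - 1) • Z.ξ i ∈ W := by
      rwa [sub_smul, one_smul]
    exact hiW ((W.smul_mem_iff (sub_ne_zero.2 fun he => hc (Units.ext he))).1 h2)
  · intro t
    rw [eq, Z.eig, map_smul]
  · intro γ hγ a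
    rw [eq, Z.GV_fix i (hK.ge hγ)]
  · intro β hβ
    obtain ⟨h1, h2, h3⟩ := hst β hβ
    refine ⟨fun a => ?_, ?_, fun a => ?_⟩
    · rw [eq]
      exact (Submodule.Quotient.eq W).2 (h1 a)
    · rw [eq, ← map_neg]
      exact (Submodule.Quotient.eq W).2 (by rwa [sub_neg_eq_add])
    · rw [eq, eq, ← map_sub, map_mul]
      exact (Submodule.Quotient.eq W).2 (h3 a)

end NF

end Datum

end Pool.Agent.Work.MP_bb5f23_al
end

-- merged part: Pool.Agent.Work.MP_bb5f23_al.Struct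
section
/-! Every object of `X(G)` has a finite filtration with steps inside induced modules. -/

namespace Pool.Agent.Work.MP_bb5f23_al

theorem lc_single {k G V : Type*} [Field k] [Group G] [AddCommGroup V] [Module k V]
    (ρ : Representation k G V) (v : V) (g : G) : lc ρ v (Finsupp.single g 1) = ρ g v := by
  simp [lc]

theorem lc_mapDomain {k G V : Type*} [Field k] [Group G] [AddCommGroup V] [Module k V]
    (ρ : Representation k G V) (v : V) (g : G) (a : G →₀ k) :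
    lc ρ v (Finsupp.mapDomain (g * ·) a) = ρ g (lc ρ v a) := by
  induction a using Finsupp.induction_linear with
  | zero => simp
  | add a b ha hb => rw [Finsupp.mapDomain_add, map_add, ha, hb, map_add, map_add]
  | single x c => simp [lc]

namespace Datum

variable {F : Type} [Field F] {G : Type*} [Group G] {D : Datum F G} [IsAlgClosed F] [IsFbar F]
variable {k : Type*} [Field k] [CharZero k] {V : Type*} [AddCommGroup V] [Module k V]
variable {ρ : Representation k G V}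

theorem lc_eq_zero_iff (Q : D.Par k) {y : V} (hy : D.Good ρ Q.θ Q.J y) (h0 : y ≠ 0)
    (hz : ∀ j ∈ Q.J', D.zeta ρ (insert j Q.J) y = 0) (a : G →₀ k) :
    lc Q.rep Q.eta a = 0 ↔ lc ρ y a = 0 := by
  refine ⟨D.presentation Q hy hz a, fun ha => ?_⟩
  by_contra hne
  have hK : Inv Q.rep ((LinearMap.ker (lc ρ y)).map (lc Q.rep Q.eta)) := by
    rintro g _ ⟨b, hb, rfl⟩
    refine ⟨Finsupp.mapDomain (g * ·) b, ?_, lc_mapDomain _ _ _ _⟩
    have hb' : lc ρ y b = 0 := hb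
    change lc ρ y _ = 0
    rw [lc_mapDomain, hb', map_zero]
  obtain ⟨b, hb, hb'⟩ := Q.socle hK (by
    intro h
    exact hne ((Submodule.eq_bot_iff _).1 h _ ⟨a, ha, rfl⟩))
  have h1 : lc Q.rep Q.eta (Finsupp.single 1 1 - b) = 0 := by
    rw [map_sub, lc_single, hb']
    simp
  have h2 := D.presentation Q hy hz _ h1
  have hb0 : lc ρ y b = 0 := hb
  rw [map_sub, lc_single, hb0] at h2
  exact h0 (by simpa using h2)

theorem filt_step (Z : D.NF ρ) {W : Submodule k V} (hW : Inv ρ W) (hF : D.Filt ρ W)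
    (h : W ≠ ⊤) : ∃ W', Inv ρ W' ∧ D.Filt ρ W' ∧ W ≤ W' ∧
      ∃ y ∈ Submodule.span k (Set.range Z.ξ), y ∉ W ∧ y ∈ W' := by
  set E := Submodule.span k (Set.range Z.ξ) with hE
  have hEN : ∀ n ∈ D.N, ∀ y ∈ E, ρ n y ∈ E := by
    intro n hn y hy
    refine (Submodule.span_le (p := E.comap (ρ n))).2 ?_ hy
    rintro _ ⟨i, rfl⟩
    exact Z.stable n hn i
  let S : Set (Finset (Fin D.r → ℤ)) :=
    {J | ∃ y ∈ E, y ∉ W ∧ ∃ θ, D.Good (ρ.quotient W hW) θ J (W.mkQ y)}
  have hS : S.Finite := by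
    refine (D.Delta.powerset.finite_toSet).subset ?_
    rintro J ⟨y, -, -, θ, hg⟩
    exact Finset.mem_coe.2 (Finset.mem_powerset.2 (hg.sub.trans D.Ith_sub))
  have hne : S.Nonempty := by
    obtain ⟨y, hy, hyW, θ, J, hg⟩ := Z.exists_good hW h
    exact ⟨J, y, hy, hyW, θ, hg⟩
  obtain ⟨J, ⟨y, hy, hyW, θ, hg⟩, hmax⟩ := Set.exists_max_image S Finset.card hS hne
  obtain ⟨Q, rfl, rfl⟩ := D.exists_par θ hg.sub
  have hy0 : W.mkQ y ≠ 0 := by simpa using hyW
  have hz : ∀ j ∈ Q.J', D.zeta (ρ.quotient W hW) (insert j Q.J) (W.mkQ y) = 0 := by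
    intro j hj
    by_contra hne
    have hsub : insert j Q.J ⊆ D.Ith Q.θ := Finset.insert_subset (Q.sub hj) Q.J_sub
    have he : W.mkQ (D.zeta ρ (insert j Q.J) y) =
        D.zeta (ρ.quotient W hW) (insert j Q.J) (W.mkQ y) :=
      D.map_zeta W.mkQ fun v _ => by simp
    have hmem : insert j Q.J ∈ S := by
      refine ⟨D.zeta ρ (insert j Q.J) y,
        D.zeta_mem (hsub.trans D.Ith_sub) fun n hn => hEN n hn y hy, fun hw => hne ?_, Q.θ, ?_⟩
      · rw [← he]
        simpa using hw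
      · rw [he]
        exact Good.zeta D hg (Finset.subset_insert _ _) hsub
    have hj' : j ∉ Q.J := fun h' => (Finset.mem_sdiff.1 h').2 hj
    have := hmax _ hmem
    rw [Finset.card_insert_of_notMem hj'] at this
    omega
  have key := lc_eq_zero_iff Q hg hy0 hz
  set l := lc (ρ.quotient W hW) (W.mkQ y) with hl
  obtain ⟨σ, hσ⟩ := l.rangeRestrict.exists_rightInverse_of_surjective l.range_rangeRestrict
  obtain ⟨f, hf⟩ := LinearMap.exists_extend (lc Q.rep Q.eta ∘ₗ σ)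
  have hfl : ∀ a, f (l a) = lc Q.rep Q.eta a := by
    intro a
    have h1 := LinearMap.congr_fun hf ⟨l a, a, rfl⟩
    have h2 := congrArg Subtype.val (LinearMap.congr_fun hσ ⟨l a, a, rfl⟩)
    simp only [LinearMap.comp_apply, Submodule.subtype_apply, LinearMap.id_apply,
      LinearMap.codRestrict_apply] at h1 h2
    rw [h1, ← sub_eq_zero, ← map_sub, key, map_sub, sub_eq_zero]
    exact h2
  have hq : ∀ g v, W.mkQ (ρ g v) = ρ.quotient W hW g (W.mkQ v) := fun g v => by simp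
  have hinv : Inv ρ ((LinearMap.range l).comap W.mkQ) := by
    rintro g v ⟨a, ha⟩
    refine ⟨Finsupp.mapDomain (g * ·) a, ?_⟩
    rw [lc_mapDomain, ← hl, ha, hq]
  have hle : W ≤ (LinearMap.range l).comap W.mkQ := by
    intro v hv
    refine ⟨0, ?_⟩
    rw [map_zero, eq_comm]
    simpa using hv
  refine ⟨_, hinv, Filt.step W _ Q (f ∘ₗ W.mkQ) hF hle hinv ?_ ?_, hle, y, hy, hyW, ?_⟩
  · rintro g v ⟨a, ha⟩
    rw [LinearMap.comp_apply, LinearMap.comp_apply, hq, ← ha, hl, ← lc_mapDomain, ← hl, hfl, hfl,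
      lc_mapDomain]
  · rintro v ⟨a, ha⟩
    rw [LinearMap.comp_apply, ← ha, hfl, key, ha]
    simp
  · refine ⟨Finsupp.single 1 1, ?_⟩
    rw [hl, lc_single]
    simp

theorem filt_top (h : D.InX ρ) : D.Filt ρ ⊤ := by
  obtain ⟨Z⟩ := D.exists_NF h
  set E := Submodule.span k (Set.range Z.ξ) with hE
  have : FiniteDimensional k E := FiniteDimensional.span_of_finite k (Set.finite_range _)
  have main : ∀ n : ℕ, ∀ W : Submodule k V, Inv ρ W → D.Filt ρ W →
      Module.finrank k E - Module.finrank k (E ⊓ W : Submodule k V) ≤ n → D.Filt ρ ⊤ := by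
    intro n
    induction n with
    | zero =>
      intro W hW hF hn
      by_cases ht : W = ⊤
      · exact ht ▸ hF
      obtain ⟨W', -, -, -, y, hy, hyW, -⟩ := filt_step Z hW hF ht
      have hlt : E ⊓ W < E := lt_of_le_of_ne inf_le_left fun e => hyW (e.ge hy).2
      have := Submodule.finrank_lt_finrank_of_lt hlt
      omega
    | succ n ih =>
      intro W hW hF hn
      by_cases ht : W = ⊤
      · exact ht ▸ hF
      obtain ⟨W', hW', hF', hle, y, hy, hyW, hyW'⟩ := filt_step Z hW hF ht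
      refine ih W' hW' hF' ?_
      have hlt : E ⊓ W < E ⊓ W' := lt_of_le_of_ne (inf_le_inf_left _ hle) fun e =>
        hyW (e.ge ⟨hy, hyW'⟩).2
      have : FiniteDimensional k (E ⊓ W' : Submodule k V) :=
        Submodule.finiteDimensional_of_le inf_le_left
      have := Submodule.finrank_lt_finrank_of_lt hlt
      omega
  exact main _ ⊥ (fun g => bot_le) Filt.bot le_rfl

end Datum

end Pool.Agent.Work.MP_bb5f23_al
end

-- merged part: Pool.Agent.Work.MP_bb5f23_al.KL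
section
/-! The core estimate over the complex numbers. -/

namespace Pool.Agent.Work.MP_bb5f23_al

universe u

variable {F : Type} [Field F] [IsAlgClosed F] [IsFbar F] {G : Type u} [Group G] {X : Type u}
  [MulAction G X]

omit [Field F] [IsAlgClosed F] [IsFbar F] in
theorem KL_rep (c : Cocycle ℂ G X) (g : G) (v : X →₀ ℂ) (x : X) :
    c.rep g v (g • x) = c.c g x * v x := by
  classical
  induction v using Finsupp.induction_linear with
  | zero => simp
  | add a b ha hb => simp [ha, hb, mul_add]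
  | single w a =>
    rw [c.rep_single, Finsupp.single_apply, Finsupp.single_apply]
    by_cases e : w = x
    · simp [e]
    · simp [e]

omit [Field F] [IsAlgClosed F] [IsFbar F] in
theorem KL_lc (c : Cocycle ℂ G X) (v : X →₀ ℂ) (a : G →₀ ℂ) (x : X) :
    lc c.rep v a x = ∑ g ∈ a.support, a g * (c.c g (g⁻¹ • x) * v (g⁻¹ • x)) := by
  rw [lc, Finsupp.linearCombination_apply, Finsupp.sum, Finsupp.finsetSum_apply]
  refine Finset.sum_congr rfl fun g _ => ?_
  rw [Finsupp.smul_apply, smul_eq_mul, ← KL_rep, smul_inv_smul]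

theorem KL_nsq {X : Type*} (y : X →₀ ℂ) (s : Finset X) : ∑ w ∈ s, ‖y w‖ ^ 2 ≤ nsq y := by
  classical
  rw [nsq, Finsupp.sum_of_support_subset y (s := y.support ∪ s) Finset.subset_union_left _
    (by simp)]
  exact Finset.sum_le_sum_of_subset_of_nonneg Finset.subset_union_right fun _ _ _ => by positivity

omit [IsAlgClosed F] [IsFbar F] in
theorem KL_mon {r : ℕ} (α : Fin r → ℤ) (i : Fin r) (a : Fˣ) :
    mon α (Pi.mulSingle i a) = a ^ α i := by
  rw [mon, Finset.prod_eq_single i (fun l _ hl => by simp [Pi.mulSingle_eq_of_ne hl]) (by simp),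
    Pi.mulSingle_eq_same]

/-- A coefficient at a point moved by the torus is small: take `a ∈ A` of prime order `l ≥ π1`
(Cauchy) and `z = Pi.mulSingle i a` with `α i ≠ 0`; since `l ∤ α i`, the points `tau z ^ j • x`,
`j < l`, are distinct, and `‖y' ·‖` is constant on them. -/
theorem coeff_small {r : ℕ} (tau : (Fin r → Fˣ) →* G) (c : Cocycle ℂ G X)
    (hc : ∀ g x, ‖(c.c g x : ℂ)‖ = 1) (θ : (Fin r → Fˣ) →* ℂ) {x : X} {α : Fin r → ℤ}
    (hα : α ≠ 0) (hx : ∀ z, tau z • x = x → mon α z = 1) {π1 : ℕ} (hπ : ∀ i, (α i).natAbs < π1)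
    (A : Subgroup Fˣ) [Finite A] (hA : 1 < Nat.card A)
    (hl : ∀ l : ℕ, l.Prime → l ∣ Nat.card A → π1 ≤ l) {y' : X →₀ ℂ}
    (hy : ∀ z, (∀ l, z l ∈ A) → c.rep (tau z) y' = θ z • y') :
    π1 * ‖y' x‖ ^ 2 ≤ nsq y' := by
  classical
  obtain ⟨i, hi⟩ := Function.ne_iff.1 hα
  obtain ⟨l, hp, hd⟩ := Nat.exists_prime_and_dvd hA.ne'
  have := Fact.mk hp
  obtain ⟨a, ha⟩ := exists_prime_orderOf_dvd_card' l hd
  have ha' : orderOf (a : Fˣ) = l := by rw [Subgroup.orderOf_coe, ha]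
  have h1 := hl l hp hd
  let z : ℕ → Fin r → Fˣ := fun j => Pi.mulSingle i ((a : Fˣ) ^ j)
  have hz : ∀ j, ‖y' (tau (z j) • x)‖ = ‖y' x‖ := fun j => by
    have h2 := congrArg (fun v => ‖v (tau (z j) • x)‖) (hy (z j) fun m => by
      by_cases e : m = i
      · simpa [z, e] using A.pow_mem a.2 j
      · simp [z, Pi.mulSingle_eq_of_ne e])
    have h3 : ‖θ (z j)‖ ^ l = 1 := by
      rw [← norm_pow, ← map_pow, ← Pi.mulSingle_pow, ← pow_mul, mul_comm, pow_mul, ← ha',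
        pow_orderOf_eq_one]
      simp
    simp only [KL_rep, Finsupp.smul_apply, smul_eq_mul, norm_mul, hc, one_mul,
      (pow_eq_one_iff_of_nonneg (norm_nonneg _) hp.ne_zero).1 h3] at h2
    exact h2.symm
  have key : ∀ j k, j < k → k < l → tau (z j) • x ≠ tau (z k) • x := fun j k hjk hk e => by
    obtain ⟨d, rfl⟩ := Nat.exists_eq_add_of_le hjk.le
    have h2 : z (j + d) = z j * z d := by simp only [z, pow_add, Pi.mulSingle_mul]
    rw [h2, map_mul, mul_smul, smul_left_cancel_iff] at e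
    have h3 := hx _ e.symm
    rw [KL_mon, ← zpow_natCast, ← zpow_mul, ← orderOf_dvd_iff_zpow_eq_one, ha',
      Int.natCast_dvd, Int.natAbs_mul, Int.natAbs_natCast, hp.dvd_mul] at h3
    have h4 := hπ i
    have h5 : 0 < (α i).natAbs := Int.natAbs_pos.2 hi
    rcases h3 with h3 | h3
    · have := Nat.le_of_dvd (by omega) h3
      omega
    · have := Nat.le_of_dvd h5 h3
      omega
  refine le_trans ?_ (KL_nsq y' ((Finset.range l).image fun j => tau (z j) • x))
  rw [Finset.sum_image fun j hj k hk e => by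
    rcases lt_trichotomy j k with h | h | h
    · exact absurd e (key j k h (by simpa using hk))
    · exact h
    · exact absurd e.symm (key k j h (by simpa using hj))]
  simp only [hz, Finset.sum_const, Finset.card_range, nsmul_eq_mul]
  exact mul_le_mul_of_nonneg_right (by exact_mod_cast h1) (by positivity)

/-- Let `Γ` be the finite group generated by the supports of `h` and `O` a finite `Γ`-stable set
containing `X0` and the supports of the `y j`. Restriction to `O` (`Finsupp.filter`) commutes with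
`Γ`. So the family `(y j x)` is a limit of points of the image of the finite dimensional space
`I → X0 → ℂ` under a linear map to `J → O → ℂ` (`bounded_solution`, `coeff_small`); this image is
closed (`Submodule.closed_of_finiteDimensional`). -/
theorem coreC {ι : Type} [Fintype ι] [DecidableEq ι] {r : ℕ}
    (rho : G →* Matrix ι ι F) (hrho : Function.Injective rho) (tau : (Fin r → Fˣ) →* G)
    (wt : ι → Fin r → ℕ)
    (htau : ∀ z, rho (tau z) = Matrix.diagonal fun i => ∏ l, (z l : F) ^ wt i l)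
    (c : Cocycle ℂ G X) (hc : ∀ g x, ‖(c.c g x : ℂ)‖ = 1) (X0 : Finset X)
    (hX0 : ∀ x ∉ X0, ∃ α : Fin r → ℤ, α ≠ 0 ∧ ∀ z, tau z • x = x → mon α z = 1)
    {I J : Type} [Fintype I] [Fintype J]
    (h : J → I → G →₀ ℂ) (θ : I → ((Fin r → Fˣ) →* ℂ)) (y : J → X →₀ ℂ)
    (hy : ∀ A : Subgroup Fˣ, Finite A → ∃ y' : I → X →₀ ℂ,
      (∀ i z, (∀ l, z l ∈ A) → c.rep (tau z) (y' i) = θ i z • y' i) ∧
      ∀ j, ∑ i, lc c.rep (y' i) (h j i) = y j) :
    ∃ y' : I → X →₀ ℂ, (∀ i, (y' i).support ⊆ X0) ∧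
      ∀ j, ∑ i, lc c.rep (y' i) (h j i) = y j := by
  classical
  obtain ⟨C, hC⟩ := bounded_solution rho hrho tau wt htau c hc h θ y hy
  choose A fA cA pA u u1 u2 u3 using hC
  let Ψ : (I → X → ℂ) →ₗ[ℂ] (J → X → ℂ) :=
    { toFun := fun v j x => ∑ i, ∑ g ∈ (h j i).support,
        h j i g * (c.c g (g⁻¹ • x) * v i (g⁻¹ • x))
      map_add' := fun v w => by
        ext j x
        simp [mul_add, Finset.sum_add_distrib]
      map_smul' := fun t v => by
        ext j x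
        simp [Finset.mul_sum, mul_left_comm] }
  have hΨ : ∀ (v : I → X →₀ ℂ) j x, Ψ (fun i => v i) j x = (∑ i, lc c.rep (v i) (h j i)) x :=
    fun v j x => by
      rw [Finsupp.finsetSum_apply]
      exact Finset.sum_congr rfl fun i _ => (KL_lc c _ _ _).symm
  have cΨ : Continuous Ψ := by
    refine continuous_pi fun j => continuous_pi fun x => ?_
    change Continuous fun v : I → X → ℂ => ∑ i, ∑ g ∈ (h j i).support,
      h j i g * (c.c g (g⁻¹ • x) * v i (g⁻¹ • x))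
    fun_prop
  let E : (I → X0 → ℂ) →ₗ[ℂ] (I → X → ℂ) :=
    { toFun := fun v i x => if hx : x ∈ X0 then v i ⟨x, hx⟩ else 0
      map_add' := fun v w => by
        ext i x
        by_cases hx : x ∈ X0 <;> simp [hx]
      map_smul' := fun t v => by
        ext i x
        by_cases hx : x ∈ X0 <;> simp [hx] }
  have hE : ∀ v i x, E v i x = if hx : x ∈ X0 then v i ⟨x, hx⟩ else 0 := fun _ _ _ => rfl
  have lim : Filter.Tendsto (fun n => (fun i => (u n i : X → ℂ)) - E fun i x => u n i x)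
      Filter.atTop (nhds 0) := by
    refine tendsto_pi_nhds.2 fun i => tendsto_pi_nhds.2 fun x => ?_
    by_cases hx : x ∈ X0
    · simp [hE, hx]
    · obtain ⟨α, h1, h2⟩ := hX0 x hx
      simp only [Pi.sub_apply, hE, hx, dite_false, sub_zero, Pi.zero_apply]
      rw [tendsto_zero_iff_norm_tendsto_zero]
      have h3 : Filter.Tendsto (fun n => ‖u n i x‖ ^ 2) Filter.atTop (nhds 0) := by
        refine squeeze_zero' (Filter.Eventually.of_forall fun n => by positivity) ?_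
          (tendsto_const_div_atTop_nhds_zero_nat C)
        filter_upwards [Filter.eventually_gt_atTop (∑ l, (α l).natAbs)] with n hn
        have := fA n
        rw [le_div_iff₀' (by exact_mod_cast Nat.zero_lt_of_lt hn)]
        exact (coeff_small tau c hc (θ i) h1 h2 (fun l => lt_of_le_of_lt (Finset.single_le_sum
          (f := fun l => (α l).natAbs) (fun _ _ => Nat.zero_le _) (Finset.mem_univ l)) hn)
          (A n) (cA n) (pA n) (u1 n i)).trans (u3 n i)
      simpa using h3.sqrt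
  have lim' := ((cΨ.tendsto 0).comp lim).const_sub fun j => (y j : X → ℂ)
  rw [map_zero, sub_zero] at lim'
  obtain ⟨v, hv⟩ := (LinearMap.range (Ψ.comp E)).closed_of_finiteDimensional.mem_of_tendsto lim'
    (Filter.Eventually.of_forall fun n => ⟨fun i x => u n i x, by
      have : Ψ (fun i => u n i) = fun j => (y j : X → ℂ) := by
        ext j x
        rw [hΨ, u2]
      simp [this]⟩)
  refine ⟨fun i => Finsupp.onFinset X0 (E v i) fun x hx => by
    by_contra h0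
    exact hx (by simp [hE, h0]), fun i => Finsupp.support_onFinset_subset, fun j => ?_⟩
  ext x
  rw [← hΨ]
  exact congrFun (congrFun hv j) x

end Pool.Agent.Work.MP_bb5f23_al
end

-- merged part: Pool.Agent.Work.MP_bb5f23_al.CoreA
section
/-! The core estimate for integer weights. -/

namespace Pool.Agent.Work.MP_bb5f23_al

universe u

variable {F : Type} [Field F] [IsAlgClosed F] [IsFbar F] {G : Type u} [Group G]

/-- The block matrix realisation of `G × Fˣ`. -/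
def CoreA_rho {ι : Type} [Fintype ι] [DecidableEq ι] (rho : G →* Matrix ι ι F) :
    G × Fˣ →* Matrix (ι ⊕ Unit) (ι ⊕ Unit) F where
  toFun g := Matrix.fromBlocks ((g.2 : F) • rho g.1) 0 0 ((g.2 : F) • (1 : Matrix Unit Unit F))
  map_one' := by simp [Matrix.fromBlocks_one]
  map_mul' g h := by
    simp [Matrix.fromBlocks_multiply, smul_smul, mul_comm]

omit [IsAlgClosed F] [IsFbar F] in
theorem CoreA_rho_apply {ι : Type} [Fintype ι] [DecidableEq ι] (rho : G →* Matrix ι ι F)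
    (g : G × Fˣ) : CoreA_rho rho g =
      Matrix.fromBlocks ((g.2 : F) • rho g.1) 0 0 ((g.2 : F) • (1 : Matrix Unit Unit F)) := rfl

omit [IsAlgClosed F] [IsFbar F] in
theorem CoreA_rho_inj {ι : Type} [Fintype ι] [DecidableEq ι] (rho : G →* Matrix ι ι F)
    (hrho : Function.Injective rho) : Function.Injective (CoreA_rho rho) := by
  intro g h hgh
  rw [CoreA_rho_apply, CoreA_rho_apply, Matrix.fromBlocks_inj] at hgh
  obtain ⟨h1, -, -, h2⟩ := hgh
  have h3 : (g.2 : F) = h.2 := by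
    have := congrFun (congrFun h2 ()) ()
    simpa using this
  rw [h3] at h1
  have h4 : rho g.1 = rho h.1 := smul_right_injective _ h.2.ne_zero h1
  exact Prod.ext (hrho h4) (Units.ext h3)

/-- The character `mon e` as a homomorphism. -/
def CoreA_mon {r : ℕ} (e : Fin r → ℤ) : (Fin r → Fˣ) →* Fˣ where
  toFun := mon e
  map_one' := mon_one e
  map_mul' := mon_mul e

omit [IsAlgClosed F] [IsFbar F] in
theorem CoreA_mon_nat {r : ℕ} (e : Fin r → ℤ) (w : Fin r → ℕ) (h : ∀ l, e l = w l)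
    (z : Fin r → Fˣ) : (mon e z : F) = ∏ l, (z l : F) ^ w l := by
  simp [mon, h]

/-- Integer weights: apply `coreC` to `G × Fˣ` acting through the first projection
(`MulAction.compHom`), with `rho' (g, λ) = fromBlocks (λ • rho g) 0 0 (λ)` on `ι ⊕ Unit`,
`tau' z = (tau z, mon e z)` for a vector `e ≥ 0` with `wt i + e ≥ 0`, and `h` pushed forward along
`g ↦ (g, 1)`. -/
theorem coreC' {X : Type u} [MulAction G X] {ι : Type} [Fintype ι] [DecidableEq ι] {r : ℕ}
    (rho : G →* Matrix ι ι F) (hrho : Function.Injective rho) (tau : (Fin r → Fˣ) →* G)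
    (wt : ι → Fin r → ℤ) (htau : ∀ z, rho (tau z) = Matrix.diagonal fun i => (mon (wt i) z : F))
    (c : Cocycle ℂ G X) (hc : ∀ g x, ‖(c.c g x : ℂ)‖ = 1) (X0 : Finset X)
    (hX0 : ∀ x ∉ X0, ∃ α : Fin r → ℤ, α ≠ 0 ∧ ∀ z, tau z • x = x → mon α z = 1)
    {I J : Type} [Fintype I] [Fintype J]
    (h : J → I → G →₀ ℂ) (θ : I → ((Fin r → Fˣ) →* ℂ)) (y : J → X →₀ ℂ)
    (hy : ∀ A : Subgroup Fˣ, Finite A → ∃ y' : I → X →₀ ℂ,
      (∀ i z, (∀ l, z l ∈ A) → c.rep (tau z) (y' i) = θ i z • y' i) ∧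
      ∀ j, ∑ i, lc c.rep (y' i) (h j i) = y j) :
    ∃ y' : I → X →₀ ℂ, (∀ i, (y' i).support ⊆ X0) ∧
      ∀ j, ∑ i, lc c.rep (y' i) (h j i) = y j := by
  classical
  let _ : MulAction (G × Fˣ) X := MulAction.compHom X (MonoidHom.fst G Fˣ)
  obtain ⟨e, he⟩ : ∃ e : Fin r → ℕ, ∀ i l, 0 ≤ wt i l + e l := by
    refine ⟨fun l => ∑ i, (wt i l).natAbs, fun i l => ?_⟩
    have h1 : (wt i l).natAbs ≤ ∑ i, (wt i l).natAbs :=
      Finset.single_le_sum (f := fun i => (wt i l).natAbs) (fun _ _ => Nat.zero_le _)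
        (Finset.mem_univ i)
    change 0 ≤ wt i l + ((∑ i, (wt i l).natAbs : ℕ) : ℤ)
    generalize ∑ i, (wt i l).natAbs = n at h1
    omega
  let c' : Cocycle ℂ (G × Fˣ) X :=
    ⟨fun g x => c.c g.1 x, fun x => c.c_one x, fun g g' x => c.c_mul g.1 g'.1 x⟩
  have hrep : ∀ g : G × Fˣ, c'.rep g = c.rep g.1 := fun _ => rfl
  have hlc : ∀ (v : X →₀ ℂ) (a : G →₀ ℂ),
      lc c'.rep v (Finsupp.mapDomain (fun g => (g, (1 : Fˣ))) a) = lc c.rep v a := by
    intro v a
    unfold lc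
    rw [Finsupp.linearCombination_mapDomain]
    rfl
  have key := coreC (G := G × Fˣ) (X := X) (CoreA_rho rho) (CoreA_rho_inj rho hrho)
    (tau.prod (CoreA_mon fun l => (e l : ℤ)))
    (Sum.elim (fun i l => (wt i l + e l).toNat) fun _ => e) ?_ c' (fun g x => hc g.1 x) X0
    (fun x hx => hX0 x hx)
    (fun j i => Finsupp.mapDomain (fun g => (g, (1 : Fˣ))) (h j i)) θ y ?_
  · obtain ⟨y', h1, h2⟩ := key
    exact ⟨y', h1, fun j => by simpa only [hlc] using h2 j⟩
  · intro z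
    rw [CoreA_rho_apply]
    change Matrix.fromBlocks ((mon (fun l => (e l : ℤ)) z : F) • rho (tau z)) 0 0
      ((mon (fun l => (e l : ℤ)) z : F) • (1 : Matrix Unit Unit F)) = _
    rw [htau, ← Matrix.diagonal_smul, ← Matrix.diagonal_one, ← Matrix.diagonal_smul,
      Matrix.fromBlocks_diagonal]
    congr 1
    funext i
    rcases i with i | i
    · simp only [Sum.elim_inl, Pi.smul_apply, smul_eq_mul]
      rw [← Units.val_mul, ← mon_add]
      refine CoreA_mon_nat _ _ (fun l => ?_) z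
      have := he i l
      simp only [Pi.add_apply]
      omega
    · simp only [Sum.elim_inr, Pi.smul_apply, smul_eq_mul, mul_one]
      exact CoreA_mon_nat _ _ (fun l => rfl) z
  · intro A hA
    obtain ⟨y', h1, h2⟩ := hy A hA
    exact ⟨y', fun i z hz => h1 i z hz, fun j => by simpa only [hlc] using h2 j⟩

end Pool.Agent.Work.MP_bb5f23_al
end

-- merged part: Pool.Agent.Work.MP_bb5f23_al.Trans
section
/-! Transfer of linear systems to the complex numbers. -/

namespace Pool.Agent.Work.MP_bb5f23_al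

open Cardinal in
theorem Trans_infinite {t : Set ℂ} (ht : IsTranscendenceBasis ℚ ((↑) : t → ℂ)) : Infinite t := by
  have h := IsAlgClosed.cardinal_eq_cardinal_transcendence_basis_of_aleph0_lt' (R := ℚ)
    ((↑) : t → ℂ) ht (by simp) (by rw [Cardinal.mk_complex]; exact Cardinal.aleph0_lt_continuum)
  rw [Cardinal.infinite_iff, ← h, Cardinal.mk_complex]
  exact Cardinal.aleph0_le_continuum

/-- A countable field of characteristic zero embeds in `ℂ`: the algebraic closure of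
`FractionRing (MvPolynomial ℝ k₀)` has the cardinality of `ℂ`
(`IsAlgClosed.ringEquiv_of_equiv_of_charZero`; use `Shrink` or `ULift` for the universes, or extend
along a transcendence basis with `IsAlgClosed.lift`). -/
theorem exists_embedding_complex (k₀ : Type*) [Field k₀] [CharZero k₀] [Countable k₀] :
    Nonempty (k₀ →+* ℂ) := by
  obtain ⟨s, hs⟩ := exists_isTranscendenceBasis ℚ k₀
  obtain ⟨t, ht⟩ := exists_isTranscendenceBasis ℚ ℂ
  have := Trans_infinite ht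
  obtain ⟨e1, he1⟩ := exists_injective_nat s
  let e : s → t := fun a => Infinite.natEmbedding t (e1 a)
  have he : Function.Injective e := (Infinite.natEmbedding t).injective.comp he1
  have hind : AlgebraicIndependent ℚ (((↑) : t → ℂ) ∘ e) := ht.1.comp e he
  let R := Algebra.adjoin ℚ (Set.range ((↑) : s → k₀))
  let φ : R →ₐ[ℚ] ℂ :=
    (MvPolynomial.aeval (((↑) : t → ℂ) ∘ e)).comp hs.1.aevalEquiv.symm.toAlgHom
  have hφ : Function.Injective φ := fun a b hab =>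
    hs.1.aevalEquiv.symm.injective (algebraicIndependent_iff_injective_aeval.1 hind hab)
  let _ : Algebra R ℂ := φ.toRingHom.toAlgebra
  have : Algebra.IsAlgebraic R k₀ := hs.isAlgebraic
  have : FaithfulSMul R ℂ := (faithfulSMul_iff_algebraMap_injective R ℂ).2 hφ
  exact ⟨(IsAlgClosed.lift : k₀ →ₐ[R] ℂ).toRingHom⟩

theorem Trans_retract (K L : Type*) [Field K] [Field L] [Algebra K L] :
    ∃ p : L →ₗ[K] K, p 1 = 1 := by
  obtain ⟨p, hp⟩ := (Algebra.linearMap K L).exists_leftInverse_of_injective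
    (LinearMap.ker_eq_bot.2 (algebraMap K L).injective)
  refine ⟨p, ?_⟩
  have := LinearMap.congr_fun hp 1
  simpa using this

/-- `k₀` is the subfield generated by `S`; `l` and `l'` are `k₀`-linear retractions onto `k₀`
followed by the embeddings. -/
theorem exists_transfer {k : Type*} [Field k] [CharZero k] {S : Set k} (hS : S.Countable) :
    ∃ (k₀ : Subfield k) (f : k₀ →+* ℂ) (l : k →+ ℂ) (l' : ℂ →+ k), S ⊆ k₀ ∧
      (∀ (a : k₀) x, l (a * x) = f a * l x) ∧ (∀ (a : k₀) z, l' (f a * z) = a * l' z) ∧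
      l 1 = 1 ∧ l' 1 = 1 := by
  let k₀ := Subfield.closure S
  have hc : Countable k₀ := by
    rw [← Cardinal.mk_le_aleph0_iff]
    refine (Subfield.cardinalMk_closure_le_max S).trans (max_le ?_ le_rfl)
    exact Cardinal.le_aleph0_iff_set_countable.2 hS
  obtain ⟨f⟩ := exists_embedding_complex k₀
  let _ : Algebra k₀ ℂ := f.toAlgebra
  obtain ⟨p, hp⟩ := Trans_retract k₀ k
  obtain ⟨q, hq⟩ := Trans_retract k₀ ℂ
  refine ⟨k₀, f, f.toAddMonoidHom.comp p.toAddMonoidHom,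
    k₀.subtype.toAddMonoidHom.comp q.toAddMonoidHom, Subfield.subset_closure, ?_, ?_, ?_, ?_⟩
  · intro a x
    have : p ((a : k) * x) = a * p x := p.map_smul a x
    simp [this]
  · intro a z
    have : q (f a * z) = a * q z := q.map_smul a z
    simp [this]
  · simp [hp]
  · simp [hq]

end Pool.Agent.Work.MP_bb5f23_al
end

-- merged part: Pool.Agent.Work.MP_bb5f23_al.CoreB
section
/-! The core estimate in characteristic zero. -/

namespace Pool.Agent.Work.MP_bb5f23_al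

universe u

variable {F : Type} [Field F] [IsAlgClosed F] [IsFbar F] {G : Type u} [Group G]

section aux

variable {K L H X : Type*} [Field K] [Field L] [Group H] [MulAction H X]

theorem CoreB_smul (φ : K →+ L) {a : K} {b : L} (hab : ∀ x, φ (a * x) = b * φ x) (v : X →₀ K) :
    Finsupp.mapRange.addMonoidHom φ (a • v) = b • Finsupp.mapRange.addMonoidHom φ v := by
  ext x
  simp [hab]

theorem CoreB_rep (φ : K →+ L) (c : Cocycle K H X) (c' : Cocycle L H X)
    (hc : ∀ g x a, φ (c.c g x * a) = c'.c g x * φ a) (g : H) (v : X →₀ K) :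
    Finsupp.mapRange.addMonoidHom φ (c.rep g v) =
      c'.rep g (Finsupp.mapRange.addMonoidHom φ v) := by
  induction v using Finsupp.induction_linear with
  | zero => simp
  | add a b ha hb => simp only [map_add, ha, hb]
  | single x a =>
    simp only [Finsupp.mapRange.addMonoidHom_apply, Finsupp.mapRange_single, Cocycle.rep_single, hc]

theorem CoreB_lc (φ : K →+ L) (c : Cocycle K H X) (c' : Cocycle L H X)
    (hc : ∀ g x a, φ (c.c g x * a) = c'.c g x * φ a) (h : H →₀ K) (h' : H →₀ L)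
    (hh : ∀ g a, φ (h g * a) = h' g * φ a) (v : X →₀ K) :
    Finsupp.mapRange.addMonoidHom φ (lc c.rep v h) =
      lc c'.rep (Finsupp.mapRange.addMonoidHom φ v) h' := by
  classical
  simp only [lc, Finsupp.linearCombination_apply]
  rw [Finsupp.sum_of_support_subset h (s := h.support ∪ h'.support) Finset.subset_union_left _
      (by simp),
    Finsupp.sum_of_support_subset h' (s := h.support ∪ h'.support) Finset.subset_union_right _
      (by simp), map_sum]
  refine Finset.sum_congr rfl fun g _ => ?_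
  rw [CoreB_smul φ (hh g), CoreB_rep φ c c' hc]

theorem CoreB_countable (K : Type*) [Field K] : {a : K | IsOfFinOrder a}.Countable := by
  classical
  have : {a : K | IsOfFinOrder a} ⊆
      ⋃ n : ℕ, ((Polynomial.nthRoots (n + 1) (1 : K)).toFinset : Set K) := by
    intro a ha
    obtain ⟨n, hn, h⟩ := isOfFinOrder_iff_pow_eq_one.1 ha
    obtain ⟨m, rfl⟩ : ∃ m, n = m + 1 := ⟨n - 1, by omega⟩
    refine Set.mem_iUnion.2 ⟨m, ?_⟩
    simp [Polynomial.mem_nthRoots, h]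
  exact (Set.countable_iUnion fun n => (Finset.finite_toSet _).countable).mono this

end aux

omit [IsAlgClosed F] in
theorem CoreB_torsion {r : ℕ} (z : Fin r → Fˣ) : IsOfFinOrder z := by
  obtain ⟨p, hp, -, hF⟩ := IsFbar.exists_prime (F := F)
  refine IsOfFinOrder.pi fun i => ?_
  obtain ⟨m, hm, h⟩ := hF (z i)
  have h1 : 1 < p ^ m := Nat.one_lt_pow hm.ne' hp.one_lt
  refine isOfFinOrder_iff_pow_eq_one.2 ⟨p ^ m - 1, by omega, ?_⟩
  have h2 : z i ^ p ^ m = z i := Units.ext (by simpa using h)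
  have h3 : z i ^ (p ^ m - 1) * z i = 1 * z i := by
    rw [← pow_succ, Nat.sub_add_cancel h1.le, h2, one_mul]
  exact mul_right_cancel h3

/-- Transfer: `S` consists of the roots of unity of `k` (countable; they include the values of `c`
and of `θ`, the torus being torsion by `isOfFinOrder_of_rho` or `IsFbar`) and the coefficients of
`h` and `y`. Apply `Finsupp.mapRange l` to the solutions `y'` and `Finsupp.mapRange l'` to the
solution given by `coreC'`. -/
theorem coreK {X : Type u} [MulAction G X] {k : Type*} [Field k] [CharZero k] {ι : Type}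
    [Fintype ι] [DecidableEq ι] {r : ℕ}
    (rho : G →* Matrix ι ι F) (hrho : Function.Injective rho) (tau : (Fin r → Fˣ) →* G)
    (wt : ι → Fin r → ℤ) (htau : ∀ z, rho (tau z) = Matrix.diagonal fun i => (mon (wt i) z : F))
    (c : Cocycle k G X) (hc : ∀ g x, IsOfFinOrder (c.c g x)) (X0 : Finset X)
    (hX0 : ∀ x ∉ X0, ∃ α : Fin r → ℤ, α ≠ 0 ∧ ∀ z, tau z • x = x → mon α z = 1)
    {I J : Type} [Fintype I] [Fintype J]
    (h : J → I → G →₀ k) (θ : I → ((Fin r → Fˣ) →* kˣ)) (y : J → X →₀ k)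
    (hy : ∀ A : Subgroup Fˣ, Finite A → ∃ y' : I → X →₀ k,
      (∀ i z, (∀ l, z l ∈ A) → c.rep (tau z) (y' i) = (θ i z : k) • y' i) ∧
      ∀ j, ∑ i, lc c.rep (y' i) (h j i) = y j) :
    ∃ y' : I → X →₀ k, (∀ i, (y' i).support ⊆ X0) ∧
      ∀ j, ∑ i, lc c.rep (y' i) (h j i) = y j := by
  classical
  have hS : ({a : k | IsOfFinOrder a} ∪ ((⋃ j, ⋃ i, Set.range (h j i)) ∪
      ⋃ j, Set.range (y j))).Countable :=
    (CoreB_countable k).union
      ((Set.countable_iUnion fun j => Set.countable_iUnion fun i =>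
        (h j i).finite_range.countable).union
        (Set.countable_iUnion fun j => (y j).finite_range.countable))
  obtain ⟨k₀, f, l, l', hsub, hl, hl', l1, l1'⟩ := exists_transfer hS
  have hlf : ∀ a : k₀, l a = f a := fun a => by simpa [l1] using hl a 1
  have hmul : ∀ a ∈ k₀, ∀ x, l (a * x) = l a * l x := fun a ha x => by
    have := hl ⟨a, ha⟩ x
    rw [← hlf] at this
    exact this
  have hmul' : ∀ a ∈ k₀, ∀ z, l' (l a * z) = a * l' z := fun a ha z => by
    have := hl' ⟨a, ha⟩ z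
    rw [← hlf] at this
    exact this
  have hfin : ∀ u : kˣ, IsOfFinOrder u → (u : k) ∈ k₀ := fun u hu =>
    hsub (Or.inl ((Units.coeHom k).isOfFinOrder hu))
  have hcm : ∀ g x, (c.c g x : k) ∈ k₀ := fun g x => hfin _ (hc g x)
  have hθm : ∀ i z, (θ i z : k) ∈ k₀ := fun i z =>
    hfin _ ((θ i).isOfFinOrder (CoreB_torsion z))
  have hhm : ∀ j i g, h j i g ∈ k₀ := fun j i g =>
    hsub (Or.inr (Or.inl (Set.mem_iUnion.2 ⟨j, Set.mem_iUnion.2 ⟨i, g, rfl⟩⟩)))
  have hym : ∀ j x, y j x ∈ k₀ := fun j x =>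
    hsub (Or.inr (Or.inr (Set.mem_iUnion.2 ⟨j, x, rfl⟩)))
  have hne : ∀ u : kˣ, (u : k) ∈ k₀ → l u ≠ 0 := fun u hu h0 => by
    have := hmul u hu (u⁻¹ : kˣ)
    rw [Units.mul_inv, l1, h0, zero_mul] at this
    exact one_ne_zero this
  let c' : Cocycle ℂ G X :=
    { c := fun g x => Units.mk0 (l (c.c g x)) (hne _ (hcm g x))
      c_one := fun x => Units.ext (by simp [c.c_one, l1])
      c_mul := fun g g' x => Units.ext (by simp [c.c_mul, hmul _ (hcm _ _)]) }
  have hc'v : ∀ g x, (c'.c g x : ℂ) = l (c.c g x) := fun g x => rfl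
  have hc' : ∀ g x, ‖(c'.c g x : ℂ)‖ = 1 := fun g x => by
    have h1 : IsOfFinOrder (⟨c.c g x, hcm g x⟩ : k₀) := by
      obtain ⟨n, hn, h⟩ := isOfFinOrder_iff_pow_eq_one.1 (hc g x)
      refine isOfFinOrder_iff_pow_eq_one.2 ⟨n, hn, Subtype.ext ?_⟩
      simpa using congrArg Units.val h
    have h2 := (f.toMonoidHom.isOfFinOrder h1).norm_eq_one
    rw [hc'v]
    rw [show l (c.c g x) = f ⟨c.c g x, hcm g x⟩ from hlf ⟨_, hcm g x⟩]
    exact h2
  let θ' : I → ((Fin r → Fˣ) →* ℂ) := fun i =>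
    { toFun := fun z => l (θ i z)
      map_one' := by simp [l1]
      map_mul' := fun z z' => by simp [hmul _ (hθm _ _)] }
  have hcc : ∀ g x a, l (c.c g x * a) = c'.c g x * l a := fun g x a => hmul _ (hcm g x) a
  have hcc' : ∀ g x a, l' (c'.c g x * a) = c.c g x * l' a := fun g x a => hmul' _ (hcm g x) a
  obtain ⟨w, hw, hw'⟩ := coreC' rho hrho tau wt htau c' hc' X0 hX0
    (fun j i => Finsupp.mapRange.addMonoidHom l (h j i)) θ'
    (fun j => Finsupp.mapRange.addMonoidHom l (y j)) (fun A hA => by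
      obtain ⟨y', h1, h2⟩ := hy A hA
      refine ⟨fun i => Finsupp.mapRange.addMonoidHom l (y' i), fun i z hz => ?_, fun j => ?_⟩
      · rw [← CoreB_rep l c c' hcc, h1 i z hz]
        exact CoreB_smul l (hmul _ (hθm i z)) _
      · rw [← h2 j, map_sum]
        refine Finset.sum_congr rfl fun i _ => ?_
        exact (CoreB_lc l c c' hcc (h j i) _ (fun g a => hmul _ (hhm j i g) a) _).symm)
  refine ⟨fun i => Finsupp.mapRange.addMonoidHom l' (w i), fun i => ?_, fun j => ?_⟩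
  · exact (Finsupp.support_mapRange (hf := map_zero l')).trans (hw i)
  · have h3 := congrArg (Finsupp.mapRange.addMonoidHom l') (hw' j)
    rw [map_sum] at h3
    have h4 : Finsupp.mapRange.addMonoidHom l' (Finsupp.mapRange.addMonoidHom l (y j)) = y j := by
      ext x
      simpa [l1'] using hmul' _ (hym j x) 1
    rw [← h4, ← h3]
    refine Finset.sum_congr rfl fun i _ => ?_
    exact (CoreB_lc l' c' c hcc' _ (h j i) (fun g a => hmul' _ (hhm j i g) a) _).symm

end Pool.Agent.Work.MP_bb5f23_al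
end

-- merged part: Pool.Agent.Work.MP_bb5f23_al.Core
section
/-! The core finiteness theorem. -/

namespace Pool.Agent.Work.MP_bb5f23_al

universe u

variable {F : Type} [Field F] [IsAlgClosed F] [IsFbar F] {G : Type u} [Group G]

/-- A finite-dimensional space of linear maps is separated by finitely many evaluations. -/
theorem Core_eval {k M V U : Type*} [Field k] [AddCommGroup M] [Module k M] [AddCommGroup V]
    [Module k V] [AddCommGroup U] [Module k U] [FiniteDimensional k M]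
    (ev : M →ₗ[k] (V →ₗ[k] U)) (hev : Function.Injective ev) :
    ∃ (m : ℕ) (v : Fin m → V), ∀ φ : M, (∀ j, ev φ (v j) = 0) → φ = 0 := by
  classical
  obtain ⟨K, hK⟩ : ∃ K : Finset V → Submodule k M,
      ∀ T φ, φ ∈ K T ↔ ∀ v ∈ T, ev φ v = 0 := by
    refine ⟨fun T => ⨅ v ∈ T, LinearMap.ker (ev.flip v), fun T φ => ?_⟩
    simp [Submodule.mem_iInf]
  obtain ⟨_, ⟨T, rfl⟩, hT⟩ := IsArtinian.set_has_minimal (R := k) (M := M) (Set.range K)
    ⟨K ∅, ∅, rfl⟩
  refine ⟨T.card, fun j => (T.equivFin.symm j : V), fun φ hφ => ?_⟩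
  have h1 : φ ∈ K T := by
    rw [hK]
    intro v hv
    have := hφ (T.equivFin ⟨v, hv⟩)
    simpa using this
  apply hev
  rw [map_zero]
  ext v
  have h2 : K (insert v T) ≤ K T := by
    intro ψ hψ
    rw [hK] at hψ ⊢
    exact fun w hw => hψ w (Finset.mem_insert_of_mem hw)
  have h3 : K (insert v T) = K T := by
    by_contra h4
    exact hT _ ⟨insert v T, rfl⟩ (lt_of_le_of_ne h2 h4)
  rw [← h3, hK] at h1
  exact h1 v (Finset.mem_insert_self _ _)

/-- The dimension count. -/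
theorem Core_finite {k Y V U : Type*} [Field k] [AddCommGroup Y] [Module k Y] [AddCommGroup V]
    [Module k V] [AddCommGroup U] [Module k U] [FiniteDimensional k Y]
    (H : Submodule k (V →ₗ[k] U))
    (hstep : ∀ (m : ℕ) (v : Fin m → V), ∃ L : Y →ₗ[k] (Fin m → U),
      ∀ φ ∈ H, ∃ a, L a = fun j => φ (v j)) : Module.Finite k H := by
  have hrank : Module.rank k H ≤ (Module.finrank k Y : ℕ) := by
    refine rank_le fun s hs => ?_
    obtain ⟨P, hP⟩ : ∃ P : Submodule k H, P = Submodule.span k (s : Set H) := ⟨_, rfl⟩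
    have : FiniteDimensional k P := by
      rw [hP]
      exact FiniteDimensional.span_finset k s
    have hcard : Module.finrank k P = s.card := by
      rw [hP]
      exact finrank_span_finset_eq_card hs
    have hinj0 : Function.Injective (H.subtype ∘ₗ P.subtype) := fun a b hab => by
      have h1 : (a.1.1 : V →ₗ[k] U) = b.1.1 := hab
      exact Subtype.ext (Subtype.ext h1)
    obtain ⟨m, v, hv⟩ := Core_eval (M := P) (H.subtype ∘ₗ P.subtype) hinj0
    obtain ⟨L, hL⟩ := hstep m v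
    let ev : P →ₗ[k] (Fin m → U) := LinearMap.pi fun j => (H.subtype ∘ₗ P.subtype).flip (v j)
    have hev : ∀ φ : P, ev φ ∈ LinearMap.range L := fun φ => by
      obtain ⟨a, ha⟩ := hL φ.1.1 φ.1.2
      exact ⟨a, ha⟩
    have hinj : Function.Injective (ev.codRestrict _ hev) := by
      intro φ ψ hφ
      have h1 : ev φ = ev ψ := congrArg Subtype.val hφ
      have h2 : φ - ψ = 0 := hv _ fun j => by
        have h3 : (φ.1.1 : V →ₗ[k] U) (v j) = ψ.1.1 (v j) := congrFun h1 j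
        change (φ.1.1 : V →ₗ[k] U) (v j) - ψ.1.1 (v j) = 0
        exact sub_eq_zero.2 h3
      exact sub_eq_zero.1 h2
    rw [← hcard]
    exact (LinearMap.finrank_le_finrank_of_injective hinj).trans L.finrank_range_le
  exact Module.rank_lt_aleph0_iff.1 (hrank.trans_lt Cardinal.natCast_lt_aleph0)

/-- An equivariant map commutes with `lc`. -/
theorem Core_lc_map {k G C U : Type*} [Field k] [Group G] [AddCommGroup C] [Module k C]
    [AddCommGroup U] [Module k U] (ρ : Representation k G C) (σ : Representation k G U)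
    (f : C →ₗ[k] U) (a : G →₀ k) (hf : ∀ g ∈ a.support, ∀ w, f (ρ g w) = σ g (f w)) (w : C) :
    lc σ (f w) a = f (lc ρ w a) := by
  simp only [lc, Finsupp.linearCombination_apply, Finsupp.sum, map_sum, map_smul]
  exact Finset.sum_congr rfl fun g hg => by rw [hf g hg]

/-- `lc` is linear in the vector. -/
theorem Core_lc_op {k G U : Type*} [Field k] [Group G] [AddCommGroup U] [Module k U]
    (σ : Representation k G U) (a : G →₀ k) :
    ∃ T : U →ₗ[k] U, ∀ w, T w = lc σ w a := by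
  refine ⟨∑ g ∈ a.support, a g • σ g, fun w => ?_⟩
  simp [lc, Finsupp.linearCombination_apply, Finsupp.sum, LinearMap.sum_apply]

/-- Coordinates with respect to the generators. -/
theorem Core_gen {k G C : Type*} [Field k] [Group G] [AddCommGroup C] [Module k C]
    (ρ : Representation k G C) {I : Type*} [Fintype I] (g : I → C)
    (hspan : Submodule.span k {v | ∃ a i, v = ρ a (g i)} = ⊤) (w : C) :
    ∃ h : I → G →₀ k, ∑ i, lc ρ (g i) (h i) = w := by
  classical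
  have hw : w ∈ Submodule.span k {v | ∃ a i, v = ρ a (g i)} := by
    rw [hspan]
    trivial
  induction hw using Submodule.span_induction with
  | mem v hv =>
    obtain ⟨a, i, rfl⟩ := hv
    refine ⟨Pi.single i (Finsupp.single a 1), ?_⟩
    rw [Finset.sum_eq_single i]
    · simp [lc]
    · intro j _ hj
      simp [Pi.single_eq_of_ne hj]
    · simp
  | zero => exact ⟨0, by simp⟩
  | add v w _ _ hv hw =>
    obtain ⟨a, rfl⟩ := hv
    obtain ⟨b, rfl⟩ := hw
    exact ⟨a + b, by simp [Finset.sum_add_distrib]⟩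
  | smul t v _ hv =>
    obtain ⟨a, rfl⟩ := hv
    exact ⟨t • a, by simp [Finset.smul_sum]⟩

/-- Show `rank ≤ card I * card X0`. Given a finite-dimensional subspace `P` of `Hom`, choose
finitely many `v j` such that evaluation at them is injective on `P`, and write
`e (v j) = ∑ i, lc ρC (g i) (h j i)`. For `φ ∈ Hom` and finite `A`, extend `φ` (first to a linear
map on `C` along `e`) equivariantly for the finite group generated by the supports of `h` and
`tau (A ^ r)` (`closure_finite`, `exists_equivariant_extension` with `S = range e`); the images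
`y' i` of the `g i` satisfy the hypothesis of `coreK` for `y j = φ (v j)`. So the evaluation map
takes values in the image of the space of families supported in `X0`. -/
theorem core {X : Type u} [MulAction G X] {k : Type*} [Field k] [CharZero k] {ι : Type}
    [Fintype ι] [DecidableEq ι] {r : ℕ}
    (rho : G →* Matrix ι ι F) (hrho : Function.Injective rho) (tau : (Fin r → Fˣ) →* G)
    (wt : ι → Fin r → ℤ) (htau : ∀ z, rho (tau z) = Matrix.diagonal fun i => (mon (wt i) z : F))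
    (c : Cocycle k G X) (hc : ∀ g x, IsOfFinOrder (c.c g x)) (X0 : Finset X)
    (hX0 : ∀ x ∉ X0, ∃ α : Fin r → ℤ, α ≠ 0 ∧ ∀ z, tau z • x = x → mon α z = 1)
    {C V : Type*} [AddCommGroup C] [Module k C] [AddCommGroup V] [Module k V]
    (ρC : Representation k G C) (ρV : Representation k G V) (e : V →ₗ[k] C)
    (he : Function.Injective e) (he' : e ∈ Hom ρV ρC) {I : Type} [Fintype I] (g : I → C)
    (θ : I → ((Fin r → Fˣ) →* kˣ)) (hg : ∀ i z, ρC (tau z) (g i) = (θ i z : k) • g i)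
    (hspan : Submodule.span k {v | ∃ a i, v = ρC a (g i)} = ⊤) :
    Module.Finite k (Hom ρV c.rep) := by
  classical
  obtain ⟨Y, hY⟩ : ∃ Y : Submodule k (X →₀ k), Y = Finsupp.supported k k (X0 : Set X) := ⟨_, rfl⟩
  have : Module.Finite k Y := by
    rw [hY]
    exact Module.Finite.equiv (Finsupp.supportedEquivFinsupp (R := k) (M := k) (X0 : Set X)).symm
  obtain ⟨l, hl⟩ := e.exists_leftInverse_of_injective (LinearMap.ker_eq_bot.2 he)
  have hl' : ∀ v, l (e v) = v := fun v => LinearMap.congr_fun hl v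
  have stepA : ∀ (m : ℕ) (v : Fin m → V), ∃ L : (I → Y) →ₗ[k] (Fin m → X →₀ k),
      ∀ φ ∈ Hom ρV c.rep, ∃ a, L a = fun j => φ (v j) := by
    intro m v
    choose h hh using fun j => Core_gen ρC g hspan (e (v j))
    choose T hT using fun j i => Core_lc_op c.rep (h j i)
    refine ⟨LinearMap.pi fun j => ∑ i, T j i ∘ₗ Y.subtype ∘ₗ LinearMap.proj i, fun φ hφ => ?_⟩
    obtain ⟨y', h1, h2⟩ := coreK rho hrho tau wt htau c hc X0 hX0 h θ (fun j => φ (v j)) (by
      intro A hA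
      obtain ⟨S, hS⟩ : ∃ S : Set G, S = (⋃ j, ⋃ i, ((h j i).support : Set G)) ∪
          tau '' {z | ∀ l, z l ∈ (A : Set Fˣ)} := ⟨_, rfl⟩
      have hSf : S.Finite := by
        rw [hS]
        refine Set.Finite.union
          (Set.finite_iUnion fun j => Set.finite_iUnion fun i => Finset.finite_toSet _) ?_
        exact (Set.Finite.pi' fun _ => Set.toFinite (A : Set Fˣ)).image _
      obtain ⟨f, hf1, hf2⟩ := exists_equivariant_extension ρC c.rep (Subgroup.closure S)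
        (closure_finite rho hrho hSf) (LinearMap.range e) (by
          rintro a - _ ⟨w, rfl⟩
          exact ⟨ρV a w, he' a w⟩) (φ ∘ₗ l) (by
          rintro a - _ ⟨w, rfl⟩
          rw [← he' a w]
          simp only [LinearMap.comp_apply, hl']
          exact hφ a w)
      refine ⟨fun i => f (g i), fun i z hz => ?_, fun j => ?_⟩
      · rw [← hf2 (tau z) (Subgroup.subset_closure (by
          rw [hS]
          exact Or.inr ⟨z, hz, rfl⟩)), hg, map_smul]
      · have h3 : ∀ i, lc c.rep (f (g i)) (h j i) = f (lc ρC (g i) (h j i)) := fun i =>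
          Core_lc_map ρC c.rep f (h j i) (fun a ha => hf2 a (Subgroup.subset_closure (by
            rw [hS]
            exact Or.inl (Set.mem_iUnion.2 ⟨j, Set.mem_iUnion.2 ⟨i, ha⟩⟩)))) (g i)
        simp only [h3]
        rw [← map_sum, hh j, hf1 _ ⟨v j, rfl⟩]
        simp only [LinearMap.comp_apply, hl'])
    refine ⟨fun i => ⟨y' i, ?_⟩, ?_⟩
    · rw [hY, Finsupp.mem_supported]
      exact_mod_cast h1 i
    · funext j
      rw [← h2 j]
      simp [LinearMap.sum_apply, hT]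
  exact Core_finite (Y := I → Y) (Hom ρV c.rep) stepA

end Pool.Agent.Work.MP_bb5f23_al
end

-- merged part: Pool.Agent.Work.MP_bb5f23_al.Final
section
/-! Assembly: devissage along the filtrations. -/

namespace Pool.Agent.Work.MP_bb5f23_al

open scoped TensorProduct

universe w

section ext

variable {k G : Type*} [Field k] [Group G]

theorem finite_of_ker_le {A B C : Type*} [AddCommGroup A] [Module k A] [AddCommGroup B]
    [Module k B] [AddCommGroup C] [Module k C] (p : A →ₗ[k] B) (r : B →ₗ[k] C) [Module.Finite k A]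
    [Module.Finite k C] (h : LinearMap.ker r ≤ LinearMap.range p) : Module.Finite k B := by
  refine ⟨Submodule.fg_of_fg_map_of_fg_inf_ker r (IsNoetherian.noetherian _) ?_⟩
  rw [top_inf_eq]
  have : Module.Finite k (LinearMap.ker r) := Submodule.finiteDimensional_of_le h
  exact (Submodule.fg_top _).1 Module.Finite.fg_top

variable {V' V V'' Y : Type*} [AddCommGroup V'] [Module k V'] [AddCommGroup V] [Module k V]
  [AddCommGroup V''] [Module k V''] [AddCommGroup Y] [Module k Y]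
  {ρ' : Representation k G V'} {ρ : Representation k G V} {ρ'' : Representation k G V''}
  {σ : Representation k G Y}

/-- Precomposition. -/
def Hom.pre {i : V' →ₗ[k] V} (hi : i ∈ Hom ρ' ρ) (σ : Representation k G Y) :
    Hom ρ σ →ₗ[k] Hom ρ' σ where
  toFun f := ⟨f.1 ∘ₗ i, fun g v => by rw [LinearMap.comp_apply, hi g v, f.2 g]; rfl⟩
  map_add' _ _ := rfl
  map_smul' _ _ := rfl

/-- Postcomposition. -/
def Hom.post (σ : Representation k G Y) {i : V' →ₗ[k] V} (hi : i ∈ Hom ρ' ρ) :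
    Hom σ ρ' →ₗ[k] Hom σ ρ where
  toFun f := ⟨i ∘ₗ f.1, fun g v => by rw [LinearMap.comp_apply, f.2 g v, hi g]; rfl⟩
  map_add' _ _ := Subtype.ext (by ext; simp)
  map_smul' _ _ := Subtype.ext (by ext; simp)

theorem finite_src {i : V' →ₗ[k] V} {π : V →ₗ[k] V''} (hi : i ∈ Hom ρ' ρ) (hπ : π ∈ Hom ρ ρ'')
    (hs : Function.Surjective π) (he : Function.Exact i π) [Module.Finite k (Hom ρ' σ)]
    [Module.Finite k (Hom ρ'' σ)] : Module.Finite k (Hom ρ σ) := by
  refine finite_of_ker_le (Hom.pre hπ σ) (Hom.pre hi σ) fun f hf => ?_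
  have hf0 : ∀ v, f.1 (i v) = 0 := fun v =>
    LinearMap.congr_fun (congrArg Subtype.val (LinearMap.mem_ker.1 hf)) v
  obtain ⟨s, hs'⟩ := π.exists_rightInverse_of_surjective (LinearMap.range_eq_top.2 hs)
  have key : ∀ v, f.1 (s (π v)) = f.1 v := by
    intro v
    have h1 : π (s (π v) - v) = 0 := by
      rw [map_sub, sub_eq_zero]
      exact LinearMap.congr_fun hs' (π v)
    obtain ⟨u, hu⟩ := (he _).1 h1
    rw [← sub_eq_zero, ← map_sub, ← hu, hf0]
  refine ⟨⟨f.1 ∘ₗ s, fun g v => ?_⟩, Subtype.ext (LinearMap.ext key)⟩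
  obtain ⟨v, rfl⟩ := hs v
  rw [← hπ g v, LinearMap.comp_apply, LinearMap.comp_apply, key, key, f.2 g]

theorem finite_tgt {i : V' →ₗ[k] V} {π : V →ₗ[k] V''} (hi : i ∈ Hom ρ' ρ) (hπ : π ∈ Hom ρ ρ'')
    (hs : Function.Injective i) (he : Function.Exact i π) [Module.Finite k (Hom σ ρ')]
    [Module.Finite k (Hom σ ρ'')] : Module.Finite k (Hom σ ρ) := by
  refine finite_of_ker_le (Hom.post σ hi) (Hom.post σ hπ) fun f hf => ?_
  have hf0 : ∀ v, π (f.1 v) = 0 := fun v =>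
    LinearMap.congr_fun (congrArg Subtype.val (LinearMap.mem_ker.1 hf)) v
  obtain ⟨s, hs'⟩ := i.exists_leftInverse_of_injective (LinearMap.ker_eq_bot.2 hs)
  have key : ∀ v, i (s (f.1 v)) = f.1 v := by
    intro v
    obtain ⟨u, hu⟩ := (he _).1 (hf0 v)
    rw [← hu]
    exact congrArg i (LinearMap.congr_fun hs' u)
  refine ⟨⟨s ∘ₗ f.1, fun g v => hs ?_⟩, Subtype.ext (LinearMap.ext key)⟩
  rw [hi g, LinearMap.comp_apply, LinearMap.comp_apply, key, key, f.2 g]

theorem finite_of_inj {f : V →ₗ[k] V''} (hf : f ∈ Hom ρ ρ'') (hf' : Function.Injective f)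
    (_ : Module.Finite k (Hom σ ρ'')) : Module.Finite k (Hom σ ρ) :=
  Module.Finite.of_injective (Hom.post _ hf) fun _ _ hab => Subtype.ext <|
    LinearMap.ext fun v => hf' (LinearMap.congr_fun (congrArg Subtype.val hab) v)

theorem finite_intertwining (_ : Module.Finite k (Hom ρ σ)) :
    Module.Finite k (ρ.IntertwiningMap σ) := by
  let e : ρ.IntertwiningMap σ →ₗ[k] Hom ρ σ :=
    { toFun := fun f => ⟨f.toLinearMap, fun g v => f.isIntertwining _ _ g v⟩
      map_add' := fun _ _ => rfl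
      map_smul' := fun _ _ => rfl }
  exact Module.Finite.of_injective e fun a b hab =>
    Representation.IntertwiningMap.ext (congrArg Subtype.val hab)

theorem finite_of_subsingleton [Subsingleton (V →ₗ[k] Y)] : Module.Finite k (Hom ρ σ) :=
  Module.Finite.of_finite

theorem map_mem_Hom {W' W : Type*} [AddCommGroup W'] [Module k W'] [AddCommGroup W] [Module k W]
    {τ' : Representation k G W'} {τ : Representation k G W} {i : V' →ₗ[k] V} {j : W' →ₗ[k] W}
    (hi : i ∈ Hom ρ' ρ) (hj : j ∈ Hom τ' τ) :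
    TensorProduct.map i j ∈ Hom (ρ'.tprod τ') (ρ.tprod τ) := by
  intro g v
  induction v using TensorProduct.induction_on with
  | zero => simp
  | tmul a b => simp [hi g a, hj g b]
  | add a b ha hb => simp only [map_add, ha, hb]

theorem id_mem_Hom : LinearMap.id ∈ Hom ρ ρ := fun _ _ => rfl

end ext

namespace Datum

variable {F : Type} [Field F] {G : Type*} [Group G] {D : Datum F G}
variable {k : Type*} [Field k]

/-- `ρ` embeds in an induced module. -/
def Emb (D : Datum F G) {V : Type*} [AddCommGroup V] [Module k V] (ρ : Representation k G V) :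
    Prop := ∃ Q : D.Par k, ∃ f ∈ Hom ρ Q.rep, Function.Injective f

theorem Filt.inv {V : Type*} [AddCommGroup V] [Module k V] {ρ : Representation k G V}
    {W : Submodule k V} (h : D.Filt ρ W) : Inv ρ W := by
  cases h with
  | bot => exact fun g => bot_le
  | step _ _ _ _ _ _ h _ _ => exact h

theorem Filt.induct {V : Type w} [AddCommGroup V] [Module k V] {ρ : Representation k G V}
    (p : ∀ (X : Type w) [AddCommGroup X] [Module k X], Representation k G X → Prop)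
    (h0 : ∀ (X : Type w) [AddCommGroup X] [Module k X] (σ : Representation k G X),
      Subsingleton X → p X σ)
    (h1 : ∀ (X : Type w) [AddCommGroup X] [Module k X] (σ : Representation k G X),
      D.Emb σ → p X σ)
    (h2 : ∀ (X' X X'' : Type w) [AddCommGroup X'] [Module k X'] [AddCommGroup X] [Module k X]
      [AddCommGroup X''] [Module k X''] (σ' : Representation k G X') (σ : Representation k G X)
      (σ'' : Representation k G X'') (i : X' →ₗ[k] X) (π : X →ₗ[k] X''), i ∈ Hom σ' σ →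
      π ∈ Hom σ σ'' → Function.Injective i → Function.Surjective π → Function.Exact i π →
      p X' σ' → p X'' σ'' → p X σ)
    (h : D.Filt ρ ⊤) : p V ρ := by
  have main : ∀ W, D.Filt ρ W → ∀ hW : Inv ρ W, p W (ρ.subrepresentation W hW) := by
    intro W hF
    induction hF with
    | bot => exact fun hW => h0 _ _ inferInstance
    | step W W' Q f hF hle hinv hf hker ih =>
      intro hW'
      have hK : Inv (ρ.subrepresentation W' hW') (LinearMap.ker (f ∘ₗ W'.subtype)) := by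
        intro g v hv
        have hv' : f v = 0 := hv
        change f (ρ g v) = 0
        rw [hf g v v.2, hv', map_zero]
      refine h2 W W' (W' ⧸ LinearMap.ker (f ∘ₗ W'.subtype)) (ρ.subrepresentation W hF.inv) _
        ((ρ.subrepresentation W' hW').quotient _ hK) (Submodule.inclusion hle)
        (Submodule.mkQ _) (fun g v => rfl) (fun g v => rfl) (Submodule.inclusion_injective hle)
        (Submodule.mkQ_surjective _) (fun v => ?_) (ih _) (h1 _ _ ⟨Q, Submodule.liftQ _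
          (f ∘ₗ W'.subtype) le_rfl, fun g v => ?_, ?_⟩)
      · rw [Submodule.mkQ_apply, Submodule.Quotient.mk_eq_zero, LinearMap.mem_ker]
        refine (hker v v.2).trans ⟨fun hv => ⟨⟨v, hv⟩, rfl⟩, ?_⟩
        rintro ⟨u, rfl⟩
        exact u.2
      · obtain ⟨v, rfl⟩ := Submodule.mkQ_surjective _ v
        exact hf g v v.2
      · exact LinearMap.ker_eq_bot.1 (Submodule.ker_liftQ_eq_bot _ _ _ le_rfl)
  refine h2 (⊤ : Submodule k V) V PUnit (ρ.subrepresentation ⊤ h.inv) ρ 1 (Submodule.subtype ⊤) 0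
    (fun g v => rfl) (fun g v => rfl) (Submodule.subtype_injective _)
    (fun _ => ⟨0, rfl⟩) (fun v => ⟨fun _ => ⟨⟨v, trivial⟩, rfl⟩, fun _ => rfl⟩) (main _ h _)
    (h0 _ _ inferInstance)

variable [IsAlgClosed F] [IsFbar F] [CharZero k]

theorem finite_emb {M N : Type*} [AddCommGroup M] [Module k M] [AddCommGroup N] [Module k N]
    {ρM : Representation k G M} {ρN : Representation k G N} (hM : D.Emb ρM) (hN : D.Emb ρN)
    (Q : D.Par k) : Module.Finite k (Hom (ρM.tprod ρN) Q.rep) := by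
  obtain ⟨Q₁, f₁, h₁, h₁'⟩ := hM
  obtain ⟨Q₂, f₂, h₂, h₂'⟩ := hN
  obtain ⟨m, e, θ, he, hspan⟩ := Q₁.tensor_gen Q₂
  obtain ⟨X0, -, hX0⟩ := D.exists_fixed_finset Q.J'_sub
  exact core D.rho D.rho_inj D.tau D.wt D.rho_tau Q.coc Q.coc_finOrder X0 hX0 _ _
    (TensorProduct.map f₁ f₂) (TensorProduct.map_injective_of_flat_flat _ _ h₁' h₂')
    (map_mem_Hom h₁ h₂) e θ he hspan

theorem finite_par {M N : Type*} [AddCommGroup M] [Module k M] [AddCommGroup N] [Module k N]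
    {ρM : Representation k G M} {ρN : Representation k G N} (hM : D.Filt ρM ⊤)
    (hN : D.Filt ρN ⊤) (Q : D.Par k) : Module.Finite k (Hom (ρM.tprod ρN) Q.rep) := by
  refine hM.induct (fun X _ _ σ => Module.Finite k (Hom (σ.tprod ρN) Q.rep))
    (fun X _ _ σ _ => finite_of_subsingleton) (fun X _ _ σ hσ => ?_)
    fun X' X X'' _ _ _ _ _ _ σ' σ σ'' i π hi hπ _ hs he _ _ =>
      finite_src (map_mem_Hom hi id_mem_Hom) (map_mem_Hom hπ id_mem_Hom)
        (LinearMap.rTensor_surjective N hs) (rTensor_exact N he hs)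
  exact hN.induct (fun Y _ _ τ => Module.Finite k (Hom (σ.tprod τ) Q.rep))
    (fun Y _ _ τ _ => finite_of_subsingleton) (fun Y _ _ τ hτ => finite_emb hσ hτ Q)
    fun Y' Y Y'' _ _ _ _ _ _ τ' τ τ'' i π hi hπ _ hs he _ _ =>
      finite_src (map_mem_Hom id_mem_Hom hi) (map_mem_Hom id_mem_Hom hπ)
        (LinearMap.lTensor_surjective X hs) (lTensor_exact X he hs)

theorem main {M N L : Type*} [AddCommGroup M] [Module k M] [AddCommGroup N] [Module k N]
    [AddCommGroup L] [Module k L] {ρM : Representation k G M} {ρN : Representation k G N}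
    {ρL : Representation k G L} (hM : D.InX ρM) (hN : D.InX ρN) (hL : D.InX ρL) :
    Module.Finite k ((ρM.tprod ρN).IntertwiningMap ρL) := by
  have h : Module.Finite k (Hom (ρM.tprod ρN) ρL) := by
    refine (filt_top hL).induct (fun X _ _ σ => Module.Finite k (Hom (ρM.tprod ρN) σ))
      (fun X _ _ σ _ => finite_of_subsingleton) (fun X _ _ σ hσ => ?_)
      fun X' X X'' _ _ _ _ _ _ σ' σ σ'' i π hi hπ hs _ he _ _ => finite_tgt hi hπ hs he
    obtain ⟨Q, f, hf, hf'⟩ := hσ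
    exact finite_of_inj hf hf' (finite_par (filt_top hM) (filt_top hN) Q)
  exact finite_intertwining h

end Datum

end Pool.Agent.Work.MP_bb5f23_al
end

-- merged part: Pool.Agent.Work.MP_bb5f23_al.Stmt
section
/-!
Statement-level definitions, part 2: the root-group data of a connected reductive group over an
algebraically closed field (maximal torus, root subgroups, base).
References are to T. A. Springer, Linear algebraic groups, 2nd ed.
-/

namespace Pool.Agent.Work.MP_bb5f23_al.Stmt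

open scoped MatrixGroups

/-- The character `z ↦ ∏ z_i ^ α_i` of the split torus `(Fˣ)^r`. -/
def mon {F : Type} [Field F] {r : ℕ} (α : Fin r → ℤ) (z : Fin r → Fˣ) : Fˣ := ∏ i, z i ^ α i

/-- The cocharacter `t ↦ (t ^ c_i)_i` of the split torus `(Fˣ)^r`. -/
def cochar {F : Type} [Field F] {r : ℕ} (c : Fin r → ℤ) (t : Fˣ) : Fin r → Fˣ := fun i => t ^ c i

/-- The data: a matrix realisation `rho`, a torus `tau` with weights `wt`, roots `Phi` with base
`Delta` inside the character lattice, root homomorphisms `xh α`, and for each simple root a coroot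
`co α` and a homomorphism `phi α` from `SL(2)`. -/
structure Frame (F : Type) [Field F] (G : Type*) [Group G] (n r : ℕ) where
  rho : G →* Matrix (Fin n) (Fin n) F
  tau : (Fin r → Fˣ) →* G
  wt : Fin n → Fin r → ℤ
  Phi : Finset (Fin r → ℤ)
  Delta : Finset (Fin r → ℤ)
  xh : (Fin r → ℤ) → Multiplicative F →* G
  co : (Fin r → ℤ) → Fin r → ℤ
  phi : (Fin r → ℤ) → SL(2, F) →* G

namespace Frame

variable {F : Type} [Field F] {G : Type*} [Group G] {n r : ℕ} (D : Frame F G n r)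

/-- The maximal torus. -/
def T : Subgroup G := D.tau.range

/-- The normaliser of the torus; `W = N / T`. -/
def N : Subgroup G := Subgroup.normalizer (D.T : Set G)

/-- The root element `x_α(a)`. -/
def x (α : Fin r → ℤ) (a : F) : G := D.xh α (Multiplicative.ofAdd a)

/-- The root subgroup `U_α`. -/
def rootSub (α : Fin r → ℤ) : Subgroup G := (D.xh α).range

open Classical in
/-- The positive roots: roots that are sums of simple roots. -/
noncomputable def pos : Finset (Fin r → ℤ) :=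
  D.Phi.filter fun α => α ∈ AddSubmonoid.closure (D.Delta : Set (Fin r → ℤ))

/-- The unipotent radical of the Borel subgroup. -/
def U : Subgroup G := ⨆ α ∈ D.pos, D.rootSub α

/-- The unipotent radical of the opposite Borel subgroup. -/
def Uneg : Subgroup G := ⨆ α ∈ D.pos, D.rootSub (-α)

/-- The Borel subgroup `B = T U`. -/
def B : Subgroup G := D.T ⊔ D.U

/-- `U'_w` for `w = m T`: generated by the `U_α` with `α > 0` and `w(α) > 0`, where
`m U_α m⁻¹ = U_{w(α)}`. -/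
def U' (m : G) : Subgroup G :=
  ⨆ α ∈ D.pos, ⨆ _ : ∃ β ∈ D.pos, (D.rootSub α).map (MulAut.conj m).toMonoidHom = D.rootSub β,
    D.rootSub α

/-- The product `∏ x_α(a_α)` over a list of roots. -/
def prodX (l : List (Fin r → ℤ)) (a : (Fin r → ℤ) → F) : G := (l.map fun α => D.x α (a α)).prod

/-- `G` is linear and `T` is diagonal with weights `wt` (2.3.7, 3.2.3). -/
structure IsLinear : Prop where
  rho_inj : Function.Injective D.rho
  rho_tau : ∀ z, D.rho (D.tau z) = Matrix.diagonal fun i => (mon (D.wt i) z : F)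

/-- A reduced root system with base `Delta` (7.4.3, 7.4.4, 8.2.8). -/
structure IsRootSystem : Prop where
  delta_sub : D.Delta ⊆ D.Phi
  delta_indep : LinearIndependent ℤ fun α : D.Delta => (α : Fin r → ℤ)
  pos_or_neg : ∀ α ∈ D.Phi, α ∈ D.pos ∨ -α ∈ D.pos
  neg_mem : ∀ α ∈ D.Phi, -α ∈ D.Phi
  zero_not_mem : 0 ∉ D.Phi
  reduced : ∀ α ∈ D.Phi, ∀ β ∈ D.Phi, ∀ a b : ℤ, a ≠ 0 → a • β = b • α → β = α ∨ β = -α

/-- Root subgroups (8.1.1). -/
structure IsRootGroups : Prop where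
  x_inj : ∀ α ∈ D.Phi, Function.Injective (D.xh α)
  tau_x : ∀ α ∈ D.Phi, ∀ z a, D.tau z * D.x α a * (D.tau z)⁻¹ = D.x α (mon α z * a)
  gen : D.T ⊔ ⨆ α ∈ D.Phi, D.rootSub α = ⊤

/-- Rank one subgroups (7.2.4, 8.1.4). -/
structure IsRankOne : Prop where
  phi_upper : ∀ α ∈ D.Delta, ∀ (a : F) (g : SL(2, F)), g.1 = !![1, a; 0, 1] →
    D.phi α g = D.x α a
  phi_lower : ∀ α ∈ D.Delta, ∀ (a : F) (g : SL(2, F)), g.1 = !![1, 0; a, 1] →
    D.phi α g = D.x (-α) a
  phi_diag : ∀ α ∈ D.Delta, ∀ (t : Fˣ) (g : SL(2, F)), g.1 = !![(t : F), 0; 0, (t⁻¹ : Fˣ)] →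
    D.phi α g = D.tau (cochar (D.co α) t)

/-- The normaliser acts on the character lattice and permutes the root subgroups (7.1.4,
8.1.12), and the Weyl group acts freely on the Borel subgroups containing `T` (6.4.12). -/
structure IsWeyl : Prop where
  weyl : ∀ m ∈ D.N, ∃ A : (Fin r → ℤ) →+ (Fin r → ℤ),
    (∀ γ z z', D.tau z' = m * D.tau z * m⁻¹ → mon (A γ) z' = mon γ z) ∧
    ∀ β ∈ D.Phi, A β ∈ D.Phi ∧ ∃ c : Fˣ, ∀ a, m * D.x β a * m⁻¹ = D.x (A β) (c * a)
  norm_U : ∀ m ∈ D.N, (∀ u ∈ D.U, m * u * m⁻¹ ∈ D.U) → m ∈ D.T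

/-- Commutator relations (8.2.3), `U` is directly spanned by the positive root subgroups in any
order (8.2.1), and opposite Borel subgroups (8.3.6, 8.3.11). -/
structure IsUnip : Prop where
  comm : ∀ α ∈ D.pos, ∀ β ∈ D.pos, α ≠ β → ∀ a b,
    D.x α a * D.x β b * (D.x α a)⁻¹ * (D.x β b)⁻¹ ∈
      ⨆ γ ∈ D.Phi, ⨆ _ : ∃ i j : ℕ, 0 < i ∧ 0 < j ∧ γ = i • α + j • β, D.rootSub γ
  prod_surj : ∀ l : List (Fin r → ℤ), l.Nodup → (∀ α, α ∈ l ↔ α ∈ D.pos) →
    ∀ u ∈ D.U, ∃ a, u = D.prodX l a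
  prod_inj : ∀ l : List (Fin r → ℤ), l.Nodup → (∀ α, α ∈ l ↔ α ∈ D.pos) →
    ∀ a b, D.prodX l a = D.prodX l b → ∀ α ∈ l, a α = b α
  opp : D.B ⊓ D.Uneg = ⊥

/-- The standard properties of a maximal torus, its root subgroups and a base in a connected
reductive group. -/
structure IsDatum : Prop where
  linear : D.IsLinear
  roots : D.IsRootSystem
  groups : D.IsRootGroups
  rankOne : D.IsRankOne
  weyl : D.IsWeyl
  unip : D.IsUnip

end Frame

end Pool.Agent.Work.MP_bb5f23_al.Stmt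
end

-- merged part: Pool.Agent.Work.MP_bb5f23_al.Bridge
section
/-!
From the statement-level definitions to the working ones.
-/

namespace Pool.Agent.Work.MP_bb5f23_al

variable {F : Type} [Field F] {G : Type*} [Group G]

theorem PreDatum.inX_iff (D : PreDatum F G) {k : Type*} [Field k] {V : Type*} [AddCommGroup V]
    [Module k V] (ρ : Representation k G V) : D.InX ρ ↔ Stmt.InCat D.T D.U D.U' ρ := Iff.rfl

/-- The working data attached to a frame. -/
def Stmt.Frame.toPre {n r : ℕ} (D : Stmt.Frame F G n r) : PreDatum F G :=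
  ⟨n, r, D.rho, D.tau, D.wt, D.Phi, D.Delta, D.xh, D.co, D.phi⟩

/-- The working datum attached to a frame with the standard properties. -/
def Stmt.Frame.toDatum {n r : ℕ} (D : Stmt.Frame F G n r) (h : D.IsDatum) : Datum F G where
  toPreDatum := D.toPre
  rho_inj := h.linear.rho_inj
  rho_tau := h.linear.rho_tau
  delta_sub := h.roots.delta_sub
  delta_indep := h.roots.delta_indep
  pos_or_neg := h.roots.pos_or_neg
  neg_mem := h.roots.neg_mem
  zero_not_mem := h.roots.zero_not_mem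
  reduced := h.roots.reduced
  x_inj := h.groups.x_inj
  tau_x := h.groups.tau_x
  gen := h.groups.gen
  phi_upper := h.rankOne.phi_upper
  phi_lower := h.rankOne.phi_lower
  phi_diag := h.rankOne.phi_diag
  weyl := h.weyl.weyl
  norm_U := h.weyl.norm_U
  comm := h.unip.comm
  prod_surj := h.unip.prod_surj
  prod_inj := h.unip.prod_inj
  opp := h.unip.opp

theorem Stmt.Frame.inX_of_inCat {n r : ℕ} (D : Stmt.Frame F G n r) (h : D.IsDatum) {k : Type*}
    [Field k] {V : Type*} [AddCommGroup V] [Module k V] {ρ : Representation k G V}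
    (hρ : Stmt.InCat D.T D.U D.U' ρ) : (D.toDatum h).InX ρ := hρ

end Pool.Agent.Work.MP_bb5f23_al
end

-- merged part: Pool.Agent.Work.MP_bb5f23_al.LitMain
section
/-! Identification of the root subgroups and the main theorem. -/

namespace Pool.Agent.Work.MP_bb5f23_al.Lit

variable {F : Type} [Field F] [IsAlgClosed F] [IsFbar F] {n : ℕ}
  {G B T : Subgroup (GL (Fin n) F)}

section

omit [IsAlgClosed F] [IsFbar F] in
theorem LitMain_mem {H : Subgroup G} {g : G} : (g : GL (Fin n) F) ∈ H.map G.subtype ↔ g ∈ H :=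
  Subgroup.mem_map_iff_mem G.subtype_injective

omit [IsAlgClosed F] [IsFbar F] in
theorem LitMain_conj (H : Subgroup G) (w : G) :
    (H.map G.subtype).map (MulAut.conj (w : GL (Fin n) F)).toMonoidHom =
      (H.map (MulAut.conj w).toMonoidHom).map G.subtype := by
  rw [Subgroup.map_map, Subgroup.map_map]
  rfl

omit [IsAlgClosed F] [IsFbar F] in
theorem LitMain_le (D : Datum F G) {α : Fin D.r → ℤ} (hα : α ∈ D.pos) : D.rootSub α ≤ D.U :=
  le_iSup₂_of_le (f := fun α (_ : α ∈ D.pos) => D.rootSub α) α hα le_rfl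

omit [IsAlgClosed F] [IsFbar F] in
theorem LitMain_ne (D : Datum F G) {α : Fin D.r → ℤ} (hα : α ∈ D.Phi) : D.x α 1 ≠ 1 := fun h =>
  one_ne_zero (D.x_injective hα (h.trans (D.x_zero α).symm))

variable (D : Datum F G) (hT : D.T.map G.subtype = T) (hU : D.U.map G.subtype = Ru B)
  (hu : IsUnip (Ru B))
  (hcl : ∀ α ∈ D.Phi, ZClosed ((D.rootSub α).map G.subtype : Set (GL (Fin n) F)))
include hT hU hu hcl

/-- `T` acts transitively on the nontrivial elements of `rootSub α` (`tau_x`, `mon_surj`). -/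
theorem isRootSub_of_pos {α : Fin D.r → ℤ} (hα : α ∈ D.pos) :
    IsRootSub G T ((D.rootSub α).map G.subtype) := by
  have hα' := D.pos_sub hα
  have hconj : ∀ t ∈ T, ∀ g ∈ (D.rootSub α).map G.subtype,
      t * g * t⁻¹ ∈ (D.rootSub α).map G.subtype := by
    rw [← hT]
    rintro _ ⟨_, ⟨z, rfl⟩, rfl⟩ _ ⟨g, hg, rfl⟩
    obtain ⟨a, rfl⟩ := D.mem_rootSub.1 hg
    exact ⟨_, D.x_mem α (mon α z * a), congrArg Subtype.val (D.tau_x α hα' z a).symm⟩
  refine ⟨⟨Subgroup.map_subtype_le _, fun h => ?_, hcl α hα', fun g hg => hu g ?_, fun t ht => ?_⟩,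
    fun Q hQ hle => ?_⟩
  · have h1 := LitMain_mem.2 (D.x_mem α 1)
    rw [h, Subgroup.mem_bot] at h1
    exact LitMain_ne D hα' (Subtype.ext h1)
  · rw [← hU]
    exact Subgroup.map_mono (LitMain_le D hα) hg
  · refine Subgroup.mem_normalizer_iff.2 fun g => ⟨hconj t ht g, fun h => ?_⟩
    have h1 := hconj _ (T.inv_mem ht) _ h
    simpa [mul_assoc] using h1
  · obtain ⟨⟨q, hq⟩, hq1⟩ := (Subgroup.ne_bot_iff_exists_ne_one).1 hQ.2.1
    obtain ⟨g, hg, rfl⟩ := hle hq
    obtain ⟨a, rfl⟩ := D.mem_rootSub.1 hg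
    have ha : a ≠ 0 := by
      rintro rfl
      exact hq1 (Subtype.ext ((congrArg G.subtype (D.x_zero α)).trans (map_one _)))
    rintro _ ⟨g', hg', rfl⟩
    obtain ⟨b, rfl⟩ := D.mem_rootSub.1 hg'
    by_cases hb : b = 0
    · rw [hb, D.x_zero, map_one]
      exact Q.one_mem
    · obtain ⟨z, hz⟩ := mon_surj (α := α) (fun h => D.zero_not_mem (h ▸ hα'))
        (Units.mk0 (b / a) (div_ne_zero hb ha))
      have h1 := D.tau_x α hα' z a
      rw [hz, Units.val_mk0, div_mul_cancel₀ _ ha] at h1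
      have h2 : (D.tau z : GL (Fin n) F) ∈ T := hT ▸ LitMain_mem.2 ⟨z, rfl⟩
      rw [← h1]
      exact (Subgroup.mem_normalizer_iff.1 (hQ.2.2.2.2 h2) _).1 hq

/-- `Datum.le_iSup_of_stable` for `R.subgroupOf G` and minimality of `R`. -/
theorem exists_pos_of_isRootSub {R : Subgroup (GL (Fin n) F)} (hR : IsRootSub G T R)
    (h : R ≤ Ru B) : ∃ α ∈ D.pos, R = (D.rootSub α).map G.subtype := by
  have h1 := D.le_iSup_of_stable (R.subgroupOf G)
    (fun g hg => LitMain_mem.1 (hU ▸ h hg))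
    (fun t ht g hg => (Subgroup.mem_normalizer_iff.1
      (hR.1.2.2.2.2 (hT ▸ LitMain_mem.2 ht : (t : GL (Fin n) F) ∈ T)) _).1 hg)
  by_contra hn
  refine hR.1.2.1 (le_bot_iff.1 fun g hg => ?_)
  have h2 : R.subgroupOf G ≤ ⊥ := h1.trans (iSup₂_le fun γ hγ => iSup_le fun hle => by
    have h3 : (D.rootSub γ).map G.subtype ≤ R := Subgroup.map_le_iff_le_comap.2 hle
    exact (hn ⟨γ, hγ, le_antisymm (hR.2 (isRootSub_of_pos D hT hU hu hcl hγ).1 h3) h3⟩).elim)
  exact Subgroup.mem_bot.2 (congrArg Subtype.val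
    (Subgroup.mem_bot.1 (h2 (x := ⟨g, hR.1.1 hg⟩) hg)))

/-- `Datum.U'_eq`, `Datum.map_rootSub`, `Datum.mem_Psi`; a root subgroup of a negative root meets
`U` trivially (`opp`). -/
theorem map_U' {w : G} (hw : w ∈ D.N) : (D.U' w).map G.subtype = Uw G B T w := by
  rw [D.U'_eq hw]
  refine le_antisymm (Subgroup.map_le_iff_le_comap.2 (iSup₂_le fun β hβ => ?_)) (sSup_le ?_)
  · obtain ⟨h1, h2⟩ := D.mem_Psi.1 hβ
    refine Subgroup.map_le_iff_le_comap.1 (le_sSup ⟨isRootSub_of_pos D hT hU hu hcl h1, ?_, ?_⟩)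
    · rw [← hU]
      exact Subgroup.map_mono (LitMain_le D h1)
    · rw [LitMain_conj, D.map_rootSub hw (D.pos_sub h1), ← hU]
      exact Subgroup.map_mono (LitMain_le D h2)
  · rintro R ⟨h1, h2, h3⟩
    obtain ⟨α, hα, rfl⟩ := exists_pos_of_isRootSub D hT hU hu hcl h1 h2
    rw [LitMain_conj, D.map_rootSub hw (D.pos_sub hα), ← hU] at h3
    have h4 : D.x (D.act w α) 1 ∈ D.U := LitMain_mem.1 (h3 (LitMain_mem.2 (D.x_mem _ 1)))
    have h5 := D.act_mem hw (D.pos_sub hα)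
    refine Subgroup.map_mono (le_iSup₂_of_le (f := fun β (_ : β ∈ D.Psi w) => D.rootSub β) α
      (D.mem_Psi.2 ⟨hα, (D.pos_or_neg _ h5).resolve_right fun h6 => ?_⟩) le_rfl)
    have h7 := D.x_mem_Uneg h6 1
    rw [neg_neg] at h7
    exact LitMain_ne D h5 (Subgroup.mem_bot.1 (D.opp ▸ Subgroup.mem_inf.2 ⟨D.U_le_B h4, h7⟩))

theorem inX_of_lit {k : Type*} [Field k] {V : Type*} [AddCommGroup V] [Module k V]
    {ρ : Representation k G V} (h : InX G B T ρ) : D.InX ρ := by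
  have e : ∀ H : Subgroup G, (H.map G.subtype).subgroupOf G = H := fun H =>
    Subgroup.comap_map_eq_self_of_injective G.subtype_injective H
  have e1 : T.subgroupOf G = D.T := hT ▸ e _
  have e2 : (Ru B).subgroupOf G = D.U := hU ▸ e _
  unfold InX at h
  rw [e1, e2] at h
  obtain ⟨m, ξ, w, h1, h2, h3, h4, h5⟩ := h
  refine ⟨m, ξ, w, h1, h2, h3, h4, fun i => ⟨(h5 i).1, ?_⟩⟩
  have e3 : (Uw G B T (w i)).subgroupOf G = D.U' (w i) :=
    map_U' D hT hU hu hcl (h5 i).1 ▸ e _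
  have h6 := (h5 i).2
  simp only [e3] at h6
  exact h6

end

theorem main (hG : IsConnRed G) (hB : IsBorel G B) (hT : IsMaxTorus G T) (hTB : T ≤ B)
    {k : Type*} [Field k] [CharZero k] {M N L : Type*} [AddCommGroup M] [Module k M]
    [AddCommGroup N] [Module k N] [AddCommGroup L] [Module k L] {ρM : Representation k G M}
    {ρN : Representation k G N} {ρL : Representation k G L} (hM : InX G B T ρM)
    (hN : InX G B T ρN) (hL : InX G B T ρL) :
    Module.Finite k ((ρM.tprod ρN).IntertwiningMap ρL) := by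
  obtain ⟨D, h1, h2, h3, h4⟩ := exists_datum₀ hG hB hT hTB
  exact Datum.main (inX_of_lit D h1 h2 h3 h4 hM) (inX_of_lit D h1 h2 h3 h4 hN)
    (inX_of_lit D h1 h2 h3 h4 hL)

/-- Every element is algebraic over the finite field `K`, so it lies in a finite field. -/
theorem isFbar_closure (K : Type) [Field K] [Finite K] : IsFbar (AlgebraicClosure K) := by
  obtain ⟨p, hp⟩ := CharP.exists K
  refine ⟨p, CharP.char_is_prime K p, inferInstance, fun a => ?_⟩
  have h1 : IsIntegral K a := Algebra.IsIntegral.isIntegral a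
  have := IntermediateField.adjoin.finiteDimensional h1
  have : Finite (IntermediateField.adjoin K {a}) := Module.finite_of_finite K
  have := Fintype.ofFinite (IntermediateField.adjoin K {a})
  have : CharP (IntermediateField.adjoin K {a}) p :=
    charP_of_injective_algebraMap (algebraMap K _).injective p
  obtain ⟨m, -, hm⟩ := FiniteField.card (IntermediateField.adjoin K {a}) p
  have h2 := FiniteField.pow_card (IntermediateField.AdjoinSimple.gen K a)
  rw [hm] at h2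
  exact ⟨m, m.2, congrArg Subtype.val h2⟩

end Pool.Agent.Work.MP_bb5f23_al.Lit
end
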